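import Mathlib

/-!
# Steklov and mixed Steklov-Neumann problems with the same spectrum (`MP_fa5acb_gt`): definitions

The first part describes compact Riemannian surfaces and their Steklov eigenspaces, the second part
the sequences, kernels and plane domains used in the construction.
-/

open scoped BigOperators ComplexConjugate Topology ContDiff
open Complex

noncomputable section

namespace Pool.Agent.Stek

/-! ## Surfaces -/

/-- `n` is the outward unit normal of the closed set `K` at its boundary point `z`: near `z` the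
set `K` is a sublevel set `φ ≤ 0` of a smooth function whose differential at `z` is a positive
multiple of the inner product with the unit vector `n`. -/
def IsOutwardNormal (K : Set ℂ) (z n : ℂ) : Prop :=
  ∃ φ : ℂ → ℝ, ContDiffAt ℝ ∞ φ z ∧ φ z = 0 ∧ fderiv ℝ φ z ≠ 0 ∧
    (∀ᶠ w in 𝓝 z, w ∈ K ↔ φ w ≤ 0) ∧ ‖n‖ = 1 ∧
    ∀ v : ℂ, fderiv ℝ φ z v = ‖fderiv ℝ φ z‖ * (conj n * v).re

/-- A compact connected Riemannian surface with smooth boundary, presented as the quotient of a
compact plane domain `K` with smooth boundary and with the metric `exp (2 lam) |dz|^2` by the group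
generated by an isometric involution `iota` of `K`, which is either trivial or has no fixed
point. -/
structure Surf where
  K : Set ℂ
  compact : IsCompact K
  connected : IsConnected K
  smooth_boundary : ∀ z ∈ frontier K, ∃ n : ℂ, IsOutwardNormal K z n
  lam : ℂ → ℝ
  lam_smooth : ∀ z ∈ K, ContDiffAt ℝ ∞ lam z
  iota : ℂ → ℂ
  iota_smooth : ∀ z ∈ K, ContDiffAt ℝ ∞ iota z
  iota_maps : ∀ z ∈ K, iota z ∈ K
  iota_iota : ∀ z ∈ K, iota (iota z) = z
  iota_isometry : ∀ z ∈ K, ∀ v : ℂ,
    Real.exp (lam (iota z)) * ‖fderiv ℝ iota z v‖ = Real.exp (lam z) * ‖v‖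
  iota_free : (∀ z ∈ K, iota z = z) ∨ (∀ z ∈ K, iota z ≠ z)

/-- `SN` is a possible Neumann part of the boundary: a nonempty union of boundary components whose
complement in the boundary, the Steklov part, is nonempty too. -/
structure Surf.IsNeumannPart (M : Surf) (SN : Set ℂ) : Prop where
  subset : SN ⊆ frontier M.K
  closed : IsClosed SN
  closed_compl : IsClosed (frontier M.K \ SN)
  nonempty : SN.Nonempty
  nonempty_compl : (frontier M.K \ SN).Nonempty
  invariant : ∀ z ∈ SN, M.iota z ∈ SN

/-- The defining conditions of a function `U`, smooth near `K`, whose restriction to `K` is a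
`σ`-eigenfunction of the problem with Neumann part `SN` and Steklov part `frontier K \ SN`: it is
invariant under the involution, harmonic in the interior, its normal derivative for the metric
`exp (2 lam) |dz|^2` is `σ U` on the Steklov part and `0` on the Neumann part. -/
structure Surf.IsEigen (M : Surf) (SN : Set ℂ) (σ : ℝ) (U : ℂ → ℝ) : Prop where
  smooth : ∀ z ∈ M.K, ContDiffAt ℝ ∞ U z
  invariant : ∀ z ∈ M.K, U (M.iota z) = U z
  harmonic : InnerProductSpace.HarmonicOnNhd U (interior M.K)
  steklov : ∀ z ∈ frontier M.K \ SN, ∀ n : ℂ, IsOutwardNormal M.K z n →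
    fderiv ℝ U z n = σ * Real.exp (M.lam z) * U z
  neumann : ∀ z ∈ frontier M.K ∩ SN, ∀ n : ℂ, IsOutwardNormal M.K z n → fderiv ℝ U z n = 0

theorem Surf.IsEigen.add {M : Surf} {SN : Set ℂ} {σ : ℝ} {U V : ℂ → ℝ} (hU : M.IsEigen SN σ U)
    (hV : M.IsEigen SN σ V) : M.IsEigen SN σ (U + V) := by
  have hd : ∀ z ∈ frontier M.K, DifferentiableAt ℝ U z ∧ DifferentiableAt ℝ V z := fun z hz =>
    have h := M.compact.isClosed.frontier_subset hz
    ⟨(hU.smooth z h).differentiableAt (by simp), (hV.smooth z h).differentiableAt (by simp)⟩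
  refine ⟨fun z hz => (hU.smooth z hz).add (hV.smooth z hz), fun z hz => ?_,
    hU.harmonic.add hV.harmonic, fun z hz n hn => ?_, fun z hz n hn => ?_⟩
  · simp [hU.invariant z hz, hV.invariant z hz]
  · rw [fderiv_add (hd z hz.1).1 (hd z hz.1).2]
    simp [hU.steklov z hz n hn, hV.steklov z hz n hn]
    ring
  · rw [fderiv_add (hd z hz.1).1 (hd z hz.1).2]
    simp [hU.neumann z hz n hn, hV.neumann z hz n hn]

theorem Surf.IsEigen.smul {M : Surf} {SN : Set ℂ} {σ : ℝ} {U : ℂ → ℝ} (hU : M.IsEigen SN σ U)
    (c : ℝ) : M.IsEigen SN σ (c • U) := by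
  have hd : ∀ z ∈ frontier M.K, DifferentiableAt ℝ U z := fun z hz =>
    (hU.smooth z (M.compact.isClosed.frontier_subset hz)).differentiableAt (by simp)
  refine ⟨fun z hz => contDiffAt_const.smul (hU.smooth z hz), fun z hz => ?_,
    hU.harmonic.const_smul, fun z hz n hn => ?_, fun z hz n hn => ?_⟩
  · simp [hU.invariant z hz]
  · rw [fderiv_const_smul (hd z hz.1)]
    simp [hU.steklov z hz n hn]
    ring
  · rw [fderiv_const_smul (hd z hz.1)]
    simp [hU.neumann z hz n hn]

theorem Surf.IsEigen.zero (M : Surf) (SN : Set ℂ) (σ : ℝ) : M.IsEigen SN σ 0 := by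
  refine ⟨fun z _ => contDiffAt_const, fun z _ => rfl, ?_, fun z _ n _ => ?_, fun z _ n _ => ?_⟩
  · intro z _
    exact InnerProductSpace.harmonicAt_const 0
  · simp
  · simp

/-- The eigenspace, a space of real functions on `K`, that is of functions on the surface. -/
def Surf.eigen (M : Surf) (SN : Set ℂ) (σ : ℝ) : Submodule ℝ (M.K → ℝ) where
  carrier := {u | ∃ U : ℂ → ℝ, M.IsEigen SN σ U ∧ ∀ z : M.K, U z = u z}
  zero_mem' := ⟨0, Surf.IsEigen.zero M SN σ, fun _ => rfl⟩
  add_mem' := by
    rintro u v ⟨U, hU, hu⟩ ⟨V, hV, hv⟩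
    exact ⟨U + V, hU.add hV, fun z => by simp [hu z, hv z]⟩
  smul_mem' := by
    rintro c u ⟨U, hU, hu⟩
    exact ⟨c • U, hU.smul c, fun z => by simp [hu z]⟩

end Pool.Agent.Stek
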