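import Pool.Agent.Stek.PC2

/-!
# The parametrized kernels are in the class
-/

open scoped BigOperators ComplexConjugate Topology ContDiff
open Complex

noncomputable section

namespace Pool.Agent.Stek

open H_C2

theorem c1 (h3 : S3) (h4 : S4) (h9 : S9) (h2 : C2) : C1 := by
  intro y y' d hy hy'
  refine ⟨gb hy, fun hd n hn => d_le hd hn, ?_⟩
  intro κE κO hE hO
  have he := eps_pos
  have hr := rr_pos
  have hR := RR_pos
  have hM : 11 / 10 * eps ≤ 1 / 100 := by unfold eps; norm_num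
  have g1 := (h3 (11 / 10 * eps) 0 (gy y) (gy y) hM (gb hy) (gb hy)).1
  obtain ⟨qE, -, -, -, -⟩ := h9 κE κE (11 / 10 * eps) 0 0 (gy y) (gy y) hE hE hM (gb hy) (gb hy)
    le_rfl le_rfl
  obtain ⟨-, pO, -, -, -⟩ := h9 κO κO (11 / 10 * eps) 0 0 (gy y) (gy y) hO hO hM (gb hy) (gb hy)
    le_rfl le_rfl
  refine ⟨?_, ?_, ?_⟩
  · intro j k hj hk
    have hj' : (1 : ℝ) ≤ j := by exact_mod_cast hj
    have hk' : (1 : ℝ) ≤ k := by exact_mod_cast hk
    have a1 := g1 j k hj hk
    have a2 := qE j k hj hk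
    have h8 : (1 : ℝ) / ((j : ℝ) * k) ^ 3 ≤ 8 / ((j : ℝ) + k) ^ 3 := by
      rw [div_le_div_iff₀ (by positivity) (by positivity)]
      have h1 : (j : ℝ) + k ≤ 2 * ((j : ℝ) * k) := by nlinarith
      calc 1 * ((j : ℝ) + k) ^ 3 ≤ 1 * (2 * ((j : ℝ) * k)) ^ 3 := by gcongr
        _ = _ := by ring
    unfold Ak
    calc ‖-gam (gy y) j k + KQ κE (gy y) j k‖ ≤ ‖gam (gy y) j k‖ + ‖KQ κE (gy y) j k‖ := by
          refine (norm_add_le _ _).trans ?_
          rw [norm_neg]
      _ ≤ 11 / 10 * (11 / 10 * eps) / ((j : ℝ) + k) ^ 3 + 100 * (RR / rr) ^ 2 / ((j : ℝ) * k) ^ 3 :=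
          add_le_add a1 a2
      _ = 11 / 10 * (11 / 10 * eps) / ((j : ℝ) + k) ^ 3 + 100 * (RR / rr) ^ 2 * (1 / ((j : ℝ) * k) ^ 3) := by
          ring
      _ ≤ 11 / 10 * (11 / 10 * eps) / ((j : ℝ) + k) ^ 3 + 100 * (RR / rr) ^ 2 * (8 / ((j : ℝ) + k) ^ 3) := by
          gcongr
      _ = (11 / 10 * (11 / 10 * eps) + 800 * (RR / rr) ^ 2) / ((j : ℝ) + k) ^ 3 := by ring
      _ ≤ 2 * eps / ((j : ℝ) + k) ^ 3 := by
          refine div_le_div_of_nonneg_right ?_ (by positivity)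
          unfold eps RR rr
          norm_num
  · intro j k hj hk
    have hj' : (1 : ℝ) ≤ j := by exact_mod_cast hj
    have hk' : (1 : ℝ) ≤ k := by exact_mod_cast hk
    have a2 := pO j k hj hk
    unfold Bk
    rw [norm_div, norm_pow, Complex.norm_real, Real.norm_of_nonneg hr.le, div_le_iff₀ (by positivity)]
    refine a2.trans ?_
    rw [div_mul_eq_mul_div]
    refine div_le_div_of_nonneg_right ?_ (by positivity)
    unfold RR rr
    norm_num
  · intro k hk
    have hk' : (1 : ℝ) ≤ k := by exact_mod_cast hk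
    rcases Nat.lt_or_ge k 2 with hk2 | hk2
    · have hk1 : k = 1 := by omega
      subst hk1
      have e1 : Ak κE (gy y) 1 1 = gy y 2 + KQ κE (gy y) 1 1 := by
        unfold Ak
        rw [(h4 (gy y) 1 le_rfl).1, neg_neg]
      have b1 := qE 1 1 le_rfl le_rfl
      have b2 : eps / 16 ≤ ‖gy y 2‖ := by
        rw [gyO y le_rfl (Or.inl rfl), vvO (Or.inl rfl), Complex.norm_real, Real.norm_eq_abs]
        have c1 := (Complex.abs_re_le_norm (y 2)).trans (hy 2)
        have c2 := dl_le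
        rw [abs_le] at c1
        refine le_trans ?_ (le_abs_self _)
        push_cast
        have : (1 / 2 : ℝ) ≤ 1 + (y 2).re := by linarith [c1.1]
        calc eps / 16 = eps / 2 ^ 3 * (1 / 2) := by ring
          _ ≤ eps / 2 ^ 3 * (1 + (y 2).re) := by gcongr
      rw [e1]
      have b3 : ‖gy y 2‖ ≤ ‖gy y 2 + KQ κE (gy y) 1 1‖ + ‖KQ κE (gy y) 1 1‖ := by
        have := norm_sub_le (gy y 2 + KQ κE (gy y) 1 1) (KQ κE (gy y) 1 1)
        rwa [add_sub_cancel_right] at this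
      have b4 : ‖KQ κE (gy y) 1 1‖ ≤ 100 * (RR / rr) ^ 2 := by
        refine b1.trans (le_of_eq ?_)
        push_cast
        ring
      have b5 : eps ^ 2 / (2 * (2 * ((1 : ℕ) : ℝ)) ^ 3) + 100 * (RR / rr) ^ 2 ≤ eps / 16 := by
        unfold eps RR rr
        norm_num
      linarith
    · obtain ⟨-, -, -, c4, -⟩ := h2 y y 0 k κE hE hy hy (fun n => by simp) hk2
      have hvv := vv_even hk2
      have hvp : 0 < vv (2 * k) := by rw [hvv]; positivity
      set q : ℂ := Ak κE (gy y) k k / vv (2 * k) with hq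
      have e1 : ‖Ak κE (gy y) k k‖ = ‖q‖ * vv (2 * k) := by
        rw [hq, norm_div, Complex.norm_real, Real.norm_of_nonneg hvp.le,
          div_mul_cancel₀ _ hvp.ne']
      have c5 : 1 / 2 ≤ ‖q‖ := by
        have c6 := (Complex.abs_im_le_norm (q - (I + 100 * y (2 * k) + thf y k))).trans c4
        have c7 := (Complex.abs_im_le_norm (y (2 * k))).trans (hy _)
        have c8 := dl_le
        have e2 : (q - (I + 100 * y (2 * k) + thf y k)).im = q.im - 1 - 100 * (y (2 * k)).im := by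
          simp
          ring
        rw [e2, abs_le] at c6
        rw [abs_le] at c7
        have c9 : 1 / 2 ≤ q.im := by linarith [c6.1, c7.1]
        exact c9.trans ((le_abs_self _).trans (Complex.abs_im_le_norm q))
      rw [e1, hvv]
      calc eps ^ 2 / (2 * (2 * (k : ℝ)) ^ 3) = 1 / 2 * (eps ^ 2 / (2 * (k : ℝ)) ^ 3) := by ring
        _ ≤ ‖q‖ * (eps ^ 2 / (2 * (k : ℝ)) ^ 3) := by gcongr

end Pool.Agent.Stek
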