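import Pool.Agent.Stek.TSeq

/-!
# The normalized diagonal of the parametrized kernels
-/

open scoped BigOperators ComplexConjugate Topology ContDiff
open Complex

noncomputable section

namespace Pool.Agent.Stek

namespace H_C2

lemma eps_pos : 0 < eps := by unfold eps; positivity
lemma dl_pos : 0 < dl := by unfold dl; positivity
lemma dl_le : dl ≤ 1 / 10 ^ 6 := by unfold dl; norm_num
lemma rr_pos : 0 < rr := by unfold rr; positivity
lemma RR_pos : 0 < RR := by unfold RR; positivity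

/-- the large indices -/
abbrev OO (n : ℕ) : Prop := n = 2 ∨ n % 2 = 1

lemma vvO {n : ℕ} (h : OO n) : vv n = eps / (n : ℝ) ^ 3 := by
  unfold vv
  rw [if_pos h]

lemma vvE {n : ℕ} (h : ¬ OO n) : vv n = eps ^ 2 / (n : ℝ) ^ 3 := by
  unfold vv
  rw [if_neg h]

lemma gyO (y : ℕ → ℂ) {n : ℕ} (hn : 2 ≤ n) (h : OO n) :
    gy y n = ((vv n * (1 + (y n).re) : ℝ) : ℂ) := by
  unfold gy
  rw [if_neg (by omega), if_pos h]
  push_cast
  ring

lemma gyE (y : ℕ → ℂ) {n : ℕ} (hn : 2 ≤ n) (h : ¬ OO n) :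
    gy y n = vv n * (I + 100 * y n) := by
  unfold gy
  rw [if_neg (by omega), if_neg h]

lemma gyO_le {y : ℕ → ℂ} (hy : ∀ n, ‖y n‖ ≤ dl) {n : ℕ} (hn : 2 ≤ n) (h : OO n) :
    ‖gy y n‖ ≤ 101 / 100 * eps / (n : ℝ) ^ 3 := by
  rw [gyO y hn h, Complex.norm_real, vvO h, norm_mul]
  have h1 := (Complex.abs_re_le_norm (y n)).trans (hy n)
  have h2 := dl_le
  have he := eps_pos
  rw [Real.norm_of_nonneg (by positivity), Real.norm_eq_abs]
  have h3 : |1 + (y n).re| ≤ 101 / 100 := by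
    rw [abs_le] at h1 ⊢
    constructor <;> linarith [h1.1, h1.2]
  calc eps / (n : ℝ) ^ 3 * |1 + (y n).re| ≤ eps / (n : ℝ) ^ 3 * (101 / 100) := by gcongr
    _ = _ := by ring

lemma gyE_le {y : ℕ → ℂ} (hy : ∀ n, ‖y n‖ ≤ dl) {n : ℕ} (hn : 2 ≤ n) (h : ¬ OO n) :
    ‖gy y n‖ ≤ 101 / 100 * eps ^ 2 / (n : ℝ) ^ 3 := by
  rw [gyE y hn h, norm_mul, Complex.norm_real, vvE h]
  have h2 := dl_le
  have he := eps_pos
  rw [Real.norm_of_nonneg (by positivity)]
  have h3 : ‖I + 100 * y n‖ ≤ 101 / 100 := by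
    refine (norm_add_le _ _).trans ?_
    rw [Complex.norm_I, norm_mul]
    have : ‖(100 : ℂ)‖ = 100 := by simp
    rw [this]
    have := hy n
    linarith
  calc eps ^ 2 / (n : ℝ) ^ 3 * ‖I + 100 * y n‖ ≤ eps ^ 2 / (n : ℝ) ^ 3 * (101 / 100) := by gcongr
    _ = _ := by ring

lemma gy_le {y : ℕ → ℂ} (hy : ∀ n, ‖y n‖ ≤ dl) {n : ℕ} (hn : 2 ≤ n) :
    ‖gy y n‖ ≤ 101 / 100 * eps / (n : ℝ) ^ 3 := by
  by_cases h : OO n
  · exact gyO_le hy hn h
  · refine (gyE_le hy hn h).trans ?_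
    have he := eps_pos
    gcongr
    unfold eps
    norm_num

lemma dO {y y' : ℕ → ℂ} {d : ℝ} (hd : ∀ n, ‖y n - y' n‖ ≤ d) {n : ℕ} (hn : 2 ≤ n) (h : OO n) :
    ‖gy y n - gy y' n‖ ≤ eps * d / (n : ℝ) ^ 3 := by
  have he := eps_pos
  rw [gyO y hn h, gyO y' hn h, vvO h, ← Complex.ofReal_sub, Complex.norm_real]
  have e : eps / (n : ℝ) ^ 3 * (1 + (y n).re) - eps / (n : ℝ) ^ 3 * (1 + (y' n).re)
      = eps / (n : ℝ) ^ 3 * (y n - y' n).re := by rw [Complex.sub_re]; ring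
  rw [e, norm_mul, Real.norm_of_nonneg (by positivity), Real.norm_eq_abs]
  have h1 := (Complex.abs_re_le_norm (y n - y' n)).trans (hd n)
  calc eps / (n : ℝ) ^ 3 * |(y n - y' n).re| ≤ eps / (n : ℝ) ^ 3 * d := by gcongr
    _ = _ := by ring

lemma dE {y y' : ℕ → ℂ} {d : ℝ} (hd : ∀ n, ‖y n - y' n‖ ≤ d) {n : ℕ} (hn : 2 ≤ n)
    (h : ¬ OO n) : ‖gy y n - gy y' n‖ ≤ 100 * eps ^ 2 * d / (n : ℝ) ^ 3 := by
  have he := eps_pos
  rw [gyE y hn h, gyE y' hn h, vvE h]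
  have e : ((eps ^ 2 / (n : ℝ) ^ 3 : ℝ) : ℂ) * (I + 100 * y n)
      - ((eps ^ 2 / (n : ℝ) ^ 3 : ℝ) : ℂ) * (I + 100 * y' n)
      = ((eps ^ 2 / (n : ℝ) ^ 3 : ℝ) : ℂ) * (100 * (y n - y' n)) := by ring
  rw [e, norm_mul, Complex.norm_real, Real.norm_of_nonneg (by positivity), norm_mul]
  have : ‖(100 : ℂ)‖ = 100 := by simp
  rw [this]
  calc eps ^ 2 / (n : ℝ) ^ 3 * (100 * ‖y n - y' n‖) ≤ eps ^ 2 / (n : ℝ) ^ 3 * (100 * d) := by
        gcongr
        exact hd n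
    _ = _ := by ring

lemma d_le {y y' : ℕ → ℂ} {d : ℝ} (hd : ∀ n, ‖y n - y' n‖ ≤ d) {n : ℕ} (hn : 2 ≤ n) :
    ‖gy y n - gy y' n‖ ≤ eps * d / (n : ℝ) ^ 3 := by
  by_cases h : OO n
  · exact dO hd hn h
  · refine (dE hd hn h).trans ?_
    have he := eps_pos
    have hd0 : 0 ≤ d := (norm_nonneg _).trans (hd 0)
    gcongr
    unfold eps
    norm_num

lemma gb {y : ℕ → ℂ} (hy : ∀ n, ‖y n‖ ≤ dl) : Gb (11 / 10 * eps) (gy y) := by
  intro n hn
  refine (gy_le hy hn).trans ?_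
  have he := eps_pos
  exact div_le_div_of_nonneg_right (by linarith) (by positivity)

/-- the weights -/
def cc (l n : ℕ) : ℝ := ((min n (2 * l - n) - 1 : ℕ) : ℝ) / ((n : ℝ) ^ 3 * ((2 * l - n : ℕ) : ℝ) ^ 3)

lemma cc_nonneg (l n : ℕ) : 0 ≤ cc l n := by unfold cc; positivity

lemma sumw (N : ℕ) : ∑ n ∈ Finset.Ico 2 (N + 2), ((n : ℝ) - 1) / (n : ℝ) ^ 3 ≤ 1 / 2 - 1 / (N + 2 : ℝ) := by
  induction N with
  | zero => simp
  | succ N ih =>
    rw [show N + 1 + 2 = (N + 2) + 1 by ring, Finset.sum_Ico_succ_top (by omega)]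
    have h1 : (((N + 2 : ℕ) : ℝ) - 1) / ((N + 2 : ℕ) : ℝ) ^ 3 ≤ 1 / (N + 2 : ℝ) - 1 / ((N + 2 : ℝ) + 1) := by
      push_cast
      have hN : (0 : ℝ) ≤ N := by positivity
      rw [div_sub_div _ _ (by positivity) (by positivity), div_le_div_iff₀ (by positivity) (by positivity)]
      nlinarith [sq_nonneg ((N : ℝ) + 2)]
    have h2 : (1 : ℝ) / (((N + 1 : ℕ) : ℝ) + 2) = 1 / ((N + 2 : ℝ) + 1) := by
      push_cast
      congr 1
      ring
    rw [h2]
    linarith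

lemma sum_cc {l : ℕ} (hl : 2 ≤ l) : ∑ n ∈ Finset.Ico 2 (2 * l - 1), cc l n ≤ 8 / (2 * (l : ℝ)) ^ 3 := by
  have hl' : (2 : ℝ) ≤ l := by exact_mod_cast hl
  have h1 : ∀ n ∈ Finset.Ico 2 (2 * l - 1), cc l n ≤ 8 / (2 * (l : ℝ)) ^ 3 *
      (((n : ℝ) - 1) / (n : ℝ) ^ 3 + (((2 * l - n : ℕ) : ℝ) - 1) / ((2 * l - n : ℕ) : ℝ) ^ 3) := by
    intro n hn
    rw [Finset.mem_Ico] at hn
    set m : ℕ := 2 * l - n with hm
    have hm2 : 2 ≤ m := by omega
    have hn2 : 2 ≤ n := hn.1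
    have hnr : (2 : ℝ) ≤ n := by exact_mod_cast hn2
    have hmr : (2 : ℝ) ≤ m := by exact_mod_cast hm2
    have hnm : (n : ℝ) + m = 2 * l := by
      have : n + m = 2 * l := by omega
      exact_mod_cast this
    unfold cc
    rw [← hm]
    have hmin1 : ((min n m - 1 : ℕ) : ℝ) ≤ (n : ℝ) - 1 := by
      rw [Nat.cast_sub (by omega), Nat.cast_one]
      have : ((min n m : ℕ) : ℝ) ≤ n := by exact_mod_cast min_le_left n m
      linarith
    have hmin2 : ((min n m - 1 : ℕ) : ℝ) ≤ (m : ℝ) - 1 := by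
      rw [Nat.cast_sub (by omega), Nat.cast_one]
      have : ((min n m : ℕ) : ℝ) ≤ m := by exact_mod_cast min_le_right n m
      linarith
    have p1 : 0 ≤ ((n : ℝ) - 1) / (n : ℝ) ^ 3 := div_nonneg (by linarith) (by positivity)
    have p2 : 0 ≤ ((m : ℝ) - 1) / (m : ℝ) ^ 3 := div_nonneg (by linarith) (by positivity)
    rcases le_total n m with h | h
    · have hlm : (l : ℝ) ≤ m := by
        have : (n : ℝ) ≤ m := by exact_mod_cast h
        linarith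
      have h3 : 1 / (m : ℝ) ^ 3 ≤ 8 / (2 * (l : ℝ)) ^ 3 := by
        have : (8 : ℝ) / (2 * (l : ℝ)) ^ 3 = 1 / (l : ℝ) ^ 3 := by field_simp; norm_num
        rw [this]
        gcongr
      calc ((min n m - 1 : ℕ) : ℝ) / ((n : ℝ) ^ 3 * (m : ℝ) ^ 3)
          = ((min n m - 1 : ℕ) : ℝ) / (n : ℝ) ^ 3 * (1 / (m : ℝ) ^ 3) := by field_simp
        _ ≤ ((n : ℝ) - 1) / (n : ℝ) ^ 3 * (8 / (2 * (l : ℝ)) ^ 3) := by gcongr
        _ ≤ _ := by
          have : 0 ≤ 8 / (2 * (l : ℝ)) ^ 3 * (((m : ℝ) - 1) / (m : ℝ) ^ 3) := by positivity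
          linarith
    · have hlm : (l : ℝ) ≤ n := by
        have : (m : ℝ) ≤ n := by exact_mod_cast h
        linarith
      have h3 : 1 / (n : ℝ) ^ 3 ≤ 8 / (2 * (l : ℝ)) ^ 3 := by
        have : (8 : ℝ) / (2 * (l : ℝ)) ^ 3 = 1 / (l : ℝ) ^ 3 := by field_simp; norm_num
        rw [this]
        gcongr
      calc ((min n m - 1 : ℕ) : ℝ) / ((n : ℝ) ^ 3 * (m : ℝ) ^ 3)
          = ((min n m - 1 : ℕ) : ℝ) / (m : ℝ) ^ 3 * (1 / (n : ℝ) ^ 3) := by field_simp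
        _ ≤ ((m : ℝ) - 1) / (m : ℝ) ^ 3 * (8 / (2 * (l : ℝ)) ^ 3) := by gcongr
        _ ≤ _ := by
          have : 0 ≤ 8 / (2 * (l : ℝ)) ^ 3 * (((n : ℝ) - 1) / (n : ℝ) ^ 3) := by positivity
          linarith
  have h2 : ∑ n ∈ Finset.Ico 2 (2 * l - 1), ((n : ℝ) - 1) / (n : ℝ) ^ 3 ≤ 1 / 2 := by
    have := sumw (2 * l - 3)
    rw [show 2 * l - 3 + 2 = 2 * l - 1 by omega] at this
    refine this.trans ?_
    have : (0 : ℝ) ≤ 1 / (((2 * l - 3 : ℕ) : ℝ) + 2) := by positivity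
    linarith
  have h3 : ∑ n ∈ Finset.Ico 2 (2 * l - 1), (((2 * l - n : ℕ) : ℝ) - 1) / ((2 * l - n : ℕ) : ℝ) ^ 3
      = ∑ n ∈ Finset.Ico 2 (2 * l - 1), ((n : ℝ) - 1) / (n : ℝ) ^ 3 := by
    have := Finset.sum_Ico_reflect (fun n : ℕ => ((n : ℝ) - 1) / (n : ℝ) ^ 3) 2
      (show 2 * l - 1 ≤ 2 * l + 1 by omega)
    rw [show 2 * l + 1 - (2 * l - 1) = 2 by omega, show 2 * l + 1 - 2 = 2 * l - 1 by omega] at this
    exact this
  calc ∑ n ∈ Finset.Ico 2 (2 * l - 1), cc l n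
      ≤ ∑ n ∈ Finset.Ico 2 (2 * l - 1), 8 / (2 * (l : ℝ)) ^ 3 *
        (((n : ℝ) - 1) / (n : ℝ) ^ 3 + (((2 * l - n : ℕ) : ℝ) - 1) / ((2 * l - n : ℕ) : ℝ) ^ 3) :=
        Finset.sum_le_sum h1
    _ = 8 / (2 * (l : ℝ)) ^ 3 * (∑ n ∈ Finset.Ico 2 (2 * l - 1), ((n : ℝ) - 1) / (n : ℝ) ^ 3
          + ∑ n ∈ Finset.Ico 2 (2 * l - 1), ((n : ℝ) - 1) / (n : ℝ) ^ 3) := by
        rw [← Finset.mul_sum, Finset.sum_add_distrib, h3]
    _ ≤ 8 / (2 * (l : ℝ)) ^ 3 * (1 / 2 + 1 / 2) := by gcongr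
    _ = _ := by ring

lemma thf_eq (y : ℕ → ℂ) (l : ℕ) : thf y l = 1 / 2 * (2 * (l : ℝ)) ^ 3 *
    ∑ n ∈ Finset.Ico 2 (2 * l - 1), if OO n ∧ OO (2 * l - n) then
      cc l n * ((1 + (y n).re) * (1 + (y (2 * l - n)).re)) else 0 := by
  unfold thf
  congr 1
  refine Finset.sum_congr rfl fun n _ => ?_
  split_ifs
  · unfold cc
    ring
  · rfl

/-- the products with a small factor -/
def EE (y : ℕ → ℂ) (l : ℕ) : ℂ :=
  ∑ n ∈ Finset.Ico 2 (2 * l - 1), if OO n ∧ OO (2 * l - n) then 0 else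
    ((min n (2 * l - n) - 1 : ℕ) : ℂ) * gy y n * gy y (2 * l - n)

lemma vv_even {l : ℕ} (hl : 2 ≤ l) : vv (2 * l) = eps ^ 2 / (2 * (l : ℝ)) ^ 3 := by
  rw [vvE (by unfold OO; omega)]
  push_cast
  rfl

lemma gy_even (y : ℕ → ℂ) {l : ℕ} (hl : 2 ≤ l) :
    gy y (2 * l) = vv (2 * l) * (I + 100 * y (2 * l)) :=
  gyE y (by omega) (by unfold OO; omega)

lemma S2_split (y : ℕ → ℂ) {l : ℕ} (hl : 2 ≤ l) :
    S2 (gy y) l = 2 * (vv (2 * l) * thf y l : ℝ) + EE y l := by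
  have hl' : (2 : ℝ) ≤ l := by exact_mod_cast hl
  have e1 : (2 * (vv (2 * l) * thf y l : ℝ) : ℂ) =
      ∑ n ∈ Finset.Ico 2 (2 * l - 1), if OO n ∧ OO (2 * l - n) then
        ((min n (2 * l - n) - 1 : ℕ) : ℂ) * gy y n * gy y (2 * l - n) else 0 := by
    rw [thf_eq, vv_even hl]
    have : (2 : ℂ) * ((eps ^ 2 / (2 * (l : ℝ)) ^ 3 * (1 / 2 * (2 * (l : ℝ)) ^ 3 *
      ∑ n ∈ Finset.Ico 2 (2 * l - 1), if OO n ∧ OO (2 * l - n) then
      cc l n * ((1 + (y n).re) * (1 + (y (2 * l - n)).re)) else 0) : ℝ) : ℂ)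
      = ((∑ n ∈ Finset.Ico 2 (2 * l - 1), eps ^ 2 * (if OO n ∧ OO (2 * l - n) then
      cc l n * ((1 + (y n).re) * (1 + (y (2 * l - n)).re)) else 0) : ℝ) : ℂ) := by
      rw [← Finset.mul_sum]
      have h2 : (2 : ℂ) = ((2 : ℝ) : ℂ) := by norm_num
      rw [h2, ← Complex.ofReal_mul]
      congr 1
      field_simp
    rw [this, Complex.ofReal_sum]
    refine Finset.sum_congr rfl fun n hn => ?_
    rw [Finset.mem_Ico] at hn
    split_ifs with h
    · rw [gyO y (by omega) h.1, gyO y (by omega) h.2, vvO h.1, vvO h.2]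
      unfold cc
      push_cast
      ring
    · simp
  rw [e1]
  unfold S2 EE
  rw [← Finset.sum_add_distrib]
  refine Finset.sum_congr rfl fun n _ => ?_
  split_ifs
  · rw [add_zero]
  · rw [zero_add]

/-- the remainder in S5 -/
def rest (g : ℕ → ℂ) (l : ℕ) : ℂ := gam g l l + g (2 * l) + 1 / 2 * S2 g l

lemma main_id (κ : ℕ → ℕ → ℝ) (y : ℕ → ℂ) {l : ℕ} (hl : 2 ≤ l) :
    Ak κ (gy y) l l / vv (2 * l) - (I + 100 * y (2 * l) + thf y l)
      = (1 / 2 * EE y l - rest (gy y) l + KQ κ (gy y) l l) / vv (2 * l) := by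
  have hl' : (2 : ℝ) ≤ l := by exact_mod_cast hl
  have hv : (vv (2 * l) : ℂ) ≠ 0 := by
    have : 0 < vv (2 * l) := by
      rw [vv_even hl]
      have := eps_pos
      positivity
    exact_mod_cast this.ne'
  unfold rest Ak
  rw [S2_split y hl, gy_even y hl]
  field_simp
  push_cast
  ring

lemma EE_le {y : ℕ → ℂ} (hy : ∀ n, ‖y n‖ ≤ dl) {l : ℕ} (hl : 2 ≤ l) :
    ‖EE y l‖ ≤ 11 / 10 * eps ^ 3 * (8 / (2 * (l : ℝ)) ^ 3) := by
  have he := eps_pos
  have h1 : ‖EE y l‖ ≤ ∑ n ∈ Finset.Ico 2 (2 * l - 1), 11 / 10 * eps ^ 3 * cc l n := by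
    unfold EE
    refine norm_sum_le_of_le _ fun n hn => ?_
    rw [Finset.mem_Ico] at hn
    split_ifs with h
    · rw [norm_zero]
      have := cc_nonneg l n
      positivity
    · have hm2 : 2 ≤ 2 * l - n := by omega
      have hprod : ‖gy y n‖ * ‖gy y (2 * l - n)‖
          ≤ 11 / 10 * eps ^ 3 / ((n : ℝ) ^ 3 * ((2 * l - n : ℕ) : ℝ) ^ 3) := by
        have hnp : (0 : ℝ) < (n : ℝ) ^ 3 := by
          have : (0 : ℝ) < n := by exact_mod_cast (by omega : 0 < n)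
          positivity
        have hmp : (0 : ℝ) < ((2 * l - n : ℕ) : ℝ) ^ 3 := by
          have : (0 : ℝ) < ((2 * l - n : ℕ) : ℝ) := by exact_mod_cast (by omega : 0 < 2 * l - n)
          positivity
        rcases not_and_or.mp h with h | h
        · have a1 := gyE_le hy hn.1 h
          have a2 := gy_le hy hm2
          calc ‖gy y n‖ * ‖gy y (2 * l - n)‖
              ≤ (101 / 100 * eps ^ 2 / (n : ℝ) ^ 3) * (101 / 100 * eps / ((2 * l - n : ℕ) : ℝ) ^ 3) := by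
                gcongr
            _ = (101 / 100 * (101 / 100)) * eps ^ 3 / ((n : ℝ) ^ 3 * ((2 * l - n : ℕ) : ℝ) ^ 3) := by
                field_simp
            _ ≤ _ := by gcongr; norm_num
        · have a1 := gy_le hy hn.1
          have a2 := gyE_le hy hm2 h
          calc ‖gy y n‖ * ‖gy y (2 * l - n)‖
              ≤ (101 / 100 * eps / (n : ℝ) ^ 3) * (101 / 100 * eps ^ 2 / ((2 * l - n : ℕ) : ℝ) ^ 3) := by
                gcongr
            _ = (101 / 100 * (101 / 100)) * eps ^ 3 / ((n : ℝ) ^ 3 * ((2 * l - n : ℕ) : ℝ) ^ 3) := by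
                field_simp
            _ ≤ _ := by gcongr; norm_num
      rw [norm_mul, norm_mul, Complex.norm_natCast, mul_assoc]
      calc ((min n (2 * l - n) - 1 : ℕ) : ℝ) * (‖gy y n‖ * ‖gy y (2 * l - n)‖)
          ≤ ((min n (2 * l - n) - 1 : ℕ) : ℝ) *
            (11 / 10 * eps ^ 3 / ((n : ℝ) ^ 3 * ((2 * l - n : ℕ) : ℝ) ^ 3)) := by gcongr
        _ = _ := by unfold cc; ring
  refine h1.trans ?_
  rw [← Finset.mul_sum]
  have := sum_cc hl
  gcongr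

lemma EE_sub_le {y y' : ℕ → ℂ} {d : ℝ} (hy : ∀ n, ‖y n‖ ≤ dl) (hy' : ∀ n, ‖y' n‖ ≤ dl)
    (hd : ∀ n, ‖y n - y' n‖ ≤ d) {l : ℕ} (hl : 2 ≤ l) :
    ‖EE y l - EE y' l‖ ≤ 103 * eps ^ 3 * d * (8 / (2 * (l : ℝ)) ^ 3) := by
  have he := eps_pos
  have hd0 : 0 ≤ d := (norm_nonneg _).trans (hd 0)
  have h1 : ‖EE y l - EE y' l‖ ≤ ∑ n ∈ Finset.Ico 2 (2 * l - 1), 103 * eps ^ 3 * d * cc l n := by
    unfold EE
    rw [← Finset.sum_sub_distrib]
    refine norm_sum_le_of_le _ fun n hn => ?_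
    rw [Finset.mem_Ico] at hn
    split_ifs with h
    · rw [sub_zero, norm_zero]
      have := cc_nonneg l n
      positivity
    · have hm2 : 2 ≤ 2 * l - n := by omega
      have hprod : ‖gy y n * gy y (2 * l - n) - gy y' n * gy y' (2 * l - n)‖
          ≤ 103 * eps ^ 3 * d / ((n : ℝ) ^ 3 * ((2 * l - n : ℕ) : ℝ) ^ 3) := by
        have hnp : (0 : ℝ) < (n : ℝ) ^ 3 := by
          have : (0 : ℝ) < n := by exact_mod_cast (by omega : 0 < n)
          positivity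
        have hmp : (0 : ℝ) < ((2 * l - n : ℕ) : ℝ) ^ 3 := by
          have : (0 : ℝ) < ((2 * l - n : ℕ) : ℝ) := by exact_mod_cast (by omega : 0 < 2 * l - n)
          positivity
        have e : gy y n * gy y (2 * l - n) - gy y' n * gy y' (2 * l - n)
            = (gy y n - gy y' n) * gy y (2 * l - n) + gy y' n * (gy y (2 * l - n) - gy y' (2 * l - n)) := by
          ring
        rw [e]
        refine (norm_add_le _ _).trans ?_
        rw [norm_mul, norm_mul]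
        rcases not_and_or.mp h with h | h
        · have a1 := dE hd hn.1 h
          have a2 := gy_le hy hm2
          have a3 := gyE_le hy' hn.1 h
          have a4 := d_le hd hm2
          calc ‖gy y n - gy y' n‖ * ‖gy y (2 * l - n)‖ + ‖gy y' n‖ * ‖gy y (2 * l - n) - gy y' (2 * l - n)‖
              ≤ (100 * eps ^ 2 * d / (n : ℝ) ^ 3) * (101 / 100 * eps / ((2 * l - n : ℕ) : ℝ) ^ 3)
                + (101 / 100 * eps ^ 2 / (n : ℝ) ^ 3) * (eps * d / ((2 * l - n : ℕ) : ℝ) ^ 3) := by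
                gcongr
            _ = (101 + 101 / 100) * eps ^ 3 * d / ((n : ℝ) ^ 3 * ((2 * l - n : ℕ) : ℝ) ^ 3) := by
                field_simp
            _ ≤ _ := by gcongr; norm_num
        · have a1 := d_le hd hn.1
          have a2 := gyE_le hy hm2 h
          have a3 := gy_le hy' hn.1
          have a4 := dE hd hm2 h
          calc ‖gy y n - gy y' n‖ * ‖gy y (2 * l - n)‖ + ‖gy y' n‖ * ‖gy y (2 * l - n) - gy y' (2 * l - n)‖
              ≤ (eps * d / (n : ℝ) ^ 3) * (101 / 100 * eps ^ 2 / ((2 * l - n : ℕ) : ℝ) ^ 3)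
                + (101 / 100 * eps / (n : ℝ) ^ 3) * (100 * eps ^ 2 * d / ((2 * l - n : ℕ) : ℝ) ^ 3) := by
                gcongr
            _ = (101 + 101 / 100) * eps ^ 3 * d / ((n : ℝ) ^ 3 * ((2 * l - n : ℕ) : ℝ) ^ 3) := by
                field_simp
                ring
            _ ≤ _ := by gcongr; norm_num
      rw [mul_assoc, mul_assoc, ← mul_sub, norm_mul, Complex.norm_natCast]
      calc ((min n (2 * l - n) - 1 : ℕ) : ℝ) * ‖gy y n * gy y (2 * l - n) - gy y' n * gy y' (2 * l - n)‖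
          ≤ ((min n (2 * l - n) - 1 : ℕ) : ℝ) *
            (103 * eps ^ 3 * d / ((n : ℝ) ^ 3 * ((2 * l - n : ℕ) : ℝ) ^ 3)) := by gcongr
        _ = _ := by unfold cc; ring
  refine h1.trans ?_
  rw [← Finset.mul_sum]
  have := sum_cc hl
  gcongr

lemma thf_upper {l : ℕ} (hl : 2 ≤ l) : thf 0 l ≤ 4 := by
  have hl' : (2 : ℝ) ≤ l := by exact_mod_cast hl
  rw [thf_eq]
  have h1 : (∑ n ∈ Finset.Ico 2 (2 * l - 1), if OO n ∧ OO (2 * l - n) then
      cc l n * ((1 + ((0 : ℕ → ℂ) n).re) * (1 + ((0 : ℕ → ℂ) (2 * l - n)).re)) else 0)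
      ≤ ∑ n ∈ Finset.Ico 2 (2 * l - 1), cc l n := by
    refine Finset.sum_le_sum fun n _ => ?_
    split_ifs
    · simp
    · exact cc_nonneg l n
  have h2 := h1.trans (sum_cc hl)
  calc 1 / 2 * (2 * (l : ℝ)) ^ 3 * _ ≤ 1 / 2 * (2 * (l : ℝ)) ^ 3 * (8 / (2 * (l : ℝ)) ^ 3) := by gcongr
    _ = 4 := by field_simp; norm_num

lemma thf_lip {y y' : ℕ → ℂ} {d : ℝ} (hy : ∀ n, ‖y n‖ ≤ dl) (hy' : ∀ n, ‖y' n‖ ≤ dl)
    (hd : ∀ n, ‖y n - y' n‖ ≤ d) {l : ℕ} (hl : 2 ≤ l) : |thf y l - thf y' l| ≤ 9 * d := by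
  have hl' : (2 : ℝ) ≤ l := by exact_mod_cast hl
  have hd0 : 0 ≤ d := (norm_nonneg _).trans (hd 0)
  rw [thf_eq, thf_eq, ← mul_sub, ← Finset.sum_sub_distrib, abs_mul,
    abs_of_nonneg (show (0 : ℝ) ≤ 1 / 2 * (2 * (l : ℝ)) ^ 3 by positivity)]
  have h1 : |∑ n ∈ Finset.Ico 2 (2 * l - 1), ((if OO n ∧ OO (2 * l - n) then
      cc l n * ((1 + (y n).re) * (1 + (y (2 * l - n)).re)) else 0) -
      (if OO n ∧ OO (2 * l - n) then
      cc l n * ((1 + (y' n).re) * (1 + (y' (2 * l - n)).re)) else 0))|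
      ≤ ∑ n ∈ Finset.Ico 2 (2 * l - 1), 9 / 4 * d * cc l n := by
    refine (Finset.abs_sum_le_sum_abs _ _).trans (Finset.sum_le_sum fun n _ => ?_)
    have hc := cc_nonneg l n
    split_ifs
    · rw [← mul_sub, abs_mul, abs_of_nonneg hc]
      set a := (y n).re
      set b := (y (2 * l - n)).re
      set a' := (y' n).re
      set b' := (y' (2 * l - n)).re
      have ha : |a - a'| ≤ d := by
        have := (Complex.abs_re_le_norm (y n - y' n)).trans (hd n)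
        rwa [Complex.sub_re] at this
      have hb : |b - b'| ≤ d := by
        have := (Complex.abs_re_le_norm (y (2 * l - n) - y' (2 * l - n))).trans (hd _)
        rwa [Complex.sub_re] at this
      have hb1 : |1 + b| ≤ 101 / 100 := by
        have := (Complex.abs_re_le_norm (y (2 * l - n))).trans (hy _)
        have h2 := dl_le
        rw [abs_le] at this ⊢
        constructor <;> linarith [this.1, this.2]
      have ha1 : |1 + a'| ≤ 101 / 100 := by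
        have := (Complex.abs_re_le_norm (y' n)).trans (hy' _)
        have h2 := dl_le
        rw [abs_le] at this ⊢
        constructor <;> linarith [this.1, this.2]
      have e : (1 + a) * (1 + b) - (1 + a') * (1 + b') = (a - a') * (1 + b) + (1 + a') * (b - b') := by
        ring
      rw [e]
      have h3 : |(a - a') * (1 + b) + (1 + a') * (b - b')| ≤ 9 / 4 * d := by
        refine (abs_add_le _ _).trans ?_
        rw [abs_mul, abs_mul]
        calc |a - a'| * |1 + b| + |1 + a'| * |b - b'| ≤ d * (101 / 100) + (101 / 100) * d := by gcongr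
          _ ≤ 9 / 4 * d := by linarith
      calc cc l n * |(a - a') * (1 + b) + (1 + a') * (b - b')| ≤ cc l n * (9 / 4 * d) := by gcongr
        _ = _ := by ring
    · rw [sub_zero, abs_zero]
      positivity
  rw [← Finset.mul_sum] at h1
  have h2 := sum_cc hl
  calc 1 / 2 * (2 * (l : ℝ)) ^ 3 * |_| ≤ 1 / 2 * (2 * (l : ℝ)) ^ 3 *
        (9 / 4 * d * (8 / (2 * (l : ℝ)) ^ 3)) := by
        gcongr
        exact h1.trans (by gcongr)
    _ = 9 * d := by field_simp; ring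

lemma thf_lower {l : ℕ} (hl : 2 ≤ l) : 2 / 27 ≤ thf 0 l := by
  have hl' : (2 : ℝ) ≤ l := by exact_mod_cast hl
  rw [thf_eq]
  set f : ℕ → ℝ := fun n => if OO n ∧ OO (2 * l - n) then
      cc l n * ((1 + ((0 : ℕ → ℂ) n).re) * (1 + ((0 : ℕ → ℂ) (2 * l - n)).re)) else 0 with hf
  have hf0 : ∀ n ∈ Finset.Ico 2 (2 * l - 1), 0 ≤ f n := by
    intro n _
    simp only [hf]
    split_ifs
    · have := cc_nonneg l n
      simpa using this
    · exact le_rfl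
  have hfv : ∀ n, OO n → OO (2 * l - n) → f n = cc l n := by
    intro n h1 h2
    simp only [hf]
    rw [if_pos ⟨h1, h2⟩]
    simp
  rcases Nat.lt_or_ge l 4 with h4 | h4
  · interval_cases l
    · have h1 : f 2 ≤ ∑ n ∈ Finset.Ico 2 (2 * 2 - 1), f n :=
        Finset.single_le_sum hf0 (by simp)
      rw [hfv 2 (Or.inl rfl) (Or.inl rfl)] at h1
      have h2 : cc 2 2 = 1 / 64 := by unfold cc; norm_num
      rw [h2] at h1
      push_cast
      linarith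
    · have h1 : f 3 ≤ ∑ n ∈ Finset.Ico 2 (2 * 3 - 1), f n :=
        Finset.single_le_sum hf0 (by simp)
      rw [hfv 3 (Or.inr rfl) (Or.inr rfl)] at h1
      have h2 : cc 3 3 = 2 / 729 := by unfold cc; norm_num
      rw [h2] at h1
      push_cast
      linarith
  · have hsub : ({3, 2 * l - 3} : Finset ℕ) ⊆ Finset.Ico 2 (2 * l - 1) := by
      intro n hn
      simp only [Finset.mem_insert, Finset.mem_singleton] at hn
      rw [Finset.mem_Ico]
      omega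
    have h1 : ∑ n ∈ ({3, 2 * l - 3} : Finset ℕ), f n ≤ ∑ n ∈ Finset.Ico 2 (2 * l - 1), f n :=
      Finset.sum_le_sum_of_subset_of_nonneg hsub (fun n hn _ => hf0 n hn)
    rw [Finset.sum_pair (by omega), hfv 3 (Or.inr rfl) (Or.inr (by omega)),
      hfv (2 * l - 3) (Or.inr (by omega)) (Or.inr (by omega))] at h1
    have hlr : (4 : ℝ) ≤ l := by exact_mod_cast h4
    have e1 : ((2 * l - 3 : ℕ) : ℝ) = 2 * (l : ℝ) - 3 := by
      rw [Nat.cast_sub (by omega)]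
      push_cast
      ring
    have h2 : cc l 3 = 2 / (27 * (2 * (l : ℝ) - 3) ^ 3) := by
      unfold cc
      have : min 3 (2 * l - 3) = 3 := by omega
      rw [this, e1]
      norm_num
    have h3 : cc l (2 * l - 3) = 2 / (27 * (2 * (l : ℝ) - 3) ^ 3) := by
      unfold cc
      have e2 : 2 * l - (2 * l - 3) = 3 := by omega
      rw [e2]
      have : min (2 * l - 3) 3 = 3 := by omega
      rw [this, e1]
      norm_num
      ring
    rw [h2, h3] at h1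
    have h5 : 2 / (27 * (2 * (l : ℝ)) ^ 3) ≤ 2 / (27 * (2 * (l : ℝ) - 3) ^ 3) := by
      have : 0 < 2 * (l : ℝ) - 3 := by linarith
      gcongr
      linarith
    calc (2 / 27 : ℝ) = 1 / 2 * (2 * (l : ℝ)) ^ 3 *
          (2 / (27 * (2 * (l : ℝ)) ^ 3) + 2 / (27 * (2 * (l : ℝ)) ^ 3)) := by
          field_simp
          norm_num
      _ ≤ 1 / 2 * (2 * (l : ℝ)) ^ 3 * ∑ n ∈ Finset.Ico 2 (2 * l - 1), f n := by
          gcongr
          linarith

end H_C2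

open H_C2

theorem c2 (h5 : S5) (h9 : S9) : C2 := by
  intro y y' d l κ hκ hy hy' hd hl
  have hl' : (2 : ℝ) ≤ l := by exact_mod_cast hl
  have he := eps_pos
  have hd0 : 0 ≤ d := (norm_nonneg _).trans (hd 0)
  refine ⟨thf_lower hl, thf_upper hl, thf_lip hy hy' hd hl, ?_, ?_⟩
  all_goals
    have hM : 11 / 10 * eps ≤ 1 / 100 := by unfold eps; norm_num
    have hgd : ∀ n : ℕ, 2 ≤ n → ‖gy y n - gy y' n‖ ≤ eps * d / (n : ℝ) ^ 3 := fun n hn => d_le hd hn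
    obtain ⟨r1, r2⟩ := h5 (11 / 10 * eps) (eps * d) (gy y) (gy y') l hM (gb hy) (gb hy') hl
    have r3 := r2 hgd
    obtain ⟨q1, -, q3, -, -⟩ := h9 κ κ (11 / 10 * eps) (eps * d) 0 (gy y) (gy y') hκ hκ hM
      (gb hy) (gb hy') (by positivity) le_rfl
    have q4 := q1 l l (by omega) (by omega)
    have q5 := (q3 hgd).1 l l (by omega) (by omega)
    have hvv := vv_even hl
    have hvp : 0 < vv (2 * l) := by rw [hvv]; positivity
    have hll : (1 : ℝ) / ((l : ℝ) * l) ^ 3 ≤ 8 / (2 * (l : ℝ)) ^ 3 := by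
      rw [div_le_div_iff₀ (by positivity) (by positivity)]
      have h1 : (l : ℝ) ≤ (l : ℝ) * l := by nlinarith
      calc 1 * (2 * (l : ℝ)) ^ 3 = 8 * (l : ℝ) ^ 3 := by ring
        _ ≤ 8 * ((l : ℝ) * l) ^ 3 := by gcongr
  · rw [main_id κ y hl, norm_div, Complex.norm_real, Real.norm_of_nonneg hvp.le, div_le_iff₀ hvp]
    have b1 := EE_le hy hl
    have b2 : ‖rest (gy y) l‖ ≤ 100 * (11 / 10 * eps) ^ 3 / (2 * (l : ℝ)) ^ 3 := r1
    have b3 : ‖KQ κ (gy y) l l‖ ≤ 100 * (RR / rr) ^ 2 * (8 / (2 * (l : ℝ)) ^ 3) := by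
      refine q4.trans ?_
      rw [div_eq_mul_one_div]
      gcongr
    calc ‖1 / 2 * EE y l - rest (gy y) l + KQ κ (gy y) l l‖
        ≤ ‖1 / 2 * EE y l‖ + ‖rest (gy y) l‖ + ‖KQ κ (gy y) l l‖ :=
          (norm_add_le _ _).trans (by gcongr; exact norm_sub_le _ _)
      _ ≤ 1 / 2 * (11 / 10 * eps ^ 3 * (8 / (2 * (l : ℝ)) ^ 3))
          + 100 * (11 / 10 * eps) ^ 3 / (2 * (l : ℝ)) ^ 3
          + 100 * (RR / rr) ^ 2 * (8 / (2 * (l : ℝ)) ^ 3) := by
          gcongr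
          rw [norm_mul]
          have : ‖(1 / 2 : ℂ)‖ = 1 / 2 := by simp
          rw [this]
          gcongr
      _ = (1 / 2 * (11 / 10 * eps ^ 3 * 8) + 100 * (11 / 10 * eps) ^ 3 + 100 * (RR / rr) ^ 2 * 8)
          / (2 * (l : ℝ)) ^ 3 := by ring
      _ ≤ (1 / 1000 * eps ^ 2) / (2 * (l : ℝ)) ^ 3 := by
          gcongr
          unfold eps RR rr
          norm_num
      _ = 1 / 1000 * vv (2 * l) := by rw [hvv]; ring
  · rw [main_id κ y hl, main_id κ y' hl, ← sub_div, norm_div, Complex.norm_real,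
      Real.norm_of_nonneg hvp.le, div_le_iff₀ hvp]
    have b1 := EE_sub_le hy hy' hd hl
    have b2 : ‖rest (gy y) l - rest (gy y') l‖
        ≤ 300 * (11 / 10 * eps) ^ 2 * (eps * d) / (2 * (l : ℝ)) ^ 3 := r3
    have b3 : ‖KQ κ (gy y) l l - KQ κ (gy y') l l‖
        ≤ 2000 * (eps * d) * (RR / rr) ^ 2 * (8 / (2 * (l : ℝ)) ^ 3) := by
      refine q5.trans ?_
      rw [div_eq_mul_one_div]
      gcongr
    have e : 1 / 2 * EE y l - rest (gy y) l + KQ κ (gy y) l l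
        - (1 / 2 * EE y' l - rest (gy y') l + KQ κ (gy y') l l)
        = 1 / 2 * (EE y l - EE y' l) - (rest (gy y) l - rest (gy y') l)
          + (KQ κ (gy y) l l - KQ κ (gy y') l l) := by ring
    rw [e]
    calc ‖1 / 2 * (EE y l - EE y' l) - (rest (gy y) l - rest (gy y') l)
          + (KQ κ (gy y) l l - KQ κ (gy y') l l)‖
        ≤ ‖1 / 2 * (EE y l - EE y' l)‖ + ‖rest (gy y) l - rest (gy y') l‖
          + ‖KQ κ (gy y) l l - KQ κ (gy y') l l‖ :=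
          (norm_add_le _ _).trans (by gcongr; exact norm_sub_le _ _)
      _ ≤ 1 / 2 * (103 * eps ^ 3 * d * (8 / (2 * (l : ℝ)) ^ 3))
          + 300 * (11 / 10 * eps) ^ 2 * (eps * d) / (2 * (l : ℝ)) ^ 3
          + 2000 * (eps * d) * (RR / rr) ^ 2 * (8 / (2 * (l : ℝ)) ^ 3) := by
          gcongr
          rw [norm_mul]
          have : ‖(1 / 2 : ℂ)‖ = 1 / 2 := by simp
          rw [this]
          gcongr
      _ = ((1 / 2 * (103 * eps ^ 3 * 8) + 300 * (11 / 10 * eps) ^ 2 * eps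
          + 2000 * eps * (RR / rr) ^ 2 * 8) * d) / (2 * (l : ℝ)) ^ 3 := by ring
      _ ≤ ((1 / 1000 * eps ^ 2) * d) / (2 * (l : ℝ)) ^ 3 := by
          gcongr
          unfold eps RR rr
          norm_num
      _ = d / 1000 * vv (2 * l) := by rw [hvv]; ring

end Pool.Agent.Stek
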