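import Pool.Agent.Stek.TSeq

/-!
# The matching of the two spectra (target C3)
-/

open scoped BigOperators ComplexConjugate Topology ContDiff
open Complex

noncomputable section

namespace Pool.Agent.Stek

namespace C3Aux

theorem kap_zero : Kap 0 := by
  intro n m _ _
  simp only [Pi.zero_apply, abs_zero]
  positivity

theorem ball_zero : ∀ n, ‖(0 : ℕ → ℂ) n‖ ≤ dl := by
  intro n
  simp only [Pi.zero_apply, norm_zero, dl]
  positivity

theorem KQ_zero (g : ℕ → ℂ) (j k : ℕ) : KQ 0 g j k = 0 := by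
  unfold KQ
  simp

theorem KP_zero (g : ℕ → ℂ) (j k : ℕ) : KP 0 g j k = 0 := by
  unfold KP
  simp

theorem cube_le {j k : ℕ} (hj : 1 ≤ j) (hk : 1 ≤ k) :
    ((j : ℝ) + k) ^ 3 ≤ 8 * ((j : ℝ) * k) ^ 3 := by
  have hj' : (1 : ℝ) ≤ j := by exact_mod_cast hj
  have hk' : (1 : ℝ) ≤ k := by exact_mod_cast hk
  have h : (j : ℝ) + k ≤ 2 * (j * k) := by nlinarith
  calc ((j : ℝ) + k) ^ 3 ≤ (2 * ((j : ℝ) * k)) ^ 3 := by gcongr
    _ = 8 * ((j : ℝ) * k) ^ 3 := by ring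

theorem div_cube_le {X : ℝ} (hX : 0 ≤ X) {j k : ℕ} (hj : 1 ≤ j) (hk : 1 ≤ k) :
    X / ((j : ℝ) * k) ^ 3 ≤ 8 * X / ((j : ℝ) + k) ^ 3 := by
  have hj' : (1 : ℝ) ≤ j := by exact_mod_cast hj
  have hk' : (1 : ℝ) ≤ k := by exact_mod_cast hk
  have h := cube_le hj hk
  rw [div_le_div_iff₀ (by positivity) (by positivity)]
  nlinarith

/-- the kernels of the first surface -/
def AA (s : ℝ) (y : ℕ → ℂ) : ℕ → ℕ → ℂ := Ak (kE s) (gy y)
def BB (s : ℝ) (y : ℕ → ℂ) : ℕ → ℕ → ℂ := Bk (kO s) (gy y)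

theorem rho : (RR / rr) ^ 2 = 1 / 10 ^ 140 := by
  unfold RR rr; norm_num

theorem gb_small : (11 / 10 * eps : ℝ) ≤ 1 / 100 := by
  unfold eps; norm_num

theorem diffA (hS3 : S3) (hS7 : S7) (hS9 : S9) (hC1 : C1) {s s' : ℝ}
    (hs : s ∈ Set.Icc (1 / 20 : ℝ) (1 / 6)) (hs' : s' ∈ Set.Icc (1 / 20 : ℝ) (1 / 6))
    {y y' : ℕ → ℂ} {d : ℝ} (hy : ∀ n, ‖y n‖ ≤ dl) (hy' : ∀ n, ‖y' n‖ ≤ dl)
    (hd : ∀ n, ‖y n - y' n‖ ≤ d) :
    Kb (3 * eps * d + |s - s'|) (fun j k => AA s y j k - AA s' y' j k) ∧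
      Pb (3 * eps * d + |s - s'|) (fun j k => BB s y j k - BB s' y' j k) := by
  have hd0 : 0 ≤ d := (norm_nonneg _).trans (hd 0)
  obtain ⟨hg, hlip, _⟩ := hC1 y y' d hy hy'
  obtain ⟨hg', _, _⟩ := hC1 y' y' d hy' hy'
  have hlip' := hlip hd
  have hM : (11 / 10 * eps : ℝ) ≤ 1 / 100 := gb_small
  obtain ⟨_, h3⟩ := hS3 (11 / 10 * eps) (eps * d) (gy y) (gy y') hM hg hg'
  have h3' := h3 hlip'
  obtain ⟨k1, k2, k3, k4⟩ := hS7 s s' hs hs'
  obtain ⟨l1, l2, _, _⟩ := hS7 s' s hs' hs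
  have hed : 0 ≤ eps * d := mul_nonneg (by unfold eps; positivity) hd0
  have hss : 0 ≤ 100 * |s - s'| := by positivity
  have hE := hS9 (kE s) (kE s') (11 / 10 * eps) (eps * d) (100 * |s - s'|) (gy y) (gy y')
    k1 l1 hM hg hg' hed hss
  have hE' := hS9 (kE s) (kE s') (11 / 10 * eps) (eps * d) (100 * |s - s'|) (gy y') (gy y')
    k1 l1 hM hg' hg' hed hss
  have hO := hS9 (kO s) (kO s') (11 / 10 * eps) (eps * d) (100 * |s - s'|) (gy y) (gy y')
    k2 l2 hM hg hg' hed hss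
  have hO' := hS9 (kO s) (kO s') (11 / 10 * eps) (eps * d) (100 * |s - s'|) (gy y') (gy y')
    k2 l2 hM hg' hg' hed hss
  obtain ⟨_, _, hE3, _, _⟩ := hE
  obtain ⟨_, _, _, hE4, _⟩ := hE'
  obtain ⟨_, _, hO3, _, _⟩ := hO
  obtain ⟨_, _, _, hO4, _⟩ := hO'
  have hE3' := (hE3 hlip').1
  have hE4' := (hE4 k3).1
  have hO3' := (hO3 hlip').2
  have hO4' := (hO4 k4).2
  rw [rho] at hE3' hE4' hO3' hO4'
  constructor
  · intro j k hj hk
    have e1 := h3' j k hj hk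
    have e2 := (hE3' j k hj hk).trans (div_cube_le (by positivity) hj hk)
    have e3 := (hE4' j k hj hk).trans (div_cube_le (by positivity) hj hk)
    have hj' : (1 : ℝ) ≤ j := by exact_mod_cast hj
    have hk' : (1 : ℝ) ≤ k := by exact_mod_cast hk
    have e4 : AA s y j k - AA s' y' j k = -(gam (gy y) j k - gam (gy y') j k)
        + ((KQ (kE s) (gy y) j k - KQ (kE s) (gy y') j k)
        + (KQ (kE s) (gy y') j k - KQ (kE s') (gy y') j k)) := by
      unfold AA Ak; ring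
    simp only
    rw [e4]
    refine (norm_add_le _ _).trans ?_
    rw [norm_neg]
    refine (add_le_add_right (norm_add_le _ _) _).trans ?_
    refine (add_le_add e1 (add_le_add e2 e3)).trans ?_
    rw [← add_div, ← add_div]
    apply div_le_div_of_nonneg_right _ (by positivity)
    have hab : 0 ≤ |s - s'| := abs_nonneg _
    have : 3 * eps * d = 3 * (eps * d) := by ring
    rw [this]
    generalize eps * d = u at *
    nlinarith
  · intro j k hj hk
    have e2 := hO3' j k hj hk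
    have e3 := hO4' j k hj hk
    have hj' : (1 : ℝ) ≤ j := by exact_mod_cast hj
    have hk' : (1 : ℝ) ≤ k := by exact_mod_cast hk
    have e4 : BB s y j k - BB s' y' j k = ((KP (kO s) (gy y) j k - KP (kO s) (gy y') j k)
        + (KP (kO s) (gy y') j k - KP (kO s') (gy y') j k)) / (rr : ℂ) ^ 2 := by
      unfold BB Bk; ring
    simp only
    rw [e4, norm_div]
    have hr : ‖(rr : ℂ) ^ 2‖ = 1 / 10 ^ 60 := by
      rw [norm_pow, Complex.norm_real]
      unfold rr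
      norm_num
    rw [hr, div_le_iff₀ (by positivity)]
    refine (norm_add_le _ _).trans ((add_le_add e2 e3).trans ?_)
    rw [← add_div, div_mul_eq_mul_div]
    apply div_le_div_of_nonneg_right _ (by positivity)
    have hab : 0 ≤ |s - s'| := abs_nonneg _
    have : 3 * eps * d = 3 * (eps * d) := by ring
    rw [this]
    generalize eps * d = u at *
    nlinarith

/-- the diagonal of the base kernel -/
theorem base_diag (hC2 : C2) {k : ℕ} (hk : 1 ≤ k) :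
    eps ^ 2 / (2 * (k : ℝ)) ^ 3 ≤ ‖Ak 0 (gy 0) k k‖ := by
  rcases Nat.lt_or_ge k 2 with h | h
  · have h1 : k = 1 := by omega
    subst h1
    have h2 : Ak 0 (gy 0) 1 1 = (eps / 8 : ℝ) := by
      unfold Ak
      rw [KQ_zero, gam_rec _ le_rfl le_rfl]
      have h3 : gy 0 (1 + 1) = (eps / 8 : ℝ) := by
        unfold gy vv
        norm_num
      rw [h3]
      simp
    rw [h2, Complex.norm_real]
    unfold eps
    norm_num
  · obtain ⟨h1, _, _, h2, _⟩ := hC2 0 0 0 k 0 kap_zero ball_zero ball_zero (by simp) h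
    have hv : vv (2 * k) = eps ^ 2 / (2 * (k : ℝ)) ^ 3 := by
      unfold vv
      rw [if_neg (by omega)]
      push_cast
      rfl
    have hk0 : (0 : ℝ) < k := by exact_mod_cast (by omega : 0 < k)
    have hvp : 0 < vv (2 * k) := by rw [hv]; unfold eps; positivity
    simp only [Pi.zero_apply, mul_zero, add_zero] at h2
    have h3 : (1001 / 1000 : ℝ) ≤ ‖I + (thf 0 k : ℂ)‖ := by
      have h4 : ‖I + (thf 0 k : ℂ)‖ ^ 2 = 1 + thf 0 k ^ 2 := by
        rw [← Complex.normSq_eq_norm_sq, Complex.normSq_apply]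
        simp
        ring
      have h5 : (1001 / 1000 : ℝ) ^ 2 ≤ ‖I + (thf 0 k : ℂ)‖ ^ 2 := by
        rw [h4]; nlinarith
      exact abs_le_of_sq_le_sq' h5 (norm_nonneg _) |>.2
    have h6 : 1 ≤ ‖Ak 0 (gy 0) k k / (vv (2 * k) : ℂ)‖ := by
      have h7 : ‖I + (thf 0 k : ℂ)‖ ≤ ‖Ak 0 (gy 0) k k / (vv (2 * k) : ℂ)‖
          + ‖Ak 0 (gy 0) k k / (vv (2 * k) : ℂ) - (I + (thf 0 k : ℂ))‖ := by
        have h8 := norm_sub_le (Ak 0 (gy 0) k k / (vv (2 * k) : ℂ))
          (Ak 0 (gy 0) k k / (vv (2 * k) : ℂ) - (I + (thf 0 k : ℂ)))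
        rwa [sub_sub_cancel] at h8
      linarith
    rw [norm_div, Complex.norm_real, Real.norm_eq_abs, abs_of_pos hvp, le_div_iff₀ hvp,
      one_mul] at h6
    rw [← hv]
    exact h6

theorem base_cls (hC1 : C1) : Cls (Ak 0 (gy 0)) (Bk 0 (gy 0)) :=
  (hC1 0 0 0 ball_zero ball_zero).2.2 0 0 kap_zero kap_zero

theorem base_roots (hC1 : C1) (hC2 : C2) (hY6 : Y6) : ∃ p m : ℕ → ℝ, BaseRoots p m ∧
    ∀ k : ℕ, 1 ≤ k → ∀ σ : ℝ, |σ - k| ≤ 1 / 2 →
      (Psi (Ak 0 (gy 0)) (Bk 0 (gy 0)) k σ = 0 ↔ σ = p k ∨ σ = m k) := by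
  have hb := base_cls hC1
  have h := fun (k : ℕ) (hk : 1 ≤ k) => hY6 _ _ k hb hk
  choose! p m h using h
  have hr : rr ^ 2 ≤ 1 / 2 := by unfold rr; norm_num
  refine ⟨p, m, ?_, fun k hk => (h k hk).2.2.2.2.1⟩
  intro k hk
  obtain ⟨h1, h2, h3, h4, h5, h6, h7, h8, h9⟩ := h k hk
  have hA := hb.a k k hk hk
  have hk0 : (1 : ℝ) ≤ k := by exact_mod_cast hk
  have hA2 : ‖Ak 0 (gy 0) k k‖ ≤ 1 / 2 := by
    refine hA.trans ?_
    rw [div_le_iff₀ (by positivity)]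
    have : (1 : ℝ) ≤ ((k : ℝ) + k) ^ 3 := one_le_pow₀ (by linarith)
    unfold eps
    nlinarith
  have hn := norm_nonneg (Ak 0 (gy 0) k k)
  have hd := base_diag hC2 hk
  refine ⟨⟨h1, h2, by linarith, by linarith, by linarith, by linarith, by linarith⟩, h3, h4,
    (h5 (p k) (h1.trans hr)).2 (Or.inl rfl), (h5 (m k) (h2.trans hr)).2 (Or.inr rfl)⟩

theorem vv_pos {n : ℕ} (hn : 1 ≤ n) : 0 < vv n := by
  have hn0 : (0 : ℝ) < n := by exact_mod_cast (by omega : 0 < n)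
  unfold vv eps
  split_ifs <;> positivity

/-- the equations solved by a fixed point -/
theorem fixed_eq (hC2 : C2) {p m : ℕ → ℝ} {s : ℝ} {y : ℕ → ℂ} (hfix : Tm p m s y = y) :
    (∀ k : ℕ, 1 ≤ k → DBf (AA s y) (BB s y) k (p k) (m k) = 0) ∧
    (∀ k : ℕ, 2 ≤ k → DAf (AA s y) (BB s y) k (p k) (m k) = 0) := by
  have hn : ∀ n, Tm p m s y n = y n := fun n => congrFun hfix n
  have h2 : DBn p m s y 1 = 0 := by
    have h := hn 2
    unfold Tm at h
    rw [if_neg (by norm_num), if_pos rfl] at h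
    have h1 := congrArg Complex.re h
    rw [Complex.ofReal_re] at h1
    linarith
  have hodd : ∀ n, 3 ≤ n → n % 2 = 1 → DAn p m s y (n - 1) = 0 := by
    intro n h3 ho
    have h := hn n
    unfold Tm at h
    rw [if_neg (by omega), if_neg (by omega), if_pos ho] at h
    have h1 := congrArg Complex.re h
    rw [Complex.ofReal_re] at h1
    linarith
  have heven : ∀ l, 2 ≤ l → DAn p m s y (2 * l - 1) = 0 ∧ DBn p m s y l = 0 := by
    intro l hl
    have h := hn (2 * l)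
    unfold Tm at h
    rw [if_neg (by omega), if_neg (by omega), if_neg (by omega)] at h
    have e1 : 2 * l / 2 = l := by omega
    rw [e1] at h
    obtain ⟨hth, _⟩ := hC2 0 0 0 l 0 kap_zero ball_zero ball_zero (by simp) hl
    have h1 := congrArg Complex.re h
    have h3 := congrArg Complex.im h
    simp only [Complex.sub_re, Complex.sub_im, Complex.ofReal_re, Complex.ofReal_im,
      Complex.mul_re, Complex.mul_im, Complex.I_re, Complex.I_im] at h1 h3
    have h4 : DAn p m s y (2 * l - 1) = 0 := by linarith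
    refine ⟨h4, ?_⟩
    have h5 : (DBn p m s y l - DAn p m s y (2 * l - 1)) / (200 * thf 0 l) = 0 := by linarith
    rw [div_eq_zero_iff] at h5
    rcases h5 with h5 | h5
    · linarith
    · nlinarith
  have hDB : ∀ k : ℕ, 1 ≤ k → DBn p m s y k = 0 := by
    intro k hk
    rcases Nat.lt_or_ge k 2 with h | h
    · have : k = 1 := by omega
      subst this
      exact h2
    · exact (heven k h).2
  have hDA : ∀ k : ℕ, 2 ≤ k → DAn p m s y k = 0 := by
    intro k hk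
    rcases Nat.even_or_odd k with h | h
    · obtain ⟨r, hr⟩ := h
      have := hodd (k + 1) (by omega) (by omega)
      simpa using this
    · obtain ⟨r, hr⟩ := h
      have := (heven (r + 1) (by omega)).1
      have e : 2 * (r + 1) - 1 = k := by omega
      rwa [e] at this
  constructor
  · intro k hk
    have h := hDB k hk
    unfold DBn at h
    rw [div_eq_zero_iff] at h
    rcases h with h | h
    · exact h
    · exact absurd h (pow_pos (vv_pos (by omega)) 2).ne'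
  · intro k hk
    have h := hDA k hk
    unfold DAn at h
    rw [div_eq_zero_iff] at h
    rcases h with h | h
    · exact h
    · exfalso
      have hk0 : (2 : ℝ) ≤ k := by exact_mod_cast hk
      have hw : WW k 1 ≠ 0 := by
        unfold WW
        apply div_ne_zero
        · push_cast
          positivity
        · push_cast
          intro h0
          linarith
      exact mul_ne_zero hw (pow_pos (vv_pos (by omega)) 2).ne' h

/-- the fixed points -/
theorem exists_fixed (hY0 : Y0) (hC3a : C3a) {p m : ℕ → ℝ} (hb : BaseRoots p m) {s : ℝ}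
    (hs : s ∈ Set.Icc (1 / 20 : ℝ) (1 / 6)) :
    ∃ y : ℕ → ℂ, (∀ n, ‖y n‖ ≤ dl) ∧ Tm p m s y = y := by
  obtain ⟨y, h1, h2, _⟩ := hY0 ℂ (fun _ => 1) dl (Tm p m s) (fun _ => one_pos)
    (by unfold dl; positivity)
    (fun y hy n => by
      have hy' : ∀ n, ‖y n‖ ≤ dl := fun n => by simpa using hy n
      simpa using (hC3a p m hb s hs s hs y y 0 hy' hy' (by simp)).1 n)
    (fun y y' hy hy' d hd n => by
      have k1 : ∀ n, ‖y n‖ ≤ dl := fun n => by simpa using hy n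
      have k2 : ∀ n, ‖y' n‖ ≤ dl := fun n => by simpa using hy' n
      have k3 : ∀ n, ‖y n - y' n‖ ≤ d := fun n => by simpa using hd n
      simpa using (hC3a p m hb s hs s hs y y' d k1 k2 k3).2.1 n)
  exact ⟨y, fun n => by simpa using h1 n, h2⟩

theorem fixed_lip (hC3a : C3a) {p m : ℕ → ℝ} (hb : BaseRoots p m) {s s' : ℝ}
    (hs : s ∈ Set.Icc (1 / 20 : ℝ) (1 / 6)) (hs' : s' ∈ Set.Icc (1 / 20 : ℝ) (1 / 6))
    {y y' : ℕ → ℂ} (hy : ∀ n, ‖y n‖ ≤ dl) (hy' : ∀ n, ‖y' n‖ ≤ dl)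
    (hf : Tm p m s y = y) (hf' : Tm p m s' y' = y') (n : ℕ) :
    ‖y n - y' n‖ ≤ 2 * |s - s'| := by
  have key : ∀ i : ℕ, ∀ n, ‖y n - y' n‖ ≤ 2 * dl * (1 / 2) ^ i + 2 * |s - s'| := by
    intro i
    induction i with
    | zero =>
      intro n
      have h1 := norm_sub_le (y n) (y' n)
      have h2 := hy n
      have h3 := hy' n
      have h4 := abs_nonneg (s - s')
      rw [pow_zero, mul_one]
      linarith
    | succ i ih =>
      intro n
      have h1 := (hC3a p m hb s hs s' hs' y y' _ hy hy' ih).2.1 n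
      have h2 := (hC3a p m hb s hs s' hs' y' y' 0 hy' hy' (by simp)).2.2 n
      have h3 : y n - y' n = (Tm p m s y n - Tm p m s y' n)
          + (Tm p m s y' n - Tm p m s' y' n) := by
        rw [hf, hf']; ring
      rw [h3]
      refine (norm_add_le _ _).trans ((add_le_add h1 h2).trans (le_of_eq ?_))
      rw [pow_succ]
      ring
  have hlim : Filter.Tendsto (fun i : ℕ => 2 * dl * (1 / 2 : ℝ) ^ i + 2 * |s - s'|)
      Filter.atTop (𝓝 (2 * dl * 0 + 2 * |s - s'|)) := by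
    apply Filter.Tendsto.add_const
    apply Filter.Tendsto.const_mul
    exact tendsto_pow_atTop_nhds_zero_of_lt_one (by norm_num) (by norm_num)
  rw [mul_zero, zero_add] at hlim
  exact ge_of_tendsto' hlim fun i => key i n

theorem cls_s (hC1 : C1) (hS7 : S7) {s : ℝ} (hs : s ∈ Set.Icc (1 / 20 : ℝ) (1 / 6))
    {y : ℕ → ℂ} (hy : ∀ n, ‖y n‖ ≤ dl) : Cls (AA s y) (BB s y) := by
  obtain ⟨k1, k2, _, _⟩ := hS7 s s hs hs
  exact (hC1 y y 0 hy hy).2.2 _ _ k1 k2

/-- the last equation -/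
def Gq (p m : ℕ → ℝ) (s : ℝ) (y : ℕ → ℂ) : ℝ := DAf (AA s y) (BB s y) 1 (p 1) (m 1)

theorem Gq_lip (hS3 : S3) (hS7 : S7) (hS9 : S9) (hC1 : C1) (hY5 : Y5) {p m : ℕ → ℝ}
    (hb : BaseRoots p m) {s s' : ℝ}
    (hs : s ∈ Set.Icc (1 / 20 : ℝ) (1 / 6)) (hs' : s' ∈ Set.Icc (1 / 20 : ℝ) (1 / 6))
    {y y' : ℕ → ℂ} (hy : ∀ n, ‖y n‖ ≤ dl) (hy' : ∀ n, ‖y' n‖ ≤ dl)
    (hd : ∀ n, ‖y n - y' n‖ ≤ 2 * |s - s'|) :
    |Gq p m s y - Gq p m s' y'| ≤ 4 * |s - s'| := by
  have hc := cls_s hC1 hS7 hs hy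
  have hc' := cls_s hC1 hS7 hs' hy'
  obtain ⟨hA, hB⟩ := diffA hS3 hS7 hS9 hC1 hs hs' hy hy' hd
  have h := (hY5 (AA s y) (BB s y) (AA s' y') (BB s' y') 1 (p 1) (m 1) _ hc.a hc.b hc'.a hc'.b
    le_rfl (hb 1 le_rfl).1 hA hB).2
  rw [if_pos rfl, sub_zero] at h
  have hB1 := hB 1 1 le_rfl le_rfl
  have hre := (Complex.abs_re_le_norm (BB s y 1 1 - BB s' y' 1 1)).trans hB1
  have hss := abs_nonneg (s - s')
  unfold Gq
  unfold eps at h hre
  unfold rr at h
  norm_num at h hre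
  rw [abs_le] at h hre ⊢
  constructor <;> nlinarith [h.1, h.2, hre.1, hre.2]

theorem Gq_base (hS3 : S3) (hS7 : S7) (hS9 : S9) (hC1 : C1) (hY5 : Y5) {p m : ℕ → ℝ}
    (hb : BaseRoots p m) {s : ℝ} (hs : s ∈ Set.Icc (1 / 20 : ℝ) (1 / 6))
    {y : ℕ → ℂ} (hy : ∀ n, ‖y n‖ ≤ dl) :
    |Gq p m s y - 1 / 10 ^ 80 * kO s 1 1| ≤ 1 / 10 ^ 84 := by
  have hc := cls_s hC1 hS7 hs hy
  have hc' := base_cls hC1
  obtain ⟨k1, k2, _, _⟩ := hS7 s s hs hs
  have hM : (11 / 10 * eps : ℝ) ≤ 1 / 100 := gb_small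
  obtain ⟨hg, hlip, _⟩ := hC1 y 0 dl hy ball_zero
  obtain ⟨hg', _, _⟩ := hC1 0 0 0 ball_zero ball_zero
  have hlip' := hlip (fun n => by simpa using hy n)
  have h3' := (hS3 (11 / 10 * eps) (eps * dl) (gy y) (gy 0) hM hg hg').2 hlip'
  obtain ⟨hE1, _, _, _, _⟩ := hS9 (kE s) (kE s) (11 / 10 * eps) 0 0 (gy y) (gy y)
    k1 k1 hM hg hg le_rfl le_rfl
  obtain ⟨_, hO1, _, _, hO5⟩ := hS9 (kO s) (kO s) (11 / 10 * eps) 0 0 (gy y) (gy y)
    k2 k2 hM hg hg le_rfl le_rfl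
  rw [rho] at hE1 hO1 hO5
  have hr : ‖(rr : ℂ) ^ 2‖ = 1 / 10 ^ 60 := by
    rw [norm_pow, Complex.norm_real]
    unfold rr
    norm_num
  have hA : Kb (1 / 10 ^ 55) (fun j k => AA s y j k - Ak 0 (gy 0) j k) := by
    intro j k hj hk
    have e1 := h3' j k hj hk
    have e2 := (hE1 j k hj hk).trans (div_cube_le (by positivity) hj hk)
    have hj' : (1 : ℝ) ≤ j := by exact_mod_cast hj
    have hk' : (1 : ℝ) ≤ k := by exact_mod_cast hk
    have e4 : AA s y j k - Ak 0 (gy 0) j k = -(gam (gy y) j k - gam (gy 0) j k)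
        + KQ (kE s) (gy y) j k := by
      unfold AA Ak
      rw [KQ_zero]
      ring
    simp only
    rw [e4]
    refine (norm_add_le _ _).trans ?_
    rw [norm_neg]
    refine (add_le_add e1 e2).trans ?_
    rw [← add_div]
    apply div_le_div_of_nonneg_right _ (by positivity)
    unfold eps dl
    norm_num
  have hB : Pb (1 / 10 ^ 55) (fun j k => BB s y j k - Bk 0 (gy 0) j k) := by
    intro j k hj hk
    have e2 := hO1 j k hj hk
    have hj' : (1 : ℝ) ≤ j := by exact_mod_cast hj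
    have hk' : (1 : ℝ) ≤ k := by exact_mod_cast hk
    have e4 : BB s y j k - Bk 0 (gy 0) j k = KP (kO s) (gy y) j k / (rr : ℂ) ^ 2 := by
      unfold BB Bk
      rw [KP_zero]
      ring
    simp only
    rw [e4, norm_div, hr, div_le_iff₀ (by positivity)]
    refine e2.trans ?_
    rw [div_mul_eq_mul_div]
    apply div_le_div_of_nonneg_right _ (by positivity)
    norm_num
  have h := (hY5 (AA s y) (BB s y) (Ak 0 (gy 0)) (Bk 0 (gy 0)) 1 (p 1) (m 1) _
    hc.a hc.b hc'.a hc'.b le_rfl (hb 1 le_rfl).1 hA hB).2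
  rw [if_pos rfl, sub_zero] at h
  obtain ⟨_, _, _, hp, hm⟩ := hb 1 le_rfl
  have hbase : DAf (Ak 0 (gy 0)) (Bk 0 (gy 0)) 1 (p 1) (m 1) = 0 := by
    unfold DAf
    rw [hp, hm]
    simp
  have hBk0 : Bk 0 (gy 0) 1 1 = 0 := by
    unfold Bk
    rw [KP_zero, zero_div]
  have hB11 : BB s y 1 1 = ((1 / 10 ^ 80 * kO s 1 1 : ℝ) : ℂ) := by
    unfold BB Bk
    rw [hO5]
    unfold rr
    push_cast
    ring
  rw [hbase, hBk0, hB11, sub_zero, sub_zero, Complex.ofReal_re] at h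
  unfold Gq
  refine h.trans ?_
  unfold rr
  norm_num

end C3Aux

open C3Aux in
theorem c3 (hS3 : S3) (hS7 : S7) (hS8 : S8) (hS9 : S9) (hC1 : C1) (hC2 : C2) (hC3a : C3a)
    (hY0 : Y0) (hY5 : Y5) (hY6 : Y6) : C3 := by
  obtain ⟨p, m, hb, hroots⟩ := base_roots hC1 hC2 hY6
  have hfix := fun (s : ℝ) (hs : s ∈ Set.Icc (1 / 20 : ℝ) (1 / 6)) =>
    exists_fixed hY0 hC3a hb hs
  choose! Y hYb hYf using hfix
  have hcont : ContinuousOn (fun s => Gq p m s (Y s)) (Set.Icc (1 / 20 : ℝ) (1 / 6)) := by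
    rw [Metric.continuousOn_iff]
    intro s hs e he
    refine ⟨e / 4, by positivity, fun s' hs' hd => ?_⟩
    have h1 := Gq_lip hS3 hS7 hS9 hC1 hY5 hb hs' hs (hYb s' hs') (hYb s hs)
      (fun n => fixed_lip hC3a hb hs' hs (hYb s' hs') (hYb s hs) (hYf s' hs') (hYf s hs) n)
    rw [Real.dist_eq] at hd ⊢
    linarith
  have m1 : (1 / 20 : ℝ) ∈ Set.Icc (1 / 20 : ℝ) (1 / 6) := ⟨le_rfl, by norm_num⟩
  have m2 : (1 / 6 : ℝ) ∈ Set.Icc (1 / 20 : ℝ) (1 / 6) := ⟨by norm_num, le_rfl⟩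
  have hlow : Gq p m (1 / 20) (Y (1 / 20)) ≤ 0 := by
    have h := Gq_base hS3 hS7 hS9 hC1 hY5 hb m1 (hYb _ m1)
    rw [abs_le] at h
    have h8 := hS8.1
    have := h.2
    nlinarith
  have hhigh : 0 ≤ Gq p m (1 / 6) (Y (1 / 6)) := by
    have h := Gq_base hS3 hS7 hS9 hC1 hY5 hb m2 (hYb _ m2)
    rw [abs_le] at h
    have h8 := hS8.2
    have := h.1
    nlinarith
  obtain ⟨s, hs, hG⟩ := intermediate_value_Icc (by norm_num : (1 / 20 : ℝ) ≤ 1 / 6) hcont
    ⟨hlow, hhigh⟩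
  simp only at hG
  refine ⟨s, hs, Y s, hYb s hs, ?_⟩
  intro k σ hk hσ
  obtain ⟨hDB, hDA⟩ := fixed_eq hC2 (hYf s hs)
  have hDA1 : DAf (AA s (Y s)) (BB s (Y s)) k (p k) (m k) = 0 := by
    rcases Nat.lt_or_ge k 2 with h | h
    · have : k = 1 := by omega
      subst this
      exact hG
    · exact hDA k h
  have hDB1 := hDB k hk
  obtain ⟨hgood, hpk, hmk, _, _⟩ := hb k hk
  have hk0 : (0 : ℝ) < k := by exact_mod_cast (by omega : 0 < k)
  have hgap : 0 < TT k (p k) - TT k (m k) := by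
    refine lt_of_lt_of_le ?_ hgood.gap
    unfold eps
    positivity
  have hden : 2 * rr ^ 2 * (TT k (p k) - TT k (m k)) ≠ 0 := by
    have : 0 < rr := by unfold rr; positivity
    positivity
  have e1 : Psi (AA s (Y s)) (BB s (Y s)) k (p k) - Psi (AA s (Y s)) (BB s (Y s)) k (m k)
      = 0 := by
    unfold DAf at hDA1
    rw [div_eq_zero_iff] at hDA1
    rcases hDA1 with h | h
    · exact h
    · exact absurd h hden
  have e2 : Psi (AA s (Y s)) (BB s (Y s)) k (p k) + Psi (AA s (Y s)) (BB s (Y s)) k (m k)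
      = 0 := by
    unfold DBf at hDB1
    linarith
  have e3 : Psi (AA s (Y s)) (BB s (Y s)) k (p k) = 0 := by linarith
  have e4 : Psi (AA s (Y s)) (BB s (Y s)) k (m k) = 0 := by linarith
  obtain ⟨σp, σm, h1, h2, h3, h4, h5, _⟩ := hY6 _ _ k (cls_s hC1 hS7 hs (hYb s hs)) hk
  have hr : rr ^ 2 ≤ 1 / 2 := by unfold rr; norm_num
  have f1 : p k = σp := by
    rcases (h5 (p k) (hgood.hp.trans hr)).1 e3 with h | h
    · exact h
    · exfalso; rw [h] at hpk; linarith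
  have f2 : m k = σm := by
    rcases (h5 (m k) (hgood.hm.trans hr)).1 e4 with h | h
    · exfalso; rw [h] at hmk; linarith
    · exact h
  have g1 := h5 σ hσ
  have g2 := hroots k hk σ hσ
  rw [g2, f1, f2]
  exact g1

end Pool.Agent.Stek
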