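import Pool.Agent.Stek.TSeq

/-!
# The map `Tm` is a contraction (target C3a)
-/

open scoped BigOperators ComplexConjugate Topology ContDiff
open Complex

noncomputable section

namespace Pool.Agent.Stek

namespace C3aAux

theorem kap_zero : Kap 0 := by
  intro n m _ _
  simp only [Pi.zero_apply, abs_zero]
  positivity

theorem ball_zero : ∀ n, ‖(0 : ℕ → ℂ) n‖ ≤ dl := by
  intro n
  simp only [Pi.zero_apply, norm_zero, dl]
  positivity

theorem KQ_zero (g : ℕ → ℂ) (j k : ℕ) : KQ 0 g j k = 0 := by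
  unfold KQ
  simp

theorem rho : (RR / rr) ^ 2 = 1 / 10 ^ 140 := by
  unfold RR rr; norm_num

theorem vv_pos {n : ℕ} (hn : 1 ≤ n) : 0 < vv n := by
  have hn0 : (0 : ℝ) < n := by exact_mod_cast (by omega : 0 < n)
  unfold vv eps
  split_ifs <;> positivity

theorem abs_mul_le' {x y X Y : ℝ} (hx : |x| ≤ X) (hy : |y| ≤ Y) : |x * y| ≤ X * Y := by
  rw [abs_mul]
  exact mul_le_mul hx hy (abs_nonneg _) ((abs_nonneg _).trans hx)

/-- real part for even indices: variation -/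
theorem even_re {a b a' b' th th' e1 e2 e1' e2' EA EB EA' EB' th0 c0 d : ℝ} (hd : 0 ≤ d)
    (ha' : |a'| ≤ dl) (hb' : |b'| ≤ dl)
    (haa : |a - a'| ≤ d) (hbb : |b - b'| ≤ d) (h0 : 2 / 27 ≤ th0)
    (ht : |th - th0| ≤ 9 * dl) (ht' : |th' - th0| ≤ 9 * dl) (htt : |th - th'| ≤ 9 * d)
    (he1 : |e1| ≤ 1 / 1000) (he1' : |e1'| ≤ 1 / 1000) (he2 : |e2| ≤ 1 / 1000)
    (he2' : |e2'| ≤ 1 / 1000) (hee1 : |e1 - e1'| ≤ d / 1000) (hee2 : |e2 - e2'| ≤ d / 1000)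
    (hA : |EA - EA'| ≤ d / 100) (hB : |EB - EB'| ≤ d / 100) :
    |(a - ((EB + ((100 * a + th + e1) ^ 2 + (1 + 100 * b + e2) ^ 2 - c0)) -
        (EA + ((100 * a) ^ 2 + (1 + 100 * b) ^ 2 - 1))) / (200 * th0)) -
      (a' - ((EB' + ((100 * a' + th' + e1') ^ 2 + (1 + 100 * b' + e2') ^ 2 - c0)) -
        (EA' + ((100 * a') ^ 2 + (1 + 100 * b') ^ 2 - 1))) / (200 * th0))| ≤ d / 4 := by
  have hth : 0 < 200 * th0 := by linarith
  have key : (a - ((EB + ((100 * a + th + e1) ^ 2 + (1 + 100 * b + e2) ^ 2 - c0)) -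
        (EA + ((100 * a) ^ 2 + (1 + 100 * b) ^ 2 - 1))) / (200 * th0)) -
      (a' - ((EB' + ((100 * a' + th' + e1') ^ 2 + (1 + 100 * b' + e2') ^ 2 - c0)) -
        (EA' + ((100 * a') ^ 2 + (1 + 100 * b') ^ 2 - 1))) / (200 * th0))
      = (200 * ((a - a') * (th0 - th - e1)) - 200 * (a' * ((th - th') + (e1 - e1')))
        - ((th - th') + (e1 - e1')) * ((th - th0) + (th' - th0) + 2 * th0 + e1 + e1')
        - 2 * (100 * ((b - b') * e2) + (1 + 100 * b') * (e2 - e2'))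
        - (e2 - e2') * (e2 + e2') - (EB - EB') + (EA - EA')) / (200 * th0) := by
    field_simp
    ring
  rw [key, abs_div, abs_of_pos hth, div_le_iff₀ hth]
  have hdl : dl ≤ 1 / 10 ^ 50 := le_of_eq rfl
  have hdl0 : 0 ≤ dl := by unfold dl; positivity
  have b1 : |th0 - th - e1| ≤ 9 * dl + 1 / 1000 := by
    rw [abs_le] at ht he1 ⊢
    constructor <;> linarith [ht.1, ht.2, he1.1, he1.2]
  have b2 : |(th - th') + (e1 - e1')| ≤ 9 * d + d / 1000 :=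
    (abs_add_le _ _).trans (add_le_add htt hee1)
  have b3 : |(th - th0) + (th' - th0) + 2 * th0 + e1 + e1'| ≤ 18 * dl + 2 * th0 + 2 / 1000 := by
    rw [abs_le] at ht ht' he1 he1' ⊢
    constructor <;> linarith [ht.1, ht.2, he1.1, he1.2, ht'.1, ht'.2, he1'.1, he1'.2]
  have b4 : |1 + 100 * b'| ≤ 1 + 100 * dl := by
    rw [abs_le] at hb' ⊢
    constructor <;> linarith [hb'.1, hb'.2]
  have b5 : |e2 + e2'| ≤ 2 / 1000 := by
    rw [abs_le] at he2 he2' ⊢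
    constructor <;> linarith [he2.1, he2.2, he2'.1, he2'.2]
  have c1 := abs_mul_le' haa b1
  have c2 := abs_mul_le' ha' b2
  have c3 := abs_mul_le' b2 b3
  have c4 := abs_mul_le' hbb he2
  have c5 := abs_mul_le' b4 hee2
  have c6 := abs_mul_le' hee2 b5
  have hsum : |200 * ((a - a') * (th0 - th - e1)) - 200 * (a' * ((th - th') + (e1 - e1')))
        - ((th - th') + (e1 - e1')) * ((th - th0) + (th' - th0) + 2 * th0 + e1 + e1')
        - 2 * (100 * ((b - b') * e2) + (1 + 100 * b') * (e2 - e2'))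
        - (e2 - e2') * (e2 + e2') - (EB - EB') + (EA - EA')|
      ≤ 200 * (d * (9 * dl + 1 / 1000)) + 200 * (dl * (9 * d + d / 1000))
        + (9 * d + d / 1000) * (18 * dl + 2 * th0 + 2 / 1000)
        + 2 * (100 * (d * (1 / 1000)) + (1 + 100 * dl) * (d / 1000))
        + d / 1000 * (2 / 1000) + d / 100 + d / 100 := by
    rw [abs_le] at c1 c2 c3 c4 c5 c6 hA hB ⊢
    constructor <;> linarith [c1.1, c1.2, c2.1, c2.2, c3.1, c3.2, c4.1, c4.2, c5.1, c5.2,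
      c6.1, c6.2, hA.1, hA.2, hB.1, hB.2]
  refine hsum.trans ?_
  have hx : dl * d ≤ 1 / 10 ^ 50 * d := mul_le_mul_of_nonneg_right hdl hd
  have hy : 2 / 27 * d ≤ th0 * d := mul_le_mul_of_nonneg_right h0 hd
  nlinarith

/-- imaginary part for even indices: variation -/
theorem even_im {a b a' b' EA EA' d : ℝ} (hd : 0 ≤ d)
    (ha : |a| ≤ dl) (hb : |b| ≤ dl) (ha' : |a'| ≤ dl) (hb' : |b'| ≤ dl)
    (haa : |a - a'| ≤ d) (hbb : |b - b'| ≤ d)
    (hA : |EA - EA'| ≤ d / 100) :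
    |(b - (EA + ((100 * a) ^ 2 + (1 + 100 * b) ^ 2 - 1)) / 200) -
      (b' - (EA' + ((100 * a') ^ 2 + (1 + 100 * b') ^ 2 - 1)) / 200)| ≤ d / 4 := by
  have hdl : dl ≤ 1 / 10 ^ 50 := le_of_eq rfl
  have b1 : |a + a'| ≤ dl + dl := (abs_add_le _ _).trans (add_le_add ha ha')
  have b2 : |b + b'| ≤ dl + dl := (abs_add_le _ _).trans (add_le_add hb hb')
  have c1 := abs_mul_le' haa b1
  have c2 := abs_mul_le' hbb b2
  have hx : d * dl ≤ d * (1 / 10 ^ 50) := mul_le_mul_of_nonneg_left hdl hd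
  rw [abs_le] at c1 c2 hA ⊢
  constructor <;> nlinarith [c1.1, c1.2, c2.1, c2.2, hA.1, hA.2]

/-- odd indices: variation -/
theorem odd_var {a a' EA EA' d : ℝ} (hd : 0 ≤ d)
    (ha : |a| ≤ dl) (ha' : |a'| ≤ dl) (haa : |a - a'| ≤ d)
    (hA : |EA - EA'| ≤ d / 50) :
    |(a - 1 / 2 * (EA + ((1 + a) ^ 2 - 1))) - (a' - 1 / 2 * (EA' + ((1 + a') ^ 2 - 1)))|
      ≤ d / 4 := by
  have hdl : dl ≤ 1 / 10 ^ 50 := le_of_eq rfl
  have b1 : |a + a'| ≤ dl + dl := (abs_add_le _ _).trans (add_le_add ha ha')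
  have c1 := abs_mul_le' haa b1
  have hx : d * dl ≤ d * (1 / 10 ^ 50) := mul_le_mul_of_nonneg_left hdl hd
  rw [abs_le] at c1 hA ⊢
  constructor <;> nlinarith [c1.1, c1.2, hA.1, hA.2]

theorem norm_sq_eq (z : ℂ) : ‖z‖ ^ 2 = z.re ^ 2 + z.im ^ 2 := by
  rw [← Complex.normSq_eq_norm_sq, Complex.normSq_apply]
  ring

/-- index two: variation -/
theorem two_var {a a' u u' v v' EB EB' d : ℝ} (hd : 0 ≤ d)
    (ha : |a| ≤ dl) (ha' : |a'| ≤ dl) (haa : |a - a'| ≤ d)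
    (hu : |u| ≤ 1 / 1000) (hu' : |u'| ≤ 1 / 1000) (hv : |v| ≤ 1 / 1000) (hv' : |v'| ≤ 1 / 1000)
    (huu : |u - u'| ≤ d / 1000) (hvv : |v - v'| ≤ d / 1000)
    (hB : |EB - EB'| ≤ d / 100) :
    |(a - 1 / 2 * (EB + ((1 + a + u) ^ 2 + v ^ 2 - 1))) -
      (a' - 1 / 2 * (EB' + ((1 + a' + u') ^ 2 + v' ^ 2 - 1)))| ≤ d / 4 := by
  have hdl : dl ≤ 1 / 10 ^ 50 := le_of_eq rfl
  have b1 : |a + a' + u + u'| ≤ dl + dl + 2 / 1000 := by
    rw [abs_le] at ha ha' hu hu' ⊢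
    constructor <;> linarith [ha.1, ha.2, ha'.1, ha'.2, hu.1, hu.2, hu'.1, hu'.2]
  have b2 : |v + v'| ≤ 2 / 1000 := by
    rw [abs_le] at hv hv' ⊢
    constructor <;> linarith [hv.1, hv.2, hv'.1, hv'.2]
  have c1 := abs_mul_le' haa b1
  have c2 := abs_mul_le' huu b1
  have c3 := abs_mul_le' hvv b2
  have hx : d * dl ≤ d * (1 / 10 ^ 50) := mul_le_mul_of_nonneg_left hdl hd
  have key : (a - 1 / 2 * (EB + ((1 + a + u) ^ 2 + v ^ 2 - 1))) -
      (a' - 1 / 2 * (EB' + ((1 + a' + u') ^ 2 + v' ^ 2 - 1)))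
      = - (1 / 2) * (EB - EB') - 1 / 2 * ((a - a') * (a + a' + u + u'))
        - (u - u') - 1 / 2 * ((u - u') * (a + a' + u + u')) - 1 / 2 * ((v - v') * (v + v')) := by
    ring
  rw [key]
  rw [abs_le] at c1 c2 c3 hB huu ⊢
  constructor <;> nlinarith [c1.1, c1.2, c2.1, c2.2, c3.1, c3.2, hB.1, hB.2, huu.1, huu.2]

theorem gb_small : (11 / 10 * eps : ℝ) ≤ 1 / 100 := by
  unfold eps; norm_num

theorem gy_odd {y : ℕ → ℂ} {n : ℕ} (hn : 2 ≤ n) (h : n = 2 ∨ n % 2 = 1) :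
    gy y n / vv n = ((1 + (y n).re : ℝ) : ℂ) := by
  have hv := (vv_pos (by omega : 1 ≤ n)).ne'
  have hv' : (vv n : ℂ) ≠ 0 := by exact_mod_cast hv
  unfold gy
  rw [if_neg (by omega), if_pos h, mul_div_cancel_left₀ _ hv']
  push_cast
  ring

theorem gy_even {y : ℕ → ℂ} {n : ℕ} (hn : 3 ≤ n) (h : ¬ n % 2 = 1) :
    gy y n / vv n = I + 100 * y n := by
  have hv := (vv_pos (by omega : 1 ≤ n)).ne'
  have hv' : (vv n : ℂ) ≠ 0 := by exact_mod_cast hv
  unfold gy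
  rw [if_neg (by omega), if_neg (by omega), mul_div_cancel_left₀ _ hv']

/-- `DAn` for odd `n` -/
theorem DAn_odd {p m : ℕ → ℝ} {s : ℝ} {y : ℕ → ℂ} {n : ℕ} (hn : 3 ≤ n) (h : n % 2 = 1) :
    DAn p m s y (n - 1) = eA p m s y (n - 1) + ((1 + (y n).re) ^ 2 - 1) := by
  unfold eA
  have e : n - 1 + 1 = n := by omega
  rw [e, gy_odd (by omega) (Or.inr h), Complex.norm_real, Real.norm_eq_abs, sq_abs]
  ring

/-- `DAn` for even `n` -/
theorem DAn_even {p m : ℕ → ℝ} {s : ℝ} {y : ℕ → ℂ} {n : ℕ} (hn : 3 ≤ n) (h : ¬ n % 2 = 1) :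
    DAn p m s y (n - 1) = eA p m s y (n - 1) +
      ((100 * (y n).re) ^ 2 + (1 + 100 * (y n).im) ^ 2 - 1) := by
  unfold eA
  have e : n - 1 + 1 = n := by omega
  have e2 : (I + 100 * y n).re = 100 * (y n).re := by
    simp
  have e3 : (I + 100 * y n).im = 1 + 100 * (y n).im := by
    simp
  rw [e, gy_even hn h, norm_sq_eq, e2, e3]
  ring

/-- the defect of the diagonal -/
def qq (s : ℝ) (y : ℕ → ℂ) (l : ℕ) : ℂ :=
  Ak (kE s) (gy y) l l / vv (2 * l) - (I + 100 * y (2 * l) + thf y l)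

theorem DBn_even {p m : ℕ → ℝ} {s : ℝ} {y : ℕ → ℂ} {l : ℕ} :
    DBn p m s y l = eB p m s y l +
      ((100 * (y (2 * l)).re + thf y l + (qq s y l).re) ^ 2 +
        (1 + 100 * (y (2 * l)).im + (qq s y l).im) ^ 2 -
        ‖Ak 0 (gy 0) l l / vv (2 * l)‖ ^ 2) := by
  unfold eB
  have e0 : Ak (kE s) (gy y) l l / vv (2 * l) = (I + 100 * y (2 * l) + thf y l) + qq s y l := by
    unfold qq; ring
  have e2 : ((I + 100 * y (2 * l) + thf y l) + qq s y l).re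
      = 100 * (y (2 * l)).re + thf y l + (qq s y l).re := by
    simp
  have e3 : ((I + 100 * y (2 * l) + thf y l) + qq s y l).im
      = 1 + 100 * (y (2 * l)).im + (qq s y l).im := by
    simp
  rw [e0, norm_sq_eq ((I + 100 * y (2 * l) + thf y l) + qq s y l), e2, e3]
  ring

/-- the defect at index two -/
def q2 (s : ℝ) (y : ℕ → ℂ) : ℂ := KQ (kE s) (gy y) 1 1 / vv 2

theorem Ak_one (κ : ℕ → ℕ → ℝ) (y : ℕ → ℂ) :
    Ak κ (gy y) 1 1 / vv 2 = ((1 + (y 2).re : ℝ) : ℂ) + KQ κ (gy y) 1 1 / vv 2 := by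
  unfold Ak
  rw [gam_rec _ le_rfl le_rfl]
  have h3 := gy_odd (y := y) (n := 2) le_rfl (Or.inl rfl)
  rw [← h3]
  simp
  ring

theorem DBn_one {p m : ℕ → ℝ} {s : ℝ} {y : ℕ → ℂ} :
    DBn p m s y 1 = eB p m s y 1 +
      ((1 + (y 2).re + (q2 s y).re) ^ 2 + (q2 s y).im ^ 2 - 1) := by
  unfold eB
  have e1 : Ak 0 (gy 0) 1 1 / vv (2 * 1) = 1 := by
    rw [mul_one, Ak_one, KQ_zero]
    simp
  rw [e1, mul_one, Ak_one]
  have e2 : (((1 + (y 2).re : ℝ) : ℂ) + KQ (kE s) (gy y) 1 1 / vv 2).re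
      = 1 + (y 2).re + (q2 s y).re := by
    unfold q2
    rw [Complex.add_re, Complex.ofReal_re]
  have e3 : (((1 + (y 2).re : ℝ) : ℂ) + KQ (kE s) (gy y) 1 1 / vv 2).im
      = (q2 s y).im := by
    unfold q2
    rw [Complex.add_im, Complex.ofReal_im, zero_add]
  rw [norm_sq_eq, e2, e3, norm_one]
  ring

theorem vv_two : vv 2 = 1 / (8 * 10 ^ 6) := by
  unfold vv eps
  norm_num

theorem vv_even {l : ℕ} (hl : 2 ≤ l) : vv (2 * l) = eps ^ 2 / (2 * (l : ℝ)) ^ 3 := by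
  unfold vv
  rw [if_neg (by omega)]
  push_cast
  rfl

theorem q2_bounds (hS7 : S7) (hS9 : S9) (hC1 : C1) {s : ℝ}
    (hs : s ∈ Set.Icc (1 / 20 : ℝ) (1 / 6)) {y y' : ℕ → ℂ} {d : ℝ} (hy : ∀ n, ‖y n‖ ≤ dl)
    (hy' : ∀ n, ‖y' n‖ ≤ dl) (hd : ∀ n, ‖y n - y' n‖ ≤ d) :
    ‖q2 s y‖ ≤ 1 / 10 ^ 100 ∧ ‖q2 s y - q2 s y'‖ ≤ d / 1000 := by
  have hd0 : 0 ≤ d := (norm_nonneg _).trans (hd 0)
  obtain ⟨hg, hlip, _⟩ := hC1 y y' d hy hy'
  obtain ⟨hg', _, _⟩ := hC1 y' y' d hy' hy'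
  have hlip' := hlip hd
  obtain ⟨k1, _, _, _⟩ := hS7 s s hs hs
  have hed : 0 ≤ eps * d := mul_nonneg (by unfold eps; positivity) hd0
  obtain ⟨h1, _, h2, _, _⟩ := hS9 (kE s) (kE s) (11 / 10 * eps) (eps * d) 0 (gy y) (gy y')
    k1 k1 gb_small hg hg' hed le_rfl
  have h2' := (h2 hlip').1
  rw [rho] at h1 h2'
  have h1' := h1 1 1 le_rfl le_rfl
  have h2'' := h2' 1 1 le_rfl le_rfl
  have hv : ‖(vv 2 : ℂ)‖ = 1 / (8 * 10 ^ 6) := by
    rw [Complex.norm_real, vv_two]; norm_num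
  constructor
  · unfold q2
    rw [norm_div, hv, div_le_iff₀ (by positivity)]
    refine h1'.trans ?_
    norm_num
  · unfold q2
    rw [← sub_div, norm_div, hv, div_le_iff₀ (by positivity)]
    refine h2''.trans ?_
    unfold eps
    norm_num
    linarith

theorem diag_diff (hS7 : S7) (hS9 : S9) (hC1 : C1) (hC2 : C2) {s : ℝ}
    (hs : s ∈ Set.Icc (1 / 20 : ℝ) (1 / 6)) {l : ℕ} (hl : 2 ≤ l) :
    |‖Ak (kE s) (gy 0) l l / vv (2 * l)‖ ^ 2 - ‖Ak 0 (gy 0) l l / vv (2 * l)‖ ^ 2|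
      ≤ 1 / 10 ^ 100 := by
  obtain ⟨hg, _, _⟩ := hC1 0 0 0 ball_zero ball_zero
  obtain ⟨k1, _, _, _⟩ := hS7 s s hs hs
  obtain ⟨h1, _, _, _, _⟩ := hS9 (kE s) (kE s) (11 / 10 * eps) 0 0 (gy 0) (gy 0)
    k1 k1 gb_small hg hg le_rfl le_rfl
  rw [rho] at h1
  have h1' := h1 l l (by omega) (by omega)
  obtain ⟨_, hth, _, h2, _⟩ := hC2 0 0 0 l 0 kap_zero ball_zero ball_zero (by simp) hl
  obtain ⟨hth0, _⟩ := hC2 0 0 0 l 0 kap_zero ball_zero ball_zero (by simp) hl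
  have hl0 : (2 : ℝ) ≤ l := by exact_mod_cast hl
  have hvp : 0 < vv (2 * l) := vv_pos (by omega)
  have hv : ‖(vv (2 * l) : ℂ)‖ = vv (2 * l) := by
    rw [Complex.norm_real, Real.norm_eq_abs, abs_of_pos hvp]
  set A := Ak 0 (gy 0) l l / (vv (2 * l) : ℂ) with hA
  have hsplit : Ak (kE s) (gy 0) l l / (vv (2 * l) : ℂ)
      = A + KQ (kE s) (gy 0) l l / (vv (2 * l) : ℂ) := by
    rw [hA]
    unfold Ak
    rw [KQ_zero]
    ring
  have hk : ‖KQ (kE s) (gy 0) l l / (vv (2 * l) : ℂ)‖ ≤ 1 / 10 ^ 120 := by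
    rw [norm_div, hv, div_le_iff₀ hvp]
    refine h1'.trans ?_
    rw [vv_even hl, div_le_iff₀ (by positivity)]
    have e : (1 : ℝ) / 10 ^ 120 * (eps ^ 2 / (2 * (l : ℝ)) ^ 3) * ((l : ℝ) * l) ^ 3
        = 1 / 10 ^ 132 / 8 * (l : ℝ) ^ 3 := by
      unfold eps
      field_simp
      norm_num
    rw [e]
    have h3 : (2 : ℝ) ^ 3 ≤ (l : ℝ) ^ 3 := by gcongr
    norm_num at h3 ⊢
    linarith
  have hAn : ‖A‖ ≤ 6 := by
    simp only [Pi.zero_apply, mul_zero, add_zero] at h2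
    have h3 : ‖A‖ ≤ ‖A - (I + (thf 0 l : ℂ))‖ + ‖I + (thf 0 l : ℂ)‖ := by
      have := norm_add_le (A - (I + (thf 0 l : ℂ))) (I + (thf 0 l : ℂ))
      rwa [sub_add_cancel] at this
    have h4 : ‖I + (thf 0 l : ℂ)‖ ≤ 1 + 4 := by
      refine (norm_add_le _ _).trans ?_
      rw [Complex.norm_I, Complex.norm_real, Real.norm_eq_abs, abs_of_pos (by linarith)]
      linarith
    linarith
  rw [hsplit]
  have hA0 := norm_nonneg A
  have h5 := norm_add_le A (KQ (kE s) (gy 0) l l / (vv (2 * l) : ℂ))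
  have h6 : ‖A‖ ≤ ‖A + KQ (kE s) (gy 0) l l / (vv (2 * l) : ℂ)‖
      + ‖KQ (kE s) (gy 0) l l / (vv (2 * l) : ℂ)‖ := by
    have := norm_sub_le (A + KQ (kE s) (gy 0) l l / (vv (2 * l) : ℂ))
      (KQ (kE s) (gy 0) l l / (vv (2 * l) : ℂ))
    rwa [add_sub_cancel_right] at this
  have hz0 := norm_nonneg (A + KQ (kE s) (gy 0) l l / (vv (2 * l) : ℂ))
  generalize ‖A + KQ (kE s) (gy 0) l l / (vv (2 * l) : ℂ)‖ = z at *
  generalize ‖KQ (kE s) (gy 0) l l / (vv (2 * l) : ℂ)‖ = w at *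
  generalize ‖A‖ = x at *
  have e : z ^ 2 - x ^ 2 = (z - x) * (z + x) := by ring
  have g1 : |z - x| ≤ 1 / 10 ^ 120 := by rw [abs_le]; constructor <;> linarith
  have g2 : |z + x| ≤ 13 := by
    rw [abs_le]
    constructor <;> norm_num at hk ⊢ <;> linarith
  rw [e]
  refine (abs_mul_le' g1 g2).trans ?_
  norm_num

theorem Tm_two' {p m : ℕ → ℝ} {s : ℝ} {y : ℕ → ℂ} :
    Tm p m s y 2 = (((y 2).re - 1 / 2 * DBn p m s y 1 : ℝ) : ℂ) := by
  unfold Tm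
  rw [if_neg (by norm_num), if_pos rfl]

theorem Tm_odd' {p m : ℕ → ℝ} {s : ℝ} {y : ℕ → ℂ} {n : ℕ} (hn : 3 ≤ n) (h : n % 2 = 1) :
    Tm p m s y n = (((y n).re - 1 / 2 * DAn p m s y (n - 1) : ℝ) : ℂ) := by
  unfold Tm
  rw [if_neg (by omega), if_neg (by omega), if_pos h]

theorem Tm_two {p m : ℕ → ℝ} {s : ℝ} {y : ℕ → ℂ} :
    Tm p m s y 2 = (((y 2).re - 1 / 2 * (eB p m s y 1 +
      ((1 + (y 2).re + (q2 s y).re) ^ 2 + (q2 s y).im ^ 2 - 1)) : ℝ) : ℂ) := by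
  unfold Tm
  rw [if_neg (by norm_num), if_pos rfl, DBn_one]

theorem Tm_odd {p m : ℕ → ℝ} {s : ℝ} {y : ℕ → ℂ} {n : ℕ} (hn : 3 ≤ n) (h : n % 2 = 1) :
    Tm p m s y n = (((y n).re - 1 / 2 * (eA p m s y (n - 1) + ((1 + (y n).re) ^ 2 - 1)) : ℝ) : ℂ)
    := by
  unfold Tm
  rw [if_neg (by omega), if_neg (by omega), if_pos h, DAn_odd hn h]

theorem Tm_even {p m : ℕ → ℝ} {s : ℝ} {y : ℕ → ℂ} {l : ℕ} (hl : 2 ≤ l) :
    Tm p m s y (2 * l) =
      (((y (2 * l)).re - (DBn p m s y l - DAn p m s y (2 * l - 1)) / (200 * thf 0 l) : ℝ) : ℂ) +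
      (((y (2 * l)).im - DAn p m s y (2 * l - 1) / 200 : ℝ) : ℂ) * I := by
  unfold Tm
  rw [if_neg (by omega), if_neg (by omega), if_neg (by omega)]
  have e1 : 2 * l / 2 = l := by omega
  rw [e1]
  generalize (DBn p m s y l - DAn p m s y (2 * l - 1)) / (200 * thf 0 l) = u
  generalize DAn p m s y (2 * l - 1) / 200 = v
  apply Complex.ext
  · simp
  · simp

theorem norm_le_re_im (a b : ℝ) {A B : ℝ} (ha : |a| ≤ A) (hb : |b| ≤ B) :
    ‖(a : ℂ) + (b : ℂ) * I‖ ≤ A + B := by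
  refine (norm_add_le _ _).trans ?_
  rw [norm_mul, Complex.norm_I, mul_one, Complex.norm_real, Complex.norm_real,
    Real.norm_eq_abs, Real.norm_eq_abs]
  exact add_le_add ha hb

/-- the Lipschitz estimate -/
theorem Tm_lip (hC3e : C3e) (hC2 : C2) (hC1 : C1) (hS9 : S9) (hS7 : S7) {p m : ℕ → ℝ}
    (hb : BaseRoots p m) {s : ℝ} (hs : s ∈ Set.Icc (1 / 20 : ℝ) (1 / 6))
    {y y' : ℕ → ℂ} {d : ℝ} (hy : ∀ n, ‖y n‖ ≤ dl) (hy' : ∀ n, ‖y' n‖ ≤ dl)
    (hd : ∀ n, ‖y n - y' n‖ ≤ d) (n : ℕ) :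
    ‖Tm p m s y n - Tm p m s y' n‖ ≤ d / 2 := by
  have hd0 : 0 ≤ d := (norm_nonneg _).trans (hd 0)
  have hE := hC3e p m hb s hs s hs y y' d hy hy' hd
  have ra : ∀ n, |(y n).re| ≤ dl := fun n => (Complex.abs_re_le_norm _).trans (hy n)
  have ra' : ∀ n, |(y' n).re| ≤ dl := fun n => (Complex.abs_re_le_norm _).trans (hy' n)
  have ia : ∀ n, |(y n).im| ≤ dl := fun n => (Complex.abs_im_le_norm _).trans (hy n)
  have ia' : ∀ n, |(y' n).im| ≤ dl := fun n => (Complex.abs_im_le_norm _).trans (hy' n)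
  have rd : ∀ n, |(y n).re - (y' n).re| ≤ d := fun n => by
    rw [← Complex.sub_re]; exact (Complex.abs_re_le_norm _).trans (hd n)
  have idd : ∀ n, |(y n).im - (y' n).im| ≤ d := fun n => by
    rw [← Complex.sub_im]; exact (Complex.abs_im_le_norm _).trans (hd n)
  rcases Nat.lt_or_ge n 2 with h2 | h2
  · unfold Tm
    rw [if_pos h2, if_pos h2, sub_zero, norm_zero]
    linarith
  rcases Nat.eq_or_lt_of_le h2 with h2' | h3
  · subst h2'
    rw [Tm_two, Tm_two, ← Complex.ofReal_sub, Complex.norm_real, Real.norm_eq_abs]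
    obtain ⟨_, e2, _, _⟩ := hE 1 le_rfl
    obtain ⟨f1, f2⟩ := q2_bounds hS7 hS9 hC1 hs hy hy' hd
    obtain ⟨f1', _⟩ := q2_bounds hS7 hS9 hC1 hs hy' hy' (d := 0) (by simp)
    have t : (1 : ℝ) / 10 ^ 100 ≤ 1 / 1000 := by norm_num
    have r1 := ((Complex.abs_re_le_norm (q2 s y)).trans f1).trans t
    have r2 := ((Complex.abs_re_le_norm (q2 s y')).trans f1').trans t
    have r3 := ((Complex.abs_im_le_norm (q2 s y)).trans f1).trans t
    have r4 := ((Complex.abs_im_le_norm (q2 s y')).trans f1').trans t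
    have r5 := (Complex.abs_re_le_norm (q2 s y - q2 s y')).trans f2
    have r6 := (Complex.abs_im_le_norm (q2 s y - q2 s y')).trans f2
    rw [Complex.sub_re] at r5
    rw [Complex.sub_im] at r6
    refine (two_var hd0 (ra 2) (ra' 2) (rd 2) r1 r2 r3 r4 r5 r6 e2).trans ?_
    linarith
  by_cases ho : n % 2 = 1
  · rw [Tm_odd (by omega) ho, Tm_odd (by omega) ho, ← Complex.ofReal_sub, Complex.norm_real,
      Real.norm_eq_abs]
    obtain ⟨_, _, _, e3⟩ := hE (n - 1) (by omega)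
    obtain ⟨_, e2, _⟩ := e3 (by omega)
    refine (odd_var hd0 (ra n) (ra' n) (rd n) (e2.trans ?_)).trans ?_
    · linarith
    · linarith
  · obtain ⟨l, hl⟩ : ∃ l, n = 2 * l := ⟨n / 2, by omega⟩
    subst hl
    have hl2 : 2 ≤ l := by omega
    obtain ⟨_, eB2, _, _⟩ := hE l (by omega)
    obtain ⟨_, _, _, e3⟩ := hE (2 * l - 1) (by omega)
    obtain ⟨_, eA2, _⟩ := e3 (by omega)
    obtain ⟨k1, _, _, _⟩ := hS7 s s hs hs
    obtain ⟨c1, _, c3, c4, c5⟩ := hC2 y y' d l (kE s) k1 hy hy' hd hl2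
    obtain ⟨_, _, _, c4', _⟩ := hC2 y' y' 0 l (kE s) k1 hy' hy' (by simp) hl2
    obtain ⟨_, _, c6, _, _⟩ := hC2 y 0 dl l (kE s) k1 hy ball_zero
      (fun n => by simpa using hy n) hl2
    obtain ⟨_, _, c6', _, _⟩ := hC2 y' 0 dl l (kE s) k1 hy' ball_zero
      (fun n => by simpa using hy' n) hl2
    change ‖qq s y l‖ ≤ 1 / 1000 at c4
    change ‖qq s y' l‖ ≤ 1 / 1000 at c4'
    change ‖qq s y l - qq s y' l‖ ≤ d / 1000 at c5
    have r1 := (Complex.abs_re_le_norm (qq s y l)).trans c4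
    have r2 := (Complex.abs_re_le_norm (qq s y' l)).trans c4'
    have r3 := (Complex.abs_im_le_norm (qq s y l)).trans c4
    have r4 := (Complex.abs_im_le_norm (qq s y' l)).trans c4'
    have r5 := (Complex.abs_re_le_norm (qq s y l - qq s y' l)).trans c5
    have r6 := (Complex.abs_im_le_norm (qq s y l - qq s y' l)).trans c5
    rw [Complex.sub_re] at r5
    rw [Complex.sub_im] at r6
    have hre := even_re (c0 := ‖Ak 0 (gy 0) l l / vv (2 * l)‖ ^ 2) hd0 (ra' (2 * l))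
      (ia' (2 * l)) (rd (2 * l)) (idd (2 * l)) c1 c6 c6' c3 r1 r2 r3 r4 r5 r6 eA2 eB2
    have him := even_im hd0 (ra (2 * l)) (ia (2 * l)) (ra' (2 * l)) (ia' (2 * l))
      (rd (2 * l)) (idd (2 * l)) eA2
    rw [Tm_even hl2, Tm_even hl2, DBn_even, DBn_even, DAn_even (by omega) ho,
      DAn_even (by omega) ho]
    rw [add_sub_add_comm, ← sub_mul, ← Complex.ofReal_sub, ← Complex.ofReal_sub]
    refine (norm_le_re_im _ _ hre him).trans ?_
    linarith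

/-- the value at the origin -/
theorem Tm_base (hC3e : C3e) (hC2 : C2) (hC1 : C1) (hS9 : S9) (hS7 : S7) {p m : ℕ → ℝ}
    (hb : BaseRoots p m) {s : ℝ} (hs : s ∈ Set.Icc (1 / 20 : ℝ) (1 / 6)) (n : ℕ) :
    ‖Tm p m s 0 n‖ ≤ dl / 2 := by
  have hdl0 : 0 ≤ dl := by unfold dl; positivity
  have hE := hC3e p m hb s hs s hs 0 0 0 ball_zero ball_zero (by simp)
  rcases Nat.lt_or_ge n 2 with h2 | h2
  · unfold Tm
    rw [if_pos h2, norm_zero]
    linarith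
  rcases Nat.eq_or_lt_of_le h2 with h2' | h3
  · subst h2'
    rw [Tm_two, Complex.norm_real, Real.norm_eq_abs]
    obtain ⟨e1, _, _, _⟩ := hE 1 le_rfl
    obtain ⟨f1, _⟩ := q2_bounds hS7 hS9 hC1 hs ball_zero ball_zero (d := 0) (by simp)
    have r1 := (Complex.abs_re_le_norm (q2 s 0)).trans f1
    have r3 := (Complex.abs_im_le_norm (q2 s 0)).trans f1
    have r5 := abs_mul_le' r1 r1
    have r6 := abs_mul_le' r3 r3
    simp only [Pi.zero_apply, Complex.zero_re, add_zero, zero_sub]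
    rw [abs_le] at e1 r1 r3 r5 r6 ⊢
    unfold dl at *
    norm_num at e1 r1 r3 r5 r6 ⊢
    constructor <;> nlinarith [e1.1, e1.2, r1.1, r1.2, r3.1, r3.2, r5.1, r5.2, r6.1, r6.2]
  by_cases ho : n % 2 = 1
  · rw [Tm_odd (by omega) ho, Complex.norm_real, Real.norm_eq_abs]
    obtain ⟨_, _, _, e3⟩ := hE (n - 1) (by omega)
    obtain ⟨e2, _, _⟩ := e3 (by omega)
    simp only [Pi.zero_apply, Complex.zero_re, add_zero, zero_sub, one_pow, sub_self]
    rw [abs_le] at e2 ⊢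
    constructor <;> linarith [e2.1, e2.2]
  · obtain ⟨l, hl⟩ : ∃ l, n = 2 * l := ⟨n / 2, by omega⟩
    subst hl
    have hl2 : 2 ≤ l := by omega
    obtain ⟨eB1, _, _, _⟩ := hE l (by omega)
    obtain ⟨_, _, _, e3⟩ := hE (2 * l - 1) (by omega)
    obtain ⟨eA1, _, _⟩ := e3 (by omega)
    obtain ⟨k1, _, _, _⟩ := hS7 s s hs hs
    obtain ⟨c1, _⟩ := hC2 0 0 0 l (kE s) k1 ball_zero ball_zero (by simp) hl2
    have hdd := diag_diff hS7 hS9 hC1 hC2 hs hl2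
    have hDB : |DBn p m s 0 l| ≤ dl / 10 + 1 / 10 ^ 100 := by
      have e : DBn p m s 0 l = eB p m s 0 l +
          (‖Ak (kE s) (gy 0) l l / vv (2 * l)‖ ^ 2 - ‖Ak 0 (gy 0) l l / vv (2 * l)‖ ^ 2) := by
        unfold eB; ring
      rw [e]
      exact (abs_add_le _ _).trans (add_le_add eB1 hdd)
    have hDA : |DAn p m s 0 (2 * l - 1)| ≤ dl / 10 := by
      rw [DAn_even (by omega) ho]
      simpa using eA1
    have hth : 0 < 200 * thf 0 l := by linarith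
    rw [Tm_even hl2]
    have h5 : |((0 : ℕ → ℂ) (2 * l)).re -
        (DBn p m s 0 l - DAn p m s 0 (2 * l - 1)) / (200 * thf 0 l)| ≤ dl / 10 := by
      simp only [Pi.zero_apply, Complex.zero_re, zero_sub, abs_neg]
      rw [abs_div, abs_of_pos hth, div_le_iff₀ hth]
      have h6 : |DBn p m s 0 l - DAn p m s 0 (2 * l - 1)|
          ≤ dl / 10 + 1 / 10 ^ 100 + dl / 10 := (abs_sub _ _).trans (add_le_add hDB hDA)
      refine h6.trans ?_
      have h7 : dl / 10 * (200 * (2 / 27)) ≤ dl / 10 * (200 * thf 0 l) :=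
        mul_le_mul_of_nonneg_left (by linarith) (by linarith)
      refine le_trans ?_ h7
      unfold dl
      norm_num
    have h6 : |((0 : ℕ → ℂ) (2 * l)).im - DAn p m s 0 (2 * l - 1) / 200| ≤ dl / 10 := by
      simp only [Pi.zero_apply, Complex.zero_im, zero_sub, abs_neg]
      rw [abs_div, abs_of_pos (by norm_num : (0 : ℝ) < 200), div_le_iff₀ (by norm_num)]
      linarith
    refine (norm_le_re_im _ _ h5 h6).trans ?_
    linarith

end C3aAux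

open C3aAux in
theorem c3a (hC3e : C3e) (hC2 : C2) (hC1 : C1) (hS9 : S9) (hS7 : S7) : C3a := by
  intro p m hb s hs s' hs' y y' d hy hy' hd
  refine ⟨fun n => ?_, fun n => Tm_lip hC3e hC2 hC1 hS9 hS7 hb hs hy hy' hd n, fun n => ?_⟩
  · have h1 := Tm_lip hC3e hC2 hC1 hS9 hS7 hb hs hy ball_zero (d := dl)
      (fun n => by simpa using hy n) n
    have h2 := Tm_base hC3e hC2 hC1 hS9 hS7 hb hs n
    have h3 : Tm p m s y n = (Tm p m s y n - Tm p m s 0 n) + Tm p m s 0 n := by ring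
    rw [h3]
    refine (norm_add_le _ _).trans ?_
    linarith
  · have hE := hC3e p m hb s hs s' hs' y y (0 : ℝ) hy hy (by simp)
    have hss := abs_nonneg (s - s')
    rcases Nat.lt_or_ge n 2 with h2 | h2
    · unfold Tm
      rw [if_pos h2, if_pos h2, sub_zero, norm_zero]
      exact hss
    rcases Nat.eq_or_lt_of_le h2 with h2' | h3
    · subst h2'
      rw [Tm_two', Tm_two', ← Complex.ofReal_sub, Complex.norm_real, Real.norm_eq_abs]
      obtain ⟨_, _, e3, _⟩ := hE 1 le_rfl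
      rw [abs_le] at e3 ⊢
      constructor <;> linarith [e3.1, e3.2]
    by_cases ho : n % 2 = 1
    · rw [Tm_odd' (by omega) ho, Tm_odd' (by omega) ho, ← Complex.ofReal_sub,
        Complex.norm_real, Real.norm_eq_abs]
      obtain ⟨_, _, _, e3⟩ := hE (n - 1) (by omega)
      obtain ⟨_, _, e4⟩ := e3 (by omega)
      rw [abs_le] at e4 ⊢
      constructor <;> linarith [e4.1, e4.2]
    · obtain ⟨l, hl⟩ : ∃ l, n = 2 * l := ⟨n / 2, by omega⟩
      subst hl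
      have hl2 : 2 ≤ l := by omega
      obtain ⟨_, _, eB3, _⟩ := hE l (by omega)
      obtain ⟨_, _, _, e3⟩ := hE (2 * l - 1) (by omega)
      obtain ⟨_, _, eA3⟩ := e3 (by omega)
      obtain ⟨k1, _, _, _⟩ := hS7 s s hs hs
      obtain ⟨c1, _⟩ := hC2 0 0 0 l (kE s) k1 ball_zero ball_zero (by simp) hl2
      have hth : 0 < 200 * thf 0 l := by linarith
      rw [Tm_even hl2, Tm_even hl2, add_sub_add_comm, ← sub_mul, ← Complex.ofReal_sub,
        ← Complex.ofReal_sub]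
      have h5 : |((y (2 * l)).re -
          (DBn p m s y l - DAn p m s y (2 * l - 1)) / (200 * thf 0 l)) -
          ((y (2 * l)).re -
          (DBn p m s' y l - DAn p m s' y (2 * l - 1)) / (200 * thf 0 l))| ≤ |s - s'| / 2 := by
        have e : ((y (2 * l)).re -
            (DBn p m s y l - DAn p m s y (2 * l - 1)) / (200 * thf 0 l)) -
            ((y (2 * l)).re -
            (DBn p m s' y l - DAn p m s' y (2 * l - 1)) / (200 * thf 0 l))
            = (-(DBn p m s y l - DBn p m s' y l) +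
              (DAn p m s y (2 * l - 1) - DAn p m s' y (2 * l - 1))) / (200 * thf 0 l) := by
          ring
        rw [e, abs_div, abs_of_pos hth, div_le_iff₀ hth]
        have h7 : |s - s'| / 2 * (200 * (2 / 27)) ≤ |s - s'| / 2 * (200 * thf 0 l) := by gcongr
        refine le_trans ?_ h7
        rw [abs_le] at eB3 eA3 ⊢
        constructor <;> linarith [eB3.1, eB3.2, eA3.1, eA3.2]
      have h6 : |((y (2 * l)).im - DAn p m s y (2 * l - 1) / 200) -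
          ((y (2 * l)).im - DAn p m s' y (2 * l - 1) / 200)| ≤ |s - s'| / 2 := by
        rw [abs_le] at eA3 ⊢
        constructor <;> linarith [eA3.1, eA3.2]
      refine (norm_le_re_im _ _ h5 h6).trans ?_
      linarith

end Pool.Agent.Stek
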