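import Pool.Agent.Stek.TSeq

/-!
# The deviations of the normalized equations (target C3e)
-/

open scoped BigOperators ComplexConjugate Topology ContDiff
open Complex

noncomputable section

namespace Pool.Agent.Stek

namespace C3eAux

theorem kap_zero : Kap 0 := by
  intro n m _ _
  simp only [Pi.zero_apply, abs_zero]
  positivity

theorem ball_zero : ∀ n, ‖(0 : ℕ → ℂ) n‖ ≤ dl := by
  intro n
  simp only [Pi.zero_apply, norm_zero, dl]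
  positivity

theorem rho : (RR / rr) ^ 2 = 1 / 10 ^ 140 := by
  unfold RR rr; norm_num

theorem gb_small : (11 / 10 * eps : ℝ) ≤ 1 / 100 := by
  unfold eps; norm_num

theorem vv_pos {n : ℕ} (hn : 1 ≤ n) : 0 < vv n := by
  have hn0 : (0 : ℝ) < n := by exact_mod_cast (by omega : 0 < n)
  unfold vv eps
  split_ifs <;> positivity

theorem vv_ge {n : ℕ} (hn : 1 ≤ n) : 1 / 10 ^ 12 / (n : ℝ) ^ 3 ≤ vv n := by
  have hn0 : (0 : ℝ) < n := by exact_mod_cast (by omega : 0 < n)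
  unfold vv
  apply div_le_div_of_nonneg_right _ (by positivity)
  unfold eps
  split_ifs <;> norm_num

/-- division by `vv n ^ 2` -/
theorem div_vv {X c : ℝ} {n k : ℕ} (hk : 1 ≤ k) (hn : 1 ≤ n) (hnk : n ≤ 2 * k)
    (hX : |X| ≤ c / (k : ℝ) ^ 6) : |X / vv n ^ 2| ≤ 64 * 10 ^ 24 * c := by
  have hn0 : (0 : ℝ) < n := by exact_mod_cast (by omega : 0 < n)
  have hk0 : (0 : ℝ) < k := by exact_mod_cast (by omega : 0 < k)
  have hnk' : (n : ℝ) ≤ 2 * k := by exact_mod_cast hnk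
  have hv := vv_pos hn
  have hv2 : (0 : ℝ) < vv n ^ 2 := by positivity
  have hc : 0 ≤ c := by
    by_contra hc
    have : c / (k : ℝ) ^ 6 < 0 := div_neg_of_neg_of_pos (by linarith) (by positivity)
    linarith [abs_nonneg X]
  rw [abs_div, abs_of_pos hv2, div_le_iff₀ hv2]
  refine hX.trans ?_
  rw [div_le_iff₀ (by positivity)]
  have h1 : (1 / 10 ^ 12 / (n : ℝ) ^ 3) ^ 2 ≤ vv n ^ 2 := by
    have := vv_ge hn
    gcongr
  have h2 : (n : ℝ) ^ 6 ≤ 64 * (k : ℝ) ^ 6 := by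
    calc (n : ℝ) ^ 6 ≤ (2 * (k : ℝ)) ^ 6 := by gcongr
      _ = 64 * (k : ℝ) ^ 6 := by ring
  have h3 : 1 ≤ 64 * 10 ^ 24 * vv n ^ 2 * (k : ℝ) ^ 6 := by
    calc (1 : ℝ) = 10 ^ 24 * (1 / 10 ^ 12 / (n : ℝ) ^ 3) ^ 2 * (n : ℝ) ^ 6 := by
          field_simp
      _ ≤ 10 ^ 24 * vv n ^ 2 * (64 * (k : ℝ) ^ 6) := by gcongr
      _ = 64 * 10 ^ 24 * vv n ^ 2 * (k : ℝ) ^ 6 := by ring
  calc c = c * 1 := by ring
    _ ≤ c * (64 * 10 ^ 24 * vv n ^ 2 * (k : ℝ) ^ 6) := by gcongr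
    _ = 64 * 10 ^ 24 * c * vv n ^ 2 * (k : ℝ) ^ 6 := by ring

theorem cube_le {j k : ℕ} (hj : 1 ≤ j) (hk : 1 ≤ k) :
    ((j : ℝ) + k) ^ 3 ≤ 8 * ((j : ℝ) * k) ^ 3 := by
  have hj' : (1 : ℝ) ≤ j := by exact_mod_cast hj
  have hk' : (1 : ℝ) ≤ k := by exact_mod_cast hk
  have h : (j : ℝ) + k ≤ 2 * (j * k) := by nlinarith
  calc ((j : ℝ) + k) ^ 3 ≤ (2 * ((j : ℝ) * k)) ^ 3 := by gcongr
    _ = 8 * ((j : ℝ) * k) ^ 3 := by ring

theorem div_cube_le {X : ℝ} (hX : 0 ≤ X) {j k : ℕ} (hj : 1 ≤ j) (hk : 1 ≤ k) :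
    X / ((j : ℝ) * k) ^ 3 ≤ 8 * X / ((j : ℝ) + k) ^ 3 := by
  have hj' : (1 : ℝ) ≤ j := by exact_mod_cast hj
  have hk' : (1 : ℝ) ≤ k := by exact_mod_cast hk
  have h := cube_le hj hk
  rw [div_le_div_iff₀ (by positivity) (by positivity)]
  nlinarith

/-- the data of the comparison of two kernels -/
structure Cmp (κ κ' : ℕ → ℕ → ℝ) (δ : ℝ) : Prop where
  a : Kap κ
  b : Kap κ'
  c : ∀ n m, 1 ≤ n → 1 ≤ m → |κ n m - κ' n m| ≤ δ * 2 ^ (n + m)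

theorem KQ_diff (hS9 : S9) (hC1 : C1) {κ κ' : ℕ → ℕ → ℝ} {δ : ℝ} (hκ : Cmp κ κ' δ)
    (hδ : 0 ≤ δ) {y y' : ℕ → ℂ} {d : ℝ} (hy : ∀ n, ‖y n‖ ≤ dl) (hy' : ∀ n, ‖y' n‖ ≤ dl)
    (hd : ∀ n, ‖y n - y' n‖ ≤ d) {j k : ℕ} (hj : 1 ≤ j) (hk : 1 ≤ k) :
    ‖KQ κ (gy y) j k - KQ κ' (gy y') j k‖ ≤
      (2000 * (eps * d) / 10 ^ 140 + 10 * δ / 10 ^ 140) / ((j : ℝ) * k) ^ 3 ∧
    ‖KP κ (gy y) j k - KP κ' (gy y') j k‖ ≤
      (2000 * (eps * d) / 10 ^ 140 + 10 * δ / 10 ^ 140) / ((j : ℝ) * k) ^ 3 := by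
  have hd0 : 0 ≤ d := (norm_nonneg _).trans (hd 0)
  obtain ⟨hg, hlip, _⟩ := hC1 y y' d hy hy'
  obtain ⟨hg', _, _⟩ := hC1 y' y' d hy' hy'
  have hed : 0 ≤ eps * d := mul_nonneg (by unfold eps; positivity) hd0
  obtain ⟨_, _, h1, _, _⟩ := hS9 κ κ (11 / 10 * eps) (eps * d) δ (gy y) (gy y')
    hκ.a hκ.a gb_small hg hg' hed hδ
  obtain ⟨_, _, _, h2, _⟩ := hS9 κ κ' (11 / 10 * eps) (eps * d) δ (gy y') (gy y')
    hκ.a hκ.b gb_small hg' hg' hed hδ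
  obtain ⟨h1a, h1b⟩ := h1 (hlip hd)
  obtain ⟨h2a, h2b⟩ := h2 hκ.c
  rw [rho] at h1a h1b h2a h2b
  constructor
  · have e : KQ κ (gy y) j k - KQ κ' (gy y') j k = (KQ κ (gy y) j k - KQ κ (gy y') j k) +
        (KQ κ (gy y') j k - KQ κ' (gy y') j k) := by ring
    rw [e]
    refine (norm_add_le _ _).trans ((add_le_add (h1a j k hj hk) (h2a j k hj hk)).trans
      (le_of_eq ?_))
    ring
  · have e : KP κ (gy y) j k - KP κ' (gy y') j k = (KP κ (gy y) j k - KP κ (gy y') j k) +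
        (KP κ (gy y') j k - KP κ' (gy y') j k) := by ring
    rw [e]
    refine (norm_add_le _ _).trans ((add_le_add (h1b j k hj hk) (h2b j k hj hk)).trans
      (le_of_eq ?_))
    ring

theorem KQ_norm (hS9 : S9) (hC1 : C1) {κ : ℕ → ℕ → ℝ} (hκ : Kap κ)
    {y : ℕ → ℂ} (hy : ∀ n, ‖y n‖ ≤ dl) {j k : ℕ} (hj : 1 ≤ j) (hk : 1 ≤ k) :
    ‖KQ κ (gy y) j k‖ ≤ 1 / 10 ^ 138 / ((j : ℝ) * k) ^ 3 := by
  obtain ⟨hg, _, _⟩ := hC1 y y 0 hy hy
  obtain ⟨h1, _, _, _, _⟩ := hS9 κ κ (11 / 10 * eps) 0 0 (gy y) (gy y)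
    hκ hκ gb_small hg hg le_rfl le_rfl
  rw [rho] at h1
  refine (h1 j k hj hk).trans (le_of_eq ?_)
  norm_num

theorem A_diff (hS3 : S3) (hS9 : S9) (hC1 : C1) {κ κ' : ℕ → ℕ → ℝ} {δ : ℝ} (hκ : Cmp κ κ' δ)
    (hδ : 0 ≤ δ) {y y' : ℕ → ℂ} {d : ℝ} (hy : ∀ n, ‖y n‖ ≤ dl) (hy' : ∀ n, ‖y' n‖ ≤ dl)
    (hd : ∀ n, ‖y n - y' n‖ ≤ d) :
    Kb (3 * (eps * d) + δ / 10 ^ 78) (fun j k => Ak κ (gy y) j k - Ak κ' (gy y') j k) := by
  have hd0 : 0 ≤ d := (norm_nonneg _).trans (hd 0)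
  obtain ⟨hg, hlip, _⟩ := hC1 y y' d hy hy'
  obtain ⟨hg', _, _⟩ := hC1 y' y' d hy' hy'
  have hed : 0 ≤ eps * d := mul_nonneg (by unfold eps; positivity) hd0
  have h3 := (hS3 (11 / 10 * eps) (eps * d) (gy y) (gy y') gb_small hg hg').2 (hlip hd)
  intro j k hj hk
  have hj' : (1 : ℝ) ≤ j := by exact_mod_cast hj
  have hk' : (1 : ℝ) ≤ k := by exact_mod_cast hk
  have e1 := h3 j k hj hk
  have e2 := ((KQ_diff hS9 hC1 hκ hδ hy hy' hd hj hk).1).trans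
    (div_cube_le (by positivity) hj hk)
  have e4 : Ak κ (gy y) j k - Ak κ' (gy y') j k = -(gam (gy y) j k - gam (gy y') j k)
      + (KQ κ (gy y) j k - KQ κ' (gy y') j k) := by
    unfold Ak; ring
  simp only
  rw [e4]
  refine (norm_add_le _ _).trans ?_
  rw [norm_neg]
  refine (add_le_add e1 e2).trans ?_
  rw [← add_div]
  apply div_le_div_of_nonneg_right _ (by positivity)
  generalize eps * d = u at *
  linarith

theorem B_diff (hS9 : S9) (hC1 : C1) {κ κ' : ℕ → ℕ → ℝ} {δ : ℝ} (hκ : Cmp κ κ' δ)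
    (hδ : 0 ≤ δ) {y y' : ℕ → ℂ} {d : ℝ} (hy : ∀ n, ‖y n‖ ≤ dl) (hy' : ∀ n, ‖y' n‖ ≤ dl)
    (hd : ∀ n, ‖y n - y' n‖ ≤ d) :
    Pb (eps * d / 10 ^ 76 + δ / 10 ^ 79) (fun j k => Bk κ (gy y) j k - Bk κ' (gy y') j k) := by
  have hd0 : 0 ≤ d := (norm_nonneg _).trans (hd 0)
  have hed : 0 ≤ eps * d := mul_nonneg (by unfold eps; positivity) hd0
  intro j k hj hk
  have hj' : (1 : ℝ) ≤ j := by exact_mod_cast hj
  have hk' : (1 : ℝ) ≤ k := by exact_mod_cast hk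
  have e2 := (KQ_diff hS9 hC1 hκ hδ hy hy' hd hj hk).2
  have e4 : Bk κ (gy y) j k - Bk κ' (gy y') j k
      = (KP κ (gy y) j k - KP κ' (gy y') j k) / (rr : ℂ) ^ 2 := by
    unfold Bk; ring
  simp only
  have hr : ‖(rr : ℂ) ^ 2‖ = 1 / 10 ^ 60 := by
    rw [norm_pow, Complex.norm_real]
    unfold rr
    norm_num
  rw [e4, norm_div, hr, div_le_iff₀ (by positivity)]
  refine e2.trans ?_
  rw [div_mul_eq_mul_div]
  apply div_le_div_of_nonneg_right _ (by positivity)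
  generalize eps * d = u at *
  linarith

theorem Pb_mono {X Y : ℝ} (h : X ≤ Y) {B : ℕ → ℕ → ℂ} (hB : Pb X B) : Pb Y B := by
  intro j k hj hk
  have hj' : (1 : ℝ) ≤ j := by exact_mod_cast hj
  have hk' : (1 : ℝ) ≤ k := by exact_mod_cast hk
  exact (hB j k hj hk).trans (div_le_div_of_nonneg_right h (by positivity))

/-- `Psi` average: comparison -/
theorem LB (hS3 : S3) (hS9 : S9) (hC1 : C1) (hY5 : Y5) {κ κ' ν ν' : ℕ → ℕ → ℝ} {δ : ℝ}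
    (hκ : Cmp κ κ' δ) (hν : Cmp ν ν' δ) (hδ : 0 ≤ δ) {y y' : ℕ → ℂ} {d : ℝ}
    (hy : ∀ n, ‖y n‖ ≤ dl) (hy' : ∀ n, ‖y' n‖ ≤ dl) (hd : ∀ n, ‖y n - y' n‖ ≤ d)
    {k : ℕ} (hk : 1 ≤ k) {σp σm : ℝ} (hG : GoodPair k σp σm) :
    |DBf (Ak κ (gy y)) (Bk ν (gy y)) k σp σm / vv (2 * k) ^ 2 -
      DBf (Ak κ' (gy y')) (Bk ν' (gy y')) k σp σm / vv (2 * k) ^ 2 -
      (‖Ak κ (gy y) k k / vv (2 * k)‖ ^ 2 - ‖Ak κ' (gy y') k k / vv (2 * k)‖ ^ 2)|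
      ≤ d / 10 ^ 9 + δ / 10 ^ 80 := by
  have hd0 : 0 ≤ d := (norm_nonneg _).trans (hd 0)
  have hA := A_diff hS3 hS9 hC1 hκ hδ hy hy' hd
  have hed : 0 ≤ eps * d := mul_nonneg (by unfold eps; positivity) hd0
  have hB : Pb (3 * (eps * d) + δ / 10 ^ 78)
      (fun j k => Bk ν (gy y) j k - Bk ν' (gy y') j k) := by
    refine Pb_mono ?_ (B_diff hS9 hC1 hν hδ hy hy' hd)
    generalize eps * d = u at *
    linarith
  have hc := (hC1 y y 0 hy hy).2.2 κ ν hκ.a hν.a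
  have hc' := (hC1 y' y' 0 hy' hy').2.2 κ' ν' hκ.b hν.b
  have h := (hY5 _ _ _ _ k σp σm _ hc.a hc.b hc'.a hc'.b hk hG hA hB).1
  have hk0 : (0 : ℝ) < k := by exact_mod_cast (by omega : 0 < k)
  have hrr : 0 < rr := by unfold rr; positivity
  have h' : |DBf (Ak κ (gy y)) (Bk ν (gy y)) k σp σm -
      DBf (Ak κ' (gy y')) (Bk ν' (gy y')) k σp σm -
      (‖Ak κ (gy y) k k‖ ^ 2 - ‖Ak κ' (gy y') k k‖ ^ 2)|
      ≤ (rr * (3 * (eps * d) + δ / 10 ^ 78)) / (k : ℝ) ^ 6 := by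
    refine h.trans ?_
    apply div_le_div_of_nonneg_left (by positivity) (by positivity)
    gcongr
    linarith
  have h2 := div_vv hk (by omega : 1 ≤ 2 * k) le_rfl h'
  have hv := vv_pos (by omega : 1 ≤ 2 * k)
  have hvn : ‖(vv (2 * k) : ℂ)‖ = vv (2 * k) := by
    rw [Complex.norm_real, Real.norm_eq_abs, abs_of_pos hv]
  rw [norm_div, norm_div, hvn, div_pow, div_pow, ← sub_div, ← sub_div, ← sub_div]
  refine h2.trans ?_
  unfold rr eps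
  norm_num
  linarith

theorem cross {g g' a a' b b' : ℂ} {K d η α : ℝ} (hη : 0 ≤ η) (hα : α ≤ 1)
    (hg : ‖g‖ ≤ K) (hg' : ‖g'‖ ≤ K) (hgg : ‖g - g'‖ ≤ d * K)
    (ha' : ‖a'‖ ≤ α * K) (hb : ‖b‖ ≤ α * K)
    (haa : ‖a - a'‖ ≤ η * K) (hbb : ‖b - b'‖ ≤ η * K) :
    |(conj (g + a) * (g + b) - conj (g' + a') * (g' + b')).re - (‖g‖ ^ 2 - ‖g'‖ ^ 2)|
      ≤ (2 * α * d + 4 * η) * K ^ 2 := by
  have e : ‖g‖ ^ 2 - ‖g'‖ ^ 2 = (conj g * g - conj g' * g').re := by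
    rw [← Complex.normSq_eq_norm_sq, ← Complex.normSq_eq_norm_sq, Complex.normSq_apply,
      Complex.normSq_apply]
    simp
  rw [e, ← Complex.sub_re]
  refine (Complex.abs_re_le_norm _).trans ?_
  have e2 : conj (g + a) * (g + b) - conj (g' + a') * (g' + b') - (conj g * g - conj g' * g')
      = conj (g - g') * b + conj g' * (b - b') + conj (a - a') * g + conj a' * (g - g')
        + conj (a - a') * b + conj a' * (b - b') := by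
    simp only [map_add, map_sub]
    ring
  rw [e2]
  have m : ∀ {u v : ℂ} {U V : ℝ}, ‖u‖ ≤ U → ‖v‖ ≤ V → ‖conj u * v‖ ≤ U * V := by
    intro u v U V h1 h2
    rw [norm_mul, RCLike.norm_conj]
    exact mul_le_mul h1 h2 (norm_nonneg _) ((norm_nonneg _).trans h1)
  have h1 := m hgg hb
  have h2 := m hg' hbb
  have h3 := m haa hg
  have h4 := m ha' hgg
  have h5 := m haa hb
  have h6 := m ha' hbb
  refine (norm_add_le _ _).trans ?_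
  refine (add_le_add_left (norm_add_le _ _) _).trans ?_
  refine (add_le_add_left (add_le_add_left (norm_add_le _ _) _) _).trans ?_
  refine (add_le_add_left (add_le_add_left (add_le_add_left (norm_add_le _ _) _) _) _).trans ?_
  refine (add_le_add_left (add_le_add_left (add_le_add_left (add_le_add_left
    (norm_add_le _ _) _) _) _) _).trans ?_
  have h7 : 0 ≤ (1 - α) * η * K ^ 2 := by
    have : 0 ≤ 1 - α := by linarith
    positivity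
  nlinarith

theorem abs_WW {k : ℕ} (hk : 2 ≤ k) : 1 ≤ |WW k 1| := by
  have hk0 : (2 : ℝ) ≤ k := by exact_mod_cast hk
  unfold WW
  push_cast
  rw [abs_div, abs_of_pos (by linarith), abs_of_neg (by linarith), le_div_iff₀ (by linarith)]
  linarith

/-- `Psi` difference: comparison -/
theorem LA (hS3 : S3) (hS4 : S4) (hS9 : S9) (hC1 : C1) (hY5 : Y5) {κ κ' ν ν' : ℕ → ℕ → ℝ}
    {δ : ℝ} (hκ : Cmp κ κ' δ) (hν : Cmp ν ν' δ) (hδ : 0 ≤ δ) {y y' : ℕ → ℂ} {d : ℝ}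
    (hy : ∀ n, ‖y n‖ ≤ dl) (hy' : ∀ n, ‖y' n‖ ≤ dl) (hd : ∀ n, ‖y n - y' n‖ ≤ d)
    {k : ℕ} (hk : 2 ≤ k) {σp σm : ℝ} (hG : GoodPair k σp σm) :
    |DAf (Ak κ (gy y)) (Bk ν (gy y)) k σp σm / (WW k 1 * vv (k + 1) ^ 2) -
      DAf (Ak κ' (gy y')) (Bk ν' (gy y')) k σp σm / (WW k 1 * vv (k + 1) ^ 2) -
      (‖gy y (k + 1) / vv (k + 1)‖ ^ 2 - ‖gy y' (k + 1) / vv (k + 1)‖ ^ 2)|
      ≤ d / 10 ^ 9 + δ / 10 ^ 52 := by
  have hd0 : 0 ≤ d := (norm_nonneg _).trans (hd 0)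
  have hA := A_diff hS3 hS9 hC1 hκ hδ hy hy' hd
  have hed : 0 ≤ eps * d := mul_nonneg (by unfold eps; positivity) hd0
  have hB0 := B_diff hS9 hC1 hν hδ hy hy' hd
  have hB : Pb (3 * (eps * d) + δ / 10 ^ 78)
      (fun j k => Bk ν (gy y) j k - Bk ν' (gy y') j k) := by
    refine Pb_mono ?_ hB0
    generalize eps * d = u at *
    linarith
  have hc := (hC1 y y 0 hy hy).2.2 κ ν hκ.a hν.a
  have hc' := (hC1 y' y' 0 hy' hy').2.2 κ' ν' hκ.b hν.b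
  have h := (hY5 _ _ _ _ k σp σm _ hc.a hc.b hc'.a hc'.b (by omega) hG hA hB).2
  rw [if_neg (by omega : ¬ k = 1)] at h
  have hk0 : (0 : ℝ) < k := by exact_mod_cast (by omega : 0 < k)
  have hrr : 0 < rr := by unfold rr; positivity
  -- the entries of the first row and column
  have r1 : ∀ (κ : ℕ → ℕ → ℝ) (y : ℕ → ℂ),
      Ak κ (gy y) 1 k = gy y (k + 1) + KQ κ (gy y) 1 k := by
    intro κ y
    unfold Ak
    rw [(hS4 (gy y) k (by omega)).1, neg_neg]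
  have r2 : ∀ (κ : ℕ → ℕ → ℝ) (y : ℕ → ℂ),
      Ak κ (gy y) k 1 = gy y (k + 1) + KQ κ (gy y) k 1 := by
    intro κ y
    unfold Ak
    rw [(hS4 (gy y) k (by omega)).2, neg_neg]
  obtain ⟨hg, hlip, _⟩ := hC1 y y' d hy hy'
  obtain ⟨hg', _, _⟩ := hC1 y' y' d hy' hy'
  have hlip' := hlip hd (k + 1) (by omega)
  have hgk := hg (k + 1) (by omega)
  have hgk' := hg' (k + 1) (by omega)
  have hKle : 1 / ((k + 1 : ℕ) : ℝ) ^ 3 ≤ 1 / (k : ℝ) ^ 3 := by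
    apply one_div_le_one_div_of_le (by positivity)
    push_cast
    gcongr
    linarith
  have hK0 : 0 ≤ 1 / ((k + 1 : ℕ) : ℝ) ^ 3 := by positivity
  have g1 : ∀ {z : ℂ}, ‖z‖ ≤ 11 / 10 * eps / ((k + 1 : ℕ) : ℝ) ^ 3 → ‖z‖ ≤ 1 / (k : ℝ) ^ 3 := by
    intro z hz
    refine hz.trans (le_trans ?_ hKle)
    rw [div_eq_mul_one_div]
    have : 11 / 10 * eps ≤ 1 := by unfold eps; norm_num
    nlinarith
  have g3 : ‖gy y (k + 1) - gy y' (k + 1)‖ ≤ d * (1 / (k : ℝ) ^ 3) := by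
    refine hlip'.trans ?_
    rw [div_eq_mul_one_div]
    have h1 : eps * d ≤ d := by
      have : eps ≤ 1 := by unfold eps; norm_num
      nlinarith
    exact mul_le_mul h1 hKle hK0 hd0
  have j1 : ((1 : ℕ) : ℝ) * (k : ℝ) = k := by push_cast; ring
  have j2 : (k : ℝ) * ((1 : ℕ) : ℝ) = k := by push_cast; ring
  have n1 := KQ_norm hS9 hC1 hκ.b hy' (le_refl 1) (by omega : 1 ≤ k)
  have n2 := KQ_norm hS9 hC1 hκ.a hy (by omega : 1 ≤ k) (le_refl 1)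
  have n3 := (KQ_diff hS9 hC1 hκ hδ hy hy' hd (le_refl 1) (by omega : 1 ≤ k)).1
  have n4 := (KQ_diff hS9 hC1 hκ hδ hy hy' hd (by omega : 1 ≤ k) (le_refl 1)).1
  rw [j1, div_eq_mul_one_div] at n1 n3
  rw [j2, div_eq_mul_one_div] at n2 n4
  have hcr := cross (K := 1 / (k : ℝ) ^ 3) (d := d)
    (η := 2000 * (eps * d) / 10 ^ 140 + 10 * δ / 10 ^ 140) (α := 1 / 10 ^ 138)
    (by positivity) (by norm_num) (g1 hgk) (g1 hgk') g3
    n1 n2 n3 n4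
  rw [← r1, ← r1, ← r2, ← r2] at hcr
  -- the term with `Bk`
  have hBk := (Complex.abs_re_le_norm _).trans (hB0 k k (by omega) (by omega))
  have hBk' : |(Bk ν (gy y) k k - Bk ν' (gy y') k k).re|
      ≤ (eps * d / 10 ^ 76 + δ / 10 ^ 79) / (k : ℝ) ^ 6 := by
    refine hBk.trans (le_of_eq ?_)
    congr 1
    ring
  set R := (conj (Ak κ (gy y) 1 k) * Ak κ (gy y) k 1 -
    conj (Ak κ' (gy y') 1 k) * Ak κ' (gy y') k 1).re with hR
  set P := DAf (Ak κ (gy y)) (Bk ν (gy y)) k σp σm with hP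
  set P' := DAf (Ak κ' (gy y')) (Bk ν' (gy y')) k σp σm with hP'
  set b := (Bk ν (gy y) k k - Bk ν' (gy y') k k).re with hb
  have h' : |P - P' - b - WW k 1 * R| ≤ (rr * (3 * (eps * d) + δ / 10 ^ 78)) / (k : ℝ) ^ 6 := by
    refine h.trans ?_
    apply div_le_div_of_nonneg_left (by positivity) (by positivity)
    gcongr
    linarith
  have hW := abs_WW hk
  have hW0 : WW k 1 ≠ 0 := by
    intro h0
    rw [h0, abs_zero] at hW
    linarith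
  have hv := vv_pos (by omega : 1 ≤ k + 1)
  have hvn : ‖(vv (k + 1) : ℂ)‖ = vv (k + 1) := by
    rw [Complex.norm_real, Real.norm_eq_abs, abs_of_pos hv]
  have key : P / (WW k 1 * vv (k + 1) ^ 2) - P' / (WW k 1 * vv (k + 1) ^ 2) -
      (‖gy y (k + 1) / vv (k + 1)‖ ^ 2 - ‖gy y' (k + 1) / vv (k + 1)‖ ^ 2)
      = ((P - P' - b - WW k 1 * R + b) / WW k 1 +
        (R - (‖gy y (k + 1)‖ ^ 2 - ‖gy y' (k + 1)‖ ^ 2))) / vv (k + 1) ^ 2 := by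
    rw [norm_div, norm_div, hvn, div_pow, div_pow]
    field_simp
    ring
  rw [key]
  have hnum : |(P - P' - b - WW k 1 * R + b) / WW k 1 +
        (R - (‖gy y (k + 1)‖ ^ 2 - ‖gy y' (k + 1)‖ ^ 2))|
      ≤ ((rr * (3 * (eps * d) + δ / 10 ^ 78)) + (eps * d / 10 ^ 76 + δ / 10 ^ 79) +
        (2 * (1 / 10 ^ 138) * d + 4 * (2000 * (eps * d) / 10 ^ 140 + 10 * δ / 10 ^ 140)))
        / (k : ℝ) ^ 6 := by
    refine (abs_add_le _ _).trans ?_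
    have t1 : |(P - P' - b - WW k 1 * R + b) / WW k 1| ≤
        ((rr * (3 * (eps * d) + δ / 10 ^ 78)) + (eps * d / 10 ^ 76 + δ / 10 ^ 79))
        / (k : ℝ) ^ 6 := by
      rw [abs_div, div_le_iff₀ (by linarith)]
      have t2 : |P - P' - b - WW k 1 * R + b| ≤
          ((rr * (3 * (eps * d) + δ / 10 ^ 78)) + (eps * d / 10 ^ 76 + δ / 10 ^ 79))
          / (k : ℝ) ^ 6 := by
        refine (abs_add_le _ _).trans ?_
        rw [add_div]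
        exact add_le_add h' hBk'
      have t3 : 0 ≤ ((rr * (3 * (eps * d) + δ / 10 ^ 78)) + (eps * d / 10 ^ 76 + δ / 10 ^ 79))
          / (k : ℝ) ^ 6 := (abs_nonneg _).trans t2
      nlinarith
    rw [add_div _ (2 * (1 / 10 ^ 138) * d + 4 * (2000 * (eps * d) / 10 ^ 140 +
      10 * δ / 10 ^ 140))]
    refine add_le_add t1 (hcr.trans (le_of_eq ?_))
    rw [div_eq_mul_one_div (2 * (1 / 10 ^ 138) * d + 4 * (2000 * (eps * d) / 10 ^ 140 +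
      10 * δ / 10 ^ 140))]
    congr 1
    field_simp
  refine (div_vv (by omega : 1 ≤ k) (by omega : 1 ≤ k + 1) (by omega) hnum).trans ?_
  unfold rr eps
  norm_num
  linarith

theorem gy_zero_div {n : ℕ} (hn : 2 ≤ n) : ‖gy 0 n / (vv n : ℂ)‖ = 1 := by
  have hv := (vv_pos (by omega : 1 ≤ n)).ne'
  have hv' : (vv n : ℂ) ≠ 0 := by exact_mod_cast hv
  unfold gy
  rw [if_neg (by omega)]
  by_cases h : n = 2 ∨ n % 2 = 1
  · rw [if_pos h, mul_div_cancel_left₀ _ hv']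
    simp
  · rw [if_neg h, mul_div_cancel_left₀ _ hv']
    simp

theorem cmp_self {κ : ℕ → ℕ → ℝ} (h : Kap κ) : Cmp κ κ 0 :=
  ⟨h, h, fun n m _ _ => by simp⟩

theorem cmp_zero {κ : ℕ → ℕ → ℝ} (h : Kap κ) : Cmp κ 0 3 :=
  ⟨h, kap_zero, fun n m hn hm => by simpa using h n m hn hm⟩

/-- variation of the diagonal with the response matrix -/
theorem diag_s (hS9 : S9) (hC1 : C1) {κ κ' : ℕ → ℕ → ℝ} {δ : ℝ}
    (hκ : Cmp κ κ' δ) (hδ : 0 ≤ δ) {y : ℕ → ℂ} (hy : ∀ n, ‖y n‖ ≤ dl) {k : ℕ} (hk : 1 ≤ k) :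
    |‖Ak κ (gy y) k k / vv (2 * k)‖ ^ 2 - ‖Ak κ' (gy y) k k / vv (2 * k)‖ ^ 2|
      ≤ δ / 10 ^ 80 := by
  have hk0 : (1 : ℝ) ≤ k := by exact_mod_cast hk
  have hv := vv_pos (by omega : 1 ≤ 2 * k)
  have hvn : ‖(vv (2 * k) : ℂ)‖ = vv (2 * k) := by
    rw [Complex.norm_real, Real.norm_eq_abs, abs_of_pos hv]
  have n3 := (KQ_diff hS9 hC1 hκ hδ hy hy (d := 0) (by simp) hk hk).1
  have hc := ((hC1 y y 0 hy hy).2.2 κ κ hκ.a hκ.a).a k k hk hk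
  have hc' := ((hC1 y y 0 hy hy).2.2 κ' κ' hκ.b hκ.b).a k k hk hk
  have hone : 2 * eps / ((k : ℝ) + k) ^ 3 ≤ 1 := by
    rw [div_le_iff₀ (by positivity)]
    have : (1 : ℝ) ≤ ((k : ℝ) + k) ^ 3 := one_le_pow₀ (by linarith)
    unfold eps
    linarith
  have e1 : Ak κ (gy y) k k - Ak κ' (gy y) k k = KQ κ (gy y) k k - KQ κ' (gy y) k k := by
    unfold Ak; ring
  rw [← e1] at n3
  have n4 : ‖Ak κ (gy y) k k - Ak κ' (gy y) k k‖ ≤ (10 * δ / 10 ^ 140) / (k : ℝ) ^ 6 := by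
    refine n3.trans (le_of_eq ?_)
    rw [mul_zero, mul_zero, zero_div, zero_add]
    congr 1
    ring
  have h1 : |‖Ak κ (gy y) k k‖ ^ 2 - ‖Ak κ' (gy y) k k‖ ^ 2|
      ≤ (20 * δ / 10 ^ 140) / (k : ℝ) ^ 6 := by
    have e : ‖Ak κ (gy y) k k‖ ^ 2 - ‖Ak κ' (gy y) k k‖ ^ 2 =
        (‖Ak κ (gy y) k k‖ - ‖Ak κ' (gy y) k k‖) * (‖Ak κ (gy y) k k‖ + ‖Ak κ' (gy y) k k‖) := by
      ring
    rw [e, abs_mul]
    have h2 : |‖Ak κ (gy y) k k‖ - ‖Ak κ' (gy y) k k‖| ≤ (10 * δ / 10 ^ 140) / (k : ℝ) ^ 6 :=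
      (abs_norm_sub_norm_le _ _).trans n4
    have h3 : |‖Ak κ (gy y) k k‖ + ‖Ak κ' (gy y) k k‖| ≤ 2 := by
      rw [abs_of_nonneg (by positivity)]
      linarith
    calc |‖Ak κ (gy y) k k‖ - ‖Ak κ' (gy y) k k‖| * |‖Ak κ (gy y) k k‖ + ‖Ak κ' (gy y) k k‖|
        ≤ (10 * δ / 10 ^ 140) / (k : ℝ) ^ 6 * 2 :=
          mul_le_mul h2 h3 (abs_nonneg _) (by positivity)
      _ = (20 * δ / 10 ^ 140) / (k : ℝ) ^ 6 := by ring
  rw [norm_div, norm_div, hvn, div_pow, div_pow, ← sub_div]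
  refine (div_vv hk (by omega : 1 ≤ 2 * k) le_rfl h1).trans ?_
  linarith

end C3eAux

open C3eAux in
theorem c3e (hS3 : S3) (hS4 : S4) (hS7 : S7) (hS9 : S9) (hC1 : C1) (hY5 : Y5) : C3e := by
  intro p m hb s hs s' hs' y y' d hy hy' hd k hk
  obtain ⟨kE1, kO1, kE2, kO2⟩ := hS7 s s' hs hs'
  obtain ⟨kE1', kO1', _, _⟩ := hS7 s' s hs' hs
  obtain ⟨hG, _, _, hp0, hm0⟩ := hb k hk
  have hd0 : 0 ≤ d := (norm_nonneg _).trans (hd 0)
  have hss : 0 ≤ |s - s'| := abs_nonneg _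
  have hdl0 : 0 ≤ dl := by unfold dl; positivity
  have hyz : ∀ n, ‖y n - (0 : ℕ → ℂ) n‖ ≤ dl := fun n => by simpa using hy n
  have hB0 : DBf (Ak 0 (gy 0)) (Bk 0 (gy 0)) k (p k) (m k) = 0 := by
    unfold DBf
    rw [hp0, hm0]
    norm_num
  have hA0 : DAf (Ak 0 (gy 0)) (Bk 0 (gy 0)) k (p k) (m k) = 0 := by
    unfold DAf
    rw [hp0, hm0]
    norm_num
  have hcE : Cmp (kE s) (kE s') (100 * |s - s'|) := ⟨kE1, kE1', kE2⟩
  have hcO : Cmp (kO s) (kO s') (100 * |s - s'|) := ⟨kO1, kO1', kO2⟩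
  refine ⟨?_, ?_, ?_, ?_⟩
  · have h := LB hS3 hS9 hC1 hY5 (cmp_zero kE1) (cmp_zero kO1) (by norm_num) hy ball_zero hyz
      hk hG
    rw [hB0, zero_div, sub_zero] at h
    unfold eB DBn
    refine h.trans ?_
    unfold dl
    norm_num
  · have h := LB hS3 hS9 hC1 hY5 (cmp_self kE1) (cmp_self kO1) le_rfl hy hy' hd hk hG
    unfold eB DBn
    have e : ∀ a b c d e : ℝ, a - (b - e) - (c - (d - e)) = a - c - (b - d) := by
      intro a b c d e; ring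
    rw [e]
    refine h.trans ?_
    linarith
  · have h := LB hS3 hS9 hC1 hY5 hcE hcO (by positivity) hy hy (d := 0) (by simp) hk hG
    have h2 := diag_s hS9 hC1 hcE (by positivity) hy hk
    unfold DBn
    rw [abs_le] at h h2 ⊢
    constructor <;> linarith [h.1, h.2, h2.1, h2.2]
  · intro hk2
    refine ⟨?_, ?_, ?_⟩
    · have h := LA hS3 hS4 hS9 hC1 hY5 (cmp_zero kE1) (cmp_zero kO1) (by norm_num) hy ball_zero
        hyz hk2 hG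
      rw [hA0, zero_div, sub_zero, gy_zero_div (by omega), one_pow] at h
      unfold eA DAn
      refine h.trans ?_
      unfold dl
      norm_num
    · have h := LA hS3 hS4 hS9 hC1 hY5 (cmp_self kE1) (cmp_self kO1) le_rfl hy hy' hd hk2 hG
      unfold eA DAn
      have e : ∀ a b c d e : ℝ, a - (b - e) - (c - (d - e)) = a - c - (b - d) := by
        intro a b c d e; ring
      rw [e]
      refine h.trans ?_
      linarith
    · have h := LA hS3 hS4 hS9 hC1 hY5 hcE hcO (by positivity) hy hy (d := 0) (by simp) hk2 hG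
      unfold DAn
      rw [sub_self, sub_zero] at h
      refine h.trans ?_
      linarith

end Pool.Agent.Stek
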