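import Pool.Agent.Stek.TFun

open scoped BigOperators ComplexConjugate Topology ContDiff
open Complex Metric

noncomputable section

namespace Pool.Agent.Stek

namespace PF1

theorem eps_pos : 0 < eps := by norm_num [eps]
theorem rr_pos : 0 < rr := by norm_num [rr]
theorem eps_lt : eps < 1 / 10 := by norm_num [eps]

theorem sum_tel (N : ℕ) : ∑ m ∈ Finset.range N, 1 / (((m : ℝ) + 2) * (m + 3)) ≤ 1 / 2 := by
  have h : ∑ m ∈ Finset.range N, 1 / (((m : ℝ) + 2) * (m + 3)) = 1 / 2 - 1 / ((N : ℝ) + 2) := by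
    induction N with
    | zero => norm_num
    | succ n ih =>
      rw [Finset.sum_range_succ, ih]
      push_cast
      field_simp
      ring
  rw [h]
  have : 0 < 1 / ((N : ℝ) + 2) := by positivity
  linarith

theorem summable_tel : Summable fun m : ℕ => 1 / (((m : ℝ) + 2) * (m + 3)) :=
  summable_of_sum_range_le (fun n => by positivity) sum_tel

theorem tsum_tel : ∑' m : ℕ, 1 / (((m : ℝ) + 2) * (m + 3)) ≤ 1 / 2 :=
  Real.tsum_le_of_sum_range_le (fun n => by positivity) sum_tel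

theorem norm_tsum_le {a : ℕ → ℂ} {C : ℝ} (h : ∀ m : ℕ, ‖a m‖ ≤ C * (1 / (((m : ℝ) + 2) * (m + 3)))) :
    Summable a ∧ ‖∑' m, a m‖ ≤ C / 2 := by
  have hs : Summable fun m : ℕ => C * (1 / (((m : ℝ) + 2) * (m + 3))) := summable_tel.mul_left C
  have h0 : 0 ≤ C := by
    have := (norm_nonneg _).trans (h 0)
    norm_num at this
    linarith
  refine ⟨Summable.of_norm_bounded hs h, ?_⟩
  refine (tsum_of_norm_bounded hs.hasSum h).trans ?_
  rw [tsum_mul_left]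
  have := tsum_tel
  nlinarith

/-- `hh g u / u`. -/
def kk (g : ℕ → ℂ) (u : ℂ) : ℂ := ∑' m : ℕ, g (m + 2) * u ^ (m + 1)

theorem g_le {g : ℕ → ℂ} (hg : Gb (2 * eps) g) (m : ℕ) :
    (m + 1 : ℝ) * ‖g (m + 2)‖ ≤ 2 * eps * (1 / (((m : ℝ) + 2) * (m + 3))) := by
  have h := hg (m + 2) (by omega)
  push_cast at h
  have e := eps_pos
  calc (m + 1 : ℝ) * ‖g (m + 2)‖ ≤ (m + 1) * (2 * eps / ((m : ℝ) + 2) ^ 3) := by gcongr
    _ = 2 * eps * ((m + 1) / ((m : ℝ) + 2) ^ 3) := by ring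
    _ ≤ _ := by
      refine mul_le_mul_of_nonneg_left ?_ (by positivity)
      rw [div_le_div_iff₀ (by positivity) (by positivity)]
      have : (0 : ℝ) ≤ m := by positivity
      nlinarith

theorem g_le' {g : ℕ → ℂ} (hg : Gb (2 * eps) g) (m : ℕ) :
    ‖g (m + 2)‖ ≤ 2 * eps * (1 / (((m : ℝ) + 2) * (m + 3))) := by
  refine le_trans ?_ (g_le hg m)
  have : (0 : ℝ) ≤ m := by positivity
  nlinarith [norm_nonneg (g (m + 2))]

theorem kk_summable {g : ℕ → ℂ} (hg : Gb (2 * eps) g) {u : ℂ} (hu : ‖u‖ ≤ 1) :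
    Summable fun m : ℕ => g (m + 2) * u ^ (m + 1) := by
  refine (norm_tsum_le (C := 2 * eps) fun m => ?_).1
  rw [norm_mul, norm_pow]
  have h1 : ‖u‖ ^ (m + 1) ≤ 1 := pow_le_one₀ (norm_nonneg _) hu
  calc _ ≤ ‖g (m + 2)‖ * 1 := by gcongr
    _ ≤ _ := by rw [mul_one]; exact g_le' hg m

theorem kk_norm {g : ℕ → ℂ} (hg : Gb (2 * eps) g) {u : ℂ} (hu : ‖u‖ ≤ 1) : ‖kk g u‖ ≤ eps := by
  have : ‖kk g u‖ ≤ 2 * eps / 2 := by
    refine (norm_tsum_le (C := 2 * eps) fun m => ?_).2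
    rw [norm_mul, norm_pow]
    have h1 : ‖u‖ ^ (m + 1) ≤ 1 := pow_le_one₀ (norm_nonneg _) hu
    calc _ ≤ ‖g (m + 2)‖ * 1 := by gcongr
      _ ≤ _ := by rw [mul_one]; exact g_le' hg m
  linarith

theorem pow_sub_le {u v : ℂ} (hu : ‖u‖ ≤ 1) (hv : ‖v‖ ≤ 1) (n : ℕ) :
    ‖u ^ n - v ^ n‖ ≤ n * ‖u - v‖ := by
  induction n with
  | zero => simp
  | succ n ih =>
    have e : u ^ (n + 1) - v ^ (n + 1) = u * (u ^ n - v ^ n) + (u - v) * v ^ n := by ring
    rw [e]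
    refine (norm_add_le _ _).trans ?_
    rw [norm_mul, norm_mul, norm_pow]
    have h1 : ‖v‖ ^ n ≤ 1 := pow_le_one₀ (norm_nonneg _) hv
    have h2 : ‖u‖ * ‖u ^ n - v ^ n‖ ≤ 1 * (n * ‖u - v‖) := by gcongr
    have h3 : ‖u - v‖ * ‖v‖ ^ n ≤ ‖u - v‖ * 1 := by gcongr
    push_cast
    linarith

theorem kk_sub {g : ℕ → ℂ} (hg : Gb (2 * eps) g) {u v : ℂ} (hu : ‖u‖ ≤ 1) (hv : ‖v‖ ≤ 1) :
    ‖kk g u - kk g v‖ ≤ eps * ‖u - v‖ := by
  have e : kk g u - kk g v = ∑' m : ℕ, (g (m + 2) * u ^ (m + 1) - g (m + 2) * v ^ (m + 1)) := by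
    rw [kk, kk, (kk_summable hg hu).tsum_sub (kk_summable hg hv)]
  rw [e]
  have h := (norm_tsum_le (C := 2 * eps * ‖u - v‖)
    (a := fun m : ℕ => g (m + 2) * u ^ (m + 1) - g (m + 2) * v ^ (m + 1)) fun m => ?_).2
  · linarith
  · rw [← mul_sub, norm_mul]
    have h1 := pow_sub_le hu hv (m + 1)
    have h2 := g_le hg m
    push_cast at h1
    calc ‖g (m + 2)‖ * ‖u ^ (m + 1) - v ^ (m + 1)‖ ≤ ‖g (m + 2)‖ * ((m + 1) * ‖u - v‖) := by gcongr
      _ = ((m + 1) * ‖g (m + 2)‖) * ‖u - v‖ := by ring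
      _ ≤ (2 * eps * (1 / (((m : ℝ) + 2) * (m + 3)))) * ‖u - v‖ := by gcongr
      _ = _ := by ring

theorem kk_diff {g : ℕ → ℂ} (hg : Gb (2 * eps) g) : DifferentiableOn ℂ (kk g) (ball 0 1) := by
  unfold kk
  refine differentiableOn_tsum_of_summable_norm
    (u := fun m : ℕ => 2 * eps * (1 / (((m : ℝ) + 2) * (m + 3)))) (summable_tel.mul_left _)
    (fun m => ?_) isOpen_ball (fun m w hw => ?_)
  · exact ((differentiable_const _).mul (differentiable_id.pow _)).differentiableOn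
  · rw [mem_ball_zero_iff] at hw
    rw [norm_mul, norm_pow]
    have h1 : ‖w‖ ^ (m + 1) ≤ 1 := pow_le_one₀ (norm_nonneg _) hw.le
    calc _ ≤ ‖g (m + 2)‖ * 1 := by gcongr
      _ ≤ _ := by rw [mul_one]; exact g_le' hg m

theorem hh_eq {g : ℕ → ℂ} (hg : Gb (2 * eps) g) {u : ℂ} (hu : ‖u‖ ≤ 1) :
    hh g u = u * kk g u := by
  have h1 := kk_summable hg hu
  have h2 : Summable fun m : ℕ => (if m + 2 < 2 then 0 else g (m + 2)) * u ^ (m + 2) := by
    refine (h1.mul_left u).congr fun m => ?_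
    simp
    ring
  have h3 : Summable fun n : ℕ => (if n < 2 then 0 else g n) * u ^ n := (summable_nat_add_iff 2).1 h2
  rw [hh, kk, ← tsum_mul_left, ← h3.sum_add_tsum_nat_add 2]
  have h4 : ∑ i ∈ Finset.range 2, (if i < 2 then 0 else g i) * u ^ i = 0 := by
    simp [Finset.sum_range_succ]
  rw [h4, zero_add]
  refine tsum_congr fun m => ?_
  rw [if_neg (by omega)]
  ring

theorem norm_div_le {ζ : ℂ} (h : rr ≤ ‖ζ‖) : ‖(rr : ℂ) / ζ‖ ≤ 1 := by
  have := rr_pos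
  rw [norm_div, Complex.norm_real, Real.norm_eq_abs, abs_of_pos this]
  exact (div_le_one (by linarith)).2 h

theorem norm_div_lt {ζ : ℂ} (h : rr < ‖ζ‖) : ‖(rr : ℂ) / ζ‖ < 1 := by
  have := rr_pos
  rw [norm_div, Complex.norm_real, Real.norm_eq_abs, abs_of_pos this]
  exact (div_lt_one (by linarith)).2 h

theorem ne_zero_of {ζ : ℂ} (h : rr ≤ ‖ζ‖) : ζ ≠ 0 := by
  rintro rfl
  have := rr_pos
  simp at h
  linarith

theorem Fm_eq {g : ℕ → ℂ} (hg : Gb (2 * eps) g) {ζ : ℂ} (h : rr ≤ ‖ζ‖) :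
    Fm g ζ = ζ + rr * kk g (rr / ζ) := by
  have h0 := ne_zero_of h
  rw [Fm, hh_eq hg (norm_div_le h)]
  field_simp

theorem E_norm {g : ℕ → ℂ} (hg : Gb (2 * eps) g) {ζ : ℂ} (h : rr ≤ ‖ζ‖) :
    ‖Fm g ζ - ζ‖ ≤ eps * rr := by
  have := rr_pos
  rw [Fm_eq hg h, add_sub_cancel_left, norm_mul, Complex.norm_real, Real.norm_eq_abs,
    abs_of_pos this, mul_comm]
  gcongr
  exact kk_norm hg (norm_div_le h)

theorem E_sub {g : ℕ → ℂ} (hg : Gb (2 * eps) g) {ζ η : ℂ} (h : rr ≤ ‖ζ‖) (h' : rr ≤ ‖η‖) :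
    ‖(Fm g ζ - ζ) - (Fm g η - η)‖ ≤ eps * ‖ζ - η‖ := by
  have hr := rr_pos
  have he := eps_pos
  have z1 := ne_zero_of h
  have z2 := ne_zero_of h'
  rw [Fm_eq hg h, Fm_eq hg h', add_sub_cancel_left, add_sub_cancel_left, ← mul_sub, norm_mul,
    Complex.norm_real, Real.norm_eq_abs, abs_of_pos hr]
  have h1 := kk_sub hg (norm_div_le h) (norm_div_le h')
  have h2 : ‖(rr : ℂ) / ζ - rr / η‖ ≤ ‖ζ - η‖ / rr := by
    have e : (rr : ℂ) / ζ - rr / η = rr * (η - ζ) / (ζ * η) := by field_simp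
    rw [e, norm_div, norm_mul, norm_mul, Complex.norm_real, Real.norm_eq_abs, abs_of_pos hr,
      norm_sub_rev]
    rw [div_le_div_iff₀ (by positivity) hr]
    have : rr * rr ≤ ‖ζ‖ * ‖η‖ := by gcongr
    nlinarith [norm_nonneg (ζ - η)]
  calc rr * ‖kk g (rr / ζ) - kk g (rr / η)‖ ≤ rr * (eps * (‖ζ - η‖ / rr)) := by
        gcongr
        exact h1.trans (by gcongr)
    _ = eps * ‖ζ - η‖ := by field_simp

theorem isOpen_ext (a : ℝ) : IsOpen {ζ : ℂ | a < ‖ζ‖} := isOpen_lt continuous_const continuous_norm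

theorem Fm_diffAt {g : ℕ → ℂ} (hg : Gb (2 * eps) g) {ζ : ℂ} (h : rr < ‖ζ‖) :
    DifferentiableAt ℂ (Fm g) ζ := by
  have h0 := ne_zero_of h.le
  have e : Fm g =ᶠ[𝓝 ζ] fun ζ => ζ + rr * kk g (rr / ζ) := by
    filter_upwards [(isOpen_ext rr).mem_nhds h] with η hη
    exact Fm_eq hg (le_of_lt hη)
  refine DifferentiableAt.congr_of_eventuallyEq ?_ e
  refine differentiableAt_id.add ((differentiableAt_const _).mul ?_)
  have h1 : DifferentiableAt ℂ (kk g) (rr / ζ) := by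
    refine (kk_diff hg).differentiableAt (isOpen_ball.mem_nhds ?_)
    rw [mem_ball_zero_iff]
    exact norm_div_lt h
  exact DifferentiableAt.comp (g := kk g) (f := fun ζ : ℂ => (rr : ℂ) / ζ) ζ h1
    ((differentiableAt_const _).div differentiableAt_id h0)

theorem Fm_deriv {g : ℕ → ℂ} (hg : Gb (2 * eps) g) {ζ : ℂ} (h : rr < ‖ζ‖) :
    ‖deriv (Fm g) ζ - 1‖ ≤ eps := by
  have h1 : deriv (fun ζ => Fm g ζ - ζ) ζ = deriv (Fm g) ζ - 1 := by
    have := ((Fm_diffAt hg h).hasDerivAt.sub (hasDerivAt_id ζ)).deriv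
    exact this
  rw [← h1]
  refine norm_deriv_le_of_lip' eps_pos.le ?_
  filter_upwards [(isOpen_ext rr).mem_nhds h] with η hη
  exact E_sub hg (le_of_lt hη) h.le

theorem inj_le {g : ℕ → ℂ} (hg : Gb (2 * eps) g) {ζ η : ℂ} (h : rr ≤ ‖ζ‖) (h' : rr ≤ ‖η‖) :
    ‖ζ - η‖ ≤ 2 * ‖Fm g ζ - Fm g η‖ := by
  have h1 := E_sub hg h h'
  have e : ζ - η = (Fm g ζ - Fm g η) - ((Fm g ζ - ζ) - (Fm g η - η)) := by ring
  have h2 : ‖ζ - η‖ ≤ ‖Fm g ζ - Fm g η‖ + ‖(Fm g ζ - ζ) - (Fm g η - η)‖ := by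
    conv_lhs => rw [e]
    exact norm_sub_le _ _
  have := eps_lt
  nlinarith [norm_nonneg (ζ - η)]

theorem inj {g : ℕ → ℂ} (hg : Gb (2 * eps) g) {ζ η : ℂ} (h : rr ≤ ‖ζ‖) (h' : rr ≤ ‖η‖)
    (he : Fm g ζ = Fm g η) : ζ = η := by
  have := inj_le hg h h'
  rw [he, sub_self, norm_zero, mul_zero] at this
  exact sub_eq_zero.1 (norm_le_zero_iff.1 this)

theorem exists_inv {g : ℕ → ℂ} (hg : Gb (2 * eps) g) {z : ℂ} (hz : 2 * rr < ‖z‖) :
    ∃ x, rr < ‖x‖ ∧ Fm g x = z ∧ ‖x - z‖ ≤ eps * rr := by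
  have hr := rr_pos
  have he := eps_pos
  have he' := eps_lt
  have hnorm : ∀ x ∈ closedBall z (eps * rr), rr < ‖x‖ := by
    intro x hx
    rw [mem_closedBall, dist_eq_norm] at hx
    have h1 : ‖z‖ ≤ ‖x‖ + ‖x - z‖ := by
      have e : z = x - (x - z) := by ring
      conv_lhs => rw [e]
      exact norm_sub_le _ _
    nlinarith
  let T : ℂ → ℂ := fun x => z - (Fm g x - x)
  have hmaps : Set.MapsTo T (closedBall z (eps * rr)) (closedBall z (eps * rr)) := by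
    intro x hx
    rw [mem_closedBall, dist_eq_norm]
    have e : T x - z = -(Fm g x - x) := by simp only [T]; ring
    rw [e, norm_neg]
    exact E_norm hg (hnorm x hx).le
  have hK : ContractingWith (⟨eps, he.le⟩ : NNReal) (hmaps.restrict T _ _) := by
    refine ⟨?_, ?_⟩
    · rw [← NNReal.coe_lt_coe]
      change eps < 1
      linarith
    · refine LipschitzWith.of_dist_le_mul fun x y => ?_
      rw [Subtype.dist_eq, Subtype.dist_eq, dist_eq_norm, dist_eq_norm]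
      have e : ((hmaps.restrict T _ _ x : ℂ) - (hmaps.restrict T _ _ y : ℂ)) =
          -((Fm g x - x) - (Fm g y - y)) := by
        simp only [Set.MapsTo.val_restrict_apply, T]
        ring
      rw [e, norm_neg]
      exact E_sub hg (hnorm x x.2).le (hnorm y y.2).le
  obtain ⟨y, hy, hfix, -⟩ := hK.exists_fixedPoint' (isClosed_closedBall.isComplete) hmaps
    (mem_closedBall_self (by positivity)) (edist_ne_top _ _)
  refine ⟨y, hnorm y hy, ?_, ?_⟩
  · have h1 : z - (Fm g y - y) = y := hfix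
    linear_combination -h1
  · rwa [mem_closedBall, dist_eq_norm] at hy

end PF1

theorem f1 : F1 := fun _ hg =>
  ⟨fun _ h => (PF1.Fm_diffAt hg h).differentiableWithinAt, fun _ h => PF1.E_norm hg h,
    fun _ _ h h' => PF1.E_sub hg h h', fun _ h => PF1.Fm_deriv hg h⟩

theorem f2 : F2 := by
  intro g hg
  have hr := PF1.rr_pos
  have he := PF1.eps_pos
  have he' := PF1.eps_lt
  have hex : ∀ z : ℂ, ∃ x, 2 * rr < ‖z‖ → (rr < ‖x‖ ∧ Fm g x = z ∧ ‖x - z‖ ≤ eps * rr) := by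
    intro z
    by_cases hz : 2 * rr < ‖z‖
    · obtain ⟨x, hx⟩ := PF1.exists_inv hg hz
      exact ⟨x, fun _ => hx⟩
    · exact ⟨0, fun h => absurd h hz⟩
  choose G hG using hex
  refine ⟨G, ?_, hG, ?_⟩
  · intro z hz
    have hz' : 2 * rr < ‖z‖ := hz
    have hev : ∀ᶠ y in 𝓝 z, 2 * rr < ‖y‖ := (PF1.isOpen_ext (2 * rr)).mem_nhds hz
    have hcont : ContinuousAt G z := by
      rw [Metric.continuousAt_iff']
      intro ε hε
      filter_upwards [hev, Metric.ball_mem_nhds z (half_pos hε)] with y hy hyz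
      rw [mem_ball, dist_eq_norm] at hyz
      rw [dist_eq_norm]
      have := PF1.inj_le hg (hG y hy).1.le (hG z hz').1.le
      rw [(hG y hy).2.1, (hG z hz').2.1] at this
      linarith
    have hd := (PF1.Fm_diffAt hg (hG z hz').1).hasDerivAt
    have hne : deriv (Fm g) (G z) ≠ 0 := by
      intro h0
      have := PF1.Fm_deriv hg (hG z hz').1
      rw [h0] at this
      norm_num at this
      linarith
    exact (HasDerivAt.of_local_left_inverse hcont hd hne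
      (hev.mono fun y hy => (hG y hy).2.1)).differentiableAt.differentiableWithinAt
  · intro ζ hζ
    have h1 := PF1.E_norm hg (ζ := ζ) (by linarith)
    have h2 : 2 * rr < ‖Fm g ζ‖ := by
      have e : ζ = Fm g ζ - (Fm g ζ - ζ) := by ring
      have h3 : ‖ζ‖ ≤ ‖Fm g ζ‖ + ‖Fm g ζ - ζ‖ := by
        conv_lhs => rw [e]
        exact norm_sub_le _ _
      nlinarith
    exact PF1.inj hg (hG _ h2).1.le (by linarith) (hG _ h2).2.1

end Pool.Agent.Stek
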