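import Pool.Agent.Stek.Fun

/-!
# Targets: function theory and geometry
-/

open scoped BigOperators ComplexConjugate Topology ContDiff
open Complex Metric InnerProductSpace

noncomputable section

namespace Pool.Agent.Stek

/-! ### F: function theory -/

/-- F1. The map `Fm` is a small perturbation of the identity. -/
def F1 : Prop := ∀ g : ℕ → ℂ, Gb (2 * eps) g →
  DifferentiableOn ℂ (Fm g) {ζ | rr < ‖ζ‖} ∧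
  (∀ ζ, rr ≤ ‖ζ‖ → ‖Fm g ζ - ζ‖ ≤ eps * rr) ∧
  (∀ ζ η, rr ≤ ‖ζ‖ → rr ≤ ‖η‖ → ‖(Fm g ζ - ζ) - (Fm g η - η)‖ ≤ eps * ‖ζ - η‖) ∧
  (∀ ζ, rr < ‖ζ‖ → ‖deriv (Fm g) ζ - 1‖ ≤ eps)

/-- F2. The inverse of `Fm`. -/
def F2 : Prop := ∀ g : ℕ → ℂ, Gb (2 * eps) g → ∃ G : ℂ → ℂ,
  DifferentiableOn ℂ G {z | 2 * rr < ‖z‖} ∧
  (∀ z, 2 * rr < ‖z‖ → rr < ‖G z‖ ∧ Fm g (G z) = z ∧ ‖G z - z‖ ≤ eps * rr) ∧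
  (∀ ζ, 3 * rr < ‖ζ‖ → G (Fm g ζ) = ζ)

/-- F3. The kernel identity. -/
def F3 : Prop := ∀ g : ℕ → ℂ, Gb (2 * eps) g → ∀ ζ η : ℂ, rr < ‖ζ‖ → rr < ‖η‖ → ζ ≠ η →
  HasSum (fun p : ℕ × ℕ => (p.1 : ℂ) * gam g p.1 p.2 * (rr / ζ) ^ p.1 * (rr / η) ^ p.2)
    (ζ / (ζ - η) - ζ * deriv (Fm g) ζ / (Fm g ζ - Fm g η))

/-- F4. The powers of `rr / Fm`. -/
def F4 : Prop := ∀ g : ℕ → ℂ, Gb (2 * eps) g → ∀ ζ : ℂ, rr < ‖ζ‖ → ∀ n : ℕ,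
  HasSum (fun j : ℕ => ee g n j * (rr / ζ) ^ j) ((rr / Fm g ζ) ^ n)

/-- F5a. Negative Laurent coefficients of `f ∘ Fm` for `f` holomorphic in a disk. -/
def F5a : Prop := ∀ g : ℕ → ℂ, Gb (2 * eps) g → ∀ (f : ℂ → ℂ) (ρ ρ0 : ℝ),
  DifferentiableOn ℂ f (ball 0 ρ0) → 2 * rr < ρ → ρ + eps * rr < ρ0 → ∀ c : ℤ → ℂ,
  (∀ k, c k = ci ρ (fun ζ => f (Fm g ζ) * ζ ^ (-k - 1))) →
  ∀ k : ℕ, 1 ≤ k → HasSum (fun j : ℕ => -((j : ℂ) * rr ^ (j + k) * gam g j k * c j)) (c (-k))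

/-- F5b. Taylor coefficients of `f` in terms of the Laurent coefficients of `f ∘ Fm`. -/
def F5b : Prop := ∀ g : ℕ → ℂ, Gb (2 * eps) g → ∀ (f : ℂ → ℂ) (ρ ρ0 : ℝ),
  DifferentiableOn ℂ f (ball 0 ρ0) → 2 * rr < ρ → ρ + eps * rr < ρ0 → ∀ c : ℤ → ℂ,
  (∀ k, c k = ci ρ (fun ζ => f (Fm g ζ) * ζ ^ (-k - 1))) →
  ∀ n : ℕ, 1 ≤ n → HasSum (fun j : ℕ => if j < n then 0 else
    (j : ℂ) * rr ^ (j - n) * ee g n j * c j) (n * ci ρ (fun z => f z * z ^ (-(n : ℤ) - 1)))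

/-- F6. A holomorphic function with given positive Laurent coefficients of `f ∘ Fm`. -/
def F6 : Prop := ∀ g : ℕ → ℂ, Gb (2 * eps) g → ∀ (a : ℕ → ℂ) (C : ℝ), a 0 = 0 →
  (∀ j, ‖a j‖ ≤ C / 3 ^ j) → ∃ f : ℂ → ℂ, DifferentiableOn ℂ f (ball 0 (3 / 2)) ∧
  ∀ η, rr < ‖η‖ → ‖η‖ < 7 / 5 → f (Fm g η) = ∑' j : ℕ, a j * η ^ j +
    ∑' k : ℕ, (if k = 0 then 0 else -∑' j : ℕ, (j : ℂ) * rr ^ (j + k) * gam g j k * a j) *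
      (η⁻¹) ^ k

/-- F7. Laurent decomposition. -/
def F7 : Prop := ∀ (G : ℂ → ℂ) (c : ℂ) (α β : ℝ), 0 < α → α < β →
  DifferentiableOn ℂ G {w | α < ‖w - c‖ ∧ ‖w - c‖ < β} → ∃ (φ : ℂ → ℂ) (b : ℕ → ℂ),
  DifferentiableOn ℂ φ (ball c β) ∧ (∀ ρ, α < ρ → ∃ C : ℝ, ∀ m, ‖b m‖ ≤ C * ρ ^ m) ∧
  ∀ w, α < ‖w - c‖ → ‖w - c‖ < β → HasSum (fun m : ℕ => b m / (w - c) ^ (m + 1)) (G w - φ w)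

/-- F8. Uniqueness of Laurent coefficients. -/
def F8 : Prop := ∀ (f : ℂ → ℂ) (α β : ℝ), 0 < α → α < β →
  ContinuousOn f {z | α ≤ ‖z‖ ∧ ‖z‖ ≤ β} → DifferentiableOn ℂ f {z | α < ‖z‖ ∧ ‖z‖ < β} →
  (∀ k : ℤ, (∮ z in C(0, β), f z * z ^ k) = 0) → ∀ z, α ≤ ‖z‖ → ‖z‖ ≤ β → f z = 0

/-- F9. The Steklov condition on the unit circle in terms of Laurent coefficients. -/
def F9 : Prop := ∀ (V : ℂ → ℝ) (σ : ℝ), (∀ ζ, 1 / 8 ≤ ‖ζ‖ → ‖ζ‖ ≤ 1 → ContDiffAt ℝ ∞ V ζ) →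
  HarmonicOnNhd V {ζ | 1 / 8 < ‖ζ‖ ∧ ‖ζ‖ < 1} →
  (∀ ζ : ℂ, ‖ζ‖ = 1 → fderiv ℝ V ζ ζ = σ * V ζ) →
  (∀ k : ℤ, ci (1 / 8) (fun ζ => dC V ζ * ζ ^ (-k)) = (σ + k) * fc V k) ∧
  (∀ k : ℤ, fc V (-k) = conj (fc V k)) ∧
  ((∀ k : ℤ, (σ + k) * fc V k = 0) → fc V 0 = 0 → ∀ ζ, 1 / 8 ≤ ‖ζ‖ → ‖ζ‖ ≤ 1 → V ζ = 0)

/-- F10. The relation between the Laurent coefficients of `Hf`. -/
def F10 : Prop := ∀ (κE κO : ℕ → ℕ → ℝ) (g p : ℕ → ℂ) (C : ℝ), Kap κE → Kap κO →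
  Gb (2 * eps) g → (∀ n, ‖p n‖ ≤ C * 4 ^ n) →
  DifferentiableOn ℂ (Hf κE κO g p) {ζ | 1 / 100 < ‖ζ‖ ∧ ‖ζ‖ < 1 / 5} ∧
  ∀ k : ℕ, 1 ≤ k → HasSum (fun j : ℕ => (j : ℂ) * rr ^ (j + k) *
    (Ak κE g j k * ci (1 / 8) (fun ζ => Hf κE κO g p ζ * ζ ^ (-(j : ℤ) - 1)) +
      rr ^ 2 * Bk κO g j k * conj (ci (1 / 8) (fun ζ => Hf κE κO g p ζ * ζ ^ (-(j : ℤ) - 1)))))
    (ci (1 / 8) (fun ζ => Hf κE κO g p ζ * ζ ^ ((k : ℤ) - 1)))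

/-- F11. From a solution of the equations for the coefficients to a function. -/
def F11 : Prop := ∀ (κE κO : ℕ → ℕ → ℝ) (g : ℕ → ℂ) (σ : ℝ) (x : ℝ × (ℕ → ℂ)), Kap κE →
  Kap κO → Gb (2 * eps) g → x ∈ Sol (Ak κE g) (Bk κO g) σ →
  ∃ (p : ℕ → ℂ) (C c0 : ℝ), (∀ n, ‖p n‖ ≤ C * (5 / 7) ^ n) ∧
  DifferentiableOn ℂ (Hf κE κO g p) {ζ | 1 / 100 < ‖ζ‖ ∧ ‖ζ‖ < 5 / 4} ∧
  coefs (fun ζ => (Hf κE κO g p ζ).re - c0 + x.1) σ = x ∧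
  ∀ ζ : ℂ, ‖ζ‖ = 1 → fderiv ℝ (fun ζ => (Hf κE κO g p ζ).re - c0 + x.1) ζ ζ =
    σ * ((Hf κE κO g p ζ).re - c0 + x.1)

/-- F12a. The response function: it is the real part of a holomorphic function. -/
def F12a : Prop := ∀ (s lam C : ℝ) (p : ℕ → ℂ), s ∈ Set.Icc (1 / 20 : ℝ) (1 / 6) → 0 < lam →
  lam ≤ 4 → (∀ n, ‖p n‖ ≤ C * lam ^ n) →
  DifferentiableOn ℂ (Pf p) {w | lam * RR < ‖w - 1‖} ∧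
  DifferentiableOn ℂ (Pi' p) {w | w ≠ 0 ∧ lam * RR < ‖iot w - 1‖} ∧
  DifferentiableOn ℂ (Ef s p) {w | 9 / 10 * √s < ‖w‖ ∧ ‖w‖ < 10 / 9 / √s} ∧
  (∀ w, w ≠ 0 → Uf s p (iot w) = Uf s p w)

/-- F12b. The Neumann condition of the response function. -/
def F12b : Prop := ∀ (s lam C : ℝ) (p : ℕ → ℂ), s ∈ Set.Icc (1 / 20 : ℝ) (1 / 6) → 0 < lam →
  lam ≤ 4 → (∀ n, ‖p n‖ ≤ C * lam ^ n) →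
  ∀ w, ‖w‖ = √s ∨ ‖w‖ = 1 / √s → fderiv ℝ (Uf s p) w w = 0

/-- F12c. The regular part of the response function at `1`. -/
def F12c : Prop := ∀ (s lam C : ℝ) (p : ℕ → ℂ), s ∈ Set.Icc (1 / 20 : ℝ) (1 / 6) → 0 < lam →
  lam ≤ 4 → (∀ n, ‖p n‖ ≤ C * lam ^ n) →
  ∀ w ∈ ball (1 : ℂ) (1 / 4), HasSum (fun m : ℕ => qt (kE s) (kO s) p (m + 1) * (w - 1) ^ (m + 1))
    (Pi' p w + Ef s p w - (Pi' p 1 + Ef s p 1))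

/-- F13. Rigidity. -/
def F13 : Prop := ∀ (s c : ℝ) (V : ℂ → ℝ) (φ : ℂ → ℂ), s ∈ Set.Icc (1 / 20 : ℝ) (1 / 6) →
  (∀ w, √s ≤ ‖w‖ → ‖w‖ ≤ 1 / √s → 5 * RR < ‖w - 1‖ → 5 * RR < ‖iot w - 1‖ →
    ContDiffAt ℝ ∞ V w ∧ V (iot w) = V w) →
  HarmonicOnNhd V {w | √s < ‖w‖ ∧ ‖w‖ < 1 / √s ∧ 5 * RR < ‖w - 1‖ ∧ 5 * RR < ‖iot w - 1‖} →
  (∀ w, ‖w‖ = √s ∨ ‖w‖ = 1 / √s → fderiv ℝ V w w = 0) →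
  DifferentiableOn ℂ φ (ball 1 (1 / 4)) →
  (∀ w, 5 * RR < ‖w - 1‖ → ‖w - 1‖ < 1 / 4 → dC V w = c / (w - 1) + φ w) →
  ∀ w, √s < ‖w‖ → ‖w‖ < 1 / √s → 5 * RR < ‖w - 1‖ → 6 * RR < ‖w + 1‖ → dC V w = 0

/-! ### G: geometry -/

/-- G1. Outward normals are unique. -/
def G1 : Prop := ∀ (K : Set ℂ) (z n n' : ℂ), IsOutwardNormal K z n → IsOutwardNormal K z n' →
  n = n'

/-- G2. The compact set `fillK g`. -/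
def G2 : Prop := ∀ g : ℕ → ℂ, Gb (2 * eps) g →
  IsCompact (fillK g) ∧ IsConnected (fillK g) ∧ IsPreconnected (interior (fillK g)) ∧
  closure (interior (fillK g)) = fillK g ∧ frontier (fillK g) = Fm g '' {ζ | ‖ζ‖ = 1} ∧
  fillK g ⊆ ball 0 (11 / 10) ∧ ball 0 (9 / 10) ⊆ interior (fillK g) ∧
  (∀ ζ, rr < ‖ζ‖ → ‖ζ‖ < 1 → Fm g ζ ∈ interior (fillK g)) ∧
  (∀ ζ, 1 < ‖ζ‖ → Fm g ζ ∉ fillK g)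

/-- G3. Its outward normals. -/
def G3 : Prop := ∀ g : ℕ → ℂ, Gb (2 * eps) g → ∀ ζ : ℂ, ‖ζ‖ = 1 →
  IsOutwardNormal (fillK g) (Fm g ζ) (deriv (Fm g) ζ * ζ / ‖deriv (Fm g) ζ‖)

/-- G4. The second surface. -/
def G4 : Prop := ∀ g : ℕ → ℂ, Gb (2 * eps) g → ∃ M : Surf, M.K = fillK g ∧ M.iota = id ∧
  ∀ ζ : ℂ, ‖ζ‖ = 1 → Real.exp (M.lam (Fm g ζ)) * ‖deriv (Fm g) ζ‖ = 1

/-- G5. The set `K1 s g`: membership. -/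
def G5 : Prop := ∀ (s : ℝ) (g : ℕ → ℂ), s ∈ Set.Icc (1 / 20 : ℝ) (1 / 6) → Gb (2 * eps) g →
  (∀ ζ, rr < ‖ζ‖ → ‖ζ‖ < 1 → w1 g ζ ∈ interior (K1 s g)) ∧
  (∀ ζ, ‖ζ‖ = 1 → w1 g ζ ∈ K1 s g) ∧
  (∀ w, √s ≤ ‖w‖ → ‖w‖ ≤ 1 / √s → 3 * RR < ‖w - 1‖ → 3 * RR < ‖iot w - 1‖ → w ∈ K1 s g) ∧
  (∀ w, √s < ‖w‖ → ‖w‖ < 1 / √s → 3 * RR < ‖w - 1‖ → 3 * RR < ‖iot w - 1‖ →
    w ∈ interior (K1 s g)) ∧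
  (∀ w ∈ K1 s g, w ≠ 0 ∧ iot w ∈ K1 s g ∧ iot (iot w) = w ∧ iot w ≠ w ∧
    5 / 7 * RR < ‖w - 1‖ ∧ 5 / 7 * RR < ‖iot w - 1‖)

/-- G6. The set `K1 s g`: topology. -/
def G6 : Prop := ∀ (s : ℝ) (g : ℕ → ℂ), s ∈ Set.Icc (1 / 20 : ℝ) (1 / 6) → Gb (2 * eps) g →
  IsCompact (K1 s g) ∧ IsPreconnected (interior (K1 s g)) ∧ closure (interior (K1 s g)) = K1 s g ∧
  IsConnected (K1 s g)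

/-- G7. The set `K1 s g`: frontier. -/
def G7 : Prop := ∀ (s : ℝ) (g : ℕ → ℂ), s ∈ Set.Icc (1 / 20 : ℝ) (1 / 6) → Gb (2 * eps) g →
  frontier (K1 s g) = SN1 s ∪ (w1 g '' {ζ | ‖ζ‖ = 1} ∪ iot '' (w1 g '' {ζ | ‖ζ‖ = 1})) ∧
  Disjoint (SN1 s) (w1 g '' {ζ | ‖ζ‖ = 1} ∪ iot '' (w1 g '' {ζ | ‖ζ‖ = 1}))

/-- G8. Outward normals of `K1 s g`. -/
def G8 : Prop := ∀ (s : ℝ) (g : ℕ → ℂ), s ∈ Set.Icc (1 / 20 : ℝ) (1 / 6) → Gb (2 * eps) g →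
  (∀ ζ : ℂ, ‖ζ‖ = 1 →
    IsOutwardNormal (K1 s g) (w1 g ζ) (deriv (w1 g) ζ * ζ / ‖deriv (w1 g) ζ‖)) ∧
  (∀ w : ℂ, ‖w‖ = √s → IsOutwardNormal (K1 s g) w (-w / ‖w‖)) ∧
  (∀ w : ℂ, ‖w‖ = 1 / √s → IsOutwardNormal (K1 s g) w (w / ‖w‖)) ∧
  (∀ w n : ℂ, w ∈ frontier (K1 s g) → IsOutwardNormal (K1 s g) w n →
    IsOutwardNormal (K1 s g) (iot w) (‖w‖ ^ 2 * conj n / (conj w) ^ 2))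

/-- G9. The first surface. -/
def G9 : Prop := ∀ (s : ℝ) (g : ℕ → ℂ), s ∈ Set.Icc (1 / 20 : ℝ) (1 / 6) → Gb (2 * eps) g →
  ∃ M : Surf, M.K = K1 s g ∧ M.iota = iot ∧ M.IsNeumannPart (SN1 s) ∧
  ∀ ζ : ℂ, ‖ζ‖ = 1 → Real.exp (M.lam (w1 g ζ)) * ‖deriv (w1 g) ζ‖ = 1

/-! ### H: eigenfunctions and coefficients -/

/-- H0. If near the circle of radius `1 / 8` the derivative of `V` is that of `Hf`, then the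
coefficients of `V` solve the equations. -/
def H0 : Prop := ∀ (κE κO : ℕ → ℕ → ℝ) (g p : ℕ → ℂ) (C σ : ℝ) (V : ℂ → ℝ), Kap κE → Kap κO →
  Gb (2 * eps) g → (∀ n, ‖p n‖ ≤ C * 4 ^ n) →
  (∀ ζ, 1 / 8 ≤ ‖ζ‖ → ‖ζ‖ ≤ 1 → ContDiffAt ℝ ∞ V ζ) →
  HarmonicOnNhd V {ζ | 1 / 8 < ‖ζ‖ ∧ ‖ζ‖ < 1} →
  (∀ ζ : ℂ, ‖ζ‖ = 1 → fderiv ℝ V ζ ζ = σ * V ζ) →
  (∀ ζ : ℂ, ‖ζ‖ = 1 / 8 → dC V ζ = deriv (Hf κE κO g p) ζ) →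
  coefs V σ ∈ Sol (Ak κE g) (Bk κO g) σ ∧
  (coefs V σ = 0 → ∀ ζ, 1 / 8 ≤ ‖ζ‖ → ‖ζ‖ ≤ 1 → V ζ = 0)

/-- H1. Eigenfunctions of the second surface give solutions. -/
def H1 : Prop := ∀ (g : ℕ → ℂ) (M : Surf) (σ : ℝ) (U : ℂ → ℝ), Gb (2 * eps) g →
  M.K = fillK g → (∀ ζ : ℂ, ‖ζ‖ = 1 → Real.exp (M.lam (Fm g ζ)) * ‖deriv (Fm g) ζ‖ = 1) →
  M.IsEigen ∅ σ U →
  coefs (fun ζ => U (Fm g ζ)) σ ∈ Sol (Ak 0 g) (Bk 0 g) σ ∧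
  (coefs (fun ζ => U (Fm g ζ)) σ = 0 → ∀ z ∈ fillK g, U z = 0)

/-- H2. Solutions give eigenfunctions of the second surface. -/
def H2 : Prop := ∀ (g : ℕ → ℂ) (M : Surf) (σ : ℝ), Gb (2 * eps) g →
  M.K = fillK g → M.iota = id →
  (∀ ζ : ℂ, ‖ζ‖ = 1 → Real.exp (M.lam (Fm g ζ)) * ‖deriv (Fm g) ζ‖ = 1) →
  ∀ x ∈ Sol (Ak 0 g) (Bk 0 g) σ, ∃ U, M.IsEigen ∅ σ U ∧ coefs (fun ζ => U (Fm g ζ)) σ = x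

/-- H3. Eigenfunctions of the first surface give solutions. -/
def H3 : Prop := ∀ (s : ℝ) (g : ℕ → ℂ) (M : Surf) (σ : ℝ) (U : ℂ → ℝ),
  s ∈ Set.Icc (1 / 20 : ℝ) (1 / 6) → Gb (2 * eps) g →
  M.K = K1 s g → M.iota = iot →
  (∀ ζ : ℂ, ‖ζ‖ = 1 → Real.exp (M.lam (w1 g ζ)) * ‖deriv (w1 g) ζ‖ = 1) →
  M.IsEigen (SN1 s) σ U →
  coefs (fun ζ => U (w1 g ζ)) σ ∈ Sol (Ak (kE s) g) (Bk (kO s) g) σ ∧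
  (coefs (fun ζ => U (w1 g ζ)) σ = 0 → ∀ z ∈ K1 s g, U z = 0)

/-- H4. Solutions give eigenfunctions of the first surface. -/
def H4 : Prop := ∀ (s : ℝ) (g : ℕ → ℂ) (M : Surf) (σ : ℝ),
  s ∈ Set.Icc (1 / 20 : ℝ) (1 / 6) → Gb (2 * eps) g →
  M.K = K1 s g → M.iota = iot →
  (∀ ζ : ℂ, ‖ζ‖ = 1 → Real.exp (M.lam (w1 g ζ)) * ‖deriv (w1 g) ζ‖ = 1) →
  ∀ x ∈ Sol (Ak (kE s) g) (Bk (kO s) g) σ,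
    ∃ U, M.IsEigen (SN1 s) σ U ∧ coefs (fun ζ => U (w1 g ζ)) σ = x

/-- H5. From functions to a linear equivalence. -/
def H5 : Prop := ∀ (M : Surf) (SN : Set ℂ) (σ : ℝ) (F : ℂ → ℂ) (S : Submodule ℝ (ℝ × (ℕ → ℂ))),
  (∀ ζ, ‖ζ‖ = 1 → F ζ ∈ M.K) → ContinuousOn F {ζ | ‖ζ‖ = 1} →
  (∀ U, M.IsEigen SN σ U → coefs (fun ζ => U (F ζ)) σ ∈ S ∧
    (coefs (fun ζ => U (F ζ)) σ = 0 → ∀ z ∈ M.K, U z = 0)) →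
  (∀ x ∈ S, ∃ U, M.IsEigen SN σ U ∧ coefs (fun ζ => U (F ζ)) σ = x) →
  Nonempty (M.eigen SN σ ≃ₗ[ℝ] S)

end Pool.Agent.Stek
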