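import Pool.Agent.Stek.TSeq
import Pool.Agent.Stek.TFun

/-!
# F10: the relation between the Laurent coefficients of `Hf`
-/

open scoped BigOperators ComplexConjugate Topology ContDiff
open Complex Metric

noncomputable section

namespace Pool.Agent.Stek.PF10

/-! ### Circle integrals -/

lemma ci_norm_le {ρ : ℝ} (hρ : 0 ≤ ρ) {f : ℂ → ℂ} {C : ℝ} (hf : ∀ z ∈ sphere (0 : ℂ) ρ, ‖f z‖ ≤ C) :
    ‖ci ρ f‖ ≤ ρ * C := by
  have := circleIntegral.norm_two_pi_i_inv_smul_integral_le_of_norm_le_const (c := 0) hρ hf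
  simpa [ci] using this

lemma ci_congr {ρ : ℝ} (hρ : 0 ≤ ρ) {f g : ℂ → ℂ} (h : ∀ z ∈ sphere (0 : ℂ) ρ, f z = g z) :
    ci ρ f = ci ρ g := by
  unfold ci
  congr 1
  exact circleIntegral.integral_congr hρ h

lemma ci_const_mul {ρ : ℝ} (a : ℂ) (f : ℂ → ℂ) : ci ρ (fun z => a * f z) = a * ci ρ f := by
  unfold ci
  have : (∮ z in C(0, ρ), a * f z) = a * ∮ z in C(0, ρ), f z := by
    simp
  rw [this]; ring

lemma ci_add {ρ : ℝ} (hρ : 0 ≤ ρ) {f g : ℂ → ℂ} (hf : ContinuousOn f (sphere 0 ρ))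
    (hg : ContinuousOn g (sphere 0 ρ)) : ci ρ (fun z => f z + g z) = ci ρ f + ci ρ g := by
  unfold ci
  rw [circleIntegral.integral_add (hf.circleIntegrable hρ) (hg.circleIntegrable hρ), mul_add]

lemma ci_zpow {ρ : ℝ} (hρ : 0 < ρ) (n : ℤ) : ci ρ (fun z => z ^ n) = if n = -1 then 1 else 0 := by
  unfold ci
  split_ifs with h
  · subst h
    have := circleIntegral.integral_sub_center_inv (0 : ℂ) hρ.ne'
    simp only [sub_zero] at this
    have h2 : (∮ z in C(0, ρ), z ^ (-1 : ℤ)) = 2 * Real.pi * I := by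
      rw [← this]
      simp
    rw [h2]
    apply inv_mul_cancel₀
    exact two_pi_I_ne_zero
  · have := circleIntegral.integral_sub_zpow_of_ne h (0 : ℂ) 0 ρ
    simp only [sub_zero] at this
    rw [this, mul_zero]

lemma ci_hasSum {ι : Type} [Countable ι] {ρ : ℝ} (hρ : 0 ≤ ρ) {F : ι → ℂ → ℂ} {f : ℂ → ℂ}
    {u : ι → ℝ} (hu : Summable u) (hF : ∀ i, ContinuousOn (F i) (sphere 0 ρ))
    (hb : ∀ i, ∀ z ∈ sphere (0 : ℂ) ρ, ‖F i z‖ ≤ u i)
    (hs : ∀ z ∈ sphere (0 : ℂ) ρ, HasSum (fun i => F i z) (f z)) :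
    HasSum (fun i => ci ρ (F i)) (ci ρ f) := by
  unfold ci
  apply HasSum.mul_left
  simp only [circleIntegral]
  have hmem : ∀ θ : ℝ, circleMap 0 ρ θ ∈ sphere (0 : ℂ) ρ := circleMap_mem_sphere 0 hρ
  have key := intervalIntegral.hasSum_integral_of_dominated_convergence
    (μ := MeasureTheory.volume) (a := 0) (b := 2 * Real.pi)
    (F := fun (i : ι) (θ : ℝ) => deriv (circleMap 0 ρ) θ • F i (circleMap 0 ρ θ))
    (f := fun θ => deriv (circleMap 0 ρ) θ • f (circleMap 0 ρ θ))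
    (fun i _ => ρ * u i) ?_ ?_ ?_ ?_ ?_
  · exact key
  · intro i
    apply Continuous.aestronglyMeasurable
    have h1 : Continuous (fun θ => F i (circleMap 0 ρ θ)) :=
      (hF i).comp_continuous (continuous_circleMap 0 ρ) hmem
    have h2 : Continuous (deriv (circleMap 0 ρ)) := by
      have : deriv (circleMap 0 ρ) = fun θ => circleMap 0 ρ θ * I := by
        funext θ; exact deriv_circleMap 0 ρ θ
      rw [this]
      exact (continuous_circleMap 0 ρ).mul continuous_const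
    exact h2.smul h1
  · intro i
    refine Filter.Eventually.of_forall fun θ _ => ?_
    rw [norm_smul]
    have : ‖deriv (circleMap 0 ρ) θ‖ = ρ := by
      rw [deriv_circleMap]
      simp [abs_of_nonneg hρ]
    rw [this]
    exact mul_le_mul_of_nonneg_left (hb i _ (hmem θ)) hρ
  · refine Filter.Eventually.of_forall fun θ _ => hu.mul_left ρ
  · simp
  · refine Filter.Eventually.of_forall fun θ _ => ?_
    exact (hs _ (hmem θ)).const_smul _

/-! ### Power series without constant term -/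

lemma ps_bound {a : ℕ → ℂ} {K b R : ℝ} (hK : 0 ≤ K)
    (ha : ∀ n, ‖a (n + 1)‖ ≤ K * b ^ (n + 1)) (hb : 0 ≤ b) {x : ℂ}
    (hx : ‖x‖ ≤ R) (n : ℕ) : ‖a (n + 1) * x ^ (n + 1)‖ ≤ K * (b * R) * (b * R) ^ n := by
  rw [norm_mul, norm_pow]
  calc ‖a (n + 1)‖ * ‖x‖ ^ (n + 1) ≤ (K * b ^ (n + 1)) * R ^ (n + 1) := by
        apply mul_le_mul (ha _) (pow_le_pow_left₀ (norm_nonneg _) hx _) (by positivity)
        positivity
    _ = K * (b * R) * (b * R) ^ n := by ring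

lemma ps_summable {K b R : ℝ} (hb : 0 ≤ b) (hR : 0 ≤ R) (hbR : b * R < 1) :
    Summable (fun n : ℕ => K * (b * R) * (b * R) ^ n) :=
  (summable_geometric_of_lt_one (mul_nonneg hb hR) hbR).mul_left _

lemma ps_hasSum {a : ℕ → ℂ} {K b R : ℝ} (hK : 0 ≤ K)
    (ha : ∀ n, ‖a (n + 1)‖ ≤ K * b ^ (n + 1)) (hb : 0 ≤ b)
    (hbR : b * R < 1) {x : ℂ} (hx : ‖x‖ ≤ R) :
    HasSum (fun n => a (n + 1) * x ^ (n + 1)) (∑' n, a (n + 1) * x ^ (n + 1)) := by
  apply Summable.hasSum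
  exact Summable.of_norm_bounded (ps_summable hb ((norm_nonneg _).trans hx) hbR)
    (fun n => ps_bound hK ha hb hx n)

lemma ps_norm {a : ℕ → ℂ} {K b R : ℝ} (hK : 0 ≤ K)
    (ha : ∀ n, ‖a (n + 1)‖ ≤ K * b ^ (n + 1)) (hb : 0 ≤ b)
    (hbR : b * R < 1) {x : ℂ} (hx : ‖x‖ ≤ R) :
    ‖∑' n, a (n + 1) * x ^ (n + 1)‖ ≤ K * (b * R) * (1 - b * R)⁻¹ := by
  have hR := (norm_nonneg _).trans hx
  have h := tsum_of_norm_bounded ((hasSum_geometric_of_lt_one (mul_nonneg hb hR) hbR).mul_left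
    (K * (b * R))) (fun n => ps_bound hK ha hb hx n)
  exact h

lemma ps_diff {a : ℕ → ℂ} {K b R : ℝ} (hK : 0 ≤ K)
    (ha : ∀ n, ‖a (n + 1)‖ ≤ K * b ^ (n + 1)) (hb : 0 ≤ b) (hR : 0 ≤ R)
    (hbR : b * R < 1) :
    DifferentiableOn ℂ (fun x => ∑' n, a (n + 1) * x ^ (n + 1)) (ball 0 R) := by
  apply differentiableOn_tsum_of_summable_norm (ps_summable (K := K) hb hR hbR)
  · intro n
    fun_prop
  · exact isOpen_ball
  · intro n w hw
    exact ps_bound hK ha hb (by simpa using (mem_ball_zero_iff.1 hw).le) n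

/-! ### The bound of `qt` -/

lemma RR_pos : (0 : ℝ) < RR := by unfold RR; positivity
lemma rr_pos : (0 : ℝ) < rr := by unfold rr; positivity
lemma eps_pos : (0 : ℝ) < eps := by unfold eps; positivity

lemma qt_term {κ : ℕ → ℕ → ℝ} {p : ℕ → ℂ} {C : ℝ} (hκ : Kap κ) (hp : ∀ n, ‖p n‖ ≤ C * 4 ^ n)
    {m : ℕ} (hm : 1 ≤ m) (n : ℕ) :
    ‖(RR : ℂ) ^ (n + 1) * ((κ (n + 1) m : ℂ) * p (n + 1))‖ ≤
      3 * C * (8 * RR) * 2 ^ m * (8 * RR) ^ n := by
  have hC : 0 ≤ C := by simpa using (norm_nonneg _).trans (hp 0)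
  rw [norm_mul, norm_mul, norm_pow, norm_real, norm_real, Real.norm_eq_abs, Real.norm_eq_abs,
    abs_of_pos RR_pos]
  calc RR ^ (n + 1) * (|κ (n + 1) m| * ‖p (n + 1)‖)
      ≤ RR ^ (n + 1) * ((3 * 2 ^ (n + 1 + m)) * (C * 4 ^ (n + 1))) := by
        have := RR_pos
        gcongr
        · exact hκ _ _ (by omega) hm
        · exact hp _
    _ = 3 * C * (8 * RR) * 2 ^ m * (8 * RR) ^ n := by
        rw [show (8 : ℝ) * RR = 2 * 4 * RR by ring]
        rw [mul_pow, mul_pow]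
        ring

lemma eight_RR : 8 * RR ≤ 1 / 100 := by unfold RR; norm_num

lemma qt_summable_bd (C : ℝ) (m : ℕ) :
    HasSum (fun n : ℕ => 3 * C * (8 * RR) * 2 ^ m * (8 * RR) ^ n)
      (3 * C * (8 * RR) * 2 ^ m * (1 - 8 * RR)⁻¹) :=
  (hasSum_geometric_of_lt_one (by have := RR_pos; positivity)
    (by have := eight_RR; linarith)).mul_left _

lemma qt_summable {κ : ℕ → ℕ → ℝ} {p : ℕ → ℂ} {C : ℝ} (hκ : Kap κ) (hp : ∀ n, ‖p n‖ ≤ C * 4 ^ n)
    {m : ℕ} (hm : 1 ≤ m) :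
    Summable (fun n : ℕ => (RR : ℂ) ^ (n + 1) * ((κ (n + 1) m : ℂ) * p (n + 1))) :=
  Summable.of_norm_bounded (qt_summable_bd C m).summable (fun n => qt_term hκ hp hm n)

lemma qt_split {κE κO : ℕ → ℕ → ℝ} {p : ℕ → ℂ} {C : ℝ} (hE : Kap κE) (hO : Kap κO)
    (hp : ∀ n, ‖p n‖ ≤ C * 4 ^ n) {m : ℕ} (hm : 1 ≤ m) :
    qt κE κO p m = ∑' n : ℕ, (RR : ℂ) ^ (n + 1) * ((κE (n + 1) m : ℂ) * p (n + 1)) +
      ∑' n : ℕ, (RR : ℂ) ^ (n + 1) * ((κO (n + 1) m : ℂ) * conj (p (n + 1))) := by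
  have hp' : ∀ n, ‖(fun n => conj (p n)) n‖ ≤ C * 4 ^ n := fun n => by simpa using hp n
  rw [← (qt_summable hE hp hm).tsum_add (qt_summable hO hp' hm), qt]
  congr 1
  funext n
  ring

lemma qt_bound {κE κO : ℕ → ℕ → ℝ} {p : ℕ → ℂ} {C : ℝ} (hE : Kap κE) (hO : Kap κO)
    (hp : ∀ n, ‖p n‖ ≤ C * 4 ^ n) {m : ℕ} (hm : 1 ≤ m) :
    ‖qt κE κO p m‖ ≤ C * 2 ^ m := by
  have hC : 0 ≤ C := by simpa using (norm_nonneg _).trans (hp 0)
  have hp' : ∀ n, ‖(fun n => conj (p n)) n‖ ≤ C * 4 ^ n := fun n => by simpa using hp n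
  rw [qt_split hE hO hp hm]
  have e1 := tsum_of_norm_bounded (qt_summable_bd C m) (fun n => qt_term hE hp hm n)
  have e2 := tsum_of_norm_bounded (qt_summable_bd C m) (fun n => qt_term hO hp' hm n)
  have e3 : 3 * C * (8 * RR) * 2 ^ m * (1 - 8 * RR)⁻¹ ≤ C * 2 ^ m * (1 / 2) := by
    have h8 := eight_RR
    have h9 : (1 - 8 * RR)⁻¹ ≤ 100 / 99 := by
      rw [inv_le_comm₀ (by linarith) (by norm_num)]
      linarith
    have h10 := RR_pos
    calc 3 * C * (8 * RR) * 2 ^ m * (1 - 8 * RR)⁻¹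
        ≤ 3 * C * (1 / 100) * 2 ^ m * (100 / 99) := by
          have : 0 ≤ (1 - 8 * RR)⁻¹ := by
            apply inv_nonneg.2
            linarith
          gcongr
      _ ≤ C * 2 ^ m * (1 / 2) := by
        have : 0 ≤ C * 2 ^ m := by positivity
        nlinarith
  refine (norm_add_le _ _).trans ?_
  refine (add_le_add e1 e2).trans ?_
  linarith

/-! ### The double sum -/

lemma RR_rr : 40 * (RR / rr) ≤ 1 / 2 := by unfold RR rr; norm_num
lemma eight_rr : 8 * rr ≤ 1 / 2 := by unfold rr; norm_num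

lemma summable_j : Summable (fun j : ℕ => (j : ℝ) * (1 / 2 : ℝ) ^ j) := by
  have := summable_pow_mul_geometric_of_norm_lt_one (R := ℝ) 1 (r := 1 / 2) (by norm_num)
  simpa using this

lemma dsum {κ : ℕ → ℕ → ℝ} (hκ : Kap κ) {m : ℕ} (hm : 1 ≤ m) {e : ℕ → ℕ → ℂ} {a P : ℕ → ℂ} {K : ℝ}
    (hK : 0 ≤ K) (he0 : ∀ n j : ℕ, j < n → e n j = 0) (heb : ∀ n j, 1 ≤ n → ‖e n j‖ ≤ 20 ^ n)
    (ha : ∀ j, ‖a j‖ ≤ K * 8 ^ j)
    (hP : ∀ n : ℕ, 1 ≤ n → HasSum (fun j : ℕ => if j < n then 0 else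
      (j : ℂ) * rr ^ (j - n) * e n j * a j) (n * P n)) :
    HasSum (fun j : ℕ => (j : ℂ) * rr ^ j * ∑ n ∈ Finset.Icc 1 j,
        (((RR / rr) ^ n * κ n m / n : ℝ) : ℂ) * e n j * a j)
      (∑' n : ℕ, (RR : ℂ) ^ (n + 1) * ((κ (n + 1) m : ℂ) * P (n + 1))) := by
  have hR := RR_pos
  have hr := rr_pos
  set T : ℕ × ℕ → ℂ := fun x => (((RR / rr) ^ (x.1 + 1) * κ (x.1 + 1) m / ((x.1 + 1 : ℕ) : ℝ) : ℝ) : ℂ) *
    e (x.1 + 1) x.2 * a x.2 * ((x.2 : ℂ) * rr ^ x.2) with hTdef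
  have hsum : Summable (fun x : ℕ × ℕ =>
      (3 * 2 ^ m * K) * ((1 / 2 : ℝ) ^ x.1 * ((x.2 : ℝ) * (1 / 2) ^ x.2))) := by
    apply Summable.mul_left
    have h1 : Summable (fun n : ℕ => (1 / 2 : ℝ) ^ n) :=
      summable_geometric_of_lt_one (by norm_num) (by norm_num)
    exact h1.mul_of_nonneg summable_j (fun n => by positivity) (fun n => by positivity)
  have hT : Summable T := by
    refine Summable.of_norm_bounded hsum ?_
    rintro ⟨n, j⟩
    simp only [hTdef]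
    have h1 : ‖(((RR / rr) ^ (n + 1) * κ (n + 1) m / ((n + 1 : ℕ) : ℝ) : ℝ) : ℂ)‖ ≤
        (RR / rr) ^ (n + 1) * (3 * 2 ^ (n + 1 + m)) := by
      rw [norm_real, Real.norm_eq_abs, abs_div, abs_mul, abs_of_pos (by positivity : 0 < (RR / rr) ^ (n + 1)),
        abs_of_pos (by positivity : (0 : ℝ) < ((n + 1 : ℕ) : ℝ))]
      calc (RR / rr) ^ (n + 1) * |κ (n + 1) m| / ((n + 1 : ℕ) : ℝ)
          ≤ (RR / rr) ^ (n + 1) * |κ (n + 1) m| := by
            apply div_le_self (by positivity)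
            exact_mod_cast Nat.succ_le_succ (Nat.zero_le n)
        _ ≤ _ := by
            gcongr
            exact hκ _ _ (by omega) hm
    have h2 : ‖((j : ℂ) * (rr : ℂ) ^ j)‖ = j * rr ^ j := by
      rw [norm_mul, norm_pow, norm_real, Real.norm_eq_abs, abs_of_pos hr]
      simp
    rw [norm_mul, norm_mul, norm_mul, h2]
    calc ‖(((RR / rr) ^ (n + 1) * κ (n + 1) m / ((n + 1 : ℕ) : ℝ) : ℝ) : ℂ)‖ * ‖e (n + 1) j‖ * ‖a j‖ *
          (j * rr ^ j)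
        ≤ ((RR / rr) ^ (n + 1) * (3 * 2 ^ (n + 1 + m))) * 20 ^ (n + 1) * (K * 8 ^ j) * (j * rr ^ j) := by
          gcongr
          · exact heb _ _ (by omega)
          · exact ha j
      _ = (3 * 2 ^ m * K) * ((40 * (RR / rr)) ^ (n + 1) * ((j : ℝ) * (8 * rr) ^ j)) := by
          rw [show (40 : ℝ) * (RR / rr) = 2 * 20 * (RR / rr) by ring, mul_pow, mul_pow, mul_pow]
          ring
      _ ≤ (3 * 2 ^ m * K) * ((1 / 2 : ℝ) ^ (n + 1) * ((j : ℝ) * (1 / 2) ^ j)) := by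
          have := RR_rr
          have := eight_rr
          gcongr
      _ ≤ (3 * 2 ^ m * K) * ((1 / 2 : ℝ) ^ n * ((j : ℝ) * (1 / 2) ^ j)) := by
          have : (1 / 2 : ℝ) ^ (n + 1) ≤ (1 / 2 : ℝ) ^ n :=
            pow_le_pow_of_le_one (by norm_num) (by norm_num) (by omega)
          gcongr
  -- rows
  have hrow : ∀ n : ℕ, HasSum (fun j => T (n, j))
      ((RR : ℂ) ^ (n + 1) * ((κ (n + 1) m : ℂ) * P (n + 1))) := by
    intro n
    have h := (hP (n + 1) (by omega)).mul_left ((RR : ℂ) ^ (n + 1) * (κ (n + 1) m : ℂ) / ((n + 1 : ℕ) : ℂ))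
    have hne : ((n + 1 : ℕ) : ℂ) ≠ 0 := by
      exact_mod_cast Nat.succ_ne_zero n
    have hv : (RR : ℂ) ^ (n + 1) * ((κ (n + 1) m : ℂ) * P (n + 1)) =
        (RR : ℂ) ^ (n + 1) * (κ (n + 1) m : ℂ) / ((n + 1 : ℕ) : ℂ) *
          (((n + 1 : ℕ) : ℂ) * P (n + 1)) := by field_simp
    rw [hv]
    refine h.congr_fun (fun j => ?_)
    · simp only [hTdef]
      split_ifs with hj
      · rw [he0 _ _ hj]; ring
      · have hj' : j = (j - (n + 1)) + (n + 1) := by omega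
        have hrc : (rr : ℂ) ≠ 0 := by exact_mod_cast hr.ne'
        have e1 : ((((RR / rr) ^ (n + 1) * κ (n + 1) m / ((n + 1 : ℕ) : ℝ) : ℝ)) : ℂ) * (rr : ℂ) ^ j =
            (RR : ℂ) ^ (n + 1) * (κ (n + 1) m : ℂ) / ((n + 1 : ℕ) : ℂ) * (rr : ℂ) ^ (j - (n + 1)) := by
          have e0 : (rr : ℂ) ^ j = (rr : ℂ) ^ (j - (n + 1)) * (rr : ℂ) ^ (n + 1) := by
            rw [← pow_add, ← hj']
          rw [e0, div_pow]
          push_cast
          field_simp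
        calc _ = ((((RR / rr) ^ (n + 1) * κ (n + 1) m / ((n + 1 : ℕ) : ℝ) : ℝ)) : ℂ) * (rr : ℂ) ^ j *
            (e (n + 1) j * a j * j) := by ring
          _ = _ := by rw [e1]; ring
  -- columns
  have hcol : ∀ j : ℕ, HasSum (fun n => T (n, j)) ((j : ℂ) * rr ^ j * ∑ n ∈ Finset.Icc 1 j,
      (((RR / rr) ^ n * κ n m / n : ℝ) : ℂ) * e n j * a j) := by
    intro j
    have h : HasSum (fun n => T (n, j)) (∑ n ∈ Finset.range j, T (n, j)) := by
      apply hasSum_sum_of_ne_finset_zero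
      intro n hn
      simp only [hTdef]
      rw [he0 (n + 1) j (by simpa using hn)]
      ring
    convert h using 1
    rw [Finset.mul_sum]
    have : Finset.Icc 1 j = Finset.Ico (0 + 1) (j + 1) := by
      ext x; simp only [Finset.mem_Icc, Finset.mem_Ico]; omega
    rw [this, ← Finset.sum_Ico_add' _ 0 j 1, ← Finset.range_eq_Ico]
    apply Finset.sum_congr rfl
    intro n _
    simp only [hTdef]
    push_cast
    ring
  have h1 : HasSum (fun n => (RR : ℂ) ^ (n + 1) * ((κ (n + 1) m : ℂ) * P (n + 1))) (∑' x, T x) :=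
    hT.hasSum.prod_fiberwise hrow
  have h2 : HasSum (fun j : ℕ => (j : ℂ) * rr ^ j * ∑ n ∈ Finset.Icc 1 j,
        (((RR / rr) ^ n * κ n m / n : ℝ) : ℂ) * e n j * a j) (∑' x, T x) := by
    have h3 : HasSum (T ∘ Prod.swap) (∑' x, T x) := by
      have := (Equiv.prodComm ℕ ℕ).hasSum_iff (f := T) (a := ∑' x, T x)
      exact this.2 hT.hasSum
    exact h3.prod_fiberwise hcol
  rw [h1.tsum_eq]
  exact h2

/-! ### Powers of `rr / Fm` -/

lemma eps_rr : eps * rr ≤ 1 / 1000 := by unfold eps rr; norm_num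
lemma rr_le : rr ≤ 1 / 1000 := by unfold rr; norm_num

lemma ee_bound (h6 : S6) {g : ℕ → ℂ} (hg : Gb (2 * eps) g) :
    (∀ n j : ℕ, j < n → ee g n j = 0) ∧ (∀ n j : ℕ, 1 ≤ n → ‖ee g n j‖ ≤ 20 ^ n) := by
  obtain ⟨h1, h2, h3, h4⟩ := h6 (2 * eps) 0 g g (by unfold eps; norm_num) hg hg
  refine ⟨h1, fun n j hn => ?_⟩
  rcases Nat.eq_zero_or_pos j with hj | hj
  · subst hj
    rw [h1 n 0 hn, norm_zero]
    positivity
  · refine (h3 n j hn hj).trans ?_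
    have : (1 : ℝ) ≤ (j : ℝ) ^ 3 := by
      have : (1 : ℝ) ≤ j := by exact_mod_cast hj
      exact one_le_pow₀ this
    calc (20 : ℝ) ^ (n - 1) / (j : ℝ) ^ 3 ≤ 20 ^ (n - 1) := div_le_self (by positivity) this
      _ ≤ 20 ^ n := pow_le_pow_right₀ (by norm_num) (by omega)

/-- Laurent coefficients of the powers of `rr / Fm`. -/
lemma ci_pow (h4 : F4) (h6 : S6) {g : ℕ → ℂ} (hg : Gb (2 * eps) g) (n : ℕ) (hn : 1 ≤ n) (l : ℤ) :
    HasSum (fun j : ℕ => ee g n j * (rr : ℂ) ^ j * (if (l - j : ℤ) = -1 then 1 else 0))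
      (ci (1 / 8) (fun ζ => (rr / Fm g ζ) ^ n * ζ ^ l)) := by
  have hr := rr_pos
  obtain ⟨h1, h2⟩ := ee_bound h6 hg
  have hterm : ∀ j : ℕ, ee g n j * (rr : ℂ) ^ j * (if (l - j : ℤ) = -1 then 1 else 0) =
      ci (1 / 8) (fun ζ => ee g n j * (rr : ℂ) ^ j * ζ ^ (l - j)) := by
    intro j
    rw [ci_const_mul, ci_zpow (by norm_num)]
  simp only [hterm]
  have hne : ∀ z ∈ sphere (0 : ℂ) (1 / 8), z ≠ 0 := by
    intro z hz h0
    rw [h0] at hz
    simp at hz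
  have hnorm : ∀ z ∈ sphere (0 : ℂ) (1 / 8), ‖z‖ = 1 / 8 := fun z hz => by
    simpa using hz
  apply ci_hasSum (u := fun j => 20 ^ n * (1 / 8 : ℝ) ^ l * (8 * rr) ^ j) (by norm_num)
  · apply Summable.mul_left
    exact summable_geometric_of_lt_one (by positivity) (by have := eight_rr; linarith)
  · intro j
    apply ContinuousOn.mul continuousOn_const
    intro z hz
    exact (continuousAt_zpow₀ z _ (Or.inl (hne z hz))).continuousWithinAt
  · intro j z hz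
    rw [norm_mul, norm_mul, norm_pow, norm_real, Real.norm_eq_abs, abs_of_pos hr, norm_zpow,
      hnorm z hz, zpow_sub₀ (by norm_num : (1 / 8 : ℝ) ≠ 0), mul_pow]
    have h8 : (1 / 8 : ℝ) ^ l / (1 / 8 : ℝ) ^ (j : ℤ) = (1 / 8 : ℝ) ^ l * 8 ^ j := by
      rw [zpow_natCast, one_div, inv_pow, div_inv_eq_mul]
    rw [h8]
    have h9 : (0 : ℝ) < (1 / 8 : ℝ) ^ l := by positivity
    calc ‖ee g n j‖ * rr ^ j * ((1 / 8 : ℝ) ^ l * 8 ^ j)
        ≤ 20 ^ n * rr ^ j * ((1 / 8 : ℝ) ^ l * 8 ^ j) := by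
          gcongr
          exact h2 n j hn
      _ = _ := by ring
  · intro z hz
    have h := (h4 g hg z (by rw [hnorm z hz]; have := rr_le; linarith) n).mul_right (z ^ l)
    refine h.congr_fun (fun j => ?_)
    rw [zpow_sub₀ (hne z hz), zpow_natCast, div_pow]
    have := hne z hz
    field_simp

lemma ci_pow_pos (h4 : F4) (h6 : S6) {g : ℕ → ℂ} (hg : Gb (2 * eps) g) (n : ℕ) (hn : 1 ≤ n)
    (j : ℕ) (hj : 1 ≤ j) : ci (1 / 8) (fun ζ => (rr / Fm g ζ) ^ n * ζ ^ (-(j : ℤ) - 1)) = 0 := by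
  have h := ci_pow h4 h6 hg n hn (-(j : ℤ) - 1)
  refine h.unique ?_
  convert hasSum_zero using 1
  funext i
  rw [if_neg (by omega), mul_zero]

lemma ci_pow_neg (h4 : F4) (h6 : S6) {g : ℕ → ℂ} (hg : Gb (2 * eps) g) (n : ℕ) (hn : 1 ≤ n)
    (k : ℕ) : ci (1 / 8) (fun ζ => (rr / Fm g ζ) ^ n * ζ ^ ((k : ℤ) - 1)) =
      ee g n k * (rr : ℂ) ^ k := by
  have h := ci_pow h4 h6 hg n hn ((k : ℤ) - 1)
  refine h.unique ?_
  have := hasSum_ite_eq k (ee g n k * (rr : ℂ) ^ k)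
  refine this.congr_fun (fun i => ?_)
  by_cases hi : i = k
  · subst hi
    rw [if_pos (by omega), if_pos rfl, mul_one]
  · rw [if_neg (by omega), if_neg hi, mul_zero]

/-! ### The regular series -/

lemma qt_hasSum (h1 : F1) {g : ℕ → ℂ} (hg : Gb (2 * eps) g) {t : ℕ → ℂ}
    {C : ℝ} (hC : 0 ≤ C) (ht : ∀ m, ‖t (m + 1)‖ ≤ C * 2 ^ (m + 1)) (l : ℤ) :
    HasSum (fun m : ℕ => t (m + 1) * (RR / rr : ℂ) ^ (m + 1) *
        ci (1 / 8) (fun ζ => (rr / Fm g ζ) ^ (m + 1) * ζ ^ l))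
      (ci (1 / 8) (fun ζ => (∑' m : ℕ, t (m + 1) * (RR / Fm g ζ) ^ (m + 1)) * ζ ^ l)) := by
  have hr := rr_pos
  have hR := RR_pos
  have hrc : (rr : ℂ) ≠ 0 := by exact_mod_cast hr.ne'
  obtain ⟨f1, f2, f3, f4⟩ := h1 g hg
  have hnorm : ∀ z ∈ sphere (0 : ℂ) (1 / 8), ‖z‖ = 1 / 8 := fun z hz => by
    simpa using hz
  have hne : ∀ z ∈ sphere (0 : ℂ) (1 / 8), z ≠ 0 := by
    intro z hz h0
    rw [h0] at hz
    simp at hz
  have hF : ∀ z ∈ sphere (0 : ℂ) (1 / 8), 1 / 10 ≤ ‖Fm g z‖ := by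
    intro z hz
    have e1 := f2 z (by rw [hnorm z hz]; have := rr_le; linarith)
    have e2 : ‖z‖ - ‖Fm g z‖ ≤ ‖Fm g z - z‖ := by
      have := norm_sub_norm_le z (Fm g z)
      rwa [norm_sub_rev] at this
    have e3 := eps_rr
    rw [hnorm z hz] at e2
    linarith
  have hv : ∀ z ∈ sphere (0 : ℂ) (1 / 8), ‖(RR : ℂ) / Fm g z‖ ≤ 1 / 4 := by
    intro z hz
    rw [norm_div, norm_real, Real.norm_eq_abs, abs_of_pos hR]
    rw [div_le_iff₀ (by linarith [hF z hz])]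
    have : RR ≤ 1 / 1000 := by unfold RR; norm_num
    linarith [hF z hz]
  have hterm : ∀ m : ℕ, t (m + 1) * (RR / rr : ℂ) ^ (m + 1) *
        ci (1 / 8) (fun ζ => (rr / Fm g ζ) ^ (m + 1) * ζ ^ l) =
      ci (1 / 8) (fun ζ => t (m + 1) * (RR / Fm g ζ) ^ (m + 1) * ζ ^ l) := by
    intro m
    rw [← ci_const_mul]
    apply ci_congr (by norm_num)
    intro z hz
    have : (RR / Fm g z : ℂ) = (RR / rr) * (rr / Fm g z) := by
      field_simp
    rw [this, mul_pow]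
    ring
  simp only [hterm]
  have hcF : ContinuousOn (Fm g) (sphere 0 (1 / 8)) := by
    apply f1.continuousOn.mono
    intro z hz
    show rr < ‖z‖
    rw [hnorm z hz]
    have := rr_le
    linarith
  have hF0 : ∀ z ∈ sphere (0 : ℂ) (1 / 8), Fm g z ≠ 0 := by
    intro z hz h0
    have := hF z hz
    rw [h0, norm_zero] at this
    linarith
  apply ci_hasSum (u := fun m => C * (2 * (1 / 4)) * (2 * (1 / 4)) ^ m * (1 / 8 : ℝ) ^ l) (by norm_num)
  · exact (ps_summable (K := C) (b := 2) (R := 1 / 4) (by norm_num) (by norm_num)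
      (by norm_num)).mul_right _
  · intro m
    apply ContinuousOn.mul
    · apply ContinuousOn.mul continuousOn_const
      apply ContinuousOn.pow
      exact continuousOn_const.div hcF hF0
    · intro z hz
      exact (continuousAt_zpow₀ z _ (Or.inl (hne z hz))).continuousWithinAt
  · intro m z hz
    rw [norm_mul, norm_zpow, hnorm z hz]
    have := ps_bound hC ht (by norm_num : (0 : ℝ) ≤ 2) (hv z hz) m
    have h9 : (0 : ℝ) < (1 / 8 : ℝ) ^ l := by positivity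
    exact mul_le_mul_of_nonneg_right this h9.le
  · intro z hz
    exact (ps_hasSum hC ht (by norm_num : (0 : ℝ) ≤ 2) (by norm_num) (hv z hz)).mul_right _

lemma qt_pos (h1 : F1) (h4 : F4) (h6 : S6) {g : ℕ → ℂ} (hg : Gb (2 * eps) g) {t : ℕ → ℂ}
    {C : ℝ} (hC : 0 ≤ C) (ht : ∀ m, ‖t (m + 1)‖ ≤ C * 2 ^ (m + 1)) (j : ℕ) (hj : 1 ≤ j) :
    ci (1 / 8) (fun ζ => (∑' m : ℕ, t (m + 1) * (RR / Fm g ζ) ^ (m + 1)) *
      ζ ^ (-(j : ℤ) - 1)) = 0 := by
  have h := qt_hasSum h1 hg hC ht (-(j : ℤ) - 1)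
  refine h.unique ?_
  convert hasSum_zero using 1
  funext i
  rw [ci_pow_pos h4 h6 hg (i + 1) (by omega) j hj, mul_zero]

lemma qt_neg (h1 : F1) (h4 : F4) (h6 : S6) {g : ℕ → ℂ} (hg : Gb (2 * eps) g) {t : ℕ → ℂ}
    {C : ℝ} (hC : 0 ≤ C) (ht : ∀ m, ‖t (m + 1)‖ ≤ C * 2 ^ (m + 1)) (k : ℕ) :
    ci (1 / 8) (fun ζ => (∑' m : ℕ, t (m + 1) * (RR / Fm g ζ) ^ (m + 1)) *
      ζ ^ ((k : ℤ) - 1)) =
      ∑ m ∈ Finset.Icc 1 k, t m * (RR / rr : ℂ) ^ m * (ee g m k * (rr : ℂ) ^ k) := by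
  have h := qt_hasSum h1 hg hC ht ((k : ℤ) - 1)
  refine h.unique ?_
  have h2 : HasSum (fun m : ℕ => t (m + 1) * (RR / rr : ℂ) ^ (m + 1) *
        ci (1 / 8) (fun ζ => (rr / Fm g ζ) ^ (m + 1) * ζ ^ ((k : ℤ) - 1)))
      (∑ m ∈ Finset.range k, t (m + 1) * (RR / rr : ℂ) ^ (m + 1) *
        ci (1 / 8) (fun ζ => (rr / Fm g ζ) ^ (m + 1) * ζ ^ ((k : ℤ) - 1))) := by
    apply hasSum_sum_of_ne_finset_zero
    intro n hn
    rw [ci_pow_neg h4 h6 hg (n + 1) (by omega) k,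
      (ee_bound h6 hg).1 (n + 1) k (by simpa using hn)]
    ring
  convert h2 using 1
  have : Finset.Icc 1 k = Finset.Ico (0 + 1) (k + 1) := by
    ext x; simp only [Finset.mem_Icc, Finset.mem_Ico]; omega
  rw [this, ← Finset.sum_Ico_add' _ 0 k 1, ← Finset.range_eq_Ico]
  apply Finset.sum_congr rfl
  intro n _
  rw [ci_pow_neg h4 h6 hg (n + 1) (by omega) k]

/-! ### The kernels -/

lemma KQ_mul (κ : ℕ → ℕ → ℝ) (g : ℕ → ℂ) (j k : ℕ) (x : ℂ) :
    (j : ℂ) * (rr : ℂ) ^ (j + k) * (KQ κ g j k * x) =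
      ∑ m ∈ Finset.Icc 1 k, (rr : ℂ) ^ k * (RR / rr : ℂ) ^ m * ee g m k *
        ((j : ℂ) * rr ^ j * ∑ n ∈ Finset.Icc 1 j,
          (((RR / rr) ^ n * κ n m / n : ℝ) : ℂ) * ee g n j * x) := by
  unfold KQ
  rw [Finset.sum_mul, Finset.mul_sum]
  apply Finset.sum_congr rfl
  intro m _
  rw [Finset.sum_mul, Finset.mul_sum, Finset.mul_sum, Finset.mul_sum]
  apply Finset.sum_congr rfl
  intro n _
  push_cast
  ring

lemma KP_mul (κ : ℕ → ℕ → ℝ) (g : ℕ → ℂ) (j k : ℕ) (x : ℂ) :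
    (j : ℂ) * (rr : ℂ) ^ (j + k) * (KP κ g j k * x) =
      ∑ m ∈ Finset.Icc 1 k, (rr : ℂ) ^ k * (RR / rr : ℂ) ^ m * ee g m k *
        ((j : ℂ) * rr ^ j * ∑ n ∈ Finset.Icc 1 j,
          (((RR / rr) ^ n * κ n m / n : ℝ) : ℂ) * conj (ee g n j) * x) := by
  unfold KP
  rw [Finset.sum_mul, Finset.mul_sum]
  apply Finset.sum_congr rfl
  intro m _
  rw [Finset.sum_mul, Finset.mul_sum, Finset.mul_sum, Finset.mul_sum]
  apply Finset.sum_congr rfl
  intro n _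
  push_cast
  ring

end Pool.Agent.Stek.PF10

namespace Pool.Agent.Stek

open PF10

theorem f10 (h1 : F1) (h4 : F4) (h5a : F5a) (h5b : F5b) (h6 : S6) : F10 := by
  intro κE κO g p C hE hO hg hp
  have hC : 0 ≤ C := by simpa using (norm_nonneg _).trans (hp 0)
  have hr := rr_pos
  have hR := RR_pos
  have hrc : (rr : ℂ) ≠ 0 := by exact_mod_cast hr.ne'
  obtain ⟨f1, f2, f3, f4⟩ := h1 g hg
  obtain ⟨he0, heb⟩ := ee_bound h6 hg
  have ht : ∀ m, ‖qt κE κO p (m + 1)‖ ≤ C * 2 ^ (m + 1) := fun m => qt_bound hE hO hp (by omega)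
  have hp' : ∀ n, ‖p (n + 1)‖ ≤ C * 4 ^ (n + 1) := fun n => hp _
  have hfd : DifferentiableOn ℂ (fun x : ℂ => ∑' n, p (n + 1) * x ^ (n + 1)) (ball 0 (9 / 40)) :=
    ps_diff hC hp' (by norm_num) (by norm_num) (by norm_num)
  have hQd : DifferentiableOn ℂ (fun v : ℂ => ∑' m, qt κE κO p (m + 1) * v ^ (m + 1))
      (ball 0 (1 / 4)) :=
    ps_diff hC ht (by norm_num) (by norm_num) (by norm_num)
  set S : Set ℂ := {ζ | 1 / 100 < ‖ζ‖ ∧ ‖ζ‖ < 1 / 5} with hS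
  have hrr := rr_le
  have her := eps_rr
  have hFd : DifferentiableOn ℂ (Fm g) S := f1.mono (fun ζ hζ => by
    show rr < ‖ζ‖
    linarith [hζ.1])
  have hF1 : ∀ ζ ∈ S, ‖Fm g ζ‖ < 9 / 40 := by
    intro ζ hζ
    have e1 := f2 ζ (by linarith [hζ.1])
    have e2 : ‖Fm g ζ‖ ≤ ‖ζ‖ + ‖Fm g ζ - ζ‖ := by
      have := norm_add_le ζ (Fm g ζ - ζ)
      simpa using this
    linarith [hζ.2]
  have hF2 : ∀ ζ ∈ S, 1 / 200 < ‖Fm g ζ‖ := by
    intro ζ hζ
    have e1 := f2 ζ (by linarith [hζ.1])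
    have e2 : ‖ζ‖ - ‖Fm g ζ‖ ≤ ‖Fm g ζ - ζ‖ := by
      have := norm_sub_norm_le ζ (Fm g ζ)
      rwa [norm_sub_rev] at this
    linarith [hζ.1]
  have hF0 : ∀ ζ ∈ S, Fm g ζ ≠ 0 := by
    intro ζ hζ h0
    have := hF2 ζ hζ
    rw [h0, norm_zero] at this
    linarith
  have hF3 : ∀ ζ ∈ S, ‖(RR : ℂ) / Fm g ζ‖ < 1 / 4 := by
    intro ζ hζ
    rw [norm_div, norm_real, Real.norm_eq_abs, abs_of_pos hR,
      div_lt_iff₀ (by linarith [hF2 ζ hζ])]
    have : RR ≤ 1 / 1000 := by unfold RR; norm_num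
    linarith [hF2 ζ hζ]
  have hd1 : DifferentiableOn ℂ (fun ζ => ∑' n, p (n + 1) * Fm g ζ ^ (n + 1)) S :=
    hfd.comp hFd (fun ζ hζ => by simpa using hF1 ζ hζ)
  have hd2 : DifferentiableOn ℂ (fun ζ => ∑' m, qt κE κO p (m + 1) * (RR / Fm g ζ) ^ (m + 1)) S :=
    hQd.comp (DifferentiableOn.div (differentiableOn_const _) hFd hF0)
      (fun ζ hζ => by simpa using hF3 ζ hζ)
  refine ⟨hd1.add hd2, ?_⟩
  intro k hk
  -- the circle
  have hnorm : ∀ z ∈ sphere (0 : ℂ) (1 / 8), ‖z‖ = 1 / 8 := fun z hz => by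
    simpa using hz
  have hsub : sphere (0 : ℂ) (1 / 8) ⊆ S := by
    intro z hz
    have := hnorm z hz
    refine ⟨?_, ?_⟩ <;> rw [this] <;> norm_num
  have hne : ∀ z ∈ sphere (0 : ℂ) (1 / 8), z ≠ 0 := by
    intro z hz h0
    rw [h0] at hz
    simp at hz
  have hz_cont : ∀ l : ℤ, ContinuousOn (fun z : ℂ => z ^ l) (sphere (0 : ℂ) (1 / 8)) := by
    intro l z hz
    exact (continuousAt_zpow₀ z _ (Or.inl (hne z hz))).continuousWithinAt
  set c : ℤ → ℂ := fun k => ci (1 / 8)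
    (fun ζ => (∑' n, p (n + 1) * Fm g ζ ^ (n + 1)) * ζ ^ (-k - 1)) with hc
  have hsplit : ∀ l : ℤ, ci (1 / 8) (fun ζ => Hf κE κO g p ζ * ζ ^ l) =
      ci (1 / 8) (fun ζ => (∑' n, p (n + 1) * Fm g ζ ^ (n + 1)) * ζ ^ l) +
      ci (1 / 8) (fun ζ => (∑' m, qt κE κO p (m + 1) * (RR / Fm g ζ) ^ (m + 1)) * ζ ^ l) := by
    intro l
    have hadd := ci_add (ρ := 1 / 8) (by norm_num)
      (f := fun ζ => (∑' n, p (n + 1) * Fm g ζ ^ (n + 1)) * ζ ^ l)
      (g := fun ζ => (∑' m, qt κE κO p (m + 1) * (RR / Fm g ζ) ^ (m + 1)) * ζ ^ l)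
      ((hd1.continuousOn.mono hsub).mul (hz_cont l))
      ((hd2.continuousOn.mono hsub).mul (hz_cont l))
    rw [← hadd]
    apply ci_congr (by norm_num)
    intro z _
    rw [Hf]
    ring
  have hcj : ∀ j : ℕ, 1 ≤ j → ci (1 / 8) (fun ζ => Hf κE κO g p ζ * ζ ^ (-(j : ℤ) - 1)) = c j := by
    intro j hj
    rw [hsplit, qt_pos h1 h4 h6 hg hC ht j hj, add_zero]
  have hck : ci (1 / 8) (fun ζ => Hf κE κO g p ζ * ζ ^ ((k : ℤ) - 1)) = c (-k) +
      ∑ m ∈ Finset.Icc 1 k, qt κE κO p m * (RR / rr : ℂ) ^ m * (ee g m k * (rr : ℂ) ^ k) := by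
    rw [hsplit, qt_neg h1 h4 h6 hg hC ht k, hc]
    simp only [neg_neg]
  -- Taylor coefficients
  have htay : ∀ n : ℕ, 1 ≤ n → ci (1 / 8) (fun z => (∑' n, p (n + 1) * z ^ (n + 1)) *
      z ^ (-(n : ℤ) - 1)) = p n := by
    intro n hn
    have h := ci_hasSum (ρ := 1 / 8) (u := fun i => C * (4 * (1 / 8)) * (4 * (1 / 8)) ^ i *
        (1 / 8 : ℝ) ^ (-(n : ℤ) - 1))
      (F := fun (i : ℕ) (z : ℂ) => p (i + 1) * z ^ (i + 1) * z ^ (-(n : ℤ) - 1))
      (f := fun z => (∑' n, p (n + 1) * z ^ (n + 1)) * z ^ (-(n : ℤ) - 1)) (by norm_num)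
      ((ps_summable (K := C) (b := 4) (R := 1 / 8) (by norm_num) (by norm_num)
        (by norm_num)).mul_right _) ?_ ?_ ?_
    · refine h.unique ?_
      have h2 := hasSum_ite_eq (n - 1) (p n)
      refine h2.congr_fun (fun i => ?_)
      have e1 : ci (1 / 8) (fun z => p (i + 1) * z ^ (i + 1) * z ^ (-(n : ℤ) - 1)) =
          p (i + 1) * ci (1 / 8) (fun z => z ^ ((i : ℤ) - n)) := by
        rw [← ci_const_mul]
        apply ci_congr (by norm_num)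
        intro z hz
        rw [mul_assoc, ← zpow_natCast z (i + 1), ← zpow_add₀ (hne z hz)]
        congr 2
        push_cast
        ring
      show ci (1 / 8) (fun z => p (i + 1) * z ^ (i + 1) * z ^ (-(n : ℤ) - 1)) = _
      rw [e1, ci_zpow (by norm_num)]
      by_cases hi : i = n - 1
      · rw [if_pos (by omega), if_pos hi, mul_one]
        congr 1
        omega
      · rw [if_neg (by omega), if_neg hi, mul_zero]
    · intro i
      exact (ContinuousOn.mul continuousOn_const (by fun_prop)).mul (hz_cont _)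
    · intro i z hz
      rw [norm_mul, norm_zpow, hnorm z hz]
      have := ps_bound hC hp' (by norm_num : (0 : ℝ) ≤ 4) (hnorm z hz).le i
      have h9 : (0 : ℝ) < (1 / 8 : ℝ) ^ (-(n : ℤ) - 1) := by positivity
      exact mul_le_mul_of_nonneg_right this h9.le
    · intro z hz
      exact (ps_hasSum hC hp' (by norm_num : (0 : ℝ) ≤ 4) (by norm_num) (hnorm z hz).le).mul_right _
  -- bound of the coefficients
  have hcb : ∀ j : ℕ, ‖c j‖ ≤ (9 * C) * 8 ^ j := by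
    intro j
    have h := ci_norm_le (ρ := 1 / 8) (by norm_num)
      (f := fun ζ => (∑' n, p (n + 1) * Fm g ζ ^ (n + 1)) * ζ ^ (-(j : ℤ) - 1))
      (C := 9 * C * (8 * 8 ^ j)) ?_
    · refine h.trans ?_
      apply le_of_eq
      ring
    · intro z hz
      rw [norm_mul, norm_zpow, hnorm z hz]
      have e1 := ps_norm hC hp' (by norm_num : (0 : ℝ) ≤ 4) (R := 9 / 40) (by norm_num)
        (hF1 z (hsub hz)).le
      have e2 : (1 / 8 : ℝ) ^ (-(j : ℤ) - 1) = 8 * 8 ^ j := by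
        rw [one_div, inv_zpow, ← zpow_neg, show -(-(j : ℤ) - 1) = (j + 1 : ℕ) by push_cast; ring,
          zpow_natCast, pow_succ]
        ring
      rw [e2]
      have e3 : C * (4 * (9 / 40)) * (1 - 4 * (9 / 40))⁻¹ = 9 * C := by norm_num; ring
      rw [e3] at e1
      exact mul_le_mul_of_nonneg_right e1 (by positivity)
  have h5a' := h5a g hg _ (1 / 8) (9 / 40) hfd (by linarith) (by linarith) c (fun k => rfl) k hk
  have h5b' := fun n hn => h5b g hg _ (1 / 8) (9 / 40) hfd (by linarith) (by linarith) c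
    (fun k => rfl) n hn
  have hPE : ∀ n : ℕ, 1 ≤ n → HasSum (fun j : ℕ => if j < n then 0 else
      (j : ℂ) * rr ^ (j - n) * ee g n j * c j) (n * p n) := by
    intro n hn
    have := h5b' n hn
    rwa [htay n hn] at this
  have hPO : ∀ n : ℕ, 1 ≤ n → HasSum (fun j : ℕ => if j < n then 0 else
      (j : ℂ) * rr ^ (j - n) * conj (ee g n j) * conj (c j)) (n * conj (p n)) := by
    intro n hn
    have h := (hPE n hn).star
    have e1 : star ((n : ℂ) * p n) = n * conj (p n) := by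
      simp [mul_comm]
    rw [e1] at h
    refine h.congr_fun (fun j => ?_)
    split_ifs with hj
    · simp
    · simp [mul_comm]
  -- the two parts
  have hDE := fun m hm => dsum hE (m := m) hm (e := ee g) (a := fun j => c j) (P := p)
    (K := 9 * C) (by positivity) he0 heb hcb hPE
  have hDO := fun m hm => dsum hO (m := m) hm (e := fun n j => conj (ee g n j))
    (a := fun j => conj (c j)) (P := fun n => conj (p n))
    (K := 9 * C) (by positivity) (fun n j h => by simp [he0 n j h])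
    (fun n j h => by simpa using heb n j h) (fun j => by simpa using hcb j) hPO
  have hsum : HasSum (fun j : ℕ => ∑ m ∈ Finset.Icc 1 k, (rr : ℂ) ^ k * (RR / rr : ℂ) ^ m * ee g m k *
      (((j : ℂ) * rr ^ j * ∑ n ∈ Finset.Icc 1 j,
          (((RR / rr) ^ n * κE n m / n : ℝ) : ℂ) * ee g n j * c j) +
        ((j : ℂ) * rr ^ j * ∑ n ∈ Finset.Icc 1 j,
          (((RR / rr) ^ n * κO n m / n : ℝ) : ℂ) * conj (ee g n j) * conj (c j))))
      (∑ m ∈ Finset.Icc 1 k, (rr : ℂ) ^ k * (RR / rr : ℂ) ^ m * ee g m k * qt κE κO p m) := by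
    apply hasSum_sum
    intro m hm
    have hm1 : 1 ≤ m := (Finset.mem_Icc.1 hm).1
    apply HasSum.mul_left
    rw [qt_split hE hO hp hm1]
    exact (hDE m hm1).add (hDO m hm1)
  rw [hck]
  have hfin : ∑ m ∈ Finset.Icc 1 k, qt κE κO p m * (RR / rr : ℂ) ^ m * (ee g m k * (rr : ℂ) ^ k) =
      ∑ m ∈ Finset.Icc 1 k, (rr : ℂ) ^ k * (RR / rr : ℂ) ^ m * ee g m k * qt κE κO p m := by
    apply Finset.sum_congr rfl
    intro m _
    ring
  rw [hfin]
  refine (h5a'.add hsum).congr_fun (fun j => ?_)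
  rcases Nat.eq_zero_or_pos j with hj | hj
  · subst hj
    simp
  · rw [hcj j hj]
    have hB : (rr : ℂ) ^ 2 * Bk κO g j k = KP κO g j k := by
      unfold Bk
      field_simp
    rw [hB]
    unfold Ak
    have e1 := KQ_mul κE g j k (c j)
    have e2 := KP_mul κO g j k (conj (c j))
    have e3 : ∑ m ∈ Finset.Icc 1 k, (rr : ℂ) ^ k * (RR / rr : ℂ) ^ m * ee g m k *
      (((j : ℂ) * rr ^ j * ∑ n ∈ Finset.Icc 1 j,
          (((RR / rr) ^ n * κE n m / n : ℝ) : ℂ) * ee g n j * c j) +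
        ((j : ℂ) * rr ^ j * ∑ n ∈ Finset.Icc 1 j,
          (((RR / rr) ^ n * κO n m / n : ℝ) : ℂ) * conj (ee g n j) * conj (c j))) =
      (j : ℂ) * (rr : ℂ) ^ (j + k) * (KQ κE g j k * c j) +
      (j : ℂ) * (rr : ℂ) ^ (j + k) * (KP κO g j k * conj (c j)) := by
      rw [e1, e2, ← Finset.sum_add_distrib]
      apply Finset.sum_congr rfl
      intro m _
      ring
    rw [e3]
    ring

end Pool.Agent.Stek
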