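import Pool.Agent.Stek.TSeq
import Pool.Agent.Stek.TFun

/-!
# F11: from a solution of the equations for the coefficients to a function
-/

open scoped BigOperators ComplexConjugate Topology ContDiff
open Complex Metric

noncomputable section

namespace Pool.Agent.Stek

namespace PF11

/-! ### Circle integrals of Laurent series -/

/-- termwise integration -/
theorem ci_hasSum {ρ : ℝ} (hρ : 0 < ρ) (F : ℕ → ℂ → ℂ) (f : ℂ → ℂ) (bd : ℕ → ℝ)
    (hbd : Summable bd) (hc : ∀ j, ContinuousOn (F j) (sphere 0 ρ))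
    (hb : ∀ j z, ‖z‖ = ρ → ‖F j z‖ ≤ bd j)
    (hs : ∀ z, ‖z‖ = ρ → HasSum (fun j => F j z) (f z)) :
    HasSum (fun j => ci ρ (F j)) (ci ρ f) := by
  have hmem : ∀ θ : ℝ, circleMap 0 ρ θ ∈ sphere (0 : ℂ) ρ := fun θ => by
    rw [mem_sphere_zero_iff_norm, norm_circleMap_zero, abs_of_pos hρ]
  have hnorm : ∀ θ : ℝ, ‖circleMap 0 ρ θ‖ = ρ := fun θ => by
    rw [norm_circleMap_zero, abs_of_pos hρ]
  unfold ci
  apply HasSum.mul_left
  unfold circleIntegral
  refine intervalIntegral.hasSum_integral_of_dominated_convergence (fun j _ => ρ * bd j) ?_ ?_ ?_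
    ?_ ?_
  · intro j
    apply Continuous.aestronglyMeasurable
    have h1 : Continuous fun θ : ℝ => F j (circleMap 0 ρ θ) :=
      (hc j).comp_continuous (continuous_circleMap 0 ρ) hmem
    have h2 : Continuous (deriv (circleMap 0 ρ)) := by
      have : deriv (circleMap 0 ρ) = fun θ => circleMap 0 ρ θ * I := by
        funext θ
        exact deriv_circleMap 0 ρ θ
      rw [this]
      exact (continuous_circleMap 0 ρ).mul continuous_const
    exact h2.smul h1
  · intro j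
    refine Filter.Eventually.of_forall fun θ _ => ?_
    rw [norm_smul, deriv_circleMap, norm_mul, norm_I, mul_one, hnorm]
    exact mul_le_mul_of_nonneg_left (hb j _ (hnorm θ)) hρ.le
  · exact Filter.Eventually.of_forall fun θ _ => hbd.mul_left ρ
  · exact intervalIntegrable_const
  · refine Filter.Eventually.of_forall fun θ _ => ?_
    exact (hs _ (hnorm θ)).const_smul _

theorem ci_zpow {ρ : ℝ} (hρ : 0 < ρ) (c : ℂ) (m : ℤ) :
    ci ρ (fun z => c * z ^ m) = if m = -1 then c else 0 := by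
  unfold ci
  have h : (∮ z in C(0, ρ), c * z ^ m) = c * ∮ z in C(0, ρ), z ^ m := by
    simp only [← smul_eq_mul]
    exact circleIntegral.integral_smul c _ _ _
  rw [h]
  split_ifs with hm
  · subst hm
    have h2 : (∮ z in C(0, ρ), (z : ℂ) ^ (-1 : ℤ)) = 2 * Real.pi * I := by
      have := circleIntegral.integral_sub_center_inv (0 : ℂ) hρ.ne'
      simpa using this
    rw [h2]
    field_simp
  · have h2 : (∮ z in C(0, ρ), (z : ℂ) ^ m) = 0 := by
      have := circleIntegral.integral_sub_zpow_of_ne hm (0 : ℂ) 0 ρ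
      simpa using this
    rw [h2]
    simp

theorem ci_congr {ρ : ℝ} (hρ : 0 < ρ) {f g : ℂ → ℂ} (h : ∀ z, ‖z‖ = ρ → f z = g z) :
    ci ρ f = ci ρ g := by
  unfold ci
  rw [circleIntegral.integral_congr hρ.le fun z hz => h z (by simpa using hz)]

theorem ci_add {ρ : ℝ} (hρ : 0 < ρ) {f g : ℂ → ℂ} (hf : ContinuousOn f (sphere 0 ρ))
    (hg : ContinuousOn g (sphere 0 ρ)) : ci ρ (fun z => f z + g z) = ci ρ f + ci ρ g := by
  unfold ci
  rw [circleIntegral.integral_add (hf.circleIntegrable hρ.le) (hg.circleIntegrable hρ.le), mul_add]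

theorem ne_zero_of_norm {ρ : ℝ} (hρ : 0 < ρ) {z : ℂ} (hz : ‖z‖ = ρ) : z ≠ 0 := by
  rintro rfl
  rw [norm_zero] at hz
  exact hρ.ne hz

theorem cont_zpow {ρ : ℝ} (hρ : 0 < ρ) (c : ℂ) (m : ℤ) :
    ContinuousOn (fun z : ℂ => c * z ^ m) (sphere 0 ρ) := by
  refine continuousOn_const.mul (ContinuousOn.zpow₀ continuousOn_id m fun z hz => Or.inl ?_)
  exact ne_zero_of_norm hρ (by simpa using hz)

/-- coefficients of a Laurent series -/
theorem ci_laurent {ρ : ℝ} (hρ : 0 < ρ) (u v : ℕ → ℂ) (h : ℂ → ℂ)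
    (hs1 : Summable fun j => ‖u j‖ * ρ ^ j) (hs2 : Summable fun j => ‖v j‖ * (ρ⁻¹) ^ j)
    (hv : v 0 = 0)
    (hh : ∀ z, ‖z‖ = ρ → HasSum (fun j => u j * z ^ j + v j * (z⁻¹) ^ j) (h z)) :
    (∀ n : ℕ, ci ρ (fun z => h z * z ^ (-(n : ℤ) - 1)) = u n) ∧
    (∀ n : ℕ, 1 ≤ n → ci ρ (fun z => h z * z ^ ((n : ℤ) - 1)) = v n) := by
  have hterm : ∀ (m : ℤ) (j : ℕ) (z : ℂ), z ≠ 0 →
      (u j * z ^ j + v j * (z⁻¹) ^ j) * z ^ m = u j * z ^ ((j : ℤ) + m) +
        v j * z ^ (-(j : ℤ) + m) := by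
    intro m j z hz
    rw [zpow_add₀ hz, zpow_add₀ hz, zpow_natCast, zpow_neg, zpow_natCast, inv_pow]
    ring
  have key : ∀ m : ℤ, HasSum (fun j : ℕ => (if (j : ℤ) + m = -1 then u j else 0) +
      (if -(j : ℤ) + m = -1 then v j else 0)) (ci ρ (fun z => h z * z ^ m)) := by
    intro m
    have h1 := ci_hasSum hρ (fun j z => u j * z ^ ((j : ℤ) + m) + v j * z ^ (-(j : ℤ) + m))
      (fun z => h z * z ^ m) (fun j => (‖u j‖ * ρ ^ j + ‖v j‖ * (ρ⁻¹) ^ j) * ρ ^ m)
      ((hs1.add hs2).mul_right _)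
      (fun j => (cont_zpow hρ _ _).add (cont_zpow hρ _ _)) ?_ ?_
    · have e : (fun j : ℕ => (if (j : ℤ) + m = -1 then u j else 0) +
          (if -(j : ℤ) + m = -1 then v j else 0)) = fun j : ℕ =>
          ci ρ (fun z => u j * z ^ ((j : ℤ) + m) + v j * z ^ (-(j : ℤ) + m)) := by
        funext j
        rw [ci_add hρ (cont_zpow hρ _ _) (cont_zpow hρ _ _), ci_zpow hρ, ci_zpow hρ]
      rw [e]
      exact h1
    · intro j z hz
      have hz0 := ne_zero_of_norm hρ hz
      rw [← hterm m j z hz0, norm_mul, norm_zpow, hz]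
      refine mul_le_mul_of_nonneg_right ?_ (by positivity)
      refine (norm_add_le _ _).trans ?_
      rw [norm_mul, norm_mul, norm_pow, norm_pow, norm_inv, hz]
    · intro z hz
      have hz0 := ne_zero_of_norm hρ hz
      have h2 := (hh z hz).mul_right (z ^ m)
      simp only [hterm m _ z hz0] at h2
      exact h2
  refine ⟨fun n => ?_, fun n hn => ?_⟩
  · have h1 := key (-(n : ℤ) - 1)
    have e : (fun j : ℕ => (if (j : ℤ) + (-(n : ℤ) - 1) = -1 then u j else 0) +
        (if -(j : ℤ) + (-(n : ℤ) - 1) = -1 then v j else 0)) =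
        fun j : ℕ => if j = n then u n else 0 := by
      funext j
      by_cases hj : j = n
      · subst hj
        rw [if_pos (by ring), if_pos rfl]
        split_ifs with h
        · have : j = 0 := by omega
          rw [this, hv, add_zero]
        · rw [add_zero]
      · rw [if_neg (by omega), if_neg (by omega), if_neg hj, add_zero]
    rw [e] at h1
    exact h1.unique (hasSum_ite_eq n (u n))
  · have h1 := key ((n : ℤ) - 1)
    have e : (fun j : ℕ => (if (j : ℤ) + ((n : ℤ) - 1) = -1 then u j else 0) +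
        (if -(j : ℤ) + ((n : ℤ) - 1) = -1 then v j else 0)) =
        fun j : ℕ => if j = n then v n else 0 := by
      funext j
      by_cases hj : j = n
      · subst hj
        rw [if_neg (by omega), if_pos (by ring), if_pos rfl, zero_add]
      · rw [if_neg (by omega), if_neg (by omega), if_neg hj, add_zero]
    rw [e] at h1
    exact h1.unique (hasSum_ite_eq n (v n))

/-! ### Laurent series in the annulus -/

/-- the annulus -/
def Ann : Set ℂ := {ζ | 1 / 100 < ‖ζ‖ ∧ ‖ζ‖ < 5 / 4}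

theorem isOpen_Ann : IsOpen Ann :=
  (isOpen_lt continuous_const continuous_norm).inter (isOpen_lt continuous_norm continuous_const)

theorem ne_zero_of_mem {z : ℂ} (hz : z ∈ Ann) : z ≠ 0 := by
  rintro rfl
  have := hz.1
  rw [norm_zero] at this
  norm_num at this

/-- a holomorphic function given by a Laurent series and its derivative -/
theorem laurent_diff (u v : ℕ → ℂ) (H : ℂ → ℂ) (hs : Summable fun j => ‖u j‖ * (5 / 4) ^ j +
    ‖v j‖ * 100 ^ j) (hH : ∀ z ∈ Ann, HasSum (fun j => u j * z ^ j + v j * (z⁻¹) ^ j) (H z)) :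
    DifferentiableOn ℂ H Ann ∧ ∀ z ∈ Ann,
      HasSum (fun j : ℕ => (j : ℂ) * u j * z ^ j - (j : ℂ) * v j * (z⁻¹) ^ j) (z * deriv H z) := by
  have hF : ∀ j : ℕ, DifferentiableOn ℂ (fun z => u j * z ^ j + v j * (z⁻¹) ^ j) Ann := fun j =>
    ((differentiableOn_const _).mul (differentiableOn_id.pow j)).add
      ((differentiableOn_const _).mul ((differentiableOn_id.inv fun z hz => ne_zero_of_mem hz).pow j))
  have hb : ∀ (j : ℕ) (z : ℂ), z ∈ Ann → ‖u j * z ^ j + v j * (z⁻¹) ^ j‖ ≤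
      ‖u j‖ * (5 / 4) ^ j + ‖v j‖ * 100 ^ j := by
    intro j z hz
    refine (norm_add_le _ _).trans ?_
    rw [norm_mul, norm_mul, norm_pow, norm_pow, norm_inv]
    have h1 : ‖z‖ ≤ 5 / 4 := hz.2.le
    have h2 : ‖z‖⁻¹ ≤ 100 := by
      rw [inv_le_comm₀ (norm_pos_iff.mpr (ne_zero_of_mem hz)) (by norm_num)]
      have := hz.1
      norm_num at this ⊢
      exact this.le
    gcongr
  have heq : ∀ z ∈ Ann, H z = ∑' j : ℕ, (u j * z ^ j + v j * (z⁻¹) ^ j) := fun z hz =>
    (hH z hz).tsum_eq.symm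
  have hd := differentiableOn_tsum_of_summable_norm hs hF isOpen_Ann hb
  refine ⟨hd.congr heq, fun z hz => ?_⟩
  have h1 := hasSum_deriv_of_summable_norm hs hF isOpen_Ann hb hz
  have h2 : deriv H z = deriv (fun w => ∑' j : ℕ, (u j * w ^ j + v j * (w⁻¹) ^ j)) z := by
    apply Filter.EventuallyEq.deriv_eq
    exact Filter.eventually_of_mem (isOpen_Ann.mem_nhds hz) heq
  rw [h2]
  have h3 := h1.mul_left z
  have e : (fun j : ℕ => (j : ℂ) * u j * z ^ j - (j : ℂ) * v j * (z⁻¹) ^ j) =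
      fun j : ℕ => z * deriv (fun w : ℂ => u j * w ^ j + v j * (w⁻¹) ^ j) z := by
    funext j
    have hz0 := ne_zero_of_mem hz
    have h4 : HasDerivAt (fun w : ℂ => u j * w ^ j + v j * (w⁻¹) ^ j)
        (u j * (j * z ^ (j - 1)) + v j * (j * (z⁻¹) ^ (j - 1) * (-(z ^ 2)⁻¹))) z :=
      ((hasDerivAt_pow j z).const_mul _).add
        ((((hasDerivAt_inv hz0).pow j)).const_mul _)
    rw [h4.deriv]
    rcases Nat.eq_zero_or_pos j with hj | hj
    · subst hj
      simp
    · obtain ⟨i, rfl⟩ := Nat.exists_eq_succ_of_ne_zero hj.ne'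
      simp only [Nat.succ_eq_add_one, Nat.add_sub_cancel]
      push_cast
      have hw : z * z⁻¹ = 1 := mul_inv_cancel₀ hz0
      have hw2 : (z ^ 2)⁻¹ = z⁻¹ ^ 2 := by rw [inv_pow]
      rw [hw2]
      generalize z⁻¹ = w at *
      linear_combination ((i : ℂ) + 1) * v (i + 1) * w ^ (i + 1) * hw
  rw [e]
  exact h3

/-! ### Bounds -/

theorem rr_pos : 0 < rr := by norm_num [rr]
theorem rr_le : rr ≤ 1 / 1000 := by norm_num [rr]

theorem summable_SJ : Summable fun j : ℕ => (j : ℝ) * (1 / 3) ^ j := by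
  have := summable_pow_mul_geometric_of_norm_lt_one 1 (r := (1 / 3 : ℝ)) (by norm_num)
  simpa using this

/-- the sum of `j / 3 ^ j` -/
def SJ : ℝ := ∑' j : ℕ, (j : ℝ) * (1 / 3) ^ j

theorem SJ_nonneg : 0 ≤ SJ := tsum_nonneg fun j => by positivity

theorem bounds_AB (s3 : S3) (s9 : S9) {κE κO : ℕ → ℕ → ℝ} {g : ℕ → ℂ} (hE : Kap κE) (hO : Kap κO)
    (hg : Gb (2 * eps) g) (j k : ℕ) (hj : 1 ≤ j) (hk : 1 ≤ k) :
    ‖gam g j k‖ ≤ 1 ∧ ‖Ak κE g j k‖ ≤ 1 ∧ ‖Bk κO g j k‖ ≤ 1 := by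
  have hM : 2 * eps ≤ 1 / 100 := by norm_num [eps]
  have hgam := (s3 (2 * eps) 0 g g hM hg hg).1 j k hj hk
  obtain ⟨hQ, -⟩ := s9 κE κE (2 * eps) 0 0 g g hE hE hM hg hg le_rfl le_rfl
  obtain ⟨-, hP, -⟩ := s9 κO κO (2 * eps) 0 0 g g hO hO hM hg hg le_rfl le_rfl
  have hQ' := hQ j k hj hk
  have hP' := hP j k hj hk
  have j1 : (1 : ℝ) ≤ j := by exact_mod_cast hj
  have k1 : (1 : ℝ) ≤ k := by exact_mod_cast hk
  have e1 : 11 / 10 * (2 * eps) / ((j : ℝ) + k) ^ 3 ≤ 1 / 2 := by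
    have : (1 : ℝ) ≤ ((j : ℝ) + k) ^ 3 := one_le_pow₀ (by linarith)
    have e0 : 0 < eps := by norm_num [eps]
    calc 11 / 10 * (2 * eps) / ((j : ℝ) + k) ^ 3 ≤ 11 / 10 * (2 * eps) / 1 := by gcongr
      _ ≤ 1 / 2 := by norm_num [eps]
  have e2 : ∀ x : ℝ, 0 ≤ x → x / ((j : ℝ) * k) ^ 3 ≤ x := fun x hx => by
    have : (1 : ℝ) ≤ ((j : ℝ) * k) ^ 3 := one_le_pow₀ (by nlinarith)
    exact div_le_self hx this
  have hQ2 : ‖KQ κE g j k‖ ≤ 1 / 2 :=
    (hQ'.trans (e2 _ (by positivity))).trans (by norm_num [RR, rr])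
  have hP2 : ‖KP κO g j k‖ ≤ rr ^ 2 :=
    (hP'.trans (e2 _ (by positivity))).trans (by norm_num [RR, rr])
  refine ⟨by linarith, ?_, ?_⟩
  · unfold Ak
    refine (norm_add_le _ _).trans ?_
    rw [norm_neg]
    linarith
  · unfold Bk
    rw [norm_div, norm_pow, norm_real, Real.norm_of_nonneg rr_pos.le]
    exact div_le_one_of_le₀ hP2 (by positivity)

theorem sum_bound {A B : ℕ → ℕ → ℂ} (hA : ∀ j k, 1 ≤ j → 1 ≤ k → ‖A j k‖ ≤ 1)
    (hB : ∀ j k, 1 ≤ j → 1 ≤ k → ‖B j k‖ ≤ 1) {a : ℕ → ℂ} {C0 : ℝ} (ha : ∀ k, ‖a k‖ ≤ C0)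
    {k : ℕ} (hk : 1 ≤ k) {d : ℂ}
    (hd : HasSum (fun j : ℕ => (j : ℂ) * rr ^ (j + k) *
      (A j k * a j + rr ^ 2 * B j k * conj (a j))) d) : ‖d‖ ≤ 2 * C0 * SJ * rr ^ k := by
  have hC0 : 0 ≤ C0 := (norm_nonneg _).trans (ha 0)
  have hr := rr_pos
  have hr1 := rr_le
  have h1 : HasSum (fun j : ℕ => 2 * C0 * rr ^ k * ((j : ℝ) * (1 / 3) ^ j))
      (2 * C0 * rr ^ k * SJ) := summable_SJ.hasSum.mul_left _
  have h2 : ∀ j : ℕ, ‖(j : ℂ) * rr ^ (j + k) * (A j k * a j + rr ^ 2 * B j k * conj (a j))‖ ≤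
      2 * C0 * rr ^ k * ((j : ℝ) * (1 / 3) ^ j) := by
    intro j
    rcases Nat.eq_zero_or_pos j with hj | hj
    · subst hj
      simp
    rw [norm_mul, norm_mul, norm_pow, norm_real, Real.norm_of_nonneg hr.le, norm_natCast]
    have h3 : ‖A j k * a j + (rr : ℂ) ^ 2 * B j k * conj (a j)‖ ≤ 2 * C0 := by
      refine (norm_add_le _ _).trans ?_
      rw [norm_mul, norm_mul, norm_mul, norm_pow, norm_real, Real.norm_of_nonneg hr.le, norm_conj]
      have e1 : ‖A j k‖ * ‖a j‖ ≤ 1 * C0 := mul_le_mul (hA j k hj hk) (ha j) (norm_nonneg _)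
        zero_le_one
      have e2 : rr ^ 2 * ‖B j k‖ * ‖a j‖ ≤ 1 * C0 := by
        refine mul_le_mul ?_ (ha j) (norm_nonneg _) zero_le_one
        have e3 : rr ^ 2 ≤ 1 := pow_le_one₀ hr.le (by linarith)
        exact mul_le_one₀ e3 (norm_nonneg _) (hB j k hj hk)
      linarith
    have h4 : rr ^ j ≤ (1 / 3) ^ j := pow_le_pow_left₀ hr.le (by linarith) j
    calc (j : ℝ) * rr ^ (j + k) * ‖A j k * a j + (rr : ℂ) ^ 2 * B j k * conj (a j)‖
        ≤ (j : ℝ) * rr ^ (j + k) * (2 * C0) := by gcongr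
      _ = 2 * C0 * rr ^ k * ((j : ℝ) * rr ^ j) := by rw [pow_add]; ring
      _ ≤ _ := by gcongr
  have h5 := tsum_of_norm_bounded h1 h2
  rw [hd.tsum_eq] at h5
  linarith

/-- decay of the coefficients -/
theorem decay {A B : ℕ → ℕ → ℂ} (hA : ∀ j k, 1 ≤ j → 1 ≤ k → ‖A j k‖ ≤ 1)
    (hB : ∀ j k, 1 ≤ j → 1 ≤ k → ‖B j k‖ ≤ 1) {a : ℕ → ℂ} {C0 : ℝ} (ha : ∀ k, ‖a k‖ ≤ C0)
    (σ : ℝ) (h : ∀ k : ℕ, 1 ≤ k → ∃ d : ℂ,
      HasSum (fun j : ℕ => (j : ℂ) * rr ^ (j + k) *
        (A j k * a j + rr ^ 2 * B j k * conj (a j))) d ∧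
      ((k : ℂ) - σ) * a k = (k + σ) * conj d) : ∃ C : ℝ, 0 ≤ C ∧ ∀ k, ‖a k‖ ≤ C / 3 ^ k := by
  have hC0 : 0 ≤ C0 := (norm_nonneg _).trans (ha 0)
  have hS := SJ_nonneg
  have hr := rr_pos
  have hr1 := rr_le
  obtain ⟨N, hN⟩ := exists_nat_ge (2 * |σ| + 1)
  refine ⟨C0 * 3 ^ N + 6 * C0 * SJ, by positivity, fun k => ?_⟩
  rw [le_div_iff₀ (by positivity)]
  rcases Nat.lt_or_ge k N with hk | hk
  · calc ‖a k‖ * 3 ^ k ≤ C0 * 3 ^ N :=
          mul_le_mul (ha k) (pow_le_pow_right₀ (by norm_num) hk.le) (by positivity) hC0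
      _ ≤ _ := by
        have : 0 ≤ 6 * C0 * SJ := by positivity
        linarith
  · have hkN : (N : ℝ) ≤ k := by exact_mod_cast hk
    have h0 := abs_nonneg σ
    have hk1 : 1 ≤ k := by
      have : (1 : ℝ) ≤ k := by linarith
      exact_mod_cast this
    have hkpos : (0 : ℝ) < k := by linarith
    obtain ⟨d, hd1, hd2⟩ := h k hk1
    have hd3 := sum_bound hA hB ha hk1 hd1
    have h1 : (k : ℝ) / 2 ≤ ‖(k : ℂ) - σ‖ := by
      have : ‖((k : ℝ) : ℂ) - (σ : ℂ)‖ = |(k : ℝ) - σ| := by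
        rw [← ofReal_sub, norm_real, Real.norm_eq_abs]
      rw [ofReal_natCast] at this
      rw [this]
      have := le_abs_self ((k : ℝ) - σ)
      have := le_abs_self σ
      linarith
    have h2 : ‖(k : ℂ) + σ‖ ≤ 3 / 2 * k := by
      have : ‖((k : ℝ) : ℂ) + (σ : ℂ)‖ = |(k : ℝ) + σ| := by
        rw [← ofReal_add, norm_real, Real.norm_eq_abs]
      rw [ofReal_natCast] at this
      rw [this]
      refine (abs_add_le _ _).trans ?_
      rw [abs_of_pos hkpos]
      linarith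
    have h3 : (k : ℝ) / 2 * ‖a k‖ ≤ 3 / 2 * k * ‖d‖ := by
      calc (k : ℝ) / 2 * ‖a k‖ ≤ ‖(k : ℂ) - σ‖ * ‖a k‖ := by gcongr
        _ = ‖((k : ℂ) - σ) * a k‖ := (norm_mul _ _).symm
        _ = ‖(k : ℂ) + σ‖ * ‖d‖ := by rw [hd2, norm_mul, norm_conj]
        _ ≤ _ := by gcongr
    have h4 : ‖a k‖ ≤ 3 * ‖d‖ := by
      by_contra hcon
      push Not at hcon
      nlinarith
    have h5 : rr ^ k * 3 ^ k ≤ 1 := by
      rw [← mul_pow]
      exact pow_le_one₀ (by positivity) (by linarith)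
    calc ‖a k‖ * 3 ^ k ≤ 3 * (2 * C0 * SJ * rr ^ k) * 3 ^ k := by
          refine mul_le_mul_of_nonneg_right (h4.trans ?_) (by positivity)
          linarith
      _ = 6 * C0 * SJ * (rr ^ k * 3 ^ k) := by ring
      _ ≤ 6 * C0 * SJ * 1 := by gcongr
      _ ≤ _ := by
        have : 0 ≤ C0 * 3 ^ N := by positivity
        linarith

/-! ### Expansions -/

theorem taylor {f : ℂ → ℂ} (hf : DifferentiableOn ℂ f (ball 0 (3 / 2))) :
    ∃ (p : ℕ → ℂ) (C : ℝ), 0 ≤ C ∧ (∀ n, ‖p n‖ ≤ C * (5 / 7) ^ n) ∧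
      ∀ z, ‖z‖ < 7 / 5 → HasSum (fun n => p n * z ^ n) (f z) := by
  have hR : ((7 / 5 : NNReal) : ℝ) = 7 / 5 := by norm_num
  have hd : DifferentiableOn ℂ f (closedBall 0 ((7 / 5 : NNReal) : ℝ)) :=
    hf.mono (closedBall_subset_ball (by rw [hR]; norm_num))
  have hp := hd.hasFPowerSeriesOnBall (by norm_num)
  refine ⟨(cauchyPowerSeries f 0 (7 / 5 : NNReal)).coeff,
    (2 * Real.pi)⁻¹ * ∫ θ : ℝ in 0..2 * Real.pi, ‖f (circleMap 0 (7 / 5 : NNReal) θ)‖, ?_, ?_, ?_⟩
  · have hpi := Real.pi_pos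
    have := intervalIntegral.integral_nonneg (μ := MeasureTheory.volume)
      (f := fun θ : ℝ => ‖f (circleMap 0 (7 / 5 : NNReal) θ)‖) (a := 0)
      (b := 2 * Real.pi) (by positivity) (fun θ _ => norm_nonneg _)
    positivity
  · intro n
    rw [← FormalMultilinearSeries.norm_apply_eq_norm_coef]
    refine (norm_cauchyPowerSeries_le f 0 _ n).trans (le_of_eq ?_)
    rw [hR]
    norm_num
  · intro z hz
    have h1 := hp.hasSum (y := z) (by
      rw [Metric.eball_coe, mem_ball_zero_iff, hR]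
      exact hz)
    rw [zero_add] at h1
    have e : (fun n => (cauchyPowerSeries f 0 (7 / 5 : NNReal)).coeff n * z ^ n) =
        fun n => (cauchyPowerSeries f 0 (7 / 5 : NNReal)) n fun _ => z := by
      funext n
      rw [FormalMultilinearSeries.apply_eq_pow_smul_coeff, smul_eq_mul, mul_comm]
    rw [e]
    exact h1

theorem qt_bound {κE κO : ℕ → ℕ → ℝ} (hE : Kap κE) (hO : Kap κO) {p : ℕ → ℂ} {C : ℝ}
    (hC : 0 ≤ C) (hp : ∀ n, ‖p n‖ ≤ C * (5 / 7) ^ n) (m : ℕ) (hm : 1 ≤ m) :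
    ‖qt κE κO p m‖ ≤ 12 * C * 2 ^ m := by
  have hR : 0 < RR := by norm_num [RR]
  have hR2 : 2 * RR ≤ 1 / 2 := by norm_num [RR]
  have h1 : HasSum (fun n : ℕ => 6 * C * 2 ^ m * (1 / 2 : ℝ) ^ n) (6 * C * 2 ^ m * 2) :=
    hasSum_geometric_two.mul_left _
  have h2 : ∀ n : ℕ, ‖(RR : ℂ) ^ (n + 1) * ((κE (n + 1) m : ℂ) * p (n + 1) +
      (κO (n + 1) m : ℂ) * conj (p (n + 1)))‖ ≤ 6 * C * 2 ^ m * (1 / 2 : ℝ) ^ n := by
    intro n
    have e1 : |κE (n + 1) m| ≤ 3 * 2 ^ (n + 1 + m) := hE _ _ (by omega) hm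
    have e2 : |κO (n + 1) m| ≤ 3 * 2 ^ (n + 1 + m) := hO _ _ (by omega) hm
    have e3 : ‖p (n + 1)‖ ≤ C := by
      refine (hp _).trans ?_
      have : ((5 : ℝ) / 7) ^ (n + 1) ≤ 1 := pow_le_one₀ (by norm_num) (by norm_num)
      nlinarith
    rw [norm_mul, norm_pow, norm_real, Real.norm_of_nonneg hR.le]
    have e4 : ‖(κE (n + 1) m : ℂ) * p (n + 1) + (κO (n + 1) m : ℂ) * conj (p (n + 1))‖ ≤
        3 * 2 ^ (n + 1 + m) * C + 3 * 2 ^ (n + 1 + m) * C := by
      refine (norm_add_le _ _).trans ?_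
      rw [norm_mul, norm_mul, norm_real, norm_real, norm_conj, Real.norm_eq_abs, Real.norm_eq_abs]
      gcongr
    have e5 : (2 * RR) ^ (n + 1) ≤ (1 / 2) ^ n := by
      calc (2 * RR) ^ (n + 1) ≤ (1 / 2) ^ (n + 1) := by gcongr
        _ ≤ (1 / 2) ^ n := pow_le_pow_of_le_one (by norm_num) (by norm_num) (by omega)
    calc RR ^ (n + 1) * ‖(κE (n + 1) m : ℂ) * p (n + 1) + (κO (n + 1) m : ℂ) * conj (p (n + 1))‖
        ≤ RR ^ (n + 1) * (3 * 2 ^ (n + 1 + m) * C + 3 * 2 ^ (n + 1 + m) * C) := by gcongr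
      _ = 6 * C * 2 ^ m * (2 * RR) ^ (n + 1) := by rw [mul_pow, pow_add 2 (n + 1) m]; ring
      _ ≤ _ := by gcongr
  have h3 := tsum_of_norm_bounded h1 h2
  unfold qt
  linarith

theorem second (h4 : F4) (s6 : S6) {g : ℕ → ℂ} (hg : Gb (2 * eps) g) {q : ℕ → ℂ} {Cq : ℝ}
    (hCq : 0 ≤ Cq) (hq : ∀ m, 1 ≤ m → ‖q m‖ ≤ Cq * 2 ^ m) :
    ∃ e : ℕ → ℂ, e 0 = 0 ∧ (∀ k, ‖e k‖ ≤ Cq * rr ^ k) ∧ ∀ ζ : ℂ, 1 / 100 < ‖ζ‖ →
      HasSum (fun k => e k * (ζ⁻¹) ^ k) (∑' m : ℕ, q (m + 1) * (RR / Fm g ζ) ^ (m + 1)) := by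
  have hM : 2 * eps ≤ 1 / 100 := by norm_num [eps]
  obtain ⟨z1, -, z3, -⟩ := s6 (2 * eps) 0 g g hM hg hg
  have hr := rr_pos
  have hr1 := rr_le
  have hR : 0 < RR := by norm_num [RR]
  have hRr : 40 * (RR / rr) ≤ 1 / 2 := by norm_num [RR, rr]
  have hRr0 : 0 < RR / rr := by positivity
  have hee : ∀ m k : ℕ, ‖ee g (m + 1) k‖ ≤ 20 ^ (m + 1) := by
    intro m k
    rcases Nat.eq_zero_or_pos k with hk | hk
    · rw [hk, z1 (m + 1) 0 (by omega), norm_zero]
      positivity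
    · refine (z3 (m + 1) k (by omega) hk).trans ?_
      have k1 : (1 : ℝ) ≤ (k : ℝ) ^ 3 := one_le_pow₀ (by exact_mod_cast hk)
      refine (div_le_self (by positivity) k1).trans ?_
      exact pow_le_pow_right₀ (by norm_num) (by omega)
  -- the coefficients
  set t : ℕ → ℕ → ℂ := fun m k => q (m + 1) * (RR / rr : ℂ) ^ (m + 1) * ee g (m + 1) k with ht
  have htb : ∀ m k : ℕ, ‖t m k‖ ≤ Cq / 2 * (1 / 2) ^ m := by
    intro m k
    have e1 : ‖(RR / rr : ℂ)‖ = RR / rr := by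
      rw [norm_div, norm_real, norm_real, Real.norm_of_nonneg hR.le, Real.norm_of_nonneg hr.le]
    simp only [ht]
    rw [norm_mul, norm_mul, norm_pow, e1]
    calc ‖q (m + 1)‖ * (RR / rr) ^ (m + 1) * ‖ee g (m + 1) k‖
        ≤ (Cq * 2 ^ (m + 1)) * (RR / rr) ^ (m + 1) * 20 ^ (m + 1) := by
          gcongr
          · exact hq _ (by omega)
          · exact hee m k
      _ = Cq * (40 * (RR / rr)) ^ (m + 1) := by
          rw [mul_pow, show (40 : ℝ) = 2 * 20 by norm_num, mul_pow]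
          ring
      _ ≤ Cq * (1 / 2) ^ (m + 1) := by gcongr
      _ = _ := by rw [pow_succ]; ring
  have hgs : HasSum (fun m : ℕ => Cq / 2 * (1 / 2 : ℝ) ^ m) (Cq / 2 * 2) :=
    hasSum_geometric_two.mul_left _
  have hts : ∀ k, Summable fun m => t m k := fun k =>
    Summable.of_norm_bounded hgs.summable fun m => htb m k
  refine ⟨fun k => (∑' m, t m k) * rr ^ k, ?_, ?_, ?_⟩
  · have : ∀ m, t m 0 = 0 := fun m => by
      simp only [ht]
      rw [z1 (m + 1) 0 (by omega), mul_zero]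
    simp only [this, tsum_zero, zero_mul]
  · intro k
    rw [norm_mul, norm_pow, norm_real, Real.norm_of_nonneg hr.le]
    have := tsum_of_norm_bounded hgs fun m => htb m k
    refine mul_le_mul_of_nonneg_right ?_ (by positivity)
    linarith
  · intro ζ hζ
    have hζ0 : ζ ≠ 0 := by
      rintro rfl
      rw [norm_zero] at hζ
      norm_num at hζ
    have hζp : 0 < ‖ζ‖ := norm_pos_iff.mpr hζ0
    have hx : ‖(rr : ℂ) / ζ‖ ≤ 1 / 2 := by
      rw [norm_div, norm_real, Real.norm_of_nonneg hr.le, div_le_iff₀ hζp]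
      linarith
    have hrζ : rr < ‖ζ‖ := by linarith
    set T : ℕ × ℕ → ℂ := fun x => t x.1 x.2 * (rr / ζ) ^ x.2 with hT
    have hTs : Summable T := by
      have h1 : Summable fun x : ℕ × ℕ => (Cq / 2 * (1 / 2 : ℝ) ^ x.1) * (1 / 2 : ℝ) ^ x.2 :=
        Summable.mul_of_nonneg hgs.summable hasSum_geometric_two.summable
          (fun m => by positivity) (fun m => by positivity)
      refine Summable.of_norm_bounded h1 fun x => ?_
      simp only [hT]
      rw [norm_mul, norm_pow]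
      have := htb x.1 x.2
      gcongr
    have hrow : ∀ m : ℕ, HasSum (fun k => T (m, k)) (q (m + 1) * (RR / Fm g ζ) ^ (m + 1)) := by
      intro m
      have h1 := (h4 g hg ζ hrζ (m + 1)).mul_left (q (m + 1) * (RR / rr : ℂ) ^ (m + 1))
      have e1 : q (m + 1) * (RR / rr : ℂ) ^ (m + 1) * ((rr : ℂ) / Fm g ζ) ^ (m + 1) =
          q (m + 1) * (RR / Fm g ζ) ^ (m + 1) := by
        rw [mul_assoc, ← mul_pow]
        congr 2
        have : (rr : ℂ) ≠ 0 := ofReal_ne_zero.mpr hr.ne'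
        field_simp
      rw [e1] at h1
      have e2 : (fun k => T (m, k)) = fun k => q (m + 1) * (RR / rr : ℂ) ^ (m + 1) *
          (ee g (m + 1) k * ((rr : ℂ) / ζ) ^ k) := by
        funext k
        simp only [hT, ht]
        ring
      rw [e2]
      exact h1
    have h1 := hTs.hasSum.prod_fiberwise hrow
    have h2 : ∑' m : ℕ, q (m + 1) * (RR / Fm g ζ) ^ (m + 1) = ∑' x, T x := h1.tsum_eq
    rw [h2]
    have hTs' : HasSum (fun x : ℕ × ℕ => T x.swap) (∑' x, T x) :=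
      (Equiv.prodComm ℕ ℕ).hasSum_iff.mpr hTs.hasSum
    refine hTs'.prod_fiberwise fun k => ?_
    have h3 := (hts k).hasSum.mul_right (((rr : ℂ) / ζ) ^ k)
    have e3 : (∑' m, t m k) * (rr : ℂ) ^ k * (ζ⁻¹) ^ k = (∑' m, t m k) * ((rr : ℂ) / ζ) ^ k := by
      rw [div_eq_mul_inv, mul_pow]
      ring
    rw [e3]
    exact h3

/-- the expansion of `Hf` -/
theorem expansion (h1 : F1) (h4 : F4) (h6 : F6) (s3 : S3) (s6 : S6) {κE κO : ℕ → ℕ → ℝ}
    {g : ℕ → ℂ} (hE : Kap κE) (hO : Kap κO) (hg : Gb (2 * eps) g) {a : ℕ → ℂ} (ha0 : a 0 = 0)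
    {C : ℝ} (hC : 0 ≤ C) (ha : ∀ k, ‖a k‖ ≤ C / 3 ^ k) :
    ∃ (p e : ℕ → ℂ) (c : ℂ) (C1 C2 : ℝ), (∀ n, ‖p n‖ ≤ C1 * (5 / 7) ^ n) ∧ 0 ≤ C1 ∧ e 0 = 0 ∧
      0 ≤ C2 ∧ (∀ k, ‖e k‖ ≤ C2 * rr ^ k) ∧
      ∀ ζ ∈ Ann, HasSum (fun k => a k * ζ ^ k + e k * (ζ⁻¹) ^ k) (Hf κE κO g p ζ - c) := by
  have hr := rr_pos
  have hr1 := rr_le
  have hM : 2 * eps ≤ 1 / 100 := by norm_num [eps]
  have hgam := (s3 (2 * eps) 0 g g hM hg hg).1
  obtain ⟨-, hF, -, -⟩ := h1 g hg
  obtain ⟨f, hf, hfF⟩ := h6 g hg a C ha0 ha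
  obtain ⟨p, C1, hC1, hp, hpf⟩ := taylor hf
  obtain ⟨e2, he0, he1, he2⟩ := second h4 s6 hg (q := qt κE κO p) (Cq := 12 * C1) (by positivity)
    (fun m hm => qt_bound hE hO hC1 hp m hm)
  -- the first series of negative powers
  set D : ℕ → ℂ := fun k => if k = 0 then 0 else
    -∑' j : ℕ, (j : ℂ) * rr ^ (j + k) * gam g j k * a j with hD
  have hSJ := SJ_nonneg
  have hDb : ∀ k, ‖D k‖ ≤ C * SJ * rr ^ k := by
    intro k
    simp only [hD]
    split_ifs with hk
    · rw [norm_zero]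
      positivity
    · have b1 : HasSum (fun j : ℕ => C * rr ^ k * ((j : ℝ) * (1 / 3) ^ j)) (C * rr ^ k * SJ) :=
        summable_SJ.hasSum.mul_left _
      rw [norm_neg]
      refine (tsum_of_norm_bounded b1 fun j => ?_).trans (le_of_eq (by ring))
      rcases Nat.eq_zero_or_pos j with hj | hj
      · subst hj
        simp
      · rw [norm_mul, norm_mul, norm_mul, norm_pow, norm_real, Real.norm_of_nonneg hr.le,
          norm_natCast]
        have b2 : ‖gam g j k‖ ≤ 1 := by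
          refine (hgam j k hj (Nat.pos_of_ne_zero hk)).trans ?_
          have j1 : (1 : ℝ) ≤ j := by exact_mod_cast hj
          have k0 : (0 : ℝ) ≤ k := by positivity
          have : (1 : ℝ) ≤ ((j : ℝ) + k) ^ 3 := one_le_pow₀ (by linarith)
          have e0 : 0 < eps := by norm_num [eps]
          exact (div_le_self (by positivity) this).trans (by norm_num [eps])
        have b3 : ‖a j‖ ≤ C * (1 / 3) ^ j := by
          refine (ha j).trans (le_of_eq ?_)
          rw [one_div, inv_pow]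
          rfl
        have b4 : rr ^ j ≤ 1 := pow_le_one₀ hr.le (by linarith)
        calc (j : ℝ) * rr ^ (j + k) * ‖gam g j k‖ * ‖a j‖
            ≤ (j : ℝ) * (1 * rr ^ k) * 1 * (C * (1 / 3) ^ j) := by
              rw [pow_add]
              gcongr
          _ = _ := by ring
  refine ⟨p, fun k => D k + e2 k, -f 0, C1, C * SJ + 12 * C1, hp, hC1, ?_, by positivity, ?_, ?_⟩
  · simp [hD, he0]
  · intro k
    refine (norm_add_le _ _).trans ?_
    have := hDb k
    have := he1 k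
    linarith
  · intro ζ hζ
    have hζ0 := ne_zero_of_mem hζ
    have hζp : 0 < ‖ζ‖ := norm_pos_iff.mpr hζ0
    obtain ⟨hζ1, hζ2⟩ := hζ
    have hFζ : ‖Fm g ζ‖ < 7 / 5 := by
      have b1 := hF ζ (by linarith)
      have b2 : ‖Fm g ζ‖ ≤ ‖Fm g ζ - ζ‖ + ‖ζ‖ := by
        have := norm_add_le (Fm g ζ - ζ) ζ
        simpa using this
      have b3 : eps * rr ≤ 1 / 100 := by norm_num [eps, rr]
      linarith
    have hS1 : HasSum (fun n : ℕ => p (n + 1) * Fm g ζ ^ (n + 1)) (f (Fm g ζ) - f 0) := by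
      have b1 := hpf _ hFζ
      have b2 := (hasSum_nat_add_iff' (f := fun n => p n * Fm g ζ ^ n) 1).mpr b1
      have b3 : f 0 = p 0 := by
        have := hpf 0 (by rw [norm_zero]; norm_num)
        refine this.unique ?_
        have b4 := hasSum_ite_eq (0 : ℕ) (p 0)
        have b5 : (fun n : ℕ => p n * (0 : ℂ) ^ n) = fun n => if n = 0 then p 0 else 0 := by
          funext n
          by_cases hn : n = 0
          · subst hn; simp
          · simp [hn]
        rw [b5]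
        exact b4
      rw [b3]
      simpa using b2
    have hHf : Hf κE κO g p ζ = (f (Fm g ζ) - f 0) +
        ∑' m : ℕ, qt κE κO p (m + 1) * (RR / Fm g ζ) ^ (m + 1) := by
      unfold Hf
      rw [hS1.tsum_eq]
    have ha' : Summable fun j => a j * ζ ^ j := by
      refine Summable.of_norm_bounded (g := fun j => C * (5 / 12) ^ j)
        ((summable_geometric_of_lt_one (by norm_num) (by norm_num)).mul_left C) fun j => ?_
      rw [norm_mul, norm_pow]
      calc ‖a j‖ * ‖ζ‖ ^ j ≤ C / 3 ^ j * (5 / 4) ^ j := by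
            gcongr
            exact ha j
        _ = C * (5 / 12) ^ j := by
            rw [show (5 : ℝ) / 12 = 5 / 4 / 3 by norm_num, div_pow (5 / 4) 3]
            ring
    have hζi : ‖ζ⁻¹‖ ≤ 100 := by
      rw [norm_inv, inv_le_comm₀ hζp (by norm_num)]
      norm_num
      linarith
    have hD' : Summable fun k => D k * (ζ⁻¹) ^ k := by
      refine Summable.of_norm_bounded (g := fun j => C * SJ * (1 / 2) ^ j)
        ((summable_geometric_of_lt_one (by norm_num) (by norm_num)).mul_left _) fun j => ?_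
      rw [norm_mul, norm_pow]
      calc ‖D j‖ * ‖ζ⁻¹‖ ^ j ≤ (C * SJ * rr ^ j) * 100 ^ j := by
            gcongr
            exact hDb j
        _ = C * SJ * (100 * rr) ^ j := by rw [mul_pow]; ring
        _ ≤ C * SJ * (1 / 2) ^ j := by
            gcongr
            linarith
    have hfe := hfF ζ (by linarith) (by linarith)
    have hsum := (ha'.hasSum.add hD'.hasSum).add (he2 ζ hζ1)
    have e1 : Hf κE κO g p ζ - -f 0 = ∑' j, a j * ζ ^ j + ∑' k, D k * (ζ⁻¹) ^ k +
        ∑' m : ℕ, qt κE κO p (m + 1) * (RR / Fm g ζ) ^ (m + 1) := by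
      rw [hHf, hfe]
      ring
    have e2' : (fun k => a k * ζ ^ k + (D k + e2 k) * (ζ⁻¹) ^ k) =
        fun k => a k * ζ ^ k + D k * (ζ⁻¹) ^ k + e2 k * (ζ⁻¹) ^ k := by
      funext k
      ring
    rw [e1, e2']
    exact hsum

end PF11

open PF11 in
theorem f11 (h1 : F1) (h4 : F4) (h6 : F6) (h10 : F10) (s3 : S3) (s6 : S6) (s9 : S9) : F11 := by
  intro κE κO g σ x hE hO hg hx
  obtain ⟨hx1, hx0, ⟨C0, hC0⟩, hxk⟩ := hx
  have hAB := fun j k hj hk => bounds_AB s3 s9 hE hO hg j k hj hk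
  obtain ⟨C, hCn, hC⟩ := decay (fun j k hj hk => (hAB j k hj hk).2.1)
    (fun j k hj hk => (hAB j k hj hk).2.2) hC0 σ hxk
  obtain ⟨p, e, c, C1, C2, hp, hC1, he0, hC2, he, hexp⟩ :=
    expansion h1 h4 h6 s3 s6 hE hO hg hx0 hCn hC
  obtain ⟨x1, a⟩ := x
  simp only at hx1 hx0 hC0 hxk hC hexp
  have hr := rr_pos
  have hr1 := rr_le
  set H : ℂ → ℂ := Hf κE κO g p with hH
  -- the Laurent series
  set u : ℕ → ℂ := fun k => if k = 0 then c else a k with hu
  have hua : ∀ k, k ≠ 0 → u k = a k := fun k hk => by simp only [hu]; rw [if_neg hk]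
  have hu0 : u 0 = c := by simp [hu]
  have hser : ∀ z ∈ Ann, HasSum (fun k => u k * z ^ k + e k * (z⁻¹) ^ k) (H z) := by
    intro z hz
    have b1 := (hexp z hz).add (hasSum_ite_eq (0 : ℕ) c)
    rw [sub_add_cancel] at b1
    have b2 : (fun k => u k * z ^ k + e k * (z⁻¹) ^ k) =
        fun k => a k * z ^ k + e k * (z⁻¹) ^ k + if k = 0 then c else 0 := by
      funext k
      by_cases hk : k = 0
      · subst hk
        rw [hu0, hx0, he0, if_pos rfl]
        simp
      · rw [hua k hk, if_neg hk, add_zero]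
    rw [b2]
    exact b1
  have hsu : Summable fun j => ‖u j‖ * (5 / 4) ^ j := by
    refine Summable.of_nonneg_of_le (fun j => by positivity) (fun j => ?_)
      ((summable_geometric_of_lt_one (r := (5 : ℝ) / 12) (by norm_num)
        (by norm_num)).mul_left (‖c‖ + C))
    have b1 : ‖u j‖ ≤ (‖c‖ + C) / 3 ^ j := by
      by_cases hj : j = 0
      · subst hj
        rw [hu0, pow_zero, div_one]
        linarith
      · rw [hua j hj]
        refine (hC j).trans ?_
        gcongr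
        have := norm_nonneg c
        linarith
    calc ‖u j‖ * (5 / 4) ^ j ≤ (‖c‖ + C) / 3 ^ j * (5 / 4) ^ j := by gcongr
      _ = (‖c‖ + C) * (5 / 12) ^ j := by
        rw [show (5 : ℝ) / 12 = 5 / 4 / 3 by norm_num, div_pow (5 / 4) 3]
        ring
  have hse : Summable fun j => ‖e j‖ * 100 ^ j := by
    refine Summable.of_nonneg_of_le (fun j => by positivity) (fun j => ?_)
      ((summable_geometric_of_lt_one (r := (1 : ℝ) / 2) (by norm_num)
        (by norm_num)).mul_left C2)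
    calc ‖e j‖ * 100 ^ j ≤ (C2 * rr ^ j) * 100 ^ j := by
          gcongr
          exact he j
      _ = C2 * (100 * rr) ^ j := by rw [mul_pow]; ring
      _ ≤ C2 * (1 / 2) ^ j := by
        gcongr
        linarith
  -- the coefficients satisfy the equations
  have hci := ci_laurent (ρ := 1 / 8) (by norm_num) u e H
    (Summable.of_nonneg_of_le (fun j => by positivity)
      (fun j => mul_le_mul_of_nonneg_left (pow_le_pow_left₀ (by norm_num) (by norm_num) j)
        (norm_nonneg _)) hsu)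
    (Summable.of_nonneg_of_le (fun j => by positivity)
      (fun j => mul_le_mul_of_nonneg_left (pow_le_pow_left₀ (by norm_num) (by norm_num) j)
        (norm_nonneg _)) hse) he0
    (fun z hz => hser z ⟨by rw [hz]; norm_num, by rw [hz]; norm_num⟩)
  have hrel : ∀ k : ℕ, k ≠ 0 → ((k : ℂ) - σ) * a k = (k + σ) * conj (e k) := by
    intro k hk
    have hk1 : 1 ≤ k := Nat.pos_of_ne_zero hk
    obtain ⟨d, hd1, hd2⟩ := hxk k hk1
    have b1 := (h10 κE κO g p C1 hE hO hg (fun n => (hp n).trans (by gcongr; norm_num))).2 k hk1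
    rw [← hH, hci.2 k hk1] at b1
    have b2 : (fun j : ℕ => (j : ℂ) * rr ^ (j + k) *
        (Ak κE g j k * ci (1 / 8) (fun ζ => H ζ * ζ ^ (-(j : ℤ) - 1)) +
        rr ^ 2 * Bk κO g j k * conj (ci (1 / 8) (fun ζ => H ζ * ζ ^ (-(j : ℤ) - 1))))) =
        fun j : ℕ => (j : ℂ) * rr ^ (j + k) *
          (Ak κE g j k * a j + rr ^ 2 * Bk κO g j k * conj (a j)) := by
      funext j
      by_cases hj : j = 0
      · subst hj
        simp
      · rw [hci.1 j, hua j hj]
    rw [b2] at b1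
    rw [hd2, hd1.unique b1]
  refine ⟨p, C1, c.re, hp, ?_, ?_, ?_⟩
  · exact (laurent_diff u e H (hsu.add hse) hser).1
  · -- the Fourier coefficients
    set V : ℂ → ℝ := fun ζ => (H ζ).re - c.re + x1 with hV
    set U : ℕ → ℂ := fun j => if j = 0 then (x1 : ℂ) else (a j + conj (e j)) / 2 with hU
    set W : ℕ → ℂ := fun j => if j = 0 then 0 else (e j + conj (a j)) / 2 with hW
    have hVs : ∀ z : ℂ, ‖z‖ = 1 → HasSum (fun j => U j * z ^ j + W j * (z⁻¹) ^ j) (V z : ℂ) := by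
      intro z hz
      have hzc : z⁻¹ = conj z := Complex.inv_eq_conj hz
      have b1 := hser z ⟨by rw [hz]; norm_num, by rw [hz]; norm_num⟩
      have b2 := Complex.hasSum_conj'.mpr b1
      have b3 := ((b1.add b2).mul_right (1 / 2 : ℂ)).add
        (hasSum_ite_eq (0 : ℕ) (-(c.re : ℂ) + x1))
      have b4 : (H z + conj (H z)) * (1 / 2) + (-(c.re : ℂ) + x1) = (V z : ℂ) := by
        rw [Complex.add_conj]
        simp only [hV]
        push_cast
        ring
      rw [b4] at b3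
      have b5 : (fun j => U j * z ^ j + W j * (z⁻¹) ^ j) = fun j =>
          (u j * z ^ j + e j * (z⁻¹) ^ j + conj (u j * z ^ j + e j * (z⁻¹) ^ j)) * (1 / 2) +
            if j = 0 then (-(c.re : ℂ) + x1) else 0 := by
        funext j
        by_cases hj : j = 0
        · subst hj
          simp only [hU, hW, hu0, he0, if_true, pow_zero, mul_one, add_zero]
          rw [Complex.add_conj]
          push_cast
          ring
        · simp only [hU, hW, hua j hj, if_neg hj, hzc, map_add, map_mul, map_pow,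
            Complex.conj_conj]
          ring
      rw [b5]
      exact b3
    have hUs : Summable fun j => ‖U j‖ * (1 : ℝ) ^ j := by
      refine Summable.of_nonneg_of_le (fun j => by positivity) (fun j => ?_)
        ((hsu.add hse).add (summable_of_ne_finset_zero (f := fun j : ℕ =>
          if j = 0 then |x1| else 0) (s := {0}) (fun j hj => by
            rw [if_neg (by simpa using hj)])))
      have c1 : (1 : ℝ) ≤ (5 / 4) ^ j := one_le_pow₀ (by norm_num)
      have c2 : (1 : ℝ) ≤ 100 ^ j := one_le_pow₀ (by norm_num)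
      rw [one_pow, mul_one]
      by_cases hj : j = 0
      · subst hj
        simp only [hU, if_true, norm_real, Real.norm_eq_abs]
        have : 0 ≤ ‖u 0‖ * (5 / 4) ^ 0 + ‖e 0‖ * 100 ^ 0 := by positivity
        linarith
      · simp only [hU, if_neg hj, add_zero]
        rw [norm_div, RCLike.norm_ofNat, hua j hj]
        have c3 : ‖a j + conj (e j)‖ ≤ ‖a j‖ + ‖e j‖ := by
          refine (norm_add_le _ _).trans ?_
          rw [norm_conj]
        have c4 := norm_nonneg (a j)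
        have c5 := norm_nonneg (e j)
        nlinarith
    have hWs : Summable fun j => ‖W j‖ * ((1 : ℝ)⁻¹) ^ j := by
      refine Summable.of_nonneg_of_le (fun j => by positivity) (fun j => ?_) (hsu.add hse)
      have c1 : (1 : ℝ) ≤ (5 / 4) ^ j := one_le_pow₀ (by norm_num)
      have c2 : (1 : ℝ) ≤ 100 ^ j := one_le_pow₀ (by norm_num)
      rw [inv_one, one_pow, mul_one]
      by_cases hj : j = 0
      · subst hj
        simp only [hW, if_true, norm_zero]
        positivity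
      · simp only [hW, if_neg hj]
        rw [norm_div, RCLike.norm_ofNat, hua j hj]
        have c3 : ‖e j + conj (a j)‖ ≤ ‖e j‖ + ‖a j‖ := by
          refine (norm_add_le _ _).trans ?_
          rw [norm_conj]
        have c4 := norm_nonneg (a j)
        have c5 := norm_nonneg (e j)
        nlinarith
    have hfc := (ci_laurent (ρ := 1) (by norm_num) U W (fun z => (V z : ℂ)) hUs hWs
      (by simp [hW]) hVs).1
    have hfc' : ∀ n : ℕ, fc V n = U n := fun n => hfc n
    have hfc0 : fc V 0 = x1 := by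
      have := hfc' 0
      rw [Nat.cast_zero] at this
      rw [this]
      simp [hU]
    show coefs V σ = (x1, a)
    unfold coefs
    refine Prod.ext ?_ ?_
    · show (fc V 0).re = x1
      rw [hfc0, ofReal_re]
    · funext k
      show (if k = 0 then 0 else ((k : ℂ) + σ) / k * fc V k) = a k
      by_cases hk : k = 0
      · subst hk
        rw [if_pos rfl, hx0]
      · rw [if_neg hk, hfc']
        simp only [hU, if_neg hk]
        have hk' : (k : ℂ) ≠ 0 := Nat.cast_ne_zero.mpr hk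
        have := hrel k hk
        field_simp
        linear_combination -this
  · -- the Steklov condition
    intro z hz
    have hz' : z ∈ Ann := ⟨by rw [hz]; norm_num, by rw [hz]; norm_num⟩
    have hzc : z⁻¹ = conj z := Complex.inv_eq_conj hz
    obtain ⟨hd1, hd2⟩ := laurent_diff u e H (hsu.add hse) hser
    have hda : DifferentiableAt ℂ H z := hd1.differentiableAt (isOpen_Ann.mem_nhds hz')
    have hfd : HasFDerivAt (fun ζ => (H ζ).re - c.re + x1)
        (reCLM.comp ((ContinuousLinearMap.toSpanSingleton ℂ (deriv H z)).restrictScalars ℝ)) z := by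
      have b1 : HasFDerivAt H ((ContinuousLinearMap.toSpanSingleton ℂ
          (deriv H z)).restrictScalars ℝ) z := hda.hasDerivAt.hasFDerivAt.restrictScalars ℝ
      exact ((reCLM.hasFDerivAt.comp z b1).sub_const _).add_const _
    rw [hfd.fderiv]
    have b1 := Complex.hasSum_re (hd2 z hz')
    have b2 := (Complex.hasSum_re (hser z hz')).mul_left σ
    have b3 := b1.sub b2
    have b4 : (fun j : ℕ => ((j : ℂ) * u j * z ^ j - (j : ℂ) * e j * (z⁻¹) ^ j).re -
        σ * (u j * z ^ j + e j * (z⁻¹) ^ j).re) = fun j => if j = 0 then -σ * c.re else 0 := by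
      funext j
      by_cases hj : j = 0
      · subst hj
        rw [hu0, he0]
        simp
      · rw [if_neg hj, hua j hj, hzc]
        have e1 : e j * (conj z) ^ j = conj (conj (e j) * z ^ j) := by simp
        have e2 : (j : ℂ) * e j * (conj z) ^ j = (j : ℂ) * conj (conj (e j) * z ^ j) := by
          rw [← e1]
          ring
        rw [e2, e1]
        have e3 : ((j : ℂ) - σ) * (a j * z ^ j) = (j + σ) * (conj (e j) * z ^ j) := by
          linear_combination z ^ j * hrel j hj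
        have e4 := congrArg Complex.re e3
        have e5 : ((j : ℂ) - σ) = (((j : ℝ) - σ : ℝ) : ℂ) := by push_cast; rfl
        have e6 : ((j : ℂ) + σ) = (((j : ℝ) + σ : ℝ) : ℂ) := by push_cast; rfl
        rw [e5, e6, re_ofReal_mul, re_ofReal_mul] at e4
        have e7 : (j : ℂ) = ((j : ℝ) : ℂ) := by push_cast; rfl
        rw [mul_assoc, e7, sub_re, add_re, re_ofReal_mul, re_ofReal_mul, conj_re]
        linear_combination e4
    rw [b4] at b3
    have b5 := b3.unique (hasSum_ite_eq (0 : ℕ) (-σ * c.re))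
    have b6 : (reCLM.comp ((ContinuousLinearMap.toSpanSingleton ℂ
        (deriv H z)).restrictScalars ℝ)) z = (z * deriv H z).re := by
      simp
    rw [b6]
    linear_combination b5 - hx1

end Pool.Agent.Stek
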