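import Pool.Agent.Stek.TFun

/-!
# F12a
-/

open scoped BigOperators ComplexConjugate Topology ContDiff
open Complex Metric InnerProductSpace

noncomputable section

namespace Pool.Agent.Stek

namespace HF12a

/-- power series with bounded coefficients -/
lemma ps_diff (c : ℕ → ℂ) (C q : ℝ) (hq : 0 < q) (hc : ∀ n, ‖c n‖ ≤ C * q ^ n) :
    DifferentiableOn ℂ (fun u : ℂ => ∑' n : ℕ, c n * u ^ (n + 1)) {u | ‖u‖ * q < 1} := by
  have hC : 0 ≤ C := by simpa using (norm_nonneg _).trans (hc 0)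
  intro u0 hu0
  obtain ⟨r, hr1, hr2⟩ := exists_between (show ‖u0‖ < 1 / q from (lt_div_iff₀ hq).2 hu0)
  have hr0 : 0 < r := (norm_nonneg _).trans_lt hr1
  have hrq : r * q < 1 := (lt_div_iff₀ hq).1 hr2
  have hd : DifferentiableOn ℂ (fun u : ℂ => ∑' n : ℕ, c n * u ^ (n + 1)) (ball 0 r) := by
    refine differentiableOn_tsum_of_summable_norm (u := fun n => C * r * (r * q) ^ n) ?_ ?_
      isOpen_ball ?_
    · exact (summable_geometric_of_lt_one (by positivity) hrq).mul_left _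
    · intro n
      exact ((differentiable_id.pow _).const_mul _).differentiableOn
    · intro n u hu
      rw [norm_mul, norm_pow]
      have hur : ‖u‖ ≤ r := (mem_ball_zero_iff.1 hu).le
      calc ‖c n‖ * ‖u‖ ^ (n + 1) ≤ (C * q ^ n) * r ^ (n + 1) := by
            gcongr
            exact hc n
        _ = C * r * (r * q) ^ n := by rw [mul_pow]; ring
  exact (hd.differentiableAt
    (isOpen_ball.mem_nhds (mem_ball_zero_iff.2 hr1))).differentiableWithinAt

lemma ps_summable (c : ℕ → ℂ) (C q : ℝ) (hq : 0 < q) (hc : ∀ n, ‖c n‖ ≤ C * q ^ n) {u : ℂ}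
    (hu : ‖u‖ * q < 1) : Summable (fun n : ℕ => c n * u ^ (n + 1)) := by
  refine Summable.of_norm_bounded (g := fun n => C * ‖u‖ * (‖u‖ * q) ^ n)
    ((summable_geometric_of_lt_one (by positivity) hu).mul_left _) ?_
  intro n
  rw [norm_mul, norm_pow]
  calc ‖c n‖ * ‖u‖ ^ (n + 1) ≤ (C * q ^ n) * ‖u‖ ^ (n + 1) := by
        gcongr
        exact hc n
    _ = C * ‖u‖ * (‖u‖ * q) ^ n := by rw [mul_pow]; ring

lemma RR_pos : 0 < RR := by unfold RR; positivity

lemma RR_small : RR ≤ 1 / 100 := by unfold RR; norm_num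

lemma Tl_bound {lam C : ℝ} {p : ℕ → ℂ} (h0 : 0 < lam) (h4 : lam ≤ 4)
    (hp : ∀ n, ‖p n‖ ≤ C * lam ^ n) (l : ℕ) : ‖Tl p l‖ ≤ C * 2 ^ l := by
  have hC : 0 ≤ C := by simpa using (norm_nonneg _).trans (hp 0)
  have hR := RR_pos
  have hR' := RR_small
  unfold Tl
  have hg : HasSum (fun n : ℕ => C * 2 ^ l * (8 * RR) * (8 * RR) ^ n)
      (C * 2 ^ l * (8 * RR) * (1 - 8 * RR)⁻¹) :=
    (hasSum_geometric_of_lt_one (by positivity) (by linarith)).mul_left _
  refine (tsum_of_norm_bounded hg ?_).trans ?_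
  · intro n
    rw [norm_mul, norm_pow]
    have e0 : ‖(RR : ℂ)‖ = RR := by
      rw [Complex.norm_real, Real.norm_eq_abs, abs_of_pos hR]
    rw [e0]
    have hp' : ‖p (n + 1)‖ ≤ C * 4 ^ (n + 1) := by
      refine (hp (n + 1)).trans ?_
      gcongr
    have c1 : ((n + l).choose l : ℝ) ≤ 2 ^ (n + l) := by
      exact_mod_cast Nat.choose_le_two_pow (n + l) l
    have c2 : ((l - 1).choose n : ℝ) ≤ 2 ^ (n + l) := by
      have : (l - 1).choose n ≤ 2 ^ (n + l) :=
        (Nat.choose_le_two_pow (l - 1) n).trans (Nat.pow_le_pow_right (by norm_num) (by omega))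
      exact_mod_cast this
    have h1 : ‖(-1 : ℂ) ^ (n + 1) * ((n + l).choose l : ℂ) * p (n + 1)‖
        ≤ 2 ^ (n + l) * (C * 4 ^ (n + 1)) := by
      rw [norm_mul, norm_mul, norm_pow, norm_neg, norm_one, one_pow, one_mul,
        Complex.norm_natCast]
      gcongr
    have h2 : ‖(-1 : ℂ) ^ l * ((l - 1).choose n : ℂ) * conj (p (n + 1))‖
        ≤ 2 ^ (n + l) * (C * 4 ^ (n + 1)) := by
      rw [norm_mul, norm_mul, norm_pow, norm_neg, norm_one, one_pow, one_mul,
        Complex.norm_natCast, RCLike.norm_conj]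
      gcongr
    calc RR ^ (n + 1) * ‖(-1 : ℂ) ^ (n + 1) * ((n + l).choose l : ℂ) * p (n + 1) +
          (-1) ^ l * ((l - 1).choose n : ℂ) * conj (p (n + 1))‖
        ≤ RR ^ (n + 1) * (2 ^ (n + l) * (C * 4 ^ (n + 1)) + 2 ^ (n + l) * (C * 4 ^ (n + 1))) := by
          gcongr
          exact (norm_add_le _ _).trans (add_le_add h1 h2)
      _ = C * 2 ^ l * (8 * RR) * (8 * RR) ^ n := by
          have e : (8 : ℝ) ^ n = 2 ^ n * 4 ^ n := by rw [← mul_pow]; norm_num
          rw [mul_pow, e, pow_add 2 n l, pow_succ, pow_succ]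
          ring
  · have h1 : 0 < 1 - 8 * RR := by linarith
    have h2 : 8 * RR * (1 - 8 * RR)⁻¹ ≤ 1 := by
      rw [mul_inv_le_iff₀ h1]
      linarith
    calc C * 2 ^ l * (8 * RR) * (1 - 8 * RR)⁻¹ = C * 2 ^ l * (8 * RR * (1 - 8 * RR)⁻¹) := by ring
      _ ≤ C * 2 ^ l * 1 := by gcongr
      _ = C * 2 ^ l := mul_one _

lemma Lam_bound {s : ℝ} (hs : s ∈ Set.Icc (1 / 20 : ℝ) (1 / 6)) (l : ℕ) :
    |Lam s (l + 1)| ≤ 6 / 5 * s ^ (l + 1) := by
  obtain ⟨h1, h2⟩ := hs
  have hs0 : 0 < s := by linarith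
  unfold Lam
  have e1 : |(-s) ^ (l + 1)| = s ^ (l + 1) := by
    rw [abs_pow, abs_neg, abs_of_pos hs0]
  have e2 : s ^ (l + 1) ≤ 1 / 6 := by
    calc s ^ (l + 1) = s ^ l * s := pow_succ _ _
      _ ≤ 1 * s := by
        gcongr
        exact pow_le_one₀ hs0.le (by linarith)
      _ ≤ 1 / 6 := by linarith
  have e3 : 5 / 6 ≤ |1 - (-s) ^ (l + 1)| := by
    have := abs_sub_abs_le_abs_sub 1 ((-s) ^ (l + 1))
    rw [abs_one, e1] at this
    linarith
  rw [abs_div, e1, div_le_iff₀ (by linarith)]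
  have : 0 < s ^ (l + 1) := by positivity
  nlinarith

lemma iot_iot {w : ℂ} (hw : w ≠ 0) : iot (iot w) = w := by
  unfold iot
  rw [map_div₀, map_neg, map_one, Complex.conj_conj]
  field_simp

lemma sqrt_bound {s : ℝ} (hs : s ∈ Set.Icc (1 / 20 : ℝ) (1 / 6)) {x : ℝ}
    (hx : x < 10 / 9 / √s) : x * (2 * s) < 1 := by
  obtain ⟨h1, h2⟩ := hs
  have hs0 : 0 < s := by linarith
  have hq : 0 < √s := Real.sqrt_pos.2 hs0
  have hs2 : √s ≤ 9 / 20 := by
    rw [Real.sqrt_le_left (by norm_num)]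
    linarith
  have hx' : x * √s < 10 / 9 := (lt_div_iff₀ hq).1 hx
  have e : √s * √s = s := Real.mul_self_sqrt hs0.le
  calc x * (2 * s) = x * (2 * (√s * √s)) := by rw [e]
    _ = 2 * √s * (x * √s) := by ring
    _ < 2 * √s * (10 / 9) := by gcongr
    _ ≤ 2 * (9 / 20) * (10 / 9) := by gcongr
    _ = 1 := by norm_num

end HF12a

open HF12a

theorem f12a : F12a := by
  intro s lam C p hs h0 h4 hp
  have hC : 0 ≤ C := by simpa using (norm_nonneg _).trans (hp 0)
  have hR := RR_pos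
  have hs0 : 0 < s := by linarith [hs.1]
  refine ⟨?_, ?_, ?_, ?_⟩
  · have hps := ps_diff (fun n => p (n + 1)) (C * lam) lam h0 (fun n => by
      refine (hp (n + 1)).trans (le_of_eq ?_)
      rw [pow_succ]; ring)
    have hm : Set.MapsTo (fun w : ℂ => (RR : ℂ) / (w - 1)) {w | lam * RR < ‖w - 1‖}
        {u | ‖u‖ * lam < 1} := by
      intro w hw
      have hw' : lam * RR < ‖w - 1‖ := hw
      have hpos : 0 < ‖w - 1‖ := lt_trans (by positivity) hw'
      show ‖(RR : ℂ) / (w - 1)‖ * lam < 1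
      rw [norm_div, Complex.norm_real, Real.norm_eq_abs, abs_of_pos hR, div_mul_eq_mul_div,
        div_lt_one hpos]
      linarith
    have hd : DifferentiableOn ℂ (fun w : ℂ => (RR : ℂ) / (w - 1)) {w | lam * RR < ‖w - 1‖} := by
      intro w hw
      have hw' : lam * RR < ‖w - 1‖ := hw
      have hpos : 0 < ‖w - 1‖ := lt_trans (by positivity) hw'
      have hne : w - 1 ≠ 0 := norm_pos_iff.1 hpos
      have d1 : DifferentiableAt ℂ (fun w : ℂ => w - 1) w := differentiableAt_id.sub_const 1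
      have d2 : DifferentiableAt ℂ (fun w : ℂ => (RR : ℂ) / (w - 1)) w :=
        (differentiableAt_const (RR : ℂ)).div d1 hne
      exact d2.differentiableWithinAt
    exact hps.comp hd hm
  · have hps := ps_diff (fun n => conj (p (n + 1))) (C * lam) lam h0 (fun n => by
      rw [RCLike.norm_conj]
      refine (hp (n + 1)).trans (le_of_eq ?_)
      rw [pow_succ]; ring)
    have hconj : ∀ w : ℂ, conj ((RR : ℂ) / (iot w - 1)) = (RR : ℂ) / (-1 / w - 1) := by
      intro w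
      unfold iot
      simp only [map_div₀, map_sub, map_neg, map_one, Complex.conj_conj, Complex.conj_ofReal]
    have hnorm : ∀ w : ℂ, ‖-1 / w - 1‖ = ‖iot w - 1‖ := by
      intro w
      rw [← RCLike.norm_conj (iot w - 1)]
      unfold iot
      simp only [map_div₀, map_sub, map_neg, map_one, Complex.conj_conj]
    have hm : Set.MapsTo (fun w : ℂ => (RR : ℂ) / (-1 / w - 1))
        {w | w ≠ 0 ∧ lam * RR < ‖iot w - 1‖} {u | ‖u‖ * lam < 1} := by
      rintro w ⟨hw0, hw'⟩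
      have hpos : 0 < ‖iot w - 1‖ := lt_trans (by positivity) hw'
      show ‖(RR : ℂ) / (-1 / w - 1)‖ * lam < 1
      rw [norm_div, hnorm, Complex.norm_real, Real.norm_eq_abs, abs_of_pos hR,
        div_mul_eq_mul_div, div_lt_one hpos]
      linarith
    have hd : DifferentiableOn ℂ (fun w : ℂ => (RR : ℂ) / (-1 / w - 1))
        {w | w ≠ 0 ∧ lam * RR < ‖iot w - 1‖} := by
      rintro w ⟨hw0, hw'⟩
      have hpos : 0 < ‖-1 / w - 1‖ := by rw [hnorm]; exact lt_trans (by positivity) hw'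
      have hne : -1 / w - 1 ≠ 0 := norm_pos_iff.1 hpos
      have d0 : DifferentiableAt ℂ (fun w : ℂ => -1 / w) w :=
        (differentiableAt_const (-1 : ℂ)).div differentiableAt_id hw0
      have d1 : DifferentiableAt ℂ (fun w : ℂ => -1 / w - 1) w := d0.sub_const 1
      have d2 : DifferentiableAt ℂ (fun w : ℂ => (RR : ℂ) / (-1 / w - 1)) w :=
        (differentiableAt_const (RR : ℂ)).div d1 hne
      exact d2.differentiableWithinAt
    refine (hps.comp hd hm).congr ?_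
    intro w _
    unfold Pi' Pf
    rw [Complex.conj_tsum]
    refine tsum_congr fun n => ?_
    rw [map_mul, map_pow, hconj]
  · have hc1 : ∀ l : ℕ, ‖(Lam s (l + 1) : ℂ) * Tl p (l + 1)‖ ≤ 12 / 5 * s * C * (2 * s) ^ l := by
      intro l
      rw [norm_mul, Complex.norm_real, Real.norm_eq_abs]
      calc |Lam s (l + 1)| * ‖Tl p (l + 1)‖ ≤ (6 / 5 * s ^ (l + 1)) * (C * 2 ^ (l + 1)) := by
            gcongr
            · exact Lam_bound hs l
            · exact Tl_bound h0 h4 hp (l + 1)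
        _ = 12 / 5 * s * C * (2 * s) ^ l := by rw [mul_pow, pow_succ, pow_succ]; ring
    have hc2 : ∀ l : ℕ, ‖(Lam s (l + 1) : ℂ) * ((-1) ^ (l + 1) * conj (Tl p (l + 1)))‖
        ≤ 12 / 5 * s * C * (2 * s) ^ l := by
      intro l
      have := hc1 l
      rw [norm_mul] at this ⊢
      rw [norm_mul, norm_pow, norm_neg, norm_one, one_pow, one_mul, RCLike.norm_conj]
      exact this
    have h2s : 0 < 2 * s := by linarith
    have d1 := ps_diff _ _ _ h2s hc1
    have d2 := ps_diff _ _ _ h2s hc2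
    have hsq : 0 < √s := Real.sqrt_pos.2 hs0
    have m1 : ∀ w : ℂ, w ∈ {w : ℂ | 9 / 10 * √s < ‖w‖ ∧ ‖w‖ < 10 / 9 / √s} →
        ‖w‖ * (2 * s) < 1 := fun w hw => sqrt_bound hs hw.2
    have m2 : ∀ w : ℂ, w ∈ {w : ℂ | 9 / 10 * √s < ‖w‖ ∧ ‖w‖ < 10 / 9 / √s} →
        ‖w⁻¹‖ * (2 * s) < 1 := by
      rintro w ⟨hw, -⟩
      apply sqrt_bound hs
      have hw0 : 0 < ‖w‖ := lt_trans (by positivity) hw
      rw [norm_inv, lt_div_iff₀ hsq, inv_mul_lt_iff₀ hw0]
      linarith
    have D1 : DifferentiableOn ℂ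
        (fun w : ℂ => ∑' n : ℕ, (Lam s (n + 1) : ℂ) * Tl p (n + 1) * w ^ (n + 1))
        {w | 9 / 10 * √s < ‖w‖ ∧ ‖w‖ < 10 / 9 / √s} := d1.mono m1
    have D2 : DifferentiableOn ℂ
        (fun w : ℂ => ∑' n : ℕ, (Lam s (n + 1) : ℂ) * ((-1) ^ (n + 1) * conj (Tl p (n + 1))) *
          (w⁻¹) ^ (n + 1))
        {w | 9 / 10 * √s < ‖w‖ ∧ ‖w‖ < 10 / 9 / √s} := by
      refine d2.comp (g := fun u : ℂ => ∑' n : ℕ, (Lam s (n + 1) : ℂ) *
        ((-1) ^ (n + 1) * conj (Tl p (n + 1))) * u ^ (n + 1)) (f := fun w : ℂ => w⁻¹) ?_ m2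
      rintro w ⟨hw, -⟩
      have hw0 : 0 < ‖w‖ := lt_trans (by positivity) hw
      exact (differentiableAt_inv (norm_pos_iff.1 hw0)).differentiableWithinAt
    refine (D1.add D2).congr ?_
    intro w hw
    have s1 := ps_summable _ _ _ h2s hc1 (m1 w hw)
    have s2 := ps_summable _ _ _ h2s hc2 (m2 w hw)
    show Ef s p w = _ + _
    rw [← s1.tsum_add s2]
    unfold Ef
    refine tsum_congr fun n => ?_
    ring
  · intro w hw
    have e1 : Pf p (iot w) = conj (Pi' p w) := by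
      unfold Pi'
      rw [Complex.conj_conj]
    have e2 : Pi' p (iot w) = conj (Pf p w) := by
      unfold Pi'
      rw [iot_iot hw]
    have e3 : Ef s p (iot w) = conj (Ef s p w) := by
      unfold Ef
      rw [Complex.conj_tsum]
      refine tsum_congr fun l => ?_
      have a1 : iot w ^ (l + 1) = (-1) ^ (l + 1) * (conj w)⁻¹ ^ (l + 1) := by
        unfold iot
        rw [← mul_pow]
        congr 1
      have a2 : (iot w)⁻¹ ^ (l + 1) = (-1) ^ (l + 1) * (conj w) ^ (l + 1) := by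
        unfold iot
        rw [← mul_pow]
        congr 1
        rw [inv_div, div_neg, div_one, neg_one_mul]
      have a3 : ((-1 : ℂ) ^ (l + 1)) * (-1) ^ (l + 1) = 1 := by
        rw [← mul_pow]; simp
      rw [a1, a2]
      simp only [map_mul, map_add, map_pow, map_neg, map_one, Complex.conj_conj,
        Complex.conj_ofReal, map_inv₀]
      linear_combination ((Lam s (l + 1) : ℂ) * conj (Tl p (l + 1)) * conj w ^ (l + 1)) * a3
    unfold Uf
    rw [e1, e2, e3]
    simp only [Complex.add_re, Complex.conj_re]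
    ring

end Pool.Agent.Stek
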