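import Pool.Agent.Stek.PF12a

/-!
# F12b
-/

open scoped BigOperators ComplexConjugate Topology ContDiff
open Complex Metric InnerProductSpace

noncomputable section

namespace Pool.Agent.Stek

namespace HF12b

open HF12a

/-- a function which is symmetric under `t ↦ t⁻¹` along a ray has no radial derivative -/
lemma radial_zero (U : ℂ → ℝ) (w : ℂ)
    (h : ∀ᶠ t : ℝ in 𝓝 1, U ((t : ℂ) * w) = U (((t⁻¹ : ℝ) : ℂ) * w)) :
    fderiv ℝ U w w = 0 := by
  by_cases hd : DifferentiableAt ℝ U w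
  · have h1 : HasDerivAt (fun t : ℝ => (t : ℂ) * w) w 1 := by
      have := (Complex.ofRealCLM.hasDerivAt (x := (1 : ℝ))).mul_const w
      simpa using this
    have h2 : HasDerivAt (fun t : ℝ => (((t⁻¹ : ℝ) : ℂ)) * w) (-w) 1 := by
      have h3 : HasDerivAt (fun t : ℝ => t⁻¹) (-1 : ℝ) 1 := by
        have := hasDerivAt_inv (one_ne_zero : (1 : ℝ) ≠ 0)
        simpa using this
      have h4 : HasDerivAt (fun t : ℝ => ((t⁻¹ : ℝ) : ℂ)) ((-1 : ℝ) : ℂ) 1 := h3.ofReal_comp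
      have := h4.mul_const w
      simpa using this
    have hd1 : HasFDerivAt U (fderiv ℝ U w) (((1 : ℝ) : ℂ) * w) := by
      have := hd.hasFDerivAt
      simpa using this
    have hd2 : HasFDerivAt U (fderiv ℝ U w) ((((1 : ℝ)⁻¹ : ℝ) : ℂ) * w) := by
      have := hd.hasFDerivAt
      simpa using this
    have k1 : HasDerivAt (fun t : ℝ => U ((t : ℂ) * w)) (fderiv ℝ U w w) 1 :=
      hd1.comp_hasDerivAt (1 : ℝ) h1
    have k2 : HasDerivAt (fun t : ℝ => U (((t⁻¹ : ℝ) : ℂ) * w)) (fderiv ℝ U w (-w)) 1 :=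
      hd2.comp_hasDerivAt (1 : ℝ) h2
    have k3 := k1.unique (k2.congr_of_eventuallyEq h)
    rw [map_neg] at k3
    linarith
  · rw [fderiv_zero_of_not_differentiableAt hd]
    simp

/-- the expansion of the powers of `RR / (w - 1)` -/
lemma hasSum_A (n : ℕ) (c w : ℂ) (hw : ‖w‖ < 1) :
    HasSum (fun l : ℕ => (RR : ℂ) ^ (n + 1) * ((-1) ^ (n + 1) *
      ((n + (l + 1)).choose (l + 1) : ℂ) * c) * w ^ (l + 1))
      (c * ((RR : ℂ) / (w - 1)) ^ (n + 1) - c * (-(RR : ℂ)) ^ (n + 1)) := by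
  have h0 := hasSum_choose_mul_geometric_of_norm_lt_one (𝕜 := ℂ) n hw
  have h1 := (hasSum_nat_add_iff' (f := fun l : ℕ => (((l + n).choose n : ℕ) : ℂ) * w ^ l) 1).2 h0
  have h2 := h1.mul_left ((RR : ℂ) ^ (n + 1) * (-1) ^ (n + 1) * c)
  have hne : (1 : ℂ) - w ≠ 0 := by
    intro h
    have : w = 1 := by linear_combination -h
    rw [this, norm_one] at hw
    exact lt_irrefl _ hw
  have hne' : w - 1 ≠ 0 := by
    intro h
    apply hne
    linear_combination -h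
  have e1 : ((RR : ℂ) / (w - 1)) ^ (n + 1) = (RR : ℂ) ^ (n + 1) * (-1) ^ (n + 1) *
      (1 / (1 - w) ^ (n + 1)) := by
    rw [← mul_pow, one_div, ← inv_pow, ← mul_pow]
    congr 1
    field_simp
    ring
  have e2 : (-(RR : ℂ)) ^ (n + 1) = (RR : ℂ) ^ (n + 1) * (-1) ^ (n + 1) := by
    rw [← mul_pow]
    congr 1
    ring
  have e3 : c * ((RR : ℂ) / (w - 1)) ^ (n + 1) - c * (-(RR : ℂ)) ^ (n + 1) =
      (RR : ℂ) ^ (n + 1) * (-1) ^ (n + 1) * c *
        (1 / (1 - w) ^ (n + 1) - ∑ i ∈ Finset.range 1, (((i + n).choose n : ℕ) : ℂ) * w ^ i) := by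
    rw [e1, e2]
    simp
    ring
  rw [e3]
  have e4 : (fun l : ℕ => (RR : ℂ) ^ (n + 1) * ((-1) ^ (n + 1) *
      ((n + (l + 1)).choose (l + 1) : ℂ) * c) * w ^ (l + 1)) =
      fun l : ℕ => (RR : ℂ) ^ (n + 1) * (-1) ^ (n + 1) * c *
        ((((l + 1 + n).choose n : ℕ) : ℂ) * w ^ (l + 1)) := by
    funext l
    have : (n + (l + 1)).choose (l + 1) = (l + 1 + n).choose n := by
      rw [add_comm n (l + 1)]
      exact Nat.choose_symm_add
    rw [this]
    ring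
  rw [e4]
  exact h2

/-- the expansion of the powers of `conj (RR / (iot w - 1))` -/
lemma hasSum_B (n : ℕ) (c w : ℂ) (hw : ‖w‖ < 1) (hw0 : w ≠ 0) :
    HasSum (fun l : ℕ => (RR : ℂ) ^ (n + 1) * ((-1) ^ (l + 1) *
      (((l + 1) - 1).choose n : ℂ) * conj c) * w ^ (l + 1))
      (conj (c * ((RR : ℂ) / (iot w - 1)) ^ (n + 1))) := by
  have hw' : ‖-w‖ < 1 := by rwa [norm_neg]
  have h0 := hasSum_choose_mul_geometric_of_norm_lt_one (𝕜 := ℂ) n hw'
  have h1 := h0.mul_left ((RR : ℂ) ^ (n + 1) * conj c * (-w) ^ (n + 1))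
  have h2 : HasSum (fun l : ℕ => (RR : ℂ) ^ (n + 1) * ((-1) ^ (l + 1) *
      (((l + 1) - 1).choose n : ℂ) * conj c) * w ^ (l + 1))
      ((RR : ℂ) ^ (n + 1) * conj c * (-w) ^ (n + 1) * (1 / (1 - -w) ^ (n + 1))) := by
    rw [← hasSum_nat_add_iff' n]
    have e0 : ∑ i ∈ Finset.range n, ((RR : ℂ) ^ (n + 1) * ((-1) ^ (i + 1) *
      (((i + 1) - 1).choose n : ℂ) * conj c) * w ^ (i + 1)) = 0 := by
      refine Finset.sum_eq_zero fun i hi => ?_
      rw [Nat.add_sub_cancel, Nat.choose_eq_zero_of_lt (Finset.mem_range.1 hi)]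
      simp
    rw [e0, sub_zero]
    have e4 : (fun l : ℕ => (RR : ℂ) ^ (n + 1) * ((-1) ^ (l + n + 1) *
        (((l + n + 1) - 1).choose n : ℂ) * conj c) * w ^ (l + n + 1)) =
        fun l : ℕ => (RR : ℂ) ^ (n + 1) * conj c * (-w) ^ (n + 1) *
          ((((l + n).choose n : ℕ) : ℂ) * (-w) ^ l) := by
      funext l
      rw [Nat.add_sub_cancel, neg_pow w, neg_pow w, add_assoc l n 1, pow_add, pow_add]
      ring
    rw [e4]
    exact h1
  have hne : (1 : ℂ) - -w ≠ 0 := by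
    intro h
    have : -w = 1 := by linear_combination -h
    rw [this, norm_one] at hw'
    exact lt_irrefl _ hw'
  have hne' : -1 / w - 1 ≠ 0 := by
    intro h
    apply hne
    field_simp at h
    linear_combination -h
  have e1 : conj (c * ((RR : ℂ) / (iot w - 1)) ^ (n + 1)) =
      (RR : ℂ) ^ (n + 1) * conj c * (-w) ^ (n + 1) * (1 / (1 - -w) ^ (n + 1)) := by
    unfold iot
    simp only [map_mul, map_pow, map_div₀, map_sub, map_neg, map_one, Complex.conj_conj,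
      Complex.conj_ofReal]
    have : (RR : ℂ) / (-1 / w - 1) = RR * (-w) * (1 - -w)⁻¹ := by
      rw [div_eq_iff hne', mul_assoc, inv_mul_eq_div, ]
      rw [eq_comm, mul_div_assoc', div_eq_iff hne]
      field_simp
      ring
    rw [this, mul_pow, mul_pow, one_div, inv_pow]
    ring
  rw [e1]
  exact h2

lemma norm_iot_sub (w : ℂ) : ‖iot w - 1‖ = ‖-1 / w - 1‖ := by
  rw [← RCLike.norm_conj (iot w - 1)]
  unfold iot
  simp only [map_div₀, map_sub, map_neg, map_one, Complex.conj_conj]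

/-- the Taylor expansion at `0` -/
lemma taylor0 {lam C : ℝ} {p : ℕ → ℂ} (h0 : 0 < lam) (h4 : lam ≤ 4)
    (hp : ∀ n, ‖p n‖ ≤ C * lam ^ n) {w : ℂ} (hw0 : w ≠ 0) (hw : ‖w‖ < 1 / 2) :
    Summable (fun l : ℕ => Tl p (l + 1) * w ^ (l + 1)) ∧
    Pf p w + Pi' p w = ∑' n : ℕ, p (n + 1) * (-(RR : ℂ)) ^ (n + 1) +
      ∑' l : ℕ, Tl p (l + 1) * w ^ (l + 1) := by
  have hC : 0 ≤ C := by simpa using (norm_nonneg _).trans (hp 0)
  have hR := RR_pos
  have hR' := RR_small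
  have hw1 : ‖w‖ < 1 := by linarith
  have hwp : 0 < ‖w‖ := norm_pos_iff.2 hw0
  have e0 : ‖(RR : ℂ)‖ = RR := by
    rw [Complex.norm_real, Real.norm_eq_abs, abs_of_pos hR]
  set F : ℕ → ℕ → ℂ := fun n l => ((RR : ℂ) ^ (n + 1) *
    ((-1) ^ (n + 1) * ((n + (l + 1)).choose (l + 1) : ℂ) * p (n + 1) +
    (-1) ^ (l + 1) * (((l + 1) - 1).choose n : ℂ) * conj (p (n + 1)))) * w ^ (l + 1) with hF
  have hbound : ∀ n l : ℕ, ‖F n l‖ ≤ (C * (8 * RR) * (2 * ‖w‖)) * ((8 * RR) ^ n * (2 * ‖w‖) ^ l) := by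
    intro n l
    have hp' : ‖p (n + 1)‖ ≤ C * 4 ^ (n + 1) := by
      refine (hp (n + 1)).trans ?_
      gcongr
    have c1 : ((n + (l + 1)).choose (l + 1) : ℝ) ≤ 2 ^ (n + (l + 1)) := by
      exact_mod_cast Nat.choose_le_two_pow (n + (l + 1)) (l + 1)
    have c2 : (((l + 1) - 1).choose n : ℝ) ≤ 2 ^ (n + (l + 1)) := by
      have : ((l + 1) - 1).choose n ≤ 2 ^ (n + (l + 1)) :=
        (Nat.choose_le_two_pow ((l + 1) - 1) n).trans
          (Nat.pow_le_pow_right (by norm_num) (by omega))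
      exact_mod_cast this
    have h1 : ‖(-1 : ℂ) ^ (n + 1) * ((n + (l + 1)).choose (l + 1) : ℂ) * p (n + 1)‖
        ≤ 2 ^ (n + (l + 1)) * (C * 4 ^ (n + 1)) := by
      rw [norm_mul, norm_mul, norm_pow, norm_neg, norm_one, one_pow, one_mul,
        Complex.norm_natCast]
      gcongr
    have h2 : ‖(-1 : ℂ) ^ (l + 1) * (((l + 1) - 1).choose n : ℂ) * conj (p (n + 1))‖
        ≤ 2 ^ (n + (l + 1)) * (C * 4 ^ (n + 1)) := by
      rw [norm_mul, norm_mul, norm_pow, norm_neg, norm_one, one_pow, one_mul,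
        Complex.norm_natCast, RCLike.norm_conj]
      gcongr
    rw [hF]
    simp only
    rw [norm_mul, norm_mul, norm_pow, norm_pow, e0]
    calc RR ^ (n + 1) * ‖(-1 : ℂ) ^ (n + 1) * ((n + (l + 1)).choose (l + 1) : ℂ) * p (n + 1) +
          (-1) ^ (l + 1) * (((l + 1) - 1).choose n : ℂ) * conj (p (n + 1))‖ * ‖w‖ ^ (l + 1)
        ≤ RR ^ (n + 1) * (2 ^ (n + (l + 1)) * (C * 4 ^ (n + 1)) +
          2 ^ (n + (l + 1)) * (C * 4 ^ (n + 1))) * ‖w‖ ^ (l + 1) := by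
          gcongr
          exact (norm_add_le _ _).trans (add_le_add h1 h2)
      _ = (C * (8 * RR) * (2 * ‖w‖)) * ((8 * RR) ^ n * (2 * ‖w‖) ^ l) := by
          have e : (8 : ℝ) ^ n = 2 ^ n * 4 ^ n := by rw [← mul_pow]; norm_num
          rw [mul_pow, mul_pow, e, pow_add 2 n (l + 1)]
          ring
  have hsum : Summable (Function.uncurry F) := by
    have g1 : Summable (fun n : ℕ => (8 * RR) ^ n) :=
      summable_geometric_of_lt_one (by positivity) (by linarith)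
    have g2 : Summable (fun l : ℕ => (2 * ‖w‖) ^ l) :=
      summable_geometric_of_lt_one (by positivity) (by linarith)
    have g3 : Summable (fun x : ℕ × ℕ => (8 * RR) ^ x.1 * (2 * ‖w‖) ^ x.2) :=
      g1.mul_of_nonneg g2 (fun n => by positivity) (fun l => by positivity)
    refine Summable.of_norm_bounded (g3.mul_left (C * (8 * RR) * (2 * ‖w‖))) ?_
    rintro ⟨n, l⟩
    exact hbound n l
  have hn : ∀ n : ℕ, ∑' l : ℕ, F n l = (p (n + 1) * ((RR : ℂ) / (w - 1)) ^ (n + 1) -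
      p (n + 1) * (-(RR : ℂ)) ^ (n + 1)) + conj (p (n + 1) * ((RR : ℂ) / (iot w - 1)) ^ (n + 1)) := by
    intro n
    have a := (hasSum_A n (p (n + 1)) w hw1).add (hasSum_B n (p (n + 1)) w hw1 hw0)
    rw [← a.tsum_eq]
    refine tsum_congr fun l => ?_
    rw [hF]
    simp only
    ring
  have hl : ∀ l : ℕ, ∑' n : ℕ, F n l = Tl p (l + 1) * w ^ (l + 1) := by
    intro l
    rw [hF]
    simp only
    rw [tsum_mul_right]
    rfl
  have hcomm : ∑' n : ℕ, ∑' l : ℕ, F n l = ∑' l : ℕ, ∑' n : ℕ, F n l :=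
    hsum.tsum_comm.symm
  have hps : ∀ u : ℂ, ‖u‖ * lam < 1 → Summable (fun n : ℕ => p (n + 1) * u ^ (n + 1)) := by
    intro u hu
    refine ps_summable (fun n => p (n + 1)) (C * lam) lam h0 (fun n => ?_) hu
    refine (hp (n + 1)).trans (le_of_eq ?_)
    rw [pow_succ]; ring
  have n1 : 1 / 2 ≤ ‖w - 1‖ := by
    have := norm_sub_norm_le (1 : ℂ) w
    rw [norm_one, norm_sub_rev] at this
    linarith
  have n2 : 1 ≤ ‖-1 / w - 1‖ := by
    have := norm_sub_norm_le (-1 / w : ℂ) 1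
    rw [norm_one, norm_div, norm_neg, norm_one] at this
    have h3 : 2 ≤ 1 / ‖w‖ := by
      rw [le_div_iff₀ hwp]
      linarith
    linarith
  have u1 : ‖(RR : ℂ) / (w - 1)‖ * lam < 1 := by
    rw [norm_div, e0, div_mul_eq_mul_div, div_lt_one (by linarith)]
    nlinarith
  have u2 : ‖(RR : ℂ) / (iot w - 1)‖ * lam < 1 := by
    rw [norm_div, e0, norm_iot_sub, div_mul_eq_mul_div, div_lt_one (by linarith)]
    nlinarith
  have u3 : ‖-(RR : ℂ)‖ * lam < 1 := by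
    rw [norm_neg, e0]
    nlinarith
  have s1 := hps _ u1
  have s2 := (hps _ u2)
  have s3 := hps _ u3
  have s2' : Summable (fun n : ℕ => conj (p (n + 1) * ((RR : ℂ) / (iot w - 1)) ^ (n + 1))) := by
    exact Complex.summable_conj.2 s2
  refine ⟨?_, ?_⟩
  · have := hsum.prod_symm.prod
    refine this.congr fun l => ?_
    exact hl l
  · have e1 : ∑' n : ℕ, ∑' l : ℕ, F n l = (Pf p w - ∑' n : ℕ, p (n + 1) * (-(RR : ℂ)) ^ (n + 1)) +
        Pi' p w := by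
      rw [tsum_congr hn, (s1.sub s3).tsum_add s2', s1.tsum_sub s3]
      unfold Pi' Pf
      rw [Complex.conj_tsum]
    rw [hcomm, tsum_congr hl] at e1
    rw [e1]
    ring

/-- the summands of `Ef` are summable -/
lemma summable_Ef {s lam C : ℝ} {p : ℕ → ℂ} (hs : s ∈ Set.Icc (1 / 20 : ℝ) (1 / 6))
    (h0 : 0 < lam) (h4 : lam ≤ 4)
    (hp : ∀ n, ‖p n‖ ≤ C * lam ^ n) {w : ℂ} (h1 : 9 / 10 * √s < ‖w‖) (h2 : ‖w‖ < 10 / 9 / √s) :
    Summable (fun l : ℕ => (Lam s (l + 1) : ℂ) * (Tl p (l + 1) * w ^ (l + 1) +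
    (-1) ^ (l + 1) * conj (Tl p (l + 1)) * (w⁻¹) ^ (l + 1))) := by
  have hC : 0 ≤ C := by simpa using (norm_nonneg _).trans (hp 0)
  have hs0 : 0 < s := by linarith [hs.1]
  have hc1 : ∀ l : ℕ, ‖(Lam s (l + 1) : ℂ) * Tl p (l + 1)‖ ≤ 12 / 5 * s * C * (2 * s) ^ l := by
    intro l
    rw [norm_mul, Complex.norm_real, Real.norm_eq_abs]
    calc |Lam s (l + 1)| * ‖Tl p (l + 1)‖ ≤ (6 / 5 * s ^ (l + 1)) * (C * 2 ^ (l + 1)) := by
          gcongr
          · exact Lam_bound hs l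
          · exact Tl_bound h0 h4 hp (l + 1)
      _ = 12 / 5 * s * C * (2 * s) ^ l := by rw [mul_pow, pow_succ, pow_succ]; ring
  have hc2 : ∀ l : ℕ, ‖(Lam s (l + 1) : ℂ) * ((-1) ^ (l + 1) * conj (Tl p (l + 1)))‖
      ≤ 12 / 5 * s * C * (2 * s) ^ l := by
    intro l
    have := hc1 l
    rw [norm_mul] at this ⊢
    rw [norm_mul, norm_pow, norm_neg, norm_one, one_pow, one_mul, RCLike.norm_conj]
    exact this
  have h2s : 0 < 2 * s := by linarith
  have hsq : 0 < √s := Real.sqrt_pos.2 hs0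
  have m1 : ‖w‖ * (2 * s) < 1 := sqrt_bound hs h2
  have m2 : ‖w⁻¹‖ * (2 * s) < 1 := by
    apply sqrt_bound hs
    have hw0 : 0 < ‖w‖ := lt_trans (by positivity) h1
    rw [norm_inv, lt_div_iff₀ hsq, inv_mul_lt_iff₀ hw0]
    linarith
  have s1 := ps_summable _ _ _ h2s hc1 m1
  have s2 := ps_summable _ _ _ h2s hc2 m2
  refine (s1.add s2).congr fun n => ?_
  ring

/-- the reflection symmetry of the response function -/
lemma refl_symm {s lam C : ℝ} {p : ℕ → ℂ} (hs : s ∈ Set.Icc (1 / 20 : ℝ) (1 / 6))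
    (h0 : 0 < lam) (h4 : lam ≤ 4)
    (hp : ∀ n, ‖p n‖ ≤ C * lam ^ n) {w : ℂ} (h1 : 9 / 10 * √s < ‖w‖)
    (h1' : 9 / 10 * √s < ‖(s : ℂ) / conj w‖) (h2 : ‖w‖ < 1 / 2)
    (h2' : ‖(s : ℂ) / conj w‖ < 1 / 2) :
    Uf s p ((s : ℂ) / conj w) = Uf s p w := by
  have hs0 : 0 < s := by linarith [hs.1]
  have hsq : 0 < √s := Real.sqrt_pos.2 hs0
  have hs2 : √s ≤ 9 / 20 := by
    rw [Real.sqrt_le_left (by norm_num)]
    linarith [hs.2]
  have hbig : 1 / 2 < 10 / 9 / √s := by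
    rw [lt_div_iff₀ hsq]
    linarith
  have hw0 : w ≠ 0 := by
    rw [← norm_pos_iff]
    exact lt_trans (by positivity) h1
  have hw0' : (s : ℂ) / conj w ≠ 0 := by
    rw [← norm_pos_iff]
    exact lt_trans (by positivity) h1'
  obtain ⟨a1, a2⟩ := taylor0 h0 h4 hp hw0 h2
  obtain ⟨b1, b2⟩ := taylor0 h0 h4 hp hw0' h2'
  have a3 := summable_Ef hs h0 h4 hp h1 (h2.trans hbig)
  have b3 := summable_Ef hs h0 h4 hp h1' (h2'.trans hbig)
  have key : ∑' l : ℕ, (Tl p (l + 1) * ((s : ℂ) / conj w) ^ (l + 1) +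
      (Lam s (l + 1) : ℂ) * (Tl p (l + 1) * ((s : ℂ) / conj w) ^ (l + 1) +
    (-1) ^ (l + 1) * conj (Tl p (l + 1)) * (((s : ℂ) / conj w)⁻¹) ^ (l + 1))) =
      conj (∑' l : ℕ, (Tl p (l + 1) * w ^ (l + 1) +
      (Lam s (l + 1) : ℂ) * (Tl p (l + 1) * w ^ (l + 1) +
    (-1) ^ (l + 1) * conj (Tl p (l + 1)) * (w⁻¹) ^ (l + 1)))) := by
    rw [Complex.conj_tsum]
    refine tsum_congr fun l => ?_
    have hv : conj w ≠ 0 := by simpa using hw0
    have hσ : (s : ℂ) ≠ 0 := by exact_mod_cast hs0.ne'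
    have c1 : ((s : ℂ) / conj w) ^ (l + 1) = (s : ℂ) ^ (l + 1) * ((conj w) ^ (l + 1))⁻¹ := by
      rw [div_pow, div_eq_mul_inv]
    have c2 : (((s : ℂ) / conj w)⁻¹) ^ (l + 1) = (conj w) ^ (l + 1) * ((s : ℂ) ^ (l + 1))⁻¹ := by
      rw [inv_div, div_pow, div_eq_mul_inv]
    have c3 : conj (Tl p (l + 1) * w ^ (l + 1) +
      (Lam s (l + 1) : ℂ) * (Tl p (l + 1) * w ^ (l + 1) +
      (-1) ^ (l + 1) * conj (Tl p (l + 1)) * (w⁻¹) ^ (l + 1))) =
      conj (Tl p (l + 1)) * (conj w) ^ (l + 1) +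
      (Lam s (l + 1) : ℂ) * (conj (Tl p (l + 1)) * (conj w) ^ (l + 1) +
      (-1) ^ (l + 1) * Tl p (l + 1) * ((conj w) ^ (l + 1))⁻¹) := by
      simp only [map_mul, map_add, map_pow, map_neg, map_one, Complex.conj_conj,
        Complex.conj_ofReal, map_inv₀, inv_pow]
    rw [c3, c1, c2]
    have hE : ((-1 : ℂ) ^ (l + 1)) * (-1) ^ (l + 1) = 1 := by
      rw [← mul_pow]; simp
    have hSS : (s : ℂ) ^ (l + 1) * ((s : ℂ) ^ (l + 1))⁻¹ = 1 :=
      mul_inv_cancel₀ (pow_ne_zero _ hσ)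
    have hq : (1 : ℝ) - (-s) ^ (l + 1) ≠ 0 := by
      have e1 : |(-s) ^ (l + 1)| = s ^ (l + 1) := by
        rw [abs_pow, abs_neg, abs_of_pos hs0]
      have e2 : s ^ (l + 1) < 1 := pow_lt_one₀ hs0.le (by linarith [hs.2]) (by omega)
      have e3 : (-s) ^ (l + 1) < 1 := (le_abs_self _).trans_lt (by rwa [e1])
      linarith
    have hL : (Lam s (l + 1) : ℂ) * (1 - (-1) ^ (l + 1) * (s : ℂ) ^ (l + 1)) =
        (-1) ^ (l + 1) * (s : ℂ) ^ (l + 1) := by
      have : Lam s (l + 1) * (1 - (-s) ^ (l + 1)) = (-s) ^ (l + 1) := by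
        unfold Lam
        rw [div_mul_cancel₀ _ hq]
      have := congrArg (fun x : ℝ => (x : ℂ)) this
      simp only [Complex.ofReal_mul, Complex.ofReal_sub, Complex.ofReal_one, Complex.ofReal_pow,
        Complex.ofReal_neg] at this
      rw [← mul_pow, neg_one_mul]
      exact this
    generalize (Lam s (l + 1) : ℂ) = L at *
    generalize ((-1 : ℂ) ^ (l + 1)) = E at *
    generalize (s : ℂ) ^ (l + 1) = S at *
    generalize (conj w) ^ (l + 1) = V at *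
    generalize Tl p (l + 1) = T at *
    have k1 : S + L * S = L * E := by
      linear_combination (-E) * hL - (L * S + S) * hE
    have k3 : L * E * S⁻¹ = 1 + L := by
      linear_combination (-S⁻¹) * k1 + (1 + L) * hSS
    linear_combination (T * V⁻¹) * k1 + (conj T * V) * k3
  unfold Uf
  rw [a2, b2]
  unfold Ef
  rw [add_assoc, add_assoc, ← a1.tsum_add a3, ← b1.tsum_add b3, key]
  simp

/-- the symmetry along the rays near the inner circle -/
lemma ray_symm {s lam C : ℝ} {p : ℕ → ℂ} (hs : s ∈ Set.Icc (1 / 20 : ℝ) (1 / 6))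
    (h0 : 0 < lam) (h4 : lam ≤ 4)
    (hp : ∀ n, ‖p n‖ ≤ C * lam ^ n) {w : ℂ} (hw : ‖w‖ = √s) :
    ∀ᶠ t : ℝ in 𝓝 1, Uf s p ((t : ℂ) * w) = Uf s p (((t⁻¹ : ℝ) : ℂ) * w) := by
  have hs0 : 0 < s := by linarith [hs.1]
  have hsq : 0 < √s := Real.sqrt_pos.2 hs0
  have hs2 : √s ≤ 9 / 20 := by
    rw [Real.sqrt_le_left (by norm_num)]
    linarith [hs.2]
  have he : ∀ᶠ t : ℝ in 𝓝 1, t ∈ Set.Ioo (10 / 11 : ℝ) (11 / 10) :=
    Ioo_mem_nhds (by norm_num) (by norm_num)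
  filter_upwards [he] with t ht
  obtain ⟨t1, t2⟩ := ht
  have t0 : 0 < t := by linarith
  have ti1 : 10 / 11 < t⁻¹ := by
    rw [lt_inv_comm₀ (by norm_num) t0]
    linarith
  have ti2 : t⁻¹ < 11 / 10 := by
    rw [inv_lt_comm₀ t0 (by norm_num)]
    linarith
  have hw0 : w ≠ 0 := by
    rw [← norm_pos_iff, hw]
    exact hsq
  have hv : conj w ≠ 0 := by simpa using hw0
  have htc : (t : ℂ) ≠ 0 := by exact_mod_cast t0.ne'
  have hn : ∀ x : ℝ, 0 < x → ‖(x : ℂ) * w‖ = x * √s := by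
    intro x hx
    rw [norm_mul, Complex.norm_real, Real.norm_eq_abs, abs_of_pos hx, hw]
  have hr : (s : ℂ) / conj ((t : ℂ) * w) = ((t⁻¹ : ℝ) : ℂ) * w := by
    rw [map_mul, Complex.conj_ofReal, div_eq_iff (mul_ne_zero htc hv)]
    have : w * conj w = (s : ℂ) := by
      rw [Complex.mul_conj, Complex.normSq_eq_norm_sq, hw, Real.sq_sqrt hs0.le]
    rw [Complex.ofReal_inv]
    calc (s : ℂ) = w * conj w := this.symm
      _ = (t : ℂ)⁻¹ * w * (t * conj w) := by field_simp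
  have h := refl_symm (w := (t : ℂ) * w) hs h0 h4 hp ?_ ?_ ?_ ?_
  · rw [hr] at h
    exact h.symm
  · rw [hn t t0]
    nlinarith
  · rw [hr, hn _ (inv_pos.2 t0)]
    nlinarith
  · rw [hn t t0]
    nlinarith
  · rw [hr, hn _ (inv_pos.2 t0)]
    nlinarith

end HF12b

open HF12a HF12b

theorem f12b : F12b := by
  intro s lam C p hs h0 h4 hp w hw
  have hs0 : 0 < s := by linarith [hs.1]
  have hsq : 0 < √s := Real.sqrt_pos.2 hs0
  apply radial_zero
  rcases hw with hw | hw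
  · exact ray_symm hs h0 h4 hp hw
  · have hw0 : w ≠ 0 := by
      rw [← norm_pos_iff, hw]
      positivity
    have hi : ‖iot w‖ = √s := by
      unfold iot
      rw [norm_div, norm_neg, norm_one, RCLike.norm_conj, hw, one_div_one_div]
    have hiot : ∀ x : ℝ, x ≠ 0 → iot ((x : ℂ) * w) = ((x⁻¹ : ℝ) : ℂ) * iot w := by
      intro x hx
      have hxc : (x : ℂ) ≠ 0 := by exact_mod_cast hx
      have hv : conj w ≠ 0 := by simpa using hw0
      unfold iot
      rw [map_mul, Complex.conj_ofReal, Complex.ofReal_inv]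
      field_simp
    have hinv := (f12a s lam C p hs h0 h4 hp).2.2.2
    have hU : ∀ x : ℝ, x ≠ 0 → Uf s p ((x : ℂ) * w) = Uf s p (((x⁻¹ : ℝ) : ℂ) * iot w) := by
      intro x hx
      have hxc : (x : ℂ) ≠ 0 := by exact_mod_cast hx
      rw [← hiot x hx, hinv _ (mul_ne_zero hxc hw0)]
    have hne : ∀ᶠ t : ℝ in 𝓝 1, t ≠ 0 := isOpen_ne.mem_nhds one_ne_zero
    filter_upwards [ray_symm hs h0 h4 hp hi, hne] with t ht ht0
    rw [hU t ht0, hU _ (inv_ne_zero ht0), inv_inv]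
    exact ht.symm

end Pool.Agent.Stek
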