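import Pool.Agent.Stek.PS7
import Pool.Agent.Stek.PF12a

/-!
# F12c
-/

open scoped BigOperators ComplexConjugate Topology ContDiff
open Complex Metric InnerProductSpace

noncomputable section

namespace Pool.Agent.Stek

namespace HF12c

lemma hs_Y (L : ℕ) (u : ℂ) :
    HasSum (fun m : ℕ => (L.choose (m + 1) : ℂ) * u ^ (m + 1)) ((1 + u) ^ L - 1) := by
  have h : HasSum (fun m : ℕ => (L.choose m : ℂ) * u ^ m) ((1 + u) ^ L) := by
    have e : (1 + u) ^ L = ∑ m ∈ Finset.range (L + 1), (L.choose m : ℂ) * u ^ m := by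
      rw [add_comm, add_pow]
      refine Finset.sum_congr rfl fun m _ => ?_
      rw [one_pow, mul_one, mul_comm]
    rw [e]
    refine hasSum_sum_of_ne_finset_zero fun m hm => ?_
    rw [Finset.mem_range, not_lt] at hm
    rw [Nat.choose_eq_zero_of_lt (by omega), Nat.cast_zero, zero_mul]
  have h2 := (hasSum_nat_add_iff' 1).2 h
  simpa using h2

lemma hs_Z (l : ℕ) {u : ℂ} (hu : ‖u‖ < 1) :
    HasSum (fun m : ℕ => (-1 : ℂ) ^ (m + 1) * ((l + (m + 1)).choose (m + 1) : ℂ) * u ^ (m + 1))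
      (((1 + u)⁻¹) ^ (l + 1) - 1) := by
  have h := hasSum_choose_mul_geometric_of_norm_lt_one l (r := -u) (by rwa [norm_neg])
  have h2 := (hasSum_nat_add_iff' 1).2 h
  have e : (1 : ℂ) / (1 - -u) ^ (l + 1) -
      ∑ i ∈ Finset.range 1, ((i + l).choose l : ℂ) * (-u) ^ i = ((1 + u)⁻¹) ^ (l + 1) - 1 := by
    simp
  rw [e] at h2
  refine h2.congr_fun ?_ |> fun h => h
  intro m
  have e1 : (m + 1 + l).choose l = (l + (m + 1)).choose (m + 1) := by
    rw [add_comm (m + 1) l]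
    exact (Nat.choose_symm_add).symm ▸ rfl
  rw [e1, neg_pow]
  ring

lemma hs_fs {u : ℂ} (hu : ‖u‖ < 1) :
    HasSum (fun m : ℕ => ((PowerSeries.coeff m PS7.fs : ℝ) : ℂ) * u ^ m) ((1 + u) / (2 + u)) := by
  have hu2 : ‖-(u / 2)‖ < 1 := by
    rw [norm_neg, norm_div]
    have : ‖(2 : ℂ)‖ = 2 := by simp
    rw [this]
    linarith [norm_nonneg u]
  have h1 := (hasSum_geometric_of_norm_lt_one hu2).mul_left (1 / 2 : ℂ)
  have h2 : HasSum (fun m : ℕ => if m = 0 then (1 : ℂ) else 0) 1 := hasSum_ite_eq 0 1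
  have h3 := h2.sub h1
  have hne : (2 : ℂ) + u ≠ 0 := by
    intro h
    have : u = -2 := by linear_combination h
    rw [this] at hu
    norm_num at hu
  have e : (1 : ℂ) - 1 / 2 * (1 - -(u / 2))⁻¹ = (1 + u) / (2 + u) := by
    have hne2 : (1 : ℂ) - -(u / 2) = (2 + u) / 2 := by ring
    rw [hne2, inv_div]
    field_simp
    ring
  rw [e] at h3
  refine h3.congr_fun ?_ |> fun h => h
  intro m
  unfold PS7.fs
  rw [PowerSeries.coeff_mk]
  split_ifs with hm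
  · subst hm
    norm_num
  · push_cast
    rw [neg_pow (u / 2) m, div_pow, pow_succ]
    field_simp
    ring

lemma norm_le_pow {c : ℕ → ℝ} (hc : ∀ m, |c m| ≤ 1) (u : ℂ) (m : ℕ) :
    ‖(c m : ℂ) * u ^ m‖ ≤ ‖u‖ ^ m := by
  rw [norm_mul, norm_pow, Complex.norm_real, Real.norm_eq_abs]
  calc |c m| * ‖u‖ ^ m ≤ 1 * ‖u‖ ^ m := by gcongr; exact hc m
    _ = _ := one_mul _

lemma hs_tau (N : ℕ) {u : ℂ} (hu : ‖u‖ < 1) :
    HasSum (fun m : ℕ => (tau N m : ℂ) * u ^ m) (((1 + u) / (2 + u)) ^ N) := by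
  have geo : Summable (fun m : ℕ => ‖u‖ ^ m) := summable_geometric_of_lt_one (norm_nonneg _) hu
  induction N with
  | zero =>
    rw [pow_zero]
    have e : (fun m : ℕ => (tau 0 m : ℂ) * u ^ m) = fun m => if m = 0 then 1 else 0 := by
      funext m
      have : tau 0 m = if m = 0 then 1 else 0 := by
        show PowerSeries.coeff m (PS7.fs ^ 0) = _
        rw [pow_zero, PowerSeries.coeff_one]
      rw [this]
      split_ifs with hm
      · subst hm; simp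
      · simp
    rw [e]
    exact hasSum_ite_eq 0 1
  | succ N ih =>
    have s1 : Summable (fun m : ℕ => ‖(tau N m : ℂ) * u ^ m‖) :=
      Summable.of_nonneg_of_le (fun _ => norm_nonneg _)
        (norm_le_pow (fun m => PS7.tau_le N m) u) geo
    have f1 : ∀ m, |PowerSeries.coeff m PS7.fs| ≤ 1 := fun m => by
      rw [PS7.fs_abs]
      have : ((1 : ℝ) / 2) ^ m ≤ 1 := pow_le_one₀ (by norm_num) (by norm_num)
      linarith
    have s2 : Summable (fun m : ℕ => ‖((PowerSeries.coeff m PS7.fs : ℝ) : ℂ) * u ^ m‖) :=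
      Summable.of_nonneg_of_le (fun _ => norm_nonneg _) (norm_le_pow f1 u) geo
    have h := tsum_mul_tsum_eq_tsum_sum_antidiagonal_of_summable_norm s1 s2
    have hs := (summable_norm_sum_mul_antidiagonal_of_summable_norm s1 s2).of_norm
    rw [ih.tsum_eq, (hs_fs hu).tsum_eq, ← pow_succ] at h
    have hh := hs.hasSum
    rw [← h] at hh
    refine hh.congr_fun ?_ |> fun h => h
    intro m
    have e1 : tau (N + 1) m = ∑ q ∈ Finset.HasAntidiagonal.antidiagonal m, tau N q.1 *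
        PowerSeries.coeff q.2 PS7.fs := by
      show PowerSeries.coeff m (PS7.fs ^ (N + 1)) = _
      rw [pow_succ, PowerSeries.coeff_mul]
      rfl
    rw [e1]
    push_cast
    rw [Finset.sum_mul]
    refine Finset.sum_congr rfl fun q hq => ?_
    rw [Finset.HasAntidiagonal.mem_antidiagonal] at hq
    rw [← hq, pow_add]
    ring

/-- the numbers `RR ^ (n + 1) * p (n + 1)` -/
def aa (p : ℕ → ℂ) (n : ℕ) : ℂ := (RR : ℂ) ^ (n + 1) * p (n + 1)

lemma aa_le {lam C : ℝ} {p : ℕ → ℂ} (h0 : 0 < lam) (h4 : lam ≤ 4)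
    (hp : ∀ n, ‖p n‖ ≤ C * lam ^ n) (n : ℕ) : ‖aa p n‖ ≤ C * (1 / 10) ^ (n + 1) := by
  have hC : 0 ≤ C := by simpa using (norm_nonneg _).trans (hp 0)
  have hR := HF12a.RR_pos
  have hR' := HF12a.RR_small
  unfold aa
  rw [norm_mul, norm_pow, Complex.norm_real, Real.norm_eq_abs, abs_of_pos hR]
  calc RR ^ (n + 1) * ‖p (n + 1)‖ ≤ RR ^ (n + 1) * (C * lam ^ (n + 1)) := by
        gcongr; exact hp _
    _ = C * (RR * lam) ^ (n + 1) := by rw [mul_pow]; ring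
    _ ≤ C * (1 / 10) ^ (n + 1) := by
        gcongr
        nlinarith

/-- the terms of the triple series -/
def Ft (s : ℝ) (p : ℕ → ℂ) (u : ℂ) (l n m : ℕ) : ℂ :=
  (Lam s (l + 1) : ℂ) * ((PS7.cE (n + 1) (m + 1) l : ℂ) * aa p n +
    (PS7.cO (n + 1) (m + 1) l : ℂ) * conj (aa p n)) * u ^ (m + 1)

lemma Ft_le {s lam C : ℝ} {p : ℕ → ℂ} (hs : s ∈ Set.Icc (1 / 20 : ℝ) (1 / 6)) (h0 : 0 < lam)
    (h4 : lam ≤ 4) (hp : ∀ n, ‖p n‖ ≤ C * lam ^ n) {u : ℂ} (hu : ‖u‖ < 1 / 4) (l n m : ℕ) :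
    ‖Ft s p u l n m‖ ≤ C * ((2 / 3) ^ l * ((1 / 5) ^ n * (1 / 2) ^ m)) := by
  have hC : 0 ≤ C := by simpa using (norm_nonneg _).trans (hp 0)
  have ha := aa_le h0 h4 hp n
  have h1 := PS7.lam_le hs l
  have h2 := PS7.cE_le (n := n + 1) (m := m + 1) (by omega) (by omega) l
  have h3 := PS7.cO_le (n := n + 1) (m := m + 1) (by omega) (by omega) l
  have hb : ‖(PS7.cE (n + 1) (m + 1) l : ℂ) * aa p n +
      (PS7.cO (n + 1) (m + 1) l : ℂ) * conj (aa p n)‖ ≤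
      2 * ((3 / 2 * 2 ^ (n + 1 + (m + 1))) * 4 ^ l * (C * (1 / 10) ^ (n + 1))) := by
    refine (norm_add_le _ _).trans ?_
    rw [norm_mul, norm_mul, RCLike.norm_conj, Complex.norm_real, Complex.norm_real,
      Real.norm_eq_abs, Real.norm_eq_abs, two_mul]
    gcongr
  have hu' : ‖u‖ ^ (m + 1) ≤ (1 / 4) ^ (m + 1) := pow_le_pow_left₀ (norm_nonneg _) hu.le _
  unfold Ft
  rw [norm_mul, norm_mul, norm_pow, Complex.norm_real, Real.norm_eq_abs]
  calc |Lam s (l + 1)| * ‖(PS7.cE (n + 1) (m + 1) l : ℂ) * aa p n +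
      (PS7.cO (n + 1) (m + 1) l : ℂ) * conj (aa p n)‖ * ‖u‖ ^ (m + 1)
      ≤ (1 / 5 * (1 / 6) ^ l) *
        (2 * ((3 / 2 * 2 ^ (n + 1 + (m + 1))) * 4 ^ l * (C * (1 / 10) ^ (n + 1)))) *
        (1 / 4) ^ (m + 1) := by gcongr
    _ = 3 / 50 * C * (((1 / 6) * 4) ^ l * (((1 / 10) * 2) ^ n * (2 * (1 / 4)) ^ m)) := by
        rw [mul_pow, mul_pow, mul_pow, pow_add, pow_succ, pow_succ, pow_succ, pow_succ]
        ring
    _ = 3 / 50 * (C * ((2 / 3) ^ l * ((1 / 5) ^ n * (1 / 2) ^ m))) := by norm_num; ring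
    _ ≤ C * ((2 / 3) ^ l * ((1 / 5) ^ n * (1 / 2) ^ m)) := by
        have : 0 ≤ C * ((2 / 3) ^ l * ((1 / 5) ^ n * (1 / 2) ^ m)) := by positivity
        linarith

lemma geo2 : Summable (fun x : ℕ × ℕ => ((1 / 5 : ℝ) ^ x.1 * (1 / 2) ^ x.2)) :=
  Summable.mul_of_nonneg (summable_geometric_of_lt_one (by norm_num) (by norm_num))
    (summable_geometric_of_lt_one (by norm_num) (by norm_num)) (fun _ => by positivity)
    (fun _ => by positivity)

lemma geo3 : Summable (fun x : ℕ × (ℕ × ℕ) =>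
    ((2 / 3 : ℝ) ^ x.1 * ((1 / 5) ^ x.2.1 * (1 / 2) ^ x.2.2))) :=
  Summable.mul_of_nonneg (summable_geometric_of_lt_one (by norm_num) (by norm_num))
    geo2 (fun _ => by positivity) (fun _ => by positivity)

/-- the terms of `Tl p (l + 1)` -/
def X (p : ℕ → ℂ) (l n : ℕ) : ℂ :=
  (RR : ℂ) ^ (n + 1) * ((-1) ^ (n + 1) * ((n + (l + 1)).choose (l + 1) : ℂ) * p (n + 1) +
    (-1) ^ (l + 1) * ((l + 1 - 1).choose n : ℂ) * conj (p (n + 1)))

lemma X_le {lam C : ℝ} {p : ℕ → ℂ} (h0 : 0 < lam) (h4 : lam ≤ 4)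
    (hp : ∀ n, ‖p n‖ ≤ C * lam ^ n) (l n : ℕ) :
    ‖X p l n‖ ≤ C * 2 ^ (l + 1) * (1 / 5) ^ n := by
  have hC : 0 ≤ C := by simpa using (norm_nonneg _).trans (hp 0)
  have ha := aa_le h0 h4 hp n
  have e : X p l n = (-1) ^ (n + 1) * ((n + (l + 1)).choose (l + 1) : ℂ) * aa p n +
      (-1) ^ (l + 1) * ((l + 1 - 1).choose n : ℂ) * conj (aa p n) := by
    unfold X aa
    rw [map_mul, map_pow, Complex.conj_ofReal]
    ring
  have c1 : ((n + (l + 1)).choose (l + 1) : ℝ) ≤ 2 ^ (n + (l + 1)) := PS7.ch _ _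
  have c2 : ((l + 1 - 1).choose n : ℝ) ≤ 2 ^ (n + (l + 1)) :=
    (PS7.ch _ _).trans (pow_le_pow_right₀ (by norm_num) (by omega))
  rw [e]
  refine (norm_add_le _ _).trans ?_
  rw [norm_mul, norm_mul, norm_mul, norm_mul, norm_pow, norm_pow, norm_neg, norm_one, one_pow,
    one_pow, one_mul, one_mul, Complex.norm_natCast, Complex.norm_natCast, RCLike.norm_conj]
  calc ((n + (l + 1)).choose (l + 1) : ℝ) * ‖aa p n‖ + ((l + 1 - 1).choose n : ℝ) * ‖aa p n‖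
      ≤ 2 ^ (n + (l + 1)) * (C * (1 / 10) ^ (n + 1)) +
        2 ^ (n + (l + 1)) * (C * (1 / 10) ^ (n + 1)) := by gcongr
    _ = 1 / 5 * (C * 2 ^ (l + 1) * ((2 * (1 / 10)) ^ n)) := by
        rw [mul_pow, pow_add, pow_succ (1 / 10 : ℝ) n]; ring
    _ = 1 / 5 * (C * 2 ^ (l + 1) * (1 / 5) ^ n) := by norm_num
    _ ≤ C * 2 ^ (l + 1) * (1 / 5) ^ n := by
        have : 0 ≤ C * 2 ^ (l + 1) * (1 / 5) ^ n := by positivity
        linarith

lemma X_summable {lam C : ℝ} {p : ℕ → ℂ} (h0 : 0 < lam) (h4 : lam ≤ 4)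
    (hp : ∀ n, ‖p n‖ ≤ C * lam ^ n) (l : ℕ) : Summable (fun n => ‖X p l n‖) :=
  Summable.of_nonneg_of_le (fun _ => norm_nonneg _) (X_le h0 h4 hp l)
    ((summable_geometric_of_lt_one (by norm_num) (by norm_num)).mul_left _)

lemma X_hasSum {lam C : ℝ} {p : ℕ → ℂ} (h0 : 0 < lam) (h4 : lam ≤ 4)
    (hp : ∀ n, ‖p n‖ ≤ C * lam ^ n) (l : ℕ) : HasSum (fun n => X p l n) (Tl p (l + 1)) :=
  (X_summable h0 h4 hp l).of_norm.hasSum

lemma Ft_split (s : ℝ) (p : ℕ → ℂ) (u : ℂ) (l n m : ℕ) :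
    Ft s p u l n m = (Lam s (l + 1) : ℂ) * (X p l n * (((l + 1).choose (m + 1) : ℂ) * u ^ (m + 1)) +
      (-1) ^ (l + 1) * (conj (X p l n) *
        ((-1) ^ (m + 1) * ((l + (m + 1)).choose (m + 1) : ℂ) * u ^ (m + 1)))) := by
  unfold Ft X aa PS7.cE PS7.cO
  have e1 : n + 1 + l = n + (l + 1) := by omega
  have e2 : n + 1 - 1 = n := by omega
  have e3 : l + 1 - 1 = l := by omega
  have e4 : ((-1 : ℂ)) ^ (l + 1) * (-1) ^ (l + 1) = 1 := by rw [← mul_pow]; simp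
  rw [e1, e2, e3]
  simp only [map_mul, map_pow, map_add, map_neg, map_one, Complex.conj_ofReal, Complex.conj_natCast,
    Complex.conj_conj]
  push_cast
  rw [pow_add (-1 : ℂ) (m + 1) (n + 1)]
  linear_combination (-(Lam s (l + 1) : ℂ) * (-1) ^ (m + 1) * ((l + (m + 1)).choose (m + 1) : ℂ) *
    ((l.choose n : ℂ)) * (RR : ℂ) ^ (n + 1) * p (n + 1) * u ^ (m + 1)) * e4

lemma norm_summable_of {f : ℕ → ℂ} {g : ℕ → ℝ} (h : ∀ n, ‖f n‖ ≤ g n) (hg : Summable g) :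
    Summable (fun n => ‖f n‖) :=
  Summable.of_nonneg_of_le (fun _ => norm_nonneg _) h hg

lemma Y_summable (l : ℕ) {u : ℂ} (hu : ‖u‖ < 1 / 4) :
    Summable (fun m : ℕ => ‖((l + 1).choose (m + 1) : ℂ) * u ^ (m + 1)‖) := by
  have geo : Summable (fun m : ℕ => (1 / 2 : ℝ) ^ m) :=
    summable_geometric_of_lt_one (by norm_num) (by norm_num)
  refine norm_summable_of (g := fun m => 2 ^ (l + 1) * (1 / 2) ^ m) (fun m => ?_)
    (geo.mul_left _)
  have hu' : ‖u‖ ^ (m + 1) ≤ (1 / 4) ^ (m + 1) := pow_le_pow_left₀ (norm_nonneg _) hu.le _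
  have hc := PS7.ch (l + 1) (m + 1)
  rw [norm_mul, norm_pow, Complex.norm_natCast]
  calc ((l + 1).choose (m + 1) : ℝ) * ‖u‖ ^ (m + 1) ≤ 2 ^ (l + 1) * (1 / 4) ^ (m + 1) :=
        mul_le_mul hc hu' (by positivity) (by positivity)
    _ ≤ 2 ^ (l + 1) * (1 / 2) ^ m := by
        refine mul_le_mul_of_nonneg_left ?_ (by positivity)
        rw [pow_succ]
        have : (1 / 4 : ℝ) ^ m ≤ (1 / 2) ^ m := pow_le_pow_left₀ (by norm_num) (by norm_num) _
        have h0 : (0 : ℝ) ≤ (1 / 4) ^ m := by positivity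
        linarith

lemma Z_summable (l : ℕ) {u : ℂ} (hu : ‖u‖ < 1 / 4) :
    Summable (fun m : ℕ =>
      ‖(-1 : ℂ) ^ (m + 1) * ((l + (m + 1)).choose (m + 1) : ℂ) * u ^ (m + 1)‖) := by
  have geo : Summable (fun m : ℕ => (1 / 2 : ℝ) ^ m) :=
    summable_geometric_of_lt_one (by norm_num) (by norm_num)
  refine norm_summable_of (g := fun m => 2 ^ (l + 1) * (1 / 2) ^ m) (fun m => ?_)
    (geo.mul_left _)
  have hu' : ‖u‖ ^ (m + 1) ≤ (1 / 4) ^ (m + 1) := pow_le_pow_left₀ (norm_nonneg _) hu.le _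
  have hc := PS7.ch (l + (m + 1)) (m + 1)
  rw [norm_mul, norm_mul, norm_pow, norm_pow, norm_neg, norm_one, one_pow, one_mul,
    Complex.norm_natCast]
  calc ((l + (m + 1)).choose (m + 1) : ℝ) * ‖u‖ ^ (m + 1)
      ≤ 2 ^ (l + (m + 1)) * (1 / 4) ^ (m + 1) := mul_le_mul hc hu' (by positivity) (by positivity)
    _ = 1 / 4 * (2 ^ (l + 1) * (2 * (1 / 4)) ^ m) := by
        rw [mul_pow, pow_add, pow_succ, pow_succ, pow_succ]; ring
    _ = 1 / 4 * (2 ^ (l + 1) * (1 / 2) ^ m) := by norm_num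
    _ ≤ 2 ^ (l + 1) * (1 / 2) ^ m := by
        have : (0 : ℝ) ≤ 2 ^ (l + 1) * (1 / 2) ^ m := by positivity
        linarith

lemma hasSum_mul' {f g : ℕ → ℂ} {a b : ℂ} (hf : HasSum f a) (hg : HasSum g b)
    (hf' : Summable (fun n => ‖f n‖)) (hg' : Summable (fun n => ‖g n‖)) :
    HasSum (fun x : ℕ × ℕ => f x.1 * g x.2) (a * b) :=
  hf.mul hg (summable_mul_of_summable_norm hf' hg')

/-- sum over `n` and `m` -/
lemma fib_l {s lam C : ℝ} {p : ℕ → ℂ} (h0 : 0 < lam)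
    (h4 : lam ≤ 4) (hp : ∀ n, ‖p n‖ ≤ C * lam ^ n) {u : ℂ} (hu : ‖u‖ < 1 / 4) (l : ℕ) :
    HasSum (fun x : ℕ × ℕ => Ft s p u l x.1 x.2)
      ((Lam s (l + 1) : ℂ) * (Tl p (l + 1) * ((1 + u) ^ (l + 1) - 1) +
        (-1) ^ (l + 1) * (conj (Tl p (l + 1)) * (((1 + u)⁻¹) ^ (l + 1) - 1)))) := by
  have hX := X_hasSum h0 h4 hp l
  have hXs := X_summable h0 h4 hp l
  have hX' : HasSum (fun n => conj (X p l n)) (conj (Tl p (l + 1))) := by
    rw [Complex.hasSum_conj, Complex.conj_conj]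
    exact hX
  have hXs' : Summable (fun n => ‖conj (X p l n)‖) := by
    simp only [RCLike.norm_conj]
    exact hXs
  have hu1 : ‖u‖ < 1 := by linarith
  have h1 := hasSum_mul' hX (hs_Y (l + 1) u) hXs (Y_summable l hu)
  have h2 := hasSum_mul' hX' (hs_Z l hu1) hXs' (Z_summable l hu)
  have h3 := (h1.add (h2.mul_left ((-1 : ℂ) ^ (l + 1)))).mul_left (Lam s (l + 1) : ℂ)
  have e : (fun x : ℕ × ℕ => Ft s p u l x.1 x.2) = fun x : ℕ × ℕ => (Lam s (l + 1) : ℂ) *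
      (X p l x.1 * (((l + 1).choose (x.2 + 1) : ℂ) * u ^ (x.2 + 1)) +
      (-1) ^ (l + 1) * (conj (X p l x.1) *
        ((-1) ^ (x.2 + 1) * ((l + (x.2 + 1)).choose (x.2 + 1) : ℂ) * u ^ (x.2 + 1)))) :=
    funext fun x => Ft_split s p u l x.1 x.2
  rw [e]
  exact h3

/-- the coefficients of the second arrangement -/
def kk (s : ℝ) (p : ℕ → ℂ) (n m : ℕ) : ℂ :=
  ((PS7.SS (PS7.cE (n + 1) (m + 1)) s : ℝ) : ℂ) * aa p n +
    ((PS7.SS (PS7.cO (n + 1) (m + 1)) s : ℝ) : ℂ) * conj (aa p n)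

lemma fib_n {s : ℝ} (hs : s ∈ Set.Icc (1 / 20 : ℝ) (1 / 6)) (p : ℕ → ℂ) (u : ℂ) (n m : ℕ) :
    HasSum (fun l => Ft s p u l n m) (kk s p n m * u ^ (m + 1)) := by
  have h1 := (PS7.SS_summable hs (B := 3 / 2 * 2 ^ (n + 1 + (m + 1))) (by positivity)
    (PS7.cE_le (n := n + 1) (m := m + 1) (by omega) (by omega))).hasSum
  have h2 := (PS7.SS_summable hs (B := 3 / 2 * 2 ^ (n + 1 + (m + 1))) (by positivity)
    (PS7.cO_le (n := n + 1) (m := m + 1) (by omega) (by omega))).hasSum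
  have h1' : HasSum (fun l => ((Lam s (l + 1) * PS7.cE (n + 1) (m + 1) l : ℝ) : ℂ))
      ((PS7.SS (PS7.cE (n + 1) (m + 1)) s : ℝ) : ℂ) := Complex.hasSum_ofReal.2 h1
  have h2' : HasSum (fun l => ((Lam s (l + 1) * PS7.cO (n + 1) (m + 1) l : ℝ) : ℂ))
      ((PS7.SS (PS7.cO (n + 1) (m + 1)) s : ℝ) : ℂ) := Complex.hasSum_ofReal.2 h2
  have h3 := ((h1'.mul_right (aa p n)).add (h2'.mul_right (conj (aa p n)))).mul_right
    (u ^ (m + 1))
  have e : (fun l => Ft s p u l n m) = fun l =>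
      (((Lam s (l + 1) * PS7.cE (n + 1) (m + 1) l : ℝ) : ℂ) * aa p n +
        ((Lam s (l + 1) * PS7.cO (n + 1) (m + 1) l : ℝ) : ℂ) * conj (aa p n)) * u ^ (m + 1) := by
    funext l
    unfold Ft
    push_cast
    ring
  rw [e]
  exact h3

/-- the terms coming from `Pi'` -/
def HH (p : ℕ → ℂ) (u : ℂ) (n m : ℕ) : ℂ :=
  (-1) ^ (n + 1) * conj (aa p n) * ((tau (n + 1) (m + 1) : ℂ) * u ^ (m + 1))

lemma HH_le {lam C : ℝ} {p : ℕ → ℂ} (h0 : 0 < lam) (h4 : lam ≤ 4)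
    (hp : ∀ n, ‖p n‖ ≤ C * lam ^ n) {u : ℂ} (hu : ‖u‖ < 1 / 4) (n m : ℕ) :
    ‖HH p u n m‖ ≤ C * ((1 / 5) ^ n * (1 / 2) ^ m) := by
  have hC : 0 ≤ C := by simpa using (norm_nonneg _).trans (hp 0)
  have ha := aa_le h0 h4 hp n
  have hu' : ‖u‖ ^ (m + 1) ≤ (1 / 4) ^ (m + 1) := pow_le_pow_left₀ (norm_nonneg _) hu.le _
  have ht := PS7.tau_le (n + 1) (m + 1)
  unfold HH
  rw [norm_mul, norm_mul, norm_mul, norm_pow, norm_pow, norm_neg, norm_one, one_pow, one_mul,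
    RCLike.norm_conj, Complex.norm_real, Real.norm_eq_abs]
  have e1 : |tau (n + 1) (m + 1)| * ‖u‖ ^ (m + 1) ≤ 1 * (1 / 4) ^ (m + 1) :=
    mul_le_mul ht hu' (by positivity) (by norm_num)
  have e2 : (1 / 10 : ℝ) ^ (n + 1) ≤ (1 / 5) ^ n := by
    rw [pow_succ]
    have a1 : (1 / 10 : ℝ) ^ n ≤ (1 / 5) ^ n := pow_le_pow_left₀ (by norm_num) (by norm_num) _
    have a2 : (0 : ℝ) ≤ (1 / 10) ^ n := by positivity
    linarith
  have e3 : (1 / 4 : ℝ) ^ (m + 1) ≤ (1 / 2) ^ m := by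
    rw [pow_succ]
    have a1 : (1 / 4 : ℝ) ^ m ≤ (1 / 2) ^ m := pow_le_pow_left₀ (by norm_num) (by norm_num) _
    have a2 : (0 : ℝ) ≤ (1 / 4) ^ m := by positivity
    linarith
  calc ‖aa p n‖ * (|tau (n + 1) (m + 1)| * ‖u‖ ^ (m + 1))
      ≤ (C * (1 / 10) ^ (n + 1)) * (1 * (1 / 4) ^ (m + 1)) :=
        mul_le_mul ha e1 (by positivity) (by positivity)
    _ ≤ (C * (1 / 5) ^ n) * (1 * (1 / 2) ^ m) := by gcongr
    _ = _ := by ring

lemma tau_zero (N : ℕ) : tau N 0 = (1 / 2) ^ N := by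
  show PowerSeries.coeff 0 (PS7.fs ^ N) = _
  rw [PowerSeries.coeff_zero_eq_constantCoeff_apply, map_pow]
  congr 1

lemma fib_H (p : ℕ → ℂ) {u : ℂ} (hu : ‖u‖ < 1) (n : ℕ) :
    HasSum (fun m => HH p u n m)
      ((-1) ^ (n + 1) * conj (aa p n) * (((1 + u) / (2 + u)) ^ (n + 1) - (1 / 2) ^ (n + 1))) := by
  have h := (hasSum_nat_add_iff' 1).2 (hs_tau (n + 1) hu)
  have e : ((1 + u) / (2 + u)) ^ (n + 1) - ∑ i ∈ Finset.range 1, (tau (n + 1) i : ℂ) * u ^ i =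
      ((1 + u) / (2 + u)) ^ (n + 1) - (1 / 2) ^ (n + 1) := by
    rw [Finset.sum_range_one, tau_zero, pow_zero, mul_one]
    push_cast
    ring
  rw [e] at h
  exact h.mul_left _

lemma Pi_hasSum {lam C : ℝ} {p : ℕ → ℂ} (h0 : 0 < lam) (h4 : lam ≤ 4)
    (hp : ∀ n, ‖p n‖ ≤ C * lam ^ n) {w : ℂ} (hw : w ≠ 0) (hq : ‖w / (1 + w)‖ ≤ 1) :
    HasSum (fun n => (-1) ^ (n + 1) * conj (aa p n) * (w / (1 + w)) ^ (n + 1)) (Pi' p w) := by
  have hC : 0 ≤ C := by simpa using (norm_nonneg _).trans (hp 0)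
  have hs : Summable (fun n => (-1) ^ (n + 1) * conj (aa p n) * (w / (1 + w)) ^ (n + 1)) := by
    refine Summable.of_norm_bounded (g := fun n => C * (1 / 10) * (1 / 10) ^ n)
      ((summable_geometric_of_lt_one (by norm_num) (by norm_num)).mul_left _) fun n => ?_
    rw [norm_mul, norm_mul, norm_pow, norm_pow, norm_neg, norm_one, one_pow, one_mul,
      RCLike.norm_conj]
    calc ‖aa p n‖ * ‖w / (1 + w)‖ ^ (n + 1) ≤ (C * (1 / 10) ^ (n + 1)) * 1 :=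
          mul_le_mul (aa_le h0 h4 hp n) (pow_le_one₀ (norm_nonneg _) hq) (by positivity)
            (by positivity)
      _ = _ := by rw [pow_succ]; ring
  have e : Pi' p w = ∑' n, (-1) ^ (n + 1) * conj (aa p n) * (w / (1 + w)) ^ (n + 1) := by
    unfold Pi' Pf
    rw [Complex.conj_tsum]
    refine tsum_congr fun n => ?_
    have e1 : conj ((RR : ℂ) / (iot w - 1)) = -((RR : ℂ) * (w / (1 + w))) := by
      unfold iot
      simp only [map_div₀, map_sub, map_neg, map_one, Complex.conj_conj, Complex.conj_ofReal]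
      have e2 : -1 / w - 1 = -((1 + w) / w) := by field_simp; ring
      rw [e2, div_neg, div_div_eq_mul_div, mul_div_assoc]
    rw [map_mul, map_pow, e1]
    unfold aa
    rw [map_mul, map_pow, Complex.conj_ofReal, neg_pow, mul_pow]
    ring
  rw [e]
  exact hs.hasSum

lemma E_summable {s lam C : ℝ} {p : ℕ → ℂ} (hs : s ∈ Set.Icc (1 / 20 : ℝ) (1 / 6)) (h0 : 0 < lam)
    (h4 : lam ≤ 4) (hp : ∀ n, ‖p n‖ ≤ C * lam ^ n) {w : ℂ} (hw : ‖w‖ < 2) (hw' : ‖w⁻¹‖ < 2) :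
    Summable (fun l : ℕ => (Lam s (l + 1) : ℂ) * (Tl p (l + 1) * w ^ (l + 1) +
      (-1) ^ (l + 1) * conj (Tl p (l + 1)) * (w⁻¹) ^ (l + 1))) := by
  have hC : 0 ≤ C := by simpa using (norm_nonneg _).trans (hp 0)
  have hb : ∀ l : ℕ, ‖(Lam s (l + 1) : ℂ) * Tl p (l + 1)‖ ≤ 2 / 5 * C * (1 / 3) ^ l := by
    intro l
    rw [norm_mul, Complex.norm_real, Real.norm_eq_abs]
    calc |Lam s (l + 1)| * ‖Tl p (l + 1)‖ ≤ (1 / 5 * (1 / 6) ^ l) * (C * 2 ^ (l + 1)) :=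
          mul_le_mul (PS7.lam_le hs l) (HF12a.Tl_bound h0 h4 hp (l + 1)) (norm_nonneg _)
            (by positivity)
      _ = 2 / 5 * C * ((1 / 6) * 2) ^ l := by rw [mul_pow, pow_succ]; ring
      _ = 2 / 5 * C * (1 / 3) ^ l := by norm_num
  have hb' : ∀ l : ℕ, ‖(Lam s (l + 1) : ℂ) * ((-1) ^ (l + 1) * conj (Tl p (l + 1)))‖ ≤
      2 / 5 * C * (1 / 3) ^ l := by
    intro l
    have := hb l
    rw [norm_mul] at this ⊢
    rw [norm_mul, norm_pow, norm_neg, norm_one, one_pow, one_mul, RCLike.norm_conj]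
    exact this
  have s1 := HF12a.ps_summable _ _ _ (by norm_num) hb (u := w) (by linarith)
  have s2 := HF12a.ps_summable _ _ _ (by norm_num) hb' (u := w⁻¹) (by linarith)
  refine (s1.add s2).congr fun l => ?_
  ring

end HF12c

open HF12c in
theorem f12c : F12c := by
  intro s lam C p hs h0 h4 hp w hw
  have hC : 0 ≤ C := by simpa using (norm_nonneg _).trans (hp 0)
  obtain ⟨u, rfl⟩ : ∃ u, w = 1 + u := ⟨w - 1, by ring⟩
  have hu : ‖u‖ < 1 / 4 := by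
    rw [mem_ball, dist_eq_norm] at hw
    simpa using hw
  have hu1 : ‖u‖ < 1 := by linarith
  -- norms
  have n1 : ‖1 + u‖ ≤ 5 / 4 := (norm_add_le _ _).trans (by rw [norm_one]; linarith)
  have n2 : 3 / 4 ≤ ‖1 + u‖ := by
    have := norm_sub_le (1 + u) u
    rw [add_sub_cancel_right, norm_one] at this
    linarith
  have n3 : 7 / 4 ≤ ‖2 + u‖ := by
    have := norm_sub_le (2 + u) u
    rw [add_sub_cancel_right] at this
    have h2 : ‖(2 : ℂ)‖ = 2 := by simp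
    rw [h2] at this
    linarith
  have hw0 : (1 : ℂ) + u ≠ 0 := fun h => by rw [h, norm_zero] at n2; linarith
  have e12 : (1 : ℂ) + (1 + u) = 2 + u := by ring
  -- the first part
  have hsF : Summable (fun x : ℕ × (ℕ × ℕ) => Ft s p u x.1 x.2.1 x.2.2) :=
    Summable.of_norm_bounded (geo3.mul_left C) fun x => Ft_le hs h0 h4 hp hu _ _ _
  have hS := hsF.hasSum
  have hl := hS.prod_fiberwise (fib_l h0 h4 hp hu)
  have hE1 := E_summable hs h0 h4 hp (w := 1 + u) (by linarith) (by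
    rw [norm_inv]
    have := inv_anti₀ (by norm_num) n2
    linarith [show ((3 : ℝ) / 4)⁻¹ = 4 / 3 by norm_num])
  have hE2 := E_summable hs h0 h4 hp (w := 1) (by simp) (by simp)
  have hS1 : ∑' x : ℕ × (ℕ × ℕ), Ft s p u x.1 x.2.1 x.2.2 = Ef s p (1 + u) - Ef s p 1 := by
    have h1 : HasSum _ (Ef s p (1 + u)) := hE1.hasSum
    have h2 : HasSum _ (Ef s p 1) := hE2.hasSum
    refine hl.unique ((h1.sub h2).congr_fun ?_ |> fun h => h)
    intro l
    simp only [one_pow, inv_one]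
    ring
  let e3 : (ℕ × (ℕ × ℕ)) ≃ (ℕ × (ℕ × ℕ)) :=
    ⟨fun x => (x.2.2, x.2.1, x.1), fun x => (x.2.2, x.2.1, x.1), fun _ => rfl, fun _ => rfl⟩
  have hS2 : HasSum (fun x : ℕ × (ℕ × ℕ) => Ft s p u x.2.2 x.2.1 x.1)
      (Ef s p (1 + u) - Ef s p 1) := by
    have := (e3.hasSum_iff).2 hS
    rw [hS1] at this
    exact this
  have hV := hS2.prod_fiberwise (g := fun m => ∑' x : ℕ × ℕ, Ft s p u x.2 x.1 m)
    (fun m => (hS2.summable.prod_factor m).hasSum)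
  have hVm : ∀ m, HasSum (fun n => kk s p n m * u ^ (m + 1))
      (∑' x : ℕ × ℕ, Ft s p u x.2 x.1 m) := fun m =>
    (hS2.summable.prod_factor m).hasSum.prod_fiberwise (fun n => fib_n hs p u n m)
  -- the second part
  have hsH : Summable (fun x : ℕ × ℕ => HH p u x.1 x.2) :=
    Summable.of_norm_bounded (geo2.mul_left C) fun x => HH_le h0 h4 hp hu _ _
  have hn := hsH.hasSum.prod_fiberwise (fib_H p hu1)
  have hP1 := Pi_hasSum h0 h4 hp hw0 (by
    rw [norm_div, e12]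
    exact div_le_one_of_le₀ (by linarith) (norm_nonneg _))
  have hP2 := Pi_hasSum h0 h4 hp (w := 1) one_ne_zero (by norm_num)
  have hH1 : ∑' x : ℕ × ℕ, HH p u x.1 x.2 = Pi' p (1 + u) - Pi' p 1 := by
    refine hn.unique ((hP1.sub hP2).congr_fun ?_ |> fun h => h)
    intro n
    rw [e12]
    have : (1 : ℂ) / (1 + 1) = 1 / 2 := by norm_num
    rw [this]
    ring
  have hH2 : HasSum (fun x : ℕ × ℕ => HH p u x.2 x.1) (Pi' p (1 + u) - Pi' p 1) := by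
    have := ((Equiv.prodComm ℕ ℕ).hasSum_iff).2 hsH.hasSum
    rw [hH1] at this
    exact this
  have hW := hH2.prod_fiberwise (g := fun m => ∑' n : ℕ, HH p u n m)
    (fun m => (hH2.summable.prod_factor m).hasSum)
  have hWm : ∀ m, HasSum (fun n => HH p u n m) (∑' n : ℕ, HH p u n m) := fun m =>
    (hH2.summable.prod_factor m).hasSum
  -- the sum
  have hfin := hW.add hV
  have e1 : Pi' p (1 + u) + Ef s p (1 + u) - (Pi' p 1 + Ef s p 1) =
      Pi' p (1 + u) - Pi' p 1 + (Ef s p (1 + u) - Ef s p 1) := by ring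
  rw [e1]
  refine hfin.congr_fun ?_ |> fun h => h
  intro m
  have hq := ((hWm m).add (hVm m)).tsum_eq
  rw [← hq]
  unfold qt
  rw [add_sub_cancel_left, ← tsum_mul_right]
  refine tsum_congr fun n => ?_
  rw [PS7.kE_eq, PS7.kO_eq]
  unfold HH kk aa
  rw [map_mul, map_pow, Complex.conj_ofReal]
  push_cast
  ring

end Pool.Agent.Stek
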