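import Pool.Agent.Stek.TFun

/-!
# F13: rigidity
-/

open scoped BigOperators ComplexConjugate Topology ContDiff
open Complex Metric InnerProductSpace

noncomputable section

namespace Pool.Agent.Stek

namespace F13aux

theorem clm_eq (L : ℂ →L[ℝ] ℝ) (z : ℂ) : L z = z.re * L 1 + z.im * L I := by
  have h : z = z.re • (1 : ℂ) + z.im • I := by
    simp only [real_smul, mul_one]
    exact (Complex.re_add_im z).symm
  conv_lhs => rw [h]
  rw [map_add, map_smul, map_smul, smul_eq_mul, smul_eq_mul]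

/-- `w` times the complex derivative. -/
theorem mul_dC (V : ℂ → ℝ) (w : ℂ) :
    w * dC V w = (fderiv ℝ V w w : ℂ) - I * (fderiv ℝ V w (w * I) : ℂ) := by
  unfold dC
  rw [clm_eq (fderiv ℝ V w) w, clm_eq (fderiv ℝ V w) (w * I)]
  have h1 : (w * I).re = -w.im := by simp
  have h2 : (w * I).im = w.re := by simp
  rw [h1, h2]
  push_cast
  generalize (fderiv ℝ V w) 1 = a
  generalize (fderiv ℝ V w) I = b
  have h : w = (w.re : ℂ) + w.im * I := (Complex.re_add_im w).symm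
  have hI : I * I = -1 := I_mul_I
  conv_lhs => rw [h]
  linear_combination (-(w.im : ℂ) * (b : ℂ)) * hI

theorem hasFDerivAt_iot {w : ℂ} (hw : w ≠ 0) :
    ∃ M : ℂ →L[ℝ] ℂ, HasFDerivAt iot M w ∧ ∀ v, M v = conj v / (conj w) ^ 2 := by
  have hw' : conj w ≠ 0 := (map_ne_zero _).2 hw
  have h1 : HasFDerivAt (fun z : ℂ => conj z) (conjCLE : ℂ →L[ℝ] ℂ) w :=
    (conjCLE : ℂ →L[ℝ] ℂ).hasFDerivAt
  have h2 : HasDerivAt (fun z : ℂ => -1 / z) (((conj w) ^ 2)⁻¹) (conj w) := by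
    have := (hasDerivAt_inv hw').const_mul (-1 : ℂ)
    have e : (fun z : ℂ => -1 / z) = fun z : ℂ => (-1 : ℂ) * z⁻¹ := by
      funext z; rw [div_eq_mul_inv]
    rw [e]
    have e' : (-1 : ℂ) * -((conj w) ^ 2)⁻¹ = ((conj w) ^ 2)⁻¹ := by ring
    rw [e'] at this
    exact this
  have h3 := (h2.hasFDerivAt.restrictScalars ℝ).comp w h1
  refine ⟨_, h3, fun v => ?_⟩
  simp [div_eq_mul_inv]

theorem fderiv_comp_iot {V : ℂ → ℝ} {w : ℂ} (hw : w ≠ 0) (hV : DifferentiableAt ℝ V (iot w))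
    (he : ∀ᶠ z in 𝓝 w, V (iot z) = V z) (v : ℂ) :
    fderiv ℝ V w v = fderiv ℝ V (iot w) (conj v / (conj w) ^ 2) := by
  obtain ⟨M, hM, hMv⟩ := hasFDerivAt_iot hw
  have h1 : HasFDerivAt (V ∘ iot) ((fderiv ℝ V (iot w)).comp M) w := hV.hasFDerivAt.comp w hM
  have h2 : HasFDerivAt V ((fderiv ℝ V (iot w)).comp M) w :=
    h1.congr_of_eventuallyEq (he.mono fun z hz => hz.symm)
  rw [h2.fderiv, ContinuousLinearMap.comp_apply, hMv]

theorem dC_iot {V : ℂ → ℝ} {w : ℂ} (hw : w ≠ 0) (hV : DifferentiableAt ℝ V (iot w))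
    (he : ∀ᶠ z in 𝓝 w, V (iot z) = V z) :
    dC V w = conj (dC V (iot w)) / w ^ 2 := by
  unfold dC
  rw [fderiv_comp_iot hw hV he, fderiv_comp_iot hw hV he]
  set L := fderiv ℝ V (iot w) with hL
  rw [clm_eq L (conj 1 / (conj w) ^ 2), clm_eq L (conj I / (conj w) ^ 2)]
  have hw' : w ^ 2 ≠ 0 := pow_ne_zero 2 hw
  set E : ℂ := 1 / (conj w) ^ 2 with hE
  have e1 : conj (1 : ℂ) / (conj w) ^ 2 = E := by rw [map_one]
  have e2 : conj I / (conj w) ^ 2 = -I * E := by rw [conj_I, hE]; ring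
  have e3 : conj E = 1 / w ^ 2 := by rw [hE, map_div₀, map_one, map_pow, conj_conj]
  have r1 : (-I * E).re = E.im := by simp
  have r2 : (-I * E).im = -E.re := by simp
  rw [e1, e2, r1, r2]
  have e4 : conj ((L 1 : ℂ) - I * (L I : ℂ)) / w ^ 2 = ((L 1 : ℂ) + I * (L I : ℂ)) * conj E := by
    rw [e3, map_sub, map_mul, conj_I, conj_ofReal, conj_ofReal]
    ring
  rw [e4]
  have h : conj E = (E.re : ℂ) - E.im * I := by
    apply Complex.ext <;> simp
  rw [h]
  push_cast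
  have hI : I * I = -1 := I_mul_I
  linear_combination (E.im : ℂ) * (L I : ℂ) * hI

theorem continuous_K {V : ℂ → ℝ} {ρ : ℝ} (hρ : 0 ≤ ρ) (h : ∀ z : ℂ, ‖z‖ = ρ → ContDiffAt ℝ ∞ V z) :
    Continuous (fun θ : ℝ => fderiv ℝ V (circleMap 0 ρ θ) (circleMap 0 ρ θ * I)) := by
  rw [continuous_iff_continuousAt]
  intro θ
  have hz : ‖circleMap 0 ρ θ‖ = ρ := by rw [norm_circleMap_zero, abs_of_nonneg hρ]
  have h1 : ContinuousAt (fderiv ℝ V) (circleMap 0 ρ θ) := (h _ hz).continuousAt_fderiv (by simp)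
  have h2 : ContinuousAt (fun θ : ℝ => fderiv ℝ V (circleMap 0 ρ θ)) θ :=
    ContinuousAt.comp (f := fun θ : ℝ => circleMap 0 ρ θ) h1 (continuous_circleMap 0 ρ).continuousAt
  exact h2.clm_apply ((continuous_circleMap 0 ρ).mul continuous_const).continuousAt

theorem integral_K {V : ℂ → ℝ} {ρ : ℝ} (hρ : 0 ≤ ρ) (h : ∀ z : ℂ, ‖z‖ = ρ → ContDiffAt ℝ ∞ V z) :
    ∫ θ in (0 : ℝ)..2 * Real.pi, fderiv ℝ V (circleMap 0 ρ θ) (circleMap 0 ρ θ * I) = 0 := by
  have hd : ∀ θ ∈ Set.uIcc (0 : ℝ) (2 * Real.pi), HasDerivAt (fun θ : ℝ => V (circleMap 0 ρ θ))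
      (fderiv ℝ V (circleMap 0 ρ θ) (circleMap 0 ρ θ * I)) θ := by
    intro θ _
    have hz : ‖circleMap 0 ρ θ‖ = ρ := by rw [norm_circleMap_zero, abs_of_nonneg hρ]
    have h1 := ((h _ hz).differentiableAt (by simp)).hasFDerivAt
    exact h1.comp_hasDerivAt θ (hasDerivAt_circleMap 0 ρ θ)
  rw [intervalIntegral.integral_eq_sub_of_hasDerivAt hd ((continuous_K hρ h).intervalIntegrable _ _)]
  simp [circleMap]

/-- The circle integrals of `dC V` when the radial derivative vanishes. -/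
theorem integral_dC {V : ℂ → ℝ} {ρ : ℝ} (hρ : 0 < ρ) (hN : ∀ z : ℂ, ‖z‖ = ρ → fderiv ℝ V z z = 0)
    (k : ℤ) : (∮ z in C(0, ρ), dC V z * z ^ k) = ∫ θ in (0 : ℝ)..2 * Real.pi,
      (fderiv ℝ V (circleMap 0 ρ θ) (circleMap 0 ρ θ * I) : ℂ) * (circleMap 0 ρ θ) ^ k := by
  unfold circleIntegral
  refine intervalIntegral.integral_congr fun θ _ => ?_
  have hz : ‖circleMap 0 ρ θ‖ = ρ := by rw [norm_circleMap_zero, abs_of_pos hρ]
  simp only [deriv_circleMap, smul_eq_mul]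
  have h1 := mul_dC V (circleMap 0 ρ θ)
  rw [hN _ hz] at h1
  have hI : I * I = -1 := I_mul_I
  calc circleMap 0 ρ θ * I * (dC V (circleMap 0 ρ θ) * circleMap 0 ρ θ ^ k)
      = I * (circleMap 0 ρ θ * dC V (circleMap 0 ρ θ)) * circleMap 0 ρ θ ^ k := by ring
    _ = _ := by
      rw [h1]
      push_cast
      linear_combination (-(fderiv ℝ V (circleMap 0 ρ θ) (circleMap 0 ρ θ * I) : ℂ) *
        circleMap 0 ρ θ ^ k) * hI

theorem conj_integral_dC {V : ℂ → ℝ} {ρ : ℝ} (hρ : 0 < ρ)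
    (hN : ∀ z : ℂ, ‖z‖ = ρ → fderiv ℝ V z z = 0) (k : ℤ) :
    conj (∮ z in C(0, ρ), dC V z * z ^ k) =
      ((ρ : ℂ) ^ 2) ^ k * ∮ z in C(0, ρ), dC V z * z ^ (-k) := by
  rw [integral_dC hρ hN, integral_dC hρ hN]
  have hconj : ∀ f : ℝ → ℂ, conj (∫ θ in (0 : ℝ)..2 * Real.pi, f θ) =
      ∫ θ in (0 : ℝ)..2 * Real.pi, conj (f θ) := by
    intro f
    rw [intervalIntegral.integral_of_le Real.two_pi_pos.le,
      intervalIntegral.integral_of_le Real.two_pi_pos.le, integral_conj]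
  rw [hconj, ← intervalIntegral.integral_const_mul]
  refine intervalIntegral.integral_congr fun θ _ => ?_
  have hz : ‖circleMap 0 ρ θ‖ = ρ := by rw [norm_circleMap_zero, abs_of_pos hρ]
  have hz0 : circleMap 0 ρ θ ≠ 0 := by
    rw [← norm_pos_iff, hz]; exact hρ
  have h1 : conj (circleMap 0 ρ θ) = (ρ : ℂ) ^ 2 * (circleMap 0 ρ θ)⁻¹ := by
    have : conj (circleMap 0 ρ θ) * circleMap 0 ρ θ = (ρ : ℂ) ^ 2 := by
      rw [Complex.conj_mul', hz]
    rw [← this, mul_assoc, mul_inv_cancel₀ hz0, mul_one]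
  simp only [map_mul, conj_ofReal, map_zpow₀, h1, mul_zpow, inv_zpow', zpow_neg]
  ring

theorem dC_continuousAt {V : ℂ → ℝ} {z : ℂ} (h : ContDiffAt ℝ ∞ V z) : ContinuousAt (dC V) z := by
  have h1 : ContinuousAt (fderiv ℝ V) z := h.continuousAt_fderiv (by simp)
  unfold dC
  have h2 : ContinuousAt (fun z => (fderiv ℝ V z 1 : ℂ)) z :=
    Complex.continuous_ofReal.continuousAt.comp (h1.clm_apply continuousAt_const)
  have h3 : ContinuousAt (fun z => (fderiv ℝ V z I : ℂ)) z :=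
    Complex.continuous_ofReal.continuousAt.comp (h1.clm_apply continuousAt_const)
  exact h2.sub (continuousAt_const.mul h3)

theorem inv_outside {ρ : ℝ} (hρ : 0 < ρ) {a : ℂ} (ha : ρ < ‖a‖) :
    (∮ z in C(0, ρ), (z - a)⁻¹) = 0 := by
  have hne : ∀ z ∈ closedBall (0 : ℂ) ρ, z - a ≠ 0 := by
    intro z hz h
    rw [sub_eq_zero] at h
    rw [h, mem_closedBall_zero_iff] at hz
    linarith
  refine circleIntegral_eq_zero_of_differentiable_on_off_countable hρ.le Set.countable_empty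
    ?_ ?_
  · exact ContinuousOn.inv₀ (by fun_prop) hne
  · intro z hz
    have hz' : z ∈ closedBall (0 : ℂ) ρ := ball_subset_closedBall hz.1
    exact DifferentiableAt.inv (by fun_prop) (hne z hz')

/-- The heart of the matter. -/
theorem core (h8 : F8) {V : ℂ → ℝ} {G0 : ℂ → ℂ} {c α β : ℝ} (hα : 0 < α) (hα1 : α < 1)
    (hβ1 : 1 < β) (hc : ContinuousOn G0 {z | α ≤ ‖z‖ ∧ ‖z‖ ≤ β})
    (hd : DifferentiableOn ℂ G0 {z | α < ‖z‖ ∧ ‖z‖ < β})
    (hb : ∀ z : ℂ, ‖z‖ = α ∨ ‖z‖ = β → G0 z = dC V z - c / (z - 1) - c / (z + 1))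
    (hs : ∀ z : ℂ, ‖z‖ = α ∨ ‖z‖ = β → ContDiffAt ℝ ∞ V z)
    (hN : ∀ z : ℂ, ‖z‖ = α ∨ ‖z‖ = β → fderiv ℝ V z z = 0) :
    c = 0 ∧ ∀ z, α ≤ ‖z‖ → ‖z‖ ≤ β → G0 z = 0 := by
  have hαβ : α < β := hα1.trans hβ1
  have hβ : 0 < β := hα.trans hαβ
  have hopen : IsOpen {z : ℂ | α < ‖z‖ ∧ ‖z‖ < β} :=
    (isOpen_lt continuous_const continuous_norm).inter (isOpen_lt continuous_norm continuous_const)
  -- Cauchy
  have hCau : ∀ k : ℤ, (∮ z in C(0, β), G0 z * z ^ k) = ∮ z in C(0, α), G0 z * z ^ k := by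
    intro k
    refine circleIntegral_eq_of_differentiable_on_annulus_off_countable hα hαβ.le
      Set.countable_empty ?_ ?_
    · have hsub : closedBall (0 : ℂ) β \ ball 0 α ⊆ {z | α ≤ ‖z‖ ∧ ‖z‖ ≤ β} := by
        intro z hz
        simp only [Set.mem_sdiff, mem_closedBall_zero_iff, mem_ball_zero_iff, not_lt] at hz
        exact ⟨hz.2, hz.1⟩
      refine (hc.mono hsub).mul (ContinuousOn.zpow₀ continuousOn_id k ?_)
      intro z hz
      left
      have := (hsub hz).1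
      rw [← norm_pos_iff]
      exact hα.trans_le this
    · intro z hz
      simp only [Set.sdiff_empty, Set.mem_sdiff, mem_closedBall_zero_iff, mem_ball_zero_iff,
        not_le] at hz
      have hz' : z ∈ {z : ℂ | α < ‖z‖ ∧ ‖z‖ < β} := ⟨hz.2, hz.1⟩
      refine (hd.differentiableAt (hopen.mem_nhds hz')).mul (DifferentiableAt.zpow
        differentiableAt_id (Or.inl ?_))
      rw [← norm_pos_iff]
      exact hα.trans hz.2
  have hcirc : ∀ ρ : ℝ, 0 < ρ → (∀ z : ℂ, ‖z‖ = ρ → ContDiffAt ℝ ∞ V z) →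
      (∀ z : ℂ, ‖z‖ = ρ → fderiv ℝ V z z = 0) → (∮ z in C(0, ρ), dC V z) = 0 := by
    intro ρ hρ h1 h2
    have := integral_dC hρ h2 0
    simp only [zpow_zero, mul_one] at this
    rw [this]
    rw [intervalIntegral.integral_ofReal, integral_K hρ.le h1, ofReal_zero]
  have hsplit : ∀ ρ : ℝ, 0 < ρ → ρ ≠ 1 → (∀ z : ℂ, ‖z‖ = ρ → ContDiffAt ℝ ∞ V z) →
      (∀ z : ℂ, ‖z‖ = ρ → fderiv ℝ V z z = 0) →
      (∀ z : ℂ, ‖z‖ = ρ → G0 z = dC V z - c / (z - 1) - c / (z + 1)) →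
      (∮ z in C(0, ρ), G0 z) = - c * (∮ z in C(0, ρ), (z - 1)⁻¹) -
        c * ∮ z in C(0, ρ), (z - (-1))⁻¹ := by
    intro ρ hρ hρ1 h1 h2 h3
    have i1 : CircleIntegrable (dC V) 0 ρ := by
      refine ContinuousOn.circleIntegrable hρ.le ?_
      intro z hz
      rw [mem_sphere_zero_iff_norm] at hz
      exact (dC_continuousAt (h1 z hz)).continuousWithinAt
    have hne : ∀ a : ℂ, ‖a‖ = 1 → ∀ z ∈ sphere (0 : ℂ) ρ, z - a ≠ 0 := by
      intro a ha z hz h
      rw [mem_sphere_zero_iff_norm] at hz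
      rw [sub_eq_zero] at h
      rw [h, ha] at hz
      exact hρ1 hz.symm
    have i2 : ∀ a : ℂ, ‖a‖ = 1 → CircleIntegrable (fun z => (z - a)⁻¹) 0 ρ := by
      intro a ha
      exact (ContinuousOn.inv₀ (by fun_prop) (hne a ha)).circleIntegrable hρ.le
    have e1 : (∮ z in C(0, ρ), G0 z) = ∮ z in C(0, ρ), (dC V z - c * (z - 1)⁻¹ -
        c * (z - (-1))⁻¹) := by
      refine circleIntegral.integral_congr hρ.le fun z hz => ?_
      rw [mem_sphere_zero_iff_norm] at hz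
      show G0 z = _
      rw [h3 z hz, sub_neg_eq_add, div_eq_mul_inv, div_eq_mul_inv]
    have i2' : CircleIntegrable (fun z : ℂ => (c : ℂ) * (z - 1)⁻¹) 0 ρ := by
      have := (i2 1 (by simp)).const_smul (a := (c : ℂ))
      simpa [smul_eq_mul, Pi.smul_def] using this
    have i3' : CircleIntegrable (fun z : ℂ => (c : ℂ) * (z - (-1))⁻¹) 0 ρ := by
      have := (i2 (-1) (by simp)).const_smul (a := (c : ℂ))
      simpa [smul_eq_mul, Pi.smul_def] using this
    have i12 : CircleIntegrable (fun z : ℂ => dC V z - (c : ℂ) * (z - 1)⁻¹) 0 ρ := i1.sub i2'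
    rw [e1, circleIntegral.integral_sub i12 i3', circleIntegral.integral_sub i1 i2',
      hcirc ρ hρ h1 h2, circleIntegral.integral_const_mul, circleIntegral.integral_const_mul]
    ring
  have hc0 : c = 0 := by
    have eα := hsplit α hα hα1.ne (fun z hz => hs z (Or.inl hz)) (fun z hz => hN z (Or.inl hz))
      (fun z hz => hb z (Or.inl hz))
    have eβ := hsplit β hβ hβ1.ne' (fun z hz => hs z (Or.inr hz)) (fun z hz => hN z (Or.inr hz))
      (fun z hz => hb z (Or.inr hz))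
    rw [inv_outside hα (by simpa using hα1), inv_outside hα (by simpa using hα1)] at eα
    rw [circleIntegral.integral_sub_inv_of_mem_ball (by simpa using hβ1),
      circleIntegral.integral_sub_inv_of_mem_ball (by simpa using hβ1)] at eβ
    have hC := hCau 0
    simp only [zpow_zero, mul_one] at hC
    rw [eα, eβ] at hC
    have h2 : (c : ℂ) * (2 * Real.pi * I) = 0 := by linear_combination (-1 / 2 : ℂ) * hC
    rcases mul_eq_zero.mp h2 with h | h
    · exact_mod_cast h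
    · exact absurd h two_pi_I_ne_zero
  refine ⟨hc0, fun z hz1 hz2 => h8 G0 α β hα hαβ hc hd ?_ z hz1 hz2⟩
  have hb' : ∀ z : ℂ, ‖z‖ = α ∨ ‖z‖ = β → G0 z = dC V z := by
    intro z hz
    rw [hb z hz, hc0]
    simp
  have eqα : ∀ k : ℤ, (∮ z in C(0, α), G0 z * z ^ k) = ∮ z in C(0, α), dC V z * z ^ k := by
    intro k
    refine circleIntegral.integral_congr hα.le fun z hz => ?_
    rw [mem_sphere_zero_iff_norm] at hz
    show G0 z * z ^ k = dC V z * z ^ k
    rw [hb' z (Or.inl hz)]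
  have eqβ : ∀ k : ℤ, (∮ z in C(0, β), G0 z * z ^ k) = ∮ z in C(0, β), dC V z * z ^ k := by
    intro k
    refine circleIntegral.integral_congr hβ.le fun z hz => ?_
    rw [mem_sphere_zero_iff_norm] at hz
    show G0 z * z ^ k = dC V z * z ^ k
    rw [hb' z (Or.inr hz)]
  intro k
  rw [eqβ]
  by_cases hk : k = 0
  · subst hk
    simp only [zpow_zero, mul_one]
    exact hcirc β hβ (fun z hz => hs z (Or.inr hz)) (fun z hz => hN z (Or.inr hz))
  · have c1 := conj_integral_dC hα (V := V) (fun z hz => hN z (Or.inl hz)) (-k)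
    have c2 := conj_integral_dC hβ (V := V) (fun z hz => hN z (Or.inr hz)) (-k)
    rw [neg_neg, ← eqα, ← eqα, ← hCau, ← hCau, eqβ, eqβ] at c1
    rw [neg_neg] at c2
    rw [c2] at c1
    set J := ∮ z in C(0, β), dC V z * z ^ k with hJ
    have hne : (((α : ℂ) ^ 2) ^ (-k)) ≠ (((β : ℂ) ^ 2) ^ (-k)) := by
      intro h
      have h' : ((α ^ 2) ^ (-k) : ℝ) = (β ^ 2) ^ (-k) := by exact_mod_cast h
      have hlt : α ^ 2 < β ^ 2 := by nlinarith
      have hb2 : (0 : ℝ) < β ^ 2 := by positivity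
      have ha2 : (0 : ℝ) < α ^ 2 := by positivity
      have h1 : (α ^ 2 / β ^ 2) ^ (-k) = 1 := by
        rw [div_zpow, h', div_self (zpow_ne_zero _ hb2.ne')]
      have h2 : α ^ 2 / β ^ 2 ≠ 1 := by
        rw [Ne, div_eq_one_iff_eq hb2.ne']
        exact hlt.ne
      have h3 := (zpow_eq_one_iff_right₀ (by positivity) h2).mp h1
      omega
    have h0 : (((β : ℂ) ^ 2) ^ (-k) - ((α : ℂ) ^ 2) ^ (-k)) * J = 0 := by
      rw [sub_mul, c1, sub_self]
    rcases mul_eq_zero.mp h0 with h | h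
    · exact absurd (sub_eq_zero.mp h).symm hne
    · exact h

theorem conj_iot (w : ℂ) : conj (iot w) = -1 / w := by
  unfold iot
  rw [map_div₀, map_neg, map_one, conj_conj]

theorem iot_iot (w : ℂ) : iot (iot w) = w := by
  unfold iot
  rw [map_div₀, map_neg, map_one, conj_conj]
  by_cases hw : w = 0
  · simp [hw]
  · field_simp

theorem norm_iot_sub_one {w : ℂ} (hw : w ≠ 0) : ‖iot w - 1‖ = ‖w + 1‖ / ‖w‖ := by
  have hw' : conj w ≠ 0 := (map_ne_zero _).2 hw
  have e : iot w - 1 = -(conj (w + 1)) / conj w := by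
    unfold iot
    rw [map_add, map_one]
    field_simp
    ring
  rw [e, norm_div, norm_neg, Complex.norm_conj, Complex.norm_conj]

theorem norm_iot (w : ℂ) : ‖iot w‖ = 1 / ‖w‖ := by
  unfold iot
  rw [norm_div, norm_neg, norm_one, Complex.norm_conj]

end F13aux

open F13aux

theorem f13 (h8 : F8) : F13 := by
  intro s c V φ hs hV hH hN hφ hdC
  obtain ⟨hs1, hs2⟩ := hs
  set α : ℝ := √s with hα
  have hs0 : 0 < s := by linarith
  have hαpos : 0 < α := Real.sqrt_pos.mpr hs0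
  have hα2 : α ^ 2 = s := Real.sq_sqrt hs0.le
  have hα3 : 1 / 5 ≤ α := by
    rw [hα]
    apply Real.le_sqrt_of_sq_le
    norm_num
    linarith
  have hα4 : α ≤ 5 / 12 := by
    by_contra h
    push Not at h
    nlinarith
  set β : ℝ := 1 / α with hβ
  have hβ1 : 12 / 5 ≤ β := by
    rw [hβ, le_div_iff₀ hαpos]
    linarith
  have hβ2 : β ≤ 5 := by
    rw [hβ, div_le_iff₀ hαpos]
    linarith
  have hR : (0 : ℝ) < RR := by unfold RR; norm_num
  have hR1 : RR < 1 / 1000 := by unfold RR; norm_num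
  -- elementary norm facts
  have hpm : ∀ w : ℂ, 2 ≤ ‖w - 1‖ + ‖w + 1‖ := by
    intro w
    have h1 : (2 : ℂ) = (w + 1) - (w - 1) := by ring
    have h2 : ‖(2 : ℂ)‖ ≤ ‖w + 1‖ + ‖w - 1‖ := by
      conv_lhs => rw [h1]
      exact norm_sub_le _ _
    rw [show ‖(2 : ℂ)‖ = 2 by simp] at h2
    linarith
  have hn1 : ∀ w : ℂ, ‖w‖ ≤ ‖w + 1‖ + 1 := by
    intro w
    have : w = (w + 1) - 1 := by ring
    calc ‖w‖ = ‖(w + 1) - 1‖ := by rw [← this]
      _ ≤ _ := by simpa using norm_sub_le (w + 1) 1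
  have hn2 : ∀ w : ℂ, 1 ≤ ‖w‖ + ‖w + 1‖ := by
    intro w
    have : (1 : ℂ) = (w + 1) - w := by ring
    have h2 : ‖(1 : ℂ)‖ ≤ ‖w + 1‖ + ‖w‖ := by
      conv_lhs => rw [this]
      exact norm_sub_le _ _
    rw [norm_one] at h2
    linarith
  have hev1 : ∀ (w : ℂ) (t : ℝ), t < ‖w - 1‖ → ∀ᶠ z in 𝓝 w, t < ‖z - 1‖ := by
    intro w t h
    have hc : Continuous (fun z : ℂ => ‖z - 1‖) := by fun_prop
    exact (hc.tendsto w).eventually (lt_mem_nhds h)
  have hev2 : ∀ (w : ℂ) (t : ℝ), t < ‖w + 1‖ → ∀ᶠ z in 𝓝 w, t < ‖z + 1‖ := by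
    intro w t h
    have hc : Continuous (fun z : ℂ => ‖z + 1‖) := by fun_prop
    exact (hc.tendsto w).eventually (lt_mem_nhds h)
  have hev1' : ∀ (w : ℂ) (t : ℝ), ‖w - 1‖ < t → ∀ᶠ z in 𝓝 w, ‖z - 1‖ < t := by
    intro w t h
    have hc : Continuous (fun z : ℂ => ‖z - 1‖) := by fun_prop
    exact (hc.tendsto w).eventually (gt_mem_nhds h)
  have hev2' : ∀ (w : ℂ) (t : ℝ), ‖w + 1‖ < t → ∀ᶠ z in 𝓝 w, ‖z + 1‖ < t := by
    intro w t h
    have hc : Continuous (fun z : ℂ => ‖z + 1‖) := by fun_prop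
    exact (hc.tendsto w).eventually (gt_mem_nhds h)
  -- the domain
  have hiot : ∀ w : ℂ, α ≤ ‖w‖ → ‖w‖ ≤ β → 6 * RR < ‖w + 1‖ → 5 * RR < ‖iot w - 1‖ := by
    intro w hw1 hw2 hw3
    have hw0 : 0 < ‖w‖ := hαpos.trans_le hw1
    rw [norm_iot_sub_one (norm_pos_iff.mp hw0), lt_div_iff₀ hw0]
    by_cases h : ‖w‖ ≤ 6 / 5
    · nlinarith
    · push Not at h
      have h3 := hn1 w
      nlinarith
  have hVV : ∀ w : ℂ, α ≤ ‖w‖ → ‖w‖ ≤ β → 5 * RR < ‖w - 1‖ → 6 * RR < ‖w + 1‖ →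
      ContDiffAt ℝ ∞ V w ∧ V (iot w) = V w := by
    intro w h1 h2 h3 h4
    exact hV w h1 h2 h3 (hiot w h1 h2 h4)
  -- the derivative near -1
  have hd : ∀ w : ℂ, 6 * RR < ‖w + 1‖ → ‖w + 1‖ < 1 / 20 →
      dC V w = c / (w + 1) - c / w + conj (φ (iot w)) / w ^ 2 := by
    intro w hw1 hw2
    have a1 := hn1 w
    have a2 := hn2 w
    have a3 := hpm w
    have hw0 : 0 < ‖w‖ := by linarith
    have hwne : w ≠ 0 := norm_pos_iff.mp hw0
    have hw1ne : w + 1 ≠ 0 := by
      rw [← norm_pos_iff]; linarith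
    have b1 : ‖iot w‖ = 1 / ‖w‖ := norm_iot w
    have b2 : α ≤ ‖iot w‖ := by
      rw [b1, le_div_iff₀ hw0]; nlinarith
    have b3 : ‖iot w‖ ≤ β := by
      rw [b1, div_le_iff₀ hw0]; nlinarith
    have b4 : 5 * RR < ‖iot w - 1‖ := by
      rw [norm_iot_sub_one hwne, lt_div_iff₀ hw0]; nlinarith
    have b5 : 5 * RR < ‖iot (iot w) - 1‖ := by
      rw [iot_iot]; linarith
    have b6 : ‖iot w - 1‖ < 1 / 4 := by
      rw [norm_iot_sub_one hwne, div_lt_iff₀ hw0]; nlinarith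
    have hdiff : DifferentiableAt ℝ V (iot w) :=
      (hV (iot w) b2 b3 b4 b5).1.differentiableAt (by simp)
    have hev : ∀ᶠ z in 𝓝 w, V (iot z) = V z := by
      have c1 : ∀ᶠ z in 𝓝 w, α < ‖z‖ :=
        (continuous_norm.tendsto w).eventually (lt_mem_nhds (by linarith))
      have c2 : ∀ᶠ z in 𝓝 w, ‖z‖ < β :=
        (continuous_norm.tendsto w).eventually (gt_mem_nhds (by linarith))
      have c3 : ∀ᶠ z in 𝓝 w, 5 * RR < ‖z - 1‖ := hev1 w _ (by linarith)
      have c4 : ∀ᶠ z in 𝓝 w, 6 * RR < ‖z + 1‖ := hev2 w _ hw1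
      filter_upwards [c1, c2, c3, c4] with z h1 h2 h3 h4
      exact (hVV z h1.le h2.le h3 h4).2
    rw [dC_iot hwne hdiff hev, hdC (iot w) b4 b6]
    have hci : conj (iot w - 1) = -(1 + w) / w := by
      rw [map_sub, conj_iot, map_one]
      field_simp
      ring
    rw [map_add, map_div₀, hci, conj_ofReal]
    have h1w : 1 + w ≠ 0 := by rwa [add_comm]
    field_simp
    ring
  -- the extended function
  classical
  let G0 : ℂ → ℂ := fun w => if ‖w - 1‖ < 1 / 8 then φ w - c / (w + 1)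
    else if ‖w + 1‖ < 1 / 40 then -(c / w) + conj (φ (iot w)) / w ^ 2 - c / (w - 1)
    else dC V w - c / (w - 1) - c / (w + 1)
  have hG : ∀ w, G0 w = if ‖w - 1‖ < 1 / 8 then φ w - c / (w + 1)
    else if ‖w + 1‖ < 1 / 40 then -(c / w) + conj (φ (iot w)) / w ^ 2 - c / (w - 1)
    else dC V w - c / (w - 1) - c / (w + 1) := fun _ => rfl
  have ha : ∀ w, ‖w - 1‖ < 1 / 4 → G0 w = φ w - c / (w + 1) := by
    intro w hw
    rw [hG]
    by_cases h : ‖w - 1‖ < 1 / 8
    · rw [if_pos h]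
    · have h2 := hpm w
      push Not at h
      rw [if_neg (by linarith), if_neg (by linarith), hdC w (by linarith) hw]
      ring
  have hb : ∀ w, ‖w + 1‖ < 1 / 20 →
      G0 w = -(c / w) + conj (φ (iot w)) / w ^ 2 - c / (w - 1) := by
    intro w hw
    have h2 := hpm w
    rw [hG, if_neg (by linarith)]
    by_cases h : ‖w + 1‖ < 1 / 40
    · rw [if_pos h]
    · push Not at h
      rw [if_neg (by linarith), hd w (by linarith) hw]
      ring
  have hcc : ∀ w, 5 * RR < ‖w - 1‖ → 6 * RR < ‖w + 1‖ →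
      G0 w = dC V w - c / (w - 1) - c / (w + 1) := by
    intro w h1 h2
    by_cases h : ‖w - 1‖ < 1 / 8
    · rw [ha w (by linarith), hdC w h1 (by linarith)]
      ring
    · by_cases h' : ‖w + 1‖ < 1 / 40
      · rw [hb w (by linarith), hd w h2 (by linarith)]
        ring
      · rw [hG, if_neg h, if_neg h']
  have hne1 : ∀ w : ℂ, 0 < ‖w - 1‖ → w - 1 ≠ 0 := fun w h => norm_pos_iff.mp h
  have hne2 : ∀ w : ℂ, 0 < ‖w + 1‖ → w + 1 ≠ 0 := fun w h => norm_pos_iff.mp h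
  have hda : ∀ w, ‖w - 1‖ < 1 / 4 → DifferentiableAt ℂ G0 w := by
    intro w hw
    have h2 := hpm w
    have h3 : DifferentiableAt ℂ (fun w => φ w - c / (w + 1)) w := by
      have hφw : DifferentiableAt ℂ φ w :=
        hφ.differentiableAt (isOpen_ball.mem_nhds (by rwa [mem_ball, dist_eq_norm]))
      refine hφw.sub (DifferentiableAt.div (by fun_prop) (by fun_prop) ?_)
      exact hne2 w (by linarith)
    refine h3.congr_of_eventuallyEq ?_
    filter_upwards [hev1' w _ hw] with z hz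
    exact ha z hz
  have hdb : ∀ w, ‖w + 1‖ < 1 / 20 → DifferentiableAt ℂ G0 w := by
    intro w hw
    have a1 := hn1 w
    have a2 := hn2 w
    have a3 := hpm w
    have hw0 : 0 < ‖w‖ := by linarith
    have hwne : w ≠ 0 := norm_pos_iff.mp hw0
    have b6 : ‖iot w - 1‖ < 1 / 4 := by
      rw [norm_iot_sub_one hwne, div_lt_iff₀ hw0]; nlinarith
    have h3 : DifferentiableAt ℂ (fun w => -(c / w) + conj (φ (iot w)) / w ^ 2 - c / (w - 1)) w := by
      have hφw : DifferentiableAt ℂ φ (iot w) :=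
        hφ.differentiableAt (isOpen_ball.mem_nhds (by rwa [mem_ball, dist_eq_norm]))
      have h4 := hφw.conj_conj
      rw [conj_iot] at h4
      have h5 : DifferentiableAt ℂ (fun z : ℂ => -1 / z) w :=
        DifferentiableAt.div (by fun_prop) (by fun_prop) hwne
      have h6 : DifferentiableAt ℂ (fun z : ℂ => conj (φ (iot z))) w := by
        have h7 := DifferentiableAt.comp w h4 h5
        have e : (fun z : ℂ => conj (φ (iot z))) =
            (⇑(starRingEnd ℂ) ∘ φ ∘ ⇑(starRingEnd ℂ)) ∘ (fun z : ℂ => -1 / z) := by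
          funext z
          simp only [Function.comp_apply]
          rw [← conj_iot, conj_conj]
        rw [e]
        exact h7
      have h8 : DifferentiableAt ℂ (fun z : ℂ => (c : ℂ) / z) w :=
        DifferentiableAt.div (by fun_prop) (by fun_prop) hwne
      have h9 : DifferentiableAt ℂ (fun z : ℂ => z ^ 2) w := by fun_prop
      have h9' : w ^ 2 ≠ 0 := pow_ne_zero 2 hwne
      have h10 : DifferentiableAt ℂ (fun z : ℂ => (c : ℂ) / (z - 1)) w :=
        DifferentiableAt.div (by fun_prop) (by fun_prop) (hne1 w (by linarith))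
      exact (h8.neg.add (h6.div h9 h9')).sub h10
    refine h3.congr_of_eventuallyEq ?_
    filter_upwards [hev2' w _ hw] with z hz
    exact hb z hz
  have hevc : ∀ w : ℂ, 1 / 8 ≤ ‖w - 1‖ → 1 / 40 ≤ ‖w + 1‖ →
      ∀ᶠ z in 𝓝 w, G0 z = dC V z - c / (z - 1) - c / (z + 1) := by
    intro w h1 h2
    filter_upwards [hev1 w (5 * RR) (by linarith), hev2 w (6 * RR) (by linarith)] with z z1 z2
    exact hcc z z1 z2
  have hcont : ContinuousOn G0 {z | α ≤ ‖z‖ ∧ ‖z‖ ≤ β} := by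
    intro w hw
    refine ContinuousAt.continuousWithinAt ?_
    by_cases h : ‖w - 1‖ < 1 / 4
    · exact (hda w h).continuousAt
    · by_cases h' : ‖w + 1‖ < 1 / 20
      · exact (hdb w h').continuousAt
      · push Not at h h'
        have h1 : ContinuousAt (dC V) w :=
          dC_continuousAt (hVV w hw.1 hw.2 (by linarith) (by linarith)).1
        have h2 : ContinuousAt (fun z => dC V z - c / (z - 1) - c / (z + 1)) w := by
          refine (h1.sub (ContinuousAt.div (by fun_prop) (by fun_prop) ?_)).sub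
            (ContinuousAt.div (by fun_prop) (by fun_prop) ?_)
          · exact hne1 w (by linarith)
          · exact hne2 w (by linarith)
        exact h2.congr ((hevc w (by linarith) (by linarith)).mono fun z hz => hz.symm)
  have hdiff : DifferentiableOn ℂ G0 {z | α < ‖z‖ ∧ ‖z‖ < β} := by
    intro w hw
    refine DifferentiableAt.differentiableWithinAt ?_
    by_cases h : ‖w - 1‖ < 1 / 4
    · exact hda w h
    · by_cases h' : ‖w + 1‖ < 1 / 20
      · exact hdb w h'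
      · push Not at h h'
        have h1 : DifferentiableAt ℂ (dC V) w :=
          HarmonicAt.differentiableAt_complex_partial (hH w ⟨hw.1, hw.2, by linarith,
            hiot w hw.1.le hw.2.le (by linarith)⟩)
        have h2 : DifferentiableAt ℂ (fun z => dC V z - c / (z - 1) - c / (z + 1)) w := by
          refine (h1.sub (DifferentiableAt.div (by fun_prop) (by fun_prop) ?_)).sub
            (DifferentiableAt.div (by fun_prop) (by fun_prop) ?_)
          · exact hne1 w (by linarith)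
          · exact hne2 w (by linarith)
        exact h2.congr_of_eventuallyEq (hevc w (by linarith) (by linarith))
  -- the boundary circles stay away from 1 and -1
  have hfar : ∀ z : ℂ, ‖z‖ = α ∨ ‖z‖ = β → 1 / 8 ≤ ‖z - 1‖ ∧ 1 / 8 ≤ ‖z + 1‖ := by
    intro z hz
    have e1 : ‖z‖ ≤ ‖z - 1‖ + 1 := by
      have : z = (z - 1) + 1 := by ring
      calc ‖z‖ = ‖(z - 1) + 1‖ := by rw [← this]
        _ ≤ _ := by simpa using norm_add_le (z - 1) 1
    have e2 : 1 ≤ ‖z‖ + ‖z - 1‖ := by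
      have : (1 : ℂ) = z - (z - 1) := by ring
      have h2 : ‖(1 : ℂ)‖ ≤ ‖z‖ + ‖z - 1‖ := by
        conv_lhs => rw [this]
        exact norm_sub_le _ _
      rwa [norm_one] at h2
    have e3 := hn1 z
    have e4 := hn2 z
    rcases hz with hz | hz <;> rw [hz] at e1 e2 e3 e4 <;> constructor <;> linarith
  have hmain := core h8 hαpos (by linarith) (by linarith) hcont hdiff
    (fun z hz => by
      have := hfar z hz
      exact hcc z (by linarith [this.1]) (by linarith [this.2]))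
    (fun z hz => by
      have := hfar z hz
      have h1 : α ≤ ‖z‖ ∧ ‖z‖ ≤ β := by
        rcases hz with hz | hz <;> rw [hz] <;> constructor <;> linarith
      exact (hVV z h1.1 h1.2 (by linarith [this.1]) (by linarith [this.2])).1)
    hN
  obtain ⟨hc0, hzero⟩ := hmain
  intro w h1 h2 h3 h4
  have := hcc w h3 h4
  rw [hzero w h1.le h2.le, hc0] at this
  simpa using this.symm

end Pool.Agent.Stek
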