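import Pool.Agent.Stek.TSeq
import Pool.Agent.Stek.PF1

open scoped BigOperators ComplexConjugate Topology ContDiff
open Complex Metric

noncomputable section

namespace Pool.Agent.Stek

namespace PF3

/-- The antidiagonals of `ℕ × ℕ`. -/
def antiProd : Finset.HasAntidiagonal (ℕ × ℕ) where
  antidiagonal n := ((Finset.HasAntidiagonal.antidiagonal n.1) ×ˢ
    (Finset.HasAntidiagonal.antidiagonal n.2)).map
      (Equiv.prodProdProdComm ℕ ℕ ℕ ℕ).toEmbedding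
  mem_antidiagonal := by
    rintro ⟨n, m⟩ ⟨⟨a, b⟩, ⟨c, d⟩⟩
    simp only [Finset.mem_map, Finset.mem_product, Finset.HasAntidiagonal.mem_antidiagonal,
      Equiv.toEmbedding_apply, Equiv.prodProdProdComm_apply, Prod.mk_add_mk, Prod.mk.injEq,
      Prod.exists]
    constructor
    · rintro ⟨a', b', c', d', ⟨h1, h2⟩, ⟨h3, h4⟩, h5, h6⟩
      constructor <;> omega
    · rintro ⟨h1, h2⟩
      exact ⟨a, c, b, d, ⟨h1, h2⟩, ⟨rfl, rfl⟩, rfl, rfl⟩

attribute [local instance_reducible, local instance] antiProd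

theorem sum_anti (F : (ℕ × ℕ) × (ℕ × ℕ) → ℂ) (n : ℕ × ℕ) :
    ∑ x ∈ Finset.HasAntidiagonal.antidiagonal n, F x =
      ∑ a ∈ Finset.range (n.1 + 1), ∑ b ∈ Finset.range (n.2 + 1),
        F ((a, b), (n.1 - a, n.2 - b)) := by
  change ∑ x ∈ ((Finset.HasAntidiagonal.antidiagonal n.1) ×ˢ
    (Finset.HasAntidiagonal.antidiagonal n.2)).map
      (Equiv.prodProdProdComm ℕ ℕ ℕ ℕ).toEmbedding, F x = _
  rw [Finset.sum_map, Finset.sum_product, Finset.Nat.sum_antidiagonal_eq_sum_range_succ_mk]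
  refine Finset.sum_congr rfl fun a _ => ?_
  rw [Finset.Nat.sum_antidiagonal_eq_sum_range_succ_mk]
  rfl

theorem hasSum_anti {H : ℕ × ℕ → ℂ} {s : ℂ} (h : HasSum H s) :
    HasSum (fun n : ℕ => ∑ i ∈ Finset.range (n + 1), H (i, n - i)) s := by
  have h1 := (Finset.HasAntidiagonal.sigmaAntidiagonalEquivProd (A := ℕ)).hasSum_iff.2 h
  have h2 := h1.sigma (g := fun n => ∑ i ∈ Finset.range (n + 1), H (i, n - i)) fun n => ?_
  · exact h2
  · have e : ∑ i ∈ Finset.range (n + 1), H (i, n - i) =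
        ∑ c : Finset.HasAntidiagonal.antidiagonal n, H (c : ℕ × ℕ) := by
      rw [Finset.sum_coe_sort (Finset.HasAntidiagonal.antidiagonal n) H,
        Finset.Nat.sum_antidiagonal_eq_sum_range_succ_mk]
    rw [e]
    exact hasSum_fintype _

/-- The coefficients of `G`. -/
def Gc (g : ℕ → ℂ) (j k : ℕ) : ℂ := if j = 0 ∨ k = 0 then 0 else g (j + k)

theorem Gc_norm {g : ℕ → ℂ} (hg : Gb (2 * eps) g) (j k : ℕ) : ‖Gc g j k‖ ≤ 1 := by
  unfold Gc
  split_ifs with h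
  · simp
  · have h1 := hg (j + k) (by omega)
    refine h1.trans ?_
    have h2 : (1 : ℝ) ≤ ((j + k : ℕ) : ℝ) ^ 3 := by
      refine one_le_pow₀ ?_
      exact_mod_cast (show 1 ≤ j + k by omega)
    rw [div_le_one (by linarith)]
    have : 2 * eps ≤ 1 := by norm_num [eps]
    linarith

theorem gam_norm (h3 : S3) {g : ℕ → ℂ} (hg : Gb (2 * eps) g) (j k : ℕ) : ‖gam g j k‖ ≤ 1 := by
  have he : 2 * eps ≤ 1 / 100 := by norm_num [eps]
  rcases Nat.eq_zero_or_pos j with rfl | hj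
  · rw [gam_zero_left]; simp
  rcases Nat.eq_zero_or_pos k with rfl | hk
  · rw [gam_zero_right]; simp
  have h := (h3 (2 * eps) 0 g g he hg hg).1 j k hj hk
  refine h.trans ?_
  have h2 : (1 : ℝ) ≤ ((j : ℝ) + k) ^ 3 := by
    refine one_le_pow₀ ?_
    have : (1 : ℝ) ≤ j := by exact_mod_cast hj
    have : (0 : ℝ) ≤ k := by positivity
    linarith
  rw [div_le_one (by linarith)]
  have : 11 / 10 * (2 * eps) ≤ 1 := by norm_num [eps]
  linarith

theorem summ1 {c : ℕ → ℕ → ℂ} (hc : ∀ j k, ‖c j k‖ ≤ 1) {u v : ℂ} (hu : ‖u‖ < 1) (hv : ‖v‖ < 1) :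
    Summable fun p : ℕ × ℕ => ‖(p.1 : ℂ) * c p.1 p.2 * u ^ p.1 * v ^ p.2‖ := by
  have h1 : Summable fun j : ℕ => (j : ℝ) * ‖u‖ ^ j := by
    have := summable_pow_mul_geometric_of_norm_lt_one (r := ‖u‖) 1 (by simpa using hu)
    simpa using this
  have h2 : Summable fun k : ℕ => ‖v‖ ^ k := summable_geometric_of_lt_one (norm_nonneg _) hv
  refine Summable.of_nonneg_of_le (fun _ => norm_nonneg _) (fun p => ?_)
    (h1.mul_of_nonneg h2 (fun j => by positivity) (fun k => by positivity))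
  rw [norm_mul, norm_mul, norm_mul, norm_pow, norm_pow, Complex.norm_natCast]
  calc (p.1 : ℝ) * ‖c p.1 p.2‖ * ‖u‖ ^ p.1 * ‖v‖ ^ p.2
      ≤ (p.1 : ℝ) * 1 * ‖u‖ ^ p.1 * ‖v‖ ^ p.2 := by gcongr; exact hc _ _
    _ = _ := by ring

theorem summ0 {c : ℕ → ℕ → ℂ} (hc : ∀ j k, ‖c j k‖ ≤ 1) {u v : ℂ} (hu : ‖u‖ < 1) (hv : ‖v‖ < 1) :
    Summable fun p : ℕ × ℕ => ‖c p.1 p.2 * u ^ p.1 * v ^ p.2‖ := by
  have h1 : Summable fun j : ℕ => ‖u‖ ^ j := summable_geometric_of_lt_one (norm_nonneg _) hu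
  have h2 : Summable fun k : ℕ => ‖v‖ ^ k := summable_geometric_of_lt_one (norm_nonneg _) hv
  refine Summable.of_nonneg_of_le (fun _ => norm_nonneg _) (fun p => ?_)
    (h1.mul_of_nonneg h2 (fun j => by positivity) (fun k => by positivity))
  rw [norm_mul, norm_mul, norm_pow, norm_pow]
  calc ‖c p.1 p.2‖ * ‖u‖ ^ p.1 * ‖v‖ ^ p.2
      ≤ 1 * ‖u‖ ^ p.1 * ‖v‖ ^ p.2 := by gcongr; exact hc _ _
    _ = _ := by ring

theorem gam_all (g : ℕ → ℂ) (j k : ℕ) (u v : ℂ) :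
    (j : ℂ) * gam g j k * u ^ j * v ^ k = -((j : ℂ) * Gc g j k * u ^ j * v ^ k) +
      ∑ a ∈ Finset.range (j + 1), ∑ b ∈ Finset.range (k + 1),
        ((a : ℂ) * gam g a b * u ^ a * v ^ b) * (Gc g (j - a) (k - b) * u ^ (j - a) *
          v ^ (k - b)) := by
  rcases Nat.eq_zero_or_pos j with rfl | hj
  · simp
  rcases Nat.eq_zero_or_pos k with rfl | hk
  · rw [gam_zero_right]
    have : ∀ j, Gc g j 0 = 0 := fun j => by simp [Gc]
    simp [this]
  have hj0 : (j : ℂ) ≠ 0 := by exact_mod_cast hj.ne'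
  rw [Finset.sum_range_succ]
  have e1 : ∑ b ∈ Finset.range (k + 1), ((j : ℂ) * gam g j b * u ^ j * v ^ b) *
      (Gc g (j - j) (k - b) * u ^ (j - j) * v ^ (k - b)) = 0 := by
    refine Finset.sum_eq_zero fun b _ => ?_
    simp [Gc]
  rw [e1, add_zero]
  have e2 : ∀ a ∈ Finset.range j, ∑ b ∈ Finset.range (k + 1),
      ((a : ℂ) * gam g a b * u ^ a * v ^ b) * (Gc g (j - a) (k - b) * u ^ (j - a) *
        v ^ (k - b)) = (∑ b ∈ Finset.range k, (a : ℂ) * g (j + k - a - b) * gam g a b) *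
          (u ^ j * v ^ k) := by
    intro a ha
    rw [Finset.mem_range] at ha
    rw [Finset.sum_range_succ, Finset.sum_mul]
    have e3 : Gc g (j - a) (k - k) = 0 := by simp [Gc]
    rw [e3, zero_mul, zero_mul, mul_zero, add_zero]
    refine Finset.sum_congr rfl fun b hb => ?_
    rw [Finset.mem_range] at hb
    have e4 : Gc g (j - a) (k - b) = g (j + k - a - b) := by
      rw [Gc, if_neg (by omega)]
      congr 1
      omega
    have e5 : u ^ j = u ^ a * u ^ (j - a) := by rw [← pow_add]; congr 1; omega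
    have e6 : v ^ k = v ^ b * v ^ (k - b) := by rw [← pow_add]; congr 1; omega
    rw [e4, e5, e6]
    ring
  rw [Finset.sum_congr rfl e2, ← Finset.sum_mul, gam_rec g hj hk]
  have e7 : Gc g j k = g (j + k) := by rw [Gc, if_neg (by omega)]
  rw [e7]
  field_simp

/-- The functional equation `DC = -DG + DC * G`. -/
theorem func_eq (h3 : S3) {g : ℕ → ℂ} (hg : Gb (2 * eps) g) {u v : ℂ} (hu : ‖u‖ < 1)
    (hv : ‖v‖ < 1) (F H G : ℕ × ℕ → ℂ)
    (hF : F = fun p => (p.1 : ℂ) * gam g p.1 p.2 * u ^ p.1 * v ^ p.2)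
    (hH : H = fun p => (p.1 : ℂ) * Gc g p.1 p.2 * u ^ p.1 * v ^ p.2)
    (hG : G = fun p => Gc g p.1 p.2 * u ^ p.1 * v ^ p.2) :
    ∑' p : ℕ × ℕ, F p = -∑' p : ℕ × ℕ, H p + (∑' p : ℕ × ℕ, F p) * ∑' p : ℕ × ℕ, G p := by
  have s1 : Summable fun p => ‖F p‖ := by rw [hF]; exact summ1 (gam_norm h3 hg) hu hv
  have s2 : Summable fun p => ‖H p‖ := by rw [hH]; exact summ1 (Gc_norm hg) hu hv
  have s3 : Summable fun p => ‖G p‖ := by rw [hG]; exact summ0 (Gc_norm hg) hu hv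
  have hprod : Summable fun x : (ℕ × ℕ) × (ℕ × ℕ) => F x.1 * G x.2 :=
    summable_mul_of_summable_norm s1 s3
  have key := s1.of_norm.tsum_mul_tsum_eq_tsum_sum_antidiagonal s3.of_norm hprod
  have key2 := summable_sum_mul_antidiagonal_of_summable_mul (f := F) (g := G) hprod
  have key3 : ∀ p : ℕ × ℕ, F p = -H p +
      ∑ kl ∈ Finset.HasAntidiagonal.antidiagonal p, F kl.1 * G kl.2 := by
    intro p
    rw [sum_anti (fun x => F x.1 * G x.2) p, hF, hH, hG]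
    exact gam_all g p.1 p.2 u v
  rw [key, ← tsum_neg, ← (s2.of_norm.neg).tsum_add key2]
  exact tsum_congr key3

theorem Ssum (u v : ℂ) (m : ℕ) : (u - v) * ∑ i ∈ Finset.range (m + 1), u ^ (i + 1) * v ^ (m + 1 - i)
    = u * v * (u ^ (m + 1) - v ^ (m + 1)) := by
  induction m with
  | zero => simp; ring
  | succ m ih =>
    have e : ∑ i ∈ Finset.range (m + 1 + 1), u ^ (i + 1) * v ^ (m + 1 + 1 - i) =
        v * (∑ i ∈ Finset.range (m + 1), u ^ (i + 1) * v ^ (m + 1 - i)) + u ^ (m + 2) * v := by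
      rw [Finset.sum_range_succ, Finset.mul_sum]
      congr 1
      · refine Finset.sum_congr rfl fun i hi => ?_
        rw [Finset.mem_range] at hi
        have : m + 1 + 1 - i = (m + 1 - i) + 1 := by omega
        rw [this, pow_succ]
        ring
      · have : m + 1 + 1 - (m + 1) = 1 := by omega
        rw [this, pow_one]
    rw [e]
    linear_combination v * ih

theorem Tsum (u v : ℂ) (m : ℕ) : (u - v) * ∑ i ∈ Finset.range (m + 1),
      ((i : ℂ) + 1) * (u ^ (i + 1) * v ^ (m + 1 - i))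
    = (m + 1) * u ^ (m + 2) * v -
      v * ∑ i ∈ Finset.range (m + 1), u ^ (i + 1) * v ^ (m + 1 - i) := by
  induction m with
  | zero => simp; ring
  | succ m ih =>
    have hs : ∀ i ∈ Finset.range (m + 1), v ^ (m + 1 + 1 - i) = v * v ^ (m + 1 - i) := by
      intro i hi
      rw [Finset.mem_range] at hi
      have : m + 1 + 1 - i = (m + 1 - i) + 1 := by omega
      rw [this, pow_succ]
      ring
    have h1 : m + 1 + 1 - (m + 1) = 1 := by omega
    have e : ∑ i ∈ Finset.range (m + 1 + 1), u ^ (i + 1) * v ^ (m + 1 + 1 - i) =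
        v * (∑ i ∈ Finset.range (m + 1), u ^ (i + 1) * v ^ (m + 1 - i)) + u ^ (m + 2) * v := by
      rw [Finset.sum_range_succ, Finset.mul_sum, h1, pow_one]
      congr 1
      refine Finset.sum_congr rfl fun i hi => ?_
      rw [hs i hi]
      ring
    have e' : ∑ i ∈ Finset.range (m + 1 + 1), ((i : ℂ) + 1) * (u ^ (i + 1) * v ^ (m + 1 + 1 - i)) =
        v * (∑ i ∈ Finset.range (m + 1), ((i : ℂ) + 1) * (u ^ (i + 1) * v ^ (m + 1 - i))) +
          (m + 2) * u ^ (m + 2) * v := by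
      rw [Finset.sum_range_succ, Finset.mul_sum, h1, pow_one]
      congr 1
      · refine Finset.sum_congr rfl fun i hi => ?_
        rw [hs i hi]
        ring
      · push_cast
        ring
    rw [e, e']
    push_cast
    linear_combination v * ih

theorem sum_shift (f : ℕ → ℂ) (m : ℕ) (h0 : f 0 = 0) (h1 : f (m + 2) = 0) :
    ∑ i ∈ Finset.range (m + 2 + 1), f i = ∑ i ∈ Finset.range (m + 1), f (i + 1) := by
  rw [Finset.sum_range_succ, h1, add_zero, Finset.sum_range_succ', h0, add_zero]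

theorem hasSum_G {g : ℕ → ℂ} (hg : Gb (2 * eps) g) {u v : ℂ} (hu : ‖u‖ < 1) (hv : ‖v‖ < 1) :
    HasSum (fun m : ℕ => g (m + 2) * ∑ i ∈ Finset.range (m + 1), u ^ (i + 1) * v ^ (m + 1 - i))
      (∑' p : ℕ × ℕ, Gc g p.1 p.2 * u ^ p.1 * v ^ p.2) := by
  have h := hasSum_anti (summ0 (Gc_norm hg) hu hv).of_norm.hasSum
  have h2 := (hasSum_nat_add_iff' 2).2 h
  have z : ∑ i ∈ Finset.range 2, ∑ i_1 ∈ Finset.range (i + 1),
      Gc g i_1 (i - i_1) * u ^ i_1 * v ^ (i - i_1) = 0 := by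
    simp [Finset.sum_range_succ, Gc]
  rw [z, sub_zero] at h2
  refine h2.congr_fun ?_ |> fun h => h
  intro m
  rw [sum_shift _ m (by simp [Gc]) (by simp [Gc]), Finset.mul_sum]
  refine Finset.sum_congr rfl fun i hi => ?_
  rw [Finset.mem_range] at hi
  have e : m + 2 - (i + 1) = m + 1 - i := by omega
  rw [e, Gc, if_neg (by omega)]
  have e' : i + 1 + (m + 1 - i) = m + 2 := by omega
  rw [e']
  ring

theorem hasSum_DG {g : ℕ → ℂ} (hg : Gb (2 * eps) g) {u v : ℂ} (hu : ‖u‖ < 1) (hv : ‖v‖ < 1) :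
    HasSum (fun m : ℕ => g (m + 2) * ∑ i ∈ Finset.range (m + 1),
      ((i : ℂ) + 1) * (u ^ (i + 1) * v ^ (m + 1 - i)))
      (∑' p : ℕ × ℕ, (p.1 : ℂ) * Gc g p.1 p.2 * u ^ p.1 * v ^ p.2) := by
  have h := hasSum_anti (summ1 (Gc_norm hg) hu hv).of_norm.hasSum
  have h2 := (hasSum_nat_add_iff' 2).2 h
  have z : ∑ i ∈ Finset.range 2, ∑ i_1 ∈ Finset.range (i + 1),
      (i_1 : ℂ) * Gc g i_1 (i - i_1) * u ^ i_1 * v ^ (i - i_1) = 0 := by
    simp [Finset.sum_range_succ, Gc]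
  rw [z, sub_zero] at h2
  refine h2.congr_fun ?_ |> fun h => h
  intro m
  rw [sum_shift _ m (by simp [Gc]) (by simp [Gc]), Finset.mul_sum]
  refine Finset.sum_congr rfl fun i hi => ?_
  rw [Finset.mem_range] at hi
  have e : m + 2 - (i + 1) = m + 1 - i := by omega
  rw [e, Gc, if_neg (by omega)]
  have e' : i + 1 + (m + 1 - i) = m + 2 := by omega
  rw [e']
  push_cast
  ring

theorem kk_deriv {g : ℕ → ℂ} (hg : Gb (2 * eps) g) {u : ℂ} (hu : ‖u‖ < 1) :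
    HasSum (fun m : ℕ => g (m + 2) * ((m + 1) * u ^ m)) (deriv (PF1.kk g) u) := by
  have h := hasSum_deriv_of_summable_norm (F := fun (m : ℕ) (w : ℂ) => g (m + 2) * w ^ (m + 1))
    (u := fun m : ℕ => 2 * eps * (1 / (((m : ℝ) + 2) * (m + 3)))) (PF1.summable_tel.mul_left _)
    (fun m => ((differentiable_const _).mul (differentiable_id.pow _)).differentiableOn)
    isOpen_ball (fun m w hw => ?_) (z := u) (U := ball 0 1) (by rwa [mem_ball_zero_iff])
  · refine h.congr_fun ?_ |> fun h => h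
    intro m
    have e : HasDerivAt (fun w : ℂ => g (m + 2) * w ^ (m + 1))
        (g (m + 2) * (((m + 1 : ℕ) : ℂ) * u ^ (m + 1 - 1))) u :=
      (hasDerivAt_pow (m + 1) u).const_mul _
    rw [e.deriv]
    simp
  · rw [mem_ball_zero_iff] at hw
    rw [norm_mul, norm_pow]
    have h1 : ‖w‖ ^ (m + 1) ≤ 1 := pow_le_one₀ (norm_nonneg _) hw.le
    calc _ ≤ ‖g (m + 2)‖ * 1 := by gcongr
      _ ≤ _ := by rw [mul_one]; exact PF1.g_le' hg m

theorem G_closed {g : ℕ → ℂ} (hg : Gb (2 * eps) g) {u v : ℂ} (hu : ‖u‖ < 1) (hv : ‖v‖ < 1) :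
    (u - v) * ∑' p : ℕ × ℕ, Gc g p.1 p.2 * u ^ p.1 * v ^ p.2 =
      u * v * (PF1.kk g u - PF1.kk g v) := by
  have h1 := (hasSum_G hg hu hv).mul_left (u - v)
  have h2 := ((PF1.kk_summable hg hu.le).hasSum.sub
    (PF1.kk_summable hg hv.le).hasSum).mul_left (u * v)
  refine h1.unique (h2.congr_fun ?_ |> fun h => h)
  intro m
  linear_combination (g (m + 2)) * Ssum u v m

theorem DG_closed {g : ℕ → ℂ} (hg : Gb (2 * eps) g) {u v : ℂ} (hu : ‖u‖ < 1) (hv : ‖v‖ < 1) :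
    (u - v) * ∑' p : ℕ × ℕ, (p.1 : ℂ) * Gc g p.1 p.2 * u ^ p.1 * v ^ p.2 =
      u ^ 2 * v * deriv (PF1.kk g) u - v * ∑' p : ℕ × ℕ, Gc g p.1 p.2 * u ^ p.1 * v ^ p.2 := by
  have h1 := (hasSum_DG hg hu hv).mul_left (u - v)
  have h2 := ((kk_deriv hg hu).mul_left (u ^ 2 * v)).sub ((hasSum_G hg hu hv).mul_left v)
  refine h1.unique (h2.congr_fun ?_ |> fun h => h)
  intro m
  linear_combination (g (m + 2)) * Tsum u v m

theorem G_norm {g : ℕ → ℂ} (hg : Gb (2 * eps) g) {u v : ℂ} (hu : ‖u‖ < 1) (hv : ‖v‖ < 1)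
    (huv : u ≠ v) : ‖∑' p : ℕ × ℕ, Gc g p.1 p.2 * u ^ p.1 * v ^ p.2‖ ≤ eps := by
  have h := G_closed hg hu hv
  have h1 := PF1.kk_sub hg hu.le hv.le
  have hpos : 0 < ‖u - v‖ := norm_pos_iff.2 (sub_ne_zero.2 huv)
  have h2 : ‖u - v‖ * ‖∑' p : ℕ × ℕ, Gc g p.1 p.2 * u ^ p.1 * v ^ p.2‖ ≤ ‖u - v‖ * eps := by
    rw [← norm_mul, h, norm_mul, norm_mul]
    calc ‖u‖ * ‖v‖ * ‖PF1.kk g u - PF1.kk g v‖ ≤ 1 * 1 * (eps * ‖u - v‖) := by gcongr
      _ = _ := by ring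
  exact le_of_mul_le_mul_left h2 hpos

end PF3

theorem f3 (h3 : S3) : F3 := by
  intro g hg ζ η hζ hη hne
  have z1 := PF1.ne_zero_of hζ.le
  have z2 := PF1.ne_zero_of hη.le
  have hr : (rr : ℂ) ≠ 0 := by exact_mod_cast PF1.rr_pos.ne'
  have hu := PF1.norm_div_lt hζ
  have hv := PF1.norm_div_lt hη
  have huv : (rr : ℂ) / ζ ≠ rr / η := by
    intro h
    apply hne
    rw [div_eq_div_iff z1 z2] at h
    exact (mul_left_cancel₀ hr h).symm
  have hs := (PF3.summ1 (PF3.gam_norm h3 hg) hu hv).of_norm.hasSum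
  have hf := PF3.func_eq h3 hg hu hv _ _ _ rfl rfl rfl
  have hG := PF3.G_closed hg hu hv
  have hDG := PF3.DG_closed hg hu hv
  have hGn := PF3.G_norm hg hu hv huv
  have hd : deriv (Fm g) ζ = 1 - (rr / ζ) ^ 2 * deriv (PF1.kk g) (rr / ζ) := by
    have e : Fm g =ᶠ[𝓝 ζ] fun ζ => ζ + rr * PF1.kk g (rr / ζ) := by
      filter_upwards [(PF1.isOpen_ext rr).mem_nhds hζ] with η hη
      exact PF1.Fm_eq hg (le_of_lt hη)
    rw [e.deriv_eq]
    have h1 : HasDerivAt (PF1.kk g) (deriv (PF1.kk g) (rr / ζ)) (rr / ζ) := by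
      refine ((PF1.kk_diff hg).differentiableAt (isOpen_ball.mem_nhds ?_)).hasDerivAt
      rw [mem_ball_zero_iff]
      exact hu
    have h2 : HasDerivAt (fun ζ : ℂ => (rr : ℂ) / ζ) (-rr / ζ ^ 2) ζ := by
      have h := (hasDerivAt_inv z1).const_mul (rr : ℂ)
      have e1 : (rr : ℂ) * -(ζ ^ 2)⁻¹ = -rr / ζ ^ 2 := by ring
      rw [e1] at h
      exact h
    have h3 := (hasDerivAt_id ζ).add ((h1.comp ζ h2).const_mul (rr : ℂ))
    have h4 : deriv (fun ζ : ℂ => ζ + rr * PF1.kk g (rr / ζ)) ζ =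
        1 + rr * (deriv (PF1.kk g) (rr / ζ) * (-rr / ζ ^ 2)) := h3.deriv
    rw [h4]
    field_simp
    ring
  have hF : Fm g ζ - Fm g η = (ζ - η) * (1 - ∑' p : ℕ × ℕ, PF3.Gc g p.1 p.2 * (rr / ζ) ^ p.1 *
      (rr / η) ^ p.2) := by
    rw [PF1.Fm_eq hg hζ.le, PF1.Fm_eq hg hη.le]
    have h5 : (rr : ℂ) / ζ - rr / η = rr * (η - ζ) / (ζ * η) := by field_simp
    rw [h5] at hG
    generalize (∑' p : ℕ × ℕ, PF3.Gc g p.1 p.2 * ((rr : ℂ) / ζ) ^ p.1 * (rr / η) ^ p.2) = G at *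
    generalize PF1.kk g (rr / ζ) = x at *
    generalize PF1.kk g (rr / η) = y at *
    field_simp at hG
    linear_combination -hG
  generalize (∑' p : ℕ × ℕ, (p.1 : ℂ) * gam g p.1 p.2 * ((rr : ℂ) / ζ) ^ p.1 * (rr / η) ^ p.2) =
    DC at *
  generalize (∑' p : ℕ × ℕ, (p.1 : ℂ) * PF3.Gc g p.1 p.2 * ((rr : ℂ) / ζ) ^ p.1 *
    (rr / η) ^ p.2) = DG at *
  generalize (∑' p : ℕ × ℕ, PF3.Gc g p.1 p.2 * ((rr : ℂ) / ζ) ^ p.1 * (rr / η) ^ p.2) = G at *
  have hG1 : 1 - G ≠ 0 := by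
    intro h
    have : G = 1 := by linear_combination -h
    rw [this, norm_one] at hGn
    have := PF1.eps_lt
    linarith
  have hne' : ζ - η ≠ 0 := sub_ne_zero.2 hne
  have e : ζ / (ζ - η) - ζ * deriv (Fm g) ζ / (Fm g ζ - Fm g η) = DC := by
    rw [hF, hd]
    generalize deriv (PF1.kk g) (rr / ζ) = D at *
    have h5 : (rr : ℂ) / ζ - rr / η = rr * (η - ζ) / (ζ * η) := by field_simp
    rw [h5] at hDG
    have hD : (rr : ℂ) ^ 2 * D = ζ * ((η - ζ) * DG + ζ * G) := by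
      field_simp at hDG
      linear_combination -hDG
    have e1 : ((rr : ℂ) / ζ) ^ 2 * D = ((η - ζ) * DG + ζ * G) / ζ := by
      field_simp
      linear_combination hD
    have hDC : DC = -DG / (1 - G) := by
      rw [eq_div_iff hG1]
      linear_combination hf
    rw [e1, hDC]
    field_simp
    ring
  rw [e]
  exact hs

end Pool.Agent.Stek
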