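import Pool.Agent.Stek.TSeq
import Pool.Agent.Stek.PF1

open scoped BigOperators ComplexConjugate Topology ContDiff
open Complex Metric

noncomputable section

namespace Pool.Agent.Stek

namespace PF4

/-- Absolute convergence of a power series at `u`. -/
def AC (f : PowerSeries ℂ) (u : ℂ) : Prop := Summable fun j : ℕ => ‖PowerSeries.coeff j f * u ^ j‖

def ev (f : PowerSeries ℂ) (u : ℂ) : ℂ := ∑' j : ℕ, PowerSeries.coeff j f * u ^ j

theorem coeff_mul_pow (f h : PowerSeries ℂ) (u : ℂ) (n : ℕ) :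
    PowerSeries.coeff n (f * h) * u ^ n = ∑ p ∈ Finset.HasAntidiagonal.antidiagonal n,
      (PowerSeries.coeff p.1 f * u ^ p.1) * (PowerSeries.coeff p.2 h * u ^ p.2) := by
  rw [PowerSeries.coeff_mul, Finset.sum_mul]
  refine Finset.sum_congr rfl fun p hp => ?_
  rw [Finset.HasAntidiagonal.mem_antidiagonal] at hp
  rw [← hp, pow_add]
  ring

theorem AC.mul {f h : PowerSeries ℂ} {u : ℂ} (hf : AC f u) (hh : AC h u) : AC (f * h) u := by
  have key := summable_norm_sum_mul_antidiagonal_of_summable_norm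
    (f := fun j : ℕ => PowerSeries.coeff j f * u ^ j)
    (g := fun j : ℕ => PowerSeries.coeff j h * u ^ j) hf hh
  refine key.congr fun n => ?_
  rw [coeff_mul_pow]

theorem ev_mul {f h : PowerSeries ℂ} {u : ℂ} (hf : AC f u) (hh : AC h u) :
    ev (f * h) u = ev f u * ev h u := by
  have key := tsum_mul_tsum_eq_tsum_sum_antidiagonal_of_summable_norm
    (f := fun j : ℕ => PowerSeries.coeff j f * u ^ j)
    (g := fun j : ℕ => PowerSeries.coeff j h * u ^ j) hf hh
  unfold ev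
  rw [key]
  exact tsum_congr fun n => coeff_mul_pow f h u n

theorem hasSum_of_ne {f : ℕ → ℂ} {k : ℕ} (h : ∀ j, j ≠ k → f j = 0) : HasSum f (f k) :=
  hasSum_single k h

theorem AC_one (u : ℂ) : AC 1 u := by
  unfold AC
  refine (hasSum_single 0 fun j hj => ?_).summable
  simp [PowerSeries.coeff_one, hj]

theorem ev_one (u : ℂ) : ev 1 u = 1 := by
  unfold ev
  rw [tsum_eq_single 0 fun j hj => by simp [PowerSeries.coeff_one, hj]]
  simp

theorem ev_X (u : ℂ) : ev PowerSeries.X u = u := by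
  unfold ev
  rw [tsum_eq_single 1 fun j hj => by simp [PowerSeries.coeff_X, hj]]
  simp

theorem AC.pow {f : PowerSeries ℂ} {u : ℂ} (hf : AC f u) (n : ℕ) : AC (f ^ n) u := by
  induction n with
  | zero => rw [pow_zero]; exact AC_one u
  | succ n ih => rw [pow_succ]; exact ih.mul hf

theorem ev_pow {f : PowerSeries ℂ} {u : ℂ} (hf : AC f u) (n : ℕ) : ev (f ^ n) u = ev f u ^ n := by
  induction n with
  | zero => rw [pow_zero, pow_zero]; exact ev_one u
  | succ n ih => rw [pow_succ, pow_succ, ev_mul (hf.pow n) hf, ih]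

/-- The power series `1 + ∑ g n X ^ n`. -/
def qq (g : ℕ → ℂ) : PowerSeries ℂ := 1 + PowerSeries.mk (fun n => if n < 2 then 0 else g n)

theorem coeff_qq (g : ℕ → ℂ) (n : ℕ) :
    PowerSeries.coeff n (qq g) = (if n = 0 then 1 else 0) + (if n < 2 then 0 else g n) := by
  simp [qq, PowerSeries.coeff_one]

theorem phi_mul (g : ℕ → ℂ) : phi g * qq g = PowerSeries.X := by
  have h : PowerSeries.constantCoeff (qq g) ≠ 0 := by
    simp [qq]
  rw [phi, mul_assoc]
  change PowerSeries.X * ((qq g)⁻¹ * qq g) = PowerSeries.X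
  rw [PowerSeries.inv_mul_cancel _ h, mul_one]

theorem summable_g {g : ℕ → ℂ} (hg : Gb (2 * eps) g) {u : ℂ} (hu : ‖u‖ ≤ 1) :
    Summable fun n : ℕ => ‖(if n < 2 then 0 else g n) * u ^ n‖ := by
  rw [← summable_nat_add_iff 2]
  refine Summable.of_nonneg_of_le (fun _ => norm_nonneg _) (fun m => ?_)
    (PF1.summable_tel.mul_left (2 * eps))
  rw [if_neg (by omega), norm_mul, norm_pow]
  have h1 : ‖u‖ ^ (m + 2) ≤ 1 := pow_le_one₀ (norm_nonneg _) hu
  calc _ ≤ ‖g (m + 2)‖ * 1 := by gcongr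
    _ ≤ _ := by rw [mul_one]; exact PF1.g_le' hg m

theorem AC_qq {g : ℕ → ℂ} (hg : Gb (2 * eps) g) {u : ℂ} (hu : ‖u‖ ≤ 1) : AC (qq g) u := by
  unfold AC
  have h1 : Summable fun n : ℕ => ‖(if n = 0 then (1 : ℂ) else 0) * u ^ n‖ :=
    (hasSum_single 0 fun j hj => by simp [hj]).summable
  refine Summable.of_nonneg_of_le (fun _ => norm_nonneg _) (fun n => ?_) (h1.add (summable_g hg hu))
  rw [coeff_qq, add_mul]
  exact norm_add_le _ _

theorem ev_qq {g : ℕ → ℂ} (hg : Gb (2 * eps) g) {u : ℂ} (hu : ‖u‖ ≤ 1) :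
    ev (qq g) u = 1 + hh g u := by
  have h1 : HasSum (fun n : ℕ => (if n = 0 then (1 : ℂ) else 0) * u ^ n) 1 := by
    have := hasSum_single (f := fun n : ℕ => (if n = 0 then (1 : ℂ) else 0) * u ^ n) 0
      (fun j hj => by simp [hj])
    simpa using this
  have h2 := (summable_g hg hu).of_norm.hasSum
  unfold ev hh
  rw [← (h1.add h2).tsum_eq]
  refine tsum_congr fun n => ?_
  rw [coeff_qq, add_mul]

theorem AC_phi (h6 : S6) {g : ℕ → ℂ} (hg : Gb (2 * eps) g) {u : ℂ} (hu : ‖u‖ ≤ 1) :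
    AC (phi g) u := by
  have he : 2 * eps ≤ 1 / 100 := by norm_num [eps]
  obtain ⟨h1, -, h2, -⟩ := h6 (2 * eps) 0 g g he hg hg
  have hs : Summable fun n : ℕ => 1 / (n : ℝ) ^ 3 := Real.summable_one_div_nat_pow.2 (by norm_num)
  unfold AC
  refine Summable.of_nonneg_of_le (fun _ => norm_nonneg _) (fun j => ?_) hs
  have e : PowerSeries.coeff j (phi g) = ee g 1 j := by rw [ee, pow_one]
  rw [e]
  rcases Nat.eq_zero_or_pos j with rfl | hj
  · rw [h1 1 0 (by norm_num)]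
    simp
  · have := h2 1 j le_rfl hj
    rw [norm_mul, norm_pow]
    have h3 : ‖u‖ ^ j ≤ 1 := pow_le_one₀ (norm_nonneg _) hu
    calc _ ≤ ‖ee g 1 j‖ * 1 := by gcongr
      _ ≤ _ := by simpa using this

end PF4

theorem f4 (h6 : S6) : F4 := by
  intro g hg ζ hζ n
  have h0 := PF1.ne_zero_of hζ.le
  have hu := (PF1.norm_div_lt hζ).le
  have hr : (rr : ℂ) ≠ 0 := by exact_mod_cast PF1.rr_pos.ne'
  have ac := PF4.AC_phi h6 hg hu
  have hmul : PF4.ev (phi g) (rr / ζ) * (1 + hh g (rr / ζ)) = rr / ζ := by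
    rw [← PF4.ev_qq hg hu, ← PF4.ev_mul ac (PF4.AC_qq hg hu), PF4.phi_mul, PF4.ev_X]
  have hne : 1 + hh g (rr / ζ) ≠ 0 := by
    intro h
    rw [h, mul_zero] at hmul
    exact div_ne_zero hr h0 hmul.symm
  have hev : PF4.ev (phi g) (rr / ζ) = rr / Fm g ζ := by
    rw [Fm, ← div_div, eq_div_iff hne, hmul]
  have hs : Summable fun j : ℕ => ee g n j * ((rr : ℂ) / ζ) ^ j := (ac.pow n).of_norm
  have h := hs.hasSum
  have e : ∑' j : ℕ, ee g n j * ((rr : ℂ) / ζ) ^ j = (rr / Fm g ζ) ^ n := by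
    rw [← hev, ← PF4.ev_pow ac]
    rfl
  rwa [e] at h

end Pool.Agent.Stek
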