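import Pool.Agent.Stek.TSeq
import Pool.Agent.Stek.TFun

set_option autoImplicit false

/-!
# F5a: negative Laurent coefficients of `f ∘ Fm`
-/

open scoped BigOperators ComplexConjugate Topology ContDiff
open Complex Metric

noncomputable section

namespace Pool.Agent.Stek

namespace F5t

theorem rr_pos : 0 < rr := by unfold rr; positivity
theorem eps_pos : 0 < eps := by unfold eps; positivity

/-- termwise circle integration -/
theorem ci_hasSum {ι : Type} [Countable ι] {ρ : ℝ} (hρ : 0 ≤ ρ) {F : ι → ℂ → ℂ} {f : ℂ → ℂ}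
    {u : ι → ℝ} (hu : Summable u) (hc : ∀ i, ContinuousOn (F i) (sphere 0 ρ))
    (hb : ∀ i z, ‖z‖ = ρ → ‖F i z‖ ≤ u i)
    (hs : ∀ z, ‖z‖ = ρ → HasSum (fun i => F i z) (f z)) :
    HasSum (fun i => ci ρ (F i)) (ci ρ f) := by
  unfold ci
  refine HasSum.mul_left _ ?_
  unfold circleIntegral
  have hn : ∀ t : ℝ, ‖circleMap 0 ρ t‖ = ρ := fun t => by
    have := circleMap_mem_sphere (0 : ℂ) hρ t
    simpa using this
  refine intervalIntegral.hasSum_integral_of_dominated_convergence (fun i _ => ρ * u i) ?_ ?_ ?_ ?_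
    ?_
  · intro i
    have h1 : Continuous (fun t : ℝ => deriv (circleMap 0 ρ) t) := by
      have : deriv (circleMap 0 ρ) = fun t => circleMap 0 ρ t * I := by
        funext t; exact deriv_circleMap _ _ _
      rw [this]
      exact (continuous_circleMap 0 ρ).mul continuous_const
    have h2 : Continuous (fun t : ℝ => F i (circleMap 0 ρ t)) :=
      (hc i).comp_continuous (continuous_circleMap 0 ρ)
        (fun t => circleMap_mem_sphere 0 hρ t)
    exact (h1.smul h2).aestronglyMeasurable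
  · intro i
    refine Filter.Eventually.of_forall fun t _ => ?_
    rw [norm_smul, deriv_circleMap, norm_mul, norm_I, mul_one, hn]
    exact mul_le_mul_of_nonneg_left (hb i _ (hn t)) hρ
  · exact Filter.Eventually.of_forall fun t _ => hu.mul_left ρ
  · exact intervalIntegrable_const
  · exact Filter.Eventually.of_forall fun t _ => (hs _ (hn t)).const_smul _

theorem ci_bound {ρ M : ℝ} (hρ : 0 ≤ ρ) {f : ℂ → ℂ} (hb : ∀ z, ‖z‖ = ρ → ‖f z‖ ≤ M) :
    ‖ci ρ f‖ ≤ ρ * M := by
  unfold ci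
  have := circleIntegral.norm_two_pi_i_inv_smul_integral_le_of_norm_le_const (c := 0) hρ
    (f := f) (C := M) (fun z hz => hb z (by simpa using hz))
  simpa [smul_eq_mul] using this

theorem ci_congr {ρ : ℝ} (hρ : 0 ≤ ρ) {f g : ℂ → ℂ} (h : ∀ z, ‖z‖ = ρ → f z = g z) :
    ci ρ f = ci ρ g := by
  unfold ci
  rw [circleIntegral.integral_congr hρ (fun z hz => h z (by simpa using hz))]

theorem ci_mul_left (ρ : ℝ) (a : ℂ) (f : ℂ → ℂ) : ci ρ (fun z => a * f z) = a * ci ρ f := by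
  unfold ci
  rw [circleIntegral.integral_const_mul]
  ring

theorem ci_sub {ρ : ℝ} (hρ : 0 ≤ ρ) {f g : ℂ → ℂ} (hf : ContinuousOn f (sphere 0 ρ))
    (hg : ContinuousOn g (sphere 0 ρ)) : ci ρ (fun z => f z - g z) = ci ρ f - ci ρ g := by
  unfold ci
  rw [circleIntegral.integral_sub (hf.circleIntegrable hρ) (hg.circleIntegrable hρ)]
  ring

theorem ci_add {ρ : ℝ} (hρ : 0 ≤ ρ) {f g : ℂ → ℂ} (hf : ContinuousOn f (sphere 0 ρ))
    (hg : ContinuousOn g (sphere 0 ρ)) : ci ρ (fun z => f z + g z) = ci ρ f + ci ρ g := by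
  unfold ci
  rw [circleIntegral.integral_add (hf.circleIntegrable hρ) (hg.circleIntegrable hρ)]
  ring

theorem ci_deriv_zero {ρ : ℝ} (hρ : 0 ≤ ρ) {f f' : ℂ → ℂ}
    (h : ∀ z, ‖z‖ = ρ → HasDerivAt f (f' z) z) : ci ρ f' = 0 := by
  unfold ci
  rw [circleIntegral.integral_eq_zero_of_hasDerivWithinAt hρ
    (f := f) (fun z hz => (h z (by simpa using hz)).hasDerivWithinAt), mul_zero]

/-- uniqueness of the coefficients of a power series in `1 / w` -/
theorem coef_zero {b : ℕ → ℂ} {W : ℝ} (hb0 : b 0 = 0) (hW : 0 < W)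
    (h : ∀ w : ℂ, W < ‖w‖ → HasSum (fun k : ℕ => b k * (w⁻¹) ^ k) 0) : ∀ k, b k = 0 := by
  have key : HasFPowerSeriesAt (0 : ℂ → ℂ) (FormalMultilinearSeries.ofScalars ℂ b) 0 := by
    rw [hasFPowerSeriesAt_iff]
    have hev : ∀ᶠ z : ℂ in 𝓝 0, ‖z‖ < W⁻¹ := by
      have := Metric.ball_mem_nhds (0 : ℂ) (inv_pos.2 hW)
      filter_upwards [this] with z hz
      simpa using hz
    filter_upwards [hev] with z hz
    simp only [FormalMultilinearSeries.coeff_ofScalars, Pi.zero_apply, smul_eq_mul]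
    rcases eq_or_ne z 0 with rfl | hz0
    · have h0 : (fun n : ℕ => (0 : ℂ) ^ n * b n) = fun _ => 0 := by
        funext n
        rcases n with _ | n
        · simp [hb0]
        · simp
      rw [h0]
      exact hasSum_zero
    · have hw : W < ‖z⁻¹‖ := by
        rw [norm_inv]
        exact (lt_inv_comm₀ hW (norm_pos_iff.2 hz0)).2 hz
      have := h _ hw
      simp only [inv_inv] at this
      simpa [mul_comm] using this
  have := key.eq_zero
  intro k
  have h2 : (FormalMultilinearSeries.ofScalars ℂ b).coeff k = 0 := by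
    rw [this]; simp [FormalMultilinearSeries.coeff]
  simpa [FormalMultilinearSeries.coeff_ofScalars] using h2

/-- the basic facts about `Fm g` near the circle of radius `ρ` -/
theorem fm_cont (h1 : F1) {g : ℕ → ℂ} (hg : Gb (2 * eps) g) :
    ContinuousOn (Fm g) {ζ | rr < ‖ζ‖} := (h1 g hg).1.continuousOn

theorem open_ext : IsOpen {ζ : ℂ | rr < ‖ζ‖} := isOpen_lt continuous_const continuous_norm

theorem fm_hasDeriv (h1 : F1) {g : ℕ → ℂ} (hg : Gb (2 * eps) g) {ζ : ℂ} (hζ : rr < ‖ζ‖) :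
    HasDerivAt (Fm g) (deriv (Fm g) ζ) ζ :=
  ((h1 g hg).1.differentiableAt (open_ext.mem_nhds hζ)).hasDerivAt

theorem fm_deriv_cont (h1 : F1) {g : ℕ → ℂ} (hg : Gb (2 * eps) g) :
    ContinuousOn (deriv (Fm g)) {ζ | rr < ‖ζ‖} :=
  ((h1 g hg).1.deriv open_ext).continuousOn

theorem fm_upper (h1 : F1) {g : ℕ → ℂ} (hg : Gb (2 * eps) g) {ζ : ℂ} (hζ : rr ≤ ‖ζ‖) :
    ‖Fm g ζ‖ ≤ ‖ζ‖ + eps * rr := by
  have := (h1 g hg).2.1 ζ hζ
  calc ‖Fm g ζ‖ = ‖(Fm g ζ - ζ) + ζ‖ := by ring_nf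
    _ ≤ ‖Fm g ζ - ζ‖ + ‖ζ‖ := norm_add_le _ _
    _ ≤ _ := by linarith

theorem fm_lower (h1 : F1) {g : ℕ → ℂ} (hg : Gb (2 * eps) g) {ζ : ℂ} (hζ : rr ≤ ‖ζ‖) :
    ‖ζ‖ - eps * rr ≤ ‖Fm g ζ‖ := by
  have := (h1 g hg).2.1 ζ hζ
  have h2 : ‖ζ‖ ≤ ‖Fm g ζ - ζ‖ + ‖Fm g ζ‖ := by
    calc ‖ζ‖ = ‖Fm g ζ - (Fm g ζ - ζ)‖ := by ring_nf
      _ ≤ ‖Fm g ζ‖ + ‖Fm g ζ - ζ‖ := norm_sub_le _ _
      _ = _ := by ring
  linarith

theorem gam_bound (hS3 : S3) {g : ℕ → ℂ} (hg : Gb (2 * eps) g) (j k : ℕ) : ‖gam g j k‖ ≤ 1 := by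
  rcases Nat.eq_zero_or_pos j with rfl | hj
  · rw [gam_zero_left]; simp
  rcases Nat.eq_zero_or_pos k with rfl | hk
  · rw [gam_zero_right]; simp
  have h := (hS3 (2 * eps) 0 g g (by unfold eps; norm_num) hg hg).1 j k hj hk
  refine h.trans ?_
  have hjk : (1 : ℝ) ≤ ((j : ℝ) + k) ^ 3 := by
    have : (1 : ℝ) ≤ (j : ℝ) + k := by
      have : (1 : ℝ) ≤ j := by exact_mod_cast hj
      have : (0 : ℝ) ≤ k := by positivity
      linarith
    exact one_le_pow₀ this
  rw [div_le_one (by linarith)]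
  refine le_trans ?_ hjk
  unfold eps; norm_num

theorem summable_half : Summable (fun j : ℕ => (j : ℝ) * (1 / 2 : ℝ) ^ j) := by
  have := summable_pow_mul_geometric_of_norm_lt_one 1 (r := (1 / 2 : ℝ)) (by norm_num)
  simpa using this

end F5t

open F5t in
theorem f5a (h1 : F1) (h3 : F3) (hS3 : S3) : F5a := by
  intro g hg f ρ ρ0 hf hρ hρ0 c hc k hk
  have hr := rr_pos
  have he := eps_pos
  have hρp : 0 < ρ := by linarith
  have hρ0p : 0 < ρ0 := by nlinarith
  have hFcs : ContinuousOn (Fm g) (sphere 0 ρ) := (fm_cont h1 hg).mono fun z hz => by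
    have : ‖z‖ = ρ := by simpa using hz
    simp only [Set.mem_ofPred_eq]; linarith
  have hFlt : ∀ z : ℂ, ‖z‖ = ρ → ‖Fm g z‖ < ρ0 := fun z hz => by
    have := fm_upper h1 hg (ζ := z) (by linarith)
    linarith
  have hfF : ContinuousOn (fun z => f (Fm g z)) (sphere 0 ρ) :=
    hf.continuousOn.comp hFcs fun z hz => by
      have : ‖z‖ = ρ := by simpa using hz
      simpa using hFlt z this
  obtain ⟨M, hM⟩ := (isCompact_sphere (0 : ℂ) ρ).exists_bound_of_continuousOn hfF
  have hM' : ∀ z : ℂ, ‖z‖ = ρ → ‖f (Fm g z)‖ ≤ M := fun z hz => hM z (by simpa using hz)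
  have hM0 : 0 ≤ M := (norm_nonneg _).trans (hM' (ρ : ℂ) (by simp [abs_of_pos hρp]))
  have hne : ∀ z : ℂ, ‖z‖ = ρ → z ≠ 0 := fun z hz => by
    rw [← norm_pos_iff, hz]; exact hρp
  -- the two expansions
  have hA : ∀ w : ℂ, ρ0 + 1 < ‖w‖ → HasSum (fun p : ℕ × ℕ => (p.1 : ℂ) * gam g p.1 p.2 *
      rr ^ p.1 * (rr / w) ^ p.2 * c p.1) (ci ρ (fun z => f (Fm g z) / (z - w))) := by
    intro w hw
    have hwρ : ρ < ‖w‖ := by nlinarith
    have hw2 : 2 * rr < ‖w‖ := by linarith
    have hw0 : w ≠ 0 := by rw [← norm_pos_iff]; linarith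
    have hzw : ∀ z : ℂ, ‖z‖ = ρ → z - w ≠ 0 := fun z hz h => by
      have : z = w := sub_eq_zero.1 h
      rw [← this] at hwρ; linarith
    have hFw : ρ0 < ‖Fm g w‖ := by
      have := fm_lower h1 hg (ζ := w) (by linarith)
      have h2 : eps * rr < 1 := by unfold eps rr; norm_num
      linarith
    have hFne : ∀ x : ℂ, ‖x‖ < ρ0 → x - Fm g w ≠ 0 := fun x hx h => by
      have : x = Fm g w := sub_eq_zero.1 h
      rw [this] at hx; linarith
    -- the integral which vanishes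
    have hz : ci ρ (fun z => f (Fm g z) / (Fm g z - Fm g w) * deriv (Fm g) z) = 0 := by
      have hd : DifferentiableOn ℂ (fun x => f x / (x - Fm g w)) (ball 0 ρ0) := by
        refine hf.div (by fun_prop) fun x hx => hFne x (by simpa using hx)
      obtain ⟨Φ, hΦ⟩ := hd.isExactOn_ball
      refine ci_deriv_zero hρp.le (f := fun z => Φ (Fm g z)) fun z hz => ?_
      have e1 := hΦ (Fm g z) (by simpa using hFlt z hz)
      have e2 := fm_hasDeriv h1 hg (ζ := z) (by linarith)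
      exact e1.comp z e2
    have key : HasSum (fun p : ℕ × ℕ => ci ρ (fun z => (p.1 : ℂ) * gam g p.1 p.2 *
        (rr / z) ^ p.1 * (rr / w) ^ p.2 * (f (Fm g z) / z)))
        (ci ρ (fun z => f (Fm g z) / (z - w) -
          f (Fm g z) / (Fm g z - Fm g w) * deriv (Fm g) z)) := by
      have hsm : Summable (fun p : ℕ × ℕ => ((p.1 : ℝ) * (1 / 2 : ℝ) ^ p.1) *
          ((1 / 2 : ℝ) ^ p.2 * (M / ρ))) := by
        have hs2 : Summable (fun k : ℕ => (1 / 2 : ℝ) ^ k * (M / ρ)) :=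
          (summable_geometric_of_lt_one (by norm_num) (by norm_num)).mul_right _
        exact Summable.mul_of_nonneg summable_half hs2 (fun j => by positivity)
          (fun j => by positivity)
      refine ci_hasSum hρp.le hsm ?_ ?_ ?_
      · intro p
        have hzc : ContinuousOn (fun z : ℂ => z) (sphere 0 ρ) := continuousOn_id
        have hz0 : ∀ z ∈ sphere (0 : ℂ) ρ, z ≠ 0 := fun z hz => hne z (by simpa using hz)
        refine ((continuousOn_const.mul ((continuousOn_const.div hzc hz0).pow _)).mul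
          continuousOn_const).mul (hfF.div hzc hz0)
      · intro p z hz
        have e1 : ‖(rr : ℂ) / z‖ ≤ 1 / 2 := by
          rw [norm_div, hz, norm_real, Real.norm_of_nonneg hr.le, div_le_iff₀ hρp]
          linarith
        have e2 : ‖(rr : ℂ) / w‖ ≤ 1 / 2 := by
          rw [norm_div, norm_real, Real.norm_of_nonneg hr.le, div_le_iff₀ (by linarith)]
          linarith
        have e3 := gam_bound hS3 hg p.1 p.2
        rw [norm_mul, norm_mul, norm_mul, norm_mul, norm_pow, norm_pow, Complex.norm_natCast, norm_div,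
          norm_div (f (Fm g z)), norm_div, hz]
        rw [norm_div] at e1 e2
        rw [hz] at e1
        have e4 := hM' z hz
        have a1 : (‖(rr : ℂ)‖ / ρ) ^ p.1 ≤ (1 / 2 : ℝ) ^ p.1 :=
          pow_le_pow_left₀ (by positivity) e1 _
        have a2 : (‖(rr : ℂ)‖ / ‖w‖) ^ p.2 ≤ (1 / 2 : ℝ) ^ p.2 :=
          pow_le_pow_left₀ (by positivity) e2 _
        have a3 : ‖f (Fm g z)‖ / ρ ≤ M / ρ := div_le_div_of_nonneg_right e4 hρp.le
        calc (p.1 : ℝ) * ‖gam g p.1 p.2‖ * (‖(rr : ℂ)‖ / ρ) ^ p.1 * (‖(rr : ℂ)‖ / ‖w‖) ^ p.2 *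
              (‖f (Fm g z)‖ / ρ)
            ≤ (p.1 : ℝ) * 1 * (1 / 2 : ℝ) ^ p.1 * (1 / 2 : ℝ) ^ p.2 * (M / ρ) := by
              gcongr
          _ = _ := by ring
      · intro z hz
        have hz0 := hne z hz
        have e := (h3 g hg z w (by linarith) (by linarith)
          (fun h => hzw z hz (sub_eq_zero.2 h))).mul_right (f (Fm g z) / z)
        have e2 : (z / (z - w) - z * deriv (Fm g) z / (Fm g z - Fm g w)) * (f (Fm g z) / z) =
            f (Fm g z) / (z - w) - f (Fm g z) / (Fm g z - Fm g w) * deriv (Fm g) z := by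
          have b1 := hzw z hz
          have b2 := hFne (Fm g z) (hFlt z hz)
          field_simp
        rw [e2] at e
        exact e
    have hsub : ci ρ (fun z => f (Fm g z) / (z - w) -
          f (Fm g z) / (Fm g z - Fm g w) * deriv (Fm g) z) =
        ci ρ (fun z => f (Fm g z) / (z - w)) := by
      rw [ci_sub hρp.le, hz, sub_zero]
      · refine hfF.div (by fun_prop) fun z hz => hzw z (by simpa using hz)
      · refine (hfF.div (hFcs.sub continuousOn_const) fun z hz => ?_).mul ?_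
        · exact hFne _ (hFlt z (by simpa using hz))
        · exact (fm_deriv_cont h1 hg).mono fun z hz => by
            have : ‖z‖ = ρ := by simpa using hz
            simp only [Set.mem_ofPred_eq]; linarith
    rw [hsub] at key
    have hterm : ∀ p : ℕ × ℕ, ci ρ (fun z => (p.1 : ℂ) * gam g p.1 p.2 *
        (rr / z) ^ p.1 * (rr / w) ^ p.2 * (f (Fm g z) / z)) = (p.1 : ℂ) * gam g p.1 p.2 *
        rr ^ p.1 * (rr / w) ^ p.2 * c p.1 := by
      intro p
      rw [hc, ← ci_mul_left]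
      refine ci_congr hρp.le fun z hz => ?_
      have hz0 := hne z hz
      have : z ^ (-(p.1 : ℤ) - 1) = (z ^ p.1)⁻¹ * z⁻¹ := by
        rw [zpow_sub₀ hz0, zpow_neg, zpow_natCast, zpow_one]
        rfl
      rw [this, div_pow]
      field_simp
    simpa only [hterm] using key
  have hB : ∀ w : ℂ, ρ0 + 1 < ‖w‖ → HasSum (fun n : ℕ => -(c (-((n : ℤ) + 1)) * (w⁻¹) ^ (n + 1)))
      (ci ρ (fun z => f (Fm g z) / (z - w))) := by
    intro w hw
    have hwρ : ρ < ‖w‖ := by nlinarith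
    have hwp : 0 < ‖w‖ := by linarith
    have hw0 : w ≠ 0 := by rw [← norm_pos_iff]; linarith
    have hzw : ∀ z : ℂ, ‖z‖ = ρ → z - w ≠ 0 := fun z hz h => by
      have : z = w := sub_eq_zero.1 h
      rw [← this] at hwρ; linarith
    have hq : ρ / ‖w‖ < 1 := by rw [div_lt_one hwp]; exact hwρ
    have key : HasSum (fun n : ℕ => ci ρ (fun z => -(f (Fm g z) * z ^ n * (w⁻¹) ^ (n + 1))))
        (ci ρ (fun z => f (Fm g z) / (z - w))) := by
      have hsm : Summable (fun n : ℕ => (M / ‖w‖) * (ρ / ‖w‖) ^ n) :=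
        (summable_geometric_of_lt_one (by positivity) hq).mul_left _
      refine ci_hasSum hρp.le hsm ?_ ?_ ?_
      · intro n
        exact ((hfF.mul (by fun_prop)).mul continuousOn_const).neg
      · intro n z hz
        rw [norm_neg, norm_mul, norm_mul, norm_pow, norm_pow, norm_inv, hz]
        calc ‖f (Fm g z)‖ * ρ ^ n * ‖w‖⁻¹ ^ (n + 1) ≤ M * ρ ^ n * ‖w‖⁻¹ ^ (n + 1) := by
              gcongr
              exact hM' z hz
          _ = _ := by rw [div_pow, inv_pow, pow_succ]; field_simp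
      · intro z hz
        have hzn : ‖z / w‖ < 1 := by rw [norm_div, hz]; exact hq
        have e := (hasSum_geometric_of_norm_lt_one hzn).mul_left (-(f (Fm g z) * w⁻¹))
        have e2 : -(f (Fm g z) * w⁻¹) * (1 - z / w)⁻¹ = f (Fm g z) / (z - w) := by
          have b1 := hzw z hz
          have b2 : w - z ≠ 0 := fun h => b1 (by linear_combination -h)
          have b3 : 1 - z / w = (w - z) / w := by field_simp
          rw [b3]
          field_simp
          ring
        rw [e2] at e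
        have e3 : (fun n : ℕ => -(f (Fm g z) * w⁻¹) * (z / w) ^ n) =
            fun n : ℕ => -(f (Fm g z) * z ^ n * (w⁻¹) ^ (n + 1)) := by
          funext n
          rw [div_pow, inv_pow, pow_succ]
          field_simp
        rw [e3] at e
        exact e
    have hterm : ∀ n : ℕ, ci ρ (fun z => -(f (Fm g z) * z ^ n * (w⁻¹) ^ (n + 1))) =
        -(c (-((n : ℤ) + 1)) * (w⁻¹) ^ (n + 1)) := by
      intro n
      have : -(c (-((n : ℤ) + 1)) * (w⁻¹) ^ (n + 1)) = -((w⁻¹) ^ (n + 1)) * c (-((n : ℤ) + 1)) := by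
        ring
      rw [this, hc, ← ci_mul_left]
      refine ci_congr hρp.le fun z hz => ?_
      have : z ^ (-(-((n : ℤ) + 1)) - 1) = z ^ n := by
        have : (-(-((n : ℤ) + 1)) - 1) = n := by ring
        rw [this, zpow_natCast]
      rw [this]
      ring
    simpa only [hterm] using key
  -- comparison of coefficients
  set t : ℕ → ℂ := fun k => ∑' j : ℕ, (j : ℂ) * gam g j k * rr ^ j * c j with ht
  have ht0 : t 0 = 0 := by
    simp [ht, gam_zero_right]
  have hsumm : ∀ k : ℕ, Summable (fun j : ℕ => (j : ℂ) * gam g j k * rr ^ j * c j) := by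
    intro k
    set w : ℂ := ((ρ0 + 2 : ℝ) : ℂ) with hwd
    have hw : ρ0 + 1 < ‖w‖ := by
      rw [hwd, norm_real, Real.norm_of_nonneg (by linarith)]; linarith
    have hw0 : w ≠ 0 := by rw [← norm_pos_iff]; linarith
    have e0 := ((Equiv.prodComm ℕ ℕ).hasSum_iff (a := ci ρ (fun z => f (Fm g z) / (z - w)))
      (f := fun p : ℕ × ℕ => (p.1 : ℂ) * gam g p.1 p.2 *
      rr ^ p.1 * (rr / w) ^ p.2 * c p.1)).2 (hA w hw)
    have e := (e0.summable.prod_factor k).mul_right (((rr : ℂ) / w) ^ k)⁻¹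
    have hq : ((rr : ℂ) / w) ^ k ≠ 0 :=
      pow_ne_zero _ (div_ne_zero (by exact_mod_cast hr.ne') hw0)
    refine e.congr fun j => ?_
    simp only [Function.comp, Equiv.prodComm_apply, Prod.swap_prod_mk]
    field_simp
  have hsumw : ∀ w : ℂ, ρ0 + 1 < ‖w‖ → HasSum (fun k : ℕ => (rr / w) ^ k * t k)
      (ci ρ (fun z => f (Fm g z) / (z - w))) := by
    intro w hw
    have e0 := ((Equiv.prodComm ℕ ℕ).hasSum_iff (a := ci ρ (fun z => f (Fm g z) / (z - w)))
      (f := fun p : ℕ × ℕ => (p.1 : ℂ) * gam g p.1 p.2 *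
      rr ^ p.1 * (rr / w) ^ p.2 * c p.1)).2 (hA w hw)
    refine e0.prod_fiberwise fun k => ?_
    have e1 := ((hsumm k).hasSum).mul_left (((rr : ℂ) / w) ^ k)
    have e2 : (fun j : ℕ => ((rr : ℂ) / w) ^ k * ((j : ℂ) * gam g j k * rr ^ j * c j)) =
        fun j : ℕ => ((fun p : ℕ × ℕ => (p.1 : ℂ) * gam g p.1 p.2 *
      rr ^ p.1 * (rr / w) ^ p.2 * c p.1) ∘ (Equiv.prodComm ℕ ℕ)) (k, j) := by
      funext j
      simp only [Function.comp, Equiv.prodComm_apply, Prod.swap_prod_mk]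
      ring
    rw [e2] at e1
    exact e1
  have hb : ∀ w : ℂ, ρ0 + 1 < ‖w‖ → HasSum (fun k : ℕ =>
      (if k = 0 then 0 else rr ^ k * t k + c (-(k : ℤ))) * (w⁻¹) ^ k) 0 := by
    intro w hw
    have e1 := hsumw w hw
    have e2 := hB w hw
    have e3 : HasSum (fun k : ℕ => if k = 0 then (0 : ℂ) else -(c (-(k : ℤ)) * (w⁻¹) ^ k))
        (ci ρ (fun z => f (Fm g z) / (z - w))) := by
      rw [← hasSum_nat_add_iff' 1]
      simpa using e2
    have e4 := e1.sub e3
    rw [sub_self] at e4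
    have e5 : (fun k : ℕ => ((rr : ℂ) / w) ^ k * t k -
        (if k = 0 then (0 : ℂ) else -(c (-(k : ℤ)) * (w⁻¹) ^ k))) = fun k : ℕ =>
      (if k = 0 then 0 else rr ^ k * t k + c (-(k : ℤ))) * (w⁻¹) ^ k := by
      funext k
      rcases Nat.eq_zero_or_pos k with rfl | hk
      · simp [ht0]
      · rw [if_neg (by omega), if_neg (by omega), div_pow, inv_pow]
        ring
    rw [e5] at e4
    exact e4
  have hco := coef_zero (b := fun k : ℕ => if k = 0 then 0 else rr ^ k * t k + c (-(k : ℤ)))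
    (by simp) (by linarith) hb k
  simp only [if_neg (show k ≠ 0 by omega)] at hco
  have hfin := ((hsumm k).hasSum).mul_left (-(rr : ℂ) ^ k)
  have hval : -(rr : ℂ) ^ k * (∑' j : ℕ, (j : ℂ) * gam g j k * rr ^ j * c j) = c (-(k : ℤ)) := by
    have : (∑' j : ℕ, (j : ℂ) * gam g j k * rr ^ j * c j) = t k := rfl
    rw [this]
    linear_combination -hco
  rw [hval] at hfin
  have hfun : (fun j : ℕ => -(rr : ℂ) ^ k * ((j : ℂ) * gam g j k * rr ^ j * c j)) =
      fun j : ℕ => -((j : ℂ) * rr ^ (j + k) * gam g j k * c j) := by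
    funext j
    rw [pow_add]
    ring
  rw [hfun] at hfin
  exact hfin

end Pool.Agent.Stek
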