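import Pool.Agent.Stek.Seq

/-!
# Targets: sequences, kernels, the reduced problem
-/

open scoped BigOperators ComplexConjugate Topology ContDiff
open Complex

noncomputable section

namespace Pool.Agent.Stek

/-! ### S: sequences and kernels -/

/-- S1. Two dimensional convolution bound. -/
def S1 : Prop := ∀ j k : ℕ, 1 ≤ j → 1 ≤ k →
  ∑ a ∈ Finset.Ico 1 j, ∑ b ∈ Finset.Ico 1 k,
    1 / (((j + k - a - b : ℕ) : ℝ) ^ 3 * ((a : ℝ) + b) ^ 3) ≤ 8 / ((j : ℝ) + k) ^ 3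

/-- S2t. One dimensional convolution bound. -/
def S2t : Prop := ∀ j : ℕ, 1 ≤ j →
  ∑ i ∈ Finset.Ico 1 j, 1 / ((i : ℝ) ^ 3 * ((j : ℝ) - i) ^ 3) ≤ 20 / (j : ℝ) ^ 3

/-- S3. Bound and Lipschitz bound of `gam`. -/
def S3 : Prop := ∀ (M D : ℝ) (g g' : ℕ → ℂ), M ≤ 1 / 100 → Gb M g → Gb M g' →
  Kb (11 / 10 * M) (gam g) ∧
  ((∀ n : ℕ, 2 ≤ n → ‖g n - g' n‖ ≤ D / (n : ℝ) ^ 3) →
    Kb (2 * D) (fun j k => gam g j k - gam g' j k))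

/-- S4. First row and column of `gam`. -/
def S4 : Prop := ∀ (g : ℕ → ℂ) (k : ℕ), 1 ≤ k → gam g 1 k = -g (k + 1) ∧ gam g k 1 = -g (k + 1)

/-- S5. The diagonal of `gam` up to third order. -/
def S5 : Prop := ∀ (M D : ℝ) (g g' : ℕ → ℂ) (k : ℕ), M ≤ 1 / 100 → Gb M g → Gb M g' → 2 ≤ k →
  ‖gam g k k + g (2 * k) + 1 / 2 * S2 g k‖ ≤ 100 * M ^ 3 / (2 * (k : ℝ)) ^ 3 ∧
  ((∀ n : ℕ, 2 ≤ n → ‖g n - g' n‖ ≤ D / (n : ℝ) ^ 3) →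
    ‖(gam g k k + g (2 * k) + 1 / 2 * S2 g k) - (gam g' k k + g' (2 * k) + 1 / 2 * S2 g' k)‖
      ≤ 300 * M ^ 2 * D / (2 * (k : ℝ)) ^ 3)

/-- S6. The coefficients `ee`. -/
def S6 : Prop := ∀ (M D : ℝ) (g g' : ℕ → ℂ), M ≤ 1 / 100 → Gb M g → Gb M g' →
  (∀ n j : ℕ, j < n → ee g n j = 0) ∧ (∀ n : ℕ, ee g n n = 1) ∧
  (∀ n j : ℕ, 1 ≤ n → 1 ≤ j → ‖ee g n j‖ ≤ 20 ^ (n - 1) / (j : ℝ) ^ 3) ∧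
  ((∀ n : ℕ, 2 ≤ n → ‖g n - g' n‖ ≤ D / (n : ℝ) ^ 3) →
    ∀ n j : ℕ, 1 ≤ n → 1 ≤ j → ‖ee g n j - ee g' n j‖ ≤ 2 * D * n * 20 ^ n / (j : ℝ) ^ 3)

/-- S7. The response coefficients. -/
def S7 : Prop := ∀ s s' : ℝ, s ∈ Set.Icc (1 / 20 : ℝ) (1 / 6) → s' ∈ Set.Icc (1 / 20 : ℝ) (1 / 6) →
  Kap (kE s) ∧ Kap (kO s) ∧
  (∀ n m, 1 ≤ n → 1 ≤ m → |kE s n m - kE s' n m| ≤ 100 * |s - s'| * 2 ^ (n + m)) ∧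
  (∀ n m, 1 ≤ n → 1 ≤ m → |kO s n m - kO s' n m| ≤ 100 * |s - s'| * 2 ^ (n + m))

/-- S8. The sign of the dipole response. -/
def S8 : Prop := kO (1 / 20) 1 1 ≤ -(1 / 10) ∧ 1 / 10 ≤ kO (1 / 6) 1 1

/-- S9. Bounds of the core kernels. -/
def S9 : Prop := ∀ (κ κ' : ℕ → ℕ → ℝ) (M D δ : ℝ) (g g' : ℕ → ℂ), Kap κ → Kap κ' → M ≤ 1 / 100 →
  Gb M g → Gb M g' → 0 ≤ D → 0 ≤ δ →
  Pb (100 * (RR / rr) ^ 2) (KQ κ g) ∧ Pb (100 * (RR / rr) ^ 2) (KP κ g) ∧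
  ((∀ n : ℕ, 2 ≤ n → ‖g n - g' n‖ ≤ D / (n : ℝ) ^ 3) →
    Pb (2000 * D * (RR / rr) ^ 2) (fun j k => KQ κ g j k - KQ κ g' j k) ∧
    Pb (2000 * D * (RR / rr) ^ 2) (fun j k => KP κ g j k - KP κ g' j k)) ∧
  ((∀ n m, 1 ≤ n → 1 ≤ m → |κ n m - κ' n m| ≤ δ * 2 ^ (n + m)) →
    Pb (10 * δ * (RR / rr) ^ 2) (fun j k => KQ κ g j k - KQ κ' g j k) ∧
    Pb (10 * δ * (RR / rr) ^ 2) (fun j k => KP κ g j k - KP κ' g j k)) ∧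
  KP κ g 1 1 = ((RR / rr) ^ 2 * κ 1 1 : ℝ)

/-! ### Y: the reduced problem -/

/-- Y0. A weighted contraction lemma for sequences in a Banach space. -/
def Y0 : Prop := ∀ (E : Type) [NormedAddCommGroup E] [CompleteSpace E] (w : ℕ → ℝ) (R : ℝ)
    (T : (ℕ → E) → (ℕ → E)), (∀ n, 0 < w n) → 0 ≤ R →
  (∀ y, (∀ n, ‖y n‖ ≤ R * w n) → ∀ n, ‖T y n‖ ≤ R * w n) →
  (∀ y y', (∀ n, ‖y n‖ ≤ R * w n) → (∀ n, ‖y' n‖ ≤ R * w n) → ∀ d : ℝ,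
    (∀ n, ‖y n - y' n‖ ≤ d * w n) → ∀ n, ‖T y n - T y' n‖ ≤ d / 2 * w n) →
  ∃ y, (∀ n, ‖y n‖ ≤ R * w n) ∧ T y = y ∧
    ∀ y', (∀ n, ‖y' n‖ ≤ R * w n) → T y' = y' → y' = y

/-- Y1. The system of the modes `m ≠ k` has exactly one solution, and it is small. -/
def Y1 : Prop := ∀ (A B : ℕ → ℕ → ℂ) (k : ℕ) (σ : ℝ), Kb (2 * eps) A → Kb (2 * eps) B → 1 ≤ k →
  |σ - k| ≤ 1 / 2 → IsSys A B k σ (sysv A B k σ) ∧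
    (∀ x, IsSys A B k σ x → x = sysv A B k σ) ∧
    ∀ m, ‖sysv A B k σ m‖ ≤ 3 * eps * (4 * m + 1) / ((k : ℝ) + 1) ^ 3

/-- Y2. Lipschitz dependence on the kernels. -/
def Y2 : Prop := ∀ (A B A' B' : ℕ → ℕ → ℂ) (k : ℕ) (σ D : ℝ), Kb (2 * eps) A → Kb (2 * eps) B →
  Kb (2 * eps) A' → Kb (2 * eps) B' → 1 ≤ k → |σ - k| ≤ 1 / 2 →
  Kb D (fun j k => A j k - A' j k) → Kb D (fun j k => B j k - B' j k) →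
  ∀ m, ‖sysv A B k σ m - sysv A' B' k σ m‖ ≤ 2 * D * (4 * m + 1) / ((k : ℝ) + 1) ^ 3

/-- Y3. Lipschitz dependence on `σ`. -/
def Y3 : Prop := ∀ (A B : ℕ → ℕ → ℂ) (k : ℕ) (σ σ' : ℝ), Kb (2 * eps) A → Kb (2 * eps) B →
  1 ≤ k → |σ - k| ≤ 1 / 2 → |σ' - k| ≤ 1 / 2 →
  ∀ m, ‖sysv A B k σ m - sysv A B k σ' m‖ ≤
    5 * eps * |σ - σ'| * (4 * m + 1) / ((k : ℝ) + 1) ^ 3

/-- Y4. Bounds of `PP` and `QQ`. -/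
def Y4 : Prop := ∀ (A B : ℕ → ℕ → ℂ) (k : ℕ) (σ σ' : ℝ), Kb (2 * eps) A → Kb (2 * eps) B →
  1 ≤ k → |σ - k| ≤ 1 / 2 → |σ' - k| ≤ 1 / 2 →
  ‖PP A B k σ - conj (B k k)‖ ≤ 100 * eps ^ 2 / ((k : ℝ) + 1) ^ 6 ∧
  ‖QQ A B k σ‖ ≤ 100 * eps ^ 2 / ((k : ℝ) + 1) ^ 6 ∧
  ‖PP A B k σ - PP A B k σ'‖ ≤ 200 * eps ^ 2 * |σ - σ'| / ((k : ℝ) + 1) ^ 6 ∧
  ‖QQ A B k σ - QQ A B k σ'‖ ≤ 200 * eps ^ 2 * |σ - σ'| / ((k : ℝ) + 1) ^ 6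

/-- Y4b. Variation of `PP` and `QQ` with the kernels. -/
def Y4b : Prop := ∀ (A B A' B' : ℕ → ℕ → ℂ) (k : ℕ) (σ D : ℝ), Kb (2 * eps) A → Pb rr B →
  Kb (2 * eps) A' → Pb rr B' → 1 ≤ k → |σ - k| ≤ 1 / 2 →
  Kb D (fun j k => A j k - A' j k) → Pb D (fun j k => B j k - B' j k) →
  ‖QQ A B k σ - QQ A' B' k σ‖ ≤ 1000 * eps * D / ((k : ℝ) + 1) ^ 6 ∧
  ‖(PP A B k σ - conj (B k k)) - (PP A' B' k σ - conj (B' k k))‖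
    ≤ 1000 * eps * D / ((k : ℝ) + 1) ^ 6 ∧
  ‖(PP A B k σ - conj (B k k) - (if k = 1 then 0 else WW σ 1 * (conj (A 1 k) * A k 1))) -
    (PP A' B' k σ - conj (B' k k) - (if k = 1 then 0 else WW σ 1 * (conj (A' 1 k) * A' k 1)))‖
    ≤ rr * D / ((k : ℝ) + 1) ^ 6 / 100

/-- The two combinations of the values of `Psi` at two points near `k`. -/
def DAf (A B : ℕ → ℕ → ℂ) (k : ℕ) (σp σm : ℝ) : ℝ :=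
  (Psi A B k σp - Psi A B k σm) / (2 * rr ^ 2 * (TT k σp - TT k σm))

def DBf (A B : ℕ → ℕ → ℂ) (k : ℕ) (σp σm : ℝ) : ℝ := (Psi A B k σp + Psi A B k σm) / 2

/-- Good pairs of points near `k`. -/
structure GoodPair (k : ℕ) (σp σm : ℝ) : Prop where
  hp : |σp - k| ≤ rr ^ 2
  hm : |σm - k| ≤ rr ^ 2
  tp : 0 ≤ TT k σp
  tp1 : TT k σp ≤ 1
  tm : TT k σm ≤ 0
  tm1 : -1 ≤ TT k σm
  gap : eps ^ 2 / (2 * (k : ℝ)) ^ 3 ≤ TT k σp - TT k σm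

/-- Y5. The variation of `DAf` and `DBf` with the kernels. -/
def Y5 : Prop := ∀ (A B A' B' : ℕ → ℕ → ℂ) (k : ℕ) (σp σm D : ℝ), Kb (2 * eps) A → Pb rr B →
  Kb (2 * eps) A' → Pb rr B' → 1 ≤ k → GoodPair k σp σm →
  Kb D (fun j k => A j k - A' j k) → Pb D (fun j k => B j k - B' j k) →
  |DBf A B k σp σm - DBf A' B' k σp σm - (‖A k k‖ ^ 2 - ‖A' k k‖ ^ 2)|
    ≤ rr * D / ((k : ℝ) + 1) ^ 6 ∧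
  |DAf A B k σp σm - DAf A' B' k σp σm - (B k k - B' k k).re -
    (if k = 1 then 0 else WW k 1 * (conj (A 1 k) * A k 1 - conj (A' 1 k) * A' k 1).re)|
    ≤ rr * D / ((k : ℝ) + 1) ^ 6

/-- Y6. The zeros of `Psi` for kernels of the class: one on each side of `k`. -/
def Y6 : Prop := ∀ (A B : ℕ → ℕ → ℂ) (k : ℕ), Cls A B → 1 ≤ k → ∃ σp σm : ℝ,
  |σp - k| ≤ rr ^ 2 ∧ |σm - k| ≤ rr ^ 2 ∧ σp < k ∧ (k : ℝ) < σm ∧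
  (∀ σ : ℝ, |σ - k| ≤ 1 / 2 → (Psi A B k σ = 0 ↔ σ = σp ∨ σ = σm)) ∧
  ‖A k k‖ / 2 ≤ TT k σp ∧ TT k σp ≤ 2 * ‖A k k‖ ∧
  ‖A k k‖ / 2 ≤ -TT k σm ∧ -TT k σm ≤ 2 * ‖A k k‖

/-- Y7. The dimension of the space of solutions away from the positive integers. -/
def Y7 : Prop := ∀ (A B : ℕ → ℕ → ℂ) (σ : ℝ), Cls A B → σ ≤ 1 / 2 →
  FiniteDimensional ℝ (Sol A B σ) ∧ Module.finrank ℝ (Sol A B σ) = if σ = 0 then 1 else 0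

open Classical in
/-- Y8. The dimension of the space of solutions near the positive integer `k`. -/
def Y8 : Prop := ∀ (A B : ℕ → ℕ → ℂ) (k : ℕ) (σ : ℝ), Cls A B → 1 ≤ k → |σ - k| ≤ 1 / 2 →
  FiniteDimensional ℝ (Sol A B σ) ∧
    Module.finrank ℝ (Sol A B σ) = if Psi A B k σ = 0 then 1 else 0

/-! ### C: the matching -/

/-- C1. The parametrized sequences and their kernels are in the class. -/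
def C1 : Prop := ∀ (y y' : ℕ → ℂ) (d : ℝ), (∀ n, ‖y n‖ ≤ dl) → (∀ n, ‖y' n‖ ≤ dl) →
  Gb (11 / 10 * eps) (gy y) ∧
  ((∀ n, ‖y n - y' n‖ ≤ d) → ∀ n : ℕ, 2 ≤ n → ‖gy y n - gy y' n‖ ≤ eps * d / (n : ℝ) ^ 3) ∧
  ∀ κE κO, Kap κE → Kap κO → Cls (Ak κE (gy y)) (Bk κO (gy y))

/-- The main quadratic term of the diagonal, normalized; real. -/
def thf (y : ℕ → ℂ) (l : ℕ) : ℝ :=
  1 / 2 * (2 * (l : ℝ)) ^ 3 * ∑ n ∈ Finset.Ico 2 (2 * l - 1),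
    if (n = 2 ∨ n % 2 = 1) ∧ (2 * l - n = 2 ∨ (2 * l - n) % 2 = 1) then
      ((min n (2 * l - n) - 1 : ℕ) : ℝ) * ((1 + (y n).re) * (1 + (y (2 * l - n)).re)) /
        ((n : ℝ) ^ 3 * ((2 * l - n : ℕ) : ℝ) ^ 3)
    else 0

/-- C2. The normalized diagonal. -/
def C2 : Prop := ∀ (y y' : ℕ → ℂ) (d : ℝ) (l : ℕ) (κ : ℕ → ℕ → ℝ), Kap κ →
  (∀ n, ‖y n‖ ≤ dl) → (∀ n, ‖y' n‖ ≤ dl) → (∀ n, ‖y n - y' n‖ ≤ d) → 2 ≤ l →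
  2 / 27 ≤ thf 0 l ∧ thf 0 l ≤ 4 ∧ |thf y l - thf y' l| ≤ 9 * d ∧
  ‖Ak κ (gy y) l l / vv (2 * l) - (I + 100 * y (2 * l) + thf y l)‖ ≤ 1 / 1000 ∧
  ‖(Ak κ (gy y) l l / vv (2 * l) - (I + 100 * y (2 * l) + thf y l)) -
    (Ak κ (gy y') l l / vv (2 * l) - (I + 100 * y' (2 * l) + thf y' l))‖ ≤ d / 1000

/-- `p k < k < m k` are zeros of `Psi` for the base kernel. -/
def BaseRoots (p m : ℕ → ℝ) : Prop := ∀ k : ℕ, 1 ≤ k → GoodPair k (p k) (m k) ∧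
  p k < k ∧ (k : ℝ) < m k ∧
  Psi (Ak 0 (gy 0)) (Bk 0 (gy 0)) k (p k) = 0 ∧ Psi (Ak 0 (gy 0)) (Bk 0 (gy 0)) k (m k) = 0

def DAn (p m : ℕ → ℝ) (s : ℝ) (y : ℕ → ℂ) (k : ℕ) : ℝ :=
  DAf (Ak (kE s) (gy y)) (Bk (kO s) (gy y)) k (p k) (m k) / (WW k 1 * vv (k + 1) ^ 2)

def DBn (p m : ℕ → ℝ) (s : ℝ) (y : ℕ → ℂ) (l : ℕ) : ℝ :=
  DBf (Ak (kE s) (gy y)) (Bk (kO s) (gy y)) l (p l) (m l) / vv (2 * l) ^ 2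

/-- The map whose fixed points solve all equations but one. -/
def Tm (p m : ℕ → ℝ) (s : ℝ) (y : ℕ → ℂ) (n : ℕ) : ℂ :=
  if n < 2 then 0
  else if n = 2 then (((y 2).re - 1 / 2 * DBn p m s y 1 : ℝ) : ℂ)
  else if n % 2 = 1 then (((y n).re - 1 / 2 * DAn p m s y (n - 1) : ℝ) : ℂ)
  else y n - (((DBn p m s y (n / 2) - DAn p m s y (n - 1)) / (200 * thf 0 (n / 2)) : ℝ) : ℂ) -
    I * ((DAn p m s y (n - 1) / 200 : ℝ) : ℂ)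

/-- The deviations of `DAn` and `DBn` from their main parts. -/
def eA (p m : ℕ → ℝ) (s : ℝ) (y : ℕ → ℂ) (k : ℕ) : ℝ :=
  DAn p m s y k - (‖gy y (k + 1) / vv (k + 1)‖ ^ 2 - 1)

def eB (p m : ℕ → ℝ) (s : ℝ) (y : ℕ → ℂ) (l : ℕ) : ℝ :=
  DBn p m s y l - (‖Ak (kE s) (gy y) l l / vv (2 * l)‖ ^ 2 - ‖Ak 0 (gy 0) l l / vv (2 * l)‖ ^ 2)

/-- C3e. The deviations are small with small variation. -/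
def C3e : Prop := ∀ (p m : ℕ → ℝ), BaseRoots p m → ∀ s ∈ Set.Icc (1 / 20 : ℝ) (1 / 6),
  ∀ s' ∈ Set.Icc (1 / 20 : ℝ) (1 / 6), ∀ (y y' : ℕ → ℂ) (d : ℝ), (∀ n, ‖y n‖ ≤ dl) →
  (∀ n, ‖y' n‖ ≤ dl) → (∀ n, ‖y n - y' n‖ ≤ d) → ∀ k : ℕ, 1 ≤ k →
  |eB p m s y k| ≤ dl / 10 ∧ |eB p m s y k - eB p m s y' k| ≤ d / 100 ∧
  |DBn p m s y k - DBn p m s' y k| ≤ |s - s'| / 100 ∧
  (2 ≤ k → |eA p m s y k| ≤ dl / 10 ∧ |eA p m s y k - eA p m s y' k| ≤ d / 100 ∧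
    |DAn p m s y k - DAn p m s' y k| ≤ |s - s'| / 100)

/-- C3a. The map is a contraction of the ball of radius `dl` and depends continuously on `s`. -/
def C3a : Prop := ∀ (p m : ℕ → ℝ), BaseRoots p m → ∀ s ∈ Set.Icc (1 / 20 : ℝ) (1 / 6),
  ∀ s' ∈ Set.Icc (1 / 20 : ℝ) (1 / 6), ∀ (y y' : ℕ → ℂ) (d : ℝ), (∀ n, ‖y n‖ ≤ dl) →
  (∀ n, ‖y' n‖ ≤ dl) → (∀ n, ‖y n - y' n‖ ≤ d) →
  (∀ n, ‖Tm p m s y n‖ ≤ dl) ∧ (∀ n, ‖Tm p m s y n - Tm p m s y' n‖ ≤ d / 2) ∧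
  (∀ n, ‖Tm p m s y n - Tm p m s' y n‖ ≤ |s - s'|)

/-- C3. The matching: the kernels of the two surfaces have the same eigenvalues. -/
def C3 : Prop := ∃ s ∈ Set.Icc (1 / 20 : ℝ) (1 / 6), ∃ y : ℕ → ℂ, (∀ n, ‖y n‖ ≤ dl) ∧
  ∀ (k : ℕ) (σ : ℝ), 1 ≤ k → |σ - k| ≤ 1 / 2 →
    (Psi (Ak (kE s) (gy y)) (Bk (kO s) (gy y)) k σ = 0 ↔
      Psi (Ak 0 (gy 0)) (Bk 0 (gy 0)) k σ = 0)

end Pool.Agent.Stek
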