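import Pool.Agent.Stek.TFun
import Pool.Agent.Stek.TSeq

/-!
# F6: a holomorphic function with given positive Laurent coefficients of `f ∘ Fm`
-/

open scoped BigOperators ComplexConjugate Topology ContDiff
open Complex Metric InnerProductSpace

noncomputable section

namespace Pool.Agent.Stek

namespace PF6

lemma circ_norm (θ : ℝ) : ‖circleMap 0 2 θ‖ = 2 := by simp

lemma circ_ne (θ : ℝ) : circleMap 0 2 θ ≠ 0 := by
  intro h
  have := circ_norm θ
  rw [h, norm_zero] at this
  norm_num at this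

lemma circ_deriv (θ : ℝ) : ‖deriv (circleMap 0 2) θ‖ = 2 := by
  rw [deriv_circleMap, norm_mul, circ_norm, Complex.norm_I, mul_one]

lemma circ_deriv_cont : Continuous (fun θ : ℝ => deriv (circleMap 0 2) θ) := by
  simp only [deriv_circleMap]
  fun_prop

/-- the circle integral of a power -/
lemma ci_zpow (m : ℤ) : (∮ z in C(0, 2), z ^ m) = if m = -1 then 2 * Real.pi * I else 0 := by
  split_ifs with h
  · subst h
    have := circleIntegral.integral_sub_center_inv (0 : ℂ) (show (2 : ℝ) ≠ 0 by norm_num)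
    simpa using this
  · have := circleIntegral.integral_sub_zpow_of_ne h (0 : ℂ) 0 2
    simpa using this

/-- termwise integration -/
lemma hasSum_ci {ι : Type} [Countable ι] (u : ι → ℂ) (m : ι → ℤ)
    (hs : Summable fun i => ‖u i‖ * (2 : ℝ) ^ (m i)) (f : ℂ → ℂ)
    (hf : ∀ z : ℂ, ‖z‖ = 2 → HasSum (fun i => u i * z ^ (m i)) (f z)) :
    HasSum (fun i => if m i = -1 then u i else 0) (ci 2 f) := by
  have key : HasSum (fun i => ∮ z in C(0, 2), u i * z ^ (m i)) (∮ z in C(0, 2), f z) := by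
    unfold circleIntegral
    apply intervalIntegral.hasSum_integral_of_dominated_convergence
      (fun i _ => 2 * (‖u i‖ * (2 : ℝ) ^ (m i)))
    · intro i
      apply Continuous.aestronglyMeasurable
      apply Continuous.smul circ_deriv_cont
      apply continuous_const.mul
      exact (continuous_circleMap 0 2).zpow₀ (m i) (fun θ => Or.inl (circ_ne θ))
    · intro i
      refine Filter.Eventually.of_forall (fun θ _ => ?_)
      rw [norm_smul, circ_deriv, norm_mul, norm_zpow, circ_norm]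
    · exact Filter.Eventually.of_forall (fun θ _ => hs.mul_left 2)
    · exact intervalIntegrable_const
    · refine Filter.Eventually.of_forall (fun θ _ => ?_)
      exact (hf _ (circ_norm θ)).const_smul _
  have h2 := key.mul_left ((2 * Real.pi * I)⁻¹ : ℂ)
  unfold ci
  have h3 : (fun i => if m i = -1 then u i else 0) =
      fun i => (2 * Real.pi * I : ℂ)⁻¹ * ∮ z in C(0, 2), u i * z ^ (m i) := by
    funext i
    have h4 : (∮ z in C(0, 2), u i * z ^ (m i)) = u i * ∮ z in C(0, 2), z ^ (m i) := by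
      have := circleIntegral.integral_const_mul (u i) (fun z : ℂ => z ^ (m i)) 0 2
      exact this
    rw [h4, ci_zpow]
    have h5 : (2 * Real.pi * I : ℂ) ≠ 0 := by
      simp [Real.pi_ne_zero, I_ne_zero]
    split_ifs with h
    · field_simp
    · simp
  rw [h3]
  exact h2

/-- differentiation of a Cauchy type integral -/
lemma diff_ci (h k : ℂ → ℂ) (hh : ContinuousOn h (sphere 0 2)) (hk : ContinuousOn k (sphere 0 2))
    (hk2 : ∀ z : ℂ, ‖z‖ = 2 → 7 / 4 ≤ ‖k z‖) :
    DifferentiableOn ℂ (fun x => ci 2 (fun z => h z / (k z - x))) (ball 0 (3 / 2)) := by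
  have hC : ∃ C, ∀ z ∈ sphere (0 : ℂ) 2, ‖h z‖ ≤ C :=
    (isCompact_sphere (0 : ℂ) 2).exists_bound_of_continuousOn hh
  obtain ⟨C, hC⟩ := hC
  have hm : ∀ θ : ℝ, circleMap 0 2 θ ∈ sphere (0 : ℂ) 2 := fun θ => by
    rw [mem_sphere_zero_iff_norm]; exact circ_norm θ
  have hC0 : 0 ≤ C := (norm_nonneg _).trans (hC _ (hm 0))
  have hhc : Continuous (fun θ : ℝ => h (circleMap 0 2 θ)) :=
    hh.comp_continuous (continuous_circleMap 0 2) hm
  have hkc : Continuous (fun θ : ℝ => k (circleMap 0 2 θ)) :=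
    hk.comp_continuous (continuous_circleMap 0 2) hm
  have hlow : ∀ (x : ℂ) (θ : ℝ), x ∈ ball (0 : ℂ) (3 / 2) → 1 / 4 ≤ ‖k (circleMap 0 2 θ) - x‖ := by
    intro x θ hx
    rw [mem_ball_zero_iff] at hx
    have h1 := hk2 _ (circ_norm θ)
    have h2 := norm_sub_norm_le (k (circleMap 0 2 θ)) x
    linarith
  have hne : ∀ (x : ℂ) (θ : ℝ), x ∈ ball (0 : ℂ) (3 / 2) → k (circleMap 0 2 θ) - x ≠ 0 := by
    intro x θ hx h0
    have := hlow x θ hx
    rw [h0, norm_zero] at this
    norm_num at this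
  intro x0 hx0
  apply DifferentiableAt.differentiableWithinAt
  unfold ci
  apply DifferentiableAt.const_mul
  unfold circleIntegral
  have := intervalIntegral.hasDerivAt_integral_of_dominated_loc_of_deriv_le (𝕜 := ℂ)
    (μ := MeasureTheory.volume) (a := 0) (b := 2 * Real.pi)
    (F := fun x θ => deriv (circleMap 0 2) θ • (h (circleMap 0 2 θ) / (k (circleMap 0 2 θ) - x)))
    (F' := fun x θ => deriv (circleMap 0 2) θ •
      (h (circleMap 0 2 θ) / (k (circleMap 0 2 θ) - x) ^ 2))
    (x₀ := x0) (s := ball 0 (3 / 2)) (bound := fun _ => 2 * (C * 16))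
    (isOpen_ball.mem_nhds hx0) ?_ ?_ ?_ ?_ ?_ ?_
  · exact this.2.differentiableAt
  · filter_upwards [isOpen_ball.mem_nhds hx0] with x hx
    apply Continuous.aestronglyMeasurable
    exact circ_deriv_cont.smul (hhc.div (hkc.sub continuous_const) (fun θ => hne x θ hx))
  · apply Continuous.intervalIntegrable
    exact circ_deriv_cont.smul (hhc.div (hkc.sub continuous_const) (fun θ => hne x0 θ hx0))
  · apply Continuous.aestronglyMeasurable
    exact circ_deriv_cont.smul (hhc.div ((hkc.sub continuous_const).pow 2)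
      (fun θ => pow_ne_zero 2 (hne x0 θ hx0)))
  · refine Filter.Eventually.of_forall (fun θ _ x hx => ?_)
    rw [norm_smul, circ_deriv, norm_div, norm_pow]
    have h1 := hlow x θ hx
    have h2 := hC _ (hm θ)
    gcongr
    rw [div_le_iff₀ (by positivity)]
    have h3 : 1 / 16 ≤ ‖k (circleMap 0 2 θ) - x‖ ^ 2 := by nlinarith
    nlinarith
  · exact intervalIntegrable_const
  · refine Filter.Eventually.of_forall (fun θ _ x hx => ?_)
    have h1 : HasDerivAt (fun x => k (circleMap 0 2 θ) - x) (-1) x := by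
      simpa using (hasDerivAt_id x).const_sub (k (circleMap 0 2 θ))
    have h2 := (hasDerivAt_const x (h (circleMap 0 2 θ))).div h1 (hne x θ hx)
    have h3 := h2.const_smul (deriv (circleMap 0 2) θ)
    refine h3.congr_deriv ?_
    simp

lemma gam_le (hS : S3) (g : ℕ → ℂ) (hg : Gb (2 * eps) g) (j k : ℕ) : ‖gam g j k‖ ≤ 1 := by
  rcases Nat.eq_zero_or_pos j with rfl | hj
  · rw [gam_zero_left, norm_zero]; norm_num
  rcases Nat.eq_zero_or_pos k with rfl | hk
  · rw [gam_zero_right, norm_zero]; norm_num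
  have h1 := (hS (2 * eps) 0 g g (by unfold eps; norm_num) hg hg).1 j k hj hk
  refine h1.trans ?_
  have hj' : (1 : ℝ) ≤ j := by exact_mod_cast hj
  have hk' : (1 : ℝ) ≤ k := by exact_mod_cast hk
  rw [div_le_one (by positivity)]
  have h2 : (1 : ℝ) ≤ ((j : ℝ) + k) ^ 3 := one_le_pow₀ (by linarith)
  unfold eps
  linarith

end PF6

open PF6 in
theorem f6 (hF1 : F1) (hF3 : F3) (hS3 : S3) : F6 := by
  intro g hg a C ha0 ha
  obtain ⟨F1a, F1b, -, -⟩ := hF1 g hg
  have hrr : (0 : ℝ) < rr := by unfold rr; norm_num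
  have hrr1 : rr ≤ 1 / 10 := by unfold rr; norm_num
  have heps : eps * rr ≤ 1 / 100 := by unfold eps rr; norm_num
  have hC0 : 0 ≤ C := by
    have := (norm_nonneg _).trans (ha 0)
    simpa using this
  -- the power series
  have hsum : ∀ z : ℂ, ‖z‖ < 3 → Summable (fun j => ‖a j * z ^ j‖) := by
    intro z hz
    refine Summable.of_nonneg_of_le (fun j => norm_nonneg _) (fun j => ?_)
      ((summable_geometric_of_lt_one (r := ‖z‖ / 3) (by positivity) (by linarith)).mul_left C)
    rw [norm_mul, norm_pow, div_pow]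
    calc ‖a j‖ * ‖z‖ ^ j ≤ C / 3 ^ j * ‖z‖ ^ j := by gcongr; exact ha j
      _ = C * (‖z‖ ^ j / 3 ^ j) := by ring
  set ap : ℂ → ℂ := fun z => ∑' j : ℕ, a j * z ^ j with hap
  have hap_sum : ∀ z : ℂ, ‖z‖ < 3 → HasSum (fun j => a j * z ^ j) (ap z) := fun z hz =>
    (hsum z hz).of_norm.hasSum
  have hap_diff : DifferentiableOn ℂ ap (ball 0 (5 / 2)) := by
    apply Complex.differentiableOn_tsum_of_summable_norm (u := fun j => C * (5 / 6 : ℝ) ^ j)
    · exact (summable_geometric_of_lt_one (by norm_num) (by norm_num)).mul_left C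
    · intro j
      fun_prop
    · exact isOpen_ball
    · intro j w hw
      rw [mem_ball_zero_iff] at hw
      rw [norm_mul, norm_pow]
      calc ‖a j‖ * ‖w‖ ^ j ≤ C / 3 ^ j * (5 / 2) ^ j := by
            gcongr
            exact ha j
        _ = C * (5 / 6 : ℝ) ^ j := by
            rw [div_mul_eq_mul_div, mul_div_assoc, ← div_pow]
            norm_num
  have hsph : sphere (0 : ℂ) 2 ⊆ {ζ : ℂ | rr < ‖ζ‖} := by
    intro z hz
    rw [mem_sphere_zero_iff_norm] at hz
    simp only [Set.mem_ofPred_eq, hz]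
    linarith
  have hopen : IsOpen {ζ : ℂ | rr < ‖ζ‖} := isOpen_lt continuous_const continuous_norm
  have hFc : ContinuousOn (Fm g) (sphere 0 2) := F1a.continuousOn.mono hsph
  have hdFc : ContinuousOn (deriv (Fm g)) (sphere 0 2) := (F1a.deriv hopen).continuousOn.mono hsph
  have hapc : ContinuousOn ap (sphere 0 2) := by
    refine hap_diff.continuousOn.mono (fun z hz => ?_)
    rw [mem_sphere_zero_iff_norm] at hz
    rw [mem_ball_zero_iff, hz]
    norm_num
  have hFlow : ∀ z : ℂ, ‖z‖ = 2 → 7 / 4 ≤ ‖Fm g z‖ := by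
    intro z hz
    have h1 := F1b z (by rw [hz]; linarith)
    have h2 := norm_sub_norm_le z (z - Fm g z)
    rw [sub_sub_cancel, hz] at h2
    rw [norm_sub_rev] at h1
    linarith
  refine ⟨fun x => ci 2 (fun z => ap z * deriv (Fm g) z / (Fm g z - x)),
    diff_ci _ _ (hapc.mul hdFc) hFc hFlow, ?_⟩
  intro η hη1 hη2
  have hη0 : η ≠ 0 := by
    intro h0
    rw [h0, norm_zero] at hη1
    linarith
  have hFη : ‖Fm g η‖ < 3 / 2 := by
    have h1 := F1b η hη1.le
    have h2 := norm_add_le (Fm g η - η) η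
    rw [sub_add_cancel] at h2
    linarith
  have hne1 : ∀ z : ℂ, ‖z‖ = 2 → z - η ≠ 0 := by
    intro z hz h0
    rw [sub_eq_zero] at h0
    rw [← h0, hz] at hη2
    norm_num at hη2
  have hne2 : ∀ z : ℂ, ‖z‖ = 2 → Fm g z - Fm g η ≠ 0 := by
    intro z hz h0
    rw [sub_eq_zero] at h0
    have := hFlow z hz
    rw [h0] at this
    linarith
  -- the double series
  set q : ℝ := rr / ‖η‖ with hq
  have hq0 : 0 ≤ q := by positivity
  have hq1 : q < 1 := by rw [hq, div_lt_one (by linarith)]; exact hη1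
  set t : ℕ × ℕ → ℂ := fun p => (p.1 : ℂ) * gam g p.1 p.2 * (rr : ℂ) ^ p.1 * (rr / η) ^ p.2
    with ht
  have htn : ∀ p : ℕ × ℕ, ‖t p‖ ≤ ((p.1 : ℝ) * rr ^ p.1) * q ^ p.2 := by
    intro p
    simp only [ht]
    rw [norm_mul, norm_mul, norm_mul, norm_pow, norm_pow, norm_div, Complex.norm_natCast,
      Complex.norm_real, Real.norm_of_nonneg hrr.le]
    have := gam_le hS3 g hg p.1 p.2
    calc (p.1 : ℝ) * ‖gam g p.1 p.2‖ * rr ^ p.1 * (rr / ‖η‖) ^ p.2
        ≤ (p.1 : ℝ) * 1 * rr ^ p.1 * (rr / ‖η‖) ^ p.2 := by gcongr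
      _ = _ := by rw [mul_one]
  have hgeo2 : Summable (fun k : ℕ => q ^ k) := summable_geometric_of_lt_one hq0 hq1
  have hgeo1 : Summable (fun j : ℕ => (j : ℝ) * (1 / 2 : ℝ) ^ j) := by
    have := summable_pow_mul_geometric_of_norm_lt_one 1 (r := (1 / 2 : ℝ)) (by norm_num)
    simpa using this
  have hts : Summable (fun p : ℕ × ℕ => ‖t p‖ * (2 : ℝ) ^ (-(p.1 : ℤ))) := by
    refine Summable.of_nonneg_of_le (fun p => by positivity) (fun p => ?_)
      (hgeo1.mul_of_nonneg hgeo2 (fun j => by positivity) (fun k => by positivity))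
    have h1 := htn p
    have h2 : rr ^ p.1 * (2 : ℝ) ^ (-(p.1 : ℤ)) ≤ (1 / 2 : ℝ) ^ p.1 := by
      rw [zpow_neg, zpow_natCast, ← inv_pow, ← mul_pow]
      apply pow_le_pow_left₀ (by positivity)
      linarith
    calc ‖t p‖ * (2 : ℝ) ^ (-(p.1 : ℤ))
        ≤ ((p.1 : ℝ) * rr ^ p.1) * q ^ p.2 * (2 : ℝ) ^ (-(p.1 : ℤ)) := by gcongr
      _ = (p.1 : ℝ) * (rr ^ p.1 * (2 : ℝ) ^ (-(p.1 : ℤ))) * q ^ p.2 := by ring
      _ ≤ (p.1 : ℝ) * (1 / 2 : ℝ) ^ p.1 * q ^ p.2 := by gcongr
  have hsa : Summable (fun n : ℕ => ‖a n‖ * (2 : ℝ) ^ (n : ℤ)) := by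
    have := hsum 2 (by norm_num)
    refine this.congr (fun n => ?_)
    rw [norm_mul, norm_pow, zpow_natCast]
    norm_num
  -- the second integral
  have hS : HasSum (fun i : ℕ × (ℕ × ℕ) => if (i.1 : ℤ) + (-(i.2.1 : ℤ)) + (-1) = -1 then
      a i.1 * t i.2 else 0) (ci 2 (fun z => ap z / (z - η) -
        ap z * deriv (Fm g) z / (Fm g z - Fm g η))) := by
    apply hasSum_ci (fun i : ℕ × (ℕ × ℕ) => a i.1 * t i.2)
      (fun i => (i.1 : ℤ) + (-(i.2.1 : ℤ)) + (-1))
    · have h1 := (hsa.mul_of_nonneg hts (fun n => by positivity) (fun p => by positivity)).mul_right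
        ((2 : ℝ) ^ (-1 : ℤ))
      refine h1.congr (fun i => ?_)
      rw [norm_mul (a i.1) (t i.2), zpow_add₀ (by norm_num), zpow_add₀ (by norm_num)]
      ring
    · intro z hz
      have hz0 : z ≠ 0 := by
        intro h0
        rw [h0, norm_zero] at hz
        norm_num at hz
      have h1 := hap_sum z (by rw [hz]; norm_num)
      have h2 := hF3 g hg z η (by rw [hz]; linarith) hη1 (fun h => hne1 z hz (by rw [h, sub_self]))
      have h3 : HasSum (fun p : ℕ × ℕ => t p * z ^ (-(p.1 : ℤ)))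
          (z / (z - η) - z * deriv (Fm g) z / (Fm g z - Fm g η)) := by
        refine h2.congr_fun ?_ |> fun h => h
        intro p
        simp only [ht]
        rw [zpow_neg, zpow_natCast, div_pow (rr : ℂ) z]
        ring
      have h4 : Summable (fun i : ℕ × (ℕ × ℕ) => (a i.1 * z ^ i.1) *
          (t i.2 * z ^ (-(i.2.1 : ℤ)))) := by
        apply summable_mul_of_summable_norm (f := fun n => a n * z ^ n)
          (g := fun p : ℕ × ℕ => t p * z ^ (-(p.1 : ℤ)))
        · exact hsum z (by rw [hz]; norm_num)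
        · refine hts.congr (fun p => ?_)
          rw [norm_mul (t p), norm_zpow, hz]
      have h5 := (h1.mul h3 h4).mul_right z⁻¹
      have h6 : ap z * (z / (z - η) - z * deriv (Fm g) z / (Fm g z - Fm g η)) * z⁻¹ =
          ap z / (z - η) - ap z * deriv (Fm g) z / (Fm g z - Fm g η) := by
        have e1 := hne1 z hz
        have e2 := hne2 z hz
        field_simp
      rw [h6] at h5
      refine h5.congr_fun ?_ |> fun h => h
      intro i
      rw [zpow_add₀ hz0, zpow_add₀ hz0, zpow_natCast, zpow_neg_one]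
      ring
  -- Cauchy
  have hci : ci 2 (fun z => ap z / (z - η)) = ap η := by
    have h1 : DifferentiableOn ℂ ap (closedBall 0 2) :=
      hap_diff.mono (closedBall_subset_ball (by norm_num))
    have h2 := h1.circleIntegral_sub_inv_smul (w := η) (by rw [mem_ball_zero_iff]; linarith)
    unfold ci
    have h3 : (∮ z in C(0, 2), ap z / (z - η)) = ∮ z in C(0, 2), (z - η)⁻¹ • ap z := by
      congr 1
      funext z
      rw [smul_eq_mul, div_eq_inv_mul]
    rw [h3, h2, smul_eq_mul]
    have h5 : (2 * Real.pi * I : ℂ) ≠ 0 := by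
      simp [Real.pi_ne_zero, I_ne_zero]
    field_simp
  have hint1 : CircleIntegrable (fun z => ap z / (z - η)) 0 2 := by
    apply ContinuousOn.circleIntegrable (by norm_num)
    refine hapc.div (continuousOn_id.sub continuousOn_const) (fun z hz => ?_)
    exact hne1 z (by rwa [mem_sphere_zero_iff_norm] at hz)
  have hint2 : CircleIntegrable (fun z => ap z * deriv (Fm g) z / (Fm g z - Fm g η)) 0 2 := by
    apply ContinuousOn.circleIntegrable (by norm_num)
    refine (hapc.mul hdFc).div (hFc.sub continuousOn_const) (fun z hz => ?_)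
    exact hne2 z (by rwa [mem_sphere_zero_iff_norm] at hz)
  have hsub : ci 2 (fun z => ap z / (z - η) - ap z * deriv (Fm g) z / (Fm g z - Fm g η)) =
      ap η - ci 2 (fun z => ap z * deriv (Fm g) z / (Fm g z - Fm g η)) := by
    rw [← hci]
    unfold ci
    rw [circleIntegral.integral_sub hint1 hint2, mul_sub]
  -- evaluation of the sum
  have hT : HasSum (fun p : ℕ × ℕ => a p.1 * t p) (ap η -
      ci 2 (fun z => ap z * deriv (Fm g) z / (Fm g z - Fm g η))) := by
    rw [← hsub]
    have hinj : Function.Injective (fun p : ℕ × ℕ => ((p.1, p) : ℕ × (ℕ × ℕ))) := by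
      intro p p' h
      exact (Prod.ext_iff.mp h).2
    rw [← hinj.hasSum_iff] at hS
    · refine hS.congr_fun ?_ |> fun h => h
      intro p
      simp
    · intro i hi
      have hne : ¬ ((i.1 : ℤ) + (-(i.2.1 : ℤ)) + (-1) = -1) := by
        intro h
        apply hi
        refine ⟨i.2, ?_⟩
        apply Prod.ext
        · simp only
          omega
        · rfl
      rw [if_neg hne]
  change ci 2 (fun z => ap z * deriv (Fm g) z / (Fm g z - Fm g η)) = ap η + _
  have hTs : Summable (fun p : ℕ × ℕ => a p.1 * t p) := hT.summable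
  have e1 := hT.tsum_eq
  have e2 : ∑' p : ℕ × ℕ, a p.1 * t p = ∑' k : ℕ, ∑' j : ℕ, a j * t (j, k) := by
    have h1 := (Equiv.prodComm ℕ ℕ).tsum_eq (fun p : ℕ × ℕ => a p.1 * t p)
    rw [← h1]
    have h2 : Summable (fun p : ℕ × ℕ => a ((Equiv.prodComm ℕ ℕ) p).1 *
        t ((Equiv.prodComm ℕ ℕ) p)) := (Equiv.prodComm ℕ ℕ).summable_iff.mpr hTs
    rw [h2.tsum_prod]
    rfl
  have e3 : ∀ k : ℕ, ((if k = 0 then 0 else -∑' j : ℕ, (j : ℂ) * rr ^ (j + k) * gam g j k * a j) *
      (η⁻¹) ^ k : ℂ) = -∑' j : ℕ, a j * t (j, k) := by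
    intro k
    rcases Nat.eq_zero_or_pos k with rfl | hk
    · simp [ht, gam_zero_right]
    · rw [if_neg (by omega), neg_mul, ← tsum_mul_right]
      congr 1
      apply tsum_congr
      intro j
      simp only [ht]
      rw [div_eq_mul_inv, mul_pow, pow_add]
      ring
  rw [tsum_congr e3, tsum_neg, ← e2, e1]
  ring

end Pool.Agent.Stek
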