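import Pool.Agent.Stek.TFun

/-!
# F7, F8: Laurent decomposition and uniqueness of Laurent coefficients
-/

open scoped BigOperators ComplexConjugate Topology ContDiff Real
open Complex Metric InnerProductSpace Set MeasureTheory Filter

noncomputable section

namespace Pool.Agent.Stek

namespace LaurentAux

/-- open annulus -/
def Ann (c : ℂ) (α β : ℝ) : Set ℂ := {w | α < ‖w - c‖ ∧ ‖w - c‖ < β}

theorem isOpen_Ann (c : ℂ) (α β : ℝ) : IsOpen (Ann c α β) := by
  have h : Continuous fun w : ℂ => ‖w - c‖ := by fun_prop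
  exact (isOpen_lt continuous_const h).inter (isOpen_lt h continuous_const)

theorem diffAt {G : ℂ → ℂ} {c : ℂ} {α β : ℝ} (hG : DifferentiableOn ℂ G (Ann c α β)) {w : ℂ}
    (h1 : α < ‖w - c‖) (h2 : ‖w - c‖ < β) : DifferentiableAt ℂ G w :=
  hG.differentiableAt ((isOpen_Ann c α β).mem_nhds ⟨h1, h2⟩)

theorem circleInt_indep {G : ℂ → ℂ} {c : ℂ} {α β r R : ℝ} (hG : DifferentiableOn ℂ G (Ann c α β))
    (hα : 0 ≤ α) (h1 : α < r) (h2 : r ≤ R) (h3 : R < β) :
    (∮ z in C(c, R), G z) = ∮ z in C(c, r), G z := by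
  refine circleIntegral_eq_of_differentiable_on_annulus_off_countable (hα.trans_lt h1) h2
    countable_empty ?_ ?_
  · intro z hz
    have e1 : ‖z - c‖ ≤ R := by simpa [dist_eq_norm] using hz.1
    have e2 : r ≤ ‖z - c‖ := by simpa [dist_eq_norm] using hz.2
    exact (diffAt hG (h1.trans_le e2) (e1.trans_lt h3)).continuousAt.continuousWithinAt
  · intro z hz
    have e1 : ‖z - c‖ < R := by simpa [dist_eq_norm] using hz.1.1
    have e2 : r < ‖z - c‖ := by simpa [dist_eq_norm] using hz.1.2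
    exact diffAt hG (h1.trans e2) (e1.trans h3)

theorem circInt {G : ℂ → ℂ} {c : ℂ} {α β R : ℝ} (hG : DifferentiableOn ℂ G (Ann c α β))
    (hα : 0 ≤ α) (h1 : α < R) (h3 : R < β) : CircleIntegrable G c R := by
  apply ContinuousOn.circleIntegrable (hα.trans h1.le)
  intro z hz
  have e1 : ‖z - c‖ = R := by simpa [dist_eq_norm] using hz
  exact (diffAt hG (e1 ▸ h1) (e1 ▸ h3)).continuousAt.continuousWithinAt

theorem annulus_cauchy {G : ℂ → ℂ} {c w : ℂ} {α β r R : ℝ}
    (hG : DifferentiableOn ℂ G (Ann c α β)) (hα : 0 ≤ α) (h1 : α < r) (h2 : r < ‖w - c‖)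
    (h3 : ‖w - c‖ < R) (h4 : R < β) :
    (∮ z in C(c, R), (z - w)⁻¹ • G z) - (∮ z in C(c, r), (z - w)⁻¹ • G z) = (2 * π * I) * G w := by
  have hr : 0 < r := hα.trans_lt h1
  have key : (∮ z in C(c, R), dslope G w z) = ∮ z in C(c, r), dslope G w z := by
    refine circleIntegral_eq_of_differentiable_on_annulus_off_countable hr (h2.trans h3).le
      (countable_singleton w) ?_ ?_
    · intro z hz
      have e1 : ‖z - c‖ ≤ R := by simpa [dist_eq_norm] using hz.1
      have e2 : r ≤ ‖z - c‖ := by simpa [dist_eq_norm] using hz.2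
      have hd : DifferentiableAt ℂ G z := diffAt hG (h1.trans_le e2) (e1.trans_lt h4)
      by_cases hzw : z = w
      · subst hzw
        exact (continuousAt_dslope_same.2 hd).continuousWithinAt
      · exact ((continuousAt_dslope_of_ne hzw).2 hd.continuousAt).continuousWithinAt
    · intro z hz
      have e1 : ‖z - c‖ < R := by simpa [dist_eq_norm] using hz.1.1
      have e2 : r < ‖z - c‖ := by simpa [dist_eq_norm] using hz.1.2
      have hzw : z ≠ w := by simpa using hz.2
      exact (differentiableAt_dslope_of_ne hzw).2 (diffAt hG (h1.trans e2) (e1.trans h4))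
  have hsl : ∀ ρ : ℝ, 0 < ρ → α < ρ → ρ < β → ρ ≠ ‖w - c‖ →
      (∮ z in C(c, ρ), dslope G w z) = (∮ z in C(c, ρ), (z - w)⁻¹ • G z) -
        (∮ z in C(c, ρ), (z - w)⁻¹) * G w := by
    intro ρ hρ hαρ hρβ hne
    have hne' : ∀ z ∈ sphere c ρ, z ≠ w := by
      rintro z hz rfl
      apply hne
      have : ‖z - c‖ = ρ := by simpa [dist_eq_norm] using hz
      exact this.symm
    have hI1 : CircleIntegrable (fun z => (z - w)⁻¹ • G z) c ρ := by
      apply ContinuousOn.circleIntegrable hρ.le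
      intro z hz
      have e1 : ‖z - c‖ = ρ := by simpa [dist_eq_norm] using hz
      have hd := (diffAt hG (e1 ▸ hαρ) (e1 ▸ hρβ)).continuousAt
      have hz' : z - w ≠ 0 := sub_ne_zero.2 (hne' z hz)
      exact (((continuousAt_id.sub continuousAt_const).inv₀ hz').smul hd).continuousWithinAt
    have hI2 : CircleIntegrable (fun z => (z - w)⁻¹ • G w) c ρ := by
      apply ContinuousOn.circleIntegrable hρ.le
      intro z hz
      have hz' : z - w ≠ 0 := sub_ne_zero.2 (hne' z hz)
      exact (((continuousAt_id.sub continuousAt_const).inv₀ hz').smul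
        continuousAt_const).continuousWithinAt
    have e : (∮ z in C(c, ρ), dslope G w z) =
        ∮ z in C(c, ρ), ((z - w)⁻¹ • G z - (z - w)⁻¹ • G w) := by
      refine circleIntegral.integral_congr hρ.le fun z hz => ?_
      rw [dslope_of_ne _ (hne' z hz), slope_def_module, smul_sub]
    rw [e, circleIntegral.integral_sub hI1 hI2, circleIntegral.integral_smul_const]
    rfl
  have hβ : r < β := (h2.trans h3).trans h4
  rw [hsl R (hr.trans (h2.trans h3)) (h1.trans (h2.trans h3)) h4 h3.ne',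
    hsl r hr h1 hβ h2.ne] at key
  have i1 : (∮ z in C(c, R), (z - w)⁻¹) = 2 * π * I := by
    apply circleIntegral.integral_sub_inv_of_mem_ball
    simpa [dist_eq_norm] using h3
  have i2 : (∮ z in C(c, r), (z - w)⁻¹) = 0 := by
    refine circleIntegral_eq_zero_of_differentiable_on_off_countable hr.le countable_empty ?_ ?_
    · intro z hz
      have e1 : ‖z - c‖ ≤ r := by simpa [dist_eq_norm] using hz
      have hz' : z - w ≠ 0 := by
        rintro h
        rw [sub_eq_zero] at h
        rw [h] at e1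
        linarith
      exact (((continuousAt_id.sub continuousAt_const).inv₀ hz')).continuousWithinAt
    · intro z hz
      have e1 : ‖z - c‖ < r := by simpa [dist_eq_norm] using hz.1
      have hz' : z - w ≠ 0 := by
        rintro h
        rw [sub_eq_zero] at h
        rw [h] at e1
        linarith
      exact (differentiableAt_id.sub_const w).inv hz'
  rw [i1, i2, zero_mul, sub_zero] at key
  rw [← key]
  ring

theorem inner_hasSum {f : ℂ → ℂ} {c w : ℂ} {R : ℝ} (hf : CircleIntegrable f c R) (hR : 0 < R)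
    (hw : R < ‖w‖) : HasSum (fun n : ℕ => ∮ z in C(c, R), ((z - c) / w) ^ n • w⁻¹ • f z)
      (∮ z in C(c, R), (c + w - z)⁻¹ • f z) := by
  have hw0 : 0 < ‖w‖ := hR.trans hw
  have hwR : R / ‖w‖ ∈ Ico (0 : ℝ) 1 :=
    ⟨div_nonneg hR.le hw0.le, (div_lt_one hw0).2 hw⟩
  have hwne : w ≠ 0 := norm_pos_iff.1 hw0
  refine intervalIntegral.hasSum_integral_of_dominated_convergence
      (fun n θ => (R / ‖w‖ * ‖f (circleMap c R θ)‖) * (R / ‖w‖) ^ n) (fun n => ?_) (fun n => ?_)
      ?_ ?_ ?_
  · simp only [deriv_circleMap]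
    have m1 : Measurable fun θ : ℝ => circleMap 0 R θ * I := by fun_prop
    have m2 : Measurable fun θ : ℝ => ((circleMap c R θ - c) / w) ^ n := by fun_prop
    have m3 : Measurable fun _ : ℝ => w⁻¹ := measurable_const
    exact m1.aestronglyMeasurable.smul (m2.aestronglyMeasurable.smul
      (m3.aestronglyMeasurable.smul hf.def'.1))
  · refine Eventually.of_forall fun θ _ => le_of_eq ?_
    simp only [deriv_circleMap, norm_smul, norm_mul, norm_pow, norm_div, norm_inv,
      norm_circleMap_zero, norm_I, circleMap_sub_center, abs_of_pos hR]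
    field_simp
  · exact Eventually.of_forall fun _ _ => (summable_geometric_of_lt_one hwR.1 hwR.2).mul_left _
  · simp only [tsum_mul_left, tsum_geometric_of_lt_one hwR.1 hwR.2]
    exact (hf.norm.const_mul (R / ‖w‖)).mul_const _
  · refine Eventually.of_forall fun θ _ => HasSum.const_smul _ ?_
    simp only [smul_smul]
    refine HasSum.smul_const ?_ _
    have hlt : ‖(circleMap c R θ - c) / w‖ < 1 := by
      rw [norm_div, circleMap_sub_center, norm_circleMap_zero, abs_of_pos hR]
      exact hwR.2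
    have h1 := (hasSum_geometric_of_norm_lt_one hlt).mul_right w⁻¹
    have e : (1 - (circleMap c R θ - c) / w)⁻¹ * w⁻¹ = (c + w - circleMap c R θ)⁻¹ := by
      rw [← mul_inv]
      congr 1
      field_simp
      ring
    rwa [e] at h1

theorem two_pi_I_ne : (2 * π * I : ℂ) ≠ 0 := Complex.two_pi_I_ne_zero

theorem inner_hasSum' {G : ℂ → ℂ} {c w : ℂ} {α β r : ℝ}
    (hG : DifferentiableOn ℂ G (Ann c α β)) (hα : 0 ≤ α) (h1 : α < r) (h3 : r < β)
    (h2 : r < ‖w - c‖) :
    HasSum (fun n : ℕ => ((2 * π * I : ℂ)⁻¹ * ∮ z in C(c, r), (z - c) ^ n * G z) /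
      (w - c) ^ (n + 1)) (-((2 * π * I : ℂ)⁻¹ * ∮ z in C(c, r), (z - w)⁻¹ • G z)) := by
  have h := (inner_hasSum (circInt hG hα h1 h3) (hα.trans_lt h1) h2).mul_left (2 * π * I : ℂ)⁻¹
  have e1 : (2 * π * I : ℂ)⁻¹ * (∮ z in C(c, r), (c + (w - c) - z)⁻¹ • G z) =
      -((2 * π * I : ℂ)⁻¹ * ∮ z in C(c, r), (z - w)⁻¹ • G z) := by
    have : (fun z => (c + (w - c) - z)⁻¹ • G z) = fun z => (-1 : ℂ) • ((z - w)⁻¹ • G z) := by
      funext z
      have : c + (w - c) - z = -(z - w) := by ring
      rw [this, inv_neg]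
      simp
    rw [this, circleIntegral.integral_smul]
    simp
  rw [e1] at h
  convert! h using 2 with n
  have hwne : w - c ≠ 0 := by
    rw [← norm_pos_iff]
    exact (hα.trans_lt h1).trans h2
  have : (fun z => ((z - c) / (w - c)) ^ n • (w - c)⁻¹ • G z) =
      fun z => ((w - c) ^ (n + 1))⁻¹ • ((z - c) ^ n * G z) := by
    funext z
    simp only [smul_eq_mul]
    rw [div_pow, pow_succ]
    field_simp
  rw [this, circleIntegral.integral_smul, smul_eq_mul]
  field_simp

theorem outer_indep {G : ℂ → ℂ} {c w : ℂ} {α β r R : ℝ} (hG : DifferentiableOn ℂ G (Ann c α β))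
    (hα : 0 ≤ α) (h1 : α < r) (h1' : ‖w - c‖ < r) (h2 : r ≤ R) (h3 : R < β) :
    (∮ z in C(c, R), (z - w)⁻¹ • G z) = ∮ z in C(c, r), (z - w)⁻¹ • G z := by
  refine circleInt_indep (G := fun z => (z - w)⁻¹ • G z) (α := max α ‖w - c‖) (β := β) ?_
    (hα.trans (le_max_left _ _)) (max_lt h1 h1') h2 h3
  intro z hz
  have hz1 : α < ‖z - c‖ := (le_max_left _ _).trans_lt hz.1
  have hz2 : ‖w - c‖ < ‖z - c‖ := (le_max_right _ _).trans_lt hz.1
  have hz' : z - w ≠ 0 := by
    intro h
    rw [sub_eq_zero] at h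
    rw [h] at hz2
    exact lt_irrefl _ hz2
  exact (((differentiableAt_id.sub_const w).inv hz').smul
    (diffAt hG hz1 hz.2)).differentiableWithinAt

end LaurentAux

open LaurentAux in
theorem f7 : F7 := by
  intro G c α β hα hαβ hG
  have hG' : DifferentiableOn ℂ G (Ann c α β) := hG
  have hpow : ∀ m : ℕ, DifferentiableOn ℂ (fun z => (z - c) ^ m * G z) (Ann c α β) := by
    intro m z hz
    exact (((differentiableAt_id.sub_const c).pow m).mul
      (diffAt hG' hz.1 hz.2)).differentiableWithinAt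
  have hpi : ∀ m : ℕ, ∀ r R : ℝ, α < r → r < β → α < R → R < β →
      (∮ z in C(c, R), (z - c) ^ m * G z) = ∮ z in C(c, r), (z - c) ^ m * G z := by
    intro m r R h1 h2 h3 h4
    rcases le_total r R with h | h
    · exact circleInt_indep (hpow m) hα.le h1 h h4
    · exact (circleInt_indep (hpow m) hα.le h3 h h2).symm
  refine ⟨fun w => (2 * π * I : ℂ)⁻¹ * ∮ z in C(c, (max α ‖w - c‖ + β) / 2), (z - w)⁻¹ • G z,
    fun m => (2 * π * I : ℂ)⁻¹ * ∮ z in C(c, (α + β) / 2), (z - c) ^ m * G z, ?_, ?_, ?_⟩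
  · intro w0 hw0
    have hw0' : ‖w0 - c‖ < β := by simpa [dist_eq_norm] using hw0
    have hm : max α ‖w0 - c‖ < β := max_lt hαβ hw0'
    set ρ := (max α ‖w0 - c‖ + β) / 2 with hρ
    have hρ1 : α < ρ := by have := le_max_left α ‖w0 - c‖; linarith
    have hρ2 : ‖w0 - c‖ < ρ := by have := le_max_right α ‖w0 - c‖; linarith
    have hρ3 : ρ < β := by linarith
    have hρ0 : 0 < ρ := hα.trans hρ1
    have hps := hasFPowerSeriesOn_cauchy_integral (f := G) (c := c) (R := ρ.toNNReal)
      (by rw [Real.coe_toNNReal ρ hρ0.le]; exact circInt hG' hα.le hρ1 hρ3)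
      (Real.toNNReal_pos.2 hρ0)
    rw [Real.coe_toNNReal ρ hρ0.le] at hps
    have hd : DifferentiableAt ℂ (fun w => (2 * π * I : ℂ)⁻¹ • ∮ z in C(c, ρ), (z - w)⁻¹ • G z)
        w0 := by
      refine hps.differentiableOn.differentiableAt (Metric.isOpen_eball.mem_nhds ?_)
      rw [Metric.mem_eball, edist_eq_enorm_sub, ← ofReal_norm]
      exact (ENNReal.ofReal_lt_ofReal_iff hρ0).2 hρ2
    refine (hd.congr_of_eventuallyEq ?_).differentiableWithinAt
    have hev : ∀ᶠ w in 𝓝 w0, ‖w - c‖ < ρ := by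
      have hc : Continuous fun w : ℂ => ‖w - c‖ := by fun_prop
      exact (isOpen_lt hc continuous_const).mem_nhds hρ2
    filter_upwards [hev] with w hw
    show (2 * π * I : ℂ)⁻¹ * (∮ z in C(c, (max α ‖w - c‖ + β) / 2), (z - w)⁻¹ • G z) =
      (2 * π * I : ℂ)⁻¹ • ∮ z in C(c, ρ), (z - w)⁻¹ • G z
    rw [smul_eq_mul]
    congr 1
    have hwβ : ‖w - c‖ < β := hw.trans hρ3
    have hm' : max α ‖w - c‖ < β := max_lt hαβ hwβ
    have e1 := le_max_left α ‖w - c‖
    have e2 := le_max_right α ‖w - c‖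
    rcases le_total ρ ((max α ‖w - c‖ + β) / 2) with h | h
    · exact outer_indep hG' hα.le hρ1 hw h (by linarith)
    · exact (outer_indep hG' hα.le (by linarith) (by linarith) h hρ3).symm
  · intro ρ hρ
    set ρ' := min ρ ((α + β) / 2) with hρ'
    have h1 : α < ρ' := lt_min hρ (by linarith)
    have h2 : ρ' < β := (min_le_right _ _).trans_lt (by linarith)
    have h0 : 0 < ρ' := hα.trans h1
    have hc : ContinuousOn G (sphere c ρ') := by
      intro z hz
      have e1 : ‖z - c‖ = ρ' := by simpa [dist_eq_norm] using hz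
      exact (diffAt hG' (e1 ▸ h1) (e1 ▸ h2)).continuousAt.continuousWithinAt
    obtain ⟨C, hC⟩ := (isCompact_sphere c ρ').exists_bound_of_continuousOn hc
    have hC0 : 0 ≤ C := by
      have hz : c + ρ' ∈ sphere c ρ' := by
        simp [abs_of_pos h0]
      exact (norm_nonneg _).trans (hC _ hz)
    refine ⟨ρ' * C, fun m => ?_⟩
    show ‖(2 * π * I : ℂ)⁻¹ * ∮ z in C(c, (α + β) / 2), (z - c) ^ m * G z‖ ≤ ρ' * C * ρ ^ m
    rw [hpi m ρ' ((α + β) / 2) h1 h2 (by linarith) (by linarith)]
    have := circleIntegral.norm_two_pi_i_inv_smul_integral_le_of_norm_le_const (c := c) (R := ρ')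
      (f := fun z => (z - c) ^ m * G z) (C := ρ' ^ m * C) h0.le (by
        intro z hz
        have e1 : ‖z - c‖ = ρ' := by simpa [dist_eq_norm] using hz
        rw [norm_mul, norm_pow, e1]
        exact mul_le_mul_of_nonneg_left (hC z hz) (by positivity))
    rw [smul_eq_mul] at this
    refine this.trans ?_
    have h3 : ρ' ^ m ≤ ρ ^ m := pow_le_pow_left₀ h0.le (min_le_left _ _) m
    calc ρ' * (ρ' ^ m * C) = ρ' * C * ρ' ^ m := by ring
      _ ≤ ρ' * C * ρ ^ m := by gcongr
  · intro w hw1 hw2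
    have hr1 : α < (α + ‖w - c‖) / 2 := by linarith
    have hr2 : (α + ‖w - c‖) / 2 < ‖w - c‖ := by linarith
    have hr3 : (α + ‖w - c‖) / 2 < β := by linarith
    have h := inner_hasSum' hG' hα.le hr1 hr3 hr2
    have hmax : max α ‖w - c‖ = ‖w - c‖ := max_eq_right hw1.le
    have hcau := annulus_cauchy (R := (‖w - c‖ + β) / 2) hG' hα.le hr1 hr2 (by linarith)
      (by linarith)
    have e : G w - (2 * π * I : ℂ)⁻¹ * (∮ z in C(c, (max α ‖w - c‖ + β) / 2), (z - w)⁻¹ • G z) =
        -((2 * π * I : ℂ)⁻¹ * ∮ z in C(c, (α + ‖w - c‖) / 2), (z - w)⁻¹ • G z) := by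
      rw [hmax]
      have h2 : G w = (2 * π * I : ℂ)⁻¹ * ((2 * π * I) * G w) := by
        rw [inv_mul_cancel_left₀ two_pi_I_ne]
      rw [h2, ← hcau]
      ring
    show HasSum _ (G w - (2 * π * I : ℂ)⁻¹ *
      (∮ z in C(c, (max α ‖w - c‖ + β) / 2), (z - w)⁻¹ • G z))
    rw [e]
    convert! h using 2 with m
    beta_reduce
    rw [hpi m ((α + ‖w - c‖) / 2) ((α + β) / 2) hr1 hr3 (by linarith) (by linarith)]

open LaurentAux in
theorem f8 : F8 := by
  intro f α β hα hαβ hcont hdiff hint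
  have hβ : 0 < β := hα.trans hαβ
  have hG : DifferentiableOn ℂ f (Ann 0 α β) := by
    have : {z : ℂ | α < ‖z‖ ∧ ‖z‖ < β} = Ann 0 α β := by
      ext z; simp [Ann]
    rwa [this] at hdiff
  -- all the integrals vanish
  have h0 : ∀ ρ, α < ρ → ρ < β → ∀ k : ℤ, (∮ z in C(0, ρ), f z * z ^ k) = 0 := by
    intro ρ h1 h2 k
    refine Eq.trans (Eq.symm ?_) (hint k)
    refine circleIntegral_eq_of_differentiable_on_annulus_off_countable (E := ℂ) (c := 0)
      (f := fun z => f z * z ^ k) (hα.trans h1) h2.le countable_empty ?_ ?_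
    · intro z hz
      have e1 : ‖z‖ ≤ β := by simpa [dist_eq_norm] using hz.1
      have e2 : ρ ≤ ‖z‖ := by simpa [dist_eq_norm] using hz.2
      have hz0 : z ≠ 0 := by
        rw [← norm_pos_iff]
        exact (hα.trans h1).trans_le e2
      have hc1 : ContinuousWithinAt f (closedBall 0 β \ ball 0 ρ) z := by
        refine (hcont z ⟨h1.le.trans e2, e1⟩).mono ?_
        intro y hy
        have e1 : ‖y‖ ≤ β := by simpa [dist_eq_norm] using hy.1
        have e2 : ρ ≤ ‖y‖ := by simpa [dist_eq_norm] using hy.2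
        exact ⟨h1.le.trans e2, e1⟩
      exact hc1.mul (continuousAt_zpow₀ z k (Or.inl hz0)).continuousWithinAt
    · intro z hz
      have e1 : ‖z‖ < β := by simpa [dist_eq_norm] using hz.1.1
      have e2 : ρ < ‖z‖ := by simpa [dist_eq_norm] using hz.1.2
      have hz0 : z ≠ 0 := by
        rw [← norm_pos_iff]
        exact (hα.trans h1).trans e2
      exact (diffAt hG (by simpa using h1.trans e2) (by simpa using e1)).mul
        (differentiableAt_zpow.2 (Or.inl hz0))
  -- interior points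
  have h1 : ∀ w : ℂ, α < ‖w‖ → ‖w‖ < β → f w = 0 := by
    intro w hw1 hw2
    have hcau := annulus_cauchy (G := f) (c := 0) (w := w) (α := α) (β := β)
      (r := (α + ‖w‖) / 2) (R := (‖w‖ + β) / 2) hG hα.le (by linarith)
      (by rw [sub_zero]; linarith) (by rw [sub_zero]; linarith) (by linarith)
    have hout : (∮ z in C(0, (‖w‖ + β) / 2), (z - w)⁻¹ • f z) = 0 := by
      have hs := hasSum_two_pi_I_cauchyPowerSeries_integral (f := f) (c := 0)
        (R := (‖w‖ + β) / 2) (w := w) (circInt hG hα.le (by linarith) (by linarith))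
        (by linarith)
      have hz : ∀ n : ℕ, (∮ z in C(0, (‖w‖ + β) / 2), (w / (z - 0)) ^ n • (z - 0)⁻¹ • f z) = 0 := by
        intro n
        have e : (fun z : ℂ => (w / (z - 0)) ^ n • (z - 0)⁻¹ • f z) =
            fun z => w ^ n • (f z * z ^ (-(n : ℤ) - 1)) := by
          funext z
          simp only [sub_zero, smul_eq_mul, div_pow]
          by_cases hz : z = 0
          · subst hz
            have : (-(n : ℤ) - 1) ≠ 0 := by omega
            simp [zero_zpow _ this]
          · rw [zpow_sub₀ hz, zpow_neg, zpow_natCast, zpow_one]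
            field_simp
        rw [e, circleIntegral.integral_smul, h0 _ (by linarith) (by linarith), smul_zero]
      simp only [hz, zero_add] at hs
      exact hs.unique hasSum_zero
    have hin : (∮ z in C(0, (α + ‖w‖) / 2), (z - w)⁻¹ • f z) = 0 := by
      have hs := inner_hasSum' (G := f) (c := 0) (w := w) (α := α) (β := β)
        (r := (α + ‖w‖) / 2) hG hα.le (by linarith) (by linarith) (by rw [sub_zero]; linarith)
      have hz : ∀ n : ℕ, (∮ z in C(0, (α + ‖w‖) / 2), (z - 0) ^ n * f z) = 0 := by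
        intro n
        have := h0 ((α + ‖w‖) / 2) (by linarith) (by linarith) n
        simp only [zpow_natCast] at this
        simp only [sub_zero]
        simpa only [mul_comm] using this
      simp only [hz, mul_zero, zero_div] at hs
      have h2 := hs.unique hasSum_zero
      rw [neg_eq_zero, mul_eq_zero] at h2
      rcases h2 with h2 | h2
      · exact absurd h2 (inv_ne_zero two_pi_I_ne)
      · exact h2
    rw [hout, hin, sub_zero] at hcau
    rcases mul_eq_zero.1 hcau.symm with h | h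
    · exact absurd h two_pi_I_ne
    · exact h
  -- closure
  intro z hz1 hz2
  have hz0 : 0 < ‖z‖ := hα.trans_le hz1
  have hcl : z ∈ closure {z : ℂ | α < ‖z‖ ∧ ‖z‖ < β} := by
    have hm : ‖z‖ ∈ closure (Ioo α β) := by
      rw [closure_Ioo hαβ.ne]
      exact ⟨hz1, hz2⟩
    have hc : Continuous fun t : ℝ => (t : ℂ) * (z / ‖z‖) := by fun_prop
    have := map_mem_closure hc hm (t := {z : ℂ | α < ‖z‖ ∧ ‖z‖ < β}) (by
      intro t ht
      have : ‖(t : ℂ) * (z / ‖z‖)‖ = t := by
        rw [norm_mul, norm_div, Complex.norm_real, Complex.norm_real, norm_norm,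
          div_self hz0.ne', mul_one, Real.norm_of_nonneg (hα.le.trans ht.1.le)]
      show α < ‖(t : ℂ) * (z / ‖z‖)‖ ∧ ‖(t : ℂ) * (z / ‖z‖)‖ < β
      rw [this]
      exact ht)
    have e : ((‖z‖ : ℝ) : ℂ) * (z / ‖z‖) = z := by
      have : ((‖z‖ : ℝ) : ℂ) ≠ 0 := by exact_mod_cast hz0.ne'
      field_simp
    rwa [e] at this
  have hne : (𝓝[{z : ℂ | α < ‖z‖ ∧ ‖z‖ < β}] z).NeBot := mem_closure_iff_nhdsWithin_neBot.1 hcl
  have ht1 : Tendsto f (𝓝[{z : ℂ | α < ‖z‖ ∧ ‖z‖ < β}] z) (𝓝 (f z)) :=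
    (hcont z ⟨hz1, hz2⟩).mono (fun y hy => ⟨hy.1.le, hy.2.le⟩)
  have ht2 : Tendsto f (𝓝[{z : ℂ | α < ‖z‖ ∧ ‖z‖ < β}] z) (𝓝 0) := by
    refine tendsto_const_nhds.congr' ?_
    filter_upwards [self_mem_nhdsWithin] with y hy
    exact (h1 y hy.1 hy.2).symm
  exact tendsto_nhds_unique ht1 ht2

end Pool.Agent.Stek
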