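import Pool.Agent.Stek.TFun

/-!
# F9: the Steklov condition on the unit circle in terms of Laurent coefficients
-/

open scoped BigOperators ComplexConjugate Topology ContDiff
open Complex Metric InnerProductSpace MeasureTheory

noncomputable section

namespace Pool.Agent.Stek

namespace F9aux

/-- the unit circle -/
def ex (θ : ℝ) : ℂ := circleMap 0 1 θ

lemma ex_eq (θ : ℝ) : ex θ = exp (θ * I) := by simp [ex, circleMap_zero]

lemma norm_ex (θ : ℝ) : ‖ex θ‖ = 1 := by simp [ex]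

lemma ex_ne (θ : ℝ) : ex θ ≠ 0 := by
  rw [ex_eq]; exact exp_ne_zero _

lemma ex_zpow (θ : ℝ) (k : ℤ) : ex θ ^ k = exp (k * (θ * I)) := by
  rw [ex_eq, ← Complex.exp_int_mul]

lemma hasDerivAt_ex (θ : ℝ) : HasDerivAt ex (ex θ * I) θ := by
  exact hasDerivAt_circleMap 0 1 θ

lemma continuous_ex : Continuous ex := continuous_circleMap 0 1

lemma ex_two_pi : ex (2 * Real.pi) = ex 0 := by
  have := periodic_circleMap 0 1 0
  simpa [ex] using this

/-- `ci 1` as an integral over an interval -/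
lemma ci_one (f : ℂ → ℂ) :
    ci 1 f = (2 * Real.pi : ℂ)⁻¹ * ∫ θ in (0 : ℝ)..2 * Real.pi, ex θ * f (ex θ) := by
  unfold ci circleIntegral
  have h : ∀ θ : ℝ, deriv (circleMap 0 1) θ • f (circleMap 0 1 θ) = I * (ex θ * f (ex θ)) := by
    intro θ
    rw [deriv_circleMap, smul_eq_mul]
    simp only [ex]
    ring
  simp_rw [h]
  rw [intervalIntegral.integral_const_mul, ← mul_assoc]
  congr 1
  rw [mul_inv, mul_assoc, inv_mul_cancel₀ I_ne_zero, mul_one]

lemma dC_mul (V : ℂ → ℝ) (z : ℂ) :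
    z * dC V z = (fderiv ℝ V z z : ℂ) - I * (fderiv ℝ V z (z * I) : ℂ) := by
  have h1 : fderiv ℝ V z z = z.re * fderiv ℝ V z 1 + z.im * fderiv ℝ V z I := by
    have : z = z.re • (1 : ℂ) + z.im • I := by
      apply Complex.ext <;> simp
    conv_lhs => rw [show fderiv ℝ V z z = fderiv ℝ V z (z.re • (1 : ℂ) + z.im • I) by rw [← this]]
    rw [map_add, map_smul, map_smul, smul_eq_mul, smul_eq_mul]
  have h2 : fderiv ℝ V z (z * I) = -z.im * fderiv ℝ V z 1 + z.re * fderiv ℝ V z I := by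
    have : z * I = (-z.im) • (1 : ℂ) + z.re • I := by
      apply Complex.ext <;> simp
    rw [this, map_add, map_smul, map_smul, smul_eq_mul, smul_eq_mul]
  rw [h1, h2, dC]
  push_cast
  nth_rw 1 [← re_add_im z]
  linear_combination -(z.im : ℂ) * (fderiv ℝ V z I : ℂ) * I_sq

lemma fc_eq (V : ℂ → ℝ) (k : ℤ) :
    fc V k = (2 * Real.pi : ℂ)⁻¹ * ∫ θ in (0 : ℝ)..2 * Real.pi, (V (ex θ) : ℂ) * ex θ ^ (-k) := by
  rw [fc, ci_one]
  congr 1
  apply intervalIntegral.integral_congr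
  intro θ _
  simp only
  rw [show (-k : ℤ) = (-k - 1) + 1 by ring, zpow_add_one₀ (ex_ne θ)]
  ring

lemma conj_ex_zpow (θ : ℝ) (k : ℤ) : conj (ex θ ^ k) = ex θ ^ (-k) := by
  rw [ex_zpow, ex_zpow, ← exp_conj]
  congr 1
  simp

lemma fc_neg (V : ℂ → ℝ) (k : ℤ) : fc V (-k) = conj (fc V k) := by
  rw [fc_eq, fc_eq, map_mul]
  congr 1
  · rw [map_inv₀, map_mul, conj_ofReal, Complex.conj_ofNat]
  · rw [← intervalIntegral.intervalIntegral_conj]
    apply intervalIntegral.integral_congr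
    intro θ _
    simp only [map_mul, conj_ofReal, conj_ex_zpow]

section

variable (V : ℂ → ℝ) (hV : ∀ ζ, 1 / 8 ≤ ‖ζ‖ → ‖ζ‖ ≤ 1 → ContDiffAt ℝ ∞ V ζ)

include hV

lemma contAt_fderiv (ζ : ℂ) (h1 : 1 / 8 ≤ ‖ζ‖) (h2 : ‖ζ‖ ≤ 1) : ContinuousAt (fderiv ℝ V) ζ :=
  ((hV ζ h1 h2).fderiv_right (m := 0) (by simp)).continuousAt

lemma contAt_dC (ζ : ℂ) (h1 : 1 / 8 ≤ ‖ζ‖) (h2 : ‖ζ‖ ≤ 1) : ContinuousAt (dC V) ζ := by
  have h := contAt_fderiv V hV ζ h1 h2
  unfold dC
  have a1 : ContinuousAt (fun ζ => fderiv ℝ V ζ 1) ζ := h.clm_apply continuousAt_const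
  have a2 : ContinuousAt (fun ζ => fderiv ℝ V ζ I) ζ := h.clm_apply continuousAt_const
  exact (continuous_ofReal.continuousAt.comp a1).sub
    (continuousAt_const.mul (continuous_ofReal.continuousAt.comp a2))

lemma hasDerivAt_V (θ : ℝ) :
    HasDerivAt (fun θ => V (ex θ)) (fderiv ℝ V (ex θ) (ex θ * I)) θ := by
  have h1 : DifferentiableAt ℝ V (ex θ) :=
    (hV _ (by rw [norm_ex]; norm_num) (by rw [norm_ex])).differentiableAt (by simp)
  exact h1.hasFDerivAt.comp_hasDerivAt θ (hasDerivAt_ex θ)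

lemma continuous_V' : Continuous (fun θ => fderiv ℝ V (ex θ) (ex θ * I)) := by
  rw [continuous_iff_continuousAt]
  intro θ
  have h1 : ContinuousAt (fderiv ℝ V) (ex θ) :=
    contAt_fderiv V hV _ (by rw [norm_ex]; norm_num) (by rw [norm_ex])
  have h2 : ContinuousAt (fun θ => fderiv ℝ V (ex θ)) θ :=
    ContinuousAt.comp (f := ex) (g := fderiv ℝ V) h1 continuous_ex.continuousAt
  exact h2.clm_apply (continuous_ex.continuousAt.mul continuousAt_const)

lemma continuous_V : Continuous (fun θ => V (ex θ)) := by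
  rw [continuous_iff_continuousAt]
  intro θ
  exact (hasDerivAt_V V hV θ).continuousAt

lemma by_parts (k : ℤ) :
    ∫ θ in (0 : ℝ)..2 * Real.pi, (fderiv ℝ V (ex θ) (ex θ * I) : ℂ) * ex θ ^ (-k) =
      k * I * ∫ θ in (0 : ℝ)..2 * Real.pi, (V (ex θ) : ℂ) * ex θ ^ (-k) := by
  have hu : ∀ θ : ℝ, HasDerivAt (fun θ : ℝ => (V (ex θ) : ℂ))
      ((fderiv ℝ V (ex θ) (ex θ * I) : ℝ) : ℂ) θ := fun θ => (hasDerivAt_V V hV θ).ofReal_comp
  have hw : ∀ θ : ℝ, HasDerivAt (fun θ : ℝ => ex θ ^ (-k)) (-(k : ℂ) * I * ex θ ^ (-k)) θ := by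
    intro θ
    have h1 : HasDerivAt (fun θ : ℝ => exp (((-k : ℤ) : ℂ) * ((θ : ℂ) * I)))
        (exp (((-k : ℤ) : ℂ) * ((θ : ℂ) * I)) * (((-k : ℤ) : ℂ) * (1 * I))) θ := by
      apply HasDerivAt.cexp
      apply HasDerivAt.const_mul
      exact (hasDerivAt_id θ).ofReal_comp.mul_const I
    have h2 : (fun θ : ℝ => ex θ ^ (-k)) = fun θ : ℝ => exp (((-k : ℤ) : ℂ) * ((θ : ℂ) * I)) := by
      funext θ
      rw [ex_zpow]
    rw [h2, ex_zpow]
    convert h1 using 1
    push_cast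
    ring
  have hc1 : Continuous (fun θ : ℝ => ((fderiv ℝ V (ex θ) (ex θ * I) : ℝ) : ℂ)) :=
    continuous_ofReal.comp (continuous_V' V hV)
  have hc2 : Continuous (fun θ : ℝ => ex θ ^ (-k)) := by
    rw [continuous_iff_continuousAt]
    intro θ
    exact (hw θ).continuousAt
  have key := intervalIntegral.integral_deriv_mul_eq_sub (a := 0) (b := 2 * Real.pi)
    (u := fun θ : ℝ => (V (ex θ) : ℂ)) (v := fun θ : ℝ => ex θ ^ (-k))
    (u' := fun θ : ℝ => ((fderiv ℝ V (ex θ) (ex θ * I) : ℝ) : ℂ))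
    (v' := fun θ : ℝ => -(k : ℂ) * I * ex θ ^ (-k))
    (fun θ _ => hu θ) (fun θ _ => hw θ) (hc1.intervalIntegrable _ _)
    ((continuous_const.mul hc2).intervalIntegrable _ _)
  have hcV : Continuous (fun θ : ℝ => (V (ex θ) : ℂ)) := continuous_ofReal.comp (continuous_V V hV)
  simp only [ex_two_pi, sub_self] at key
  have j1 : IntervalIntegrable (fun θ : ℝ => ((fderiv ℝ V (ex θ) (ex θ * I) : ℝ) : ℂ) *
      ex θ ^ (-k)) volume 0 (2 * Real.pi) := (hc1.mul hc2).intervalIntegrable _ _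
  have j2 : IntervalIntegrable (fun θ : ℝ => (V (ex θ) : ℂ) * (-(k : ℂ) * I * ex θ ^ (-k)))
      volume 0 (2 * Real.pi) := (hcV.mul (continuous_const.mul hc2)).intervalIntegrable _ _
  rw [intervalIntegral.integral_add j1 j2] at key
  have h3 : ∫ θ in (0 : ℝ)..2 * Real.pi, (V (ex θ) : ℂ) * (-(k : ℂ) * I * ex θ ^ (-k)) =
      -(k : ℂ) * I * ∫ θ in (0 : ℝ)..2 * Real.pi, (V (ex θ) : ℂ) * ex θ ^ (-k) := by
    rw [← intervalIntegral.integral_const_mul]
    apply intervalIntegral.integral_congr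
    intro θ _
    simp only
    ring
  rw [h3] at key
  linear_combination key

end

end F9aux

open F9aux

theorem f9 (h8 : F8) : F9 := by
  intro V σ hV hH hS
  have hann : (∮ z in C(0, 1), dC V z * 1) = ∮ z in C(0, 1), dC V z := by simp
  -- the circle integrals agree
  have hdiff : ∀ z : ℂ, 1 / 8 < ‖z‖ → ‖z‖ < 1 → DifferentiableAt ℂ (dC V) z := fun z h1 h2 =>
    (HarmonicAt.analyticAt_complex_partial (hH z ⟨h1, h2⟩)).differentiableAt
  have hcirc : ∀ k : ℤ, (∮ z in C(0, 1), dC V z * z ^ (-k)) =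
      ∮ z in C(0, 1 / 8), dC V z * z ^ (-k) := by
    intro k
    apply circleIntegral_eq_of_differentiable_on_annulus_off_countable (by norm_num) (by norm_num)
      Set.countable_empty
    · intro z hz
      simp only [Set.mem_sdiff, mem_closedBall, dist_zero_right, mem_ball, not_lt] at hz
      have hz0 : z ≠ 0 := by
        intro h
        rw [h, norm_zero] at hz
        norm_num at hz
      exact ((contAt_dC V hV z hz.2 hz.1).mul
        (continuousAt_zpow₀ z (-k) (Or.inl hz0))).continuousWithinAt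
    · intro z hz
      simp only [Set.sdiff_empty, Set.mem_sdiff, mem_closedBall, dist_zero_right, mem_ball,
        not_le] at hz
      have hz0 : z ≠ 0 := by
        intro h
        rw [h, norm_zero] at hz
        norm_num at hz
      exact (hdiff z hz.2 hz.1).mul (differentiableAt_zpow.2 (Or.inl hz0))
  have hone : ∀ k : ℤ, ci (1 / 8) (fun ζ => dC V ζ * ζ ^ (-k)) =
      ci 1 (fun ζ => dC V ζ * ζ ^ (-k)) := by
    intro k
    unfold ci
    rw [hcirc k]
  have hmain : ∀ k : ℤ, ci (1 / 8) (fun ζ => dC V ζ * ζ ^ (-k)) = (σ + k) * fc V k := by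
    intro k
    rw [hone, ci_one, fc_eq]
    have h1 : ∀ θ : ℝ, ex θ * (dC V (ex θ) * ex θ ^ (-k)) =
        σ * ((V (ex θ) : ℂ) * ex θ ^ (-k)) -
          I * ((fderiv ℝ V (ex θ) (ex θ * I) : ℂ) * ex θ ^ (-k)) := by
      intro θ
      rw [← mul_assoc, dC_mul, hS _ (norm_ex θ)]
      push_cast
      ring
    simp_rw [h1]
    have hc2 : Continuous (fun θ : ℝ => ex θ ^ (-k)) := by
      rw [continuous_iff_continuousAt]
      intro θ
      exact (continuousAt_zpow₀ _ _ (Or.inl (ex_ne θ))).comp continuous_ex.continuousAt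
    have i1 : Continuous (fun θ : ℝ => (σ : ℂ) * ((V (ex θ) : ℂ) * ex θ ^ (-k))) :=
      continuous_const.mul ((continuous_ofReal.comp (continuous_V V hV)).mul hc2)
    have i2 : Continuous (fun θ : ℝ =>
        I * ((fderiv ℝ V (ex θ) (ex θ * I) : ℂ) * ex θ ^ (-k))) :=
      continuous_const.mul ((continuous_ofReal.comp (continuous_V' V hV)).mul hc2)
    rw [intervalIntegral.integral_sub (i1.intervalIntegrable _ _) (i2.intervalIntegrable _ _),
      intervalIntegral.integral_const_mul, intervalIntegral.integral_const_mul,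
      by_parts V hV k]
    linear_combination -(2 * (Real.pi : ℂ))⁻¹ * k *
      (∫ θ in (0 : ℝ)..2 * Real.pi, (V (ex θ) : ℂ) * ex θ ^ (-k)) * I_sq
  refine ⟨hmain, fc_neg V, ?_⟩
  intro h0 hf0
  -- dC V vanishes
  have hdC : ∀ z : ℂ, 1 / 8 ≤ ‖z‖ → ‖z‖ ≤ 1 → dC V z = 0 := by
    apply h8 (dC V) (1 / 8) 1 (by norm_num) (by norm_num)
    · intro z hz
      exact (contAt_dC V hV z hz.1 hz.2).continuousWithinAt
    · intro z hz
      exact (hdiff z hz.1 hz.2).differentiableWithinAt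
    · intro k
      have h1 := hmain (-k)
      rw [h0 (-k), hone] at h1
      unfold ci at h1
      have h2 : (2 * (Real.pi : ℂ) * I)⁻¹ ≠ 0 := by
        apply inv_ne_zero
        simp [Real.pi_ne_zero]
      simpa [h2, Real.pi_ne_zero] using h1
  have hfd : ∀ z : ℂ, 1 / 8 ≤ ‖z‖ → ‖z‖ ≤ 1 → fderiv ℝ V z = 0 := by
    intro z h1 h2
    have h3 := hdC z h1 h2
    unfold dC at h3
    have hre := congrArg re h3
    have him := congrArg im h3
    simp at hre him
    ext v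
    have : v = v.re • (1 : ℂ) + v.im • I := by
      apply Complex.ext <;> simp
    rw [this, map_add, map_smul, map_smul, hre, him]
    simp
  -- constant on the unit circle
  have hcircle : ∀ θ : ℝ, V (ex θ) = V (ex 0) := by
    intro θ
    apply is_const_of_deriv_eq_zero (f := fun θ => V (ex θ))
    · intro θ
      exact (hasDerivAt_V V hV θ).differentiableAt
    · intro θ
      rw [(hasDerivAt_V V hV θ).deriv, hfd _ (by rw [norm_ex]; norm_num) (by rw [norm_ex])]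
      simp
  have hval : V (ex 0) = 0 := by
    rw [fc_eq] at hf0
    simp only [neg_zero, zpow_zero, mul_one, hcircle] at hf0
    rw [intervalIntegral.integral_const] at hf0
    simp [Real.pi_ne_zero] at hf0
    exact hf0
  intro ζ h1 h2
  have hζ0 : 0 < ‖ζ‖ := by linarith
  -- radial path
  have hray : ∀ t ∈ Set.Icc ‖ζ‖ 1, V (((t / ‖ζ‖ : ℝ) : ℂ) * ζ) = V (((‖ζ‖ / ‖ζ‖ : ℝ) : ℂ) * ζ) := by
    have hder : ∀ t ∈ Set.Icc ‖ζ‖ 1, HasDerivAt (fun t : ℝ => V (((t / ‖ζ‖ : ℝ) : ℂ) * ζ)) 0 t := by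
      intro t ht
      have hn : ‖((t / ‖ζ‖ : ℝ) : ℂ) * ζ‖ = t := by
        rw [norm_mul, Complex.norm_real, Real.norm_eq_abs, abs_of_nonneg
          (div_nonneg (hζ0.le.trans ht.1) hζ0.le), div_mul_cancel₀ _ hζ0.ne']
      have hd : DifferentiableAt ℝ V (((t / ‖ζ‖ : ℝ) : ℂ) * ζ) :=
        (hV _ (by rw [hn]; exact h1.trans ht.1) (by rw [hn]; exact ht.2)).differentiableAt
          (by simp)
      have hp : HasDerivAt (fun t : ℝ => ((t / ‖ζ‖ : ℝ) : ℂ) * ζ) (((1 / ‖ζ‖ : ℝ) : ℂ) * ζ) t := by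
        apply HasDerivAt.mul_const
        exact ((hasDerivAt_id t).div_const ‖ζ‖).ofReal_comp
      have := hd.hasFDerivAt.comp_hasDerivAt t hp
      rw [hfd _ (by rw [hn]; exact h1.trans ht.1) (by rw [hn]; exact ht.2)] at this
      have h5 : HasDerivAt (fun t : ℝ => V (((t / ‖ζ‖ : ℝ) : ℂ) * ζ))
          ((0 : ℂ →L[ℝ] ℝ) (((1 / ‖ζ‖ : ℝ) : ℂ) * ζ)) t := this
      rwa [zero_apply] at h5
    apply constant_of_derivWithin_zero (f := fun t : ℝ => V (((t / ‖ζ‖ : ℝ) : ℂ) * ζ))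
    · intro t ht
      exact (hder t ht).differentiableAt.differentiableWithinAt
    · intro t ht
      have ht' : t ∈ Set.Icc ‖ζ‖ 1 := ⟨ht.1, ht.2.le⟩
      have hlt : ‖ζ‖ < 1 := ht.1.trans_lt ht.2
      exact (hder t ht').hasDerivWithinAt.derivWithin (uniqueDiffOn_Icc hlt t ht')
  have h3 := hray 1 ⟨h2, le_rfl⟩
  rw [div_self hζ0.ne'] at h3
  simp only [ofReal_one, one_mul] at h3
  rw [← h3]
  -- the point is on the unit circle
  have h4 : ((1 / ‖ζ‖ : ℝ) : ℂ) * ζ = ex (arg ζ) := by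
    rw [ex_eq]
    have := norm_mul_exp_arg_mul_I ζ
    nth_rw 2 [← this]
    rw [← mul_assoc, ← ofReal_mul, one_div, inv_mul_cancel₀ hζ0.ne', ofReal_one, one_mul]
  rw [h4, hcircle, hval]

end Pool.Agent.Stek
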