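import Pool.Agent.Stek.TFun

/-!
# G1: outward normals are unique
-/

open scoped BigOperators ComplexConjugate Topology ContDiff
open Complex Metric InnerProductSpace

noncomputable section

namespace Pool.Agent.Stek

theorem re_conj_mul_self_sub {n n' : ℂ} (hn : ‖n‖ = 1) (hn' : ‖n'‖ = 1) (h : n ≠ n') :
    (conj n * (n' - n)).re < 0 := by
  have h1 : (conj n * n).re = 1 := by
    rw [← Complex.normSq_eq_conj_mul_self]
    simp [Complex.normSq_eq_norm_sq, hn]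
  have h2 : 0 < ‖n' - n‖ ^ 2 := by
    have : n' - n ≠ 0 := sub_ne_zero.2 h.symm
    positivity
  have h3 : ‖n' - n‖ ^ 2 = 2 - 2 * (conj n * n').re := by
    rw [← Complex.normSq_eq_norm_sq, Complex.normSq_sub, Complex.normSq_eq_norm_sq,
      Complex.normSq_eq_norm_sq, hn, hn', mul_comm n' (conj n)]
    ring
  rw [mul_sub, Complex.sub_re, h1]
  linarith

theorem g1 : G1 := by
  intro K z n n' h h'
  by_contra hne
  obtain ⟨φ, hφ1, hφ2, hφ3, hφ4, hφ5, hφ6⟩ := h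
  obtain ⟨ψ, hψ1, hψ2, hψ3, hψ4, hψ5, hψ6⟩ := h'
  set v : ℂ := n' - n with hv
  have h1 : fderiv ℝ φ z v < 0 := by
    rw [hφ6 v]
    exact mul_neg_of_pos_of_neg (norm_pos_iff.2 hφ3) (re_conj_mul_self_sub hφ5 hψ5 hne)
  have h2 : 0 < fderiv ℝ ψ z v := by
    rw [hψ6 v]
    refine mul_pos (norm_pos_iff.2 hψ3) ?_
    have := re_conj_mul_self_sub hψ5 hφ5 (Ne.symm hne)
    have e : conj n' * v = -(conj n' * (n - n')) := by rw [hv]; ring
    rw [e, Complex.neg_re]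
    linarith
  -- along the ray
  have hline : HasDerivAt (fun t : ℝ => z + (t : ℂ) * v) v 0 := by
    have := ((Complex.ofRealCLM.hasDerivAt (x := (0 : ℝ))).mul_const v).const_add z
    simpa using this
  have hz : z + ((0 : ℝ) : ℂ) * v = z := by simp
  have hφd : HasDerivAt (fun t : ℝ => φ (z + (t : ℂ) * v)) (fderiv ℝ φ z v) 0 := by
    have hd : HasFDerivAt φ (fderiv ℝ φ z) (z + ((0 : ℝ) : ℂ) * v) := by
      rw [hz]; exact (hφ1.differentiableAt (by simp)).hasFDerivAt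
    exact hd.comp_hasDerivAt (0 : ℝ) hline
  have hψd : HasDerivAt (fun t : ℝ => ψ (z + (t : ℂ) * v)) (fderiv ℝ ψ z v) 0 := by
    have hd : HasFDerivAt ψ (fderiv ℝ ψ z) (z + ((0 : ℝ) : ℂ) * v) := by
      rw [hz]; exact (hψ1.differentiableAt (by simp)).hasFDerivAt
    exact hd.comp_hasDerivAt (0 : ℝ) hline
  have ht : Filter.Tendsto (fun t : ℝ => z + (t : ℂ) * v) (𝓝[>] 0) (𝓝 z) := by
    have := hline.continuousAt.tendsto
    rw [hz] at this
    exact this.mono_left nhdsWithin_le_nhds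
  have e1 : ∀ᶠ t : ℝ in 𝓝[>] 0, φ (z + (t : ℂ) * v) < 0 := by
    have hs := (hasDerivAt_iff_tendsto_slope.1 hφd)
    have h3 : ∀ᶠ t : ℝ in 𝓝[≠] 0, slope (fun t : ℝ => φ (z + (t : ℂ) * v)) 0 t < 0 :=
      hs.eventually (gt_mem_nhds h1)
    have h4 := h3.filter_mono (nhdsWithin_mono (0 : ℝ) (fun t (ht : t ∈ Set.Ioi (0 : ℝ)) =>
      ne_of_gt ht : Set.Ioi (0 : ℝ) ⊆ {0}ᶜ))
    filter_upwards [h4, self_mem_nhdsWithin] with t ht1 ht2
    rw [slope_def_field, hz, hφ2, sub_zero, sub_zero] at ht1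
    have ht3 : (0 : ℝ) < t := ht2
    by_contra hcon
    rw [not_lt] at hcon
    exact absurd (div_nonneg hcon ht3.le) (not_le.2 ht1)
  have e2 : ∀ᶠ t : ℝ in 𝓝[>] 0, 0 < ψ (z + (t : ℂ) * v) := by
    have hs := (hasDerivAt_iff_tendsto_slope.1 hψd)
    have h3 : ∀ᶠ t : ℝ in 𝓝[≠] 0, 0 < slope (fun t : ℝ => ψ (z + (t : ℂ) * v)) 0 t :=
      hs.eventually (lt_mem_nhds h2)
    have h4 := h3.filter_mono (nhdsWithin_mono (0 : ℝ) (fun t (ht : t ∈ Set.Ioi (0 : ℝ)) =>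
      ne_of_gt ht : Set.Ioi (0 : ℝ) ⊆ {0}ᶜ))
    filter_upwards [h4, self_mem_nhdsWithin] with t ht1 ht2
    rw [slope_def_field, hz, hψ2, sub_zero, sub_zero] at ht1
    have ht3 : (0 : ℝ) < t := ht2
    by_contra hcon
    rw [not_lt] at hcon
    exact absurd (div_nonpos_of_nonpos_of_nonneg hcon ht3.le) (not_le.2 ht1)
  have e3 := ht.eventually hφ4
  have e4 := ht.eventually hψ4
  obtain ⟨t, ⟨⟨f1, f2⟩, f3⟩, f4⟩ := (((e1.and e2).and e3).and e4).exists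
  exact absurd (f4.1 (f3.2 f1.le)) (not_le.2 f2)

end Pool.Agent.Stek
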