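import Pool.Agent.Stek.TFun

/-!
# G2: the compact set `fillK g`
-/

open scoped BigOperators ComplexConjugate Topology ContDiff
open Complex Metric InnerProductSpace

noncomputable section

namespace Pool.Agent.Stek

namespace HG2

theorem rr_pos : (0 : ℝ) < rr := by norm_num [rr]

theorem rr_le : rr ≤ 1 / 10 ^ 6 := by norm_num [rr]

theorem eps_pos : (0 : ℝ) < eps := by norm_num [eps]

theorem eps_rr_le : eps * rr ≤ 1 / 10 ^ 6 := by norm_num [rr, eps]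

theorem eps_rr_le_rr : eps * rr ≤ rr := by norm_num [rr, eps]

/-- Annuli in the plane are connected. -/
theorem isConnected_annulus {I : Set ℝ} (hI : IsConnected I) (hpos : ∀ t ∈ I, 0 < t) :
    IsConnected {z : ℂ | ‖z‖ ∈ I} := by
  have h1 : {z : ℂ | ‖z‖ ∈ I} =
      (fun p : ℝ × ℝ => (p.1 : ℂ) * Complex.exp (p.2 * Complex.I)) '' (I ×ˢ Set.univ) := by
    ext z
    constructor
    · intro hz
      exact ⟨(‖z‖, z.arg), ⟨hz, trivial⟩, Complex.norm_mul_exp_arg_mul_I z⟩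
    · rintro ⟨⟨t, θ⟩, ⟨ht, -⟩, rfl⟩
      have := hpos t ht
      change ‖(t : ℂ) * Complex.exp (θ * Complex.I)‖ ∈ I
      rw [norm_mul, Complex.norm_exp_ofReal_mul_I, mul_one, Complex.norm_real, Real.norm_eq_abs,
        abs_of_pos this]
      exact ht
  rw [h1]
  refine (hI.prod isConnected_univ).image _ (Continuous.continuousOn ?_)
  fun_prop

/-- The properties of `Fm g` and of its inverse used below. -/
structure Inv (F G : ℂ → ℂ) : Prop where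
  cF : ∀ ζ, rr < ‖ζ‖ → ContinuousAt F ζ
  nF : ∀ ζ, rr ≤ ‖ζ‖ → ‖F ζ - ζ‖ ≤ eps * rr
  cG : ContinuousOn G {z | 2 * rr < ‖z‖}
  gG : ∀ z, 2 * rr < ‖z‖ → rr < ‖G z‖ ∧ F (G z) = z ∧ ‖G z - z‖ ≤ eps * rr
  gF : ∀ ζ, 3 * rr < ‖ζ‖ → G (F ζ) = ζ

theorem isOpen_outer (a : ℝ) : IsOpen {z : ℂ | a < ‖z‖} :=
  isOpen_lt continuous_const continuous_norm

theorem exists_inv (hF1 : F1) (hF2 : F2) {g : ℕ → ℂ} (hg : Gb (2 * eps) g) :
    ∃ G : ℂ → ℂ, Inv (Fm g) G ∧ DifferentiableOn ℂ G {z | 2 * rr < ‖z‖} := by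
  obtain ⟨h1, h2, -, -⟩ := hF1 g hg
  obtain ⟨G, h3, h4, h5⟩ := hF2 g hg
  exact ⟨G, ⟨fun ζ hζ => (h1.differentiableAt ((isOpen_outer rr).mem_nhds hζ)).continuousAt, h2,
    h3.continuousOn, h4, h5⟩, h3⟩

section

variable {g : ℕ → ℂ} {G : ℂ → ℂ}

theorem Inv.norm_lt (h : Inv (Fm g) G) {ζ : ℂ} {a : ℝ} (hζ : rr ≤ ‖ζ‖) (ha : ‖ζ‖ + 1 / 10 ^ 6 < a) :
    ‖Fm g ζ‖ < a := by
  have h1 := h.nF ζ hζ
  have h2 := norm_sub_norm_le (Fm g ζ) ζ
  have h3 := eps_rr_le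
  linarith

theorem Inv.lt_norm (h : Inv (Fm g) G) {ζ : ℂ} {a : ℝ} (hζ : rr ≤ ‖ζ‖) (ha : a < ‖ζ‖ - 1 / 10 ^ 6) :
    a < ‖Fm g ζ‖ := by
  have h1 := h.nF ζ hζ
  have h2 := norm_sub_norm_le ζ (Fm g ζ)
  rw [norm_sub_rev] at h2
  have h3 := eps_rr_le
  linarith

theorem Inv.G_lt (h : Inv (Fm g) G) {z : ℂ} {a : ℝ} (hz : 2 * rr < ‖z‖) (ha : ‖z‖ + 1 / 10 ^ 6 < a) :
    ‖G z‖ < a := by
  have h1 := (h.gG z hz).2.2
  have h2 := norm_sub_norm_le (G z) z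
  have h3 := eps_rr_le
  linarith

theorem Inv.lt_G (h : Inv (Fm g) G) {z : ℂ} {a : ℝ} (hz : 2 * rr < ‖z‖) (ha : a < ‖z‖ - 1 / 10 ^ 6) :
    a < ‖G z‖ := by
  have h1 := (h.gG z hz).2.2
  have h2 := norm_sub_norm_le z (G z)
  rw [norm_sub_rev] at h2
  have h3 := eps_rr_le
  linarith

/-- Away from the origin `fillK g` is the set `‖G z‖ ≤ 1`. -/
theorem Inv.mem_iff (h : Inv (Fm g) G) {z : ℂ} (hz : 2 / 5 < ‖z‖) : z ∈ fillK g ↔ ‖G z‖ ≤ 1 := by
  have hr := rr_le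
  have hz2 : 2 * rr < ‖z‖ := by linarith
  constructor
  · rintro (h1 | ⟨ζ, ⟨h1, h2⟩, rfl⟩)
    · rw [mem_closedBall_zero_iff] at h1
      exact (h.G_lt hz2 (by linarith)).le
    · rw [h.gF ζ (by linarith)]
      exact h2
  · intro h1
    exact Or.inr ⟨G z, ⟨(h.lt_G hz2 (by linarith)).le, h1⟩, (h.gG z hz2).2.1⟩

/-- The interior of `fillK g`. -/
def inK (G : ℂ → ℂ) : Set ℂ := ball 0 (1 / 2) ∪ ({z | 2 * rr < ‖z‖} ∩ G ⁻¹' ball 0 1)

theorem Inv.isOpen_inK (h : Inv (Fm g) G) : IsOpen (inK G) :=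
  isOpen_ball.union (h.cG.isOpen_inter_preimage (isOpen_outer _) isOpen_ball)

theorem Inv.inK_subset (h : Inv (Fm g) G) : inK G ⊆ fillK g := by
  rintro z (h1 | ⟨h1, h2⟩)
  · exact Or.inl (ball_subset_closedBall h1)
  · rcases le_or_gt ‖z‖ (1 / 2) with h3 | h3
    · exact Or.inl (mem_closedBall_zero_iff.2 h3)
    · have h2' : ‖G z‖ < 1 := mem_ball_zero_iff.1 h2
      exact (h.mem_iff (by linarith)).2 h2'.le

theorem Inv.ball_subset_inK (h : Inv (Fm g) G) : ball 0 (9 / 10) ⊆ inK G := by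
  intro z hz
  rw [mem_ball_zero_iff] at hz
  rcases lt_or_ge ‖z‖ (1 / 2) with h3 | h3
  · exact Or.inl (mem_ball_zero_iff.2 h3)
  · have hr := rr_le
    have h4 : 2 * rr < ‖z‖ := by linarith
    exact Or.inr ⟨h4, mem_ball_zero_iff.2 (h.G_lt h4 (by linarith))⟩

theorem Inv.Fm_mem_inK (h : Inv (Fm g) G) {ζ : ℂ} (h1 : rr < ‖ζ‖) (h2 : ‖ζ‖ < 1) :
    Fm g ζ ∈ inK G := by
  have hr := rr_le
  rcases le_or_gt ‖ζ‖ (1 / 4) with h3 | h3
  · exact Or.inl (mem_ball_zero_iff.2 (h.norm_lt h1.le (by linarith)))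
  · refine Or.inr ⟨h.lt_norm h1.le (by linarith), ?_⟩
    change G (Fm g ζ) ∈ ball 0 1
    rw [h.gF ζ (by linarith)]
    exact mem_ball_zero_iff.2 h2

theorem Inv.Fm_notMem (h : Inv (Fm g) G) {ζ : ℂ} (h1 : 1 < ‖ζ‖) : Fm g ζ ∉ fillK g := by
  have hr := rr_le
  rw [h.mem_iff (h.lt_norm (by linarith) (by linarith)), h.gF ζ (by linarith)]
  exact not_le.2 h1

theorem Inv.Fm_mem (h : Inv (Fm g) G) {ζ : ℂ} (h1 : rr < ‖ζ‖) (h2 : ‖ζ‖ ≤ 1) :
    Fm g ζ ∈ fillK g := by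
  rcases le_or_gt (1 / 4) ‖ζ‖ with h3 | h3
  · exact Or.inr ⟨ζ, ⟨h3, h2⟩, rfl⟩
  · exact h.inK_subset (h.Fm_mem_inK h1 (by linarith))

theorem Inv.isCompact (h : Inv (Fm g) G) : IsCompact (fillK g) := by
  refine (isCompact_closedBall _ _).union (IsCompact.image_of_continuousOn ?_ ?_)
  · have h1 : {ζ : ℂ | 1 / 4 ≤ ‖ζ‖ ∧ ‖ζ‖ ≤ 1} = closedBall 0 1 ∩ {ζ : ℂ | 1 / 4 ≤ ‖ζ‖} := by
      ext ζ
      constructor
      · rintro ⟨h1, h2⟩
        exact ⟨mem_closedBall_zero_iff.2 h2, h1⟩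
      · rintro ⟨h1, h2⟩
        exact ⟨h2, mem_closedBall_zero_iff.1 h1⟩
    rw [h1]
    exact (isCompact_closedBall _ _).inter_right (isClosed_le continuous_const continuous_norm)
  · rintro ζ ⟨h1, h2⟩
    have hr := rr_le
    exact (h.cF ζ (by linarith)).continuousWithinAt

theorem Inv.isConnected (h : Inv (Fm g) G) : IsConnected (fillK g) := by
  have hr := rr_le
  have hq : ‖((1 / 4 : ℝ) : ℂ)‖ = 1 / 4 := by
    rw [Complex.norm_real, Real.norm_eq_abs, abs_of_pos (by norm_num)]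
  refine IsConnected.union ⟨Fm g ((1 / 4 : ℝ) : ℂ), ?_, ?_⟩ ?_ ?_
  · exact mem_closedBall_zero_iff.2 (h.norm_lt (by rw [hq]; linarith) (by rw [hq]; norm_num)).le
  · exact ⟨_, ⟨by rw [hq], by rw [hq]; norm_num⟩, rfl⟩
  · exact (convex_closedBall _ _).isConnected ⟨0, mem_closedBall_self (by norm_num)⟩
  · refine (isConnected_annulus (I := Set.Icc (1 / 4) 1) (isConnected_Icc (by norm_num))
      fun t ht => by linarith [ht.1]).image _ ?_
    rintro ζ ⟨h1, h2⟩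
    exact (h.cF ζ (by linarith)).continuousWithinAt

theorem Inv.inK_eq (h : Inv (Fm g) G) :
    inK G = ball 0 (1 / 2) ∪ Fm g '' {ζ | ‖ζ‖ ∈ Set.Ioo (1 / 4 : ℝ) 1} := by
  have hr := rr_le
  have hr0 := rr_pos
  apply Set.Subset.antisymm
  · rintro z (h1 | ⟨h1, h2⟩)
    · exact Or.inl h1
    · rcases lt_or_ge ‖z‖ (1 / 2) with h3 | h3
      · exact Or.inl (mem_ball_zero_iff.2 h3)
      · exact Or.inr ⟨G z, ⟨h.lt_G h1 (by linarith), mem_ball_zero_iff.1 h2⟩, (h.gG z h1).2.1⟩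
  · rintro z (h1 | ⟨ζ, ⟨h1, h2⟩, rfl⟩)
    · exact Or.inl h1
    · exact h.Fm_mem_inK (by linarith) h2

theorem Inv.isConnected_inK (h : Inv (Fm g) G) : IsConnected (inK G) := by
  have hr := rr_le
  have hq : ‖((1 / 3 : ℝ) : ℂ)‖ = 1 / 3 := by
    rw [Complex.norm_real, Real.norm_eq_abs, abs_of_pos (by norm_num)]
  rw [h.inK_eq]
  refine IsConnected.union ⟨Fm g ((1 / 3 : ℝ) : ℂ), ?_, ?_⟩ ?_ ?_
  · exact mem_ball_zero_iff.2 (h.norm_lt (by rw [hq]; linarith) (by rw [hq]; norm_num))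
  · refine ⟨_, ?_, rfl⟩
    change ‖((1 / 3 : ℝ) : ℂ)‖ ∈ Set.Ioo (1 / 4 : ℝ) 1
    rw [hq]
    constructor <;> norm_num
  · exact (convex_ball _ _).isConnected ⟨0, mem_ball_self (by norm_num)⟩
  · refine (isConnected_annulus (I := Set.Ioo (1 / 4) 1) (isConnected_Ioo (by norm_num))
      fun t ht => by linarith [ht.1]).image _ ?_
    rintro ζ ⟨h1, h2⟩
    exact (h.cF ζ (by linarith)).continuousWithinAt

/-- Points `t ζ` with `t → 1`. -/
theorem tendsto_ray (h : Inv (Fm g) G) {ζ : ℂ} (hζ : ‖ζ‖ = 1) :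
    Filter.Tendsto (fun t : ℝ => Fm g ((t : ℂ) * ζ)) (𝓝 1) (𝓝 (Fm g ζ)) := by
  have hr := rr_le
  have h1 : ContinuousAt (Fm g) (((1 : ℝ) : ℂ) * ζ) := by
    apply h.cF
    rw [Complex.ofReal_one, one_mul, hζ]
    linarith
  have h2 : ContinuousAt (fun t : ℝ => (t : ℂ) * ζ) 1 := by fun_prop
  have h3 := ContinuousAt.comp (f := fun t : ℝ => (t : ℂ) * ζ) (x := (1 : ℝ)) h1 h2
  have h4 : Filter.Tendsto (fun t : ℝ => Fm g ((t : ℂ) * ζ)) (𝓝 1) (𝓝 (Fm g (((1 : ℝ) : ℂ) * ζ))) := h3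
  rwa [Complex.ofReal_one, one_mul] at h4

theorem norm_ray {ζ : ℂ} (hζ : ‖ζ‖ = 1) {t : ℝ} (ht : 0 < t) : ‖(t : ℂ) * ζ‖ = t := by
  rw [norm_mul, hζ, mul_one, Complex.norm_real, Real.norm_eq_abs, abs_of_pos ht]

theorem Inv.mem_closure_inK (h : Inv (Fm g) G) {ζ : ℂ} (hζ : ‖ζ‖ = 1) :
    Fm g ζ ∈ closure (inK G) := by
  have hr := rr_le
  refine mem_closure_of_tendsto
    ((tendsto_ray h hζ).mono_left (nhdsWithin_le_nhds (s := Set.Iio 1))) ?_
  have h1 : ∀ᶠ t : ℝ in 𝓝[<] 1, 1 / 2 < t :=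
    nhdsWithin_le_nhds (eventually_gt_nhds (by norm_num))
  filter_upwards [h1, self_mem_nhdsWithin] with t ht1 ht2
  have ht3 : t < 1 := ht2
  have := norm_ray hζ (t := t) (by linarith)
  exact h.Fm_mem_inK (by linarith) (by linarith)

theorem Inv.notMem_interior (h : Inv (Fm g) G) {ζ : ℂ} (hζ : ‖ζ‖ = 1) :
    Fm g ζ ∉ interior (fillK g) := by
  intro hi
  have h1 : ∀ᶠ t : ℝ in 𝓝[>] 1, Fm g ((t : ℂ) * ζ) ∈ interior (fillK g) :=
    (tendsto_ray h hζ).mono_left (nhdsWithin_le_nhds (s := Set.Ioi 1))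
      |>.eventually (isOpen_interior.mem_nhds hi)
  obtain ⟨t, ht1, ht2⟩ := (h1.and self_mem_nhdsWithin).exists
  have ht3 : 1 < t := ht2
  have := norm_ray hζ (t := t) (by linarith)
  exact h.Fm_notMem (by linarith) (interior_subset ht1)

theorem Inv.interior_eq (h : Inv (Fm g) G) : interior (fillK g) = inK G := by
  have hr := rr_le
  apply Set.Subset.antisymm
  · intro z hz
    rcases lt_or_ge ‖z‖ (1 / 2) with h3 | h3
    · exact Or.inl (mem_ball_zero_iff.2 h3)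
    · have h4 : 2 * rr < ‖z‖ := by linarith
      have h5 := (h.mem_iff (z := z) (by linarith)).1 (interior_subset hz)
      rcases h5.lt_or_eq with h6 | h6
      · exact Or.inr ⟨h4, mem_ball_zero_iff.2 h6⟩
      · exfalso
        refine h.notMem_interior h6 ?_
        rw [(h.gG z h4).2.1]
        exact hz
  · exact interior_maximal h.inK_subset h.isOpen_inK

theorem Inv.frontier_eq (h : Inv (Fm g) G) : frontier (fillK g) = Fm g '' {ζ | ‖ζ‖ = 1} := by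
  have hr := rr_le
  rw [h.isCompact.isClosed.frontier_eq]
  apply Set.Subset.antisymm
  · rintro z ⟨h1, h2⟩
    rw [h.interior_eq] at h2
    have h3 : 1 / 2 ≤ ‖z‖ := by
      by_contra h3
      exact h2 (Or.inl (mem_ball_zero_iff.2 (not_le.1 h3)))
    have h4 : 2 * rr < ‖z‖ := by linarith
    have h5 := (h.mem_iff (z := z) (by linarith)).1 h1
    refine ⟨G z, ?_, (h.gG z h4).2.1⟩
    rcases h5.lt_or_eq with h6 | h6
    · exact absurd (Or.inr ⟨h4, mem_ball_zero_iff.2 h6⟩) h2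
    · exact h6
  · rintro _ ⟨ζ, hζ, rfl⟩
    have hζ' : ‖ζ‖ = 1 := hζ
    exact ⟨h.Fm_mem (by linarith) hζ'.le, h.notMem_interior hζ'⟩

theorem Inv.closure_eq (h : Inv (Fm g) G) : closure (interior (fillK g)) = fillK g := by
  apply Set.Subset.antisymm
  · exact closure_minimal interior_subset h.isCompact.isClosed
  · intro z hz
    by_cases hi : z ∈ interior (fillK g)
    · exact subset_closure hi
    · have h1 : z ∈ frontier (fillK g) := by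
        rw [h.isCompact.isClosed.frontier_eq]
        exact ⟨hz, hi⟩
      rw [h.frontier_eq] at h1
      obtain ⟨ζ, hζ, rfl⟩ := h1
      rw [h.interior_eq]
      exact h.mem_closure_inK hζ

theorem Inv.subset_ball (h : Inv (Fm g) G) : fillK g ⊆ ball 0 (11 / 10) := by
  have hr := rr_le
  rintro z (h1 | ⟨ζ, ⟨h1, h2⟩, rfl⟩)
  · rw [mem_closedBall_zero_iff] at h1
    exact mem_ball_zero_iff.2 (by linarith)
  · exact mem_ball_zero_iff.2 (h.norm_lt (by linarith) (by linarith))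

end

end HG2

theorem g2 (hF1 : F1) (hF2 : F2) : G2 := by
  intro g hg
  obtain ⟨G, h, -⟩ := HG2.exists_inv hF1 hF2 hg
  refine ⟨h.isCompact, h.isConnected, ?_, h.closure_eq, h.frontier_eq, h.subset_ball, ?_, ?_, ?_⟩
  · rw [h.interior_eq]
    exact h.isConnected_inK.isPreconnected
  · rw [h.interior_eq]
    exact h.ball_subset_inK
  · intro ζ h1 h2
    rw [h.interior_eq]
    exact h.Fm_mem_inK h1 h2
  · intro ζ h1
    exact h.Fm_notMem h1

end Pool.Agent.Stek
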