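import Pool.Agent.Stek.TFun

/-!
# G3: the outward normals of `fillK g`
-/

open scoped BigOperators ComplexConjugate Topology ContDiff
open Complex Metric InnerProductSpace

noncomputable section

namespace Pool.Agent.Stek

namespace G3aux

lemma rr_pos : 0 < rr := by unfold rr; norm_num
lemma rr_small : rr ≤ 1 / 1000 := by unfold rr; norm_num
lemma eps_pos : 0 < eps := by unfold eps; norm_num
lemma eps_small : eps ≤ 1 / 1000 := by unfold eps; norm_num
lemma epsrr_small : eps * rr ≤ 1 / 1000 := by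
  have := rr_small
  have := eps_small
  have := rr_pos
  have := eps_pos
  nlinarith

/-- the real functional `v ↦ c Re (conj n v)` has norm `c` -/
lemma norm_functional (L : ℂ →L[ℝ] ℝ) (c : ℝ) (n : ℂ) (hc : 0 ≤ c) (hn : ‖n‖ = 1)
    (h : ∀ v, L v = c * (conj n * v).re) : ‖L‖ = c := by
  apply le_antisymm
  · apply L.opNorm_le_bound hc
    intro v
    rw [h v, norm_mul, Real.norm_eq_abs, abs_of_nonneg hc]
    apply mul_le_mul_of_nonneg_left _ hc
    rw [Real.norm_eq_abs]
    calc |(conj n * v).re| ≤ ‖conj n * v‖ := abs_re_le_norm _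
      _ = ‖v‖ := by rw [norm_mul, RCLike.norm_conj, hn, one_mul]
  · have h1 := L.le_opNorm n
    have h2 : (conj n * n).re = 1 := by
      rw [← normSq_eq_conj_mul_self, ofReal_re, normSq_eq_norm_sq, hn]; norm_num
    rw [h n, h2, mul_one, hn, mul_one, Real.norm_eq_abs, abs_of_nonneg hc] at h1
    exact h1

/-- normals of a level set `‖G‖ = 1` of a holomorphic function -/
lemma level_normal (K : Set ℂ) (G : ℂ → ℂ) (z D ζ : ℂ) (hG : AnalyticAt ℂ G z) (hz : G z = ζ)
    (hζ : ‖ζ‖ = 1) (hD : D ≠ 0) (hd : deriv G z = D⁻¹)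
    (hK : ∀ᶠ w in 𝓝 z, w ∈ K ↔ ‖G w‖ ≤ 1) :
    IsOutwardNormal K z (D * ζ / ‖D‖) := by
  have hDn : 0 < ‖D‖ := norm_pos_iff.2 hD
  have hn : ‖D * ζ / ‖D‖‖ = 1 := by
    rw [norm_div, norm_mul, hζ, mul_one, norm_real, norm_norm, div_self hDn.ne']
  have hsm : ContDiffAt ℝ ∞ (fun w => ‖G w‖ ^ 2 - 1) z := by
    have h1 : ContDiffAt ℝ ∞ G z := (hG.contDiffAt (n := ∞)).restrict_scalars ℝ
    exact (h1.norm_sq ℝ).sub contDiffAt_const
  have hder : ∀ v : ℂ, fderiv ℝ (fun w => ‖G w‖ ^ 2 - 1) z v =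
      (2 / ‖D‖) * (conj (D * ζ / ‖D‖) * v).re := by
    intro v
    have h1 : HasFDerivAt G ((ContinuousLinearMap.toSpanSingleton ℂ D⁻¹).restrictScalars ℝ) z := by
      have h2 : HasDerivAt G D⁻¹ z := by
        rw [← hd]
        exact hG.differentiableAt.hasDerivAt
      exact h2.hasFDerivAt.restrictScalars ℝ
    have h3 := h1.norm_sq
    have h4 : HasFDerivAt (fun w => ‖G w‖ ^ 2 - 1) _ z := h3.sub_const 1
    rw [h4.fderiv]
    simp only [smul_apply, ContinuousLinearMap.comp_apply, hz,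
      ContinuousLinearMap.coe_restrictScalars', innerSL_apply_apply, Complex.inner,
      ContinuousLinearMap.toSpanSingleton_apply, smul_eq_mul]
    have h5 : conj (D * ζ / ‖D‖) * v = (conj ζ * (v * D⁻¹)) * ‖D‖ := by
      rw [map_div₀, map_mul, conj_ofReal]
      have h6 : conj D * D = (‖D‖ : ℂ) ^ 2 := by
        rw [← normSq_eq_conj_mul_self, normSq_eq_norm_sq]; push_cast; ring
      have h7 : (‖D‖ : ℂ) ≠ 0 := by exact_mod_cast hDn.ne'
      field_simp
      linear_combination (conj ζ * v) * h6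
    rw [h5, re_mul_ofReal, nsmul_eq_mul]
    field_simp
    push_cast
    ring
  have hnorm : ‖fderiv ℝ (fun w => ‖G w‖ ^ 2 - 1) z‖ = 2 / ‖D‖ :=
    norm_functional _ _ _ (by positivity) hn hder
  refine ⟨fun w => ‖G w‖ ^ 2 - 1, hsm, ?_, ?_, ?_, hn, ?_⟩
  · simp only [hz, hζ]; norm_num
  · intro h0
    rw [h0, norm_zero] at hnorm
    have : 0 < 2 / ‖D‖ := by positivity
    linarith
  · filter_upwards [hK] with w hw
    rw [hw]
    constructor
    · intro h
      have : ‖G w‖ ^ 2 ≤ 1 := pow_le_one₀ (norm_nonneg _) h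
      linarith
    · intro h
      have h2 : ‖G w‖ ^ 2 ≤ 1 ^ 2 := by linarith
      exact (pow_le_pow_iff_left₀ (norm_nonneg _) zero_le_one two_ne_zero).1 h2
  · intro v
    rw [hnorm]
    exact hder v

end G3aux

open G3aux

theorem g3 (h1 : F1) (h2 : F2) : G3 := by
  intro g hg ζ hζ
  obtain ⟨f1, f2, -, f4⟩ := h1 g hg
  obtain ⟨G, g1, g2, g3⟩ := h2 g hg
  have hr := rr_pos
  have hr' := rr_small
  have he := eps_small
  have her := epsrr_small
  have hopen : IsOpen {z : ℂ | 2 * rr < ‖z‖} := isOpen_lt continuous_const continuous_norm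
  have hnear : ‖Fm g ζ - ζ‖ ≤ eps * rr := f2 ζ (by rw [hζ]; linarith)
  have hz0 : 9 / 10 < ‖Fm g ζ‖ := by
    have := norm_sub_norm_le ζ (ζ - Fm g ζ)
    rw [sub_sub_cancel, norm_sub_rev ζ] at this
    linarith
  have hmem : Fm g ζ ∈ {z : ℂ | 2 * rr < ‖z‖} := by
    simp only [Set.mem_ofPred_eq]; linarith
  have hGan : AnalyticAt ℂ G (Fm g ζ) := (g1.analyticOnNhd hopen) _ hmem
  have hGz : G (Fm g ζ) = ζ := g3 ζ (by rw [hζ]; linarith)
  have hopen' : IsOpen {z : ℂ | rr < ‖z‖} := isOpen_lt continuous_const continuous_norm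
  have hFd : DifferentiableAt ℂ (Fm g) ζ :=
    f1.differentiableAt (hopen'.mem_nhds (by simp only [Set.mem_ofPred_eq]; rw [hζ]; linarith))
  have hD : deriv (Fm g) ζ ≠ 0 := by
    intro h0
    have := f4 ζ (by rw [hζ]; linarith)
    rw [h0] at this
    simp at this
    linarith
  have hder : deriv G (Fm g ζ) = (deriv (Fm g) ζ)⁻¹ := by
    have h5 : HasDerivAt (fun x => G (Fm g x)) (deriv G (Fm g ζ) * deriv (Fm g) ζ) ζ :=
      hGan.differentiableAt.hasDerivAt.comp ζ hFd.hasDerivAt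
    have h6 : (fun x => G (Fm g x)) =ᶠ[𝓝 ζ] id := by
      have hop : IsOpen {z : ℂ | 3 * rr < ‖z‖} := isOpen_lt continuous_const continuous_norm
      filter_upwards [hop.mem_nhds (show ζ ∈ {z : ℂ | 3 * rr < ‖z‖} by
        simp only [Set.mem_ofPred_eq]; rw [hζ]; linarith)] with x hx
      exact g3 x hx
    have h7 : HasDerivAt (fun x => G (Fm g x)) 1 ζ := (hasDerivAt_id ζ).congr_of_eventuallyEq h6
    have h8 := h5.unique h7
    exact eq_inv_of_mul_eq_one_left h8
  apply level_normal (fillK g) G (Fm g ζ) (deriv (Fm g) ζ) ζ hGan hGz hζ hD hder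
  have hop : IsOpen {z : ℂ | 9 / 10 < ‖z‖} := isOpen_lt continuous_const continuous_norm
  filter_upwards [hop.mem_nhds hz0] with w hw
  have hw' : 9 / 10 < ‖w‖ := hw
  obtain ⟨w1, w2, w3⟩ := g2 w (by linarith)
  constructor
  · intro hwK
    rcases hwK with h | ⟨x, ⟨hx1, hx2⟩, rfl⟩
    · simp only [mem_closedBall, dist_zero_right] at h
      linarith
    · rw [g3 x (by linarith)]
      exact hx2
  · intro hle
    right
    refine ⟨G w, ⟨?_, hle⟩, w2⟩
    have := norm_sub_norm_le w (w - G w)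
    rw [sub_sub_cancel, norm_sub_rev w] at this
    linarith

end Pool.Agent.Stek
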