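import Pool.Agent.Stek.TFun

open scoped BigOperators ComplexConjugate Topology ContDiff
open Complex Metric InnerProductSpace

noncomputable section

namespace Pool.Agent.Stek

namespace PG4

/-- The logarithm of the conformal factor of the second surface. -/
def lam (g : ℕ → ℂ) (G : ℂ → ℂ) (z : ℂ) : ℝ :=
  Real.smoothTransition (8 * ‖z‖ ^ 2 - 1) * (-Real.log ‖deriv (Fm g) (G z)‖)

theorem rr_pos : 0 < rr := by unfold rr; positivity

theorem rr_le : rr ≤ 1 / 10 ^ 6 := by unfold rr; norm_num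

theorem eps_pos : 0 < eps := by unfold eps; positivity

theorem eps_le : eps ≤ 1 / 10 := by unfold eps; norm_num

theorem holo_contDiffAt {f : ℂ → ℂ} {S : Set ℂ} {z : ℂ} (hf : DifferentiableOn ℂ f S)
    (hS : S ∈ 𝓝 z) : ContDiffAt ℝ ∞ f z :=
  ((hf.analyticAt hS).contDiffAt (n := ∞)).restrict_scalars ℝ

theorem lam_smooth {g : ℕ → ℂ} {G : ℂ → ℂ}
    (f1 : DifferentiableOn ℂ (Fm g) {ζ | rr < ‖ζ‖})
    (f1d : ∀ ζ, rr < ‖ζ‖ → ‖deriv (Fm g) ζ - 1‖ ≤ eps)
    (g1 : DifferentiableOn ℂ G {z | 2 * rr < ‖z‖})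
    (g2 : ∀ z, 2 * rr < ‖z‖ → rr < ‖G z‖) (z : ℂ) : ContDiffAt ℝ ∞ (lam g G) z := by
  rcases lt_or_ge (8 * ‖z‖ ^ 2 - 1) 0 with h | h
  · have hev : ∀ᶠ w in 𝓝 z, lam g G w = 0 := by
      have hc : ContinuousAt (fun w : ℂ => 8 * ‖w‖ ^ 2 - 1) z := by fun_prop
      filter_upwards [hc.eventually_lt continuousAt_const h] with w hw
      rw [lam, Real.smoothTransition.zero_of_nonpos hw.le, zero_mul]
    exact (contDiffAt_const (c := (0 : ℝ))).congr_of_eventuallyEq hev
  · have hz : 2 * rr < ‖z‖ := by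
      have h1 := rr_le
      have h2 := rr_pos
      nlinarith [norm_nonneg z]
    have o1 : IsOpen {z : ℂ | 2 * rr < ‖z‖} := isOpen_lt continuous_const continuous_norm
    have o2 : IsOpen {z : ℂ | rr < ‖z‖} := isOpen_lt continuous_const continuous_norm
    have cG : ContDiffAt ℝ ∞ G z := holo_contDiffAt g1 (o1.mem_nhds hz)
    have cF : ContDiffAt ℝ ∞ (deriv (Fm g)) (G z) :=
      holo_contDiffAt (f1.deriv o2) (o2.mem_nhds (g2 z hz))
    have hne : deriv (Fm g) (G z) ≠ 0 := by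
      intro h0
      have := f1d (G z) (g2 z hz)
      rw [h0, zero_sub, norm_neg, norm_one] at this
      linarith [eps_le]
    have c1 : ContDiffAt ℝ ∞ (fun w : ℂ => deriv (Fm g) (G w)) z := cF.comp z cG
    have c2 : ContDiffAt ℝ ∞ (fun w : ℂ => ‖deriv (Fm g) (G w)‖) z := c1.norm ℝ hne
    have c3 : ContDiffAt ℝ ∞ (fun w : ℂ => -Real.log ‖deriv (Fm g) (G w)‖) z :=
      (c2.log (norm_ne_zero_iff.mpr hne)).neg
    have c4 : ContDiffAt ℝ ∞ (fun w : ℂ => Real.smoothTransition (8 * ‖w‖ ^ 2 - 1)) z := by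
      apply ContDiffAt.comp z Real.smoothTransition.contDiffAt
      exact ((contDiff_const.mul (contDiff_norm_sq ℝ)).sub contDiff_const).contDiffAt
    exact c4.mul c3

end PG4

theorem g4 (f1 : F1) (f2 : F2) (g2 : G2) (g3 : G3) : G4 := by
  intro g hg
  obtain ⟨a1, a2, -, a4⟩ := f1 g hg
  obtain ⟨G, b1, b2, b3⟩ := f2 g hg
  obtain ⟨c1, c2, -, -, c5, -⟩ := g2 g hg
  refine ⟨{ K := fillK g
            compact := c1
            connected := c2
            smooth_boundary := ?_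
            lam := PG4.lam g G
            lam_smooth := fun z _ => PG4.lam_smooth a1 a4 b1 (fun z hz => (b2 z hz).1) z
            iota := id
            iota_smooth := fun z _ => contDiffAt_id
            iota_maps := fun z hz => hz
            iota_iota := fun z _ => rfl
            iota_isometry := ?_
            iota_free := Or.inl fun z _ => rfl }, rfl, rfl, ?_⟩
  · intro z hz
    rw [c5] at hz
    obtain ⟨ζ, h1, rfl⟩ := hz
    exact ⟨_, g3 g hg ζ h1⟩
  · intro z _ v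
    rw [fderiv_id]
    rfl
  · intro ζ hζ
    have hr := PG4.rr_le
    have hr0 := PG4.rr_pos
    have he := PG4.eps_le
    have he0 := PG4.eps_pos
    have h1 := a2 ζ (by rw [hζ]; linarith)
    have h2 : 1 / 2 ≤ ‖Fm g ζ‖ := by
      have h3 : ‖ζ‖ - ‖Fm g ζ - ζ‖ ≤ ‖Fm g ζ‖ := by
        have := norm_sub_norm_le ζ (ζ - Fm g ζ)
        rw [sub_sub_cancel, norm_sub_rev ζ (Fm g ζ)] at this
        exact this
      have : eps * rr ≤ 1 / 10 * (1 / 10 ^ 6) := by gcongr
      rw [hζ] at h3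
      linarith
    have h4 : G (Fm g ζ) = ζ := b3 ζ (by rw [hζ]; linarith)
    have h5 : Real.smoothTransition (8 * ‖Fm g ζ‖ ^ 2 - 1) = 1 :=
      Real.smoothTransition.one_of_one_le (by nlinarith)
    have hne : deriv (Fm g) ζ ≠ 0 := by
      intro h0
      have := a4 ζ (by rw [hζ]; linarith)
      rw [h0, zero_sub, norm_neg, norm_one] at this
      linarith
    change Real.exp (PG4.lam g G (Fm g ζ)) * ‖deriv (Fm g) ζ‖ = 1
    rw [PG4.lam, h4, h5, one_mul, Real.exp_neg, Real.exp_log (norm_pos_iff.mpr hne)]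
    exact inv_mul_cancel₀ (norm_ne_zero_iff.mpr hne)

end Pool.Agent.Stek
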