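import Pool.Agent.Stek.TFun

/-!
# G5: membership in the set `K1 s g`
-/

open scoped BigOperators ComplexConjugate Topology ContDiff
open Complex Metric InnerProductSpace

noncomputable section

namespace Pool.Agent.Stek

namespace G5Aux

theorem RR_pos : 0 < RR := by unfold RR; positivity

theorem rr_pos : 0 < rr := by unfold rr; positivity

theorem sq_bounds {s : ℝ} (hs : s ∈ Set.Icc (1 / 20 : ℝ) (1 / 6)) :
    1 / 5 < √s ∧ √s < 1 / 2 ∧ 2 < 1 / √s ∧ 1 / √s < 5 := by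
  have h1 : 1 / 5 < √s := by
    rw [Real.lt_sqrt (by norm_num)]
    have := hs.1
    norm_num at this ⊢
    linarith
  have h2 : √s < 1 / 2 := by
    rw [Real.sqrt_lt' (by norm_num)]
    have := hs.2
    norm_num at this ⊢
    linarith
  have h0 : 0 < √s := by linarith
  refine ⟨h1, h2, ?_, ?_⟩
  · rw [lt_div_iff₀ h0]; linarith
  · rw [div_lt_iff₀ h0]; linarith

theorem iot_iot {w : ℂ} (hw : w ≠ 0) : iot (iot w) = w := by
  unfold iot
  have h : conj w ≠ 0 := (map_ne_zero _).2 hw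
  rw [map_div₀, map_neg, map_one, Complex.conj_conj]
  field_simp

theorem iot_ne_zero {w : ℂ} (hw : w ≠ 0) : iot w ≠ 0 := by
  unfold iot
  have h : conj w ≠ 0 := (map_ne_zero _).2 hw
  simp [h]

theorem norm_iot (w : ℂ) : ‖iot w‖ = 1 / ‖w‖ := by
  unfold iot
  rw [norm_div, norm_neg, norm_one, RCLike.norm_conj]

theorem norm_iot_sub_one {w : ℂ} (hw : w ≠ 0) : ‖iot w - 1‖ = ‖w + 1‖ / ‖w‖ := by
  have h : conj w ≠ 0 := (map_ne_zero _).2 hw
  have : iot w - 1 = - conj (w + 1) / conj w := by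
    unfold iot
    rw [map_add, map_one]
    field_simp
    ring
  rw [this, norm_div, norm_neg, RCLike.norm_conj, RCLike.norm_conj]

theorem iot_ne_self {w : ℂ} (hw : w ≠ 0) : iot w ≠ w := by
  intro h
  have hc : conj w ≠ 0 := (map_ne_zero _).2 hw
  unfold iot at h
  rw [div_eq_iff hc, Complex.mul_conj] at h
  have := congrArg Complex.re h
  simp at this
  have h2 := Complex.normSq_nonneg w
  linarith

theorem continuousAt_iot {w : ℂ} (hw : w ≠ 0) : ContinuousAt iot w := by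
  unfold iot
  have hc : conj w ≠ 0 := (map_ne_zero _).2 hw
  exact ContinuousAt.div continuousAt_const Complex.continuous_conj.continuousAt hc

/-- `Fm` is bounded below. -/
theorem Fm_norm {g : ℕ → ℂ} (hF : ∀ ζ, rr ≤ ‖ζ‖ → ‖Fm g ζ - ζ‖ ≤ eps * rr) {ζ : ℂ}
    (hζ : rr ≤ ‖ζ‖) : ‖ζ‖ - eps * rr ≤ ‖Fm g ζ‖ ∧ ‖Fm g ζ‖ ≤ ‖ζ‖ + eps * rr := by
  have h := hF ζ hζ
  have h1 := norm_sub_norm_le ζ (ζ - Fm g ζ)
  have h2 := norm_add_le ζ (Fm g ζ - ζ)
  have h3 := norm_sub_norm_le ζ (Fm g ζ)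
  rw [norm_sub_rev ζ] at h3
  rw [add_sub_cancel] at h2
  constructor <;> linarith

theorem Fm_ne_zero {g : ℕ → ℂ} (hF : ∀ ζ, rr ≤ ‖ζ‖ → ‖Fm g ζ - ζ‖ ≤ eps * rr) {ζ : ℂ}
    (hζ : rr ≤ ‖ζ‖) : Fm g ζ ≠ 0 := by
  have h := (Fm_norm hF hζ).1
  have hr := rr_pos
  have he : eps * rr < rr := by
    have : eps < 1 := by unfold eps; norm_num
    nlinarith
  intro h0
  rw [h0, norm_zero] at h
  linarith

/-- The point `w1 g ζ` is close to `1`. -/
theorem w1_near {g : ℕ → ℂ} (hF : ∀ ζ, rr ≤ ‖ζ‖ → ‖Fm g ζ - ζ‖ ≤ eps * rr) {ζ : ℂ}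
    (hζ : rr ≤ ‖ζ‖) : ‖w1 g ζ - 1‖ ≤ 1 / 10 ∧ w1 g ζ ≠ 1 ∧ RR / (w1 g ζ - 1) = Fm g ζ := by
  have h0 := Fm_ne_zero hF hζ
  have hRR : (RR : ℂ) ≠ 0 := by exact_mod_cast RR_pos.ne'
  have h1 : w1 g ζ - 1 = RR / Fm g ζ := by unfold w1; ring
  refine ⟨?_, ?_, ?_⟩
  · rw [h1, norm_div, div_le_iff₀ (norm_pos_iff.2 h0), Complex.norm_real, Real.norm_eq_abs,
      abs_of_pos RR_pos]
    have h := (Fm_norm hF hζ).1
    have he : rr * (1 / 2) ≤ ‖Fm g ζ‖ := by
      have : eps ≤ 1 / 2 := by unfold eps; norm_num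
      nlinarith [rr_pos]
    have : RR ≤ 1 / 10 * (rr * (1 / 2)) := by unfold RR rr; norm_num
    linarith
  · intro h
    rw [h, sub_self] at h1
    have : (RR : ℂ) / Fm g ζ ≠ 0 := div_ne_zero hRR h0
    exact this h1.symm
  · rw [h1, div_div_cancel₀ hRR]

theorem near_one_facts {w : ℂ} (h : ‖w - 1‖ ≤ 1 / 10) :
    w ≠ 0 ∧ 9 / 10 ≤ ‖w‖ ∧ ‖w‖ ≤ 11 / 10 ∧ 1 < ‖iot w - 1‖ := by
  have h1 : ‖w‖ ≤ 11 / 10 := by
    have := norm_add_le (w - 1) 1
    rw [sub_add_cancel, norm_one] at this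
    linarith
  have h2 : 9 / 10 ≤ ‖w‖ := by
    have := norm_sub_norm_le 1 (1 - w)
    rw [sub_sub_cancel, norm_one, norm_sub_rev] at this
    linarith
  have h0 : w ≠ 0 := by
    intro h0
    rw [h0, norm_zero] at h2
    norm_num at h2
  refine ⟨h0, h2, h1, ?_⟩
  rw [norm_iot_sub_one h0, lt_div_iff₀ (norm_pos_iff.2 h0)]
  have : 19 / 10 ≤ ‖w + 1‖ := by
    have := norm_sub_norm_le 2 (1 - w)
    rw [show (2 : ℂ) - (1 - w) = w + 1 by ring, norm_sub_rev 1 w] at this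
    norm_num at this
    linarith
  linarith

theorem ratio_small {z : ℂ} {c : ℝ} (hc : 0 < c) (h : c * RR < ‖z‖) : ‖(RR : ℂ) / z‖ < 1 / c := by
  have hR := RR_pos
  have hz : 0 < ‖z‖ := lt_trans (by positivity) h
  rw [norm_div, Complex.norm_real, Real.norm_eq_abs, abs_of_pos hR, div_lt_div_iff₀ hz hc]
  linarith

/-- The open conditions give points of the interior. -/
theorem mem_int {s : ℝ} {g : ℕ → ℂ} {w : ℂ} (h0 : w ≠ 0) (h1 : √s < ‖w‖)
    (h2 : ‖w‖ < 1 / √s) (h3 : w ≠ 1) (h4 : iot w ≠ 1) (h5 : RR / (w - 1) ∈ interior (fillK g))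
    (h6 : RR / (iot w - 1) ∈ interior (fillK g)) : w ∈ interior (K1 s g) := by
  rw [mem_interior_iff_mem_nhds]
  have c1 : ContinuousAt (fun w : ℂ => ‖w‖) w := continuous_norm.continuousAt
  have c2 := continuousAt_iot h0
  have c3 : ContinuousAt (fun w : ℂ => RR / (w - 1)) w :=
    ContinuousAt.div continuousAt_const (by fun_prop) (sub_ne_zero.2 h3)
  have c4 : ContinuousAt (fun w : ℂ => RR / (iot w - 1)) w :=
    ContinuousAt.div continuousAt_const (c2.sub continuousAt_const) (sub_ne_zero.2 h4)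
  filter_upwards [c1.eventually_const_lt h1, c1.eventually_lt_const h2,
    (continuousAt_id (x := w)).eventually_ne h3, c2.eventually_ne h4,
    c3.eventually_mem (isOpen_interior.mem_nhds h5),
    c4.eventually_mem (isOpen_interior.mem_nhds h6)] with x a1 a2 a3 a4 a5 a6
  exact ⟨a1.le, a2.le, a3, a4, interior_subset a5, interior_subset a6⟩

end G5Aux

open G5Aux

theorem g5 (hF1 : F1) (hG2 : G2) : G5 := by
  intro s g hs hg
  obtain ⟨hs1, hs2, hs3, hs4⟩ := sq_bounds hs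
  obtain ⟨-, hF, -, -⟩ := hF1 g hg
  obtain ⟨-, -, -, -, -, hsub, hball, hin, -⟩ := hG2 g hg
  have hR := RR_pos
  have hr := rr_pos
  have hball' : ∀ z : ℂ, ‖z‖ < 9 / 10 → z ∈ interior (fillK g) := fun z hz =>
    hball (by simpa using hz)
  have hRle : RR < 1 / 1000 := by unfold RR; norm_num
  have hratio : ∀ z : ℂ, 3 * RR < ‖z‖ → (RR : ℂ) / z ∈ interior (fillK g) := by
    intro z hz
    apply hball'
    have := ratio_small (by norm_num : (0 : ℝ) < 3) hz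
    linarith
  have hbig : ∀ z : ℂ, 1 < ‖z‖ → (RR : ℂ) / z ∈ interior (fillK g) := by
    intro z hz
    apply hratio
    linarith
  have hge : ∀ w : ℂ, 3 * RR < ‖w - 1‖ → w ≠ 1 := by
    intro w hw h
    rw [h, sub_self, norm_zero] at hw
    linarith
  have hmem : ∀ w, √s ≤ ‖w‖ → ‖w‖ ≤ 1 / √s → 3 * RR < ‖w - 1‖ → 3 * RR < ‖iot w - 1‖ →
      w ∈ K1 s g := fun w a1 a2 a3 a4 => ⟨a1, a2, hge w a3, hge _ a4,
        interior_subset (hratio _ a3), interior_subset (hratio _ a4)⟩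
  have hfill : ∀ w : ℂ, w ≠ 1 → RR / (w - 1) ∈ fillK g → 5 / 7 * RR < ‖w - 1‖ := by
    intro w h1 h2
    have h3 := hsub h2
    rw [mem_ball_zero_iff, norm_div, Complex.norm_real, Real.norm_eq_abs, abs_of_pos hR] at h3
    have h4 : 0 < ‖w - 1‖ := norm_pos_iff.2 (sub_ne_zero.2 h1)
    rw [div_lt_iff₀ h4] at h3
    linarith
  refine ⟨fun ζ h1 h2 => ?_, fun ζ h1 => ?_, hmem, fun w a1 a2 a3 a4 => ?_, fun w hw => ?_⟩
  · obtain ⟨b1, b2, b3⟩ := w1_near hF h1.le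
    obtain ⟨d0, d1, d2, d3⟩ := near_one_facts b1
    refine mem_int d0 (by linarith) (by linarith) b2 ?_ ?_ (hbig _ d3)
    · intro h
      rw [h, sub_self, norm_zero] at d3
      linarith
    · rw [b3]
      exact hin ζ h1 h2
  · have h1' : rr ≤ ‖ζ‖ := by rw [h1]; unfold rr; norm_num
    obtain ⟨b1, b2, b3⟩ := w1_near hF h1'
    obtain ⟨d0, d1, d2, d3⟩ := near_one_facts b1
    refine ⟨by linarith, by linarith, b2, ?_, ?_, interior_subset (hbig _ d3)⟩
    · intro h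
      rw [h, sub_self, norm_zero] at d3
      linarith
    · rw [b3]
      exact Or.inr ⟨ζ, ⟨by rw [h1]; norm_num, h1.le⟩, rfl⟩
  · have d0 : w ≠ 0 := by
      intro h
      rw [h, norm_zero] at a1
      linarith
    exact mem_int d0 a1 a2 (hge _ a3) (hge _ a4) (hratio _ a3) (hratio _ a4)
  · obtain ⟨a1, a2, a3, a4, a5, a6⟩ := hw
    have d0 : w ≠ 0 := by
      intro h
      rw [h, norm_zero] at a1
      linarith
    have hw0 : 0 < ‖w‖ := norm_pos_iff.2 d0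
    have hsq : 0 < √s := by linarith
    refine ⟨d0, ⟨?_, ?_, a4, ?_, a6, ?_⟩, iot_iot d0, iot_ne_self d0, hfill _ a3 a5,
      hfill _ a4 a6⟩
    · rw [norm_iot, le_div_iff₀ hw0]
      rw [le_div_iff₀ hsq] at a2
      linarith
    · rw [norm_iot]
      exact one_div_le_one_div_of_le hsq a1
    · rw [iot_iot d0]; exact a3
    · rw [iot_iot d0]; exact a5

end Pool.Agent.Stek
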