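import Pool.Agent.Stek.PG5

/-!
# G6: topology of the set `K1 s g`
-/

open scoped BigOperators ComplexConjugate Topology ContDiff
open Complex Metric InnerProductSpace

noncomputable section

namespace Pool.Agent.Stek

namespace G6Aux

open G5Aux

/-- The sign used for the arcs. -/
def sgn (w : ℂ) : ℝ := if 0 ≤ w.im then 1 else -1

/-- The arc of the circle through `w` from the imaginary axis to `w`. -/
def arc (w : ℂ) (u : ℝ) : ℂ :=
  ((u * w.re : ℝ) : ℂ) + ((sgn w * √(Complex.normSq w - u ^ 2 * w.re ^ 2) : ℝ) : ℂ) * I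

theorem arc_re (w : ℂ) (u : ℝ) : (arc w u).re = u * w.re := by
  unfold arc
  simp

theorem arc_im (w : ℂ) (u : ℝ) :
    (arc w u).im = sgn w * √(Complex.normSq w - u ^ 2 * w.re ^ 2) := by
  unfold arc
  simp

theorem sgn_sq (w : ℂ) : sgn w * sgn w = 1 := by
  unfold sgn
  split_ifs <;> norm_num

theorem continuous_arc (w : ℂ) : Continuous (arc w) := by
  unfold arc
  fun_prop

theorem arc_normSq (w : ℂ) {u : ℝ} (h0 : 0 ≤ u) (h1 : u ≤ 1) :
    Complex.normSq (arc w u) = Complex.normSq w := by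
  rw [Complex.normSq_apply, arc_re, arc_im]
  have h : 0 ≤ Complex.normSq w - u ^ 2 * w.re ^ 2 := by
    rw [Complex.normSq_apply]
    have h2 : u ^ 2 ≤ 1 := by nlinarith
    nlinarith [mul_self_nonneg w.im, mul_nonneg (sub_nonneg.2 h2) (sq_nonneg w.re)]
  have h3 := Real.mul_self_sqrt h
  calc u * w.re * (u * w.re) + sgn w * √(Complex.normSq w - u ^ 2 * w.re ^ 2) *
      (sgn w * √(Complex.normSq w - u ^ 2 * w.re ^ 2))
      = u ^ 2 * w.re ^ 2 + (sgn w * sgn w) * (√(Complex.normSq w - u ^ 2 * w.re ^ 2) *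
        √(Complex.normSq w - u ^ 2 * w.re ^ 2)) := by ring
    _ = Complex.normSq w := by rw [sgn_sq, h3]; ring

theorem arc_norm (w : ℂ) {u : ℝ} (h0 : 0 ≤ u) (h1 : u ≤ 1) : ‖arc w u‖ = ‖w‖ := by
  have h := arc_normSq w h0 h1
  rw [Complex.normSq_eq_norm_sq, Complex.normSq_eq_norm_sq] at h
  exact (sq_eq_sq₀ (norm_nonneg _) (norm_nonneg _)).1 h

theorem arc_one (w : ℂ) : arc w 1 = w := by
  apply Complex.ext
  · rw [arc_re, one_mul]
  · rw [arc_im, Complex.normSq_apply]
    have : w.re * w.re + w.im * w.im - 1 ^ 2 * w.re ^ 2 = w.im ^ 2 := by ring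
    rw [this, Real.sqrt_sq_eq_abs]
    unfold sgn
    split_ifs with h
    · rw [abs_of_nonneg h, one_mul]
    · rw [abs_of_neg (not_le.1 h)]; ring

theorem arc_zero (w : ℂ) : arc w 0 = ((sgn w * ‖w‖ : ℝ) : ℂ) * I := by
  apply Complex.ext
  · rw [arc_re]; simp
  · rw [arc_im, Complex.normSq_eq_norm_sq]
    have : ‖w‖ ^ 2 - 0 ^ 2 * w.re ^ 2 = ‖w‖ ^ 2 := by ring
    rw [this, Real.sqrt_sq (norm_nonneg _)]
    simp

/-- The annulus without neighbourhoods of `1` and `-1`. -/
def AA (s : ℝ) : Set ℂ :=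
  {w | √s < ‖w‖ ∧ ‖w‖ < 1 / √s ∧ 3 * RR < ‖w - 1‖ ∧ 3 * RR < ‖iot w - 1‖}

theorem sub_one_sq (z : ℂ) : ‖z - 1‖ ^ 2 = Complex.normSq z - 2 * z.re + 1 := by
  rw [← Complex.normSq_eq_norm_sq, Complex.normSq_apply, Complex.normSq_apply]
  simp
  ring

theorem add_one_sq (z : ℂ) : ‖z + 1‖ ^ 2 = Complex.normSq z + 2 * z.re + 1 := by
  rw [← Complex.normSq_eq_norm_sq, Complex.normSq_apply, Complex.normSq_apply]
  simp
  ring

theorem le_of_sq {a b : ℝ} (hb : 0 ≤ b) (h : a ^ 2 ≤ b ^ 2) : a ≤ b := by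
  by_contra hc
  push Not at hc
  nlinarith

theorem RR_small : 3 * RR < 1 / 4 := by unfold RR; norm_num

theorem norm_sub_one_ge {z : ℂ} (h : z.re ≤ 0) : 1 ≤ ‖z - 1‖ := by
  apply le_of_sq (norm_nonneg _)
  rw [sub_one_sq]
  have := Complex.normSq_nonneg z
  linarith

theorem norm_iot_ge {z : ℂ} (hz : z ≠ 0) (h : 0 ≤ z.re) : 1 ≤ ‖iot z - 1‖ := by
  rw [norm_iot_sub_one hz, le_div_iff₀ (norm_pos_iff.2 hz), one_mul]
  apply le_of_sq (norm_nonneg _)
  rw [add_one_sq, Complex.normSq_eq_norm_sq]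
  linarith

theorem arc_mem {s : ℝ} {w : ℂ} (hs : 0 < √s) (hw : w ∈ AA s) {u : ℝ} (h0 : 0 ≤ u)
    (h1 : u ≤ 1) : arc w u ∈ AA s := by
  obtain ⟨a1, a2, a3, a4⟩ := hw
  have hn := arc_norm w h0 h1
  have hq := arc_normSq w h0 h1
  have hw0 : w ≠ 0 := by
    intro h
    rw [h, norm_zero] at a1
    linarith
  have hz0 : arc w u ≠ 0 := by
    intro h
    rw [h, norm_zero] at hn
    exact hw0 (norm_eq_zero.1 hn.symm)
  have hR := RR_small
  have hR0 := RR_pos
  refine ⟨by rw [hn]; exact a1, by rw [hn]; exact a2, ?_, ?_⟩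
  · rcases le_total 0 w.re with h | h
    · refine lt_of_lt_of_le a3 (le_of_sq (norm_nonneg _) ?_)
      rw [sub_one_sq, sub_one_sq, hq, arc_re]
      nlinarith
    · have : (arc w u).re ≤ 0 := by
        rw [arc_re]
        exact mul_nonpos_of_nonneg_of_nonpos h0 h
      have := norm_sub_one_ge this
      linarith
  · rcases le_total 0 w.re with h | h
    · have : 0 ≤ (arc w u).re := by
        rw [arc_re]
        positivity
      have := norm_iot_ge hz0 this
      linarith
    · refine lt_of_lt_of_le a4 ?_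
      rw [norm_iot_sub_one hw0, norm_iot_sub_one hz0, hn]
      refine div_le_div_of_nonneg_right ?_ (norm_nonneg _)
      apply le_of_sq (norm_nonneg _)
      rw [add_one_sq, add_one_sq, hq, arc_re]
      nlinarith

theorem axis_mem {s t : ℝ} (hs : 0 < √s) (h1 : √s < |t|) (h2 : |t| < 1 / √s) :
    (t : ℂ) * I ∈ AA s := by
  have hn : ‖(t : ℂ) * I‖ = |t| := by simp
  have hre : ((t : ℂ) * I).re = 0 := by simp
  have hz : (t : ℂ) * I ≠ 0 := by
    intro h
    rw [h, norm_zero] at hn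
    linarith
  have hR := RR_small
  refine ⟨by rw [hn]; exact h1, by rw [hn]; exact h2, ?_, ?_⟩
  · have := norm_sub_one_ge hre.le
    linarith
  · have := norm_iot_ge hz hre.ge
    linarith

theorem circle_mem {s : ℝ} (hs1 : 0 < √s) (hs2 : √s < 1 / 2) (hs3 : 2 < 1 / √s) {z : ℂ}
    (hz : ‖z‖ = 3 / 4) : z ∈ AA s := by
  have hR := RR_small
  have hz0 : z ≠ 0 := by
    intro h
    rw [h, norm_zero] at hz
    norm_num at hz
  refine ⟨by rw [hz]; linarith, by rw [hz]; linarith, ?_, ?_⟩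
  · have := norm_sub_norm_le 1 z
    rw [norm_one, hz, norm_sub_rev] at this
    linarith
  · rw [norm_iot_sub_one hz0, hz, lt_div_iff₀ (by norm_num)]
    have := norm_sub_norm_le 1 (-z)
    rw [norm_one, norm_neg, hz, sub_neg_eq_add, add_comm] at this
    linarith

theorem isPreconnected_AA {s : ℝ} (hs1 : 0 < √s) (hs2 : √s < 1 / 2) (hs3 : 2 < 1 / √s) :
    IsPreconnected (AA s) := by
  set B1 : Set ℂ := (fun t : ℝ => (t : ℂ) * I) '' Set.Ioo (√s) (1 / √s) with hB1
  set B2 : Set ℂ := (fun t : ℝ => ((-t : ℝ) : ℂ) * I) '' Set.Ioo (√s) (1 / √s) with hB2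
  have p1 : IsPreconnected B1 := isPreconnected_Ioo.image _ (by fun_prop)
  have p2 : IsPreconnected B2 := isPreconnected_Ioo.image _ (by fun_prop)
  have p3 : IsPreconnected (sphere (0 : ℂ) (3 / 4)) :=
    isPreconnected_sphere (by rw [Complex.rank_real_complex]; norm_num) _ _
  have m1 : (((3 / 4 : ℝ) : ℂ) * I) ∈ B1 := ⟨3 / 4, ⟨by linarith, by linarith⟩, rfl⟩
  have m2 : (((-(3 / 4) : ℝ) : ℂ) * I) ∈ B2 := ⟨3 / 4, ⟨by linarith, by linarith⟩, rfl⟩
  have m3 : (((3 / 4 : ℝ) : ℂ) * I) ∈ sphere (0 : ℂ) (3 / 4) := by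
    rw [mem_sphere_zero_iff_norm, norm_mul, Complex.norm_real, Complex.norm_I]
    norm_num
  have m4 : (((-(3 / 4) : ℝ) : ℂ) * I) ∈ sphere (0 : ℂ) (3 / 4) := by
    rw [mem_sphere_zero_iff_norm, norm_mul, Complex.norm_real, Complex.norm_I]
    norm_num
  have p12 : IsPreconnected (B1 ∪ sphere (0 : ℂ) (3 / 4)) := p1.union _ m1 m3 p3
  have p : IsPreconnected ((B1 ∪ sphere (0 : ℂ) (3 / 4)) ∪ B2) := p12.union _ (Or.inr m4) m2 p2
  have hB : (B1 ∪ sphere (0 : ℂ) (3 / 4)) ∪ B2 ⊆ AA s := by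
    rintro z ((⟨t, ht, rfl⟩ | hz) | ⟨t, ht, rfl⟩)
    · apply axis_mem hs1
      · rw [abs_of_pos (by linarith [ht.1])]; exact ht.1
      · rw [abs_of_pos (by linarith [ht.1])]; exact ht.2
    · exact circle_mem hs1 hs2 hs3 (by simpa using hz)
    · apply axis_mem hs1
      · rw [abs_neg, abs_of_pos (by linarith [ht.1])]; exact ht.1
      · rw [abs_neg, abs_of_pos (by linarith [ht.1])]; exact ht.2
  refine isPreconnected_of_forall (((3 / 4 : ℝ) : ℂ) * I) fun w hw => ?_
  have pa : IsPreconnected (arc w '' Set.Icc 0 1) :=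
    isPreconnected_Icc.image _ (continuous_arc w).continuousOn
  have ma : arc w 0 ∈ arc w '' Set.Icc 0 1 := ⟨0, by simp, rfl⟩
  have mb : arc w 0 ∈ (B1 ∪ sphere (0 : ℂ) (3 / 4)) ∪ B2 := by
    rw [arc_zero]
    unfold sgn
    split_ifs with h
    · left; left
      exact ⟨‖w‖, ⟨hw.1, hw.2.1⟩, by simp⟩
    · right
      exact ⟨‖w‖, ⟨hw.1, hw.2.1⟩, by simp⟩
  refine ⟨arc w '' Set.Icc 0 1 ∪ ((B1 ∪ sphere (0 : ℂ) (3 / 4)) ∪ B2), ?_, ?_, ?_,
    pa.union _ ma mb p⟩
  · refine Set.union_subset ?_ hB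
    rintro z ⟨u, hu, rfl⟩
    exact arc_mem hs1 hw hu.1 hu.2
  · exact Or.inr (Or.inl (Or.inl m1))
  · exact Or.inl ⟨1, by simp, arc_one w⟩

theorem isPreconnected_annulus {a b : ℝ} (ha : 0 ≤ a) :
    IsPreconnected {ζ : ℂ | a < ‖ζ‖ ∧ ‖ζ‖ < b} := by
  have : {ζ : ℂ | a < ‖ζ‖ ∧ ‖ζ‖ < b} =
      (fun p : ℝ × ℝ => (p.1 : ℂ) * Complex.exp (p.2 * I)) '' (Set.Ioo a b ×ˢ Set.univ) := by
    ext z
    constructor
    · rintro ⟨h1, h2⟩
      exact ⟨(‖z‖, Complex.arg z), ⟨⟨h1, h2⟩, trivial⟩, Complex.norm_mul_exp_arg_mul_I z⟩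
    · rintro ⟨⟨r, θ⟩, ⟨⟨h1, h2⟩, -⟩, rfl⟩
      have : ‖(r : ℂ) * Complex.exp (θ * I)‖ = r := by
        rw [norm_mul, Complex.norm_exp_ofReal_mul_I, mul_one, Complex.norm_real,
          Real.norm_eq_abs, abs_of_nonneg (ha.trans h1.le)]
      change a < ‖(r : ℂ) * Complex.exp (θ * I)‖ ∧ ‖(r : ℂ) * Complex.exp (θ * I)‖ < b
      rw [this]
      exact ⟨h1, h2⟩
  rw [this]
  exact (isPreconnected_Ioo.prod isPreconnected_univ).image _ (by fun_prop)

/-- A neighbourhood of the Steklov curve. -/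
def WW' (g : ℕ → ℂ) : Set ℂ := w1 g '' {ζ | 1 / 10 < ‖ζ‖ ∧ ‖ζ‖ < 1}

theorem rr_small : rr < 1 / 1000 := by unfold rr; norm_num

theorem eps_small : eps < 1 / 1000 := by unfold eps; norm_num

theorem eps_pos : 0 < eps := by unfold eps; norm_num

theorem er_small : 0 < eps * rr ∧ eps * rr < rr ∧ eps * rr < 1 / 1000 := by
  have h1 := rr_small
  have h2 := eps_small
  have h3 := eps_pos
  have h4 := rr_pos
  refine ⟨by positivity, by nlinarith, by nlinarith⟩

theorem continuousOn_w1 {g : ℕ → ℂ} (hD : DifferentiableOn ℂ (Fm g) {ζ | rr < ‖ζ‖})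
    (hF : ∀ ζ, rr ≤ ‖ζ‖ → ‖Fm g ζ - ζ‖ ≤ eps * rr) : ContinuousOn (w1 g) {ζ | rr < ‖ζ‖} := by
  unfold w1
  exact continuousOn_const.add (continuousOn_const.div hD.continuousOn
    fun ζ hζ => Fm_ne_zero hF (le_of_lt hζ))

theorem iot_image_interior {s : ℝ} {g : ℕ → ℂ}
    (h : ∀ w ∈ K1 s g, w ≠ 0 ∧ iot w ∈ K1 s g ∧ iot (iot w) = w) {w : ℂ}
    (hw : w ∈ interior (K1 s g)) : iot w ∈ interior (K1 s g) := by
  obtain ⟨h0, -, h2⟩ := h w (interior_subset hw)
  have h3 : iot w ≠ 0 := iot_ne_zero h0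
  have hc := continuousAt_iot h3
  have hc' : Filter.Tendsto iot (𝓝 (iot w)) (𝓝 w) := by
    have := hc.tendsto
    rwa [h2] at this
  rw [mem_interior_iff_mem_nhds]
  filter_upwards [hc' (mem_interior_iff_mem_nhds.1 hw),
    (continuousAt_id (x := iot w)).eventually_ne h3] with x hx hx0
  have := (h _ hx).2.1
  rwa [iot_iot (show x ≠ 0 from hx0)] at this

theorem iot_mem_AA {s : ℝ} (hs : 0 < √s) {w : ℂ} (hw : w ∈ AA s) : iot w ∈ AA s := by
  obtain ⟨a1, a2, a3, a4⟩ := hw
  have hw0 : w ≠ 0 := by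
    intro h
    rw [h, norm_zero] at a1
    linarith
  have hwp : 0 < ‖w‖ := norm_pos_iff.2 hw0
  refine ⟨?_, ?_, a4, ?_⟩
  · rw [norm_iot, lt_div_iff₀ hwp]
    rw [lt_div_iff₀ hs] at a2
    linarith
  · rw [norm_iot]
    exact one_div_lt_one_div_of_lt hs a1
  · rw [iot_iot hw0]; exact a3

end G6Aux

open G5Aux G6Aux

theorem g6 (hF1 : F1) (hF2 : F2) (hG2 : G2) (hG5 : G5) : G6 := by
  intro s g hs hg
  obtain ⟨hs1, hs2, hs3, hs4⟩ := sq_bounds hs
  obtain ⟨hD, hF, -, -⟩ := hF1 g hg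
  obtain ⟨Gi, -, hGi, -⟩ := hF2 g hg
  obtain ⟨hcomp, -, -, -, -, -, -, -, -⟩ := hG2 g hg
  obtain ⟨c1, c2, c3, c4, c5⟩ := hG5 s g hs hg
  have hR := RR_pos
  have hr := rr_pos
  have hR3 := RR_small
  have hr3 := rr_small
  obtain ⟨he1, he2, he3⟩ := er_small
  have hs0 : 0 < √s := by linarith
  -- closedness
  have hclosed : IsClosed (K1 s g) := by
    rw [← closure_subset_iff_isClosed]
    intro w hw
    have hfr := mem_closure_iff_frequently.1 hw
    have b1 : √s ≤ ‖w‖ := by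
      have : w ∈ closure {w : ℂ | √s ≤ ‖w‖} := closure_mono (fun x hx => hx.1) hw
      rwa [(isClosed_le continuous_const continuous_norm).closure_eq] at this
    have b2 : ‖w‖ ≤ 1 / √s := by
      have : w ∈ closure {w : ℂ | ‖w‖ ≤ 1 / √s} := closure_mono (fun x hx => hx.2.1) hw
      rwa [(isClosed_le continuous_norm continuous_const).closure_eq] at this
    have b3 : 5 / 7 * RR ≤ ‖w - 1‖ := by
      have : w ∈ closure {w : ℂ | 5 / 7 * RR ≤ ‖w - 1‖} :=
        closure_mono (fun x hx => ((c5 x hx).2.2.2.2.1).le) hw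
      rwa [(isClosed_le continuous_const (by fun_prop)).closure_eq] at this
    have w0 : w ≠ 0 := by
      intro h
      rw [h, norm_zero] at b1
      linarith
    have hci := continuousAt_iot w0
    have b4 : 5 / 7 * RR ≤ ‖iot w - 1‖ := by
      by_contra hcon
      push Not at hcon
      have hc : ContinuousAt (fun w => ‖iot w - 1‖) w := (hci.sub continuousAt_const).norm
      obtain ⟨x, hx1, hx2⟩ := (hfr.and_eventually (hc.eventually_lt_const hcon)).exists
      linarith [(c5 x hx1).2.2.2.2.2]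
    have n3 : w ≠ 1 := by
      intro h
      rw [h, sub_self, norm_zero] at b3
      linarith
    have n4 : iot w ≠ 1 := by
      intro h
      rw [h, sub_self, norm_zero] at b4
      linarith
    have hopen : IsOpen (fillK g)ᶜ := hcomp.isClosed.isOpen_compl
    refine ⟨b1, b2, n3, n4, ?_, ?_⟩
    · by_contra hcon
      have hc : ContinuousAt (fun w : ℂ => RR / (w - 1)) w :=
        ContinuousAt.div continuousAt_const (by fun_prop) (sub_ne_zero.2 n3)
      obtain ⟨x, hx1, hx2⟩ := (hfr.and_eventually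
        (hc.eventually_mem (hopen.mem_nhds hcon))).exists
      exact hx2 hx1.2.2.2.2.1
    · by_contra hcon
      have hc : ContinuousAt (fun w : ℂ => RR / (iot w - 1)) w :=
        ContinuousAt.div continuousAt_const (hci.sub continuousAt_const) (sub_ne_zero.2 n4)
      obtain ⟨x, hx1, hx2⟩ := (hfr.and_eventually
        (hc.eventually_mem (hopen.mem_nhds hcon))).exists
      exact hx2 hx1.2.2.2.2.2
  have hbdd : Bornology.IsBounded (K1 s g) :=
    isBounded_closedBall.subset (fun w hw => (by simpa using hw.2.1 : w ∈ closedBall 0 (1 / √s)))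
  have hcompact : IsCompact (K1 s g) := Metric.isCompact_of_isClosed_isBounded hclosed hbdd
  -- the union of three preconnected open pieces
  have hcW := continuousOn_w1 hD hF
  have pW : IsPreconnected (WW' g) := by
    refine (isPreconnected_annulus (by norm_num)).image _ (hcW.mono fun ζ hζ => ?_)
    have h1 : (1 : ℝ) / 10 < ‖ζ‖ := hζ.1
    change rr < ‖ζ‖
    linarith
  have hWint : WW' g ⊆ interior (K1 s g) := by
    rintro w ⟨ζ, ⟨h1, h2⟩, rfl⟩
    exact c1 ζ (by linarith) h2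
  have hWne : ∀ w ∈ WW' g, w ≠ 0 := fun w hw => (c5 w (interior_subset (hWint hw))).1
  have pI : IsPreconnected (iot '' WW' g) :=
    pW.image _ fun w hw => (continuousAt_iot (hWne w hw)).continuousWithinAt
  have hIint : iot '' WW' g ⊆ interior (K1 s g) := by
    rintro w ⟨z, hz, rfl⟩
    exact iot_image_interior (fun w hw => ⟨(c5 w hw).1, (c5 w hw).2.1, (c5 w hw).2.2.1⟩)
      (hWint hz)
  have hAint : AA s ⊆ interior (K1 s g) := fun w hw => c4 w hw.1 hw.2.1 hw.2.2.1 hw.2.2.2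
  -- a common point
  set q : ℂ := w1 g ((1 / 5 : ℝ) : ℂ) with hq
  have hn5 : ‖((1 / 5 : ℝ) : ℂ)‖ = 1 / 5 := by
    rw [Complex.norm_real, Real.norm_eq_abs, abs_of_pos (by norm_num)]
  have q5 : rr ≤ ‖((1 / 5 : ℝ) : ℂ)‖ := by rw [hn5]; linarith
  have qW : q ∈ WW' g := ⟨_, ⟨by rw [hn5]; norm_num, by rw [hn5]; norm_num⟩, rfl⟩
  obtain ⟨q1, q2, q3⟩ := w1_near hF q5
  obtain ⟨d0, d1, d2, d3⟩ := near_one_facts q1
  have qA : q ∈ AA s := by
    refine ⟨by linarith, by linarith, ?_, by linarith⟩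
    have e1 : q - 1 = RR / Fm g ((1 / 5 : ℝ) : ℂ) := by
      rw [hq]; unfold w1; ring
    have e2 := (Fm_norm hF q5).2
    have e3 : 0 < ‖Fm g ((1 / 5 : ℝ) : ℂ)‖ := norm_pos_iff.2 (Fm_ne_zero hF q5)
    rw [e1, norm_div, Complex.norm_real, Real.norm_eq_abs, abs_of_pos hR, lt_div_iff₀ e3]
    rw [hn5] at e2
    nlinarith
  set O : Set ℂ := AA s ∪ WW' g ∪ iot '' WW' g with hO
  have pO : IsPreconnected O :=
    ((isPreconnected_AA hs0 hs2 hs3).union q qA qW pW).union (iot q)
      (Or.inl (iot_mem_AA hs0 qA)) ⟨q, qW, rfl⟩ pI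
  have hOint : O ⊆ interior (K1 s g) := Set.union_subset (Set.union_subset hAint hWint) hIint
  -- density
  have hdense1 : ∀ w ∈ K1 s g, ‖w - 1‖ ≤ 3 * RR → w ∈ closure (WW' g) := by
    intro w hw h3
    have hz : RR / (w - 1) ∈ fillK g := hw.2.2.2.2.1
    have hw1 : w - 1 ≠ 0 := sub_ne_zero.2 hw.2.2.1
    have hRc : (RR : ℂ) ≠ 0 := by exact_mod_cast hR.ne'
    have hz3 : 1 / 3 ≤ ‖(RR : ℂ) / (w - 1)‖ := by
      rw [norm_div, Complex.norm_real, Real.norm_eq_abs, abs_of_pos hR,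
        le_div_iff₀ (norm_pos_iff.2 hw1)]
      linarith
    have key : ∃ ζ : ℂ, 1 / 10 < ‖ζ‖ ∧ ‖ζ‖ ≤ 1 ∧ Fm g ζ = RR / (w - 1) := by
      rcases hz with hz | ⟨ζ, ⟨h1, h2⟩, h4⟩
      · have hz2 : ‖(RR : ℂ) / (w - 1)‖ ≤ 1 / 2 := by simpa using hz
        obtain ⟨k1, k2, k3⟩ := hGi (RR / (w - 1)) (by linarith)
        have k4 := norm_sub_norm_le (RR / (w - 1)) (RR / (w - 1) - Gi (RR / (w - 1)))
        rw [sub_sub_cancel, norm_sub_rev] at k4
        have k5 := norm_add_le (Gi (RR / (w - 1)) - RR / (w - 1)) (RR / (w - 1))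
        rw [sub_add_cancel] at k5
        exact ⟨Gi (RR / (w - 1)), by linarith, by linarith, k2⟩
      · exact ⟨ζ, by linarith, h2, h4⟩
    obtain ⟨ζ, h1, h2, h4⟩ := key
    have hww : w1 g ζ = w := by
      unfold w1
      rw [h4, div_div_cancel₀ hRc]
      ring
    rcases h2.lt_or_eq with h2 | h2
    · exact subset_closure ⟨ζ, ⟨h1, h2⟩, hww⟩
    · -- radial approximation
      have hcont : ContinuousAt (w1 g) ζ := by
        refine hcW.continuousAt (IsOpen.mem_nhds (isOpen_lt continuous_const continuous_norm) ?_)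
        change rr < ‖ζ‖
        linarith
      have hζ : ζ ∈ closure {ζ : ℂ | 1 / 10 < ‖ζ‖ ∧ ‖ζ‖ < 1} := by
        have hc : ContinuousAt (fun t : ℝ => (t : ℂ) * ζ) 1 := by fun_prop
        have h1' : (1 : ℝ) ∈ closure (Set.Ioo (1 / 2 : ℝ) 1) := by
          rw [closure_Ioo (by norm_num)]
          norm_num
        have := mem_closure_image hc h1'
        simp only [Complex.ofReal_one, one_mul] at this
        refine closure_mono ?_ this
        rintro z ⟨t, ht, rfl⟩
        change 1 / 10 < ‖(t : ℂ) * ζ‖ ∧ ‖(t : ℂ) * ζ‖ < 1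
        rw [norm_mul, h2, mul_one, Complex.norm_real, Real.norm_eq_abs,
          abs_of_pos (by linarith [ht.1])]
        exact ⟨by linarith [ht.1], ht.2⟩
      have := mem_closure_image hcont hζ
      rwa [hww] at this
  have hdense : K1 s g ⊆ closure O := by
    intro w hw
    by_cases h1 : 3 * RR < ‖w - 1‖
    · by_cases h2 : 3 * RR < ‖iot w - 1‖
      · have hw0 := (c5 w hw).1
        have hwp : 0 < ‖w‖ := norm_pos_iff.2 hw0
        have hA : w ∈ closure (AA s) := by
          -- the conditions near 1 and -1 are open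
          have hc : ContinuousAt (fun t : ℝ => (t : ℂ) * w) 1 := by fun_prop
          have hev : ∀ᶠ t : ℝ in 𝓝 1, 3 * RR < ‖(t : ℂ) * w - 1‖ ∧
              3 * RR < ‖iot ((t : ℂ) * w) - 1‖ := by
            have g1 : ContinuousAt (fun t : ℝ => ‖(t : ℂ) * w - 1‖) 1 := by fun_prop
            have g2 : ContinuousAt (fun t : ℝ => ‖iot ((t : ℂ) * w) - 1‖) 1 := by
              refine ContinuousAt.norm (ContinuousAt.sub ?_ continuousAt_const)
              refine ContinuousAt.comp (g := iot) ?_ hc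
              apply continuousAt_iot
              simpa using hw0
            refine (g1.eventually_const_lt ?_).and (g2.eventually_const_lt ?_)
            · simpa using h1
            · simpa using h2
          have hfin : ∀ S : Set ℝ, (1 : ℝ) ∈ closure S → (∀ᶠ t in 𝓝 (1 : ℝ), t ∈ S →
              √s < ‖(t : ℂ) * w‖ ∧ ‖(t : ℂ) * w‖ < 1 / √s) → w ∈ closure (AA s) := by
            intro S hS hS2
            rw [mem_closure_iff_frequently] at hS
            have hc' : Filter.Tendsto (fun t : ℝ => (t : ℂ) * w) (𝓝 1) (𝓝 w) := by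
              have := hc.tendsto
              simpa using this
            rw [mem_closure_iff_frequently]
            refine hc'.frequently ?_
            refine (hS.and_eventually (hev.and hS2)).mono ?_
            rintro t ⟨t1, ⟨t2, t3⟩, t4⟩
            obtain ⟨t5, t6⟩ := t4 t1
            exact ⟨t5, t6, t2, t3⟩
          rcases hw.1.lt_or_eq with e1 | e1
          · rcases hw.2.1.lt_or_eq with e2 | e2
            · exact subset_closure ⟨e1, e2, h1, h2⟩
            · apply hfin (Set.Ioo (1 / 2 : ℝ) 1)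
              · rw [closure_Ioo (by norm_num)]
                norm_num
              · have g1 : ContinuousAt (fun t : ℝ => ‖(t : ℂ) * w‖) 1 := by fun_prop
                filter_upwards [g1.eventually_const_lt (u := √s) (by simpa using e1)] with t ht ht2
                refine ⟨ht, ?_⟩
                rw [norm_mul, e2, Complex.norm_real, Real.norm_eq_abs,
                  abs_of_pos (by linarith [ht2.1])]
                have : 0 < 1 / √s := by positivity
                nlinarith [ht2.2]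
          · apply hfin (Set.Ioo (1 : ℝ) 2)
            · rw [closure_Ioo (by norm_num)]
              norm_num
            · have g1 : ContinuousAt (fun t : ℝ => ‖(t : ℂ) * w‖) 1 := by fun_prop
              have e3 : ‖w‖ < 1 / √s := by
                rw [← e1]
                linarith
              filter_upwards [g1.eventually_lt_const (u := 1 / √s) (by simpa using e3)]
                with t ht ht2
              refine ⟨?_, ht⟩
              rw [norm_mul, ← e1, Complex.norm_real, Real.norm_eq_abs,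
                abs_of_pos (by linarith [ht2.1])]
              nlinarith [ht2.1]
        exact closure_mono (fun x hx => Or.inl (Or.inl hx)) hA
      · push Not at h2
        have hi := (c5 w hw).2.1
        have hi2 := hdense1 _ hi h2
        have hw0 := (c5 w hw).1
        have := mem_closure_image (continuousAt_iot (iot_ne_zero hw0)) hi2
        rw [iot_iot hw0] at this
        exact closure_mono (fun x hx => Or.inr hx) this
    · push Not at h1
      exact closure_mono (fun x hx => Or.inl (Or.inr hx)) (hdense1 w hw h1)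
  have hclint : closure (interior (K1 s g)) = K1 s g :=
    Set.Subset.antisymm (closure_minimal interior_subset hclosed)
      (hdense.trans (closure_mono hOint))
  refine ⟨hcompact, pO.subset_closure hOint (interior_subset.trans hdense), hclint,
    ⟨⟨q, interior_subset (hWint qW)⟩, pO.subset_closure (hOint.trans interior_subset) hdense⟩⟩

end Pool.Agent.Stek
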