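import Pool.Agent.Stek.TFun

open scoped BigOperators ComplexConjugate Topology ContDiff
open Complex Metric InnerProductSpace

noncomputable section

namespace Pool.Agent.Stek

namespace PG7

theorem iot_ne {w : ℂ} (hw : w ≠ 0) : iot w ≠ 0 := by
  unfold iot
  have : conj w ≠ 0 := by rwa [Ne, map_eq_zero]
  exact div_ne_zero (by norm_num) this

theorem iot_iot {w : ℂ} (hw : w ≠ 0) : iot (iot w) = w := by
  have h : conj w ≠ 0 := by rwa [Ne, map_eq_zero]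
  unfold iot
  rw [map_div₀, map_neg, map_one, Complex.conj_conj]
  field_simp

theorem norm_iot (w : ℂ) : ‖iot w‖ = 1 / ‖w‖ := by
  unfold iot
  rw [norm_div, norm_neg, norm_one, RCLike.norm_conj]

theorem cont_iot {w : ℂ} (hw : w ≠ 0) : ContinuousAt iot w := by
  have h : conj w ≠ 0 := by rwa [Ne, map_eq_zero]
  unfold iot
  exact ContinuousAt.div continuousAt_const Complex.continuous_conj.continuousAt h

theorem sq {s : ℝ} (hs : s ∈ Set.Icc (1 / 20 : ℝ) (1 / 6)) :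
    0 < √s ∧ √s < 1 / 2 ∧ 2 < 1 / √s := by
  have h0 : 0 < √s := Real.sqrt_pos.2 (by linarith [hs.1])
  have h1 : √s < 1 / 2 := by
    rw [Real.sqrt_lt' (by norm_num)]
    have := hs.2
    norm_num
    linarith
  refine ⟨h0, h1, ?_⟩
  rw [lt_div_iff₀ h0]
  linarith

theorem RR_pos : 0 < RR := by unfold RR; positivity
theorem RR_lt : RR < 1 / 100 := by unfold RR; norm_num
theorem rr_pos : 0 < rr := by unfold rr; positivity
theorem rr_lt : rr < 1 / 100 := by unfold rr; norm_num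
theorem eps_pos : 0 < eps := by unfold eps; positivity
theorem eps_lt : eps < 1 / 100 := by unfold eps; norm_num

theorem Fm_bd (h1 : F1) {g : ℕ → ℂ} (hg : Gb (2 * eps) g) {ζ : ℂ} (hζ : ‖ζ‖ = 1) :
    9 / 10 < ‖Fm g ζ‖ ∧ ‖Fm g ζ‖ < 11 / 10 := by
  have h := (h1 g hg).2.1 ζ (by rw [hζ]; linarith [rr_lt])
  have e : eps * rr < 1 / 100 := by
    have := eps_lt; have := rr_lt; have := eps_pos; have := rr_pos
    nlinarith
  have a1 := abs_le.1 (abs_norm_sub_norm_le (Fm g ζ) ζ)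
  rw [hζ] at a1
  constructor <;> linarith [a1.1, a1.2]

/-- The points where all the conditions of `K1` hold in the strict sense are interior. -/
theorem mem_int {s : ℝ} {g : ℕ → ℂ} (hs : s ∈ Set.Icc (1 / 20 : ℝ) (1 / 6)) {w : ℂ}
    (h1 : √s < ‖w‖) (h2 : ‖w‖ < 1 / √s) (h3 : w ≠ 1) (h4 : iot w ≠ 1)
    (h5 : RR / (w - 1) ∈ interior (fillK g)) (h6 : RR / (iot w - 1) ∈ interior (fillK g)) :
    w ∈ interior (K1 s g) := by
  have hw : w ≠ 0 := by
    intro h; rw [h, norm_zero] at h1; linarith [(sq hs).1]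
  rw [mem_interior_iff_mem_nhds]
  have ci := cont_iot hw
  have e1 : ∀ᶠ v in 𝓝 w, √s < ‖v‖ := continuous_norm.continuousAt.eventually (lt_mem_nhds h1)
  have e2 : ∀ᶠ v in 𝓝 w, ‖v‖ < 1 / √s :=
    continuous_norm.continuousAt.eventually (gt_mem_nhds h2)
  have e3 : ∀ᶠ v in 𝓝 w, v ≠ 1 := eventually_ne_nhds h3
  have e4 : ∀ᶠ v in 𝓝 w, iot v ≠ 1 := ci.eventually (eventually_ne_nhds h4)
  have c5 : ContinuousAt (fun v : ℂ => (RR : ℂ) / (v - 1)) w :=
    ContinuousAt.div continuousAt_const (continuousAt_id.sub continuousAt_const)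
      (sub_ne_zero.2 h3)
  have c6 : ContinuousAt (fun v : ℂ => (RR : ℂ) / (iot v - 1)) w :=
    ContinuousAt.div continuousAt_const (ci.sub continuousAt_const) (sub_ne_zero.2 h4)
  have e5 : ∀ᶠ v in 𝓝 w, (RR : ℂ) / (v - 1) ∈ fillK g :=
    c5.eventually (mem_interior_iff_mem_nhds.1 h5)
  have e6 : ∀ᶠ v in 𝓝 w, (RR : ℂ) / (iot v - 1) ∈ fillK g :=
    c6.eventually (mem_interior_iff_mem_nhds.1 h6)
  filter_upwards [e1, e2, e3, e4, e5, e6] with v a1 a2 a3 a4 a5 a6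
  exact ⟨a1.le, a2.le, a3, a4, a5, a6⟩

theorem far (h2 : G2) {g : ℕ → ℂ} (hg : Gb (2 * eps) g) {w : ℂ} (hw : 1 / 3 ≤ ‖w - 1‖) :
    (RR : ℂ) / (w - 1) ∈ interior (fillK g) := by
  refine (h2 g hg).2.2.2.2.2.2.1 ?_
  rw [mem_ball_zero_iff, norm_div, Complex.norm_real, Real.norm_of_nonneg RR_pos.le,
    div_lt_iff₀ (by linarith)]
  linarith [RR_lt]

theorem norm_sub_one {w : ℂ} : 1 - ‖w‖ ≤ ‖w - 1‖ ∧ ‖w‖ - 1 ≤ ‖w - 1‖ := by
  have := abs_le.1 (abs_norm_sub_norm_le w 1)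
  rw [norm_one] at this
  constructor <;> linarith [this.1, this.2]

theorem w1_sub (h1 : F1) {g : ℕ → ℂ} (hg : Gb (2 * eps) g) {ζ : ℂ} (hζ : ‖ζ‖ = 1) :
    ‖w1 g ζ - 1‖ ≤ 2 * RR ∧ w1 g ζ ≠ 0 ∧ 9 / 10 < ‖w1 g ζ‖ ∧ ‖w1 g ζ‖ < 11 / 10 := by
  have hb := Fm_bd h1 hg hζ
  have e : ‖w1 g ζ - 1‖ ≤ 2 * RR := by
    unfold w1
    rw [add_sub_cancel_left, norm_div, Complex.norm_real, Real.norm_of_nonneg RR_pos.le,
      div_le_iff₀ (by linarith)]
    nlinarith [RR_pos, hb.1]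
  have hn := @norm_sub_one (w1 g ζ)
  have := RR_lt
  refine ⟨e, ?_, by linarith [hn.1], by linarith [hn.2]⟩
  intro h
  rw [h, norm_zero] at hn
  rw [h] at e
  linarith [hn.1]

theorem Fm_ne (h1 : F1) {g : ℕ → ℂ} (hg : Gb (2 * eps) g) {ζ : ℂ} (hζ : ‖ζ‖ = 1) :
    Fm g ζ ≠ 0 := by
  intro h
  have := (Fm_bd h1 hg hζ).1
  rw [h, norm_zero] at this
  linarith

theorem RR_ne : (RR : ℂ) ≠ 0 := by
  exact_mod_cast RR_pos.ne'

theorem back {x : ℂ} (hx : x ≠ 0) : (RR : ℂ) / (1 + RR / x - 1) = x := by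
  have := RR_ne
  rw [add_sub_cancel_left]
  field_simp

/-- The image of the unit circle is not in the interior. -/
theorem w1_not_int (h1 : F1) (h2 : G2) {s : ℝ} {g : ℕ → ℂ} (hg : Gb (2 * eps) g) {ζ : ℂ}
    (hζ : ‖ζ‖ = 1) : w1 g ζ ∉ interior (K1 s g) := by
  intro h
  have hF := Fm_ne h1 hg hζ
  have hfr : Fm g ζ ∈ frontier (fillK g) := by
    rw [(h2 g hg).2.2.2.2.1]
    exact ⟨ζ, hζ, rfl⟩
  refine hfr.2 ?_
  rw [mem_interior_iff_mem_nhds] at h ⊢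
  have c : ContinuousAt (fun x : ℂ => 1 + (RR : ℂ) / x) (Fm g ζ) :=
    continuousAt_const.add (ContinuousAt.div continuousAt_const continuousAt_id hF)
  have e1 : ∀ᶠ x in 𝓝 (Fm g ζ), 1 + (RR : ℂ) / x ∈ K1 s g := c.eventually h
  filter_upwards [e1, eventually_ne_nhds hF] with x hx hx0
  have := hx.2.2.2.2.1
  rwa [back hx0] at this

theorem iot_not_int (h5 : G5) {s : ℝ} (hs : s ∈ Set.Icc (1 / 20 : ℝ) (1 / 6)) {g : ℕ → ℂ}
    (hg : Gb (2 * eps) g) {w : ℂ} (hw : w ≠ 0) (h : w ∉ interior (K1 s g)) :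
    iot w ∉ interior (K1 s g) := by
  intro h'
  refine h ?_
  rw [mem_interior_iff_mem_nhds] at h' ⊢
  filter_upwards [(cont_iot hw).eventually h', eventually_ne_nhds hw] with v hv hv0
  have := ((h5 s g hs hg).2.2.2.2 _ hv).2.1
  rwa [iot_iot hv0] at this

theorem SN_mem (h5 : G5) {s : ℝ} (hs : s ∈ Set.Icc (1 / 20 : ℝ) (1 / 6)) {g : ℕ → ℂ}
    (hg : Gb (2 * eps) g) {w : ℂ} (hw : w ∈ SN1 s) : w ∈ K1 s g := by
  obtain ⟨a, b, c⟩ := sq hs
  have n1 := @norm_sub_one w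
  have n2 := @norm_sub_one (iot w)
  have hR := RR_lt
  have hR' := RR_pos
  rcases hw with hw | hw
  · have e : ‖iot w‖ = 1 / √s := by rw [norm_iot, hw]
    exact (h5 s g hs hg).2.2.1 w hw.ge (by linarith) (by linarith) (by linarith)
  · have e : ‖iot w‖ = √s := by rw [norm_iot, hw, one_div_one_div]
    exact (h5 s g hs hg).2.2.1 w (by linarith) hw.le (by linarith) (by linarith)

theorem SN_not_int {s : ℝ} (hs : s ∈ Set.Icc (1 / 20 : ℝ) (1 / 6)) {g : ℕ → ℂ}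
    {w : ℂ} (hw : w ∈ SN1 s) : w ∉ interior (K1 s g) := by
  intro h
  obtain ⟨a, b, c⟩ := sq hs
  rw [mem_interior_iff_mem_nhds] at h
  have ct : ContinuousAt (fun t : ℝ => (t : ℂ) * w) 1 := by fun_prop
  have e : ∀ᶠ t : ℝ in 𝓝 (1 : ℝ), (t : ℂ) * w ∈ K1 s g := by
    have h' : K1 s g ∈ 𝓝 (((1 : ℝ) : ℂ) * w) := by simpa using h
    exact ct.eventually h'
  rcases hw with hw | hw
  · have hlt : ∃ᶠ t in 𝓝 (1 : ℝ), t < 1 ∧ 0 < t := by
      have : ∃ᶠ t in 𝓝 (1 : ℝ), t < 1 := by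
        exact frequently_lt_nhds 1
      exact this.and_eventually (lt_mem_nhds one_pos)
    obtain ⟨t, ⟨h1, h0⟩, h2⟩ := (hlt.and_eventually e).exists
    have := h2.1
    rw [norm_mul, Complex.norm_real, Real.norm_of_nonneg h0.le, hw] at this
    nlinarith
  · have hlt : ∃ᶠ t in 𝓝 (1 : ℝ), 1 < t := frequently_gt_nhds 1
    obtain ⟨t, h1, h2⟩ := (hlt.and_eventually e).exists
    have := h2.2.1
    rw [norm_mul, Complex.norm_real, Real.norm_of_nonneg (by linarith), hw] at this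
    nlinarith

end PG7

open PG7 in
/-- STK-G7. -/
theorem g7 (h1 : F1) (h2 : G2) (h5 : G5) (h6 : G6) : G7 := by
  intro s g hs hg
  obtain ⟨a, b, c⟩ := sq hs
  have hcl : IsClosed (K1 s g) := (h6 s g hs hg).1.isClosed
  constructor
  · ext w
    rw [hcl.frontier_eq]
    constructor
    · rintro ⟨hw, hn⟩
      have hw' := hw
      obtain ⟨k1, k2, k3, k4, k5, k6⟩ := hw
      by_contra hcon
      refine hn ?_
      simp only [Set.mem_union, not_or] at hcon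
      obtain ⟨hc1, hc2, hc3⟩ := hcon
      have hfr : frontier (fillK g) = Fm g '' {ζ | ‖ζ‖ = 1} := (h2 g hg).2.2.2.2.1
      have hcF : IsClosed (fillK g) := (h2 g hg).1.isClosed
      have n1 : ‖w‖ ≠ √s := fun h => hc1 (Or.inl h)
      have n2 : ‖w‖ ≠ 1 / √s := fun h => hc1 (Or.inr h)
      have i0 := (h5 s g hs hg).2.2.2.2 w hw'
      refine mem_int hs (lt_of_le_of_ne k1 n1.symm) (lt_of_le_of_ne k2 n2) k3 k4 ?_ ?_
      · by_contra hni
        have : (RR : ℂ) / (w - 1) ∈ frontier (fillK g) := by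
          rw [hcF.frontier_eq]; exact ⟨k5, hni⟩
        rw [hfr] at this
        obtain ⟨ζ, hζ, he⟩ := this
        refine hc2 ⟨ζ, hζ, ?_⟩
        unfold w1
        rw [he]
        have := RR_ne
        have : w - 1 ≠ 0 := sub_ne_zero.2 k3
        field_simp
        ring
      · by_contra hni
        have : (RR : ℂ) / (iot w - 1) ∈ frontier (fillK g) := by
          rw [hcF.frontier_eq]; exact ⟨k6, hni⟩
        rw [hfr] at this
        obtain ⟨ζ, hζ, he⟩ := this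
        refine hc3 ⟨iot w, ⟨ζ, hζ, ?_⟩, i0.2.2.1⟩
        unfold w1
        rw [he]
        have := RR_ne
        have : iot w - 1 ≠ 0 := sub_ne_zero.2 k4
        field_simp
        ring
    · rintro (hw | ⟨ζ, hζ, rfl⟩ | ⟨_, ⟨ζ, hζ, rfl⟩, rfl⟩)
      · exact ⟨SN_mem h5 hs hg hw, SN_not_int hs hw⟩
      · exact ⟨(h5 s g hs hg).2.1 ζ hζ, w1_not_int h1 h2 hg hζ⟩
      · refine ⟨((h5 s g hs hg).2.2.2.2 _ ((h5 s g hs hg).2.1 ζ hζ)).2.1, ?_⟩
        exact iot_not_int h5 hs hg (w1_sub h1 hg hζ).2.1 (w1_not_int h1 h2 hg hζ)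
  · rw [Set.disjoint_left]
    rintro w hw (⟨ζ, hζ, rfl⟩ | ⟨_, ⟨ζ, hζ, rfl⟩, rfl⟩)
    · obtain ⟨_, _, q1, q2⟩ := w1_sub h1 hg hζ
      rcases hw with hw | hw <;> rw [hw] at q1 q2 <;> linarith
    · obtain ⟨_, _, q1, q2⟩ := w1_sub h1 hg hζ
      have hp : 0 < ‖w1 g ζ‖ := by linarith
      rcases hw with hw | hw
      · rw [norm_iot, div_eq_iff hp.ne'] at hw
        nlinarith
      · rw [norm_iot, one_div, one_div, inv_inj] at hw
        linarith

end Pool.Agent.Stek
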