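import Pool.Agent.Stek.PG7

open scoped BigOperators ComplexConjugate Topology ContDiff
open Complex Metric InnerProductSpace

noncomputable section

namespace Pool.Agent.Stek

namespace PG8

open PG7

theorem normal_of {K : Set ℂ} {z n : ℂ} {φ : ℂ → ℝ} {c : ℝ} (hφ : ContDiffAt ℝ ∞ φ z)
    (h0 : φ z = 0) (hiff : ∀ᶠ w in 𝓝 z, w ∈ K ↔ φ w ≤ 0) (hn : ‖n‖ = 1) (hc : 0 < c)
    (hd : ∀ v, fderiv ℝ φ z v = c * (conj n * v).re) : IsOutwardNormal K z n := by
  have hnn : (conj n * n).re = 1 := by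
    rw [mul_comm, Complex.mul_conj, Complex.ofReal_re, Complex.normSq_eq_norm_sq, hn]
    norm_num
  have hle : ‖fderiv ℝ φ z‖ ≤ c := by
    refine ContinuousLinearMap.opNorm_le_bound _ hc.le fun v => ?_
    rw [hd v, Real.norm_eq_abs, abs_mul, abs_of_pos hc]
    refine mul_le_mul_of_nonneg_left ?_ hc.le
    refine (Complex.abs_re_le_norm _).trans ?_
    rw [norm_mul, RCLike.norm_conj, hn, one_mul]
  have hge : c ≤ ‖fderiv ℝ φ z‖ := by
    have h1 := (fderiv ℝ φ z).le_opNorm n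
    rw [hd n, hnn, hn, mul_one, mul_one, Real.norm_of_nonneg hc.le] at h1
    exact h1
  have he : ‖fderiv ℝ φ z‖ = c := le_antisymm hle hge
  refine ⟨φ, hφ, h0, ?_, hiff, hn, fun v => ?_⟩
  · intro h
    rw [h, norm_zero] at he
    linarith
  · rw [he, hd v]

theorem ev_strict {s : ℝ} {g : ℕ → ℂ} (hs : s ∈ Set.Icc (1 / 20 : ℝ) (1 / 6)) {w0 : ℂ}
    (h1 : √s < ‖w0‖) (h2 : ‖w0‖ < 1 / √s) (h3 : w0 ≠ 1) (h4 : iot w0 ≠ 1)
    (h6 : RR / (iot w0 - 1) ∈ interior (fillK g)) :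
    ∀ᶠ w in 𝓝 w0, w ∈ K1 s g ↔ (RR : ℂ) / (w - 1) ∈ fillK g := by
  have hw : w0 ≠ 0 := by
    intro h; rw [h, norm_zero] at h1; linarith [(sq hs).1]
  have ci := cont_iot hw
  have e1 : ∀ᶠ v in 𝓝 w0, √s < ‖v‖ := continuous_norm.continuousAt.eventually (lt_mem_nhds h1)
  have e2 : ∀ᶠ v in 𝓝 w0, ‖v‖ < 1 / √s :=
    continuous_norm.continuousAt.eventually (gt_mem_nhds h2)
  have e3 : ∀ᶠ v in 𝓝 w0, v ≠ 1 := eventually_ne_nhds h3
  have e4 : ∀ᶠ v in 𝓝 w0, iot v ≠ 1 := ci.eventually (eventually_ne_nhds h4)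
  have c6 : ContinuousAt (fun v : ℂ => (RR : ℂ) / (iot v - 1)) w0 :=
    ContinuousAt.div continuousAt_const (ci.sub continuousAt_const) (sub_ne_zero.2 h4)
  have e6 : ∀ᶠ v in 𝓝 w0, (RR : ℂ) / (iot v - 1) ∈ fillK g :=
    c6.eventually (mem_interior_iff_mem_nhds.1 h6)
  filter_upwards [e1, e2, e3, e4, e6] with v a1 a2 a3 a4 a6
  exact ⟨fun h => h.2.2.2.2.1, fun h => ⟨a1.le, a2.le, a3, a4, h, a6⟩⟩

theorem ev_norm {s : ℝ} {g : ℕ → ℂ} {w0 : ℂ} (hw : w0 ≠ 0) (h3 : w0 ≠ 1) (h4 : iot w0 ≠ 1)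
    (h5 : RR / (w0 - 1) ∈ interior (fillK g))
    (h6 : RR / (iot w0 - 1) ∈ interior (fillK g)) :
    ∀ᶠ w in 𝓝 w0, w ∈ K1 s g ↔ (√s ≤ ‖w‖ ∧ ‖w‖ ≤ 1 / √s) := by
  have ci := cont_iot hw
  have e3 : ∀ᶠ v in 𝓝 w0, v ≠ 1 := eventually_ne_nhds h3
  have e4 : ∀ᶠ v in 𝓝 w0, iot v ≠ 1 := ci.eventually (eventually_ne_nhds h4)
  have c5 : ContinuousAt (fun v : ℂ => (RR : ℂ) / (v - 1)) w0 :=
    ContinuousAt.div continuousAt_const (continuousAt_id.sub continuousAt_const)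
      (sub_ne_zero.2 h3)
  have c6 : ContinuousAt (fun v : ℂ => (RR : ℂ) / (iot v - 1)) w0 :=
    ContinuousAt.div continuousAt_const (ci.sub continuousAt_const) (sub_ne_zero.2 h4)
  have e5 : ∀ᶠ v in 𝓝 w0, (RR : ℂ) / (v - 1) ∈ fillK g :=
    c5.eventually (mem_interior_iff_mem_nhds.1 h5)
  have e6 : ∀ᶠ v in 𝓝 w0, (RR : ℂ) / (iot v - 1) ∈ fillK g :=
    c6.eventually (mem_interior_iff_mem_nhds.1 h6)
  filter_upwards [e3, e4, e5, e6] with v a3 a4 a5 a6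
  exact ⟨fun h => ⟨h.1, h.2.1⟩, fun h => ⟨h.1, h.2, a3, a4, a5, a6⟩⟩

theorem iot_sub_one {w : ℂ} (hw : w ≠ 0) : ‖iot w - 1‖ = ‖w + 1‖ / ‖w‖ := by
  have h : conj w ≠ 0 := by rwa [Ne, map_eq_zero]
  have e : iot w - 1 = -(conj (w + 1)) / conj w := by
    unfold iot
    rw [map_add, map_one]
    field_simp
    ring
  rw [e, norm_div, norm_neg, RCLike.norm_conj, RCLike.norm_conj]

theorem w1_iot (h1 : F1) {g : ℕ → ℂ} (hg : Gb (2 * eps) g) {ζ : ℂ} (hζ : ‖ζ‖ = 1) :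
    1 / 3 ≤ ‖iot (w1 g ζ) - 1‖ := by
  obtain ⟨e, h0, q1, q2⟩ := w1_sub h1 hg hζ
  rw [iot_sub_one h0, le_div_iff₀ (by linarith)]
  have : ‖(2 : ℂ)‖ ≤ ‖w1 g ζ + 1‖ + ‖w1 g ζ - 1‖ := by
    have := norm_sub_le (w1 g ζ + 1) (w1 g ζ - 1)
    have e2 : w1 g ζ + 1 - (w1 g ζ - 1) = 2 := by ring
    rwa [e2] at this
  have h2 : ‖(2 : ℂ)‖ = 2 := by norm_num
  rw [h2] at this
  have := RR_lt
  linarith

theorem mem_fill_iff (h2 : G2) {g : ℕ → ℂ} (hg : Gb (2 * eps) g) {G : ℂ → ℂ}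
    (hG : ∀ z, 2 * rr < ‖z‖ → rr < ‖G z‖ ∧ Fm g (G z) = z ∧ ‖G z - z‖ ≤ eps * rr) {x : ℂ}
    (hx : 2 * rr < ‖x‖) : x ∈ fillK g ↔ ‖G x‖ ≤ 1 := by
  obtain ⟨c1, _, _, _, hfr, _, _, hin, hout⟩ := h2 g hg
  obtain ⟨a, b, _⟩ := hG x hx
  constructor
  · intro h
    by_contra hc
    have := hout (G x) (not_le.1 hc)
    rw [b] at this
    exact this h
  · intro h
    rcases lt_or_eq_of_le h with h | h
    · have := hin (G x) a h
      rw [b] at this
      exact interior_subset this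
    · have : x ∈ frontier (fillK g) := by
        rw [hfr]; exact ⟨G x, h, b⟩
      exact c1.isClosed.frontier_subset this

theorem circ (h1 : F1) (h2f : F2) (h2 : G2) {s : ℝ} (hs : s ∈ Set.Icc (1 / 20 : ℝ) (1 / 6))
    {g : ℕ → ℂ} (hg : Gb (2 * eps) g) {ζ : ℂ} (hζ : ‖ζ‖ = 1) :
    IsOutwardNormal (K1 s g) (w1 g ζ) (deriv (w1 g) ζ * ζ / ‖deriv (w1 g) ζ‖) := by
  obtain ⟨G, gd, gp, gi⟩ := h2f g hg
  obtain ⟨hsub, hw0, q1, q2⟩ := w1_sub h1 hg hζ
  obtain ⟨sa, sb, sc⟩ := sq hs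
  have hF := Fm_ne h1 hg hζ
  have hFb := Fm_bd h1 hg hζ
  have hrr := rr_lt
  have hrr' := rr_pos
  have hw1 : w1 g ζ ≠ 1 := by
    intro h
    unfold w1 at h
    have : (RR : ℂ) / Fm g ζ = 0 := by linear_combination h
    exact div_ne_zero RR_ne hF this
  have hsub0 : w1 g ζ - 1 ≠ 0 := sub_ne_zero.2 hw1
  have hval : (RR : ℂ) / (w1 g ζ - 1) = Fm g ζ := back hF
  -- the map `Φ`
  have hopen : IsOpen {z : ℂ | 2 * rr < ‖z‖} := isOpen_lt continuous_const continuous_norm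
  have hmem : Fm g ζ ∈ {z : ℂ | 2 * rr < ‖z‖} := by
    show 2 * rr < ‖Fm g ζ‖
    linarith [hFb.1]
  have hGa : AnalyticAt ℂ G (Fm g ζ) := gd.analyticAt (hopen.mem_nhds hmem)
  have hψ : AnalyticAt ℂ (fun w : ℂ => (RR : ℂ) / (w - 1)) (w1 g ζ) :=
    analyticAt_const.div (analyticAt_id.sub analyticAt_const) hsub0
  have hΦa : AnalyticAt ℂ (fun w : ℂ => G ((RR : ℂ) / (w - 1))) (w1 g ζ) := by
    have : AnalyticAt ℂ G ((RR : ℂ) / (w1 g ζ - 1)) := by rw [hval]; exact hGa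
    exact AnalyticAt.fun_comp this hψ
  set Φ : ℂ → ℂ := fun w : ℂ => G ((RR : ℂ) / (w - 1)) with hΦ
  have hΦζ : Φ (w1 g ζ) = ζ := by
    rw [hΦ]
    show G ((RR : ℂ) / (w1 g ζ - 1)) = ζ
    rw [hval]
    exact gi ζ (by rw [hζ]; linarith)
  -- the derivative of `w1`
  have hFd : DifferentiableAt ℂ (Fm g) ζ := by
    refine (h1 g hg).1.differentiableAt ?_
    exact (isOpen_lt continuous_const continuous_norm).mem_nhds
      (show rr < ‖ζ‖ by rw [hζ]; linarith)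
  have hwd : DifferentiableAt ℂ (w1 g) ζ := by
    unfold w1
    exact (differentiableAt_const _).add ((differentiableAt_const _).div hFd hF)
  have hprod : deriv Φ (w1 g ζ) * deriv (w1 g) ζ = 1 := by
    have c1 : HasDerivAt (Φ ∘ w1 g) (deriv Φ (w1 g ζ) * deriv (w1 g) ζ) ζ :=
      HasDerivAt.comp ζ hΦa.differentiableAt.hasDerivAt hwd.hasDerivAt
    have ev : (Φ ∘ w1 g) =ᶠ[𝓝 ζ] id := by
      have a1 : ∀ᶠ x in 𝓝 ζ, 3 * rr < ‖x‖ :=
        continuous_norm.continuousAt.eventually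
          (lt_mem_nhds (by show 3 * rr < ‖ζ‖; rw [hζ]; linarith))
      have a2 : ∀ᶠ x in 𝓝 ζ, Fm g x ≠ 0 := hFd.continuousAt.eventually (eventually_ne_nhds hF)
      filter_upwards [a1, a2] with x b1 b2
      show G ((RR : ℂ) / (1 + RR / Fm g x - 1)) = x
      rw [back b2]
      exact gi x b1
    exact (c1.congr_of_eventuallyEq ev.symm).unique (hasDerivAt_id ζ)
  have hd0 : deriv (w1 g) ζ ≠ 0 := right_ne_zero_of_mul_eq_one hprod
  have hnd : 0 < ‖deriv (w1 g) ζ‖ := norm_pos_iff.2 hd0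
  refine normal_of (φ := fun w => ‖Φ w‖ ^ 2 - 1) (c := 2 / ‖deriv (w1 g) ζ‖) ?_ ?_ ?_ ?_
    (by positivity) ?_
  · exact ((hΦa.contDiffAt.restrict_scalars ℝ).norm_sq ℝ).sub contDiffAt_const
  · show ‖Φ (w1 g ζ)‖ ^ 2 - 1 = 0
    rw [hΦζ, hζ]; norm_num
  · have hi : iot (w1 g ζ) ≠ 1 := by
      intro h
      have := w1_iot h1 hg hζ
      rw [h, sub_self, norm_zero] at this
      linarith
    have e1 := ev_strict (g := g) hs (w0 := w1 g ζ) (by linarith) (by linarith) hw1 hi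
      (far h2 hg (w1_iot h1 hg hζ))
    have e2 : ∀ᶠ w in 𝓝 (w1 g ζ), 2 * rr < ‖(RR : ℂ) / (w - 1)‖ := by
      have c : ContinuousAt (fun w : ℂ => ‖(RR : ℂ) / (w - 1)‖) (w1 g ζ) :=
        hψ.continuousAt.norm
      refine c.eventually (lt_mem_nhds ?_)
      show 2 * rr < ‖(RR : ℂ) / (w1 g ζ - 1)‖
      rw [hval]; exact hmem
    filter_upwards [e1, e2] with w a1 a2
    rw [a1, mem_fill_iff h2 hg gp a2]
    show ‖Φ w‖ ≤ 1 ↔ ‖Φ w‖ ^ 2 - 1 ≤ 0
    rw [sub_nonpos, sq_le_one_iff₀ (norm_nonneg _)]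
  · rw [norm_div, norm_mul, hζ, mul_one, Complex.norm_real, norm_norm, div_self hnd.ne']
  · intro v
    have hh : HasFDerivAt Φ ((deriv Φ (w1 g ζ)) • (1 : ℂ →L[ℝ] ℂ)) (w1 g ζ) :=
      hΦa.differentiableAt.hasDerivAt.complexToReal_fderiv
    have h3 := (hh.norm_sq.sub_const 1).fderiv
    rw [h3]
    simp only [ContinuousLinearMap.smul_apply, ContinuousLinearMap.comp_apply,
      innerSL_apply_apply, ContinuousLinearMap.one_apply, smul_eq_mul, nsmul_eq_mul]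
    rw [hΦζ, Complex.inner]
    have hΦd : deriv Φ (w1 g ζ) = 1 / deriv (w1 g) ζ := by
      rw [eq_div_iff hd0]; exact hprod
    have hc0 : conj (deriv (w1 g) ζ) ≠ 0 := by rwa [Ne, map_eq_zero]
    have hinv : 1 / deriv (w1 g) ζ = conj (deriv (w1 g) ζ) / (‖deriv (w1 g) ζ‖ ^ 2 : ℝ) := by
      have : deriv (w1 g) ζ * conj (deriv (w1 g) ζ) = (‖deriv (w1 g) ζ‖ ^ 2 : ℝ) := by
        rw [Complex.mul_conj, Complex.normSq_eq_norm_sq]
      rw [← this]
      field_simp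
    rw [hΦd, hinv, map_div₀, map_mul, Complex.conj_ofReal]
    have hn0 : ((‖deriv (w1 g) ζ‖ : ℝ) : ℂ) ≠ 0 := by exact_mod_cast hnd.ne'
    have e : conj (deriv (w1 g) ζ) * conj ζ / (‖deriv (w1 g) ζ‖ : ℂ) * v =
        ((‖deriv (w1 g) ζ‖ : ℝ) : ℂ) *
        (conj (deriv (w1 g) ζ) / ((‖deriv (w1 g) ζ‖ ^ 2 : ℝ) : ℂ) * v * conj ζ) := by
      push_cast
      field_simp
    rw [e, Complex.re_ofReal_mul]
    push_cast
    field_simp

theorem inner_circ (h2 : G2) {s : ℝ} (hs : s ∈ Set.Icc (1 / 20 : ℝ) (1 / 6))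
    {g : ℕ → ℂ} (hg : Gb (2 * eps) g) {w : ℂ} (hw : w ∈ SN1 s) :
    ∀ᶠ v in 𝓝 w, v ∈ K1 s g ↔ (√s ≤ ‖v‖ ∧ ‖v‖ ≤ 1 / √s) := by
  obtain ⟨a, b, c⟩ := sq hs
  have n1 := @norm_sub_one w
  have n2 := @norm_sub_one (iot w)
  have hq : w ≠ 0 ∧ 1 / 3 ≤ ‖w - 1‖ ∧ 1 / 3 ≤ ‖iot w - 1‖ := by
    rcases hw with hw | hw
    · have e : ‖iot w‖ = 1 / √s := by rw [norm_iot, hw]
      refine ⟨?_, by linarith, by linarith⟩
      intro h; rw [h, norm_zero] at hw; linarith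
    · have e : ‖iot w‖ = √s := by rw [norm_iot, hw, one_div_one_div]
      refine ⟨?_, by linarith, by linarith⟩
      intro h; rw [h, norm_zero] at hw; linarith
  refine ev_norm hq.1 ?_ ?_ (far h2 hg hq.2.1) (far h2 hg hq.2.2)
  · intro h
    have := hq.2.1
    rw [h, sub_self, norm_zero] at this
    linarith
  · intro h
    have := hq.2.2
    rw [h, sub_self, norm_zero] at this
    linarith

theorem unit_n {w : ℂ} (hw : 0 < ‖w‖) : ‖w / (‖w‖ : ℂ)‖ = 1 := by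
  rw [norm_div, Complex.norm_real, norm_norm, div_self hw.ne']

theorem fder_sq (w v : ℂ) : fderiv ℝ (fun x : ℂ => ‖x‖ ^ 2) w v = 2 * (conj w * v).re := by
  rw [(hasStrictFDerivAt_norm_sq w).hasFDerivAt.fderiv]
  simp only [ContinuousLinearMap.smul_apply, innerSL_apply_apply, nsmul_eq_mul]
  rw [Complex.inner, mul_comm v]
  norm_num

theorem conj_n {w v : ℂ} (hw : 0 < ‖w‖) :
    (conj (w / (‖w‖ : ℂ)) * v).re = (conj w * v).re / ‖w‖ := by
  rw [map_div₀, Complex.conj_ofReal, div_mul_eq_mul_div, Complex.div_ofReal_re]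

end PG8

open PG7 PG8 in
/-- STK-G8. -/
theorem g8 (h1 : F1) (h2f : F2) (h2 : G2) (h5 : G5) (h6 : G6) : G8 := by
  intro s g hs hg
  obtain ⟨a, b, c⟩ := sq hs
  have hss : √s ^ 2 = s := Real.sq_sqrt (by linarith [hs.1])
  refine ⟨fun ζ hζ => circ h1 h2f h2 hs hg hζ, fun w hw => ?_, fun w hw => ?_, ?_⟩
  · have hp : 0 < ‖w‖ := by rw [hw]; exact a
    refine normal_of (φ := fun w => s - ‖w‖ ^ 2) (c := 2 * √s) ?_ ?_ ?_ ?_ (by positivity) ?_
    · exact contDiffAt_const.sub (contDiffAt_id.norm_sq ℝ)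
    · show s - ‖w‖ ^ 2 = 0
      rw [hw, hss, sub_self]
    · have e := inner_circ h2 hs hg (w := w) (Or.inl hw)
      have e2 : ∀ᶠ v in 𝓝 w, ‖v‖ < 1 / √s :=
        continuous_norm.continuousAt.eventually (gt_mem_nhds (by linarith))
      filter_upwards [e, e2] with v q1 q2
      rw [q1, sub_nonpos]
      constructor
      · intro h
        rw [← hss]
        exact pow_le_pow_left₀ a.le h.1 2
      · intro h
        refine ⟨?_, q2.le⟩
        rw [← hss] at h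
        exact le_of_sq_le_sq h (norm_nonneg _) |> fun h => h
    · rw [neg_div, norm_neg]; exact unit_n hp
    · intro v
      have : fderiv ℝ (fun w : ℂ => s - ‖w‖ ^ 2) w v = -(2 * (conj w * v).re) := by
        rw [fderiv_const_sub, ContinuousLinearMap.neg_apply, fder_sq]
      rw [this, neg_div, map_neg, neg_mul, Complex.neg_re, conj_n hp, hw]
      field_simp
  · have hp : 0 < ‖w‖ := by rw [hw]; positivity
    refine normal_of (φ := fun w => ‖w‖ ^ 2 - (1 / √s) ^ 2) (c := 2 * (1 / √s)) ?_ ?_ ?_ ?_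
      (by positivity) ?_
    · exact (contDiffAt_id.norm_sq ℝ).sub contDiffAt_const
    · show ‖w‖ ^ 2 - (1 / √s) ^ 2 = 0
      rw [hw, sub_self]
    · have e := inner_circ h2 hs hg (w := w) (Or.inr hw)
      have e2 : ∀ᶠ v in 𝓝 w, √s < ‖v‖ :=
        continuous_norm.continuousAt.eventually (lt_mem_nhds (by linarith))
      filter_upwards [e, e2] with v q1 q2
      rw [q1, sub_nonpos]
      constructor
      · intro h
        exact pow_le_pow_left₀ (norm_nonneg _) h.2 2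
      · intro h
        exact ⟨q2.le, le_of_sq_le_sq h (by positivity)⟩
    · exact unit_n hp
    · intro v
      have : fderiv ℝ (fun w : ℂ => ‖w‖ ^ 2 - (1 / √s) ^ 2) w v = 2 * (conj w * v).re := by
        rw [fderiv_sub_const, fder_sq]
      rw [this, conj_n hp, hw]
      field_simp
  · intro w n hw hn
    have hcl : IsClosed (K1 s g) := (h6 s g hs hg).1.isClosed
    have hwK := hcl.frontier_subset hw
    obtain ⟨hw0, hiK, hii, _, _, _⟩ := (h5 s g hs hg).2.2.2.2 w hwK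
    obtain ⟨φ, p1, p2, p3, p4, p5, p6⟩ := hn
    have hi0 := iot_ne hw0
    have hci0 : conj (iot w) ≠ 0 := by rwa [Ne, map_eq_zero]
    have hcw : conj w ≠ 0 := by rwa [Ne, map_eq_zero]
    have hwn : 0 < ‖w‖ := norm_pos_iff.2 hw0
    have hconj : HasFDerivAt (fun u : ℂ => conj u) (Complex.conjCLE : ℂ →L[ℝ] ℂ) (iot w) :=
      Complex.conjCLE.hasFDerivAt
    have hinv : HasDerivAt (fun x : ℂ => -1 / x) (1 / (conj (iot w)) ^ 2) (conj (iot w)) := by
      have := (hasDerivAt_inv hci0).const_mul (-1)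
      have e : 1 / (conj (iot w)) ^ 2 = -1 * -((conj (iot w)) ^ 2)⁻¹ := by ring
      rw [e]
      exact this
    have hfd : HasFDerivAt iot (((1 / (conj (iot w)) ^ 2) • (1 : ℂ →L[ℝ] ℂ)).comp
        (Complex.conjCLE : ℂ →L[ℝ] ℂ)) (iot w) :=
      HasFDerivAt.comp (iot w) hinv.complexToReal_fderiv hconj
    have hsm : ContDiffAt ℝ ∞ iot (iot w) := by
      have e : iot = fun u : ℂ => (-1 : ℂ) * (Complex.conjCLE u)⁻¹ := by
        funext u; unfold iot; rw [div_eq_mul_inv]; rfl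
      rw [e]
      exact contDiffAt_const.mul (Complex.conjCLE.contDiff.contDiffAt.inv hci0)
    have hφd : HasFDerivAt φ (fderiv ℝ φ w) w := (p1.differentiableAt (by simp)).hasFDerivAt
    have hφd' : HasFDerivAt φ (fderiv ℝ φ w) (iot (iot w)) := by rw [hii]; exact hφd
    have hcomp := HasFDerivAt.comp (iot w) hφd' hfd
    have hcz : 1 / (conj (iot w)) ^ 2 = w ^ 2 := by
      unfold iot
      rw [map_div₀, map_neg, map_one, Complex.conj_conj]
      field_simp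
    refine normal_of (φ := φ ∘ iot) (c := ‖fderiv ℝ φ w‖ * ‖w‖ ^ 2) ?_ ?_ ?_ ?_ ?_ ?_
    · exact ContDiffAt.comp (iot w) (by rw [hii]; exact p1) hsm
    · show φ (iot (iot w)) = 0
      rw [hii, p2]
    · have e1 : ∀ᶠ u in 𝓝 (iot w), iot u ∈ K1 s g ↔ φ (iot u) ≤ 0 := by
        have : Filter.Tendsto iot (𝓝 (iot w)) (𝓝 w) := by
          have := cont_iot hi0
          rwa [ContinuousAt, hii] at this
        exact this.eventually p4
      filter_upwards [e1, eventually_ne_nhds hi0] with u q1 q2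
      show u ∈ K1 s g ↔ φ (iot u) ≤ 0
      rw [← q1]
      constructor
      · intro h
        exact ((h5 s g hs hg).2.2.2.2 u h).2.1
      · intro h
        have := ((h5 s g hs hg).2.2.2.2 _ h).2.1
        rwa [iot_iot q2] at this
    · rw [norm_div, norm_mul, norm_pow, norm_pow, RCLike.norm_conj, RCLike.norm_conj, p5,
        Complex.norm_real, norm_norm, mul_one, div_self (by positivity)]
    · have : 0 < ‖fderiv ℝ φ w‖ := norm_pos_iff.2 p3
      positivity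
    · intro v
      rw [hcomp.fderiv]
      simp only [ContinuousLinearMap.comp_apply, ContinuousLinearMap.smul_apply,
        ContinuousLinearMap.one_apply, smul_eq_mul]
      rw [hcz, p6]
      have e1 : (conj n * (w ^ 2 * (Complex.conjCLE : ℂ →L[ℝ] ℂ) v)).re =
          (n * (conj w) ^ 2 * v).re := by
        have : conj (n * (conj w) ^ 2 * v) = conj n * (w ^ 2 * (Complex.conjCLE : ℂ →L[ℝ] ℂ) v) := by
          simp
          ring
        rw [← this, Complex.conj_re]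
      rw [e1]
      have e2 : conj ((‖w‖ : ℂ) ^ 2 * conj n / (conj w) ^ 2) * v =
          (((‖w‖ ^ 2)⁻¹ : ℝ) : ℂ) * (n * (conj w) ^ 2 * v) := by
        have h3 : (‖w‖ : ℂ) ^ 2 = w * conj w := by
          rw [Complex.mul_conj, Complex.normSq_eq_norm_sq]; push_cast; ring
        rw [map_div₀, map_mul, map_pow, map_pow, Complex.conj_conj, Complex.conj_conj,
          Complex.conj_ofReal]
        push_cast
        rw [h3]
        field_simp
      rw [e2, Complex.re_ofReal_mul]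
      field_simp

end Pool.Agent.Stek
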