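import Pool.Agent.Stek.TFun

/-!
# G9: the first surface
-/

open scoped BigOperators ComplexConjugate Topology ContDiff
open Complex Metric InnerProductSpace

noncomputable section

namespace Pool.Agent.Stek

namespace HG9

lemma RR_pos : 0 < RR := by unfold RR; positivity

lemma RR_ne : (RR : ℂ) ≠ 0 := by
  have := RR_pos
  exact_mod_cast this.ne'

lemma RR_small : RR ≤ 1 / 100 := by unfold RR; norm_num

lemma rr_pos : 0 < rr := by unfold rr; positivity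

lemma rr_small : rr ≤ 1 / 100 := by unfold rr; norm_num

lemma eps_pos : 0 < eps := by unfold eps; positivity

lemma eps_small : eps ≤ 1 / 100 := by unfold eps; norm_num

/-- the correction of the metric near the hole -/
def psi (g : ℕ → ℂ) (G : ℂ → ℂ) (w : ℂ) : ℝ :=
  -Real.log ‖deriv (w1 g) (G ((RR : ℂ) / (w - 1)))‖ + Real.log (1 + ‖w‖ ^ 2)

def EE (g : ℕ → ℂ) (G : ℂ → ℂ) (w : ℂ) : ℝ :=
  Real.smoothTransition (8 * ‖(RR : ℂ) / (w - 1)‖ ^ 2 - 1) * psi g G w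

def lamf (g : ℕ → ℂ) (G : ℂ → ℂ) (w : ℂ) : ℝ :=
  -Real.log (1 + ‖w‖ ^ 2) + EE g G w + EE g G (iot w)

lemma Fm_bound {g : ℕ → ℂ} (hF : ∀ ζ, rr ≤ ‖ζ‖ → ‖Fm g ζ - ζ‖ ≤ eps * rr) {ζ : ℂ}
    (hζ : rr < ‖ζ‖) : Fm g ζ ≠ 0 := by
  intro h
  have h1 := hF ζ hζ.le
  rw [h, zero_sub, norm_neg] at h1
  have := rr_pos
  have := eps_small
  nlinarith

lemma w1_hasDeriv {g : ℕ → ℂ} (hd : DifferentiableOn ℂ (Fm g) {ζ | rr < ‖ζ‖})
    (hF : ∀ ζ, rr ≤ ‖ζ‖ → ‖Fm g ζ - ζ‖ ≤ eps * rr) {ζ : ℂ} (hζ : rr < ‖ζ‖) :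
    HasDerivAt (w1 g) (-(RR * deriv (Fm g) ζ) / Fm g ζ ^ 2) ζ := by
  have ho : IsOpen {ζ : ℂ | rr < ‖ζ‖} := isOpen_lt continuous_const continuous_norm
  have h1 : HasDerivAt (Fm g) (deriv (Fm g) ζ) ζ :=
    (hd.differentiableAt (ho.mem_nhds hζ)).hasDerivAt
  have h2 := ((hasDerivAt_const ζ (RR : ℂ)).div h1 (Fm_bound hF hζ)).const_add 1
  have e : (0 * Fm g ζ - (RR : ℂ) * deriv (Fm g) ζ) / Fm g ζ ^ 2
      = -(RR * deriv (Fm g) ζ) / Fm g ζ ^ 2 := by ring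
  rw [e] at h2
  exact h2

lemma w1_deriv_ne {g : ℕ → ℂ} (hd : DifferentiableOn ℂ (Fm g) {ζ | rr < ‖ζ‖})
    (hF : ∀ ζ, rr ≤ ‖ζ‖ → ‖Fm g ζ - ζ‖ ≤ eps * rr)
    (hD : ∀ ζ, rr < ‖ζ‖ → ‖deriv (Fm g) ζ - 1‖ ≤ eps) {ζ : ℂ} (hζ : rr < ‖ζ‖) :
    deriv (w1 g) ζ ≠ 0 := by
  rw [(w1_hasDeriv hd hF hζ).deriv]
  have hne : deriv (Fm g) ζ ≠ 0 := by
    intro h
    have := hD ζ hζ
    rw [h, zero_sub, norm_neg, norm_one] at this
    have := eps_small
    linarith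
  exact div_ne_zero (neg_ne_zero.2 (mul_ne_zero RR_ne hne)) (pow_ne_zero _ (Fm_bound hF hζ))

lemma deriv_w1_diff {g : ℕ → ℂ} (hd : DifferentiableOn ℂ (Fm g) {ζ | rr < ‖ζ‖})
    (hF : ∀ ζ, rr ≤ ‖ζ‖ → ‖Fm g ζ - ζ‖ ≤ eps * rr) :
    DifferentiableOn ℂ (deriv (w1 g)) {ζ | rr < ‖ζ‖} := by
  have ho : IsOpen {ζ : ℂ | rr < ‖ζ‖} := isOpen_lt continuous_const continuous_norm
  have h1 : DifferentiableOn ℂ (w1 g) {ζ | rr < ‖ζ‖} := fun ζ hζ =>
    (w1_hasDeriv hd hF hζ).differentiableAt.differentiableWithinAt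
  exact h1.deriv ho

/-- the region where the correction is given by a holomorphic function -/
def VV : Set ℂ := {w | w ≠ 1 ∧ 2 * rr < ‖(RR : ℂ) / (w - 1)‖}

lemma cont_u {w : ℂ} (hw : w ≠ 1) : DifferentiableAt ℂ (fun w : ℂ => (RR : ℂ) / (w - 1)) w := by
  have d1 : DifferentiableAt ℂ (fun w : ℂ => w - 1) w := differentiableAt_id.sub_const 1
  exact (differentiableAt_const (RR : ℂ)).div d1 (sub_ne_zero.2 hw)

lemma VV_open : IsOpen VV := by
  rw [isOpen_iff_mem_nhds]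
  rintro w ⟨hw1, hw2⟩
  have h1 : ∀ᶠ x in 𝓝 w, x ≠ 1 := isOpen_ne.mem_nhds hw1
  have hc : ContinuousAt (fun w : ℂ => ‖(RR : ℂ) / (w - 1)‖) w := (cont_u hw1).continuousAt.norm
  have h2 : ∀ᶠ x in 𝓝 w, 2 * rr < ‖(RR : ℂ) / (x - 1)‖ := hc.eventually (lt_mem_nhds hw2)
  exact h1.and h2

lemma contDiff_u {w : ℂ} (hw : w ≠ 1) :
    ContDiffAt ℝ ∞ (fun w : ℂ => (RR : ℂ) / (w - 1)) w := by
  have h1 : ContDiffAt ℝ ∞ (fun w : ℂ => w - 1) w := contDiffAt_id.sub contDiffAt_const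
  have h2 : ContDiffAt ℝ ∞ (fun w : ℂ => (w - 1)⁻¹) w := h1.inv (sub_ne_zero.2 hw)
  have h3 : ContDiffAt ℝ ∞ (fun w : ℂ => (RR : ℂ) * (w - 1)⁻¹) w := contDiffAt_const.mul h2
  simpa only [div_eq_mul_inv] using h3

lemma psi_smooth {g : ℕ → ℂ} {G : ℂ → ℂ} (hd : DifferentiableOn ℂ (Fm g) {ζ | rr < ‖ζ‖})
    (hF : ∀ ζ, rr ≤ ‖ζ‖ → ‖Fm g ζ - ζ‖ ≤ eps * rr)
    (hD : ∀ ζ, rr < ‖ζ‖ → ‖deriv (Fm g) ζ - 1‖ ≤ eps)
    (hG1 : DifferentiableOn ℂ G {z | 2 * rr < ‖z‖})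
    (hG2 : ∀ z, 2 * rr < ‖z‖ → rr < ‖G z‖) {w : ℂ} (hw : w ∈ VV) :
    ContDiffAt ℝ ∞ (psi g G) w := by
  have h1 : DifferentiableOn ℂ (fun w : ℂ => deriv (w1 g) (G ((RR : ℂ) / (w - 1)))) VV := by
    refine (deriv_w1_diff hd hF).comp (hG1.comp ?_ ?_) ?_
    · intro x hx
      exact (cont_u hx.1).differentiableWithinAt
    · intro x hx
      exact hx.2
    · intro x hx
      exact hG2 _ hx.2
  have h2 : ContDiffAt ℝ ∞ (fun w : ℂ => deriv (w1 g) (G ((RR : ℂ) / (w - 1)))) w :=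
    ((h1.analyticAt (VV_open.mem_nhds hw)).contDiffAt (n := ∞)).restrict_scalars ℝ
  have hne : deriv (w1 g) (G ((RR : ℂ) / (w - 1))) ≠ 0 := w1_deriv_ne hd hF hD (hG2 _ hw.2)
  have h3 := (h2.norm ℝ hne).log (norm_ne_zero_iff.2 hne)
  have h4 : ContDiffAt ℝ ∞ (fun w : ℂ => Real.log (1 + ‖w‖ ^ 2)) w := by
    apply ContDiffAt.log
    · exact contDiffAt_const.add ((contDiff_norm_sq ℝ).contDiffAt)
    · positivity
  exact h3.neg.add h4

lemma EE_smooth {g : ℕ → ℂ} {G : ℂ → ℂ} (hd : DifferentiableOn ℂ (Fm g) {ζ | rr < ‖ζ‖})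
    (hF : ∀ ζ, rr ≤ ‖ζ‖ → ‖Fm g ζ - ζ‖ ≤ eps * rr)
    (hD : ∀ ζ, rr < ‖ζ‖ → ‖deriv (Fm g) ζ - 1‖ ≤ eps)
    (hG1 : DifferentiableOn ℂ G {z | 2 * rr < ‖z‖})
    (hG2 : ∀ z, 2 * rr < ‖z‖ → rr < ‖G z‖) {w : ℂ} (hw : w ≠ 1) :
    ContDiffAt ℝ ∞ (EE g G) w := by
  have hu : ContDiffAt ℝ ∞ (fun w : ℂ => 8 * ‖(RR : ℂ) / (w - 1)‖ ^ 2 - 1) w :=
    (contDiffAt_const.mul ((contDiff_u hw).norm_sq ℝ)).sub contDiffAt_const
  rcases lt_or_ge (8 * ‖(RR : ℂ) / (w - 1)‖ ^ 2 - 1) 0 with h | h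
  · have hev : ∀ᶠ x in 𝓝 w, 8 * ‖(RR : ℂ) / (x - 1)‖ ^ 2 - 1 < 0 :=
      hu.continuousAt.eventually (gt_mem_nhds h)
    have he : EE g G =ᶠ[𝓝 w] fun _ => 0 := by
      filter_upwards [hev] with x hx
      unfold EE
      rw [Real.smoothTransition.zero_of_nonpos hx.le, zero_mul]
    exact contDiffAt_const.congr_of_eventuallyEq he
  · have hmem : w ∈ VV := by
      refine ⟨hw, ?_⟩
      have h0 := norm_nonneg ((RR : ℂ) / (w - 1))
      have h1 := rr_small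
      by_contra hlt
      have h3 : ‖(RR : ℂ) / (w - 1)‖ ≤ 2 * rr := not_lt.1 hlt
      have h2 : ‖(RR : ℂ) / (w - 1)‖ ≤ 1 / 50 := by linarith
      nlinarith
    exact ((Real.smoothTransition.contDiff (n := ⊤)).contDiffAt.comp w hu).mul
      (psi_smooth hd hF hD hG1 hG2 hmem)

lemma iot_smooth {w : ℂ} (hw : w ≠ 0) : ContDiffAt ℝ ∞ iot w := by
  have h1 : ContDiffAt ℝ ∞ (fun w : ℂ => conj w) w := Complex.conjCLE.contDiff.contDiffAt
  have h2 : conj w ≠ 0 := (map_ne_zero (starRingEnd ℂ)).2 hw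
  have h3 : ContDiffAt ℝ ∞ (fun w : ℂ => (conj w)⁻¹) w := h1.inv h2
  have h4 : ContDiffAt ℝ ∞ (fun w : ℂ => (-1 : ℂ) * (conj w)⁻¹) w := contDiffAt_const.mul h3
  have e : iot = fun w : ℂ => (-1 : ℂ) * (conj w)⁻¹ := by
    funext w
    unfold iot
    rw [div_eq_mul_inv]
  rw [e]
  exact h4

lemma iot_fderiv {w : ℂ} (hw : w ≠ 0) (v : ℂ) :
    fderiv ℝ iot w v = conj v / conj w ^ 2 := by
  have h2 : conj w ≠ 0 := (map_ne_zero (starRingEnd ℂ)).2 hw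
  have h1 : HasDerivAt (fun z : ℂ => -1 / z) (1 / conj w ^ 2) (conj w) := by
    have h := (hasDerivAt_const (conj w) (-1 : ℂ)).div (hasDerivAt_id (conj w)) h2
    have e : (0 * id (conj w) - (-1 : ℂ) * 1) / id (conj w) ^ 2 = 1 / conj w ^ 2 := by simp
    rw [e] at h
    exact h
  have h3 : HasFDerivAt (fun z : ℂ => -1 / z)
      ((ContinuousLinearMap.toSpanSingleton ℂ (1 / conj w ^ 2)).restrictScalars ℝ) (conj w) :=
    h1.hasFDerivAt.restrictScalars ℝ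
  have h4 : HasFDerivAt (fun z : ℂ => conj z) (Complex.conjCLE : ℂ →L[ℝ] ℂ) w :=
    Complex.conjCLE.hasFDerivAt
  have h5 := h3.comp w h4
  have h6 : HasFDerivAt iot (((ContinuousLinearMap.toSpanSingleton ℂ
      (1 / conj w ^ 2)).restrictScalars ℝ).comp (Complex.conjCLE : ℂ →L[ℝ] ℂ)) w := h5
  rw [h6.fderiv]
  simp [div_eq_mul_inv]

lemma iot_norm (w : ℂ) : ‖iot w‖ = ‖w‖⁻¹ := by
  unfold iot
  rw [norm_div, norm_neg, norm_one, RCLike.norm_conj, one_div]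

lemma lam_iot {g : ℕ → ℂ} {G : ℂ → ℂ} {w : ℂ} (hw : w ≠ 0) (hi : iot (iot w) = w) :
    Real.exp (lamf g G (iot w)) = Real.exp (lamf g G w) * ‖w‖ ^ 2 := by
  have h0 : 0 < ‖w‖ := norm_pos_iff.2 hw
  have h1 : lamf g G (iot w) = lamf g G w + Real.log (‖w‖ ^ 2) := by
    unfold lamf
    rw [hi, iot_norm]
    have e : 1 + (‖w‖⁻¹) ^ 2 = (1 + ‖w‖ ^ 2) / ‖w‖ ^ 2 := by
      field_simp
      ring
    rw [e, Real.log_div (by positivity) (by positivity)]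
    ring
  rw [h1, Real.exp_add, Real.exp_log (by positivity)]

end HG9

open HG9

theorem g9 (f1 : F1) (f2 : F2) (g5 : G5) (g6 : G6) (g7 : G7) (g8 : G8) : G9 := by
  intro s g hs hg
  obtain ⟨hd, hF, -, hD⟩ := f1 g hg
  obtain ⟨G, hG1, hG2, hG3⟩ := f2 g hg
  obtain ⟨k1, k2, k3, k4, k5⟩ := g5 s g hs hg
  obtain ⟨c1, -, -, c4⟩ := g6 s g hs hg
  obtain ⟨b1, b2⟩ := g7 s g hs hg
  obtain ⟨n1, n2, n3, n4⟩ := g8 s g hs hg
  have hs0 : 0 < s := by linarith [hs.1]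
  have hsq : 0 < √s := Real.sqrt_pos.2 hs0
  have hGrr : ∀ z, 2 * rr < ‖z‖ → rr < ‖G z‖ := fun z hz => (hG2 z hz).1
  have hR := RR_pos
  have hR' := RR_small
  have hrr : rr < 1 := by linarith [rr_small]
  -- points of K
  have hne1 : ∀ w ∈ K1 s g, w ≠ 1 := by
    intro w hw h
    have := (k5 w hw).2.2.2.2.1
    rw [h, sub_self, norm_zero] at this
    linarith
  have hne2 : ∀ w ∈ K1 s g, iot w ≠ 1 := by
    intro w hw h
    have := (k5 w hw).2.2.2.2.2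
    rw [h, sub_self, norm_zero] at this
    linarith
  have hsub : frontier (K1 s g) ⊆ K1 s g := c1.isClosed.frontier_subset
  let M : Surf :=
    { K := K1 s g
      compact := c1
      connected := c4
      smooth_boundary := by
        intro z hz
        have hz' := hz
        rw [b1] at hz'
        rcases hz' with h | h | h
        · rcases h with h | h
          · exact ⟨_, n2 z h⟩
          · exact ⟨_, n3 z h⟩
        · obtain ⟨ζ, hζ, rfl⟩ := h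
          exact ⟨_, n1 ζ hζ⟩
        · obtain ⟨w, ⟨ζ, hζ, rfl⟩, rfl⟩ := h
          have hfr : w1 g ζ ∈ frontier (K1 s g) := by
            rw [b1]
            exact Or.inr (Or.inl ⟨ζ, hζ, rfl⟩)
          exact ⟨_, n4 _ _ hfr (n1 ζ hζ)⟩
      lam := lamf g G
      lam_smooth := by
        intro z hz
        have h1 : ContDiffAt ℝ ∞ (fun w : ℂ => -Real.log (1 + ‖w‖ ^ 2)) z := by
          apply ContDiffAt.neg
          apply ContDiffAt.log
          · exact contDiffAt_const.add ((contDiff_norm_sq ℝ).contDiffAt)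
          · positivity
        have h2 := EE_smooth hd hF hD hG1 hGrr (hne1 z hz)
        have h3 := EE_smooth hd hF hD hG1 hGrr (hne2 z hz)
        exact (h1.add h2).add (h3.comp z (iot_smooth (k5 z hz).1))
      iota := iot
      iota_smooth := fun z hz => iot_smooth (k5 z hz).1
      iota_maps := fun z hz => (k5 z hz).2.1
      iota_iota := fun z hz => (k5 z hz).2.2.1
      iota_isometry := by
        intro z hz v
        have h0 := (k5 z hz).1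
        rw [lam_iot h0 (k5 z hz).2.2.1, iot_fderiv h0, norm_div, norm_pow, RCLike.norm_conj,
          RCLike.norm_conj]
        have : 0 < ‖z‖ := norm_pos_iff.2 h0
        field_simp
      iota_free := Or.inr fun z hz => (k5 z hz).2.2.2.1 }
  have hcomp : IsCompact {ζ : ℂ | ‖ζ‖ = 1} := by
    have := isCompact_sphere (0 : ℂ) 1
    have e : sphere (0 : ℂ) 1 = {ζ : ℂ | ‖ζ‖ = 1} := by
      ext x
      simp
    rwa [e] at this
  have hw1c : ContinuousOn (w1 g) {ζ : ℂ | ‖ζ‖ = 1} := by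
    intro ζ hζ
    have hζ' : ‖ζ‖ = 1 := hζ
    exact (w1_hasDeriv hd hF (by rw [hζ']; exact hrr)).continuousAt.continuousWithinAt
  have hcc : IsCompact (w1 g '' {ζ : ℂ | ‖ζ‖ = 1}) := hcomp.image_of_continuousOn hw1c
  have hci : IsCompact (iot '' (w1 g '' {ζ : ℂ | ‖ζ‖ = 1})) := by
    apply hcc.image_of_continuousOn
    rintro w ⟨ζ, hζ, rfl⟩
    exact (iot_smooth (k5 _ (k2 ζ hζ)).1).continuousAt.continuousWithinAt
  have hdiff : frontier (K1 s g) \ SN1 s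
      = w1 g '' {ζ | ‖ζ‖ = 1} ∪ iot '' (w1 g '' {ζ | ‖ζ‖ = 1}) := by
    rw [b1, Set.union_sdiff_left]
    exact (Set.disjoint_left.2 fun x hx hx' => Set.disjoint_left.1 b2 hx' hx).sdiff_eq_left
  refine ⟨M, rfl, rfl, ⟨?_, ?_, ?_, ?_, ?_, ?_⟩, ?_⟩
  · show SN1 s ⊆ frontier (K1 s g)
    rw [b1]
    exact Set.subset_union_left
  · have : SN1 s = (fun w : ℂ => ‖w‖) ⁻¹' {√s, 1 / √s} := by
      ext x
      simp [SN1]
    rw [this]
    exact (Set.toFinite _).isClosed.preimage continuous_norm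
  · show IsClosed (frontier (K1 s g) \ SN1 s)
    rw [hdiff]
    exact hcc.isClosed.union hci.isClosed
  · refine ⟨(√s : ℂ), Or.inl ?_⟩
    rw [Complex.norm_real, Real.norm_eq_abs, abs_of_pos hsq]
  · show (frontier (K1 s g) \ SN1 s).Nonempty
    rw [hdiff]
    exact ⟨w1 g 1, Or.inl ⟨1, by simp, rfl⟩⟩
  · intro z hz
    show iot z ∈ SN1 s
    rcases hz with h | h
    · right
      rw [iot_norm, h, one_div]
    · left
      rw [iot_norm, h, one_div, inv_inv]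
  · intro ζ hζ
    show Real.exp (lamf g G (w1 g ζ)) * ‖deriv (w1 g) ζ‖ = 1
    have hζr : rr < ‖ζ‖ := by rw [hζ]; exact hrr
    have hFne := Fm_bound hF hζr
    have hu : (RR : ℂ) / (w1 g ζ - 1) = Fm g ζ := by
      unfold w1
      rw [add_sub_cancel_left]
      exact div_div_cancel₀ RR_ne
    have hFlow : 99 / 100 ≤ ‖Fm g ζ‖ := by
      have h1 := hF ζ hζr.le
      have h2 := norm_sub_norm_le ζ (Fm g ζ)
      rw [norm_sub_rev] at h2
      rw [hζ] at h2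
      have h3 : eps * rr ≤ 1 / 100 * 1 := by
        apply mul_le_mul eps_small (by linarith) rr_pos.le (by norm_num)
      linarith
    have hGζ : G (Fm g ζ) = ζ := hG3 ζ (by rw [hζ]; linarith [rr_small])
    have hd0 : deriv (w1 g) ζ ≠ 0 := w1_deriv_ne hd hF hD hζr
    have hE1 : EE g G (w1 g ζ) = -Real.log ‖deriv (w1 g) ζ‖ + Real.log (1 + ‖w1 g ζ‖ ^ 2) := by
      unfold EE psi
      rw [hu, hGζ, Real.smoothTransition.one_of_one_le (by nlinarith), one_mul]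
    have hE2 : EE g G (iot (w1 g ζ)) = 0 := by
      unfold EE
      rw [Real.smoothTransition.zero_of_nonpos, zero_mul]
      have hw0 : w1 g ζ ≠ 0 := (k5 _ (k2 ζ hζ)).1
      have hδ : ‖(RR : ℂ) / Fm g ζ‖ ≤ 1 / 10 := by
        rw [norm_div, Complex.norm_real, Real.norm_eq_abs, abs_of_pos hR,
          div_le_iff₀ (by linarith)]
        nlinarith
      have hwn : ‖w1 g ζ‖ ≤ 11 / 10 := by
        unfold w1
        refine (norm_add_le _ _).trans ?_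
        rw [norm_one]
        linarith
      have hwn2 : 19 / 10 ≤ ‖w1 g ζ + 1‖ := by
        have e : w1 g ζ + 1 = 2 - (-((RR : ℂ) / Fm g ζ)) := by unfold w1; ring
        rw [e]
        have := norm_sub_norm_le (2 : ℂ) (-((RR : ℂ) / Fm g ζ))
        rw [norm_neg] at this
        have e2 : ‖(2 : ℂ)‖ = 2 := by simp
        rw [e2] at this
        linarith
      have h0 : 0 < ‖w1 g ζ‖ := norm_pos_iff.2 hw0
      have hi : ‖iot (w1 g ζ) - 1‖ = ‖w1 g ζ + 1‖ / ‖w1 g ζ‖ := by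
        have hc : conj (w1 g ζ) ≠ 0 := (map_ne_zero (starRingEnd ℂ)).2 hw0
        have e : iot (w1 g ζ) - 1 = -(conj (w1 g ζ + 1) / conj (w1 g ζ)) := by
          unfold iot
          rw [map_add, map_one]
          field_simp
          ring
        rw [e, norm_neg, norm_div, RCLike.norm_conj, RCLike.norm_conj]
      have hge : 1 ≤ ‖iot (w1 g ζ) - 1‖ := by
        rw [hi, le_div_iff₀ h0]
        linarith
      have hle : ‖(RR : ℂ) / (iot (w1 g ζ) - 1)‖ ≤ 1 / 100 := by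
        rw [norm_div, Complex.norm_real, Real.norm_eq_abs, abs_of_pos hR,
          div_le_iff₀ (by linarith)]
        nlinarith
      have := norm_nonneg ((RR : ℂ) / (iot (w1 g ζ) - 1))
      nlinarith
    unfold lamf
    rw [hE1, hE2]
    have e : -Real.log (1 + ‖w1 g ζ‖ ^ 2) +
        (-Real.log ‖deriv (w1 g) ζ‖ + Real.log (1 + ‖w1 g ζ‖ ^ 2)) + 0
        = -Real.log ‖deriv (w1 g) ζ‖ := by ring
    have hpos : 0 < ‖deriv (w1 g) ζ‖ := norm_pos_iff.2 hd0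
    rw [e, Real.exp_neg, Real.exp_log hpos]
    exact inv_mul_cancel₀ hpos.ne'

end Pool.Agent.Stek
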