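import Pool.Agent.Stek.PH5

/-!
# H0: from functions near the unit circle to the equations for the coefficients
-/

open scoped BigOperators ComplexConjugate Topology ContDiff
open Complex Metric InnerProductSpace

noncomputable section

namespace Pool.Agent.Stek

/-- Integration by parts on a circle. -/
theorem ci_by_parts {H : ℂ → ℂ} {S : Set ℂ} (hS : IsOpen S) (hH : DifferentiableOn ℂ H S) {ρ : ℝ}
    (hρ : 0 < ρ) (hsub : sphere 0 ρ ⊆ S) (k : ℤ) :
    ci ρ (fun ζ => deriv H ζ * ζ ^ (-k)) = k * ci ρ (fun ζ => H ζ * ζ ^ (-k - 1)) := by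
  have hne : ∀ z ∈ sphere (0 : ℂ) ρ, z ≠ 0 := by
    intro z hz h
    rw [h] at hz
    simp at hz
    exact hρ.ne' hz.symm
  have hd : ∀ z ∈ sphere (0 : ℂ) ρ, HasDerivWithinAt (fun ζ => H ζ * ζ ^ (-k))
      (deriv H z * z ^ (-k) + H z * ((-k : ℤ) * z ^ (-k - 1))) (sphere 0 ρ) z := by
    intro z hz
    have h1 : HasDerivAt H (deriv H z) z :=
      ((hH z (hsub hz)).differentiableAt (hS.mem_nhds (hsub hz))).hasDerivAt
    have h2 := hasDerivAt_zpow (-k) z (Or.inl (hne z hz))
    exact (h1.mul h2).hasDerivWithinAt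
  have h0 := circleIntegral.integral_eq_zero_of_hasDerivWithinAt hρ.le hd
  have hc1 : ContinuousOn (fun z => deriv H z * z ^ (-k)) (sphere 0 ρ) := by
    refine ContinuousOn.mul ?_ ?_
    · exact ((hH.deriv hS).continuousOn).mono hsub
    · exact fun z hz => (continuousAt_zpow₀ z (-k) (Or.inl (hne z hz))).continuousWithinAt
  have hc2 : ContinuousOn (fun z => H z * z ^ (-k - 1)) (sphere 0 ρ) := by
    refine ContinuousOn.mul (hH.continuousOn.mono hsub) ?_
    exact fun z hz => (continuousAt_zpow₀ z (-k - 1) (Or.inl (hne z hz))).continuousWithinAt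
  have e : (∮ z in C(0, ρ), (deriv H z * z ^ (-k) + H z * ((-k : ℤ) * z ^ (-k - 1)))) =
      (∮ z in C(0, ρ), deriv H z * z ^ (-k)) - k * ∮ z in C(0, ρ), H z * z ^ (-k - 1) := by
    have hc3 : ContinuousOn (fun z => (k : ℂ) • (H z * z ^ (-k - 1))) (sphere 0 ρ) :=
      ContinuousOn.fun_smul continuousOn_const hc2
    rw [← smul_eq_mul (k : ℂ), ← circleIntegral.integral_smul,
      ← circleIntegral.integral_sub (hc1.circleIntegrable hρ.le) (hc3.circleIntegrable hρ.le)]
    congr 1
    funext z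
    push_cast
    simp only [smul_eq_mul]
    ring
  rw [e] at h0
  unfold ci
  rw [sub_eq_zero] at h0
  rw [h0]
  ring

theorem h0 (hF9 : F9) (hF10 : F10) : H0 := by
  intro κE κO g p C σ V hκE hκO hg hp hV1 hV2 hV3 hV4
  obtain ⟨hHd, hHs⟩ := hF10 κE κO g p C hκE hκO hg hp
  obtain ⟨h91, h92, h93⟩ := hF9 V σ hV1 hV2 hV3
  set H := Hf κE κO g p with hHdef
  set b : ℤ → ℂ := fun k => ci (1 / 8) (fun ζ => H ζ * ζ ^ (-k - 1)) with hb
  have hopen : IsOpen {ζ : ℂ | 1 / 100 < ‖ζ‖ ∧ ‖ζ‖ < 1 / 5} :=
    (isOpen_lt continuous_const continuous_norm).inter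
      (isOpen_lt continuous_norm continuous_const)
  have hsub : sphere (0 : ℂ) (1 / 8) ⊆ {ζ : ℂ | 1 / 100 < ‖ζ‖ ∧ ‖ζ‖ < 1 / 5} := by
    intro z hz
    rw [mem_sphere_zero_iff_norm] at hz
    constructor <;> rw [hz] <;> norm_num
  -- the basic relation
  have hrel : ∀ k : ℤ, (σ + k) * fc V k = k * b k := by
    intro k
    rw [← h91 k]
    have h1 : ci (1 / 8) (fun ζ => dC V ζ * ζ ^ (-k)) =
        ci (1 / 8) (fun ζ => deriv H ζ * ζ ^ (-k)) := by
      unfold ci
      congr 1
      refine circleIntegral.integral_congr (by norm_num) ?_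
      intro z hz
      simp only
      rw [hV4 z (by simpa using hz)]
    rw [h1, ci_by_parts hopen hHd (by norm_num) hsub]
  have hbj : ∀ j : ℕ, 1 ≤ j → (coefs V σ).2 j = b j := by
    intro j hj
    have hj0 : (j : ℂ) ≠ 0 := by exact_mod_cast (by omega : j ≠ 0)
    have := hrel j
    simp only [coefs, if_neg (show j ≠ 0 by omega)]
    push_cast at this
    field_simp
    linear_combination this
  have hneg : ∀ k : ℕ, ((k : ℂ) - σ) * fc V k = k * conj (b (-k)) := by
    intro k
    have h1 := hrel (-k)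
    rw [h92 k] at h1
    have h2 := congrArg conj h1
    simp only [map_mul, map_add, Complex.conj_ofReal, Complex.conj_conj] at h2
    push_cast at h2
    simp only [map_neg, map_natCast] at h2
    linear_combination -h2
  have hsum : ∀ k : ℕ, 1 ≤ k → HasSum (fun j : ℕ => (j : ℂ) * rr ^ (j + k) *
      (Ak κE g j k * (coefs V σ).2 j + rr ^ 2 * Bk κO g j k * conj ((coefs V σ).2 j)))
      (b (-k)) := by
    intro k hk
    have h1 := hHs k hk
    have e : b (-k) = ci (1 / 8) (fun ζ => H ζ * ζ ^ ((k : ℤ) - 1)) := by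
      simp only [hb, neg_neg]
    rw [e]
    refine h1.congr_fun ?_ |> fun h => h
    intro j
    rcases Nat.eq_zero_or_pos j with rfl | hj
    · simp
    · rw [hbj j hj]
  refine ⟨⟨?_, ?_, ?_, ?_⟩, ?_⟩
  · have h1 := congrArg re (hrel 0)
    simpa [coefs] using h1
  · simp [coefs]
  · -- boundedness
    obtain ⟨C0, hC0⟩ : ∃ C0, ∀ z ∈ sphere (0 : ℂ) 1, ‖V z‖ ≤ C0 := by
      have hcont : ContinuousOn V (sphere 0 1) := by
        intro z hz
        rw [mem_sphere_zero_iff_norm] at hz
        exact (hV1 z (by rw [hz]; norm_num) hz.le).continuousAt.continuousWithinAt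
      exact (isCompact_sphere (0 : ℂ) 1).exists_bound_of_continuousOn hcont
    have hfc : ∀ k : ℤ, ‖fc V k‖ ≤ C0 := by
      intro k
      have := circleIntegral.norm_two_pi_i_inv_smul_integral_le_of_norm_le_const
        (f := fun z => (V z : ℂ) * z ^ (-k - 1)) (c := 0) (R := 1) (C := C0) zero_le_one
        (fun z hz => by
          have h1 := hC0 z hz
          rw [mem_sphere_zero_iff_norm] at hz
          rw [norm_mul, norm_zpow, hz, one_zpow, mul_one, Complex.norm_real]
          exact h1)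
      simpa [fc, ci] using this
    have hC00 : 0 ≤ C0 := (norm_nonneg _).trans (hfc 0)
    refine ⟨(1 + |σ|) * C0, fun k => ?_⟩
    rcases Nat.eq_zero_or_pos k with rfl | hk
    · simp only [coefs, if_pos, norm_zero]; positivity
    · simp only [coefs, if_neg (show k ≠ 0 by omega)]
      rw [norm_mul]
      refine mul_le_mul ?_ (hfc k) (norm_nonneg _) (by positivity)
      have hk1 : (1 : ℝ) ≤ k := by exact_mod_cast hk
      rw [norm_div, Complex.norm_natCast, div_le_iff₀ (by linarith)]
      refine (norm_add_le _ _).trans ?_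
      rw [Complex.norm_natCast, Complex.norm_real, Real.norm_eq_abs]
      nlinarith [abs_nonneg σ]
  · intro k hk
    refine ⟨b (-k), hsum k hk, ?_⟩
    have h1 := hneg k
    have hk0 : (k : ℂ) ≠ 0 := by exact_mod_cast (by omega : k ≠ 0)
    simp only [coefs, if_neg (show k ≠ 0 by omega)]
    field_simp
    linear_combination ((k : ℂ) + σ) * h1
  · intro h0'
    have hc2 : ∀ j, (coefs V σ).2 j = 0 := by intro j; rw [h0']; rfl
    have hc1 : (fc V 0).re = 0 := by
      have : (coefs V σ).1 = 0 := by rw [h0']; rfl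
      exact this
    have hfc0 : fc V 0 = 0 := by
      have h1 := h92 0
      rw [neg_zero] at h1
      have h2 : (fc V 0).im = 0 := by
        have := congrArg im h1
        simp at this
        linarith
      exact Complex.ext hc1 h2
    refine h93 ?_ hfc0
    intro k
    rcases lt_trichotomy k 0 with hk | hk | hk
    · obtain ⟨n, hn⟩ : ∃ n : ℕ, k = -(n : ℤ) := ⟨k.natAbs, by omega⟩
      have hn1 : 1 ≤ n := by omega
      have hs := hsum n hn1
      have hz : b (-(n : ℤ)) = 0 := by
        refine hs.unique ?_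
        have : (fun j : ℕ => (j : ℂ) * rr ^ (j + n) *
          (Ak κE g j n * (coefs V σ).2 j + rr ^ 2 * Bk κO g j n * conj ((coefs V σ).2 j))) =
          fun _ => 0 := by
          funext j; rw [hc2 j]; simp
        rw [this]
        exact hasSum_zero
      rw [hrel k, hn, hz, mul_zero]
    · rw [hk, hfc0, mul_zero]
    · obtain ⟨n, hn⟩ : ∃ n : ℕ, k = (n : ℤ) := ⟨k.natAbs, by omega⟩
      have hn1 : 1 ≤ n := by omega
      rw [hrel k, hn, ← hbj n hn1, hc2 n, mul_zero]

end Pool.Agent.Stek
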