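import Pool.Agent.Stek.TFun

/-!
# H2: solutions give eigenfunctions of the second surface
-/

open scoped BigOperators ComplexConjugate Topology ContDiff
open Complex Metric InnerProductSpace

noncomputable section

namespace Pool.Agent.Stek

namespace PH2

/-- power series with geometric bounds -/
theorem series_analytic (p : ℕ → ℂ) (C : ℝ) (hp : ∀ n, ‖p n‖ ≤ C * (5 / 7 : ℝ) ^ n) (z0 : ℂ)
    (hz0 : ‖z0‖ < 7 / 5) : AnalyticAt ℂ (fun z => ∑' n : ℕ, p (n + 1) * z ^ (n + 1)) z0 := by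
  obtain ⟨r, hr1, hr2⟩ := exists_between hz0
  have hr0 : 0 ≤ r := (norm_nonneg z0).trans hr1.le
  have hC : 0 ≤ C := by
    have := (norm_nonneg _).trans (hp 0)
    simpa using this
  have hsum : Summable (fun n : ℕ => C * (5 / 7 * r) ^ (n + 1)) := by
    apply Summable.mul_left
    have h1 : Summable (fun n : ℕ => (5 / 7 * r) ^ n) :=
      summable_geometric_of_lt_one (by positivity) (by linarith)
    exact (summable_nat_add_iff 1).mpr h1
  have hd : DifferentiableOn ℂ (fun z => ∑' n : ℕ, p (n + 1) * z ^ (n + 1)) (ball 0 r) := by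
    refine differentiableOn_tsum_of_summable_norm hsum ?_ isOpen_ball ?_
    · intro i
      exact (differentiable_const _).mul (differentiable_pow _) |>.differentiableOn
    · intro i w hw
      rw [mem_ball_zero_iff] at hw
      rw [norm_mul, norm_pow]
      calc ‖p (i + 1)‖ * ‖w‖ ^ (i + 1) ≤ (C * (5 / 7 : ℝ) ^ (i + 1)) * r ^ (i + 1) := by
            gcongr
            exact hp _
        _ = C * (5 / 7 * r) ^ (i + 1) := by rw [mul_pow]; ring
  exact hd.analyticAt (isOpen_ball.mem_nhds (mem_ball_zero_iff.mpr hr1))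

theorem hf_zero (g p : ℕ → ℂ) (ζ : ℂ) :
    Hf 0 0 g p ζ = ∑' n : ℕ, p (n + 1) * Fm g ζ ^ (n + 1) := by
  have hq : ∀ m, qt 0 0 p m = 0 := by
    intro m
    simp [qt]
  simp [Hf, hq]

end PH2

open PH2 in
theorem h2 (hF11 : F11) (hF1 : F1) (hG1 : G1) (hG2 : G2) (hG3 : G3) : H2 := by
  intro g M σ hg hK hiota hlam x hx
  have hkap : Kap (0 : ℕ → ℕ → ℝ) := by
    intro n m _ _
    simp only [Pi.zero_apply, abs_zero]
    positivity
  obtain ⟨p, C, c0, hp, -, hcoefs, hst⟩ := hF11 0 0 g σ x hkap hkap hg hx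
  obtain ⟨-, -, -, -, hfront, hsub, -, -, -⟩ := hG2 g hg
  set f : ℂ → ℂ := fun z => ∑' n : ℕ, p (n + 1) * z ^ (n + 1) with hf
  have hfan : ∀ z ∈ fillK g, AnalyticAt ℂ f z := by
    intro z hz
    have := hsub hz
    rw [mem_ball_zero_iff] at this
    exact series_analytic p C hp z (by linarith)
  set U : ℂ → ℝ := fun z => (f z).re - c0 + x.1 with hU
  have hUF : ∀ ζ, U (Fm g ζ) = (Hf 0 0 g p ζ).re - c0 + x.1 := by
    intro ζ
    rw [hf_zero]
  have hUFun : (fun ζ => U (Fm g ζ)) = fun ζ => (Hf 0 0 g p ζ).re - c0 + x.1 := funext hUF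
  have hsmooth : ∀ z ∈ fillK g, ContDiffAt ℝ ∞ U z := by
    intro z hz
    have h1 : ContDiffAt ℂ ∞ f z := (hfan z hz).contDiffAt
    have h2 : ContDiffAt ℝ ∞ f z := h1.restrict_scalars ℝ
    have h3 : ContDiffAt ℝ ∞ (fun z => (f z).re) z := Complex.reCLM.contDiff.contDiffAt.comp z h2
    exact (h3.sub contDiffAt_const).add contDiffAt_const
  refine ⟨U, ⟨?_, ?_, ?_, ?_, ?_⟩, ?_⟩
  · rw [hK]; exact hsmooth
  · intro z _
    rw [hiota]; rfl
  · rw [hK]
    intro z hz
    have h1 : HarmonicAt (fun z => (f z).re) z := (hfan z (interior_subset hz)).harmonicAt_re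
    have h2 : HarmonicAt (fun _ : ℂ => x.1 - c0) z := harmonicAt_const _
    have h3 := h1.add h2
    have h4 : ((fun z => (f z).re) + fun _ : ℂ => x.1 - c0) = U := by
      funext z
      simp only [Pi.add_apply, hU]
      ring
    rw [h4] at h3
    exact h3
  · intro z hz n hn
    rw [Set.sdiff_empty, hK, hfront] at hz
    obtain ⟨ζ, hζ, rfl⟩ := hz
    have hζ1 : ‖ζ‖ = 1 := hζ
    rw [hK] at hn
    have hn' := hG1 (fillK g) (Fm g ζ) _ _ hn (hG3 g hg ζ hζ1)
    have hrr : rr < ‖ζ‖ := by rw [hζ1]; norm_num [rr]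
    have hopen : IsOpen {ζ : ℂ | rr < ‖ζ‖} := isOpen_lt continuous_const continuous_norm
    have hFd : HasDerivAt (Fm g) (deriv (Fm g) ζ) ζ :=
      (((hF1 g hg).1.differentiableAt (hopen.mem_nhds hrr))).hasDerivAt
    have hder : ‖deriv (Fm g) ζ - 1‖ ≤ eps := (hF1 g hg).2.2.2 ζ hrr
    have hne : ‖deriv (Fm g) ζ‖ ≠ 0 := by
      intro h0
      have h1 : deriv (Fm g) ζ = 0 := norm_eq_zero.mp h0
      rw [h1, zero_sub, norm_neg, norm_one] at hder
      norm_num [eps] at hder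
    have hmem : Fm g ζ ∈ fillK g := by
      have h1 : Fm g ζ ∈ frontier (fillK g) := by rw [hfront]; exact ⟨ζ, hζ, rfl⟩
      have hcl : IsClosed (fillK g) := (hG2 g hg).1.isClosed
      exact hcl.frontier_subset h1
    have hUd : HasFDerivAt U (fderiv ℝ U (Fm g ζ)) (Fm g ζ) :=
      ((hsmooth _ hmem).differentiableAt (by simp)).hasFDerivAt
    have hFr : HasFDerivAt (Fm g) ((ContinuousLinearMap.toSpanSingleton ℂ
        (deriv (Fm g) ζ)).restrictScalars ℝ) ζ := hFd.hasFDerivAt.restrictScalars ℝ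
    have hcomp := hUd.comp ζ hFr
    have hval : fderiv ℝ (fun ζ => U (Fm g ζ)) ζ ζ =
        fderiv ℝ U (Fm g ζ) (ζ * deriv (Fm g) ζ) := by
      have h1 : fderiv ℝ (fun ζ => U (Fm g ζ)) ζ = _ := hcomp.fderiv
      rw [h1]
      simp [ContinuousLinearMap.comp_apply]
    have hs := hst ζ hζ1
    rw [← hUFun, hval, ← hUF ζ] at hs
    have hn'' : n = ((‖deriv (Fm g) ζ‖⁻¹ : ℝ)) • (ζ * deriv (Fm g) ζ) := by
      rw [hn', Complex.real_smul, Complex.ofReal_inv]
      field_simp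
    rw [hn'', map_smul, hs, smul_eq_mul]
    have hl := hlam ζ hζ1
    have he : Real.exp (M.lam (Fm g ζ)) = ‖deriv (Fm g) ζ‖⁻¹ := by
      field_simp
      linarith
    rw [he]
    ring
  · intro z hz
    exact absurd hz.2 (Set.notMem_empty _)
  · rw [hUFun]
    exact hcoefs

end Pool.Agent.Stek
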