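import Pool.Agent.Stek.TFun
import Pool.Agent.Stek.PH2

/-!
# H1: eigenfunctions of the second surface give solutions
-/

open scoped BigOperators ComplexConjugate Topology ContDiff
open Complex Metric InnerProductSpace

noncomputable section

namespace Pool.Agent.Stek

namespace PH1

/-- real derivative of the real part of a holomorphic function -/
theorem fderiv_re {h : ℂ → ℂ} {ζ h' : ℂ} (hd : HasDerivAt h h' ζ) {V : ℂ → ℝ}
    (hV : V =ᶠ[𝓝 ζ] fun z => (h z).re) (v : ℂ) : fderiv ℝ V ζ v = (v * h').re := by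
  have h1 : HasFDerivAt h ((ContinuousLinearMap.toSpanSingleton ℂ h').restrictScalars ℝ) ζ :=
    hd.hasFDerivAt.restrictScalars ℝ
  have h2 := (Complex.reCLM.hasFDerivAt (x := h ζ)).comp ζ h1
  have h3 : fderiv ℝ (fun z => (h z).re) ζ = _ := h2.fderiv
  rw [hV.fderiv_eq, h3]
  simp

theorem dC_re {h : ℂ → ℂ} {ζ h' : ℂ} (hd : HasDerivAt h h' ζ) {V : ℂ → ℝ}
    (hV : V =ᶠ[𝓝 ζ] fun z => (h z).re) : dC V ζ = h' := by
  rw [dC, fderiv_re hd hV, fderiv_re hd hV]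
  apply Complex.ext <;> simp

theorem harmonic_comp {U : ℂ → ℝ} {F : ℂ → ℂ} {ζ : ℂ} (hU : HarmonicAt U (F ζ))
    (hF : AnalyticAt ℂ F ζ) : HarmonicAt (fun z => U (F z)) ζ := by
  obtain ⟨ε, h1, h2⟩ := isOpen_iff.1 (isOpen_setOfPred_harmonicAt (f := U)) (F ζ) hU
  obtain ⟨G, h3, h4⟩ := InnerProductSpace.HarmonicOnNhd.exists_analyticOnNhd_ball_re_eq
    (fun _ hy ↦ h2 hy)
  have h5 : (fun z => U (F z)) =ᶠ[𝓝 ζ] fun z => (G (F z)).re := by
    have h6 : ∀ᶠ z in 𝓝 ζ, F z ∈ ball (F ζ) ε :=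
      hF.continuousAt.eventually (ball_mem_nhds _ h1)
    filter_upwards [h6] with z hz
    exact (h4 hz).symm
  rw [harmonicAt_congr_nhds h5]
  have h7 : AnalyticAt ℂ (fun z => G (F z)) ζ := by
    exact AnalyticAt.fun_comp (h3 _ (mem_ball_self h1)) hF
  exact h7.harmonicAt_re

/-- Taylor coefficients with a geometric bound -/
theorem taylor (f : ℂ → ℂ) (hf : DifferentiableOn ℂ f (ball 0 (9 / 10))) :
    ∃ (p : ℕ → ℂ) (C : ℝ), (∀ n, ‖p n‖ ≤ C * 4 ^ n) ∧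
      ∀ z ∈ ball (0 : ℂ) (9 / 10), HasSum (fun n => p n * z ^ n) (f z) := by
  set p : ℕ → ℂ := fun n => ((n.factorial : ℂ))⁻¹ * iteratedDeriv n f 0 with hp
  have hs : ∀ z ∈ ball (0 : ℂ) (9 / 10), HasSum (fun n => p n * z ^ n) (f z) := by
    intro z hz
    have := Complex.hasSum_taylorSeries_on_ball hf hz
    have he : (fun n : ℕ => ((n.factorial : ℂ))⁻¹ • (z - 0) ^ n • iteratedDeriv n f 0) =
        fun n => p n * z ^ n := by
      funext n
      simp only [smul_eq_mul, sub_zero, hp]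
      ring
    rwa [he] at this
  have hhalf : (1 / 2 : ℂ) ∈ ball (0 : ℂ) (9 / 10) := by
    rw [mem_ball_zero_iff]
    norm_num
  have hsum := (hs _ hhalf).summable.norm
  refine ⟨p, ∑' n, ‖p n * (1 / 2 : ℂ) ^ n‖, ?_, hs⟩
  intro n
  have h1 : ‖p n * (1 / 2 : ℂ) ^ n‖ ≤ ∑' n, ‖p n * (1 / 2 : ℂ) ^ n‖ :=
    hsum.le_tsum n (fun _ _ => norm_nonneg _)
  set T := ∑' n, ‖p n * (1 / 2 : ℂ) ^ n‖ with hT
  have hT0 : 0 ≤ T := (norm_nonneg _).trans h1
  rw [norm_mul, norm_pow] at h1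
  have h2 : ‖(1 / 2 : ℂ)‖ = 1 / 2 := by norm_num
  rw [h2] at h1
  have h3 : ‖p n‖ ≤ T * 2 ^ n := by
    have h4 : ‖p n‖ = (‖p n‖ * (1 / 2) ^ n) * 2 ^ n := by
      rw [mul_assoc, ← mul_pow]
      norm_num
    rw [h4]
    gcongr
  refine h3.trans ?_
  gcongr
  norm_num

end PH1

open PH1 PH2 in
theorem h1 (hH0 : H0) (hF1 : F1) (hF2 : F2) (hG2 : G2) (hG3 : G3) : H1 := by
  intro g M σ U hg hK hlam hU
  have hkap : Kap (0 : ℕ → ℕ → ℝ) := by
    intro n m _ _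
    simp only [Pi.zero_apply, abs_zero]
    positivity
  obtain ⟨hcomp, -, -, -, hfront, hsub, hball, hint, -⟩ := hG2 g hg
  obtain ⟨hFd, hFn, -, hFdd⟩ := hF1 g hg
  have hopen : IsOpen {ζ : ℂ | rr < ‖ζ‖} := isOpen_lt continuous_const continuous_norm
  have hrr : rr < 1 / 8 := by norm_num [rr]
  have hrr' : rr < 1 / 100 := by norm_num [rr]
  have hrr0 : 0 < rr := by norm_num [rr]
  have her : eps * rr ≤ 1 / 100 := by norm_num [eps, rr]
  have hFan : ∀ ζ, rr < ‖ζ‖ → AnalyticAt ℂ (Fm g) ζ := fun ζ hζ =>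
    hFd.analyticAt (hopen.mem_nhds hζ)
  have hFnorm : ∀ ζ, rr < ‖ζ‖ → ‖Fm g ζ‖ ≤ ‖ζ‖ + 1 / 100 := by
    intro ζ hζ
    have h1 := hFn ζ hζ.le
    have h2 : ‖Fm g ζ‖ ≤ ‖ζ‖ + ‖Fm g ζ - ζ‖ := by
      have := norm_add_le ζ (Fm g ζ - ζ)
      rwa [add_sub_cancel] at this
    linarith
  have hmem : ∀ ζ : ℂ, 1 / 8 ≤ ‖ζ‖ → ‖ζ‖ ≤ 1 → Fm g ζ ∈ fillK g := by
    intro ζ h1 h2
    rcases le_or_gt (1 / 4) ‖ζ‖ with h | h
    · exact Or.inr ⟨ζ, ⟨h, h2⟩, rfl⟩
    · left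
      rw [mem_closedBall_zero_iff]
      have := hFnorm ζ (by linarith)
      linarith
  have hball' : ball (0 : ℂ) (9 / 10) ⊆ interior M.K := by rw [hK]; exact hball
  -- the holomorphic function
  obtain ⟨f, hfan, hfre⟩ := InnerProductSpace.HarmonicOnNhd.exists_analyticOnNhd_ball_re_eq
    (hU.harmonic.mono hball')
  have hfd : DifferentiableOn ℂ f (ball 0 (9 / 10)) := hfan.differentiableOn
  obtain ⟨p, C, hp, hps⟩ := taylor f hfd
  set V : ℂ → ℝ := fun ζ => U (Fm g ζ) with hV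
  -- smoothness
  have hVs : ∀ ζ : ℂ, 1 / 8 ≤ ‖ζ‖ → ‖ζ‖ ≤ 1 → ContDiffAt ℝ ∞ V ζ := by
    intro ζ h1 h2
    have h3 : ContDiffAt ℝ ∞ U (Fm g ζ) := hU.smooth _ (by rw [hK]; exact hmem ζ h1 h2)
    have h4 : ContDiffAt ℝ ∞ (Fm g) ζ :=
      ((hFan ζ (by linarith)).contDiffAt (n := ∞)).restrict_scalars ℝ
    exact h3.comp ζ h4
  have hVh : HarmonicOnNhd V {ζ | 1 / 8 < ‖ζ‖ ∧ ‖ζ‖ < 1} := by
    intro ζ hζ
    refine harmonic_comp (hU.harmonic _ ?_) (hFan ζ (by linarith [hζ.1]))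
    rw [hK]
    exact hint ζ (by linarith [hζ.1]) hζ.2
  have hVst : ∀ ζ : ℂ, ‖ζ‖ = 1 → fderiv ℝ V ζ ζ = σ * V ζ := by
    intro ζ hζ1
    have hrr1 : rr < ‖ζ‖ := by linarith
    have hFdz : HasDerivAt (Fm g) (deriv (Fm g) ζ) ζ :=
      ((hFd.differentiableAt (hopen.mem_nhds hrr1))).hasDerivAt
    have hder : ‖deriv (Fm g) ζ - 1‖ ≤ eps := hFdd ζ hrr1
    have hne : ‖deriv (Fm g) ζ‖ ≠ 0 := by
      intro h0
      have h1 : deriv (Fm g) ζ = 0 := norm_eq_zero.mp h0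
      rw [h1, zero_sub, norm_neg, norm_one] at hder
      norm_num [eps] at hder
    have hz : Fm g ζ ∈ frontier M.K \ ∅ := by
      rw [Set.sdiff_empty, hK, hfront]
      exact ⟨ζ, hζ1, rfl⟩
    have hUd : HasFDerivAt U (fderiv ℝ U (Fm g ζ)) (Fm g ζ) := by
      have h3 : ContDiffAt ℝ ∞ U (Fm g ζ) :=
        hU.smooth _ (by rw [hK]; exact hmem ζ (by linarith) hζ1.le)
      exact (h3.differentiableAt (by simp)).hasFDerivAt
    have hFr : HasFDerivAt (Fm g) ((ContinuousLinearMap.toSpanSingleton ℂ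
        (deriv (Fm g) ζ)).restrictScalars ℝ) ζ := hFdz.hasFDerivAt.restrictScalars ℝ
    have hcomp := hUd.comp ζ hFr
    have hval : fderiv ℝ V ζ ζ = fderiv ℝ U (Fm g ζ) (ζ * deriv (Fm g) ζ) := by
      have h1 : fderiv ℝ V ζ = _ := hcomp.fderiv
      rw [h1]
      simp [ContinuousLinearMap.comp_apply]
    have hn := hG3 g hg ζ hζ1
    rw [← hK] at hn
    have hs := hU.steklov (Fm g ζ) hz _ hn
    have he : (ζ * deriv (Fm g) ζ) =
        (‖deriv (Fm g) ζ‖ : ℝ) • (deriv (Fm g) ζ * ζ / ‖deriv (Fm g) ζ‖) := by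
      have hne' : ((‖deriv (Fm g) ζ‖ : ℝ) : ℂ) ≠ 0 := by exact_mod_cast hne
      rw [Complex.real_smul]
      field_simp
    rw [hval, he, map_smul, hs, smul_eq_mul]
    have hl := hlam ζ hζ1
    calc ‖deriv (Fm g) ζ‖ * (σ * Real.exp (M.lam (Fm g ζ)) * U (Fm g ζ))
        = (Real.exp (M.lam (Fm g ζ)) * ‖deriv (Fm g) ζ‖) * (σ * U (Fm g ζ)) := by ring
      _ = σ * V ζ := by rw [hl, one_mul]
  -- near the inner circle
  have hloc : ∀ ζ : ℂ, rr < ‖ζ‖ → ‖ζ‖ < 1 / 2 → f (Fm g ζ) = p 0 + Hf 0 0 g p ζ := by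
    intro ζ h1 h2
    rw [hf_zero]
    have hb : Fm g ζ ∈ ball (0 : ℂ) (9 / 10) := by
      rw [mem_ball_zero_iff]
      have := hFnorm ζ h1
      linarith
    have h3 := hps _ hb
    have h4 := h3.summable.tsum_eq_zero_add
    rw [h3.tsum_eq] at h4
    rw [h4, pow_zero, mul_one]
  have hdV : ∀ ζ : ℂ, ‖ζ‖ = 1 / 8 → dC V ζ = deriv (Hf 0 0 g p) ζ := by
    intro ζ hζ
    have hU1 : {ζ : ℂ | rr < ‖ζ‖ ∧ ‖ζ‖ < 1 / 2} ∈ 𝓝 ζ := by
      apply IsOpen.mem_nhds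
      · exact hopen.inter (isOpen_lt continuous_norm continuous_const)
      · constructor <;> simp only [hζ] <;> linarith
    have hH : Hf 0 0 g p =ᶠ[𝓝 ζ] fun z => f (Fm g z) - p 0 := by
      filter_upwards [hU1] with z hz
      rw [hloc z hz.1 hz.2]
      ring
    have hfz : AnalyticAt ℂ f (Fm g ζ) := by
      apply hfan
      rw [mem_ball_zero_iff]
      have := hFnorm ζ (by linarith)
      linarith
    have hcd : HasDerivAt (fun z => f (Fm g z)) (deriv (fun z => f (Fm g z)) ζ) ζ :=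
      (AnalyticAt.fun_comp hfz (hFan ζ (by linarith))).differentiableAt.hasDerivAt
    have h5 : V =ᶠ[𝓝 ζ] fun z => ((fun z => f (Fm g z)) z).re := by
      filter_upwards [hU1] with z hz
      have hb : Fm g z ∈ ball (0 : ℂ) (9 / 10) := by
        rw [mem_ball_zero_iff]
        have := hFnorm z hz.1
        have := hz.2
        linarith
      exact (hfre hb).symm
    rw [dC_re hcd h5, hH.deriv_eq, deriv_sub_const]
  have hres := hH0 0 0 g p C σ V hkap hkap hg hp hVs hVh hVst hdV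
  refine ⟨hres.1, fun h0 => ?_⟩
  have hV0 := hres.2 h0
  -- vanishing of `U` on an annulus
  obtain ⟨G, hGd, hG, -⟩ := hF2 g hg
  have hU0 : ∀ z : ℂ, 1 / 5 < ‖z‖ → ‖z‖ < 1 / 2 → U z = 0 := by
    intro z h1 h2
    obtain ⟨h3, h4, h5⟩ := hG z (by linarith)
    have h6 : ‖G z‖ ≤ ‖z‖ + ‖G z - z‖ := by
      have := norm_add_le z (G z - z)
      rwa [add_sub_cancel] at this
    have h7 : ‖z‖ ≤ ‖G z‖ + ‖G z - z‖ := by
      have := norm_sub_le (G z) (G z - z)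
      rwa [sub_sub_cancel] at this
    have h8 := hV0 (G z) (by linarith) (by linarith)
    simp only [hV] at h8
    rwa [h4] at h8
  have hann : IsOpen {z : ℂ | 1 / 5 < ‖z‖ ∧ ‖z‖ < 1 / 2} :=
    (isOpen_lt continuous_const continuous_norm).inter (isOpen_lt continuous_norm continuous_const)
  have hz0 : (3 / 8 : ℂ) ∈ {z : ℂ | 1 / 5 < ‖z‖ ∧ ‖z‖ < 1 / 2} := by
    constructor <;> norm_num
  have hdf : Set.EqOn (deriv f) 0 (ball 0 (9 / 10)) := by
    have hda : AnalyticOnNhd ℂ (deriv f) (ball 0 (9 / 10)) := hfan.deriv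
    refine hda.eqOn_zero_of_preconnected_of_eventuallyEq_zero
      (convex_ball _ _).isPreconnected (z₀ := 3 / 8) ?_ ?_
    · rw [mem_ball_zero_iff]; norm_num
    · filter_upwards [hann.mem_nhds hz0] with z hz
      have hzb : z ∈ ball (0 : ℂ) (9 / 10) := by
        rw [mem_ball_zero_iff]
        have := hz.2
        linarith
      have h1 : HasDerivAt f (deriv f z) z := (hfan z hzb).differentiableAt.hasDerivAt
      have h2 : (fun _ : ℂ => (0 : ℝ)) =ᶠ[𝓝 z] fun z => (f z).re := by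
        filter_upwards [hann.mem_nhds hz, isOpen_ball.mem_nhds hzb] with y hy hyb
        have h3 : (f y).re = U y := hfre hyb
        rw [h3, hU0 y hy.1 hy.2]
      have h3 := dC_re h1 h2
      rw [← h3]
      simp [dC]
  have hconst : ∀ z ∈ ball (0 : ℂ) (9 / 10), U z = 0 := by
    intro z hz
    have hb : (3 / 8 : ℂ) ∈ ball (0 : ℂ) (9 / 10) := by
      rw [mem_ball_zero_iff]; norm_num
    have h1 : f z = f (3 / 8) := isOpen_ball.is_const_of_deriv_eq_zero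
      (convex_ball _ _).isPreconnected hfd hdf hz hb
    have h2 : (f z).re = U z := hfre hz
    have h3 : (f (3 / 8)).re = U (3 / 8) := hfre hb
    rw [← h2, h1, h3, hU0 _ hz0.1 hz0.2]
  intro z hz
  rcases hz with hz | hz
  · apply hconst
    rw [mem_closedBall_zero_iff] at hz
    rw [mem_ball_zero_iff]
    linarith
  · obtain ⟨ζ, ⟨h1, h2⟩, rfl⟩ := hz
    exact hV0 ζ (by linarith) h2

end Pool.Agent.Stek
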