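import Pool.Agent.Stek.PH0
import Pool.Agent.Stek.TSeq
import Pool.Agent.Stek.PF1
import Pool.Agent.Stek.PF7
import Pool.Agent.Stek.PF12a

/-!
# H3: eigenfunctions of the first surface give solutions
-/

open scoped BigOperators ComplexConjugate Topology ContDiff
open Complex Metric InnerProductSpace

noncomputable section

namespace Pool.Agent.Stek

namespace PH3

/-! ### Calculus of `dC` -/

theorem lin_eq (L : ℂ →L[ℝ] ℝ) (v : ℂ) : L v = v.re * L 1 + v.im * L I := by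
  have : v = v.re • (1 : ℂ) + v.im • I := by
    apply Complex.ext <;> simp
  conv_lhs => rw [this]
  rw [map_add, map_smul, map_smul, smul_eq_mul, smul_eq_mul]

theorem fderiv_eq (V : ℂ → ℝ) (z v : ℂ) : fderiv ℝ V z v = (dC V z * v).re := by
  rw [lin_eq, dC]
  simp
  ring

theorem dC_of_hasFDerivAt {V : ℂ → ℝ} {L : ℂ →L[ℝ] ℝ} {z : ℂ} (h : HasFDerivAt V L z) :
    dC V z = (L 1 : ℂ) - I * (L I : ℂ) := by
  rw [dC, h.fderiv]

theorem dC_comp {U : ℂ → ℝ} {h : ℂ → ℂ} {z : ℂ} (hU : DifferentiableAt ℝ U (h z))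
    (hh : DifferentiableAt ℂ h z) : dC (fun ζ => U (h ζ)) z = dC U (h z) * deriv h z := by
  have h1 : HasFDerivAt h ((ContinuousLinearMap.toSpanSingleton ℂ
      (deriv h z)).restrictScalars ℝ) z := hh.hasDerivAt.hasFDerivAt.restrictScalars ℝ
  have h2 := hU.hasFDerivAt.comp z h1
  rw [dC_of_hasFDerivAt (V := fun ζ => U (h ζ)) h2, dC]
  simp only [ContinuousLinearMap.comp_apply, ContinuousLinearMap.coe_restrictScalars',
    ContinuousLinearMap.toSpanSingleton_apply, smul_eq_mul, one_mul]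
  rw [lin_eq _ (deriv h z), lin_eq _ (I * deriv h z)]
  simp only [mul_re, mul_im, I_re, I_im, zero_mul, one_mul, zero_sub, zero_add]
  push_cast
  conv_rhs => rw [← re_add_im (deriv h z)]
  linear_combination ((deriv h z).im * (fderiv ℝ U (h z) I : ℂ)) * I_sq

theorem dC_re {f : ℂ → ℂ} {z : ℂ} (hf : DifferentiableAt ℂ f z) :
    dC (fun ζ => (f ζ).re) z = deriv f z := by
  have h1 : HasFDerivAt f ((ContinuousLinearMap.toSpanSingleton ℂ
      (deriv f z)).restrictScalars ℝ) z := hf.hasDerivAt.hasFDerivAt.restrictScalars ℝ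
  have h2 := (reCLM.hasFDerivAt (x := f z)).comp z h1
  rw [dC_of_hasFDerivAt (V := fun ζ => (f ζ).re) h2]
  simp only [ContinuousLinearMap.comp_apply, ContinuousLinearMap.coe_restrictScalars',
    ContinuousLinearMap.toSpanSingleton_apply, smul_eq_mul, one_mul, reCLM_apply, mul_re, I_re,
    I_im, zero_mul, zero_sub]
  conv_rhs => rw [← re_add_im (deriv f z)]
  push_cast
  ring

theorem dC_sub {U V : ℂ → ℝ} {z : ℂ} (hU : DifferentiableAt ℝ U z) (hV : DifferentiableAt ℝ V z) :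
    dC (fun ζ => U ζ - V ζ) z = dC U z - dC V z := by
  have h := hU.hasFDerivAt.sub hV.hasFDerivAt
  rw [dC_of_hasFDerivAt (V := fun ζ => U ζ - V ζ) h, dC, dC]
  simp only [sub_apply]
  push_cast
  ring

theorem dC_congr {U V : ℂ → ℝ} {z : ℂ} (h : U =ᶠ[𝓝 z] V) : dC U z = dC V z := by
  rw [dC, dC, h.fderiv_eq]

theorem harmonicAt_comp {U : ℂ → ℝ} {h : ℂ → ℂ} {z : ℂ} (hU : HarmonicAt U (h z))
    (hh : AnalyticAt ℂ h z) : HarmonicAt (fun ζ => U (h ζ)) z := by
  obtain ⟨r, hr, hball⟩ := Metric.mem_nhds_iff.1 ((isOpen_setOfPred_harmonicAt U).mem_nhds hU)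
  obtain ⟨F, hF1, hF2⟩ := InnerProductSpace.HarmonicOnNhd.exists_analyticOnNhd_ball_re_eq
    (f := U) (z := h z) (R := r) (fun w hw => hball hw)
  have h1 : AnalyticAt ℂ (fun ζ => F (h ζ)) z :=
    (hF1 (h z) (mem_ball_self hr)).comp hh
  have h2 : HarmonicAt (fun ζ => (F (h ζ)).re) z := h1.harmonicAt_re
  refine (harmonicAt_congr_nhds ?_).1 h2
  filter_upwards [hh.continuousAt.preimage_mem_nhds (isOpen_ball.mem_nhds (mem_ball_self hr))]
    with ζ hζ
  exact hF2 hζ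

theorem differentiableAt_dC {U : ℂ → ℝ} {z : ℂ} (hU : HarmonicAt U z) :
    DifferentiableAt ℂ (dC U) z :=
  (HarmonicAt.analyticAt_complex_partial hU).differentiableAt

theorem contDiffAt_re {f : ℂ → ℂ} {z : ℂ} (hf : AnalyticAt ℂ f z) :
    ContDiffAt ℝ ∞ (fun z => (f z).re) z :=
  Complex.reCLM.contDiff.contDiffAt.comp z (hf.contDiffAt.restrict_scalars ℝ)

/-! ### Elementary geometry -/

theorem RR_pos : 0 < RR := HF12a.RR_pos

theorem rr_pos : 0 < rr := by norm_num [rr]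

theorem rr_lt : rr ≤ 1 / 1000 := by norm_num [rr]

theorem sqrt_le {s : ℝ} (hs : s ∈ Set.Icc (1 / 20 : ℝ) (1 / 6)) : 0 < √s ∧ √s ≤ 9 / 20 := by
  obtain ⟨h1, h2⟩ := hs
  refine ⟨Real.sqrt_pos.2 (by linarith), ?_⟩
  rw [Real.sqrt_le_left (by norm_num)]
  linarith

theorem inv_sqrt_ge {s : ℝ} (hs : s ∈ Set.Icc (1 / 20 : ℝ) (1 / 6)) : 20 / 9 ≤ 1 / √s := by
  obtain ⟨h1, h2⟩ := sqrt_le hs
  rw [div_le_div_iff₀ (by norm_num) h1]
  linarith

theorem near_one {w : ℂ} (hw : ‖w - 1‖ < 1 / 3) :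
    2 / 3 < ‖w‖ ∧ ‖w‖ < 4 / 3 ∧ 5 / 3 < ‖w + 1‖ ∧ 1 < ‖iot w - 1‖ := by
  have h1 : 2 / 3 < ‖w‖ := by
    have : ‖(1 : ℂ)‖ ≤ ‖w‖ + ‖w - 1‖ := by
      have e : (1 : ℂ) = w - (w - 1) := by ring
      conv_lhs => rw [e]
      exact norm_sub_le _ _
    rw [norm_one] at this
    linarith
  have h2 : ‖w‖ < 4 / 3 := by
    have : ‖w‖ ≤ ‖w - 1‖ + ‖(1 : ℂ)‖ := by
      have e : w = (w - 1) + 1 := by ring
      conv_lhs => rw [e]
      exact norm_add_le _ _
    rw [norm_one] at this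
    linarith
  have h3 : 5 / 3 < ‖w + 1‖ := by
    have : ‖(2 : ℂ)‖ ≤ ‖w + 1‖ + ‖w - 1‖ := by
      have e : (2 : ℂ) = (w + 1) - (w - 1) := by ring
      conv_lhs => rw [e]
      exact norm_sub_le _ _
    rw [Complex.norm_ofNat] at this
    linarith
  refine ⟨h1, h2, h3, ?_⟩
  have hw0 : conj w ≠ 0 := by
    intro h
    have : ‖w‖ = 0 := by rw [← RCLike.norm_conj, h, norm_zero]
    linarith
  have e : iot w - 1 = -(conj (w + 1) / conj w) := by
    unfold iot
    rw [map_add, map_one]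
    field_simp
    ring
  rw [e, norm_neg, norm_div, RCLike.norm_conj, RCLike.norm_conj, lt_div_iff₀ (by linarith)]
  linarith

/-! ### The derivative of `Pf` -/

theorem term_deriv (p : ℕ → ℂ) (n : ℕ) {w : ℂ} (hw : w - 1 ≠ 0) :
    HasDerivAt (fun w : ℂ => p (n + 1) * ((RR : ℂ) / (w - 1)) ^ (n + 1))
      (-(((n : ℂ) + 1) * p (n + 1) * RR ^ (n + 1)) / (w - 1) ^ (n + 2)) w := by
  have h1 : HasDerivAt (fun w : ℂ => (RR : ℂ) / (w - 1)) ((0 * (w - 1) - RR * 1) / (w - 1) ^ 2) w :=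
    (hasDerivAt_const w (RR : ℂ)).div ((hasDerivAt_id w).sub_const 1) hw
  have h2 := (h1.pow (n + 1)).const_mul (p (n + 1))
  refine h2.congr_deriv ?_
  push_cast
  rw [div_pow]
  field_simp
  ring

theorem Pf_deriv {p : ℕ → ℂ} {C : ℝ} (hp : ∀ n, ‖p n‖ ≤ C * 4 ^ n) {w : ℂ}
    (hw : 9 / 2 * RR < ‖w - 1‖) :
    HasSum (fun n : ℕ => -(((n : ℂ) + 1) * p (n + 1) * RR ^ (n + 1)) / (w - 1) ^ (n + 2))
      (deriv (Pf p) w) := by
  have hR := RR_pos
  have hC : 0 ≤ C := by simpa using (norm_nonneg _).trans (hp 0)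
  have hne : ∀ z : ℂ, 9 / 2 * RR < ‖z - 1‖ → z - 1 ≠ 0 := by
    intro z hz h
    rw [h, norm_zero] at hz
    linarith
  have h := hasSum_deriv_of_summable_norm (u := fun n : ℕ => C * (8 / 9) ^ (n + 1))
    (F := fun (n : ℕ) (w : ℂ) => p (n + 1) * ((RR : ℂ) / (w - 1)) ^ (n + 1))
    (U := {w : ℂ | 9 / 2 * RR < ‖w - 1‖}) ?_ ?_ ?_ ?_ hw
  · have e : (fun n : ℕ => -(((n : ℂ) + 1) * p (n + 1) * RR ^ (n + 1)) / (w - 1) ^ (n + 2)) =
        fun n : ℕ => deriv (fun w : ℂ => p (n + 1) * ((RR : ℂ) / (w - 1)) ^ (n + 1)) w := by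
      funext n
      rw [(term_deriv p n (hne w hw)).deriv]
    rw [e]
    exact h
  · exact ((summable_nat_add_iff 1).2 (summable_geometric_of_lt_one (by norm_num)
      (by norm_num : (8 / 9 : ℝ) < 1))).mul_left C
  · intro n z hz
    exact (term_deriv p n (hne z hz)).differentiableAt.differentiableWithinAt
  · exact isOpen_lt continuous_const (continuous_id.sub continuous_const).norm
  · intro n z hz
    have hz' : 9 / 2 * RR < ‖z - 1‖ := hz
    have hpos : 0 < ‖z - 1‖ := by linarith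
    rw [norm_mul, norm_pow, norm_div, Complex.norm_real, Real.norm_of_nonneg hR.le]
    have h1 : RR / ‖z - 1‖ ≤ 2 / 9 := by
      rw [div_le_div_iff₀ hpos (by norm_num)]
      linarith
    calc ‖p (n + 1)‖ * (RR / ‖z - 1‖) ^ (n + 1)
        ≤ (C * 4 ^ (n + 1)) * (2 / 9) ^ (n + 1) := by
          gcongr
          exact hp _
      _ = C * (8 / 9) ^ (n + 1) := by
          rw [mul_assoc, ← mul_pow]; norm_num

/-- The residue of `dC U` is real. -/
theorem residue {U : ℂ → ℝ} {φ P : ℂ → ℂ} {b : ℂ} (hφ : DifferentiableOn ℂ φ (ball 1 (1 / 3)))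
    {S : Set ℂ} (hS : IsOpen S) (hP : DifferentiableOn ℂ P S) (hsub : sphere (1 : ℂ) (1 / 5) ⊆ S)
    (hU : ∀ w ∈ sphere (1 : ℂ) (1 / 5), ContDiffAt ℝ ∞ U w)
    (h : ∀ w ∈ sphere (1 : ℂ) (1 / 5), dC U w = φ w + b * (w - 1)⁻¹ + deriv P w) : b.im = 0 := by
  have h5 : (0 : ℝ) < 1 / 5 := by norm_num
  -- the integral
  have hint : (∮ w in C(1, 1 / 5), dC U w) = b * (2 * Real.pi * I) := by
    have hc1 : ContinuousOn φ (sphere 1 (1 / 5)) :=
      hφ.continuousOn.mono (sphere_subset_ball (by norm_num))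
    have hc2 : ContinuousOn (fun w : ℂ => b • (w - 1)⁻¹) (sphere 1 (1 / 5)) := by
      refine ContinuousOn.fun_smul continuousOn_const ?_
      refine ContinuousOn.inv₀ (continuousOn_id.sub continuousOn_const) ?_
      intro w hw h0
      have h0' : w - 1 = 0 := h0
      rw [mem_sphere, dist_eq_norm, h0', norm_zero] at hw
      norm_num at hw
    have hc3 : ContinuousOn (deriv P) (sphere 1 (1 / 5)) := ((hP.deriv hS).continuousOn).mono hsub
    have e1 : (∮ w in C(1, 1 / 5), dC U w) =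
        ∮ w in C(1, 1 / 5), ((φ w + b • (w - 1)⁻¹) + deriv P w) := by
      refine circleIntegral.integral_congr h5.le ?_
      intro w hw
      exact h w hw
    have i1 := hc1.circleIntegrable h5.le
    have i2 := hc2.circleIntegrable h5.le
    have i3 := hc3.circleIntegrable h5.le
    have e2 := circleIntegral.integral_add (i1.add i2) i3
    have e3 := circleIntegral.integral_add i1 i2
    have e4 : (∮ w in C(1, 1 / 5), φ w) = 0 := by
      refine Complex.circleIntegral_eq_zero_of_differentiable_on_off_countable h5.le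
        Set.countable_empty ?_ ?_
      · exact hφ.continuousOn.mono (closedBall_subset_ball (by norm_num))
      · intro z hz
        exact hφ.differentiableAt (isOpen_ball.mem_nhds (ball_subset_ball (by norm_num) hz.1))
    have e5 : (∮ w in C(1, 1 / 5), deriv P w) = 0 := by
      refine circleIntegral.integral_eq_zero_of_hasDerivWithinAt (f := P) h5.le ?_
      intro z hz
      exact ((hP.differentiableAt (hS.mem_nhds (hsub hz))).hasDerivAt).hasDerivWithinAt
    have e6 : (∮ w in C(1, 1 / 5), b • (w - 1)⁻¹) = b * (2 * Real.pi * I) := by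
      rw [circleIntegral.integral_smul, circleIntegral.integral_sub_center_inv _ h5.ne',
        smul_eq_mul]
    rw [e1]
    have e2' : (∮ w in C(1, 1 / 5), ((φ w + b • (w - 1)⁻¹) + deriv P w)) =
      (∮ w in C(1, 1 / 5), (φ w + b • (w - 1)⁻¹)) + ∮ w in C(1, 1 / 5), deriv P w := e2
    have e3' : (∮ w in C(1, 1 / 5), (φ w + b • (w - 1)⁻¹)) =
      (∮ w in C(1, 1 / 5), φ w) + ∮ w in C(1, 1 / 5), b • (w - 1)⁻¹ := e3
    rw [e2', e3', e4, e5, e6]
    ring
  -- its real part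
  have hre : (∮ w in C(1, 1 / 5), dC U w).re = 0 := by
    have hmem : ∀ θ : ℝ, circleMap 1 (1 / 5) θ ∈ sphere (1 : ℂ) (1 / 5) := fun θ =>
      circleMap_mem_sphere 1 h5.le θ
    have hcont : ∀ θ : ℝ, ContinuousAt (fun θ => fderiv ℝ U (circleMap 1 (1 / 5) θ)) θ := by
      intro θ
      have h1 : ContinuousAt (fderiv ℝ U) (circleMap 1 (1 / 5) θ) :=
        ((hU _ (hmem θ)).fderiv_right (m := 0) (by simp)).continuousAt
      exact ContinuousAt.comp (g := fderiv ℝ U) h1 (continuous_circleMap 1 (1 / 5)).continuousAt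
    have hcdC : Continuous (fun θ => deriv (circleMap 1 (1 / 5)) θ • dC U (circleMap 1 (1 / 5) θ)) := by
      rw [continuous_iff_continuousAt]
      intro θ
      have a1 : ContinuousAt (fun θ => fderiv ℝ U (circleMap 1 (1 / 5) θ) 1) θ :=
        (hcont θ).clm_apply continuousAt_const
      have a2 : ContinuousAt (fun θ => fderiv ℝ U (circleMap 1 (1 / 5) θ) I) θ :=
        (hcont θ).clm_apply continuousAt_const
      have a3 : ContinuousAt (fun θ => dC U (circleMap 1 (1 / 5) θ)) θ := by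
        unfold dC
        exact (continuous_ofReal.continuousAt.comp a1).sub
          (continuousAt_const.mul (continuous_ofReal.continuousAt.comp a2))
      have a4 : ContinuousAt (fun θ => deriv (circleMap 1 (1 / 5)) θ) θ := by
        have : (fun θ => deriv (circleMap 1 (1 / 5)) θ) = fun θ => circleMap 0 (1 / 5) θ * I := by
          funext t; rw [deriv_circleMap]
        rw [this]
        exact ((continuous_circleMap 0 (1 / 5)).mul continuous_const).continuousAt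
      exact a4.smul a3
    have hi := hcdC.intervalIntegrable 0 (2 * Real.pi) (μ := MeasureTheory.volume)
    have h1 := reCLM.intervalIntegral_comp_comm hi
    have h2 : (∮ w in C(1, 1 / 5), dC U w).re =
        ∫ θ in (0 : ℝ)..2 * Real.pi,
          reCLM (deriv (circleMap 1 (1 / 5)) θ • dC U (circleMap 1 (1 / 5) θ)) := by
      rw [h1]; rfl
    rw [h2]
    have hd : ∀ θ : ℝ, HasDerivAt (fun θ => U (circleMap 1 (1 / 5) θ))
        (reCLM (deriv (circleMap 1 (1 / 5)) θ • dC U (circleMap 1 (1 / 5) θ))) θ := by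
      intro θ
      have b1 : HasFDerivAt U (fderiv ℝ U (circleMap 1 (1 / 5) θ)) (circleMap 1 (1 / 5) θ) :=
        ((hU _ (hmem θ)).differentiableAt (by simp)).hasFDerivAt
      have b2 : HasDerivAt (circleMap 1 (1 / 5)) (deriv (circleMap 1 (1 / 5)) θ) θ :=
        (differentiable_circleMap 1 (1 / 5) θ).hasDerivAt
      have b3 := b1.comp_hasDerivAt θ b2
      refine b3.congr_deriv ?_
      rw [fderiv_eq, reCLM_apply, smul_eq_mul, mul_comm]
    rw [intervalIntegral.integral_eq_sub_of_hasDerivAt (fun θ _ => hd θ)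
      ((reCLM.continuous.comp hcdC).intervalIntegrable _ _)]
    have h3 : circleMap (1 : ℂ) (1 / 5) (2 * Real.pi) = circleMap 1 (1 / 5) 0 := by
      have := periodic_circleMap (1 : ℂ) (1 / 5) 0
      rwa [zero_add] at this
    rw [h3, sub_self]
  rw [hint] at hre
  have h2 : (b * (2 * Real.pi * I)).re = -(2 * Real.pi) * b.im := by
    simp
    ring
  rw [h2] at hre
  have hpi := Real.pi_pos
  rcases mul_eq_zero.1 hre with h3 | h3
  · linarith
  · exact h3

/-! ### The response function near the surface -/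

/-- The open set on which the parts of the response function are holomorphic. -/
def Dom (s : ℝ) : Set ℂ :=
  {w | 9 / 10 * √s < ‖w‖ ∧ ‖w‖ < 10 / 9 / √s ∧ w ≠ 0 ∧ 4 * RR < ‖iot w - 1‖}

theorem continuousAt_iot {w : ℂ} (hw : w ≠ 0) : ContinuousAt iot w := by
  unfold iot
  refine continuousAt_const.div continuous_conj.continuousAt ?_
  simpa using hw

theorem isOpen_Dom (s : ℝ) : IsOpen (Dom s) := by
  have h1 : IsOpen {w : ℂ | 9 / 10 * √s < ‖w‖} := isOpen_lt continuous_const continuous_norm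
  have h2 : IsOpen {w : ℂ | ‖w‖ < 10 / 9 / √s} := isOpen_lt continuous_norm continuous_const
  have h3 : IsOpen {w : ℂ | w ≠ 0 ∧ 4 * RR < ‖iot w - 1‖} := by
    rw [isOpen_iff_mem_nhds]
    rintro w ⟨hw0, hw⟩
    have h : ContinuousAt (fun w => ‖iot w - 1‖) w :=
      ((continuousAt_iot hw0).sub continuousAt_const).norm
    filter_upwards [isOpen_ne.mem_nhds hw0, h.eventually (lt_mem_nhds hw)] with z hz1 hz2
    exact ⟨hz1, hz2⟩
  have : Dom s = {w : ℂ | 9 / 10 * √s < ‖w‖} ∩ ({w : ℂ | ‖w‖ < 10 / 9 / √s} ∩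
      {w : ℂ | w ≠ 0 ∧ 4 * RR < ‖iot w - 1‖}) := by
    ext w; exact Iff.rfl
  rw [this]
  exact h1.inter (h2.inter h3)

theorem diff_reg {s C : ℝ} {p : ℕ → ℂ} (hs : s ∈ Set.Icc (1 / 20 : ℝ) (1 / 6))
    (hp : ∀ n, ‖p n‖ ≤ C * 4 ^ n) :
    DifferentiableOn ℂ (fun w => Pi' p w + Ef s p w) (Dom s) := by
  obtain ⟨-, h2, h3, -⟩ := f12a s 4 C p hs (by norm_num) le_rfl hp
  refine DifferentiableOn.fun_add (h2.mono ?_) (h3.mono ?_)
  · rintro w ⟨-, -, hw3, hw4⟩
    exact ⟨hw3, hw4⟩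
  · rintro w ⟨hw1, hw2, -, -⟩
    exact ⟨hw1, hw2⟩

theorem diff_Pf {s C : ℝ} {p : ℕ → ℂ} (hs : s ∈ Set.Icc (1 / 20 : ℝ) (1 / 6))
    (hp : ∀ n, ‖p n‖ ≤ C * 4 ^ n) : DifferentiableOn ℂ (Pf p) {w | 4 * RR < ‖w - 1‖} :=
  (f12a s 4 C p hs (by norm_num) le_rfl hp).1

theorem isOpen_out (a : ℝ) : IsOpen {w : ℂ | a < ‖w - 1‖} :=
  isOpen_lt continuous_const (continuous_id.sub continuous_const).norm

theorem ball_subset_Dom {s : ℝ} (hs : s ∈ Set.Icc (1 / 20 : ℝ) (1 / 6)) :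
    ball (1 : ℂ) (1 / 3) ⊆ Dom s := by
  intro w hw
  rw [mem_ball, dist_eq_norm] at hw
  obtain ⟨h1, h2, h3, h4⟩ := near_one hw
  obtain ⟨h5, h6⟩ := sqrt_le hs
  refine ⟨by linarith, ?_, ?_, ?_⟩
  · have : 4 / 3 < 10 / 9 / √s := by
      rw [div_div, div_lt_div_iff₀ (by norm_num) (by positivity)]
      linarith
    linarith
  · intro h
    rw [h, norm_zero] at h1
    linarith
  · have := HF12a.RR_small
    linarith

theorem annulus_subset_Dom {s : ℝ} (hs : s ∈ Set.Icc (1 / 20 : ℝ) (1 / 6)) {w : ℂ}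
    (h1 : √s ≤ ‖w‖) (h2 : ‖w‖ ≤ 1 / √s) (h3 : 4 * RR < ‖iot w - 1‖) : w ∈ Dom s := by
  obtain ⟨h5, h6⟩ := sqrt_le hs
  refine ⟨by linarith, ?_, ?_, h3⟩
  · refine h2.trans_lt ?_
    rw [div_lt_div_iff₀ h5 h5]
    linarith
  · intro h
    rw [h, norm_zero] at h1
    linarith

theorem decomp (hF12b : F12b) (hF13 : F13) (hG5 : G5) (hG7 : G7) (hG8 : G8) {s σ : ℝ} {g : ℕ → ℂ}
    {M : Surf} {U : ℂ → ℝ} (hs : s ∈ Set.Icc (1 / 20 : ℝ) (1 / 6)) (hg : Gb (2 * eps) g)
    (hMK : M.K = K1 s g) (hMi : M.iota = iot) (hU : M.IsEigen (SN1 s) σ U) :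
    ∃ (p : ℕ → ℂ) (C : ℝ), (∀ n, ‖p n‖ ≤ C * 4 ^ n) ∧
      ∀ w, 5 * RR < ‖w - 1‖ → ‖w - 1‖ < 1 / 4 →
        dC U w = deriv (fun w => Pf p w + (Pi' p w + Ef s p w)) w := by
  obtain ⟨-, -, hG53, hG54, hG55⟩ := hG5 s g hs hg
  have hR := RR_pos
  have hRs := HF12a.RR_small
  obtain ⟨hsq1, hsq2⟩ := sqrt_le hs
  have hsq3 := inv_sqrt_ge hs
  -- the annulus is in the interior
  have hint : ∀ w : ℂ, 3 * RR < ‖w - 1‖ → ‖w - 1‖ < 1 / 3 → w ∈ interior (K1 s g) := by
    intro w h1 h2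
    obtain ⟨k1, k2, k3, k4⟩ := near_one h2
    exact hG54 w (by linarith) (by linarith) h1 (by linarith)
  have hharm : ∀ w ∈ interior (K1 s g), HarmonicAt U w := by
    intro w hw
    exact hU.harmonic w (by rw [hMK]; exact hw)
  have hsm : ∀ w ∈ K1 s g, ContDiffAt ℝ ∞ U w := by
    intro w hw
    exact hU.smooth w (by rw [hMK]; exact hw)
  -- Laurent decomposition
  obtain ⟨φ, b, hφ, hb, hsum⟩ := f7 (dC U) 1 (3 * RR) (1 / 3) (by linarith) (by linarith)
    (fun w hw => (differentiableAt_dC (hharm w (hint w hw.1 hw.2))).differentiableWithinAt)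
  obtain ⟨C, hC⟩ := hb (4 * RR) (by linarith)
  have hC0 : 0 ≤ C := by simpa using (norm_nonneg _).trans (hC 0)
  set p : ℕ → ℂ := fun n => if n = 0 then 0 else -b n / (n * RR ^ n) with hpdef
  have hRne : (RR : ℂ) ≠ 0 := by exact_mod_cast hR.ne'
  have hp : ∀ n, ‖p n‖ ≤ C * 4 ^ n := by
    intro n
    rcases Nat.eq_zero_or_pos n with rfl | hn
    · simp [hpdef, hC0]
    · have hn1 : (1 : ℝ) ≤ n := by exact_mod_cast hn
      simp only [hpdef, if_neg (show n ≠ 0 by omega)]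
      rw [norm_div, norm_neg, norm_mul, Complex.norm_natCast, norm_pow, Complex.norm_real,
        Real.norm_of_nonneg hR.le, div_le_iff₀ (by positivity)]
      refine (hC n).trans ?_
      rw [mul_pow]
      have : 0 ≤ C * 4 ^ n * RR ^ n := by positivity
      nlinarith
  -- the derivative of `Pf p`
  have hPd : ∀ w : ℂ, 9 / 2 * RR < ‖w - 1‖ → ‖w - 1‖ < 1 / 3 →
      dC U w = φ w + b 0 * (w - 1)⁻¹ + deriv (Pf p) w := by
    intro w h1 h2
    have e1 := Pf_deriv hp h1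
    have e2 := hsum w (by linarith) h2
    rw [← hasSum_nat_add_iff' 1] at e2
    simp only [Finset.range_one, Finset.sum_singleton, zero_add, pow_one] at e2
    have e3 : (fun n : ℕ => -(((n : ℂ) + 1) * p (n + 1) * RR ^ (n + 1)) / (w - 1) ^ (n + 2)) =
        fun n : ℕ => b (n + 1) / (w - 1) ^ (n + 1 + 1) := by
      funext n
      have hn : ((n : ℂ) + 1) ≠ 0 := Nat.cast_add_one_ne_zero n
      congr 1
      simp only [hpdef, if_neg (Nat.succ_ne_zero n)]
      push_cast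
      field_simp
    rw [e3] at e1
    have e4 := e1.unique e2
    rw [e4, div_eq_mul_inv]
    ring
  have hb0 : (b 0).im = 0 := by
    refine residue (U := U) hφ (isOpen_out (4 * RR)) (diff_Pf hs hp) ?_ ?_ ?_
    · intro w hw
      rw [mem_sphere, dist_eq_norm] at hw
      show 4 * RR < ‖w - 1‖
      rw [hw]; linarith
    · intro w hw
      rw [mem_sphere, dist_eq_norm] at hw
      exact hsm w (interior_subset (hint w (by rw [hw]; linarith) (by rw [hw]; norm_num)))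
    · intro w hw
      rw [mem_sphere, dist_eq_norm] at hw
      exact hPd w (by rw [hw]; linarith) (by rw [hw]; norm_num)
  have hb0' : b 0 = ((b 0).re : ℂ) := by
    apply Complex.ext <;> simp [hb0]
  -- smoothness of the response
  have hana : ∀ w : ℂ, w ∈ Dom s → 4 * RR < ‖w - 1‖ →
      AnalyticAt ℂ (fun w => Pf p w + (Pi' p w + Ef s p w)) w := by
    intro w h1 h2
    have a1 : AnalyticAt ℂ (Pf p) w :=
      (diff_Pf hs hp).analyticAt ((isOpen_out _).mem_nhds h2)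
    have a2 : AnalyticAt ℂ (fun w => Pi' p w + Ef s p w) w :=
      (diff_reg hs hp).analyticAt ((isOpen_Dom s).mem_nhds h1)
    exact a1.add a2
  have hUf : Uf s p = fun w => (Pf p w + (Pi' p w + Ef s p w)).re := by
    funext w; rw [Uf, add_assoc]
  set φ0 : ℂ → ℂ := fun w => φ w - deriv (fun w => Pi' p w + Ef s p w) w with hφ0
  have hV0 : ∀ w, 5 * RR < ‖w - 1‖ → ‖w - 1‖ < 1 / 4 →
      dC (fun w => U w - Uf s p w) w =
        dC U w - deriv (fun w => Pf p w + (Pi' p w + Ef s p w)) w := by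
    intro w h1 h2
    have k1 : w ∈ interior (K1 s g) := hint w (by linarith) (by linarith)
    have k2 : w ∈ Dom s := ball_subset_Dom hs (by rw [mem_ball, dist_eq_norm]; linarith)
    have k3 := hana w k2 (by linarith)
    rw [hUf, dC_sub ((hsm w (interior_subset k1)).differentiableAt (by simp))
      ((contDiffAt_re k3).differentiableAt (by simp)), dC_re k3.differentiableAt]
  have hfin := hF13 s (b 0).re (fun w => U w - Uf s p w) φ0 hs ?_ ?_ ?_ ?_ ?_
  · refine ⟨p, C, hp, fun w h1 h2 => ?_⟩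
    obtain ⟨k1, k2, k3, k4⟩ := near_one (w := w) (by linarith)
    have h3 := hfin w (by linarith) (by linarith) h1 (by linarith)
    rw [hV0 w h1 h2] at h3
    exact sub_eq_zero.1 h3
  · -- smoothness and invariance
    intro w h1 h2 h3 h4
    have hwK : w ∈ K1 s g := hG53 w h1 h2 (by linarith) (by linarith)
    have hwD : w ∈ Dom s := annulus_subset_Dom hs h1 h2 (by linarith)
    refine ⟨(hsm w hwK).sub ?_, ?_⟩
    · rw [hUf]
      exact contDiffAt_re (hana w hwD (by linarith))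
    · have i1 := hU.invariant w (by rw [hMK]; exact hwK)
      rw [hMi] at i1
      have i2 := (f12a s 4 C p hs (by norm_num) le_rfl hp).2.2.2 w hwD.2.2.1
      rw [i1, i2]
  · -- harmonicity
    rintro w ⟨h1, h2, h3, h4⟩
    have hwK : w ∈ interior (K1 s g) := hG54 w h1 h2 (by linarith) (by linarith)
    have hwD : w ∈ Dom s := annulus_subset_Dom hs h1.le h2.le (by linarith)
    have k := (hana w hwD (by linarith)).harmonicAt_re
    rw [hUf]
    exact (hharm w hwK).sub k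
  · -- Neumann
    intro w hw
    have hwS : w ∈ SN1 s := hw
    have hwF : w ∈ frontier (K1 s g) := by
      rw [(hG7 s g hs hg).1]; exact Or.inl hwS
    have hclosed : IsClosed (K1 s g) := by rw [← hMK]; exact M.compact.isClosed
    have hwK : w ∈ K1 s g := hclosed.frontier_subset hwF
    have hw1 : 4 * RR < ‖w - 1‖ ∧ 4 * RR < ‖iot w - 1‖ ∧ √s ≤ ‖w‖ ∧ ‖w‖ ≤ 1 / √s := by
      have hle : √s ≤ 1 / √s := by linarith
      have t1 : ∀ z : ℂ, ‖z‖ ≤ 9 / 20 → 4 * RR < ‖z - 1‖ := by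
        intro z hz
        have : ‖(1 : ℂ)‖ ≤ ‖z‖ + ‖z - 1‖ := by
          have e : (1 : ℂ) = z - (z - 1) := by ring
          conv_lhs => rw [e]
          exact norm_sub_le _ _
        rw [norm_one] at this
        linarith
      have t2 : ∀ z : ℂ, 20 / 9 ≤ ‖z‖ → 4 * RR < ‖z - 1‖ := by
        intro z hz
        have : ‖z‖ ≤ ‖z - 1‖ + ‖(1 : ℂ)‖ := by
          have e : z = (z - 1) + 1 := by ring
          conv_lhs => rw [e]
          exact norm_add_le _ _
        rw [norm_one] at this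
        linarith
      have hn : ‖iot w‖ = 1 / ‖w‖ := by
        rw [iot, norm_div, norm_neg, norm_one, RCLike.norm_conj]
      rcases hw with hw | hw
      · refine ⟨t1 w (by rw [hw]; exact hsq2), t2 _ ?_, hw.ge, hw.le.trans hle⟩
        rw [hn, hw]; exact hsq3
      · refine ⟨t2 w (by rw [hw]; exact hsq3), t1 _ ?_, hle.trans hw.ge, hw.le⟩
        rw [hn, hw, one_div_one_div]; exact hsq2
    have hwD : w ∈ Dom s := annulus_subset_Dom hs hw1.2.2.1 hw1.2.2.2 hw1.2.1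
    have hw0 : w ≠ 0 := hwD.2.2.1
    have hwn : (‖w‖ : ℝ) ≠ 0 := norm_ne_zero_iff.2 hw0
    have d1 : DifferentiableAt ℝ U w := (hsm w hwK).differentiableAt (by simp)
    have d2 : DifferentiableAt ℝ (Uf s p) w := by
      rw [hUf]
      exact (contDiffAt_re (hana w hwD hw1.1)).differentiableAt (by simp)
    have e1 : fderiv ℝ (fun w => U w - Uf s p w) w w = fderiv ℝ U w w - fderiv ℝ (Uf s p) w w := by
      have := (d1.hasFDerivAt.sub d2.hasFDerivAt).fderiv
      have h2 : fderiv ℝ (fun w => U w - Uf s p w) w = fderiv ℝ U w - fderiv ℝ (Uf s p) w := this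
      rw [h2]; rfl
    have e2 := hF12b s 4 C p hs (by norm_num) le_rfl hp w hw
    have e3 : fderiv ℝ U w w = 0 := by
      have hneu : ∀ n, IsOutwardNormal (K1 s g) w n → fderiv ℝ U w n = 0 := by
        intro n hn
        exact hU.neumann w ⟨by rw [hMK]; exact hwF, hwS⟩ n (by rw [hMK]; exact hn)
      obtain ⟨-, g1, g2, -⟩ := hG8 s g hs hg
      rcases hw with hw | hw
      · have := hneu _ (g1 w hw)
        have e4 : -w / (‖w‖ : ℂ) = (-(‖w‖)⁻¹ : ℝ) • w := by
          rw [Complex.real_smul]; push_cast; ring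
        rw [e4, map_smul, smul_eq_mul] at this
        rcases mul_eq_zero.1 this with h | h
        · exact absurd h (neg_ne_zero.2 (inv_ne_zero hwn))
        · exact h
      · have := hneu _ (g2 w hw)
        have e4 : w / (‖w‖ : ℂ) = ((‖w‖)⁻¹ : ℝ) • w := by
          rw [Complex.real_smul]; push_cast; ring
        rw [e4, map_smul, smul_eq_mul] at this
        rcases mul_eq_zero.1 this with h | h
        · exact absurd h (inv_ne_zero hwn)
        · exact h
    rw [e1, e2, e3, sub_zero]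
  · -- the regular part
    have a1 : DifferentiableOn ℂ φ (ball 1 (1 / 4)) := hφ.mono (ball_subset_ball (by norm_num))
    have a2 : DifferentiableOn ℂ (deriv (fun w => Pi' p w + Ef s p w)) (ball 1 (1 / 4)) := by
      refine ((diff_reg hs hp).mono (ball_subset_Dom hs)).deriv isOpen_ball |>.mono ?_
      exact ball_subset_ball (by norm_num)
    exact a1.sub a2
  · intro w h1 h2
    rw [hV0 w h1 h2, hPd w (by linarith) (by linarith), hb0']
    have k2 : w ∈ Dom s := ball_subset_Dom hs (by rw [mem_ball, dist_eq_norm]; linarith)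
    have d1 : DifferentiableAt ℂ (Pf p) w :=
      (diff_Pf hs hp).differentiableAt ((isOpen_out _).mem_nhds (show 4 * RR < ‖w - 1‖ by linarith))
    have d2 : DifferentiableAt ℂ (fun w => Pi' p w + Ef s p w) w :=
      (diff_reg hs hp).differentiableAt ((isOpen_Dom s).mem_nhds k2)
    have e : deriv (fun w => Pf p w + (Pi' p w + Ef s p w)) w =
        deriv (Pf p) w + deriv (fun w => Pi' p w + Ef s p w) w :=
      (d1.hasDerivAt.add d2.hasDerivAt).deriv
    rw [e]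
    simp only [hφ0, ofReal_re, div_eq_mul_inv]
    ring

/-! ### The map `w1` -/

theorem Fm_norm {g : ℕ → ℂ} (hg : Gb (2 * eps) g) {ζ : ℂ} (h : 3 * rr < ‖ζ‖) :
    ‖ζ‖ - 1 / 1000 ≤ ‖Fm g ζ‖ ∧ ‖Fm g ζ‖ ≤ ‖ζ‖ + 1 / 1000 ∧ 2 * rr < ‖Fm g ζ‖ := by
  have hr : (0 : ℝ) < rr := rr_pos
  have h1 := (f1 g hg).2.1 ζ (by linarith)
  have h2 : eps * rr ≤ 1 / 1000 := by norm_num [eps, rr]
  have h3 : eps * rr ≤ rr := by
    have : eps ≤ 1 := by norm_num [eps]
    nlinarith
  have h4 := abs_norm_sub_norm_le (Fm g ζ) ζ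
  have h5 := abs_le.1 (h4.trans h1)
  exact ⟨by linarith, by linarith, by linarith⟩

theorem w1_sub (g : ℕ → ℂ) (ζ : ℂ) : w1 g ζ - 1 = RR / Fm g ζ := by
  rw [w1]; ring

theorem RR_div_w1 {g : ℕ → ℂ} (ζ : ℂ) :
    (RR : ℂ) / (w1 g ζ - 1) = Fm g ζ := by
  rw [w1_sub]
  have hR : (RR : ℂ) ≠ 0 := by exact_mod_cast RR_pos.ne'
  by_cases h : Fm g ζ = 0
  · rw [h]; simp
  · field_simp

theorem norm_w1_sub (g : ℕ → ℂ) (ζ : ℂ) : ‖w1 g ζ - 1‖ = RR / ‖Fm g ζ‖ := by
  rw [w1_sub, norm_div, Complex.norm_real, Real.norm_of_nonneg RR_pos.le]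

theorem isOpen_ext : IsOpen {ζ : ℂ | 3 * rr < ‖ζ‖} := isOpen_lt continuous_const continuous_norm

theorem w1_diff {g : ℕ → ℂ} (hg : Gb (2 * eps) g) :
    DifferentiableOn ℂ (w1 g) {ζ | 3 * rr < ‖ζ‖} := by
  have h1 : DifferentiableOn ℂ (Fm g) {ζ | 3 * rr < ‖ζ‖} := by
    refine (f1 g hg).1.mono ?_
    intro ζ hζ
    have h : 3 * rr < ‖ζ‖ := hζ
    have hr : (0 : ℝ) < rr := rr_pos
    show rr < ‖ζ‖
    linarith
  have h2 : ∀ ζ ∈ {ζ : ℂ | 3 * rr < ‖ζ‖}, Fm g ζ ≠ 0 := by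
    intro ζ hζ h
    have := (Fm_norm hg hζ).2.2
    have hr : (0 : ℝ) < rr := rr_pos
    rw [h, norm_zero] at this
    linarith
  exact (differentiableOn_const (1 : ℂ)).fun_add ((differentiableOn_const (RR : ℂ)).fun_div h1 h2)

theorem w1_analytic {g : ℕ → ℂ} (hg : Gb (2 * eps) g) {ζ : ℂ} (h : 3 * rr < ‖ζ‖) :
    AnalyticAt ℂ (w1 g) ζ := (w1_diff hg).analyticAt (isOpen_ext.mem_nhds h)

theorem w1_deriv {g : ℕ → ℂ} (hg : Gb (2 * eps) g) {ζ : ℂ} (h : 3 * rr < ‖ζ‖) :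
    deriv (w1 g) ζ ≠ 0 := by
  have hr : (0 : ℝ) < rr := rr_pos
  have h0 : Fm g ζ ≠ 0 := by
    intro h0
    have := (Fm_norm hg h).2.2
    rw [h0, norm_zero] at this
    linarith
  have h1 : DifferentiableAt ℂ (Fm g) ζ :=
    (f1 g hg).1.differentiableAt ((isOpen_lt continuous_const continuous_norm).mem_nhds
      (show rr < ‖ζ‖ by linarith))
  have h2 := ((hasDerivAt_const ζ (RR : ℂ)).div h1.hasDerivAt h0).const_add (1 : ℂ)
  have h3 : deriv (w1 g) ζ = (0 * Fm g ζ - RR * deriv (Fm g) ζ) / Fm g ζ ^ 2 := h2.deriv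
  rw [h3]
  have h4 : deriv (Fm g) ζ ≠ 0 := by
    intro h4
    have h5 := (f1 g hg).2.2.2 ζ (by linarith)
    rw [h4, zero_sub, norm_neg, norm_one] at h5
    norm_num [eps] at h5
  have hR : (RR : ℂ) ≠ 0 := by exact_mod_cast RR_pos.ne'
  refine div_ne_zero ?_ (pow_ne_zero 2 h0)
  rw [zero_mul, zero_sub]
  exact neg_ne_zero.2 (mul_ne_zero hR h4)

theorem w1_inj {g : ℕ → ℂ} (hg : Gb (2 * eps) g) {ζ η : ℂ} (h : 3 * rr < ‖ζ‖) (h' : 3 * rr < ‖η‖)
    (he : w1 g ζ = w1 g η) : ζ = η := by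
  have hr : (0 : ℝ) < rr := rr_pos
  have e : Fm g ζ = Fm g η := by rw [← RR_div_w1 ζ, ← RR_div_w1 η, he]
  exact PF1.inj hg (by linarith) (by linarith) e

end PH3

open PH3

theorem h3 (hH0 : H0) (hF12b : F12b) (hF12c : F12c) (hF13 : F13) (hG5 : G5) (hG6 : G6) (hG7 : G7)
    (hG8 : G8) (hS7 : S7) : H3 := by
  intro s g M σ U hs hg hMK hMi hlam hU
  obtain ⟨p, C, hp, hdec⟩ := decomp hF12b hF13 hG5 hG7 hG8 hs hg hMK hMi hU
  obtain ⟨hG51, hG52, -, -, -⟩ := hG5 s g hs hg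
  have hR := RR_pos
  have hRs := HF12a.RR_small
  have hR4 : RR ≤ 1 / 100000 := by norm_num [RR]
  have hr := rr_pos
  have hrs : rr ≤ 1 / 1000 := rr_lt
  have hharm : ∀ w ∈ interior (K1 s g), HarmonicAt U w := by
    intro w hw
    exact hU.harmonic w (by rw [hMK]; exact hw)
  have hsm : ∀ w ∈ K1 s g, ContDiffAt ℝ ∞ U w := by
    intro w hw
    exact hU.smooth w (by rw [hMK]; exact hw)
  have hmemK : ∀ ζ : ℂ, 1 / 8 ≤ ‖ζ‖ → ‖ζ‖ ≤ 1 → w1 g ζ ∈ K1 s g := by
    intro ζ h1 h2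
    rcases h2.lt_or_eq with h | h
    · exact interior_subset (hG51 ζ (by linarith) h)
    · exact hG52 ζ h
  obtain ⟨hkE, hkO, -, -⟩ := hS7 s s hs hs
  -- the main condition
  have hmain : ∀ ζ : ℂ, ‖ζ‖ = 1 / 8 →
      dC (fun ζ => U (w1 g ζ)) ζ = deriv (Hf (kE s) (kO s) g p) ζ := by
    intro ζ hζ
    have hζ3 : 3 * rr < ‖ζ‖ := by rw [hζ]; linarith
    obtain ⟨n1, n2, n3⟩ := Fm_norm hg hζ3
    have hw5 : 5 * RR < ‖w1 g ζ - 1‖ := by
      rw [norm_w1_sub, lt_div_iff₀ (by linarith)]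
      nlinarith
    have hw4 : ‖w1 g ζ - 1‖ < 1 / 4 := by
      rw [norm_w1_sub, div_lt_iff₀ (by linarith)]
      nlinarith
    have hK := hmemK ζ hζ.ge (by rw [hζ]; norm_num)
    have hwd : DifferentiableAt ℂ (w1 g) ζ := (w1_analytic hg hζ3).differentiableAt
    rw [dC_comp ((hsm _ hK).differentiableAt (by simp)) hwd, hdec _ hw5 hw4]
    have hRd : DifferentiableAt ℂ (fun w => Pf p w + (Pi' p w + Ef s p w)) (w1 g ζ) := by
      have d1 : DifferentiableAt ℂ (Pf p) (w1 g ζ) :=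
        (diff_Pf hs hp).differentiableAt ((isOpen_out _).mem_nhds
          (show 4 * RR < ‖w1 g ζ - 1‖ by linarith))
      have d2 : DifferentiableAt ℂ (fun w => Pi' p w + Ef s p w) (w1 g ζ) :=
        (diff_reg hs hp).differentiableAt ((isOpen_Dom s).mem_nhds
          (ball_subset_Dom hs (by rw [mem_ball, dist_eq_norm]; linarith)))
      exact d1.add d2
    have hchain : deriv (fun ζ => Pf p (w1 g ζ) + (Pi' p (w1 g ζ) + Ef s p (w1 g ζ))) ζ =
        deriv (fun w => Pf p w + (Pi' p w + Ef s p w)) (w1 g ζ) * deriv (w1 g) ζ :=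
      (hRd.hasDerivAt.comp ζ hwd.hasDerivAt).deriv
    rw [← hchain]
    have hev : (fun ζ => Pf p (w1 g ζ) + (Pi' p (w1 g ζ) + Ef s p (w1 g ζ))) =ᶠ[𝓝 ζ]
        fun ζ => Hf (kE s) (kO s) g p ζ + (Pi' p 1 + Ef s p 1) := by
      have hop : IsOpen {ζ : ℂ | 1 / 100 < ‖ζ‖} := isOpen_lt continuous_const continuous_norm
      filter_upwards [hop.mem_nhds (show 1 / 100 < ‖ζ‖ by rw [hζ]; norm_num)] with η hη
      have hη' : 1 / 100 < ‖η‖ := hη
      obtain ⟨m1, m2, m3⟩ := Fm_norm hg (ζ := η) (by linarith [show rr ≤ 1 / 1000 from rr_lt])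
      have hw : w1 g η ∈ ball (1 : ℂ) (1 / 4) := by
        rw [mem_ball, dist_eq_norm, norm_w1_sub, div_lt_iff₀ (by linarith)]
        nlinarith
      have k1 := (hF12c s 4 C p hs (by norm_num) le_rfl hp _ hw).tsum_eq
      have k2 : Pf p (w1 g η) = ∑' n : ℕ, p (n + 1) * Fm g η ^ (n + 1) := by
        rw [Pf]
        refine tsum_congr fun n => ?_
        rw [RR_div_w1]
      rw [Hf, k2]
      rw [← w1_sub, k1]
      ring
    rw [hev.deriv_eq]
    simp
  have hst : ∀ ζ : ℂ, ‖ζ‖ = 1 → fderiv ℝ (fun ζ => U (w1 g ζ)) ζ ζ = σ * U (w1 g ζ) := by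
    intro ζ hζ
    have hζ3 : 3 * rr < ‖ζ‖ := by rw [hζ]; linarith
    have hwd : DifferentiableAt ℂ (w1 g) ζ := (w1_analytic hg hζ3).differentiableAt
    have hwne := w1_deriv hg hζ3
    have hK := hG52 ζ hζ
    have e1 : fderiv ℝ (fun ζ => U (w1 g ζ)) ζ ζ = fderiv ℝ U (w1 g ζ) (deriv (w1 g) ζ * ζ) := by
      rw [fderiv_eq, fderiv_eq, dC_comp ((hsm _ hK).differentiableAt (by simp)) hwd, mul_assoc]
    have hfr : w1 g ζ ∈ frontier (K1 s g) \ SN1 s := by
      obtain ⟨g1, g2⟩ := hG7 s g hs hg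
      have hmem : w1 g ζ ∈ w1 g '' {ζ | ‖ζ‖ = 1} ∪ iot '' (w1 g '' {ζ | ‖ζ‖ = 1}) :=
        Or.inl ⟨ζ, hζ, rfl⟩
      refine ⟨?_, fun h => ?_⟩
      · rw [g1]; exact Or.inr hmem
      · exact Set.disjoint_left.1 g2 h hmem
    have e2 := hU.steklov (w1 g ζ) (by rw [hMK]; exact hfr) _
      (by rw [hMK]; exact (hG8 s g hs hg).1 ζ hζ)
    have e3 : deriv (w1 g) ζ * ζ = (‖deriv (w1 g) ζ‖ : ℝ) • (deriv (w1 g) ζ * ζ /
        (‖deriv (w1 g) ζ‖ : ℂ)) := by
      rw [Complex.real_smul]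
      have : (‖deriv (w1 g) ζ‖ : ℂ) ≠ 0 := by exact_mod_cast norm_ne_zero_iff.2 hwne
      field_simp
    rw [e1, e3, map_smul, e2, smul_eq_mul]
    have := hlam ζ hζ
    linear_combination (σ * U (w1 g ζ)) * this
  have hres := hH0 (kE s) (kO s) g p C σ (fun ζ => U (w1 g ζ)) hkE hkO hg hp ?_ ?_ hst hmain
  · refine ⟨hres.1, fun hc => ?_⟩
    have hV := hres.2 hc
    have hint0 : ∀ ζ : ℂ, 1 / 8 < ‖ζ‖ → ‖ζ‖ < 1 → dC U (w1 g ζ) = 0 := by
      intro ζ h1 h2
      have hζ3 : 3 * rr < ‖ζ‖ := by linarith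
      have hwd : DifferentiableAt ℂ (w1 g) ζ := (w1_analytic hg hζ3).differentiableAt
      have hK := hmemK ζ h1.le h2.le
      have e1 : dC (fun ζ => U (w1 g ζ)) ζ = 0 := by
        have hop : IsOpen {ζ : ℂ | 1 / 8 < ‖ζ‖ ∧ ‖ζ‖ < 1} :=
          (isOpen_lt continuous_const continuous_norm).inter
            (isOpen_lt continuous_norm continuous_const)
        have hev : (fun ζ => U (w1 g ζ)) =ᶠ[𝓝 ζ] fun _ => (0 : ℝ) := by
          filter_upwards [hop.mem_nhds ⟨h1, h2⟩] with η hη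
          exact hV η hη.1.le hη.2.le
        rw [dC_congr hev, dC]
        simp
      rw [dC_comp ((hsm _ hK).differentiableAt (by simp)) hwd] at e1
      rcases mul_eq_zero.1 e1 with h | h
      · exact h
      · exact absurd h (w1_deriv hg hζ3)
    obtain ⟨-, hpre, hclo, -⟩ := hG6 s g hs hg
    have hz0 : ‖(1 / 2 : ℂ)‖ = 1 / 2 := by norm_num
    have hz0K : w1 g (1 / 2) ∈ interior (K1 s g) := hG51 _ (by rw [hz0]; linarith) (by rw [hz0]; norm_num)
    have hzero : Set.EqOn (dC U) 0 (interior (K1 s g)) := by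
      have han : AnalyticOnNhd ℂ (dC U) (interior (K1 s g)) := fun w hw =>
        HarmonicAt.analyticAt_complex_partial (hharm w hw)
      refine han.eqOn_zero_of_preconnected_of_frequently_eq_zero hpre hz0K ?_
      have h1 : Filter.Tendsto (w1 g) (𝓝[≠] (1 / 2 : ℂ)) (𝓝[≠] (w1 g (1 / 2))) := by
        refine tendsto_nhdsWithin_iff.2 ⟨?_, ?_⟩
        · exact ((w1_analytic hg (ζ := 1 / 2) (by rw [hz0]; linarith)).continuousAt.tendsto).mono_left
            nhdsWithin_le_nhds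
        · have hop : IsOpen {ζ : ℂ | 3 * rr < ‖ζ‖} := isOpen_ext
          have hev : ∀ᶠ ζ in 𝓝[≠] (1 / 2 : ℂ), 3 * rr < ‖ζ‖ :=
            mem_nhdsWithin_of_mem_nhds (hop.mem_nhds (show 3 * rr < ‖(1 / 2 : ℂ)‖ by
              rw [hz0]; linarith))
          filter_upwards [hev, self_mem_nhdsWithin] with ζ hζ hne
          intro h
          exact hne (w1_inj hg hζ (by rw [hz0]; linarith) h)
      have h2 : ∃ᶠ ζ in 𝓝[≠] (1 / 2 : ℂ), dC U (w1 g ζ) = 0 := by
        refine Filter.Eventually.frequently ?_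
        have hop : IsOpen {ζ : ℂ | 1 / 8 < ‖ζ‖ ∧ ‖ζ‖ < 1} :=
          (isOpen_lt continuous_const continuous_norm).inter
            (isOpen_lt continuous_norm continuous_const)
        have hev : ∀ᶠ ζ in 𝓝[≠] (1 / 2 : ℂ), 1 / 8 < ‖ζ‖ ∧ ‖ζ‖ < 1 :=
          mem_nhdsWithin_of_mem_nhds (hop.mem_nhds ⟨by rw [hz0]; norm_num, by rw [hz0]; norm_num⟩)
        filter_upwards [hev] with ζ hζ
        exact hint0 ζ hζ.1 hζ.2
      exact h1.frequently h2
    have hfd : ∀ w ∈ interior (K1 s g), fderiv ℝ U w = 0 := by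
      intro w hw
      ext v
      rw [fderiv_eq, hzero hw]
      simp
    have hdiff : DifferentiableOn ℝ U (interior (K1 s g)) := fun w hw =>
      ((hsm w (interior_subset hw)).differentiableAt (by simp)).differentiableWithinAt
    obtain ⟨a, ha⟩ := isOpen_interior.exists_is_const_of_fderiv_eq_zero hpre hdiff hfd
    have ha0 : a = 0 := by
      rw [← ha _ hz0K]
      exact hV _ (by rw [hz0]; norm_num) (by rw [hz0]; norm_num)
    intro z hz
    have hcont : ContinuousOn U (K1 s g) := fun w hw => (hsm w hw).continuousAt.continuousWithinAt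
    have hcl : closure (interior (K1 s g)) ⊆ K1 s g := by rw [hclo]
    have hEq : Set.EqOn U (fun _ => (0 : ℝ)) (closure (interior (K1 s g))) := by
      refine Set.EqOn.of_subset_closure (s := interior (K1 s g)) ?_ (hcont.mono hcl)
        continuousOn_const subset_closure subset_rfl
      intro w hw
      rw [ha w hw, ha0]
    rw [hclo] at hEq
    exact hEq hz
  · intro ζ h1 h2
    have hζ3 : 3 * rr < ‖ζ‖ := by linarith
    exact ContDiffAt.comp (g := U) ζ (hsm _ (hmemK ζ h1 h2))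
      ((w1_analytic hg hζ3).contDiffAt.restrict_scalars ℝ)
  · rintro ζ ⟨h1, h2⟩
    exact harmonicAt_comp (hharm _ (hG51 ζ (by linarith) h2)) (w1_analytic hg (by linarith))

end Pool.Agent.Stek
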