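import Pool.Agent.Stek.TFun
import Pool.Agent.Stek.TSeq

/-!
# H4: solutions give eigenfunctions of the first surface
-/

open scoped BigOperators ComplexConjugate Topology ContDiff
open Complex Metric InnerProductSpace

noncomputable section

namespace Pool.Agent.Stek

namespace H4aux

theorem fc_congr' {V W : ℂ → ℝ} (h : ∀ ζ : ℂ, ‖ζ‖ = 1 → V ζ = W ζ) (k : ℤ) :
    fc V k = fc W k := by
  unfold fc ci
  congr 1
  refine circleIntegral.integral_congr zero_le_one fun z hz => ?_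
  simp only [mem_sphere_zero_iff_norm] at hz
  simp only [h z hz]

theorem coefs_congr' {V W : ℂ → ℝ} (h : ∀ ζ : ℂ, ‖ζ‖ = 1 → V ζ = W ζ) (σ : ℝ) :
    coefs V σ = coefs W σ := by
  unfold coefs
  simp only [fc_congr' h]

/-- the chain rule along a holomorphic map -/
theorem chain (U : ℂ → ℝ) (F : ℂ → ℂ) (ζ D : ℂ) (hU : DifferentiableAt ℝ U (F ζ))
    (hF : HasDerivAt F D ζ) (v : ℂ) :
    fderiv ℝ (fun ζ => U (F ζ)) ζ v = fderiv ℝ U (F ζ) (v * D) := by
  have hFr : HasFDerivAt F ((ContinuousLinearMap.toSpanSingleton ℂ D).restrictScalars ℝ) ζ :=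
    hF.hasFDerivAt.restrictScalars ℝ
  have hcomp := hU.hasFDerivAt.comp ζ hFr
  have h1 : fderiv ℝ (fun ζ => U (F ζ)) ζ = _ := hcomp.fderiv
  rw [h1]
  simp [ContinuousLinearMap.comp_apply]

/-- the differential of the antipodal map -/
theorem hasFDerivAt_iot (w : ℂ) (hw : w ≠ 0) :
    ∃ L : ℂ →L[ℝ] ℂ, HasFDerivAt iot L w ∧ ∀ v, L v = conj v / conj w ^ 2 := by
  have hcw : conj w ≠ 0 := (map_ne_zero _).2 hw
  have h1 : HasDerivAt (fun z : ℂ => -1 / z) (1 / conj w ^ 2) (conj w) := by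
    have := (hasDerivAt_inv hcw).const_mul (-1 : ℂ)
    refine (this.congr_deriv ?_).congr_of_eventuallyEq ?_
    · field_simp
    · filter_upwards with z
      ring
  have h2 : HasFDerivAt (fun z : ℂ => -1 / z)
      ((ContinuousLinearMap.toSpanSingleton ℂ (1 / conj w ^ 2)).restrictScalars ℝ) (conj w) :=
    h1.hasFDerivAt.restrictScalars ℝ
  have h3 : HasFDerivAt (fun z : ℂ => conj z) (conjCLE : ℂ →L[ℝ] ℂ) w :=
    conjCLE.hasFDerivAt
  refine ⟨_, h2.comp w h3, ?_⟩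
  intro v
  simp
  ring

end H4aux

open H4aux

theorem h4 (hS7 : S7) (hF1 : F1) (hF11 : F11) (hF12a : F12a) (hF12b : F12b) (hF12c : F12c)
    (hG1 : G1) (hG5 : G5) (hG7 : G7) (hG8 : G8) : H4 := by
  intro s g M σ hs hg hK hiota hlam x hx
  obtain ⟨kap1, kap2, -, -⟩ := hS7 s s hs hs
  obtain ⟨p, C, c0, hp, -, hcoefs, hst⟩ := hF11 (kE s) (kO s) g σ x kap1 kap2 hg hx
  obtain ⟨a1, a2, a3, a4⟩ := hF12a s (5 / 7) C p hs (by norm_num) (by norm_num) hp
  have b1 := hF12b s (5 / 7) C p hs (by norm_num) (by norm_num) hp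
  have c1 := hF12c s (5 / 7) C p hs (by norm_num) (by norm_num) hp
  obtain ⟨g51, g52, -, -, g55⟩ := hG5 s g hs hg
  obtain ⟨g71, g72⟩ := hG7 s g hs hg
  obtain ⟨g81, g82, g83, g84⟩ := hG8 s g hs hg
  obtain ⟨f1, f2, -, f4⟩ := hF1 g hg
  have hrr0 : 0 < rr := by unfold rr; norm_num
  have hrr1 : rr < 1 / 1000 := by unfold rr; norm_num
  have hRR0 : 0 < RR := by unfold RR; norm_num
  have hRR1 : RR < 1 / 1000 := by unfold RR; norm_num
  have heps : eps * rr < 1 / 1000 := by unfold eps rr; norm_num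
  have hs0 : 0 < s := by have := hs.1; linarith
  have hss : 0 < √s := Real.sqrt_pos.2 hs0
  set k0 : ℝ := (Pi' p 1 + Ef s p 1).re with hk0
  set U : ℂ → ℝ := fun w => Uf s p w - k0 - c0 + x.1 with hU
  -- the norm of `Fm`
  have hFn : ∀ ζ : ℂ, 1 / 2 < ‖ζ‖ → 1 / 4 < ‖Fm g ζ‖ := by
    intro ζ hζ
    have h := f2 ζ (by linarith)
    have h2 := norm_sub_norm_le ζ (ζ - Fm g ζ)
    rw [sub_sub_cancel, norm_sub_rev ζ] at h2
    linarith
  -- the value of `U` on the curve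
  have hval : ∀ ζ : ℂ, 1 / 2 < ‖ζ‖ →
      U (w1 g ζ) = (Hf (kE s) (kO s) g p ζ).re - c0 + x.1 := by
    intro ζ hζ
    have hn := hFn ζ hζ
    have hne : Fm g ζ ≠ 0 := by
      intro h; rw [h, norm_zero] at hn; linarith
    have hRne : (RR : ℂ) ≠ 0 := by exact_mod_cast hRR0.ne'
    have hw : w1 g ζ - 1 = RR / Fm g ζ := by unfold w1; ring
    have hball : w1 g ζ ∈ ball (1 : ℂ) (1 / 4) := by
      rw [mem_ball, dist_eq_norm, hw, norm_div, norm_real, Real.norm_eq_abs, abs_of_pos hRR0,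
        div_lt_iff₀ (by linarith)]
      linarith
    have h3 := c1 (w1 g ζ) hball
    have h4 : RR / (w1 g ζ - 1) = Fm g ζ := by
      rw [hw]; field_simp
    have h5 : Hf (kE s) (kO s) g p ζ = Pf p (w1 g ζ) +
        (Pi' p (w1 g ζ) + Ef s p (w1 g ζ) - (Pi' p 1 + Ef s p 1)) := by
      rw [← h3.tsum_eq]
      simp only [hw]
      unfold Hf Pf
      simp only [h4]
    rw [h5, hU]
    simp only [Uf, add_re, sub_re, hk0]
    ring
  -- regularity
  have hopen1 : IsOpen {w : ℂ | 5 / 7 * RR < ‖w - 1‖} :=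
    isOpen_lt continuous_const (by fun_prop)
  have hiotc : ∀ w : ℂ, w ≠ 0 → ContinuousAt iot w := by
    intro w hw
    obtain ⟨L, hL, -⟩ := hasFDerivAt_iot w hw
    exact hL.continuousAt
  have hnhds2 : ∀ w : ℂ, w ≠ 0 → 5 / 7 * RR < ‖iot w - 1‖ →
      {w : ℂ | w ≠ 0 ∧ 5 / 7 * RR < ‖iot w - 1‖} ∈ 𝓝 w := by
    intro w hw h
    have h1 : ContinuousAt (fun w => ‖iot w - 1‖) w := ((hiotc w hw).sub continuousAt_const).norm
    filter_upwards [isOpen_ne.mem_nhds hw, h1.eventually (lt_mem_nhds h)] with z hz1 hz2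
    exact ⟨hz1, hz2⟩
  have hopen3 : IsOpen {w : ℂ | 9 / 10 * √s < ‖w‖ ∧ ‖w‖ < 10 / 9 / √s} :=
    (isOpen_lt continuous_const continuous_norm).inter (isOpen_lt continuous_norm continuous_const)
  have hPd : ∀ w : ℂ, 5 / 7 * RR < ‖w - 1‖ → AnalyticAt ℂ (Pf p) w := fun w hw =>
    a1.analyticAt (hopen1.mem_nhds hw)
  have hIan : ∀ w : ℂ, w ≠ 0 → 5 / 7 * RR < ‖iot w - 1‖ → AnalyticAt ℂ (Pi' p) w := by
    intro w hw h
    exact a2.analyticAt (hnhds2 w hw h)
  have hEan : ∀ w : ℂ, 9 / 10 * √s < ‖w‖ → ‖w‖ < 10 / 9 / √s → AnalyticAt ℂ (Ef s p) w :=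
    fun w h1 h2 => a3.analyticAt (hopen3.mem_nhds ⟨h1, h2⟩)
  have han : ∀ w ∈ K1 s g, AnalyticAt ℂ (fun w => Pf p w + Pi' p w + Ef s p w) w := by
    intro w hw
    obtain ⟨e1, -, -, -, e5, e6⟩ := g55 w hw
    refine ((hPd w e5).add (hIan w e1 e6)).add (hEan w ?_ ?_)
    · have := hw.1
      linarith
    · refine hw.2.1.trans_lt ?_
      rw [div_lt_div_iff_of_pos_right hss]
      norm_num
  have hUeq : ∀ w, U w = (Pf p w + Pi' p w + Ef s p w).re - k0 - c0 + x.1 := fun w => rfl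
  have hsmooth : ∀ z ∈ K1 s g, ContDiffAt ℝ ∞ U z := by
    intro z hz
    have h2 : ContDiffAt ℝ ∞ (fun w => Pf p w + Pi' p w + Ef s p w) z :=
      ((han z hz).contDiffAt (n := ∞)).restrict_scalars ℝ
    have h3 : ContDiffAt ℝ ∞ (fun w => (Pf p w + Pi' p w + Ef s p w).re) z :=
      Complex.reCLM.contDiff.contDiffAt.comp z h2
    exact ((h3.sub contDiffAt_const).sub contDiffAt_const).add contDiffAt_const
  have hdiff : ∀ z ∈ K1 s g, DifferentiableAt ℝ U z := fun z hz =>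
    (hsmooth z hz).differentiableAt (by simp)
  -- the derivative of `w1`
  have hopenr : IsOpen {ζ : ℂ | rr < ‖ζ‖} := isOpen_lt continuous_const continuous_norm
  have hw1d : ∀ ζ : ℂ, ‖ζ‖ = 1 → HasDerivAt (w1 g) (deriv (w1 g) ζ) ζ := by
    intro ζ hζ
    have h1 : DifferentiableAt ℂ (Fm g) ζ :=
      f1.differentiableAt (hopenr.mem_nhds (show rr < ‖ζ‖ by rw [hζ]; linarith))
    have h2 : Fm g ζ ≠ 0 := by
      intro h
      have := hFn ζ (by rw [hζ]; norm_num)
      rw [h, norm_zero] at this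
      linarith
    have h3 : DifferentiableAt ℂ (w1 g) ζ := by
      unfold w1
      exact (differentiableAt_const _).add ((differentiableAt_const _).div h1 h2)
    exact h3.hasDerivAt
  -- the Steklov condition on the curve
  have hcurve : ∀ ζ : ℂ, ‖ζ‖ = 1 → ∀ n, IsOutwardNormal (K1 s g) (w1 g ζ) n →
      fderiv ℝ U (w1 g ζ) n = σ * Real.exp (M.lam (w1 g ζ)) * U (w1 g ζ) := by
    intro ζ hζ n hn
    have hn' := hG1 _ _ _ _ hn (g81 ζ hζ)
    have hev : (fun ζ => U (w1 g ζ)) =ᶠ[𝓝 ζ]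
        fun ζ => (Hf (kE s) (kO s) g p ζ).re - c0 + x.1 := by
      have hop : IsOpen {ζ : ℂ | 1 / 2 < ‖ζ‖} := isOpen_lt continuous_const continuous_norm
      filter_upwards [hop.mem_nhds (show 1 / 2 < ‖ζ‖ by rw [hζ]; norm_num)] with ξ hξ
      exact hval ξ hξ
    have hs2 := hst ζ hζ
    rw [← hev.fderiv_eq, chain U (w1 g) ζ _ (hdiff _ (g52 ζ hζ)) (hw1d ζ hζ),
      ← hval ζ (by rw [hζ]; norm_num)] at hs2
    have hl := hlam ζ hζ
    have hne : ‖deriv (w1 g) ζ‖ ≠ 0 := by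
      intro h0
      rw [h0, mul_zero] at hl
      exact zero_ne_one hl
    have hn'' : n = ((‖deriv (w1 g) ζ‖⁻¹ : ℝ)) • (ζ * deriv (w1 g) ζ) := by
      rw [hn', Complex.real_smul, Complex.ofReal_inv]
      field_simp
    rw [hn'', map_smul, hs2, smul_eq_mul]
    have he : Real.exp (M.lam (w1 g ζ)) = ‖deriv (w1 g) ζ‖⁻¹ := by
      field_simp
      linarith
    rw [he]
    ring
  have hfrK : ∀ z ∈ frontier (K1 s g), z ∈ K1 s g := by
    intro z hz
    have : IsClosed (K1 s g) := by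
      rw [← hK]; exact M.compact.isClosed
    exact this.frontier_subset hz
  refine ⟨U, ⟨?_, ?_, ?_, ?_, ?_⟩, ?_⟩
  · rw [hK]; exact hsmooth
  · intro z hz
    rw [hK] at hz
    rw [hiota, hU]
    simp only [a4 z (g55 z hz).1]
  · rw [hK]
    intro z hz
    have h1 : HarmonicAt (fun w => (Pf p w + Pi' p w + Ef s p w).re) z :=
      (han z (interior_subset hz)).harmonicAt_re
    have h2 : HarmonicAt (fun _ : ℂ => x.1 - c0 - k0) z := harmonicAt_const _
    have h3 := h1.add h2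
    have h4 : ((fun w => (Pf p w + Pi' p w + Ef s p w).re) + fun _ : ℂ => x.1 - c0 - k0) = U := by
      funext z
      simp only [Pi.add_apply, hUeq]
      ring
    rw [h4] at h3
    exact h3
  · intro z hz n hn
    rw [hK] at hz hn
    have hzf : z ∈ frontier (K1 s g) := hz.1
    rw [g71] at hz
    rcases hz.1 with h | h | h
    · exact absurd h hz.2
    · obtain ⟨ζ, hζ, rfl⟩ := h
      exact hcurve ζ hζ n hn
    · obtain ⟨w, ⟨ζ, hζ, rfl⟩, rfl⟩ := h
      set w := w1 g ζ with hw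
      have hwK : w ∈ K1 s g := g52 ζ hζ
      have hw0 : w ≠ 0 := (g55 w hwK).1
      have hwf : w ∈ frontier (K1 s g) := by
        rw [g71]; right; left; exact ⟨ζ, hζ, rfl⟩
      obtain ⟨L, hL1, hL2⟩ := hasFDerivAt_iot w hw0
      have hn0 := g81 ζ hζ
      set n0 := deriv (w1 g) ζ * ζ / ‖deriv (w1 g) ζ‖ with hn0def
      have hn1 := g84 w n0 hwf hn0
      have hnn := hG1 _ _ _ _ hn hn1
      have hiK : iot w ∈ K1 s g := (g55 w hwK).2.1
      have hUd : HasFDerivAt U (fderiv ℝ U (iot w)) (iot w) := (hdiff _ hiK).hasFDerivAt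
      have hcomp := hUd.comp w hL1
      have hev : (U ∘ iot) =ᶠ[𝓝 w] U := by
        filter_upwards [isOpen_ne.mem_nhds hw0] with ξ hξ
        simp only [Function.comp_apply, hU, a4 ξ hξ]
      have h5 : fderiv ℝ U w = (fderiv ℝ U (iot w)).comp L := by
        rw [← hev.fderiv_eq]
        exact hcomp.fderiv
      have hsq : (‖w‖ ^ 2 : ℂ) * conj n0 / conj w ^ 2 = (‖w‖ ^ 2 : ℝ) • (L n0) := by
        rw [hL2, Complex.real_smul]
        push_cast
        ring
      rw [hnn, hsq, map_smul, smul_eq_mul]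
      have h6 : fderiv ℝ U (iot w) (L n0) = fderiv ℝ U w n0 := by
        rw [h5]; rfl
      rw [h6, hcurve ζ hζ n0 hn0]
      have h7 := M.iota_isometry w (by rw [hK]; exact hwK) 1
      rw [hiota, hL1.fderiv, hL2] at h7
      simp only [map_one, norm_div, norm_one, norm_pow, RCLike.norm_conj, mul_one] at h7
      have hwn : ‖w‖ ≠ 0 := norm_ne_zero_iff.2 hw0
      have h8 : Real.exp (M.lam (iot w)) = ‖w‖ ^ 2 * Real.exp (M.lam w) := by
        rw [← h7]; field_simp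
      have h9 : U (iot w) = U w := by
        simp only [hU, a4 w hw0]
      rw [h8, h9]
      ring
  · intro z hz n hn
    rw [hK] at hz hn
    have hUf : fderiv ℝ U z = fderiv ℝ (Uf s p) z := by
      have : U = fun w => Uf s p w + (x.1 - c0 - k0) := by
        funext w; simp only [hU]; ring
      rw [this, fderiv_add_const]
    have hz2 : ‖z‖ = √s ∨ ‖z‖ = 1 / √s := hz.2
    have h0 := b1 z hz2
    rcases hz2 with h | h
    · have hn' := hG1 _ _ _ _ hn (g82 z h)
      have : n = (-(‖z‖⁻¹) : ℝ) • z := by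
        rw [hn', Complex.real_smul]; push_cast; ring
      rw [hUf, this, map_smul, h0, smul_zero]
    · have hn' := hG1 _ _ _ _ hn (g83 z h)
      have : n = ((‖z‖⁻¹) : ℝ) • z := by
        rw [hn', Complex.real_smul]; push_cast; ring
      rw [hUf, this, map_smul, h0, smul_zero]
  · rw [← hcoefs]
    exact coefs_congr' (fun ζ hζ => hval ζ (by rw [hζ]; norm_num)) σ

end Pool.Agent.Stek
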