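import Pool.Agent.Stek.TSeq

open scoped BigOperators ComplexConjugate Topology ContDiff
open Complex

noncomputable section

namespace Pool.Agent.Stek

namespace PS1

theorem tel (x : ℝ) (hx : 1 ≤ x) (K : ℕ) :
    ∑ b ∈ Finset.range K, 1 / (x + (b + 1)) ^ 3 ≤
      1 / 2 * (1 / (x * (x + 1)) - 1 / ((x + K) * (x + K + 1))) := by
  induction K with
  | zero => simp
  | succ K ih =>
    rw [Finset.sum_range_succ]
    have hK : (0 : ℝ) ≤ K := Nat.cast_nonneg K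
    have key : 1 / (x + ((K : ℝ) + 1)) ^ 3 ≤
        1 / 2 * (1 / ((x + K) * (x + K + 1)) - 1 / ((x + K + 1) * (x + K + 2))) := by
      have h0 : 0 < x + K := by linarith
      have h1 : 0 < x + K + 1 := by linarith
      have h2 : 0 < x + K + 2 := by linarith
      have e : 1 / 2 * (1 / ((x + K) * (x + K + 1)) - 1 / ((x + K + 1) * (x + K + 2))) =
          1 / ((x + K) * (x + K + 1) * (x + K + 2)) := by
        field_simp
        ring
      rw [e]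
      apply one_div_le_one_div_of_le (by positivity)
      nlinarith [mul_pos h1 h1]
    have e2 : ((K + 1 : ℕ) : ℝ) = (K : ℝ) + 1 := by push_cast; ring
    rw [e2]
    have e3 : x + ((K : ℝ) + 1) = x + K + 1 := by ring
    have e4 : x + ((K : ℝ) + 1) + 1 = x + K + 2 := by ring
    rw [e4, e3]
    rw [e3] at key
    linarith

theorem tel' (x : ℝ) (hx : 1 ≤ x) (K : ℕ) :
    ∑ b ∈ Finset.Ico 1 K, 1 / (x + b) ^ 3 ≤ 1 / 2 * (1 / (x * (x + 1))) := by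
  rw [Finset.sum_Ico_eq_sum_range]
  have h := tel x hx (K - 1)
  have h2 : 0 ≤ 1 / ((x + ((K - 1 : ℕ) : ℝ)) * (x + ((K - 1 : ℕ) : ℝ) + 1)) := by
    have : (0 : ℝ) ≤ ((K - 1 : ℕ) : ℝ) := Nat.cast_nonneg _
    positivity
  have e : ∑ i ∈ Finset.range (K - 1), 1 / (x + ((1 + i : ℕ) : ℝ)) ^ 3 =
      ∑ b ∈ Finset.range (K - 1), 1 / (x + (b + 1)) ^ 3 := by
    refine Finset.sum_congr rfl fun i _ => ?_
    push_cast
    rw [add_comm (1 : ℝ) (i : ℝ)]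
  rw [e]
  linarith

theorem tel2 (K : ℕ) : ∑ a ∈ Finset.range K, 1 / (((a : ℝ) + 1) * ((a : ℝ) + 1 + 1)) ≤
    1 - 1 / ((K : ℝ) + 1) := by
  induction K with
  | zero => simp
  | succ K ih =>
    rw [Finset.sum_range_succ]
    have hK : (0 : ℝ) ≤ K := Nat.cast_nonneg K
    have key : 1 / (((K : ℝ) + 1) * ((K : ℝ) + 1 + 1)) =
        1 / ((K : ℝ) + 1) - 1 / ((K : ℝ) + 1 + 1) := by
      field_simp
      ring
    push_cast
    linarith

theorem dbl (J K : ℕ) : ∑ a ∈ Finset.Ico 1 J, ∑ b ∈ Finset.Ico 1 K, 1 / ((a : ℝ) + b) ^ 3 ≤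
    1 / 2 := by
  have h1 : ∀ a ∈ Finset.Ico 1 J, ∑ b ∈ Finset.Ico 1 K, 1 / ((a : ℝ) + b) ^ 3 ≤
      1 / 2 * (1 / ((a : ℝ) * ((a : ℝ) + 1))) := by
    intro a ha
    rw [Finset.mem_Ico] at ha
    exact tel' a (by exact_mod_cast ha.1) K
  refine (Finset.sum_le_sum h1).trans ?_
  rw [← Finset.mul_sum, Finset.sum_Ico_eq_sum_range]
  have h := tel2 (J - 1)
  have h2 : 0 ≤ 1 / (((J - 1 : ℕ) : ℝ) + 1) := by positivity
  have e : ∑ i ∈ Finset.range (J - 1), 1 / (((1 + i : ℕ) : ℝ) * (((1 + i : ℕ) : ℝ) + 1)) =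
      ∑ a ∈ Finset.range (J - 1), 1 / (((a : ℝ) + 1) * ((a : ℝ) + 1 + 1)) := by
    refine Finset.sum_congr rfl fun i _ => ?_
    push_cast
    rw [add_comm (1 : ℝ) (i : ℝ)]
  rw [e]
  linarith

theorem sgl (J : ℕ) : ∑ a ∈ Finset.Ico 1 J, 1 / (a : ℝ) ^ 3 ≤ 5 / 4 := by
  rcases Nat.lt_or_ge 1 J with h | h
  · rw [Finset.sum_eq_sum_Ico_succ_bot h]
    have h1 := tel' 1 le_rfl (J - 1)
    rw [Finset.sum_Ico_eq_sum_range] at h1 ⊢
    have e : ∑ k ∈ Finset.range (J - (1 + 1)), 1 / (((1 + 1 + k : ℕ) : ℝ)) ^ 3 =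
        ∑ i ∈ Finset.range (J - 1 - 1), 1 / (1 + (((1 + i : ℕ)) : ℝ)) ^ 3 := by
      rw [Nat.sub_sub]
      refine Finset.sum_congr rfl fun i _ => ?_
      push_cast
      have e2 : (2 : ℝ) + (i : ℝ) = 1 + (1 + (i : ℝ)) := by ring
      rw [e2]
    rw [e]
    norm_num at h1 ⊢
    linarith
  · rw [Finset.Ico_eq_empty_of_le h]
    norm_num

theorem basic {x y N : ℝ} (hx : 0 < x) (hy : 0 < y) (h : x + y = N) :
    1 / (x ^ 3 * y ^ 3) ≤ 8 / N ^ 3 * (1 / x ^ 3 + 1 / y ^ 3) := by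
  have hN : 0 < N := by linarith
  rcases le_total y x with hxy | hxy
  · have h1 : 1 / x ^ 3 ≤ 8 / N ^ 3 := by
      rw [div_le_div_iff₀ (by positivity) (by positivity)]
      have : N ≤ 2 * x := by linarith
      calc 1 * N ^ 3 = N ^ 3 := one_mul _
        _ ≤ (2 * x) ^ 3 := by gcongr
        _ = 8 * x ^ 3 := by ring
    calc 1 / (x ^ 3 * y ^ 3) = 1 / x ^ 3 * (1 / y ^ 3) := by rw [one_div_mul_one_div]
      _ ≤ 8 / N ^ 3 * (1 / y ^ 3) := by gcongr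
      _ ≤ 8 / N ^ 3 * (1 / x ^ 3 + 1 / y ^ 3) := by
        apply mul_le_mul_of_nonneg_left _ (by positivity)
        have : 0 ≤ 1 / x ^ 3 := by positivity
        linarith
  · have h1 : 1 / y ^ 3 ≤ 8 / N ^ 3 := by
      rw [div_le_div_iff₀ (by positivity) (by positivity)]
      have : N ≤ 2 * y := by linarith
      calc 1 * N ^ 3 = N ^ 3 := one_mul _
        _ ≤ (2 * y) ^ 3 := by gcongr
        _ = 8 * y ^ 3 := by ring
    calc 1 / (x ^ 3 * y ^ 3) = 1 / y ^ 3 * (1 / x ^ 3) := by rw [one_div_mul_one_div, mul_comm]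
      _ ≤ 8 / N ^ 3 * (1 / x ^ 3) := by gcongr
      _ ≤ 8 / N ^ 3 * (1 / x ^ 3 + 1 / y ^ 3) := by
        apply mul_le_mul_of_nonneg_left _ (by positivity)
        have : 0 ≤ 1 / y ^ 3 := by positivity
        linarith

end PS1

theorem s1 : S1 := by
  intro j k hj hk
  have hterm : ∀ a ∈ Finset.Ico 1 j, ∀ b ∈ Finset.Ico 1 k,
      1 / (((j + k - a - b : ℕ) : ℝ) ^ 3 * ((a : ℝ) + b) ^ 3) ≤
        8 / ((j : ℝ) + k) ^ 3 * (1 / (((j - a : ℕ) : ℝ) + ((k - b : ℕ) : ℝ)) ^ 3 +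
          1 / ((a : ℝ) + b) ^ 3) := by
    intro a ha b hb
    rw [Finset.mem_Ico] at ha hb
    have e : ((j + k - a - b : ℕ) : ℝ) = ((j - a : ℕ) : ℝ) + ((k - b : ℕ) : ℝ) := by
      rw [← Nat.cast_add]
      congr 1
      omega
    rw [e]
    apply PS1.basic
    · have : (0 : ℝ) < ((j - a : ℕ) : ℝ) := by
        have : 0 < j - a := by omega
        exact_mod_cast this
      positivity
    · have : (0 : ℝ) < a := by exact_mod_cast ha.1
      positivity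
    · rw [Nat.cast_sub ha.2.le, Nat.cast_sub hb.2.le]
      ring
  refine (Finset.sum_le_sum fun a ha => Finset.sum_le_sum (hterm a ha)).trans ?_
  simp only [← Finset.mul_sum, Finset.sum_add_distrib]
  have h1 := PS1.dbl j k
  have h2 : ∑ a ∈ Finset.Ico 1 j, ∑ b ∈ Finset.Ico 1 k,
      1 / (((j - a : ℕ) : ℝ) + ((k - b : ℕ) : ℝ)) ^ 3 =
      ∑ a ∈ Finset.Ico 1 j, ∑ b ∈ Finset.Ico 1 k, 1 / ((a : ℝ) + b) ^ 3 := by
    have r1 := Finset.sum_Ico_reflect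
      (fun a => ∑ b ∈ Finset.Ico 1 k, 1 / ((a : ℝ) + ((k - b : ℕ) : ℝ)) ^ 3) 1
      (show j ≤ j + 1 by omega)
    simp only [Nat.add_sub_cancel_left, Nat.add_sub_cancel] at r1
    rw [r1]
    refine Finset.sum_congr rfl fun a _ => ?_
    have r2 := Finset.sum_Ico_reflect
      (fun b => 1 / ((a : ℝ) + (b : ℝ)) ^ 3) 1 (show k ≤ k + 1 by omega)
    simp only [Nat.add_sub_cancel_left, Nat.add_sub_cancel] at r2
    exact r2
  rw [h2]
  have h3 : 0 ≤ 8 / ((j : ℝ) + k) ^ 3 := by positivity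
  nlinarith

theorem s2t : S2t := by
  intro j hj
  have hterm : ∀ i ∈ Finset.Ico 1 j, 1 / ((i : ℝ) ^ 3 * ((j : ℝ) - i) ^ 3) ≤
      8 / (j : ℝ) ^ 3 * (1 / (i : ℝ) ^ 3 + 1 / ((j - i : ℕ) : ℝ) ^ 3) := by
    intro i hi
    rw [Finset.mem_Ico] at hi
    rw [← Nat.cast_sub hi.2.le]
    apply PS1.basic
    · exact_mod_cast hi.1
    · have : 0 < j - i := by omega
      exact_mod_cast this
    · rw [Nat.cast_sub hi.2.le]
      ring
  refine (Finset.sum_le_sum hterm).trans ?_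
  simp only [← Finset.mul_sum, Finset.sum_add_distrib]
  have h1 := PS1.sgl j
  have r1 := Finset.sum_Ico_reflect (fun i => 1 / (i : ℝ) ^ 3) 1 (show j ≤ j + 1 by omega)
  simp only [Nat.add_sub_cancel_left, Nat.add_sub_cancel] at r1
  rw [r1]
  have h3 : 0 ≤ 1 / (j : ℝ) ^ 3 := by positivity
  have e1 : 8 / (j : ℝ) ^ 3 = 8 * (1 / (j : ℝ) ^ 3) := by ring
  have e2 : 20 / (j : ℝ) ^ 3 = 20 * (1 / (j : ℝ) ^ 3) := by ring
  rw [e1, e2]
  nlinarith

end Pool.Agent.Stek
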