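import Pool.Agent.Stek.TSeq

open scoped BigOperators ComplexConjugate Topology ContDiff
open Complex

noncomputable section

namespace Pool.Agent.Stek

namespace PS3

theorem conv (h1 : S1) {P Q : ℝ} {G : ℕ → ℂ} {A : ℕ → ℕ → ℂ} {j k : ℕ} (hj : 1 ≤ j) (hk : 1 ≤ k)
    (hP : 0 ≤ P) (hQ : 0 ≤ Q) (hG : ∀ n, 2 ≤ n → ‖G n‖ ≤ P / (n : ℝ) ^ 3)
    (hA0 : ∀ a, A a 0 = 0)
    (hA : ∀ a b, 1 ≤ a → a < j → 1 ≤ b → ‖A a b‖ ≤ Q / ((a : ℝ) + b) ^ 3) :
    ‖(1 / (j : ℂ)) * ∑ a ∈ Finset.range j, ∑ b ∈ Finset.range k,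
      (a : ℂ) * G (j + k - a - b) * A a b‖ ≤ 8 * P * Q / ((j : ℝ) + k) ^ 3 := by
  have hjpos : (0 : ℝ) < j := by exact_mod_cast hj
  have hterm : ∀ a ∈ Finset.range j, ∀ b ∈ Finset.range k,
      ‖(a : ℂ) * G (j + k - a - b) * A a b‖ ≤
        if 1 ≤ a ∧ 1 ≤ b then (j : ℝ) * (P * Q) *
          (1 / (((j + k - a - b : ℕ) : ℝ) ^ 3 * ((a : ℝ) + b) ^ 3)) else 0 := by
    intro a ha b hb
    rw [Finset.mem_range] at ha hb
    split_ifs with h
    · rw [norm_mul, norm_mul, Complex.norm_natCast]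
      have e1 := hG (j + k - a - b) (by omega)
      have e2 := hA a b h.1 ha h.2
      have e3 : (a : ℝ) ≤ j := by exact_mod_cast ha.le
      have n1 : (0 : ℝ) < ((j + k - a - b : ℕ) : ℝ) ^ 3 := by
        have : 0 < j + k - a - b := by omega
        positivity
      have n2 : (0 : ℝ) < ((a : ℝ) + b) ^ 3 := by
        have : (0 : ℝ) < a := by exact_mod_cast h.1
        positivity
      calc (a : ℝ) * ‖G (j + k - a - b)‖ * ‖A a b‖
          ≤ j * (P / ((j + k - a - b : ℕ) : ℝ) ^ 3) * (Q / ((a : ℝ) + b) ^ 3) := by gcongr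
        _ = _ := by field_simp
    · have : a = 0 ∨ b = 0 := by omega
      rcases this with h | h
      · simp [h]
      · simp [h, hA0]
  have hsum : ‖∑ a ∈ Finset.range j, ∑ b ∈ Finset.range k,
      (a : ℂ) * G (j + k - a - b) * A a b‖ ≤ (j : ℝ) * (P * Q) * (8 / ((j : ℝ) + k) ^ 3) := by
    refine (norm_sum_le _ _).trans ?_
    refine (Finset.sum_le_sum fun a ha => (norm_sum_le _ _).trans
      (Finset.sum_le_sum fun b hb => hterm a ha b hb)).trans ?_
    have : ∑ a ∈ Finset.range j, ∑ b ∈ Finset.range k,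
        (if 1 ≤ a ∧ 1 ≤ b then (j : ℝ) * (P * Q) *
          (1 / (((j + k - a - b : ℕ) : ℝ) ^ 3 * ((a : ℝ) + b) ^ 3)) else 0) =
        (j : ℝ) * (P * Q) * ∑ a ∈ Finset.Ico 1 j, ∑ b ∈ Finset.Ico 1 k,
          1 / (((j + k - a - b : ℕ) : ℝ) ^ 3 * ((a : ℝ) + b) ^ 3) := by
      have hr : ∀ n : ℕ, Finset.Ico 1 n = (Finset.range n).filter (fun a => 1 ≤ a) := by
        intro n; ext a; simp; omega
      rw [hr, hr, Finset.sum_filter, Finset.mul_sum]
      refine Finset.sum_congr rfl fun a _ => ?_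
      by_cases ha : 1 ≤ a
      · simp only [ha, true_and, if_true]
        rw [Finset.sum_filter, Finset.mul_sum]
        refine Finset.sum_congr rfl fun b _ => ?_
        split_ifs <;> simp
      · simp [ha]
    rw [this]
    exact mul_le_mul_of_nonneg_left (h1 j k hj hk) (by positivity)
  rw [norm_mul, norm_div, norm_one, Complex.norm_natCast]
  calc 1 / (j : ℝ) * _ ≤ 1 / (j : ℝ) * ((j : ℝ) * (P * Q) * (8 / ((j : ℝ) + k) ^ 3)) := by gcongr
    _ = 8 * P * Q / ((j : ℝ) + k) ^ 3 := by field_simp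

theorem M_nonneg {M : ℝ} {g : ℕ → ℂ} (h : Gb M g) : 0 ≤ M := by
  have := (norm_nonneg _).trans (h 2 le_rfl)
  rw [le_div_iff₀ (by norm_num)] at this
  linarith

theorem bound (h1 : S1) {M : ℝ} {g : ℕ → ℂ} (hM : M ≤ 1 / 100) (hg : Gb M g) :
    Kb (11 / 10 * M) (gam g) := by
  have hM0 := M_nonneg hg
  intro j
  induction j using Nat.strong_induction_on with
  | _ j ih =>
    intro k hj hk
    rw [gam_rec g hj hk]
    have e1 := hg (j + k) (by omega)
    have e2 := conv h1 (P := M) (Q := 11 / 10 * M) (G := g) (A := gam g) hj hk hM0 (by positivity)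
      hg (fun a => gam_zero_right g a) (fun a b ha haj hb => ih a haj b ha hb)
    have hN : (0 : ℝ) < ((j : ℝ) + k) ^ 3 := by
      have : (0 : ℝ) < j := by exact_mod_cast hj
      positivity
    refine (norm_add_le _ _).trans ?_
    rw [norm_neg]
    push_cast at e1
    refine (add_le_add e1 e2).trans ?_
    rw [← add_div]
    gcongr
    nlinarith

end PS3

theorem s3 (h1 : S1) : S3 := by
  intro M D g g' hM hg hg'
  refine ⟨PS3.bound h1 hM hg, fun hD => ?_⟩
  have hM0 := PS3.M_nonneg hg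
  have hD0 : 0 ≤ D := by
    have := (norm_nonneg _).trans (hD 2 le_rfl)
    rw [le_div_iff₀ (by norm_num)] at this
    linarith
  have b1 := PS3.bound h1 hM hg
  intro j
  induction j using Nat.strong_induction_on with
  | _ j ih =>
    intro k hj hk
    have e0 := hD (j + k) (by omega)
    have e1 := PS3.conv h1 (P := D) (Q := 11 / 10 * M) (G := fun n => g n - g' n) (A := gam g) hj hk
      hD0 (by positivity) hD (fun a => gam_zero_right g a) (fun a b ha _ hb => b1 a b ha hb)
    have e2 := PS3.conv h1 (P := M) (Q := 2 * D) (G := g') (A := fun a b => gam g a b - gam g' a b)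
      hj hk hM0 (by positivity) hg' (fun a => by simp [gam_zero_right])
      (fun a b ha haj hb => ih a haj b ha hb)
    have hN : (0 : ℝ) < ((j : ℝ) + k) ^ 3 := by
      have : (0 : ℝ) < j := by exact_mod_cast hj
      positivity
    have key : gam g j k - gam g' j k = -(g (j + k) - g' (j + k)) +
        (1 / (j : ℂ)) * ∑ a ∈ Finset.range j, ∑ b ∈ Finset.range k,
          (a : ℂ) * (g (j + k - a - b) - g' (j + k - a - b)) * gam g a b +
        (1 / (j : ℂ)) * ∑ a ∈ Finset.range j, ∑ b ∈ Finset.range k,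
          (a : ℂ) * g' (j + k - a - b) * (gam g a b - gam g' a b) := by
      rw [gam_rec g hj hk, gam_rec g' hj hk]
      have : ∑ a ∈ Finset.range j, ∑ b ∈ Finset.range k, (a : ℂ) * g (j + k - a - b) * gam g a b =
          ∑ a ∈ Finset.range j, ∑ b ∈ Finset.range k,
          (a : ℂ) * (g (j + k - a - b) - g' (j + k - a - b)) * gam g a b +
          ∑ a ∈ Finset.range j, ∑ b ∈ Finset.range k,
          (a : ℂ) * g' (j + k - a - b) * (gam g a b - gam g' a b) +
          ∑ a ∈ Finset.range j, ∑ b ∈ Finset.range k,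
          (a : ℂ) * g' (j + k - a - b) * gam g' a b := by
        rw [← Finset.sum_add_distrib, ← Finset.sum_add_distrib]
        refine Finset.sum_congr rfl fun a _ => ?_
        rw [← Finset.sum_add_distrib, ← Finset.sum_add_distrib]
        refine Finset.sum_congr rfl fun b _ => ?_
        ring
      rw [this]
      ring
    show ‖gam g j k - gam g' j k‖ ≤ _
    rw [key]
    refine (norm_add_le _ _).trans ?_
    have e3 : ‖-(g (j + k) - g' (j + k))‖ ≤ D / ((j : ℝ) + k) ^ 3 := by
      rw [norm_neg]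
      push_cast at e0
      exact e0
    refine (add_le_add ((norm_add_le _ _).trans (add_le_add e3 e1)) e2).trans ?_
    rw [← add_div, ← add_div]
    gcongr
    nlinarith

theorem s4 : S4 := by
  intro g k hk
  constructor
  · rw [gam_rec g le_rfl hk]
    simp [add_comm]
  · rw [gam_rec g hk le_rfl]
    simp [gam_zero_right]

end Pool.Agent.Stek
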