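import Pool.Agent.Stek.TSeq
import Pool.Agent.Stek.PS3

open scoped BigOperators ComplexConjugate Topology ContDiff
open Complex

noncomputable section

namespace Pool.Agent.Stek

namespace PS5

def E (g : ℕ → ℂ) (a b : ℕ) : ℂ := if b = 0 then 0 else gam g a b + g (a + b)

def T (g : ℕ → ℂ) (k : ℕ) : ℂ :=
  (1 / (k : ℂ)) * ∑ a ∈ Finset.range k, ∑ b ∈ Finset.range k,
    (a : ℂ) * g (k + k - a - b) * E g a b

theorem card_fib (k n : ℕ) :
    (((Finset.Ico 1 k) ×ˢ (Finset.Ico 1 k)).filter (fun x : ℕ × ℕ => x.1 + x.2 = n)).card =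
      min n (2 * k - n) - 1 := by
  have : ((Finset.Ico 1 k) ×ˢ (Finset.Ico 1 k)).filter (fun x : ℕ × ℕ => x.1 + x.2 = n) =
      (Finset.Ico (max 1 (n + 1 - k)) (min k n)).image (fun a => (a, n - a)) := by
    ext ⟨a, b⟩
    simp only [Finset.mem_filter, Finset.mem_product, Finset.mem_Ico, Finset.mem_image,
      Prod.mk.injEq]
    constructor
    · rintro ⟨⟨⟨h1, h2⟩, h3, h4⟩, h5⟩
      refine ⟨a, ⟨?_, ?_⟩, rfl, ?_⟩ <;> omega
    · rintro ⟨a', ⟨h1, h2⟩, rfl, h3⟩
      refine ⟨⟨⟨?_, ?_⟩, ?_, ?_⟩, ?_⟩ <;> omega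
  rw [this, Finset.card_image_of_injective _ (fun a b h => (Prod.mk.inj h).1), Nat.card_Ico]
  omega

theorem sum_h (h : ℕ → ℂ) (k : ℕ) :
    ∑ a ∈ Finset.Ico 1 k, ∑ b ∈ Finset.Ico 1 k, h (a + b) =
      ∑ n ∈ Finset.Ico 2 (2 * k - 1), ((min n (2 * k - n) - 1 : ℕ) : ℂ) * h n := by
  rw [← Finset.sum_product']
  rw [← Finset.sum_fiberwise_of_maps_to (s := (Finset.Ico 1 k) ×ˢ (Finset.Ico 1 k))
    (t := Finset.Ico 2 (2 * k - 1)) (g := fun x : ℕ × ℕ => x.1 + x.2)]
  · refine Finset.sum_congr rfl fun n _ => ?_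
    rw [← card_fib k n, ← nsmul_eq_mul, ← Finset.sum_const]
    refine Finset.sum_congr rfl fun x hx => ?_
    rw [(Finset.mem_filter.1 hx).2]
  · rintro ⟨a, b⟩ hx
    simp only [Finset.mem_product, Finset.mem_Ico] at hx ⊢
    omega

theorem sum_ah (h : ℕ → ℂ) (k : ℕ) (hs : ∀ n, n ≤ 2 * k → h (2 * k - n) = h n) :
    2 * ∑ a ∈ Finset.Ico 1 k, ∑ b ∈ Finset.Ico 1 k, (a : ℂ) * h (a + b) =
      (k : ℂ) * ∑ a ∈ Finset.Ico 1 k, ∑ b ∈ Finset.Ico 1 k, h (a + b) := by
  have hre : ∀ f : ℕ → ℂ, ∑ a ∈ Finset.Ico 1 k, f a = ∑ a ∈ Finset.Ico 1 k, f (k - a) := by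
    intro f
    refine Finset.sum_bij' (fun a _ => k - a) (fun a _ => k - a) ?_ ?_ ?_ ?_ ?_ <;>
      intro a ha <;> simp only [Finset.mem_Ico] at ha ⊢
    · omega
    · omega
    · omega
    · omega
    · congr 1
      omega
  have e1 : ∑ a ∈ Finset.Ico 1 k, ∑ b ∈ Finset.Ico 1 k, (a : ℂ) * h (a + b) =
      ∑ a ∈ Finset.Ico 1 k, ∑ b ∈ Finset.Ico 1 k, ((k : ℂ) - a) * h (a + b) := by
    rw [hre]
    refine Finset.sum_congr rfl fun a ha => ?_
    rw [hre]
    refine Finset.sum_congr rfl fun b hb => ?_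
    rw [Finset.mem_Ico] at ha hb
    rw [Nat.cast_sub ha.2.le]
    have : k - a + (k - b) = 2 * k - (a + b) := by omega
    rw [this, hs _ (by omega)]
  rw [two_mul]
  nth_rewrite 2 [e1]
  rw [← Finset.sum_add_distrib, Finset.mul_sum]
  refine Finset.sum_congr rfl fun a _ => ?_
  rw [← Finset.sum_add_distrib, Finset.mul_sum]
  refine Finset.sum_congr rfl fun b _ => ?_
  ring

theorem range_to_Ico (f : ℕ → ℕ → ℂ) (k : ℕ) (h0 : ∀ b, f 0 b = 0) (h1 : ∀ a, f a 0 = 0) :
    ∑ a ∈ Finset.range k, ∑ b ∈ Finset.range k, f a b =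
      ∑ a ∈ Finset.Ico 1 k, ∑ b ∈ Finset.Ico 1 k, f a b := by
  have hr : ∀ g : ℕ → ℂ, g 0 = 0 → ∑ a ∈ Finset.range k, g a = ∑ a ∈ Finset.Ico 1 k, g a := by
    intro g hg
    rcases Nat.eq_zero_or_pos k with rfl | hk
    · simp
    · rw [Finset.range_eq_Ico, Finset.sum_eq_sum_Ico_succ_bot hk, hg, zero_add]
  rw [hr _ (by simp [h0])]
  exact Finset.sum_congr rfl fun a _ => hr _ (h1 a)

theorem main_id (g : ℕ → ℂ) (k : ℕ) (hk : 2 ≤ k) :
    gam g k k + g (2 * k) + 1 / 2 * S2 g k = T g k := by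
  have hk0 : (k : ℂ) ≠ 0 := by
    have : k ≠ 0 := by omega
    exact_mod_cast this
  have hS : ∑ a ∈ Finset.Ico 1 k, ∑ b ∈ Finset.Ico 1 k, (fun n => g n * g (2 * k - n)) (a + b) =
      S2 g k := by
    rw [sum_h (fun n => g n * g (2 * k - n)) k]
    unfold S2
    refine Finset.sum_congr rfl fun n _ => ?_
    ring
  have hah := sum_ah (fun n => g n * g (2 * k - n)) k (fun n hn => by
    show g (2 * k - n) * g (2 * k - (2 * k - n)) = g n * g (2 * k - n)
    rw [show 2 * k - (2 * k - n) = n by omega]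
    ring)
  rw [hS] at hah
  have hT : T g k = (1 / (k : ℂ)) * (∑ a ∈ Finset.range k, ∑ b ∈ Finset.range k,
      (a : ℂ) * g (k + k - a - b) * gam g a b) + (1 / (k : ℂ)) *
      ∑ a ∈ Finset.Ico 1 k, ∑ b ∈ Finset.Ico 1 k,
        (a : ℂ) * (fun n => g n * g (2 * k - n)) (a + b) := by
    unfold T
    rw [range_to_Ico _ k (by simp) (by simp [E]), range_to_Ico _ k (by simp)
      (by simp [gam_zero_right]), ← mul_add, ← Finset.sum_add_distrib]
    congr 1
    refine Finset.sum_congr rfl fun a ha => ?_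
    rw [← Finset.sum_add_distrib]
    refine Finset.sum_congr rfl fun b hb => ?_
    rw [Finset.mem_Ico] at ha hb
    have : b ≠ 0 := by omega
    simp only [E, this, if_false]
    rw [show 2 * k - (a + b) = k + k - a - b by omega]
    ring
  rw [hT, gam_rec g (by omega) (by omega), ← two_mul]
  have : (1 / (k : ℂ)) * ∑ a ∈ Finset.Ico 1 k, ∑ b ∈ Finset.Ico 1 k,
        (a : ℂ) * (fun n => g n * g (2 * k - n)) (a + b) = 1 / 2 * S2 g k := by
    rw [div_mul_eq_mul_div, one_mul, div_eq_iff hk0]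
    linear_combination (1 / 2 : ℂ) * hah
  rw [this]
  ring

theorem E_rec (g : ℕ → ℂ) {a b : ℕ} (ha : 1 ≤ a) (hb : 1 ≤ b) :
    E g a b = (1 / (a : ℂ)) * ∑ i ∈ Finset.range a, ∑ j ∈ Finset.range b,
      (i : ℂ) * g (a + b - i - j) * gam g i j := by
  have : b ≠ 0 := by omega
  simp only [E, this, if_false]
  rw [gam_rec g ha hb]
  ring

theorem E_bound (h1 : S1) {M : ℝ} {g : ℕ → ℂ} (hM : M ≤ 1 / 100) (hg : Gb M g) {a b : ℕ}
    (ha : 1 ≤ a) (hb : 1 ≤ b) : ‖E g a b‖ ≤ (88 / 10 * M ^ 2) / ((a : ℝ) + b) ^ 3 := by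
  have hM0 := PS3.M_nonneg hg
  rw [E_rec g ha hb]
  have := PS3.conv h1 (P := M) (Q := 11 / 10 * M) (G := g) (A := gam g) ha hb hM0 (by positivity)
    hg (fun a => gam_zero_right g a) (fun i j hi _ hj => PS3.bound h1 hM hg i j hi hj)
  refine this.trans (le_of_eq ?_)
  ring

end PS5

open PS5

theorem s5 (h1 : S1) (h3 : S3) : S5 := by
  intro M D g g' k hM hg hg' hk
  have hM0 := PS3.M_nonneg hg
  have hN : (0 : ℝ) < ((k : ℝ) + k) ^ 3 := by
    have : (0 : ℝ) < k := by exact_mod_cast (by omega : 0 < k)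
    positivity
  rw [main_id g k hk, main_id g' k hk]
  constructor
  · have := PS3.conv h1 (P := M) (Q := 88 / 10 * M ^ 2) (G := g) (A := E g) (j := k) (k := k)
      (by omega) (by omega) hM0 (by positivity) hg (fun a => by simp [E])
      (fun i j hi _ hj => E_bound h1 hM hg hi hj)
    refine this.trans ?_
    rw [two_mul]
    refine div_le_div_of_nonneg_right ?_ hN.le
    nlinarith [pow_nonneg hM0 3]
  · intro hD
    have hD0 : 0 ≤ D := by
      have := (norm_nonneg _).trans (hD 2 le_rfl)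
      rw [le_div_iff₀ (by norm_num)] at this
      linarith
    have hE : ∀ i j : ℕ, 1 ≤ i → 1 ≤ j → ‖E g i j - E g' i j‖ ≤
        (248 / 10 * (M * D)) / ((i : ℝ) + j) ^ 3 := by
      intro i j hi hj
      have e1 := PS3.conv h1 (P := D) (Q := 11 / 10 * M) (G := fun n => g n - g' n) (A := gam g)
        hi hj hD0 (by positivity) hD (fun a => gam_zero_right g a)
        (fun a b ha _ hb => (h3 M D g g' hM hg hg').1 a b ha hb)
      have e2 := PS3.conv h1 (P := M) (Q := 2 * D) (G := g')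
        (A := fun a b => gam g a b - gam g' a b) hi hj hM0 (by positivity) hg'
        (fun a => by simp [gam_zero_right])
        (fun a b ha _ hb => (h3 M D g g' hM hg hg').2 hD a b ha hb)
      have : E g i j - E g' i j = (1 / (i : ℂ)) * ∑ a ∈ Finset.range i, ∑ b ∈ Finset.range j,
          (a : ℂ) * (g (i + j - a - b) - g' (i + j - a - b)) * gam g a b +
          (1 / (i : ℂ)) * ∑ a ∈ Finset.range i, ∑ b ∈ Finset.range j,
          (a : ℂ) * g' (i + j - a - b) * (gam g a b - gam g' a b) := by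
        rw [E_rec g hi hj, E_rec g' hi hj, ← mul_sub, ← mul_add, ← Finset.sum_sub_distrib,
          ← Finset.sum_add_distrib]
        congr 1
        refine Finset.sum_congr rfl fun a _ => ?_
        rw [← Finset.sum_sub_distrib, ← Finset.sum_add_distrib]
        refine Finset.sum_congr rfl fun b _ => ?_
        ring
      rw [this]
      refine (norm_add_le _ _).trans ((add_le_add e1 e2).trans (le_of_eq ?_))
      ring
    have e1 := PS3.conv h1 (P := D) (Q := 88 / 10 * M ^ 2) (G := fun n => g n - g' n) (A := E g)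
      (j := k) (k := k) (by omega) (by omega) hD0 (by positivity) hD (fun a => by simp [E])
      (fun i j hi _ hj => E_bound h1 hM hg hi hj)
    have e2 := PS3.conv h1 (P := M) (Q := 248 / 10 * (M * D)) (G := g')
      (A := fun a b => E g a b - E g' a b) (j := k) (k := k) (by omega) (by omega) hM0
      (by positivity) hg' (fun a => by simp [E]) (fun i j hi _ hj => hE i j hi hj)
    have : T g k - T g' k = (1 / (k : ℂ)) * ∑ a ∈ Finset.range k, ∑ b ∈ Finset.range k,
          (a : ℂ) * (g (k + k - a - b) - g' (k + k - a - b)) * E g a b +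
          (1 / (k : ℂ)) * ∑ a ∈ Finset.range k, ∑ b ∈ Finset.range k,
          (a : ℂ) * g' (k + k - a - b) * (E g a b - E g' a b) := by
      unfold T
      rw [← mul_sub, ← mul_add, ← Finset.sum_sub_distrib, ← Finset.sum_add_distrib]
      congr 1
      refine Finset.sum_congr rfl fun a _ => ?_
      rw [← Finset.sum_sub_distrib, ← Finset.sum_add_distrib]
      refine Finset.sum_congr rfl fun b _ => ?_
      ring
    rw [this, two_mul]
    refine (norm_add_le _ _).trans ((add_le_add e1 e2).trans ?_)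
    rw [← add_div]
    gcongr
    have : 0 ≤ M ^ 2 * D := by positivity
    nlinarith

end Pool.Agent.Stek
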