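import Pool.Agent.Stek.PS1

open scoped BigOperators ComplexConjugate Topology ContDiff
open Complex

noncomputable section

namespace Pool.Agent.Stek

namespace PS6

theorem conv {u v : ℕ → ℂ} {P Q : ℝ} (hP : 0 ≤ P) (hQ : 0 ≤ Q) (u0 : u 0 = 0) (v0 : v 0 = 0)
    {j : ℕ} (hj : 1 ≤ j)
    (hu : ∀ a, 1 ≤ a → a < j → ‖u a‖ ≤ P / (a : ℝ) ^ 3)
    (hv : ∀ a, 1 ≤ a → ‖v a‖ ≤ Q / (a : ℝ) ^ 3) :
    ‖∑ x ∈ Finset.HasAntidiagonal.antidiagonal j, u x.1 * v x.2‖ ≤ 20 * P * Q / (j : ℝ) ^ 3 := by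
  have e : ∑ x ∈ Finset.HasAntidiagonal.antidiagonal j, u x.1 * v x.2 = ∑ a ∈ Finset.Ico 1 j, u a * v (j - a) := by
    rw [Finset.Nat.sum_antidiagonal_eq_sum_range_succ (fun a b => u a * v b) j]
    rw [Finset.sum_range_succ, Nat.sub_self, v0, mul_zero, add_zero]
    rw [Finset.range_eq_Ico, Finset.sum_eq_sum_Ico_succ_bot (by omega), u0, zero_mul, zero_add]
  rw [e]
  refine (norm_sum_le _ _).trans ?_
  have h1 : ∀ a ∈ Finset.Ico 1 j, ‖u a * v (j - a)‖ ≤
      P * Q * (1 / ((a : ℝ) ^ 3 * ((j : ℝ) - a) ^ 3)) := by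
    intro a ha
    rw [Finset.mem_Ico] at ha
    rw [norm_mul]
    have e1 := hu a ha.1 ha.2
    have e2 := hv (j - a) (by omega)
    rw [Nat.cast_sub ha.2.le] at e2
    have p1 : (0 : ℝ) < a := by exact_mod_cast ha.1
    have p2 : (0 : ℝ) < (j : ℝ) - a := by
      have : (a : ℝ) < j := by exact_mod_cast ha.2
      linarith
    calc ‖u a‖ * ‖v (j - a)‖ ≤ P / (a : ℝ) ^ 3 * (Q / ((j : ℝ) - a) ^ 3) := by gcongr
      _ = _ := by field_simp
  refine (Finset.sum_le_sum h1).trans ?_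
  rw [← Finset.mul_sum]
  have h2 := s2t j hj
  calc P * Q * ∑ i ∈ Finset.Ico 1 j, 1 / ((i : ℝ) ^ 3 * ((j : ℝ) - i) ^ 3)
      ≤ P * Q * (20 / (j : ℝ) ^ 3) := by gcongr
    _ = _ := by ring

/-- The series `∑ g n X ^ n` over `n ≥ 2`. -/
def hh (g : ℕ → ℂ) : PowerSeries ℂ := PowerSeries.mk (fun n => if n < 2 then 0 else g n)

theorem hh_zero (g : ℕ → ℂ) : PowerSeries.coeff 0 (hh g) = 0 := by
  simp [hh]

theorem hh_bound {M : ℝ} {g : ℕ → ℂ} (hg : Gb M g) (hM : 0 ≤ M) (a : ℕ) (ha : 1 ≤ a) :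
    ‖PowerSeries.coeff a (hh g)‖ ≤ M / (a : ℝ) ^ 3 := by
  rw [hh, PowerSeries.coeff_mk]
  split_ifs with h
  · rw [norm_zero]
    positivity
  · exact hg a (by omega)

theorem cc (g : ℕ → ℂ) : PowerSeries.constantCoeff (1 + hh g) = 1 := by
  have := hh_zero g
  rw [PowerSeries.coeff_zero_eq_constantCoeff_apply] at this
  rw [map_add, this]
  simp

theorem phi_mul (g : ℕ → ℂ) : phi g * (1 + hh g) = PowerSeries.X := by
  have h : (1 + hh g)⁻¹ * (1 + hh g) = 1 := by
    apply PowerSeries.inv_mul_cancel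
    rw [cc]
    exact one_ne_zero
  change PowerSeries.X * (1 + hh g)⁻¹ * (1 + hh g) = _
  rw [mul_assoc, h, mul_one]

theorem ee_eq (g : ℕ → ℂ) (n j : ℕ) :
    ee g n j = if n ≤ j then PowerSeries.coeff (j - n) ((1 + hh g)⁻¹ ^ n) else 0 := by
  change PowerSeries.coeff j ((PowerSeries.X * (1 + hh g)⁻¹) ^ n) = _
  rw [mul_pow, PowerSeries.coeff_X_pow_mul']

theorem ee_lt (g : ℕ → ℂ) {n j : ℕ} (h : j < n) : ee g n j = 0 := by
  rw [ee_eq, if_neg (by omega)]

theorem ee_self (g : ℕ → ℂ) (n : ℕ) : ee g n n = 1 := by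
  rw [ee_eq, if_pos le_rfl, Nat.sub_self, PowerSeries.coeff_zero_eq_constantCoeff_apply, map_pow,
    PowerSeries.constantCoeff_inv, cc]
  simp

theorem ee_one (g : ℕ → ℂ) (j : ℕ) : ee g 1 j = PowerSeries.coeff j (phi g) := by
  rw [ee, pow_one]

theorem ee_add (g : ℕ → ℂ) (n j : ℕ) :
    ee g (n + 1) j = ∑ x ∈ Finset.HasAntidiagonal.antidiagonal j, ee g n x.1 * ee g 1 x.2 := by
  simp only [ee, pow_succ, pow_zero, one_mul, PowerSeries.coeff_mul]

theorem p_bound {M : ℝ} {g : ℕ → ℂ} (hg : Gb M g) (hM : 0 ≤ M) (hM1 : M ≤ 1 / 100) (j : ℕ)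
    (hj : 1 ≤ j) : ‖PowerSeries.coeff j (phi g)‖ ≤ 1 / (j : ℝ) ^ 3 := by
  induction j using Nat.strong_induction_on with
  | _ j ih =>
    rcases Nat.lt_or_ge 1 j with h | h
    · have e := congrArg (PowerSeries.coeff j) (phi_mul g)
      rw [mul_add, mul_one, map_add, PowerSeries.coeff_X, if_neg (by omega),
        PowerSeries.coeff_mul] at e
      have e2 : PowerSeries.coeff j (phi g) = -∑ x ∈ Finset.HasAntidiagonal.antidiagonal j,
          PowerSeries.coeff x.1 (phi g) * PowerSeries.coeff x.2 (hh g) := by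
        linear_combination e
      rw [e2, norm_neg]
      have p0 : PowerSeries.coeff 0 (phi g) = 0 := by
        rw [← ee_one]; exact ee_lt g one_pos
      have := conv (u := fun a => PowerSeries.coeff a (phi g))
        (v := fun a => PowerSeries.coeff a (hh g)) zero_le_one hM p0 (hh_zero g) hj
        (fun a h1 h2 => ih a h2 h1) (fun a h1 => hh_bound hg hM a h1)
      refine this.trans ?_
      gcongr
      linarith
    · have : j = 1 := by omega
      subst this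
      rw [← ee_one, ee_self]
      simp

theorem ee_bound {M : ℝ} {g : ℕ → ℂ} (hg : Gb M g) (hM : 0 ≤ M) (hM1 : M ≤ 1 / 100) (n : ℕ) :
    ∀ j : ℕ, 1 ≤ j → ‖ee g (n + 1) j‖ ≤ 20 ^ n / (j : ℝ) ^ 3 := by
  induction n with
  | zero =>
    intro j hj
    rw [zero_add, ee_one, pow_zero]
    exact p_bound hg hM hM1 j hj
  | succ n ih =>
    intro j hj
    rw [ee_add]
    have := conv (u := ee g (n + 1)) (v := ee g 1) (P := 20 ^ n) (Q := 1) (by positivity)
      zero_le_one (ee_lt g (by omega)) (ee_lt g one_pos) hj (fun a h1 _ => ih a h1)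
      (fun a h1 => by rw [ee_one]; exact p_bound hg hM hM1 a h1)
    refine this.trans (le_of_eq ?_)
    rw [pow_succ]
    ring

theorem d_bound {M D : ℝ} {g g' : ℕ → ℂ} (hg : Gb M g) (hg' : Gb M g') (hM : 0 ≤ M)
    (hM1 : M ≤ 1 / 100) (hD : 0 ≤ D) (hd : ∀ n : ℕ, 2 ≤ n → ‖g n - g' n‖ ≤ D / (n : ℝ) ^ 3)
    (j : ℕ) (hj : 1 ≤ j) :
    ‖PowerSeries.coeff j (phi g) - PowerSeries.coeff j (phi g')‖ ≤ 40 * D / (j : ℝ) ^ 3 := by
  induction j using Nat.strong_induction_on with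
  | _ j ih =>
    have e1 : phi g - phi g' = -((phi g - phi g') * hh g) - phi g' * (hh g - hh g') := by
      have a1 := phi_mul g
      have a2 := phi_mul g'
      linear_combination a1 - a2
    have e := congrArg (PowerSeries.coeff j) e1
    rw [map_sub, map_sub, map_neg, PowerSeries.coeff_mul, PowerSeries.coeff_mul] at e
    rw [e]
    have p0 : ∀ g : ℕ → ℂ, PowerSeries.coeff 0 (phi g) = 0 := fun g => by
      rw [← ee_one]; exact ee_lt g one_pos
    have c1 := conv (u := fun a => PowerSeries.coeff a (phi g - phi g'))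
      (v := fun a => PowerSeries.coeff a (hh g)) (P := 40 * D) (Q := M) (by positivity) hM
      (by rw [map_sub, p0, p0, sub_zero]) (hh_zero g) hj
      (fun a h1 h2 => by rw [map_sub]; exact ih a h2 h1) (fun a h1 => hh_bound hg hM a h1)
    have c2 := conv (u := fun a => PowerSeries.coeff a (phi g'))
      (v := fun a => PowerSeries.coeff a (hh g - hh g')) (P := 1) (Q := D) zero_le_one hD
      (p0 g') (by rw [map_sub, hh_zero, hh_zero, sub_zero]) hj
      (fun a h1 _ => p_bound hg' hM hM1 a h1)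
      (fun a h1 => by
        simp only [hh, map_sub, PowerSeries.coeff_mk]
        split_ifs with h
        · rw [sub_zero, norm_zero]
          positivity
        · exact hd a (by omega))
    refine (norm_sub_le _ _).trans ?_
    rw [norm_neg]
    refine (add_le_add c1 c2).trans ?_
    rw [← add_div]
    gcongr
    nlinarith

theorem dd_bound {M D : ℝ} {g g' : ℕ → ℂ} (hg : Gb M g) (hg' : Gb M g') (hM : 0 ≤ M)
    (hM1 : M ≤ 1 / 100) (hD : 0 ≤ D) (hd : ∀ n : ℕ, 2 ≤ n → ‖g n - g' n‖ ≤ D / (n : ℝ) ^ 3)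
    (n : ℕ) : ∀ j : ℕ, 1 ≤ j →
    ‖ee g (n + 1) j - ee g' (n + 1) j‖ ≤ 40 * D * (n + 1) * 20 ^ n / (j : ℝ) ^ 3 := by
  induction n with
  | zero =>
    intro j hj
    rw [zero_add, ee_one, ee_one]
    refine (d_bound hg hg' hM hM1 hD hd j hj).trans (le_of_eq ?_)
    simp
  | succ n ih =>
    intro j hj
    have e : ee g (n + 1 + 1) j - ee g' (n + 1 + 1) j =
        ∑ x ∈ Finset.HasAntidiagonal.antidiagonal j, ee g (n + 1) x.1 * (ee g 1 x.2 - ee g' 1 x.2) +
        ∑ x ∈ Finset.HasAntidiagonal.antidiagonal j, (ee g (n + 1) x.1 - ee g' (n + 1) x.1) * ee g' 1 x.2 := by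
      rw [ee_add, ee_add, ← Finset.sum_sub_distrib, ← Finset.sum_add_distrib]
      refine Finset.sum_congr rfl fun x _ => ?_
      ring
    rw [e]
    have c1 := conv (u := ee g (n + 1)) (v := fun a => ee g 1 a - ee g' 1 a) (P := 20 ^ n)
      (Q := 40 * D) (by positivity) (by positivity) (ee_lt g (by omega))
      (by simp [ee_lt _ one_pos]) hj (fun a h1 _ => ee_bound hg hM hM1 n a h1)
      (fun a h1 => by rw [ee_one, ee_one]; exact d_bound hg hg' hM hM1 hD hd a h1)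
    have c2 := conv (u := fun a => ee g (n + 1) a - ee g' (n + 1) a) (v := ee g' 1)
      (P := 40 * D * (n + 1) * 20 ^ n) (Q := 1) (by positivity) zero_le_one
      (by simp [ee_lt _ (Nat.succ_pos n)]) (ee_lt _ one_pos) hj (fun a h1 _ => ih a h1)
      (fun a h1 => by rw [ee_one]; exact p_bound hg' hM hM1 a h1)
    refine (norm_add_le _ _).trans ((add_le_add c1 c2).trans (le_of_eq ?_))
    rw [← add_div]
    congr 1
    push_cast
    ring

end PS6

theorem s6 : S6 := by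
  intro M D g g' hM1 hg hg'
  have hM : 0 ≤ M := by
    have h := hg 2 le_rfl
    have h2 : 0 ≤ M / ((2 : ℕ) : ℝ) ^ 3 := (norm_nonneg _).trans h
    norm_num at h2
    linarith
  refine ⟨fun n j h => PS6.ee_lt g h, PS6.ee_self g, fun n j hn hj => ?_, fun hd n j hn hj => ?_⟩
  · obtain ⟨m, rfl⟩ := Nat.exists_eq_add_of_le' hn
    exact PS6.ee_bound hg hM hM1 m j hj
  · have hD : 0 ≤ D := by
      have h := hd 2 le_rfl
      have h2 : 0 ≤ D / ((2 : ℕ) : ℝ) ^ 3 := (norm_nonneg _).trans h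
      norm_num at h2
      linarith
    obtain ⟨m, rfl⟩ := Nat.exists_eq_add_of_le' hn
    refine (PS6.dd_bound hg hg' hM hM1 hD hd m j hj).trans (le_of_eq ?_)
    push_cast
    ring

end Pool.Agent.Stek
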