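import Pool.Agent.Stek.TSeq

open scoped BigOperators ComplexConjugate Topology ContDiff
open Complex

noncomputable section

namespace Pool.Agent.Stek

namespace PS7

theorem pow_le6 {s : ℝ} (hs : s ∈ Set.Icc (1 / 20 : ℝ) (1 / 6)) (l : ℕ) :
    |(-s) ^ (l + 1)| ≤ (1 / 6) ^ (l + 1) := by
  rw [abs_pow, abs_neg]
  have : |s| ≤ 1 / 6 := by rw [abs_of_nonneg (by linarith [hs.1])]; exact hs.2
  exact pow_le_pow_left₀ (abs_nonneg _) this _

theorem den {s : ℝ} (hs : s ∈ Set.Icc (1 / 20 : ℝ) (1 / 6)) (l : ℕ) :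
    5 / 6 ≤ 1 - (-s) ^ (l + 1) := by
  have h1 := pow_le6 hs l
  have h2 : ((1 : ℝ) / 6) ^ (l + 1) ≤ 1 / 6 := by
    rw [pow_succ]
    have : ((1 : ℝ) / 6) ^ l ≤ 1 := pow_le_one₀ (by norm_num) (by norm_num)
    linarith
  have := (abs_le.1 (h1.trans h2)).2
  linarith

theorem lam_le {s : ℝ} (hs : s ∈ Set.Icc (1 / 20 : ℝ) (1 / 6)) (l : ℕ) :
    |Lam s (l + 1)| ≤ 1 / 5 * (1 / 6) ^ l := by
  have hd := den hs l
  have hp := pow_le6 hs l
  unfold Lam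
  rw [abs_div, abs_of_pos (by linarith : (0 : ℝ) < 1 - (-s) ^ (l + 1)), div_le_iff₀ (by linarith)]
  have h0 : 0 ≤ ((1 : ℝ) / 6) ^ l := by positivity
  have h1 : ((1 : ℝ) / 6) ^ (l + 1) = (1 / 6) ^ l * (1 / 6) := pow_succ _ _
  rw [h1] at hp
  calc |(-s) ^ (l + 1)| ≤ (1 / 6) ^ l * (1 / 6) := hp
    _ = 1 / 5 * (1 / 6) ^ l * (5 / 6) := by ring
    _ ≤ _ := by gcongr

theorem pow_lip {a b : ℝ} (ha : |a| ≤ 1 / 6) (hb : |b| ≤ 1 / 6) (l : ℕ) :
    |a ^ (l + 1) - b ^ (l + 1)| ≤ (l + 1) * (1 / 6) ^ l * |a - b| := by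
  induction l with
  | zero => simp
  | succ l ih =>
    have e : a ^ (l + 1 + 1) - b ^ (l + 1 + 1) =
        a * (a ^ (l + 1) - b ^ (l + 1)) + (a - b) * b ^ (l + 1) := by ring
    rw [e]
    refine (abs_add_le _ _).trans ?_
    rw [abs_mul, abs_mul, abs_pow]
    have hb' : |b| ^ (l + 1) ≤ (1 / 6) ^ (l + 1) := pow_le_pow_left₀ (abs_nonneg _) hb _
    calc |a| * |a ^ (l + 1) - b ^ (l + 1)| + |a - b| * |b| ^ (l + 1)
        ≤ 1 / 6 * ((l + 1) * (1 / 6) ^ l * |a - b|) + |a - b| * (1 / 6) ^ (l + 1) := by gcongr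
      _ = _ := by push_cast; ring

theorem lam_lip {s s' : ℝ} (hs : s ∈ Set.Icc (1 / 20 : ℝ) (1 / 6))
    (hs' : s' ∈ Set.Icc (1 / 20 : ℝ) (1 / 6)) (l : ℕ) :
    |Lam s (l + 1) - Lam s' (l + 1)| ≤ 36 / 25 * ((l + 1) * (1 / 6) ^ l) * |s - s'| := by
  have hd := den hs l
  have hd' := den hs' l
  have e : Lam s (l + 1) - Lam s' (l + 1) =
      ((-s) ^ (l + 1) - (-s') ^ (l + 1)) / ((1 - (-s) ^ (l + 1)) * (1 - (-s') ^ (l + 1))) := by
    unfold Lam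
    rw [div_sub_div _ _ (by linarith) (by linarith)]
    congr 1
    ring
  have hp := pow_lip (a := -s) (b := -s') (by rw [abs_neg, abs_of_nonneg (by linarith [hs.1])]; exact hs.2)
    (by rw [abs_neg, abs_of_nonneg (by linarith [hs'.1])]; exact hs'.2) l
  have hn : |-s - -s'| = |s - s'| := by rw [← abs_neg]; congr 1; ring
  rw [hn] at hp
  rw [e, abs_div, div_le_iff₀ (by positivity)]
  have h1 : 25 / 36 ≤ |(1 - (-s) ^ (l + 1)) * (1 - (-s') ^ (l + 1))| := by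
    rw [abs_of_pos (by positivity)]
    nlinarith
  have h2 : 0 ≤ (l + 1) * (1 / 6 : ℝ) ^ l * |s - s'| := by positivity
  calc _ ≤ (l + 1) * (1 / 6 : ℝ) ^ l * |s - s'| := hp
    _ = 36 / 25 * ((l + 1) * (1 / 6) ^ l) * |s - s'| * (25 / 36) := by ring
    _ ≤ _ := by gcongr

def SS (c : ℕ → ℝ) (s : ℝ) : ℝ := ∑' l : ℕ, Lam s (l + 1) * c l

theorem geo23 : HasSum (fun l : ℕ => (2 / 3 : ℝ) ^ l) 3 := by
  have := hasSum_geometric_of_lt_one (by norm_num : (0 : ℝ) ≤ 2 / 3) (by norm_num)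
  convert this using 1
  norm_num

theorem geo23' : HasSum (fun l : ℕ => ((l : ℝ) + 1) * (2 / 3 : ℝ) ^ l) 9 := by
  have h1 := hasSum_coe_mul_geometric_of_norm_lt_one (𝕜 := ℝ) (r := 2 / 3)
    (by rw [Real.norm_eq_abs, abs_of_pos (by norm_num)]; norm_num)
  have h2 := h1.add geo23
  have e1 : (2 / 3 : ℝ) / (1 - 2 / 3) ^ 2 + 3 = 9 := by norm_num
  rw [e1] at h2
  have e2 : (fun l : ℕ => ((l : ℝ) + 1) * (2 / 3 : ℝ) ^ l) =
      fun l : ℕ => (l : ℝ) * (2 / 3 : ℝ) ^ l + (2 / 3 : ℝ) ^ l := by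
    funext l; ring
  rw [e2]
  exact h2

theorem term_le {s : ℝ} (hs : s ∈ Set.Icc (1 / 20 : ℝ) (1 / 6)) {c : ℕ → ℝ} {B : ℝ}
    (hB : 0 ≤ B) (hc : ∀ l, |c l| ≤ B * 4 ^ l) (l : ℕ) :
    ‖Lam s (l + 1) * c l‖ ≤ B / 5 * (2 / 3) ^ l := by
  rw [Real.norm_eq_abs, abs_mul]
  calc |Lam s (l + 1)| * |c l| ≤ (1 / 5 * (1 / 6) ^ l) * (B * 4 ^ l) :=
        mul_le_mul (lam_le hs l) (hc l) (abs_nonneg _) (by positivity)
    _ = B / 5 * ((1 / 6) ^ l * 4 ^ l) := by ring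
    _ = B / 5 * (2 / 3) ^ l := by rw [← mul_pow]; norm_num

theorem SS_le {s : ℝ} (hs : s ∈ Set.Icc (1 / 20 : ℝ) (1 / 6)) {c : ℕ → ℝ} {B : ℝ}
    (hB : 0 ≤ B) (hc : ∀ l, |c l| ≤ B * 4 ^ l) : |SS c s| ≤ 3 / 5 * B := by
  have h := geo23.mul_left (B / 5)
  have := tsum_of_norm_bounded h (term_le hs hB hc)
  rw [Real.norm_eq_abs] at this
  unfold SS
  linarith

theorem SS_summable {s : ℝ} (hs : s ∈ Set.Icc (1 / 20 : ℝ) (1 / 6)) {c : ℕ → ℝ} {B : ℝ}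
    (hB : 0 ≤ B) (hc : ∀ l, |c l| ≤ B * 4 ^ l) :
    Summable (fun l : ℕ => Lam s (l + 1) * c l) :=
  Summable.of_norm_bounded (geo23.mul_left (B / 5)).summable (term_le hs hB hc)

theorem SS_lip {s s' : ℝ} (hs : s ∈ Set.Icc (1 / 20 : ℝ) (1 / 6))
    (hs' : s' ∈ Set.Icc (1 / 20 : ℝ) (1 / 6)) {c : ℕ → ℝ} {B : ℝ}
    (hB : 0 ≤ B) (hc : ∀ l, |c l| ≤ B * 4 ^ l) :
    |SS c s - SS c s'| ≤ 13 * B * |s - s'| := by
  have hsub : SS c s - SS c s' = ∑' l : ℕ, (Lam s (l + 1) - Lam s' (l + 1)) * c l := by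
    unfold SS
    rw [← (SS_summable hs hB hc).tsum_sub (SS_summable hs' hB hc)]
    congr 1
    funext l
    ring
  have hb : ∀ l : ℕ, ‖(Lam s (l + 1) - Lam s' (l + 1)) * c l‖ ≤
      36 / 25 * B * |s - s'| * (((l : ℝ) + 1) * (2 / 3) ^ l) := by
    intro l
    rw [Real.norm_eq_abs, abs_mul]
    calc |Lam s (l + 1) - Lam s' (l + 1)| * |c l|
        ≤ (36 / 25 * ((l + 1) * (1 / 6) ^ l) * |s - s'|) * (B * 4 ^ l) :=
          mul_le_mul (lam_lip hs hs' l) (hc l) (abs_nonneg _) (by positivity)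
      _ = 36 / 25 * B * |s - s'| * (((l : ℝ) + 1) * ((1 / 6) ^ l * 4 ^ l)) := by ring
      _ = _ := by rw [← mul_pow]; norm_num
  have h := geo23'.mul_left (36 / 25 * B * |s - s'|)
  have := tsum_of_norm_bounded h hb
  rw [Real.norm_eq_abs] at this
  rw [hsub]
  have h0 : 0 ≤ B * |s - s'| := by positivity
  nlinarith

/-! ### The combinatorial factors -/

theorem ch (a b : ℕ) : ((a.choose b : ℕ) : ℝ) ≤ 2 ^ a := by
  exact_mod_cast Nat.choose_le_two_pow a b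

theorem ch0 (a b : ℕ) : (0 : ℝ) ≤ (a.choose b : ℕ) := by positivity

def cE (n m l : ℕ) : ℝ := (-1) ^ n * ((l + 1).choose m : ℝ) * ((n + l).choose (l + 1) : ℝ) +
    (-1) ^ m * ((l + m).choose m : ℝ) * (l.choose (n - 1) : ℝ)

def cO (n m l : ℕ) : ℝ := (-1) ^ (l + 1) * (((l + 1).choose m : ℝ) * (l.choose (n - 1) : ℝ) +
    (-1) ^ (m + n) * ((l + m).choose m : ℝ) * ((n + l).choose (l + 1) : ℝ))

theorem abs_m1 (a : ℕ) : |(-1 : ℝ) ^ a| = 1 := by rw [abs_pow]; simp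

theorem cE_le {n m : ℕ} (hn : 1 ≤ n) (hm : 1 ≤ m) (l : ℕ) :
    |cE n m l| ≤ (3 / 2 * 2 ^ (n + m)) * 4 ^ l := by
  unfold cE
  refine (abs_add_le _ _).trans ?_
  rw [abs_mul, abs_mul, abs_mul, abs_mul, abs_m1, abs_m1, one_mul, one_mul,
    abs_of_nonneg (ch0 _ _), abs_of_nonneg (ch0 _ _), abs_of_nonneg (ch0 _ _),
    abs_of_nonneg (ch0 _ _)]
  have h4 : (4 : ℝ) ^ l = 2 ^ l * 2 ^ l := by rw [← mul_pow]; norm_num
  have a1 : ((l + 1).choose m : ℝ) * ((n + l).choose (l + 1) : ℝ) ≤ 2 ^ (l + 1) * 2 ^ (n + l) :=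
    mul_le_mul (ch _ _) (ch _ _) (ch0 _ _) (by positivity)
  have a2 : ((l + m).choose m : ℝ) * (l.choose (n - 1) : ℝ) ≤ 2 ^ (l + m) * 2 ^ l :=
    mul_le_mul (ch _ _) (ch _ _) (ch0 _ _) (by positivity)
  have b1 : (2 : ℝ) ^ (n + 1) ≤ 2 ^ (n + m) := pow_le_pow_right₀ (by norm_num) (by omega)
  have b2 : (2 : ℝ) ^ (m + 1) ≤ 2 ^ (n + m) := pow_le_pow_right₀ (by norm_num) (by omega)
  have e1 : (2 : ℝ) ^ (l + 1) * 2 ^ (n + l) = 2 ^ (n + 1) * 4 ^ l := by rw [h4]; ring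
  have e2 : (2 : ℝ) ^ (l + m) * 2 ^ l = 1 / 2 * 2 ^ (m + 1) * 4 ^ l := by rw [h4]; ring
  rw [e1] at a1
  rw [e2] at a2
  have h0 : (0 : ℝ) ≤ 4 ^ l := by positivity
  have c1 := mul_le_mul_of_nonneg_right b1 h0
  have c2 := mul_le_mul_of_nonneg_right b2 h0
  linarith

theorem cO_le {n m : ℕ} (hn : 1 ≤ n) (hm : 1 ≤ m) (l : ℕ) :
    |cO n m l| ≤ (3 / 2 * 2 ^ (n + m)) * 4 ^ l := by
  unfold cO
  rw [abs_mul, abs_m1, one_mul]
  refine (abs_add_le _ _).trans ?_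
  rw [abs_mul, abs_mul, abs_mul, abs_m1, one_mul,
    abs_of_nonneg (ch0 _ _), abs_of_nonneg (ch0 _ _), abs_of_nonneg (ch0 _ _),
    abs_of_nonneg (ch0 _ _)]
  have h4 : (4 : ℝ) ^ l = 2 ^ l * 2 ^ l := by rw [← mul_pow]; norm_num
  have a1 : ((l + 1).choose m : ℝ) * (l.choose (n - 1) : ℝ) ≤ 2 ^ (l + 1) * 2 ^ l :=
    mul_le_mul (ch _ _) (ch _ _) (ch0 _ _) (by positivity)
  have a2 : ((l + m).choose m : ℝ) * ((n + l).choose (l + 1) : ℝ) ≤ 2 ^ (l + m) * 2 ^ (n + l) :=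
    mul_le_mul (ch _ _) (ch _ _) (ch0 _ _) (by positivity)
  have b1 : (2 : ℝ) ^ 2 ≤ 2 ^ (n + m) := pow_le_pow_right₀ (by norm_num) (by omega)
  have e1 : (2 : ℝ) ^ (l + 1) * 2 ^ l = 1 / 2 * 2 ^ 2 * 4 ^ l := by rw [h4]; ring
  have e2 : (2 : ℝ) ^ (l + m) * 2 ^ (n + l) = 2 ^ (n + m) * 4 ^ l := by rw [h4]; ring
  rw [e1] at a1
  rw [e2] at a2
  have h0 : (0 : ℝ) ≤ 4 ^ l := by positivity
  have c1 := mul_le_mul_of_nonneg_right b1 h0
  linarith

theorem kE_eq (s : ℝ) (n m : ℕ) : kE s n m = SS (cE n m) s := rfl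

theorem kO_eq (s : ℝ) (n m : ℕ) : kO s n m = (-1) ^ n * tau n m + SS (cO n m) s := by
  unfold kO SS cO
  congr 2
  funext l
  ring

/-! ### The coefficients `tau` -/

def fs : PowerSeries ℝ := PowerSeries.mk
    (fun k => if k = 0 then (1 / 2 : ℝ) else -(-1) ^ k / 2 ^ (k + 1))

theorem fs_abs (k : ℕ) : |PowerSeries.coeff k fs| = 1 / 2 * (1 / 2) ^ k := by
  unfold fs
  rw [PowerSeries.coeff_mk]
  split_ifs with h
  · subst h; norm_num
  · rw [abs_div, abs_neg, abs_m1, abs_of_pos (by positivity), pow_succ, one_div_pow]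
    field_simp

theorem fs_sum (N : ℕ) : ∑ k ∈ Finset.range N, |PowerSeries.coeff k fs| ≤ 1 := by
  have : ∑ k ∈ Finset.range N, |PowerSeries.coeff k fs| = 1 - (1 / 2) ^ N := by
    induction N with
    | zero => simp
    | succ N ih => rw [Finset.sum_range_succ, ih, fs_abs]; ring
  rw [this]
  have : (0 : ℝ) ≤ (1 / 2) ^ N := by positivity
  linarith

theorem mul_sum (a b : PowerSeries ℝ) (ha : ∀ N, ∑ k ∈ Finset.range N, |PowerSeries.coeff k a| ≤ 1)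
    (hb : ∀ N, ∑ k ∈ Finset.range N, |PowerSeries.coeff k b| ≤ 1) (N : ℕ) :
    ∑ k ∈ Finset.range N, |PowerSeries.coeff k (a * b)| ≤ 1 := by
  have h1 : ∀ k, |PowerSeries.coeff k (a * b)| ≤
      ∑ p ∈ Finset.HasAntidiagonal.antidiagonal k, |PowerSeries.coeff p.1 a| * |PowerSeries.coeff p.2 b| := by
    intro k
    rw [PowerSeries.coeff_mul]
    refine (Finset.abs_sum_le_sum_abs _ _).trans ?_
    simp only [abs_mul, le_refl]
  calc ∑ k ∈ Finset.range N, |PowerSeries.coeff k (a * b)|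
      ≤ ∑ k ∈ Finset.range N, ∑ p ∈ Finset.HasAntidiagonal.antidiagonal k,
          |PowerSeries.coeff p.1 a| * |PowerSeries.coeff p.2 b| :=
        Finset.sum_le_sum fun k _ => h1 k
    _ ≤ ∑ p ∈ Finset.range N ×ˢ Finset.range N,
          |PowerSeries.coeff p.1 a| * |PowerSeries.coeff p.2 b| := by
        have hd : ((Finset.range N : Finset ℕ) : Set ℕ).PairwiseDisjoint
            (fun k => (Finset.HasAntidiagonal.antidiagonal k : Finset (ℕ × ℕ))) := by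
          intro i _ j _ hij
          refine Finset.disjoint_left.2 fun p hp hq => hij ?_
          simp only [Finset.HasAntidiagonal.mem_antidiagonal] at hp hq
          exact hp.symm.trans hq
        rw [← Finset.sum_biUnion hd]
        refine Finset.sum_le_sum_of_subset_of_nonneg (fun p hp => ?_)
          (fun p _ _ => mul_nonneg (abs_nonneg _) (abs_nonneg _))
        simp only [Finset.mem_biUnion, Finset.mem_range, Finset.HasAntidiagonal.mem_antidiagonal,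
          Finset.mem_product] at hp ⊢
        obtain ⟨k, hk, hp⟩ := hp
        omega
    _ = (∑ k ∈ Finset.range N, |PowerSeries.coeff k a|) *
          (∑ k ∈ Finset.range N, |PowerSeries.coeff k b|) := by
        rw [Finset.sum_product, Finset.sum_mul_sum]
    _ ≤ 1 := by
        refine mul_le_one₀ (ha N) (Finset.sum_nonneg fun _ _ => abs_nonneg _) (hb N)

theorem pow_sum (n : ℕ) (N : ℕ) : ∑ k ∈ Finset.range N, |PowerSeries.coeff k (fs ^ n)| ≤ 1 := by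
  induction n generalizing N with
  | zero =>
    rw [pow_zero]
    rcases Nat.eq_zero_or_pos N with h | h
    · subst h; simp
    · rw [Finset.sum_eq_single_of_mem 0 (Finset.mem_range.2 h)]
      · simp
      · intro k _ hk
        rw [PowerSeries.coeff_one, if_neg hk, abs_zero]
  | succ n ih => rw [pow_succ]; exact mul_sum _ _ ih fs_sum N

theorem tau_le (n m : ℕ) : |tau n m| ≤ 1 := by
  have h := pow_sum n (m + 1)
  have : |PowerSeries.coeff m (fs ^ n)| ≤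
      ∑ k ∈ Finset.range (m + 1), |PowerSeries.coeff k (fs ^ n)| :=
    Finset.single_le_sum (f := fun k => |PowerSeries.coeff k (fs ^ n)|)
      (fun _ _ => abs_nonneg _) (Finset.mem_range.2 (Nat.lt_succ_self m))
  exact this.trans h

end PS7

open PS7 in
/-- STK-S7. -/
theorem s7 : S7 := by
  intro s s' hs hs'
  refine ⟨fun n m hn hm => ?_, fun n m hn hm => ?_, fun n m hn hm => ?_, fun n m hn hm => ?_⟩
  · rw [kE_eq]
    have := SS_le hs (B := 3 / 2 * 2 ^ (n + m)) (by positivity) (cE_le hn hm)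
    have h0 : (0 : ℝ) < 2 ^ (n + m) := by positivity
    linarith
  · rw [kO_eq]
    have h1 := SS_le hs (B := 3 / 2 * 2 ^ (n + m)) (by positivity) (cO_le hn hm)
    have h2 := tau_le n m
    have h3 : (2 : ℝ) ^ 2 ≤ 2 ^ (n + m) := pow_le_pow_right₀ (by norm_num) (by omega)
    refine (abs_add_le _ _).trans ?_
    rw [abs_mul, abs_m1, one_mul]
    linarith
  · rw [kE_eq, kE_eq]
    have := SS_lip hs hs' (B := 3 / 2 * 2 ^ (n + m)) (by positivity) (cE_le hn hm)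
    have h0 : (0 : ℝ) ≤ |s - s'| * 2 ^ (n + m) := by positivity
    nlinarith
  · rw [kO_eq, kO_eq, add_sub_add_left_eq_sub]
    have := SS_lip hs hs' (B := 3 / 2 * 2 ^ (n + m)) (by positivity) (cO_le hn hm)
    have h0 : (0 : ℝ) ≤ |s - s'| * 2 ^ (n + m) := by positivity
    nlinarith

end Pool.Agent.Stek
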