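import Pool.Agent.Stek.TSeq

open scoped BigOperators ComplexConjugate Topology ContDiff
open Complex

noncomputable section

namespace Pool.Agent.Stek

namespace PS8

def q (s : ℝ) (l : ℕ) : ℝ := 2 * (l + 1) * s ^ (l + 1) / (1 - (-s) ^ (l + 1))

theorem tau11 : tau 1 1 = 1 / 4 := by
  unfold tau
  rw [pow_one, PowerSeries.coeff_mk]
  norm_num

theorem kO11 (s : ℝ) : kO s 1 1 = -(1 / 4) + ∑' l : ℕ, q s l := by
  unfold kO
  rw [tau11]
  congr 1
  · norm_num
  · congr 1
    funext l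
    unfold Lam q
    have e : (-s) ^ (l + 1) * (-1) ^ (l + 1) = s ^ (l + 1) := by
      rw [← mul_pow]; congr 1; ring
    have h1 : (1 + l).choose (l + 1) = 1 := by rw [Nat.add_comm 1 l, Nat.choose_self]
    rw [div_mul_eq_mul_div, div_mul_eq_mul_div, e, h1]
    congr 1
    simp
    ring

theorem den {s : ℝ} (h0 : 0 < s) (h1 : s < 1) (l : ℕ) : 1 - s ^ 2 ≤ 1 - (-s) ^ (l + 1) := by
  have : (-s) ^ (l + 1) ≤ s ^ 2 := by
    rcases Nat.even_or_odd (l + 1) with h | h
    · rw [h.neg_pow]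
      have h2 : 2 ≤ l + 1 := by
        rcases h with ⟨r, hr⟩; omega
      exact pow_le_pow_of_le_one h0.le h1.le h2
    · rw [h.neg_pow]
      have : 0 < s ^ (l + 1) := by positivity
      nlinarith [sq_nonneg s]
  linarith

theorem q_nonneg {s : ℝ} (h0 : 0 < s) (h1 : s < 1) (l : ℕ) : 0 ≤ q s l := by
  unfold q
  have := den h0 h1 l
  have h2 : 0 < 1 - s ^ 2 := by nlinarith
  exact div_nonneg (by positivity) (by linarith)

theorem q_le {s : ℝ} (h0 : 0 < s) (h1 : s < 1) (l : ℕ) :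
    q s l ≤ 2 * s / (1 - s ^ 2) * (((l : ℝ) + 1) * s ^ l) := by
  unfold q
  have := den h0 h1 l
  have h2 : 0 < 1 - s ^ 2 := by nlinarith
  calc 2 * (l + 1) * s ^ (l + 1) / (1 - (-s) ^ (l + 1))
      ≤ 2 * (l + 1) * s ^ (l + 1) / (1 - s ^ 2) := by gcongr
    _ = _ := by rw [pow_succ]; ring

theorem geo {s : ℝ} (h0 : 0 < s) (h1 : s < 1) :
    HasSum (fun l : ℕ => ((l : ℝ) + 1) * s ^ l) (1 / (1 - s) ^ 2) := by
  have h := hasSum_coe_mul_geometric_of_norm_lt_one (𝕜 := ℝ) (r := s)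
    (by rw [Real.norm_eq_abs, abs_of_pos h0]; exact h1)
  have h2 := h.add (hasSum_geometric_of_lt_one h0.le h1)
  have h3 : 0 < 1 - s := by linarith
  have e1 : s / (1 - s) ^ 2 + (1 - s)⁻¹ = 1 / (1 - s) ^ 2 := by field_simp; ring
  rw [e1] at h2
  have e2 : (fun l : ℕ => ((l : ℝ) + 1) * s ^ l) = fun l : ℕ => (l : ℝ) * s ^ l + s ^ l := by
    funext l; ring
  rw [e2]
  exact h2

theorem q_summable {s : ℝ} (h0 : 0 < s) (h1 : s < 1) : Summable (q s) :=
  Summable.of_nonneg_of_le (q_nonneg h0 h1) (q_le h0 h1) ((geo h0 h1).mul_left _).summable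

end PS8

open PS8 in
/-- STK-S8. -/
theorem s8 : S8 := by
  constructor
  · rw [kO11]
    have h := (q_summable (s := 1 / 20) (by norm_num) (by norm_num)).tsum_le_tsum
      (q_le (s := 1 / 20) (by norm_num) (by norm_num))
      ((geo (s := 1 / 20) (by norm_num) (by norm_num)).mul_left _).summable
    rw [((geo (s := 1 / 20) (by norm_num) (by norm_num)).mul_left _).tsum_eq] at h
    norm_num at h ⊢
    linarith
  · rw [kO11]
    have h := (q_summable (s := 1 / 6) (by norm_num) (by norm_num)).sum_le_tsum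
      (Finset.range 2) (fun l _ => q_nonneg (by norm_num) (by norm_num) l)
    rw [Finset.sum_range_succ, Finset.sum_range_one] at h
    have e0 : q (1 / 6) 0 = 2 / 7 := by unfold q; norm_num
    have e1 : q (1 / 6) 1 = 4 / 35 := by unfold q; norm_num
    rw [e0, e1] at h
    linarith

end Pool.Agent.Stek
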