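import Pool.Agent.Stek.TSeq

open scoped BigOperators ComplexConjugate Topology ContDiff
open Complex

noncomputable section

namespace Pool.Agent.Stek

namespace PS9

theorem ratio_pos : (0 : ℝ) < RR / rr := by unfold RR rr; positivity

theorem ratio_small : RR / rr ≤ 1 / 10000 := by unfold RR rr; norm_num

theorem geo {x : ℝ} (hx0 : 0 ≤ x) (hx : x ≤ 1 / 100) (N : ℕ) :
    ∑ n ∈ Finset.Icc 1 N, x ^ n ≤ 102 / 100 * x := by
  have h : ∀ N : ℕ, ∑ n ∈ Finset.Icc 1 N, x ^ n ≤ 102 / 100 * x * (1 - (1 / 100 : ℝ) ^ N) := by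
    intro N
    induction N with
    | zero => simp
    | succ N ih =>
      rw [Finset.sum_Icc_succ_top (by omega)]
      have e : x ^ (N + 1) ≤ x * (1 / 100 : ℝ) ^ N := by
        rw [pow_succ, mul_comm]
        exact mul_le_mul_of_nonneg_left (pow_le_pow_left₀ hx0 hx N) hx0
      have : (1 / 100 : ℝ) ^ (N + 1) = (1 / 100 : ℝ) ^ N * (1 / 100) := pow_succ _ _
      rw [this]
      nlinarith [pow_nonneg (by norm_num : (0 : ℝ) ≤ 1 / 100) N,
        mul_nonneg hx0 (pow_nonneg (by norm_num : (0 : ℝ) ≤ 1 / 100) N)]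
  refine (h N).trans ?_
  have : 0 ≤ (1 / 100 : ℝ) ^ N := by positivity
  nlinarith [mul_nonneg hx0 this]

theorem dsum {x c W : ℝ} {t : ℕ → ℕ → ℂ} {j k : ℕ} (hx0 : 0 ≤ x) (hx : x ≤ 1 / 100) (hc : 0 ≤ c)
    (hW : 0 < W) (ht : ∀ m n, 1 ≤ m → 1 ≤ n → ‖t m n‖ ≤ c * x ^ (m + n) / W) :
    ‖∑ m ∈ Finset.Icc 1 k, ∑ n ∈ Finset.Icc 1 j, t m n‖ ≤ c * (102 / 100 * x) ^ 2 / W := by
  refine (norm_sum_le _ _).trans ?_
  refine (Finset.sum_le_sum fun m hm => (norm_sum_le _ _).trans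
    (Finset.sum_le_sum fun n hn => ht m n (Finset.mem_Icc.1 hm).1 (Finset.mem_Icc.1 hn).1)).trans ?_
  have : ∑ m ∈ Finset.Icc 1 k, ∑ n ∈ Finset.Icc 1 j, c * x ^ (m + n) / W =
      c / W * ((∑ m ∈ Finset.Icc 1 k, x ^ m) * ∑ n ∈ Finset.Icc 1 j, x ^ n) := by
    rw [Finset.sum_mul_sum, Finset.mul_sum]
    refine Finset.sum_congr rfl fun m _ => ?_
    rw [Finset.mul_sum]
    refine Finset.sum_congr rfl fun n _ => ?_
    rw [pow_add]
    ring
  rw [this]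
  have e1 := geo hx0 hx k
  have e2 := geo hx0 hx j
  have s2 : 0 ≤ ∑ n ∈ Finset.Icc 1 j, x ^ n := Finset.sum_nonneg fun n _ => by positivity
  calc c / W * ((∑ m ∈ Finset.Icc 1 k, x ^ m) * ∑ n ∈ Finset.Icc 1 j, x ^ n)
      ≤ c / W * ((102 / 100 * x) * (102 / 100 * x)) := by gcongr
    _ = _ := by ring

/-- The common form of `KQ` and `KP`. -/
def KG (q : ℝ) (κ : ℕ → ℕ → ℝ) (u v : ℕ → ℂ) (j k : ℕ) : ℂ :=
  ∑ m ∈ Finset.Icc 1 k, ∑ n ∈ Finset.Icc 1 j,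
    (q ^ (m + n) * κ n m / n : ℝ) * u n * v m

theorem pow_aux {n : ℕ} (hn : 1 ≤ n) : (20 : ℝ) ^ (n - 1) = 20 ^ n / 20 := by
  obtain ⟨n, rfl⟩ := Nat.exists_eq_add_of_le' hn
  simp [pow_succ]

theorem coefn {q : ℝ} (hq : 0 < q) {κ : ℕ → ℕ → ℝ} {C : ℝ} {n m : ℕ} (hn : 1 ≤ n) (h : |κ n m| ≤ C) :
    ‖((q ^ (m + n) * κ n m / n : ℝ) : ℂ)‖ ≤ q ^ (m + n) * C / n := by
  rw [Complex.norm_real, Real.norm_eq_abs, abs_div, abs_mul, abs_of_pos (pow_pos hq _),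
    Nat.abs_cast]
  gcongr

theorem KG_bound {q : ℝ} (hq : 0 < q) (hq' : q ≤ 1 / 10000) {κ : ℕ → ℕ → ℝ} {u v : ℕ → ℂ} {j k : ℕ} {C : ℝ} (hj : 1 ≤ j) (hk : 1 ≤ k)
    (hC : 0 ≤ C) (hκ : ∀ n m, 1 ≤ n → 1 ≤ m → |κ n m| ≤ C * 2 ^ (n + m))
    (hu : ∀ n, 1 ≤ n → ‖u n‖ ≤ 20 ^ (n - 1) / (j : ℝ) ^ 3)
    (hv : ∀ m, 1 ≤ m → ‖v m‖ ≤ 20 ^ (m - 1) / (k : ℝ) ^ 3) :
    ‖KG q κ u v j k‖ ≤ 5 * C * q ^ 2 / ((j : ℝ) * k) ^ 3 := by
  have hjp : (0 : ℝ) < j := by exact_mod_cast hj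
  have hkp : (0 : ℝ) < k := by exact_mod_cast hk
  have hW : (0 : ℝ) < ((j : ℝ) * k) ^ 3 := by positivity
  have := dsum (x := 40 * q) (c := C / 400) (W := ((j : ℝ) * k) ^ 3) (j := j) (k := k)
    (t := fun m n => ((q ^ (m + n) * κ n m / n : ℝ) : ℂ) * u n * v m)
    (by positivity) (by linarith)
    (by positivity) hW ?_
  · refine this.trans ?_
    refine div_le_div_of_nonneg_right ?_ hW.le
    have : 0 ≤ C * q ^ 2 := by positivity
    nlinarith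
  · intro m n hm hn
    have hnp : (1 : ℝ) ≤ n := by exact_mod_cast hn
    rw [norm_mul, norm_mul]
    calc ‖((q ^ (m + n) * κ n m / n : ℝ) : ℂ)‖ * ‖u n‖ * ‖v m‖
        ≤ (q ^ (m + n) * (C * 2 ^ (n + m)) / n) * (20 ^ (n - 1) / (j : ℝ) ^ 3) *
          (20 ^ (m - 1) / (k : ℝ) ^ 3) := by
          gcongr
          · exact coefn hq hn (hκ n m hn hm)
          · exact hu n hn
          · exact hv m hm
      _ ≤ (q ^ (m + n) * (C * 2 ^ (n + m)) / 1) * (20 ^ (n - 1) / (j : ℝ) ^ 3) *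
          (20 ^ (m - 1) / (k : ℝ) ^ 3) := by gcongr
      _ = C / 400 * (40 * q) ^ (m + n) / ((j : ℝ) * k) ^ 3 := by
          rw [pow_aux hn, pow_aux hm, show (40 : ℝ) = 2 * 20 by norm_num, mul_pow, mul_pow, mul_pow,
            add_comm n m, pow_add 20 m n]
          field_simp
          norm_num

theorem KG_lip {q : ℝ} (hq : 0 < q) (hq' : q ≤ 1 / 10000) {κ : ℕ → ℕ → ℝ} {u v u' v' : ℕ → ℂ} {j k : ℕ} {D : ℝ} (hj : 1 ≤ j) (hk : 1 ≤ k)
    (hD : 0 ≤ D) (hκ : Kap κ)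
    (hv : ∀ m, 1 ≤ m → ‖v m‖ ≤ 20 ^ (m - 1) / (k : ℝ) ^ 3)
    (hu' : ∀ n, 1 ≤ n → ‖u' n‖ ≤ 20 ^ (n - 1) / (j : ℝ) ^ 3)
    (du : ∀ n, 1 ≤ n → ‖u n - u' n‖ ≤ 2 * D * n * 20 ^ n / (j : ℝ) ^ 3)
    (dv : ∀ m, 1 ≤ m → ‖v m - v' m‖ ≤ 2 * D * m * 20 ^ m / (k : ℝ) ^ 3) :
    ‖KG q κ u v j k - KG q κ u' v' j k‖ ≤ 2000 * D * q ^ 2 / ((j : ℝ) * k) ^ 3 := by
  have hjp : (0 : ℝ) < j := by exact_mod_cast hj
  have hkp : (0 : ℝ) < k := by exact_mod_cast hk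
  have hW : (0 : ℝ) < ((j : ℝ) * k) ^ 3 := by positivity
  have hsub : KG q κ u v j k - KG q κ u' v' j k = ∑ m ∈ Finset.Icc 1 k, ∑ n ∈ Finset.Icc 1 j,
      ((q ^ (m + n) * κ n m / n : ℝ) : ℂ) * ((u n - u' n) * v m + u' n * (v m - v' m)) := by
    unfold KG
    rw [← Finset.sum_sub_distrib]
    refine Finset.sum_congr rfl fun m _ => ?_
    rw [← Finset.sum_sub_distrib]
    refine Finset.sum_congr rfl fun n _ => ?_
    ring
  rw [hsub]
  have := dsum (x := 80 * q) (c := 3 / 10 * D) (W := ((j : ℝ) * k) ^ 3) (j := j) (k := k)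
    (t := fun m n => ((q ^ (m + n) * κ n m / n : ℝ) : ℂ) *
      ((u n - u' n) * v m + u' n * (v m - v' m)))
    (by positivity) (by linarith)
    (by positivity) hW ?_
  · refine this.trans ?_
    refine div_le_div_of_nonneg_right ?_ hW.le
    have : 0 ≤ D * q ^ 2 := by positivity
    nlinarith
  · intro m n hm hn
    have hnp : (1 : ℝ) ≤ n := by exact_mod_cast hn
    have hmp : (1 : ℝ) ≤ m := by exact_mod_cast hm
    have hm2 : (m : ℝ) + 1 ≤ 2 ^ m := by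
      have := Nat.lt_two_pow_self (n := m)
      exact_mod_cast this
    have hn2 : (1 : ℝ) ≤ 2 ^ n := one_le_pow₀ (by norm_num)
    rw [norm_mul]
    have hin : ‖(u n - u' n) * v m + u' n * (v m - v' m)‖ ≤
        (2 * D * n * 20 ^ n / (j : ℝ) ^ 3) * (20 ^ (m - 1) / (k : ℝ) ^ 3) +
        (20 ^ (n - 1) / (j : ℝ) ^ 3) * (2 * D * m * 20 ^ m / (k : ℝ) ^ 3) := by
      refine (norm_add_le _ _).trans ?_
      rw [norm_mul, norm_mul]
      gcongr
      · exact du n hn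
      · exact hv m hm
      · exact hu' n hn
      · exact dv m hm
    calc ‖((q ^ (m + n) * κ n m / n : ℝ) : ℂ)‖ *
          ‖(u n - u' n) * v m + u' n * (v m - v' m)‖
        ≤ (q ^ (m + n) * (3 * 2 ^ (n + m)) / n) *
          ((2 * D * n * 20 ^ n / (j : ℝ) ^ 3) * (20 ^ (m - 1) / (k : ℝ) ^ 3) +
        (20 ^ (n - 1) / (j : ℝ) ^ 3) * (2 * D * m * 20 ^ m / (k : ℝ) ^ 3)) := by
          gcongr
          exact coefn hq hn (hκ n m hn hm)
      _ = 3 / 10 * D * (40 * q) ^ (m + n) * ((n + m) / n) / ((j : ℝ) * k) ^ 3 := by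
          rw [pow_aux hn, pow_aux hm, show (40 : ℝ) = 2 * 20 by norm_num, mul_pow, mul_pow, mul_pow,
            add_comm n m, pow_add 20 m n]
          field_simp
          ring
      _ ≤ 3 / 10 * D * (40 * q) ^ (m + n) * (2 ^ (m + n)) / ((j : ℝ) * k) ^ 3 := by
          gcongr
          rw [div_le_iff₀ (by linarith), pow_add]
          have h1 : (m : ℝ) + 1 ≤ 2 ^ m * 2 ^ n := by nlinarith [pow_pos (two_pos : (0:ℝ) < 2) m]
          nlinarith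
      _ = 3 / 10 * D * (80 * q) ^ (m + n) / ((j : ℝ) * k) ^ 3 := by
          rw [show (80 : ℝ) = 2 * 40 by norm_num, mul_assoc (2 : ℝ), mul_pow 2]
          ring

end PS9

open PS9

theorem s9 (h6 : S6) : S9 := by
  intro κ κ' M D δ g g' hκ hκ' hM hg hg' hD hδ
  obtain ⟨-, ee1, eb, el⟩ := h6 M D g g' hM hg hg'
  obtain ⟨-, -, eb', -⟩ := h6 M D g' g hM hg' hg
  have hq := ratio_pos
  have hq' := ratio_small
  have KQ_eq : ∀ (κ : ℕ → ℕ → ℝ) (g : ℕ → ℂ) j k,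
      KQ κ g j k = KG (RR / rr) κ (fun n => ee g n j) (fun m => ee g m k) j k := fun κ g j k => rfl
  have KP_eq : ∀ (κ : ℕ → ℕ → ℝ) (g : ℕ → ℂ) j k,
      KP κ g j k = KG (RR / rr) κ (fun n => conj (ee g n j)) (fun m => ee g m k) j k := fun κ g j k => rfl
  have hcn : ∀ z : ℂ, ‖conj z‖ = ‖z‖ := fun z => Complex.norm_conj z
  refine ⟨?_, ?_, ?_, ?_, ?_⟩
  · intro j k hj hk
    rw [KQ_eq]
    refine (KG_bound hq hq' hj hk (by norm_num : (0 : ℝ) ≤ 3) hκ (fun n hn => eb n j hn hj)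
      (fun m hm => eb m k hm hk)).trans ?_
    gcongr
    norm_num
  · intro j k hj hk
    rw [KP_eq]
    refine (KG_bound hq hq' hj hk (by norm_num : (0 : ℝ) ≤ 3) hκ
      (fun n hn => by rw [hcn]; exact eb n j hn hj) (fun m hm => eb m k hm hk)).trans ?_
    gcongr
    norm_num
  · intro hgg
    have el' := el hgg
    constructor
    · intro j k hj hk
      show ‖KQ κ g j k - KQ κ g' j k‖ ≤ _
      rw [KQ_eq, KQ_eq]
      exact KG_lip hq hq' hj hk hD hκ (fun m hm => eb m k hm hk) (fun n hn => eb' n j hn hj)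
        (fun n hn => el' n j hn hj) (fun m hm => el' m k hm hk)
    · intro j k hj hk
      show ‖KP κ g j k - KP κ g' j k‖ ≤ _
      rw [KP_eq, KP_eq]
      exact KG_lip hq hq' hj hk hD hκ (fun m hm => eb m k hm hk)
        (fun n hn => by rw [hcn]; exact eb' n j hn hj)
        (fun n hn => by rw [← map_sub, hcn]; exact el' n j hn hj) (fun m hm => el' m k hm hk)
  · intro hk'
    have hsub : ∀ (u v : ℕ → ℂ) (j k : ℕ), KG (RR / rr) κ u v j k - KG (RR / rr) κ' u v j k =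
        KG (RR / rr) (fun n m => κ n m - κ' n m) u v j k := by
      intro u v j k
      unfold KG
      rw [← Finset.sum_sub_distrib]
      refine Finset.sum_congr rfl fun m _ => ?_
      rw [← Finset.sum_sub_distrib]
      refine Finset.sum_congr rfl fun n _ => ?_
      push_cast
      ring
    constructor
    · intro j k hj hk
      show ‖KQ κ g j k - KQ κ' g j k‖ ≤ _
      rw [KQ_eq, KQ_eq, hsub]
      refine (KG_bound hq hq' hj hk hδ hk' (fun n hn => eb n j hn hj)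
        (fun m hm => eb m k hm hk)).trans ?_
      gcongr
      norm_num
    · intro j k hj hk
      show ‖KP κ g j k - KP κ' g j k‖ ≤ _
      rw [KP_eq, KP_eq, hsub]
      refine (KG_bound hq hq' hj hk hδ hk' (fun n hn => by rw [hcn]; exact eb n j hn hj)
        (fun m hm => eb m k hm hk)).trans ?_
      gcongr
      norm_num
  · unfold KP
    simp [ee1]

end Pool.Agent.Stek
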