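import Pool.Agent.Stek.TSeq

/-!
# Y0: a weighted contraction lemma
-/

open scoped BigOperators ComplexConjugate Topology ContDiff
open Complex

noncomputable section

namespace Pool.Agent.Stek

theorem y0 : Y0 := by
  intro E _ _ w R T hw hR hT hc
  let Y : ℕ → (ℕ → E) := fun n => T^[n] 0
  have hY0 : Y 0 = 0 := rfl
  have hYs : ∀ n, Y (n + 1) = T (Y n) := fun n => Function.iterate_succ_apply' T n 0
  have hYb : ∀ n i, ‖Y n i‖ ≤ R * w i := by
    intro n
    induction n with
    | zero => intro i; rw [hY0]; simp [mul_nonneg hR (hw i).le]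
    | succ n ih => rw [hYs]; exact hT _ ih
  have hYd : ∀ n i, ‖Y n i - Y (n + 1) i‖ ≤ R * (1 / 2) ^ n * w i := by
    intro n
    induction n with
    | zero =>
      intro i
      rw [hY0, Pi.zero_apply, zero_sub, norm_neg]
      simpa using hYb 1 i
    | succ n ih =>
      intro i
      have := hc (Y n) (Y (n + 1)) (hYb n) (hYb (n + 1)) _ ih i
      calc ‖Y (n + 1) i - Y (n + 1 + 1) i‖ = ‖T (Y n) i - T (Y (n + 1)) i‖ := by
            rw [← hYs n, ← hYs (n + 1)]
        _ ≤ _ := this
        _ = _ := by ring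
  have hd : ∀ i n, dist (Y n i) (Y (n + 1) i) ≤ R * w i * (1 / 2) ^ n := by
    intro i n
    rw [dist_eq_norm]
    refine (hYd n i).trans (le_of_eq (by ring))
  have hlim : ∀ i, ∃ a, Filter.Tendsto (fun n => Y n i) Filter.atTop (𝓝 a) := fun i =>
    cauchySeq_tendsto_of_complete (cauchySeq_of_le_geometric _ _ (by norm_num) (hd i))
  choose y hy using hlim
  have hyb : ∀ i, ‖y i‖ ≤ R * w i := fun i =>
    le_of_tendsto (hy i).norm (Filter.Eventually.of_forall fun n => hYb n i)
  have hyd : ∀ n i, ‖y i - Y n i‖ ≤ 2 * R * (1 / 2) ^ n * w i := by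
    intro n i
    have := dist_le_of_le_geometric_of_tendsto (1 / 2) (R * w i) (by norm_num) (hd i) (hy i) n
    rw [dist_comm, dist_eq_norm] at this
    refine this.trans (le_of_eq ?_)
    ring
  have hpow : Filter.Tendsto (fun n : ℕ => ((1 : ℝ) / 2) ^ n) Filter.atTop (𝓝 0) :=
    tendsto_pow_atTop_nhds_zero_of_lt_one (by norm_num) (by norm_num)
  refine ⟨y, hyb, ?_, ?_⟩
  · funext i
    have h1 : Filter.Tendsto (fun n => Y (n + 1) i) Filter.atTop (𝓝 (y i)) :=
      (hy i).comp (Filter.tendsto_add_atTop_nat 1)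
    have h2 : Filter.Tendsto (fun n => Y (n + 1) i) Filter.atTop (𝓝 (T y i)) := by
      rw [tendsto_iff_norm_sub_tendsto_zero]
      have h3 : Filter.Tendsto (fun n : ℕ => R * w i * (1 / 2) ^ n) Filter.atTop (𝓝 0) := by
        simpa using hpow.const_mul (R * w i)
      refine squeeze_zero (fun _ => norm_nonneg _) (fun n => ?_) h3
      rw [hYs n, norm_sub_rev]
      refine (hc y (Y n) hyb (hYb n) _ (hyd n) i).trans (le_of_eq ?_)
      ring
    exact tendsto_nhds_unique h2 h1
  · intro y' hy'b hy'
    have hTy : T y = y := by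
      funext i
      have h1 : Filter.Tendsto (fun n => Y (n + 1) i) Filter.atTop (𝓝 (y i)) :=
        (hy i).comp (Filter.tendsto_add_atTop_nat 1)
      have h2 : Filter.Tendsto (fun n => Y (n + 1) i) Filter.atTop (𝓝 (T y i)) := by
        rw [tendsto_iff_norm_sub_tendsto_zero]
        have h3 : Filter.Tendsto (fun n : ℕ => R * w i * (1 / 2) ^ n) Filter.atTop (𝓝 0) := by
          simpa using hpow.const_mul (R * w i)
        refine squeeze_zero (fun _ => norm_nonneg _) (fun n => ?_) h3
        rw [hYs n, norm_sub_rev]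
        refine (hc y (Y n) hyb (hYb n) _ (hyd n) i).trans (le_of_eq ?_)
        ring
      exact tendsto_nhds_unique h2 h1
    have h : ∀ n i, ‖y' i - y i‖ ≤ 2 * R * (1 / 2) ^ n * w i := by
      intro n
      induction n with
      | zero =>
        intro i
        refine (norm_sub_le _ _).trans ?_
        have := hy'b i
        have := hyb i
        simp only [pow_zero, mul_one]
        linarith
      | succ n ih =>
        intro i
        have := hc y' y hy'b hyb _ ih i
        rw [hy', hTy] at this
        refine this.trans (le_of_eq ?_)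
        ring
    funext i
    have h3 : Filter.Tendsto (fun n : ℕ => 2 * R * (1 / 2) ^ n * w i) Filter.atTop (𝓝 0) := by
      simpa using (hpow.const_mul (2 * R)).mul_const (w i)
    have h4 : ‖y' i - y i‖ ≤ 0 := ge_of_tendsto h3 (Filter.Eventually.of_forall fun n => h n i)
    exact sub_eq_zero.1 (norm_le_zero_iff.1 h4)

end Pool.Agent.Stek
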