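import Pool.Agent.Stek.TSeq

/-!
# Y1: the system of the modes `m ≠ k`
-/

open scoped BigOperators ComplexConjugate Topology ContDiff
open Complex

noncomputable section

namespace Pool.Agent.Stek

/-- The weights `j rr ^ (2 j - 2)`. -/
def wj (j : ℕ) : ℝ := (j : ℝ) * rr ^ (2 * j - 2)

theorem rr_pos : 0 < rr := by norm_num [rr]

theorem rr_lt : rr ≤ 1 / 1000 := by norm_num [rr]

theorem wj_nonneg (j : ℕ) : 0 ≤ wj j := by
  have := rr_pos
  unfold wj; positivity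

theorem wj_cast (j : ℕ) : ((wj j : ℝ) : ℂ) = (j : ℂ) * rr ^ (2 * j - 2) := by
  unfold wj; push_cast; ring

/-- `j (4 j + 1) ≤ 5 * 8 ^ (j - 1)` for `j ≥ 1`. -/
theorem poly_le (j : ℕ) : ((j : ℝ) + 1) * (4 * ((j : ℝ) + 1) + 1) ≤ 5 * 8 ^ j := by
  induction j with
  | zero => norm_num
  | succ n ih =>
    have : (0 : ℝ) ≤ n := Nat.cast_nonneg n
    rw [pow_succ]
    push_cast
    nlinarith

theorem wj_le (j : ℕ) : wj (j + 1) * (4 * ((j + 1 : ℕ) : ℝ) + 1) ≤ 5 * (8 * rr ^ 2) ^ j := by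
  have h1 := poly_le j
  have h2 : (0 : ℝ) ≤ (rr ^ 2) ^ j := by have := rr_pos; positivity
  have h3 : rr ^ (2 * (j + 1) - 2) = (rr ^ 2) ^ j := by
    rw [← pow_mul]; congr 1
  unfold wj
  rw [h3, mul_pow]
  push_cast
  calc ((j : ℝ) + 1) * (rr ^ 2) ^ j * (4 * ((j : ℝ) + 1) + 1)
      = (((j : ℝ) + 1) * (4 * ((j : ℝ) + 1) + 1)) * (rr ^ 2) ^ j := by ring
    _ ≤ (5 * 8 ^ j) * (rr ^ 2) ^ j := mul_le_mul_of_nonneg_right h1 h2
    _ = _ := by ring

theorem hr8 : 8 * rr ^ 2 < 1 / 1000 := by norm_num [rr]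

theorem hr80 : 0 ≤ 8 * rr ^ 2 := by have := rr_pos; positivity

theorem wj_summable : Summable (fun j : ℕ => wj j * (4 * (j : ℝ) + 1)) := by
  rw [← summable_nat_add_iff 1]
  refine Summable.of_nonneg_of_le (fun j => ?_) wj_le
    ((summable_geometric_of_lt_one hr80 (by linarith [hr8])).mul_left 5)
  have := wj_nonneg (j + 1)
  positivity

theorem wj_tsum : ∑' j : ℕ, wj j * (4 * (j : ℝ) + 1) ≤ 5.01 := by
  rw [wj_summable.tsum_eq_zero_add]
  have h0 : wj 0 * (4 * ((0 : ℕ) : ℝ) + 1) = 0 := by simp [wj]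
  rw [h0, zero_add]
  have h1 := ((summable_nat_add_iff 1).2 wj_summable).tsum_le_tsum (fun j => wj_le j)
    ((summable_geometric_of_lt_one hr80 (by linarith [hr8])).mul_left 5)
  refine h1.trans ?_
  rw [tsum_mul_left, tsum_geometric_of_lt_one hr80 (by linarith [hr8])]
  have : 0 < 1 - 8 * rr ^ 2 := by linarith [hr8]
  rw [← div_eq_mul_inv, div_le_iff₀ this]
  nlinarith [hr8]

/-- The tail `j ≥ 2`. -/
theorem wj_tail : ∑' j : ℕ, wj (j + 2) * (4 * ((j + 2 : ℕ) : ℝ) + 1) ≤ 50 * rr ^ 2 := by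
  have hs : Summable (fun j : ℕ => wj (j + 2) * (4 * ((j + 2 : ℕ) : ℝ) + 1)) :=
    (summable_nat_add_iff 2).2 wj_summable
  have hle : ∀ j : ℕ, wj (j + 2) * (4 * ((j + 2 : ℕ) : ℝ) + 1) ≤ 40 * rr ^ 2 * (8 * rr ^ 2) ^ j := by
    intro j
    refine (wj_le (j + 1)).trans (le_of_eq ?_)
    rw [pow_succ]; ring
  have h1 := hs.tsum_le_tsum hle
    ((summable_geometric_of_lt_one hr80 (by linarith [hr8])).mul_left (40 * rr ^ 2))
  refine h1.trans ?_
  rw [tsum_mul_left, tsum_geometric_of_lt_one hr80 (by linarith [hr8])]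
  have : 0 < 1 - 8 * rr ^ 2 := by linarith [hr8]
  rw [← div_eq_mul_inv, div_le_iff₀ this]
  have := rr_pos
  nlinarith [hr8, sq_nonneg rr]

/-- General bound of the weighted series. -/
theorem ws_bound {f : ℕ → ℂ} {X : ℝ} (hf : ∀ j, 1 ≤ j → ‖f j‖ ≤ X * (4 * (j : ℝ) + 1)) :
    Summable (fun j : ℕ => (j : ℂ) * rr ^ (2 * j - 2) * f j) ∧
    ‖∑' j : ℕ, (j : ℂ) * rr ^ (2 * j - 2) * f j‖ ≤ 5.01 * X := by
  have hle : ∀ j : ℕ, ‖(j : ℂ) * rr ^ (2 * j - 2) * f j‖ ≤ X * (wj j * (4 * (j : ℝ) + 1)) := by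
    intro j
    rw [← wj_cast, norm_mul, Complex.norm_real, Real.norm_of_nonneg (wj_nonneg j)]
    rcases Nat.eq_zero_or_pos j with rfl | hj
    · simp [wj]
    · calc wj j * ‖f j‖ ≤ wj j * (X * (4 * (j : ℝ) + 1)) :=
            mul_le_mul_of_nonneg_left (hf j hj) (wj_nonneg j)
        _ = _ := by ring
  have hs : Summable (fun j : ℕ => X * (wj j * (4 * (j : ℝ) + 1))) := wj_summable.mul_left X
  have h1 : Summable (fun j : ℕ => ‖(j : ℂ) * rr ^ (2 * j - 2) * f j‖) :=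
    Summable.of_nonneg_of_le (fun _ => norm_nonneg _) hle hs
  have hX : 0 ≤ X := by
    have := (norm_nonneg _).trans (hf 1 le_rfl)
    norm_num at this
    linarith
  refine ⟨h1.of_norm, ?_⟩
  calc ‖∑' j : ℕ, (j : ℂ) * rr ^ (2 * j - 2) * f j‖
      ≤ ∑' j : ℕ, ‖(j : ℂ) * rr ^ (2 * j - 2) * f j‖ := norm_tsum_le_tsum_norm h1
    _ ≤ ∑' j : ℕ, X * (wj j * (4 * (j : ℝ) + 1)) := h1.tsum_le_tsum hle hs
    _ = X * ∑' j : ℕ, wj j * (4 * (j : ℝ) + 1) := tsum_mul_left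
    _ ≤ X * 5.01 := mul_le_mul_of_nonneg_left wj_tsum hX
    _ = _ := mul_comm _ _

/-- Difference version. -/
theorem ws_sub {f g : ℕ → ℂ} {X Y Z : ℝ} (hf : ∀ j, 1 ≤ j → ‖f j‖ ≤ X * (4 * (j : ℝ) + 1))
    (hg : ∀ j, 1 ≤ j → ‖g j‖ ≤ Y * (4 * (j : ℝ) + 1))
    (hfg : ∀ j, 1 ≤ j → ‖f j - g j‖ ≤ Z * (4 * (j : ℝ) + 1)) :
    ‖∑' j : ℕ, (j : ℂ) * rr ^ (2 * j - 2) * f j - ∑' j : ℕ, (j : ℂ) * rr ^ (2 * j - 2) * g j‖
      ≤ 5.01 * Z := by
  rw [← (ws_bound hf).1.tsum_sub (ws_bound hg).1]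
  have := (ws_bound hfg).2
  refine le_trans (le_of_eq ?_) this
  congr 1
  refine tsum_congr fun j => ?_
  ring

theorem WW_bound {k m : ℕ} {σ : ℝ} (hk : 1 ≤ k) (hm : 1 ≤ m) (hmk : m ≠ k)
    (hσ : |σ - k| ≤ 1 / 2) : |WW σ m| ≤ 4 * m + 1 := by
  have hσ' := abs_le.1 hσ
  have hk' : (1 : ℝ) ≤ k := by exact_mod_cast hk
  have hm' : (1 : ℝ) ≤ m := by exact_mod_cast hm
  unfold WW
  rcases lt_or_gt_of_ne hmk with h | h
  · have h1 : (m : ℝ) + 1 ≤ k := by exact_mod_cast h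
    have h2 : (m : ℝ) - σ < 0 := by linarith
    rw [abs_div, abs_of_neg h2, abs_of_pos (by linarith), div_le_iff₀ (by linarith)]
    nlinarith
  · have h1 : (k : ℝ) + 1 ≤ m := by exact_mod_cast h
    have h2 : 0 < (m : ℝ) - σ := by linarith
    rw [abs_div, abs_of_pos h2, abs_of_pos (by linarith), div_le_iff₀ h2]
    nlinarith

theorem m_sub_ne {k m : ℕ} {σ : ℝ} (hmk : m ≠ k) (hσ : |σ - k| ≤ 1 / 2) :
    1 / 2 ≤ |(m : ℝ) - σ| := by
  have h1 : (1 : ℝ) ≤ |(m : ℝ) - k| := by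
    have : (1 : ℤ) ≤ |(m : ℤ) - k| := Int.one_le_abs (by omega)
    exact_mod_cast this
  have h2 : |(m : ℝ) - k| ≤ |(m : ℝ) - σ| + |σ - k| := by
    have := abs_add_le ((m : ℝ) - σ) (σ - k)
    simpa using this
  linarith

theorem WW_lip {k m : ℕ} {σ σ' : ℝ} (hm : 1 ≤ m) (hmk : m ≠ k)
    (hσ : |σ - k| ≤ 1 / 2) (hσ' : |σ' - k| ≤ 1 / 2) :
    |WW σ m - WW σ' m| ≤ 2 * |σ - σ'| * (4 * m + 1) := by
  have h1 := m_sub_ne hmk hσ
  have h2 := m_sub_ne hmk hσ'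
  have hm' : (1 : ℝ) ≤ m := by exact_mod_cast hm
  have n1 : (m : ℝ) - σ ≠ 0 := fun h => by rw [h] at h1; norm_num at h1
  have n2 : (m : ℝ) - σ' ≠ 0 := fun h => by rw [h] at h2; norm_num at h2
  have e : WW σ m - WW σ' m = 2 * m * (σ - σ') / ((m - σ) * (m - σ')) := by
    unfold WW
    field_simp
    ring
  rw [e, abs_div, abs_mul, abs_mul, abs_mul, abs_of_pos (show (0 : ℝ) < 2 by norm_num),
    abs_of_nonneg (show (0 : ℝ) ≤ m by linarith)]
  have h3 : (1 / 4 : ℝ) ≤ |(m : ℝ) - σ| * |(m : ℝ) - σ'| := by nlinarith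
  rw [div_le_iff₀ (by linarith)]
  have h4 := abs_nonneg (σ - σ')
  have h5 : 2 * m * |σ - σ'| ≤ 2 * |σ - σ'| * (4 * m + 1) * (1 / 4) := by nlinarith
  refine h5.trans (mul_le_mul_of_nonneg_left h3 (by positivity))

theorem eps_pos : 0 < eps := by norm_num [eps]

/-- Uniform bound of the kernel. -/
theorem Kb.le {M : ℝ} {A : ℕ → ℕ → ℂ} (h : Kb M A) {j k : ℕ} (hj : 1 ≤ j) (hk : 1 ≤ k) :
    ‖A j k‖ ≤ M / 8 := by
  have h1 := h j k hj hk
  have hj' : (1 : ℝ) ≤ j := by exact_mod_cast hj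
  have hk' : (1 : ℝ) ≤ k := by exact_mod_cast hk
  have hM : 0 ≤ M := by
    have h0 := (norm_nonneg _).trans h1
    have : (0 : ℝ) < ((j : ℝ) + k) ^ 3 := by positivity
    by_contra hc
    exact absurd h0 (not_le.2 (div_neg_of_neg_of_pos (not_le.1 hc) this))
  refine h1.trans ?_
  have h2 : (8 : ℝ) ≤ ((j : ℝ) + k) ^ 3 := by
    have : (2 : ℝ) ≤ (j : ℝ) + k := by linarith
    calc (8 : ℝ) = 2 ^ 3 := by norm_num
      _ ≤ _ := by gcongr
  exact div_le_div_of_nonneg_left hM (by norm_num) h2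

theorem Kb.nonneg {M : ℝ} {A : ℕ → ℕ → ℂ} (h : Kb M A) : 0 ≤ M := by
  have := (norm_nonneg _).trans (h.le (j := 1) (k := 1) le_rfl le_rfl)
  linarith

/-- Bound with the index `k` kept. -/
theorem Kb.row {M : ℝ} {A : ℕ → ℕ → ℂ} (h : Kb M A) {k m : ℕ} (hk : 1 ≤ k) (hm : 1 ≤ m) :
    ‖A k m‖ ≤ M / ((k : ℝ) + 1) ^ 3 := by
  have hm' : (1 : ℝ) ≤ m := by exact_mod_cast hm
  have hk' : (1 : ℝ) ≤ k := by exact_mod_cast hk
  refine (h k m hk hm).trans ?_
  refine div_le_div_of_nonneg_left h.nonneg (by positivity) ?_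
  gcongr

theorem Kb.col {M : ℝ} {A : ℕ → ℕ → ℂ} (h : Kb M A) {k j : ℕ} (hk : 1 ≤ k) (hj : 1 ≤ j) :
    ‖A j k‖ ≤ M / ((k : ℝ) + 1) ^ 3 := by
  have hj' : (1 : ℝ) ≤ j := by exact_mod_cast hj
  have hk' : (1 : ℝ) ≤ k := by exact_mod_cast hk
  refine (h j k hj hk).trans ?_
  refine div_le_div_of_nonneg_left h.nonneg (by positivity) ?_
  rw [add_comm]
  gcongr

/-- The right-hand sides of the system. -/
def sysR (A B : ℕ → ℕ → ℂ) (k : ℕ) (σ : ℝ) (x : ℕ → ℂ × ℂ) (m : ℕ) : ℂ × ℂ :=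
  (WW σ m * (conj (B k m) + ∑' j : ℕ, (j : ℂ) * rr ^ (2 * j - 2) *
      (conj (A j m) * conj (x j).2 + rr ^ 4 * conj (B j m) * (x j).1)),
    WW σ m * (conj (A k m) + rr ^ 4 * ∑' j : ℕ, (j : ℂ) * rr ^ (2 * j - 2) *
      (conj (A j m) * conj (x j).1 + conj (B j m) * (x j).2)))

theorem norm_rr4 : ‖((rr : ℂ)) ^ 4‖ ≤ 1 / 1000 := by
  rw [← ofReal_pow, Complex.norm_real, Real.norm_of_nonneg (by have := rr_pos; positivity)]
  norm_num [rr]

/-- Termwise bound, first component. -/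
theorem term1 {a b x y : ℂ} {M X w : ℝ} (ha : ‖a‖ ≤ M) (hb : ‖b‖ ≤ M) (hx : ‖x‖ ≤ X * w)
    (hy : ‖y‖ ≤ X * w) :
    ‖conj a * conj y + rr ^ 4 * conj b * x‖ ≤ 1.001 * M * X * w := by
  have hM : 0 ≤ M := (norm_nonneg _).trans ha
  have hX : 0 ≤ X * w := (norm_nonneg _).trans hx
  have h1 : ‖conj a * conj y‖ ≤ M * (X * w) := by
    rw [norm_mul, RCLike.norm_conj, RCLike.norm_conj]
    exact mul_le_mul ha hy (norm_nonneg _) hM
  have h2 : ‖(rr : ℂ) ^ 4 * conj b * x‖ ≤ 1 / 1000 * M * (X * w) := by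
    rw [norm_mul, norm_mul, RCLike.norm_conj]
    exact mul_le_mul (mul_le_mul norm_rr4 hb (norm_nonneg _) (by norm_num)) hx (norm_nonneg _)
      (by positivity)
  refine (norm_add_le _ _).trans ?_
  nlinarith

theorem term2 {a b x y : ℂ} {M X w : ℝ} (ha : ‖a‖ ≤ M) (hb : ‖b‖ ≤ M) (hx : ‖x‖ ≤ X * w)
    (hy : ‖y‖ ≤ X * w) :
    ‖conj a * conj x + conj b * y‖ ≤ 2 * M * X * w := by
  have hM : 0 ≤ M := (norm_nonneg _).trans ha
  have hX : 0 ≤ X * w := (norm_nonneg _).trans hx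
  have h1 : ‖conj a * conj x‖ ≤ M * (X * w) := by
    rw [norm_mul, RCLike.norm_conj, RCLike.norm_conj]
    exact mul_le_mul ha hx (norm_nonneg _) hM
  have h2 : ‖conj b * y‖ ≤ M * (X * w) := by
    rw [norm_mul, RCLike.norm_conj]
    exact mul_le_mul hb hy (norm_nonneg _) hM
  refine (norm_add_le _ _).trans ?_
  nlinarith

theorem sysR_bound {A B : ℕ → ℕ → ℂ} {k m : ℕ} {σ X : ℝ} {x : ℕ → ℂ × ℂ}
    (hA : Kb (2 * eps) A) (hB : Kb (2 * eps) B) (hk : 1 ≤ k) (hm : 1 ≤ m) (hmk : m ≠ k)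
    (hσ : |σ - k| ≤ 1 / 2) (hx : ∀ j, ‖x j‖ ≤ X * (4 * (j : ℝ) + 1)) :
    ‖sysR A B k σ x m‖ ≤ (2 * eps / ((k : ℝ) + 1) ^ 3 + X / 1000) * (4 * (m : ℝ) + 1) := by
  have hX : 0 ≤ X := by
    have := (norm_nonneg _).trans (hx 0)
    simpa using this
  have he := eps_pos
  have hW := WW_bound hk hm hmk hσ
  have s1 := (ws_bound (f := fun j => conj (A j m) * conj (x j).2 + rr ^ 4 * conj (B j m) * (x j).1)
    (X := 1.001 * (2 * eps / 8) * X) (fun j hj => term1 (hA.le hj hm) (hB.le hj hm)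
      ((norm_fst_le _).trans (hx j)) ((norm_snd_le _).trans (hx j)))).2
  have s2 := (ws_bound (f := fun j => conj (A j m) * conj (x j).1 + conj (B j m) * (x j).2)
    (X := 2 * (2 * eps / 8) * X) (fun j hj => term2 (hA.le hj hm) (hB.le hj hm)
      ((norm_fst_le _).trans (hx j)) ((norm_snd_le _).trans (hx j)))).2
  have hAk := hA.row hk hm
  have hBk := hB.row hk hm
  have hc : (0 : ℝ) ≤ 4 * m + 1 := by positivity
  have hWc : ‖((WW σ m : ℝ) : ℂ)‖ ≤ 4 * m + 1 := by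
    rw [Complex.norm_real, Real.norm_eq_abs]; exact hW
  have hee : eps ≤ 1 / 100000 := by norm_num [eps]
  rw [Prod.norm_def]
  refine max_le ?_ ?_
  · change ‖((WW σ m : ℝ) : ℂ) * _‖ ≤ _
    rw [norm_mul]
    rw [mul_comm (2 * eps / ((k : ℝ) + 1) ^ 3 + X / 1000)]
    refine mul_le_mul hWc ?_ (norm_nonneg _) hc
    refine (norm_add_le _ _).trans ?_
    rw [RCLike.norm_conj]
    refine add_le_add hBk (s1.trans ?_)
    nlinarith
  · change ‖((WW σ m : ℝ) : ℂ) * _‖ ≤ _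
    rw [norm_mul]
    rw [mul_comm (2 * eps / ((k : ℝ) + 1) ^ 3 + X / 1000)]
    refine mul_le_mul hWc ?_ (norm_nonneg _) hc
    refine (norm_add_le _ _).trans ?_
    rw [RCLike.norm_conj]
    refine add_le_add hAk ?_
    rw [norm_mul]
    refine (mul_le_mul norm_rr4 s2 (norm_nonneg _) (by norm_num)).trans ?_
    nlinarith

theorem sysR_sub {A B : ℕ → ℕ → ℂ} {k m : ℕ} {σ X Y Z : ℝ} {x y : ℕ → ℂ × ℂ}
    (hA : Kb (2 * eps) A) (hB : Kb (2 * eps) B) (hk : 1 ≤ k) (hm : 1 ≤ m) (hmk : m ≠ k)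
    (hσ : |σ - k| ≤ 1 / 2) (hx : ∀ j, ‖x j‖ ≤ X * (4 * (j : ℝ) + 1))
    (hy : ∀ j, ‖y j‖ ≤ Y * (4 * (j : ℝ) + 1))
    (hxy : ∀ j, ‖x j - y j‖ ≤ Z * (4 * (j : ℝ) + 1)) :
    ‖sysR A B k σ x m - sysR A B k σ y m‖ ≤ Z / 1000 * (4 * (m : ℝ) + 1) := by
  have hZ : 0 ≤ Z := by
    have := (norm_nonneg _).trans (hxy 0)
    simpa using this
  have he := eps_pos
  have hW := WW_bound hk hm hmk hσ
  have s1 := ws_sub (f := fun j => conj (A j m) * conj (x j).2 + rr ^ 4 * conj (B j m) * (x j).1)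
    (g := fun j => conj (A j m) * conj (y j).2 + rr ^ 4 * conj (B j m) * (y j).1)
    (X := 1.001 * (2 * eps / 8) * X) (Y := 1.001 * (2 * eps / 8) * Y)
    (Z := 1.001 * (2 * eps / 8) * Z) (fun j hj => term1 (hA.le hj hm) (hB.le hj hm)
      ((norm_fst_le _).trans (hx j)) ((norm_snd_le _).trans (hx j)))
      (fun j hj => term1 (hA.le hj hm) (hB.le hj hm)
      ((norm_fst_le _).trans (hy j)) ((norm_snd_le _).trans (hy j)))
      (fun j hj => by
        have := term1 (hA.le hj hm) (hB.le hj hm)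
          ((norm_fst_le _).trans (hxy j)) ((norm_snd_le _).trans (hxy j))
        refine le_trans (le_of_eq ?_) this
        congr 1
        simp only [Prod.fst_sub, Prod.snd_sub, map_sub]
        ring)
  have s2 := ws_sub (f := fun j => conj (A j m) * conj (x j).1 + conj (B j m) * (x j).2)
    (g := fun j => conj (A j m) * conj (y j).1 + conj (B j m) * (y j).2)
    (X := 2 * (2 * eps / 8) * X) (Y := 2 * (2 * eps / 8) * Y)
    (Z := 2 * (2 * eps / 8) * Z) (fun j hj => term2 (hA.le hj hm) (hB.le hj hm)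
      ((norm_fst_le _).trans (hx j)) ((norm_snd_le _).trans (hx j)))
      (fun j hj => term2 (hA.le hj hm) (hB.le hj hm)
      ((norm_fst_le _).trans (hy j)) ((norm_snd_le _).trans (hy j)))
      (fun j hj => by
        have := term2 (hA.le hj hm) (hB.le hj hm)
          ((norm_fst_le _).trans (hxy j)) ((norm_snd_le _).trans (hxy j))
        refine le_trans (le_of_eq ?_) this
        congr 1
        simp only [Prod.fst_sub, Prod.snd_sub, map_sub]
        ring)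
  have hc : (0 : ℝ) ≤ 4 * m + 1 := by positivity
  have hWc : ‖((WW σ m : ℝ) : ℂ)‖ ≤ 4 * m + 1 := by
    rw [Complex.norm_real, Real.norm_eq_abs]; exact hW
  have hee : eps ≤ 1 / 100000 := by norm_num [eps]
  rw [Prod.norm_def]
  refine max_le ?_ ?_
  · change ‖((WW σ m : ℝ) : ℂ) * _ - ((WW σ m : ℝ) : ℂ) * _‖ ≤ _
    rw [← mul_sub, add_sub_add_left_eq_sub, norm_mul, mul_comm (Z / 1000)]
    refine mul_le_mul hWc (s1.trans ?_) (norm_nonneg _) hc
    nlinarith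
  · change ‖((WW σ m : ℝ) : ℂ) * _ - ((WW σ m : ℝ) : ℂ) * _‖ ≤ _
    rw [← mul_sub, add_sub_add_left_eq_sub, norm_mul, mul_comm (Z / 1000), ← mul_sub, norm_mul]
    refine mul_le_mul hWc ?_ (mul_nonneg (norm_nonneg _) (norm_nonneg _)) hc
    refine (mul_le_mul norm_rr4 s2 (norm_nonneg _) (by norm_num)).trans ?_
    nlinarith

theorem y1 (hY0 : Y0) : Y1 := by
  intro A B k σ hA hB hk hσ
  have he := eps_pos
  have hk3 : (0 : ℝ) < ((k : ℝ) + 1) ^ 3 := by positivity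
  -- uniqueness
  have huniq : ∀ x y : ℕ → ℂ × ℂ, IsSys A B k σ x → IsSys A B k σ y → x = y := by
    rintro x y ⟨⟨C, hC⟩, hx0, hx⟩ ⟨⟨D, hD⟩, hy0, hy⟩
    have hC' : ∀ j, ‖x j‖ ≤ C * (4 * (j : ℝ) + 1) := hC
    have hD' : ∀ j, ‖y j‖ ≤ D * (4 * (j : ℝ) + 1) := hD
    have hrec : ∀ n : ℕ, ∀ j, ‖x j - y j‖ ≤ (C + D) * (1 / 1000) ^ n * (4 * (j : ℝ) + 1) := by
      intro n
      induction n with
      | zero =>
        intro j
        have := norm_sub_le (x j) (y j)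
        rw [pow_zero, mul_one]
        linarith [hC' j, hD' j]
      | succ n ih =>
        intro j
        by_cases hj : j = 0 ∨ j = k
        · rw [hx0 j hj, hy0 j hj, sub_zero, norm_zero]
          exact (norm_nonneg _).trans (ih j) |>.trans' le_rfl |> fun h => by
            have h2 : 0 ≤ (C + D) * (1 / 1000) ^ n * (4 * (j : ℝ) + 1) := h
            have : (C + D) * (1 / 1000) ^ (n + 1) * (4 * (j : ℝ) + 1) =
              (C + D) * (1 / 1000) ^ n * (4 * (j : ℝ) + 1) * (1 / 1000) := by rw [pow_succ]; ring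
            rw [this]; positivity
        · rw [not_or] at hj
          have hj1 : 1 ≤ j := Nat.one_le_iff_ne_zero.2 hj.1
          have e1 : x j = sysR A B k σ x j := Prod.ext (hx j hj1 hj.2).1 (hx j hj1 hj.2).2
          have e2 : y j = sysR A B k σ y j := Prod.ext (hy j hj1 hj.2).1 (hy j hj1 hj.2).2
          rw [e1, e2]
          refine (sysR_sub hA hB hk hj1 hj.2 hσ hC' hD' ih).trans (le_of_eq ?_)
          rw [pow_succ]; ring
    funext j
    have h3 : Filter.Tendsto (fun n : ℕ => (C + D) * (1 / 1000 : ℝ) ^ n * (4 * (j : ℝ) + 1))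
        Filter.atTop (𝓝 0) := by
      have := (tendsto_pow_atTop_nhds_zero_of_lt_one (r := (1 / 1000 : ℝ)) (by norm_num)
        (by norm_num)).const_mul (C + D)
      simpa using this.mul_const (4 * (j : ℝ) + 1)
    have h4 : ‖x j - y j‖ ≤ 0 := ge_of_tendsto h3 (Filter.Eventually.of_forall fun n => hrec n j)
    exact sub_eq_zero.1 (norm_le_zero_iff.1 h4)
  -- existence
  classical
  let T : (ℕ → ℂ × ℂ) → (ℕ → ℂ × ℂ) := fun x m => if m = 0 ∨ m = k then 0 else sysR A B k σ x m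
  obtain ⟨x, hx1, hx2, -⟩ := hY0 (ℂ × ℂ) (fun m => 4 * (m : ℝ) + 1) (3 * eps / ((k : ℝ) + 1) ^ 3) T
    (fun n => by positivity) (by positivity)
    (by
      intro y hy n
      by_cases hn : n = 0 ∨ n = k
      · simp only [T, if_pos hn, norm_zero]; positivity
      · simp only [T, if_neg hn]
        rw [not_or] at hn
        refine (sysR_bound hA hB hk (Nat.one_le_iff_ne_zero.2 hn.1) hn.2 hσ hy).trans ?_
        refine mul_le_mul_of_nonneg_right ?_ (by positivity)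
        have : 2 * eps / ((k : ℝ) + 1) ^ 3 + 3 * eps / ((k : ℝ) + 1) ^ 3 / 1000 =
          (2 * eps + 3 * eps / 1000) / ((k : ℝ) + 1) ^ 3 := by ring
        rw [this]
        gcongr
        linarith)
    (by
      intro y y' hy hy' d hd n
      by_cases hn : n = 0 ∨ n = k
      · simp only [T, if_pos hn, sub_zero, norm_zero]
        have := (norm_nonneg _).trans (hd n)
        have h2 : d / 2 * (4 * (n : ℝ) + 1) = d * (4 * (n : ℝ) + 1) / 2 := by ring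
        rw [h2]; linarith
      · simp only [T, if_neg hn]
        rw [not_or] at hn
        refine (sysR_sub hA hB hk (Nat.one_le_iff_ne_zero.2 hn.1) hn.2 hσ hy hy' hd).trans ?_
        have h0 : 0 ≤ d := by
          have := (norm_nonneg _).trans (hd 0)
          simpa using this
        refine mul_le_mul_of_nonneg_right (by linarith) (by positivity))
  have hxs : IsSys A B k σ x := by
    refine ⟨⟨_, hx1⟩, fun m hm => ?_, fun m hm hmk => ?_⟩
    · have := congrFun hx2 m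
      simp only [T, if_pos hm] at this
      exact this.symm
    · have := congrFun hx2 m
      have hn : ¬ (m = 0 ∨ m = k) := by omega
      simp only [T, if_neg hn] at this
      exact ⟨(congrArg Prod.fst this).symm, (congrArg Prod.snd this).symm⟩
  have hex : ∃ x, IsSys A B k σ x := ⟨x, hxs⟩
  have hv : sysv A B k σ = hex.choose := by
    unfold sysv; rw [dif_pos hex]
  have hvs : IsSys A B k σ (sysv A B k σ) := by rw [hv]; exact hex.choose_spec
  refine ⟨hvs, fun z hz => huniq z _ hz hvs, fun m => ?_⟩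
  rw [huniq _ x hvs hxs]
  refine (hx1 m).trans (le_of_eq ?_)
  ring

end Pool.Agent.Stek
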