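import Pool.Agent.Stek.PY1

/-!
# Y2, Y3: Lipschitz dependence of the solution of the system
-/

open scoped BigOperators ComplexConjugate Topology ContDiff
open Complex

noncomputable section

namespace Pool.Agent.Stek

/-- The right-hand sides without the factor `WW`. -/
def sysP (A B : ℕ → ℕ → ℂ) (k : ℕ) (x : ℕ → ℂ × ℂ) (m : ℕ) : ℂ × ℂ :=
  (conj (B k m) + ∑' j : ℕ, (j : ℂ) * rr ^ (2 * j - 2) *
      (conj (A j m) * conj (x j).2 + rr ^ 4 * conj (B j m) * (x j).1),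
    conj (A k m) + rr ^ 4 * ∑' j : ℕ, (j : ℂ) * rr ^ (2 * j - 2) *
      (conj (A j m) * conj (x j).1 + conj (B j m) * (x j).2))

theorem sysR_eq (A B : ℕ → ℕ → ℂ) (k : ℕ) (σ : ℝ) (x : ℕ → ℂ × ℂ) (m : ℕ) :
    sysR A B k σ x m = ((WW σ m : ℝ) : ℂ) • sysP A B k x m := rfl

theorem Kb.sum_bound {A B : ℕ → ℕ → ℂ} {m : ℕ} {M X : ℝ} {x : ℕ → ℂ × ℂ}
    (hA : Kb M A) (hB : Kb M B) (hm : 1 ≤ m) (hx : ∀ j, ‖x j‖ ≤ X * (4 * (j : ℝ) + 1)) :
    (Summable (fun j : ℕ => (j : ℂ) * rr ^ (2 * j - 2) *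
      (conj (A j m) * conj (x j).2 + rr ^ 4 * conj (B j m) * (x j).1)) ∧
    ‖∑' j : ℕ, (j : ℂ) * rr ^ (2 * j - 2) *
      (conj (A j m) * conj (x j).2 + rr ^ 4 * conj (B j m) * (x j).1)‖ ≤ 0.63 * M * X) ∧
    (Summable (fun j : ℕ => (j : ℂ) * rr ^ (2 * j - 2) *
      (conj (A j m) * conj (x j).1 + conj (B j m) * (x j).2)) ∧
    ‖∑' j : ℕ, (j : ℂ) * rr ^ (2 * j - 2) *
      (conj (A j m) * conj (x j).1 + conj (B j m) * (x j).2)‖ ≤ 1.3 * M * X) := by
  have hX : 0 ≤ X := by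
    have := (norm_nonneg _).trans (hx 0)
    simpa using this
  have hM := hA.nonneg
  have hMX : 0 ≤ M * X := by positivity
  have s1 := (ws_bound (f := fun j => conj (A j m) * conj (x j).2 + rr ^ 4 * conj (B j m) * (x j).1)
    (X := 1.001 * (M / 8) * X) (fun j hj => term1 (hA.le hj hm) (hB.le hj hm)
      ((norm_fst_le _).trans (hx j)) ((norm_snd_le _).trans (hx j))))
  have s2 := (ws_bound (f := fun j => conj (A j m) * conj (x j).1 + conj (B j m) * (x j).2)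
    (X := 2 * (M / 8) * X) (fun j hj => term2 (hA.le hj hm) (hB.le hj hm)
      ((norm_fst_le _).trans (hx j)) ((norm_snd_le _).trans (hx j))))
  refine ⟨⟨s1.1, s1.2.trans ?_⟩, ⟨s2.1, s2.2.trans ?_⟩⟩
  · nlinarith
  · nlinarith

theorem sysP_bound {A B : ℕ → ℕ → ℂ} {k m : ℕ} {M X : ℝ} {x : ℕ → ℂ × ℂ}
    (hA : Kb M A) (hB : Kb M B) (hk : 1 ≤ k) (hm : 1 ≤ m)
    (hx : ∀ j, ‖x j‖ ≤ X * (4 * (j : ℝ) + 1)) :
    ‖sysP A B k x m‖ ≤ M / ((k : ℝ) + 1) ^ 3 + 0.63 * M * X := by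
  have hX : 0 ≤ X := by
    have := (norm_nonneg _).trans (hx 0)
    simpa using this
  have hM := hA.nonneg
  have hMX : 0 ≤ M * X := by positivity
  obtain ⟨⟨-, s1⟩, ⟨-, s2⟩⟩ := Kb.sum_bound hA hB hm hx
  have hAk := hA.row hk hm
  have hBk := hB.row hk hm
  rw [Prod.norm_def]
  refine max_le ?_ ?_
  · refine (norm_add_le _ _).trans ?_
    rw [RCLike.norm_conj]
    exact add_le_add hBk s1
  · refine (norm_add_le _ _).trans ?_
    rw [RCLike.norm_conj]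
    refine add_le_add hAk ?_
    rw [norm_mul]
    refine (mul_le_mul norm_rr4 s2 (norm_nonneg _) (by norm_num)).trans ?_
    nlinarith

theorem sysP_ker {A B A' B' : ℕ → ℕ → ℂ} {k m : ℕ} {M X : ℝ} {x : ℕ → ℂ × ℂ}
    (hA : Kb M A) (hB : Kb M B) (hA' : Kb M A') (hB' : Kb M B') (hm : 1 ≤ m)
    (hx : ∀ j, ‖x j‖ ≤ X * (4 * (j : ℝ) + 1)) :
    sysP A B k x m - sysP A' B' k x m =
      sysP (fun j k => A j k - A' j k) (fun j k => B j k - B' j k) k x m := by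
  obtain ⟨⟨s1, -⟩, ⟨s2, -⟩⟩ := Kb.sum_bound hA hB hm hx
  obtain ⟨⟨t1, -⟩, ⟨t2, -⟩⟩ := Kb.sum_bound hA' hB' hm hx
  have e1 := s1.tsum_sub t1
  have e2 := s2.tsum_sub t2
  refine Prod.ext ?_ ?_
  · simp only [sysP, Prod.fst_sub]
    rw [add_sub_add_comm, ← e1, map_sub]
    congr 1
    refine tsum_congr fun j => ?_
    simp only [map_sub]
    ring
  · simp only [sysP, Prod.snd_sub]
    rw [add_sub_add_comm, ← mul_sub, ← e2, map_sub]
    congr 2
    refine tsum_congr fun j => ?_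
    simp only [map_sub]
    ring

theorem iter_bound {E : Type*} [SeminormedAddCommGroup E] {d : ℕ → E} {w : ℕ → ℝ} {Z0 c : ℝ}
    (hw : ∀ m, 0 ≤ w m) (hc : 0 ≤ c) (h0 : ∀ m, ‖d m‖ ≤ Z0 * w m)
    (h : ∀ Z, (∀ m, ‖d m‖ ≤ Z * w m) → ∀ m, ‖d m‖ ≤ (Z / 1000 + c) * w m) (m : ℕ) :
    ‖d m‖ ≤ 1.01 * c * w m := by
  have hrec : ∀ n : ℕ, ∀ j, ‖d j‖ ≤ (Z0 * (1 / 1000) ^ n + 1.01 * c) * w j := by
    intro n
    induction n with
    | zero =>
      intro j
      refine (h0 j).trans (mul_le_mul_of_nonneg_right ?_ (hw j))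
      rw [pow_zero, mul_one]; nlinarith
    | succ n ih =>
      intro j
      refine (h _ ih j).trans (mul_le_mul_of_nonneg_right ?_ (hw j))
      rw [pow_succ]; nlinarith
  have h3 : Filter.Tendsto (fun n : ℕ => (Z0 * (1 / 1000 : ℝ) ^ n + 1.01 * c) * w m)
      Filter.atTop (𝓝 ((Z0 * 0 + 1.01 * c) * w m)) :=
    (((tendsto_pow_atTop_nhds_zero_of_lt_one (r := (1 / 1000 : ℝ)) (by norm_num)
        (by norm_num)).const_mul Z0).add_const (1.01 * c)).mul_const (w m)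
  have h4 := ge_of_tendsto h3 (Filter.Eventually.of_forall fun n => hrec n m)
  simpa using h4

theorem IsSys.eq_sysR {A B : ℕ → ℕ → ℂ} {k : ℕ} {σ : ℝ} {x : ℕ → ℂ × ℂ} (h : IsSys A B k σ x)
    {m : ℕ} (hm : 1 ≤ m) (hmk : m ≠ k) : x m = sysR A B k σ x m :=
  Prod.ext (h.2.2 m hm hmk).1 (h.2.2 m hm hmk).2

theorem y2 (hY1 : Y1) : Y2 := by
  intro A B A' B' k σ D hA hB hA' hB' hk hσ hDA hDB
  obtain ⟨hx, -, hxb⟩ := hY1 A B k σ hA hB hk hσ
  obtain ⟨hx', -, hxb'⟩ := hY1 A' B' k σ hA' hB' hk hσ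
  set x := sysv A B k σ with hxdef
  set x' := sysv A' B' k σ with hxdef'
  have he := eps_pos
  have hk3 : (0 : ℝ) < ((k : ℝ) + 1) ^ 3 := by positivity
  have hk31 : (1 : ℝ) ≤ ((k : ℝ) + 1) ^ 3 := by
    have : (0 : ℝ) ≤ k := Nat.cast_nonneg k
    exact one_le_pow₀ (by linarith)
  have hD : 0 ≤ D := hDA.nonneg
  have hxb1 : ∀ j, ‖x j‖ ≤ 3 * eps / ((k : ℝ) + 1) ^ 3 * (4 * (j : ℝ) + 1) := fun j =>
    (hxb j).trans (le_of_eq (by ring))
  have hxb1' : ∀ j, ‖x' j‖ ≤ 3 * eps / ((k : ℝ) + 1) ^ 3 * (4 * (j : ℝ) + 1) := fun j =>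
    (hxb' j).trans (le_of_eq (by ring))
  have hc0 : 0 ≤ 1.01 * D / ((k : ℝ) + 1) ^ 3 := by positivity
  intro m
  have key := iter_bound (d := fun m => x m - x' m) (w := fun m : ℕ => 4 * (m : ℝ) + 1)
    (Z0 := 6 * eps / ((k : ℝ) + 1) ^ 3) (c := 1.01 * D / ((k : ℝ) + 1) ^ 3)
    (fun m => by positivity) hc0
    (fun j => (norm_sub_le _ _).trans ((add_le_add (hxb1 j) (hxb1' j)).trans (le_of_eq (by ring))))
    (by
      intro Z hZ j
      have hZ0 : 0 ≤ Z := by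
        have := (norm_nonneg _).trans (hZ 0)
        simpa using this
      have hw : (0 : ℝ) ≤ 4 * j + 1 := by positivity
      by_cases hj : j = 0 ∨ j = k
      · simp only [hx.2.1 j hj, hx'.2.1 j hj, sub_zero, norm_zero]
        positivity
      · rw [not_or] at hj
        have hj1 : 1 ≤ j := Nat.one_le_iff_ne_zero.2 hj.1
        rw [hx.eq_sysR hj1 hj.2, hx'.eq_sysR hj1 hj.2]
        have h1 := sysR_sub hA hB hk hj1 hj.2 hσ hxb1 hxb1' hZ
        have h2 : ‖sysR A B k σ x' j - sysR A' B' k σ x' j‖ ≤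
            1.01 * D / ((k : ℝ) + 1) ^ 3 * (4 * (j : ℝ) + 1) := by
          rw [sysR_eq, sysR_eq, ← smul_sub, sysP_ker hA hB hA' hB' hj1 hxb1', norm_smul,
            Complex.norm_real, Real.norm_eq_abs, mul_comm]
          refine mul_le_mul ((sysP_bound hDA hDB hk hj1 hxb1').trans ?_)
            (WW_bound hk hj1 hj.2 hσ) (abs_nonneg _) hc0
          have : eps ≤ 1 / 1000 := by norm_num [eps]
          have e : 0.63 * D * (3 * eps / ((k : ℝ) + 1) ^ 3) =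
            (0.63 * 3 * eps * D) / ((k : ℝ) + 1) ^ 3 := by ring
          rw [e, ← add_div]
          refine div_le_div_of_nonneg_right ?_ hk3.le
          nlinarith
        calc ‖sysR A B k σ x j - sysR A' B' k σ x' j‖
            = ‖(sysR A B k σ x j - sysR A B k σ x' j) +
                (sysR A B k σ x' j - sysR A' B' k σ x' j)‖ := by
              congr 1; abel
          _ ≤ _ := (norm_add_le _ _).trans (add_le_add h1 h2)
          _ = _ := by ring) m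
  refine key.trans ?_
  have : 1.01 * (1.01 * D / ((k : ℝ) + 1) ^ 3) * (4 * (m : ℝ) + 1) =
    (1.01 * 1.01) * (D * (4 * (m : ℝ) + 1) / ((k : ℝ) + 1) ^ 3) := by ring
  rw [this]
  have h2 : 2 * D * (4 * (m : ℝ) + 1) / ((k : ℝ) + 1) ^ 3 =
    2 * (D * (4 * (m : ℝ) + 1) / ((k : ℝ) + 1) ^ 3) := by ring
  rw [h2]
  refine mul_le_mul_of_nonneg_right (by norm_num) (by positivity)

theorem y3 (hY1 : Y1) : Y3 := by
  intro A B k σ σ' hA hB hk hσ hσ'
  obtain ⟨hx, -, hxb⟩ := hY1 A B k σ hA hB hk hσ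
  obtain ⟨hx', -, hxb'⟩ := hY1 A B k σ' hA hB hk hσ'
  set x := sysv A B k σ with hxdef
  set x' := sysv A B k σ' with hxdef'
  have he := eps_pos
  have hk3 : (0 : ℝ) < ((k : ℝ) + 1) ^ 3 := by positivity
  have hxb1 : ∀ j, ‖x j‖ ≤ 3 * eps / ((k : ℝ) + 1) ^ 3 * (4 * (j : ℝ) + 1) := fun j =>
    (hxb j).trans (le_of_eq (by ring))
  have hxb1' : ∀ j, ‖x' j‖ ≤ 3 * eps / ((k : ℝ) + 1) ^ 3 * (4 * (j : ℝ) + 1) := fun j =>
    (hxb' j).trans (le_of_eq (by ring))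
  have hab := abs_nonneg (σ - σ')
  have hc0 : 0 ≤ 4.1 * eps * |σ - σ'| / ((k : ℝ) + 1) ^ 3 := by positivity
  intro m
  have key := iter_bound (d := fun m => x m - x' m) (w := fun m : ℕ => 4 * (m : ℝ) + 1)
    (Z0 := 6 * eps / ((k : ℝ) + 1) ^ 3) (c := 4.1 * eps * |σ - σ'| / ((k : ℝ) + 1) ^ 3)
    (fun m => by positivity) hc0
    (fun j => (norm_sub_le _ _).trans ((add_le_add (hxb1 j) (hxb1' j)).trans (le_of_eq (by ring))))
    (by
      intro Z hZ j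
      have hZ0 : 0 ≤ Z := by
        have := (norm_nonneg _).trans (hZ 0)
        simpa using this
      have hw : (0 : ℝ) ≤ 4 * j + 1 := by positivity
      by_cases hj : j = 0 ∨ j = k
      · simp only [hx.2.1 j hj, hx'.2.1 j hj, sub_zero, norm_zero]
        positivity
      · rw [not_or] at hj
        have hj1 : 1 ≤ j := Nat.one_le_iff_ne_zero.2 hj.1
        rw [hx.eq_sysR hj1 hj.2, hx'.eq_sysR hj1 hj.2]
        have h1 := sysR_sub hA hB hk hj1 hj.2 hσ hxb1 hxb1' hZ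
        have h2 : ‖sysR A B k σ x' j - sysR A B k σ' x' j‖ ≤
            4.1 * eps * |σ - σ'| / ((k : ℝ) + 1) ^ 3 * (4 * (j : ℝ) + 1) := by
          rw [sysR_eq, sysR_eq, ← sub_smul, norm_smul, ← ofReal_sub,
            Complex.norm_real, Real.norm_eq_abs]
          have hP := sysP_bound hA hB hk hj1 hxb1'
          have hW := WW_lip hj1 hj.2 hσ hσ'
          have hP' : ‖sysP A B k x' j‖ ≤ 2.01 * eps / ((k : ℝ) + 1) ^ 3 := by
            refine hP.trans ?_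
            have : eps ≤ 1 / 1000 := by norm_num [eps]
            have e : 0.63 * (2 * eps) * (3 * eps / ((k : ℝ) + 1) ^ 3) =
              (0.63 * 6 * eps * eps) / ((k : ℝ) + 1) ^ 3 := by ring
            rw [e, ← add_div]
            refine div_le_div_of_nonneg_right ?_ hk3.le
            nlinarith
          refine (mul_le_mul hW hP' (norm_nonneg _) (by positivity)).trans ?_
          have e1 : 2 * |σ - σ'| * (4 * (j : ℝ) + 1) * (2.01 * eps / ((k : ℝ) + 1) ^ 3) =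
            4.02 * (eps * |σ - σ'| / ((k : ℝ) + 1) ^ 3 * (4 * (j : ℝ) + 1)) := by ring
          have e2 : 4.1 * eps * |σ - σ'| / ((k : ℝ) + 1) ^ 3 * (4 * (j : ℝ) + 1) =
            4.1 * (eps * |σ - σ'| / ((k : ℝ) + 1) ^ 3 * (4 * (j : ℝ) + 1)) := by ring
          rw [e1, e2]
          exact mul_le_mul_of_nonneg_right (by norm_num) (by positivity)
        calc ‖sysR A B k σ x j - sysR A B k σ' x' j‖
            = ‖(sysR A B k σ x j - sysR A B k σ x' j) +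
                (sysR A B k σ x' j - sysR A B k σ' x' j)‖ := by
              congr 1; abel
          _ ≤ _ := (norm_add_le _ _).trans (add_le_add h1 h2)
          _ = _ := by ring) m
  refine key.trans ?_
  have : 1.01 * (4.1 * eps * |σ - σ'| / ((k : ℝ) + 1) ^ 3) * (4 * (m : ℝ) + 1) =
    (1.01 * 4.1) * (eps * |σ - σ'| * (4 * (m : ℝ) + 1) / ((k : ℝ) + 1) ^ 3) := by ring
  rw [this]
  have h2 : 5 * eps * |σ - σ'| * (4 * (m : ℝ) + 1) / ((k : ℝ) + 1) ^ 3 =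
    5 * (eps * |σ - σ'| * (4 * (m : ℝ) + 1) / ((k : ℝ) + 1) ^ 3) := by ring
  rw [h2]
  refine mul_le_mul_of_nonneg_right (by norm_num) (by positivity)

end Pool.Agent.Stek
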