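import Pool.Agent.Stek.TSeq

/-!
# STK-Y4: bounds of `PP` and `QQ`
-/

set_option autoImplicit false

open scoped BigOperators ComplexConjugate Topology ContDiff
open Complex

noncomputable section

namespace Pool.Agent.Stek

namespace Y4aux

theorem rr_pos : 0 < rr := by unfold rr; positivity

theorem norm_rr : ‖(rr : ℂ)‖ = rr := by
  rw [Complex.norm_real, Real.norm_eq_abs, abs_of_pos rr_pos]

/-- Two numbers bounded by `M` with distance at most `D`. -/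
structure BL (z z' : ℂ) (M D : ℝ) : Prop where
  a : ‖z‖ ≤ M
  b : ‖z'‖ ≤ M
  c : ‖z - z'‖ ≤ D

theorem BL.conj {z z' : ℂ} {M D : ℝ} (h : BL z z' M D) :
    BL (conj z) (conj z') M D := by
  refine ⟨?_, ?_, ?_⟩
  · rw [RCLike.norm_conj]; exact h.a
  · rw [RCLike.norm_conj]; exact h.b
  · rw [← map_sub, RCLike.norm_conj]; exact h.c

theorem BL.add {z z' w w' : ℂ} {M D N E : ℝ} (h : BL z z' M D) (k : BL w w' N E) :
    BL (z + w) (z' + w') (M + N) (D + E) := by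
  refine ⟨(norm_add_le _ _).trans (add_le_add h.a k.a), (norm_add_le _ _).trans
    (add_le_add h.b k.b), ?_⟩
  rw [add_sub_add_comm]
  exact (norm_add_le _ _).trans (add_le_add h.c k.c)

theorem BL.mul {z z' w w' : ℂ} {M D N E : ℝ} (h : BL z z' M D) (k : BL w w' N E) :
    BL (z * w) (z' * w') (M * N) (D * N + M * E) := by
  have hM : 0 ≤ M := (norm_nonneg _).trans h.a
  have hN : 0 ≤ N := (norm_nonneg _).trans k.a
  have hD : 0 ≤ D := (norm_nonneg _).trans h.c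
  refine ⟨?_, ?_, ?_⟩
  · rw [norm_mul]; exact mul_le_mul h.a k.a (norm_nonneg _) hM
  · rw [norm_mul]; exact mul_le_mul h.b k.b (norm_nonneg _) hM
  · rw [show z * w - z' * w' = (z - z') * w + z' * (w - w') by ring]
    refine (norm_add_le _ _).trans (add_le_add ?_ ?_)
    · rw [norm_mul]; exact mul_le_mul h.c k.a (norm_nonneg _) hD
    · rw [norm_mul]; exact mul_le_mul h.b k.c (norm_nonneg _) hM

theorem BL.const (z : ℂ) (M : ℝ) (h : ‖z‖ ≤ M) : BL z z M 0 :=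
  ⟨h, h, by simp⟩

theorem BL.mono {z z' : ℂ} {M D M' D' : ℝ} (h : BL z z' M D) (hM : M ≤ M') (hD : D ≤ D') :
    BL z z' M' D' := ⟨h.a.trans hM, h.b.trans hM, h.c.trans hD⟩

theorem BL.symm {z z' : ℂ} {M D : ℝ} (h : BL z z' M D) : BL z' z M D :=
  ⟨h.b, h.a, by rw [norm_sub_rev]; exact h.c⟩

/-- The weights of the series. -/
def wt (j : ℕ) : ℂ := (j : ℂ) * rr ^ (2 * j - 2)

theorem wt_bound (n : ℕ) : ‖wt (n + 1)‖ * (4 * ((n + 1 : ℕ) : ℝ) + 1) ≤ 5 * (4 * rr ^ 2) ^ n := by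
  have e : 2 * (n + 1) - 2 = 2 * n := by omega
  rw [wt, e, norm_mul, norm_pow, norm_rr, Complex.norm_natCast, mul_pow, pow_mul]
  have h : ((n : ℝ) + 1) * (4 * (n + 1) + 1) ≤ 5 * 4 ^ n := by
    clear e
    induction n with
    | zero => norm_num
    | succ m ih =>
      have : (0 : ℝ) ≤ m := by positivity
      rw [pow_succ]
      push_cast at ih ⊢
      nlinarith
  have h0 : 0 ≤ (rr ^ 2) ^ n := by positivity
  push_cast
  calc ((n : ℝ) + 1) * (rr ^ 2) ^ n * (4 * (n + 1) + 1)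
      = (((n : ℝ) + 1) * (4 * (n + 1) + 1)) * (rr ^ 2) ^ n := by ring
    _ ≤ (5 * 4 ^ n) * (rr ^ 2) ^ n := mul_le_mul_of_nonneg_right h h0
    _ = 5 * (4 ^ n * (rr ^ 2) ^ n) := by ring

theorem q_lt : 4 * rr ^ 2 < 1 := by unfold rr; norm_num

theorem q_nonneg : 0 ≤ 4 * rr ^ 2 := by positivity

theorem hasSum_bd (X : ℝ) :
    HasSum (fun n : ℕ => 5 * (4 * rr ^ 2) ^ n * X) (5 * (1 - 4 * rr ^ 2)⁻¹ * X) :=
  ((hasSum_geometric_of_lt_one q_nonneg q_lt).mul_left 5).mul_right X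

theorem c501 : 5 * (1 - 4 * rr ^ 2)⁻¹ ≤ 5.01 := by unfold rr; norm_num

theorem term_bound (f : ℕ → ℂ) (X : ℝ) (hf : ∀ j, 1 ≤ j → ‖f j‖ ≤ X * (4 * j + 1)) (n : ℕ) :
    ‖wt (n + 1) * f (n + 1)‖ ≤ 5 * (4 * rr ^ 2) ^ n * X := by
  have hX : 0 ≤ X := by
    have := (norm_nonneg _).trans (hf 1 le_rfl)
    push_cast at this; linarith
  rw [norm_mul]
  calc ‖wt (n + 1)‖ * ‖f (n + 1)‖ ≤ ‖wt (n + 1)‖ * (X * (4 * ((n + 1 : ℕ) : ℝ) + 1)) := by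
        gcongr; exact hf (n + 1) (by omega)
    _ = (‖wt (n + 1)‖ * (4 * ((n + 1 : ℕ) : ℝ) + 1)) * X := by ring
    _ ≤ 5 * (4 * rr ^ 2) ^ n * X := mul_le_mul_of_nonneg_right (wt_bound n) hX

theorem wsummable (f : ℕ → ℂ) (X : ℝ) (hf : ∀ j, 1 ≤ j → ‖f j‖ ≤ X * (4 * j + 1)) :
    Summable (fun j => wt j * f j) := by
  rw [← summable_nat_add_iff 1]
  exact Summable.of_norm_bounded (hasSum_bd X).summable (term_bound f X hf)

theorem wsum_eq (f : ℕ → ℂ) (X : ℝ) (hf : ∀ j, 1 ≤ j → ‖f j‖ ≤ X * (4 * j + 1)) :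
    ∑' j, wt j * f j = ∑' n, wt (n + 1) * f (n + 1) := by
  rw [← (wsummable f X hf).sum_add_tsum_nat_add 1]
  simp [wt]

theorem wsum_norm (f : ℕ → ℂ) (X : ℝ) (hf : ∀ j, 1 ≤ j → ‖f j‖ ≤ X * (4 * j + 1)) :
    ‖∑' j, wt j * f j‖ ≤ 5.01 * X := by
  have hX : 0 ≤ X := by
    have := (norm_nonneg _).trans (hf 1 le_rfl)
    push_cast at this; linarith
  rw [wsum_eq f X hf]
  refine (tsum_of_norm_bounded (hasSum_bd X) (term_bound f X hf)).trans ?_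
  exact mul_le_mul_of_nonneg_right c501 hX

/-- The part of the sum with `j ≥ 2`. -/
theorem wsum_tail (f : ℕ → ℂ) (X : ℝ) (hf : ∀ j, 1 ≤ j → ‖f j‖ ≤ X * (4 * j + 1)) :
    ‖∑' j, wt j * f j - f 1‖ ≤ 21 * rr ^ 2 * X := by
  have hX : 0 ≤ X := by
    have := (norm_nonneg _).trans (hf 1 le_rfl)
    push_cast at this; linarith
  have hs := (summable_nat_add_iff 1).2 (wsummable f X hf)
  rw [wsum_eq f X hf, ← hs.sum_add_tsum_nat_add 1]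
  simp only [Finset.range_one, Finset.sum_singleton]
  have e : wt (0 + 1) * f (0 + 1) = f 1 := by simp [wt]
  rw [e, add_sub_cancel_left]
  have hb : HasSum (fun n : ℕ => 5 * (4 * rr ^ 2) ^ (n + 1) * X)
      (4 * rr ^ 2 * (5 * (1 - 4 * rr ^ 2)⁻¹ * X)) := by
    have := (hasSum_bd X).mul_left (4 * rr ^ 2)
    refine this.congr_fun ?_ |> fun h => h
    intro n
    ring
  refine (tsum_of_norm_bounded hb (fun n => term_bound f X hf (n + 1))).trans ?_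
  have h1 := mul_le_mul_of_nonneg_right c501 hX
  have h2 : 0 ≤ rr ^ 2 := by positivity
  calc 4 * rr ^ 2 * (5 * (1 - 4 * rr ^ 2)⁻¹ * X) ≤ 4 * rr ^ 2 * (5.01 * X) := by gcongr
    _ ≤ 21 * rr ^ 2 * X := by nlinarith [mul_nonneg h2 hX]

/-- The calculus for the sums. -/
theorem BL.tsum {f f' : ℕ → ℂ} {X Y : ℝ} (h : ∀ j : ℕ, 1 ≤ j →
    BL (f j) (f' j) (X * (4 * j + 1)) (Y * (4 * j + 1))) :
    BL (∑' j, wt j * f j) (∑' j, wt j * f' j) (5.01 * X) (5.01 * Y) := by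
  refine ⟨wsum_norm f X fun j hj => (h j hj).a, wsum_norm f' X fun j hj => (h j hj).b, ?_⟩
  rw [← (wsummable f X fun j hj => (h j hj).a).tsum_sub (wsummable f' X fun j hj => (h j hj).b)]
  have e : (fun j => wt j * f j - wt j * f' j) = fun j => wt j * (f j - f' j) := by
    ext j; ring
  rw [e]
  exact wsum_norm (fun j => f j - f' j) Y fun j hj => (h j hj).c

/-- The two kinds of sums. -/
def sP (A B : ℕ → ℕ → ℂ) (x : ℕ → ℂ × ℂ) (m j : ℕ) : ℂ :=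
  conj (A j m) * conj (x j).2 + rr ^ 4 * conj (B j m) * (x j).1

def sQ (A B : ℕ → ℕ → ℂ) (x : ℕ → ℂ × ℂ) (m j : ℕ) : ℂ :=
  conj (A j m) * conj (x j).1 + conj (B j m) * (x j).2

theorem PP_eq (A B : ℕ → ℕ → ℂ) (k : ℕ) (σ : ℝ) :
    PP A B k σ = conj (B k k) + ∑' j, wt j * sP A B (sysv A B k σ) k j := rfl

theorem QQ_eq (A B : ℕ → ℕ → ℂ) (k : ℕ) (σ : ℝ) :
    QQ A B k σ = ∑' j, wt j * sQ A B (sysv A B k σ) k j := rfl

theorem fst_le {x : ℂ × ℂ} {c : ℝ} (h : ‖x‖ ≤ c) : ‖x.1‖ ≤ c := (norm_fst_le x).trans h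

theorem snd_le {x : ℂ × ℂ} {c : ℝ} (h : ‖x‖ ≤ c) : ‖x.2‖ ≤ c := (norm_snd_le x).trans h

/-- The bounds of the terms. -/
theorem sP_BL {A B A' B' : ℕ → ℕ → ℂ} {x x' : ℕ → ℂ × ℂ} {m : ℕ} {a b X α β ξ : ℝ} {j : ℕ}
    (hA : BL (A j m) (A' j m) a α) (hB : BL (B j m) (B' j m) b β)
    (hx : ‖x j‖ ≤ X * (4 * j + 1)) (hx' : ‖x' j‖ ≤ X * (4 * j + 1))
    (hxx : ‖x j - x' j‖ ≤ ξ * (4 * j + 1)) :
    BL (sP A B x m j) (sP A' B' x' m j) ((a * X + rr ^ 4 * (b * X)) * (4 * j + 1))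
      ((α * X + a * ξ + rr ^ 4 * (β * X + b * ξ)) * (4 * j + 1)) := by
  have h1 : BL (x j).1 (x' j).1 (X * (4 * j + 1)) (ξ * (4 * j + 1)) :=
    ⟨fst_le hx, fst_le hx', fst_le hxx⟩
  have h2 : BL (x j).2 (x' j).2 (X * (4 * j + 1)) (ξ * (4 * j + 1)) :=
    ⟨snd_le hx, snd_le hx', snd_le hxx⟩
  have h4 : BL ((rr : ℂ) ^ 4) ((rr : ℂ) ^ 4) (rr ^ 4) 0 :=
    BL.const _ _ (by rw [norm_pow, norm_rr])
  refine ((hA.conj.mul h2.conj).add ((h4.mul hB.conj).mul h1)).mono (le_of_eq ?_) (le_of_eq ?_) <;>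
    ring

theorem sQ_BL {A B A' B' : ℕ → ℕ → ℂ} {x x' : ℕ → ℂ × ℂ} {m : ℕ} {a b X α β ξ : ℝ} {j : ℕ}
    (hA : BL (A j m) (A' j m) a α) (hB : BL (B j m) (B' j m) b β)
    (hx : ‖x j‖ ≤ X * (4 * j + 1)) (hx' : ‖x' j‖ ≤ X * (4 * j + 1))
    (hxx : ‖x j - x' j‖ ≤ ξ * (4 * j + 1)) :
    BL (sQ A B x m j) (sQ A' B' x' m j) ((a * X + b * X) * (4 * j + 1))
      ((α * X + a * ξ + (β * X + b * ξ)) * (4 * j + 1)) := by
  have h1 : BL (x j).1 (x' j).1 (X * (4 * j + 1)) (ξ * (4 * j + 1)) :=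
    ⟨fst_le hx, fst_le hx', fst_le hxx⟩
  have h2 : BL (x j).2 (x' j).2 (X * (4 * j + 1)) (ξ * (4 * j + 1)) :=
    ⟨snd_le hx, snd_le hx', snd_le hxx⟩
  refine ((hA.conj.mul h1.conj).add (hB.conj.mul h2)).mono (le_of_eq ?_) (le_of_eq ?_) <;>
    ring

theorem kb_col {M : ℝ} {A : ℕ → ℕ → ℂ} (h : Kb M A) (hM : 0 ≤ M) {j m : ℕ} (hj : 1 ≤ j)
    (hm : 1 ≤ m) : ‖A j m‖ ≤ M / ((m : ℝ) + 1) ^ 3 := by
  refine (h j m hj hm).trans ?_
  have h1 : (1 : ℝ) ≤ j := by exact_mod_cast hj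
  have h2 : ((m : ℝ) + 1) ^ 3 ≤ ((j : ℝ) + m) ^ 3 :=
    pow_le_pow_left₀ (by positivity) (by linarith) 3
  exact div_le_div_of_nonneg_left hM (by positivity) h2

theorem kb_nonneg {M : ℝ} {A : ℕ → ℕ → ℂ} (h : Kb M A) : 0 ≤ M := by
  have := (norm_nonneg _).trans (h 1 1 le_rfl le_rfl)
  norm_num at this
  linarith

end Y4aux

open Y4aux

theorem y4 (h1 : Y1) (h3 : Y3) : Y4 := by
  intro A B k σ σ' hA hB hk hσ hσ'
  obtain ⟨-, -, hx⟩ := h1 A B k σ hA hB hk hσ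
  obtain ⟨-, -, hx'⟩ := h1 A B k σ' hA hB hk hσ'
  have hxx := h3 A B k σ σ' hA hB hk hσ hσ'
  have he : (0 : ℝ) ≤ 2 * eps := by unfold eps; norm_num
  have K0 : 0 < ((k : ℝ) + 1) ^ 3 := by positivity
  have bA : ∀ j : ℕ, 1 ≤ j → BL (A j k) (A j k) (2 * eps / ((k : ℝ) + 1) ^ 3) 0 :=
    fun j hj => BL.const _ _ (kb_col hA he hj hk)
  have bB : ∀ j : ℕ, 1 ≤ j → BL (B j k) (B j k) (2 * eps / ((k : ℝ) + 1) ^ 3) 0 :=
    fun j hj => BL.const _ _ (kb_col hB he hj hk)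
  set x := sysv A B k σ with hxd
  set x' := sysv A B k σ' with hxd'
  have e1 : ∀ m : ℕ, ‖x m‖ ≤ 3 * eps / ((k : ℝ) + 1) ^ 3 * (4 * m + 1) := by
    intro m; refine (hx m).trans (le_of_eq ?_); ring
  have e1' : ∀ m : ℕ, ‖x' m‖ ≤ 3 * eps / ((k : ℝ) + 1) ^ 3 * (4 * m + 1) := by
    intro m; refine (hx' m).trans (le_of_eq ?_); ring
  have e2 : ∀ m : ℕ, ‖x m - x' m‖ ≤ 5 * eps * |σ - σ'| / ((k : ℝ) + 1) ^ 3 * (4 * m + 1) := by
    intro m; refine (hxx m).trans (le_of_eq ?_); ring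
  have P := BL.tsum (f := sP A B x k) (f' := sP A B x' k)
    (fun j hj => sP_BL (bA j hj) (bB j hj) (e1 j) (e1' j) (e2 j))
  have Q := BL.tsum (f := sQ A B x k) (f' := sQ A B x' k)
    (fun j hj => sQ_BL (bA j hj) (bB j hj) (e1 j) (e1' j) (e2 j))
  have r4 : rr ^ 4 ≤ 1 := by unfold rr; norm_num
  have r4' : 0 ≤ rr ^ 4 := by have := rr_pos; positivity
  have ab := abs_nonneg (σ - σ')
  have K6 : ((k : ℝ) + 1) ^ 6 = ((k : ℝ) + 1) ^ 3 * ((k : ℝ) + 1) ^ 3 := by ring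
  refine ⟨?_, ?_, ?_, ?_⟩
  · rw [PP_eq, add_sub_cancel_left]
    refine P.a.trans ?_
    have : 5.01 * (2 * eps / ((k : ℝ) + 1) ^ 3 * (3 * eps / ((k : ℝ) + 1) ^ 3) +
        rr ^ 4 * (2 * eps / ((k : ℝ) + 1) ^ 3 * (3 * eps / ((k : ℝ) + 1) ^ 3))) =
        (30.06 * (1 + rr ^ 4)) * eps ^ 2 / ((k : ℝ) + 1) ^ 6 := by
      rw [K6]; field_simp; ring
    rw [this]
    gcongr
    linarith
  · rw [QQ_eq]
    refine Q.a.trans ?_
    have : 5.01 * (2 * eps / ((k : ℝ) + 1) ^ 3 * (3 * eps / ((k : ℝ) + 1) ^ 3) +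
        (2 * eps / ((k : ℝ) + 1) ^ 3 * (3 * eps / ((k : ℝ) + 1) ^ 3))) =
        60.12 * eps ^ 2 / ((k : ℝ) + 1) ^ 6 := by
      rw [K6]; field_simp; ring
    rw [this]
    gcongr
    norm_num
  · rw [PP_eq, PP_eq, add_sub_add_left_eq_sub]
    refine P.c.trans ?_
    have : 5.01 * (0 * (3 * eps / ((k : ℝ) + 1) ^ 3) + 2 * eps / ((k : ℝ) + 1) ^ 3 *
        (5 * eps * |σ - σ'| / ((k : ℝ) + 1) ^ 3) + rr ^ 4 * (0 * (3 * eps / ((k : ℝ) + 1) ^ 3) +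
        2 * eps / ((k : ℝ) + 1) ^ 3 * (5 * eps * |σ - σ'| / ((k : ℝ) + 1) ^ 3))) =
        (50.1 * (1 + rr ^ 4)) * eps ^ 2 * |σ - σ'| / ((k : ℝ) + 1) ^ 6 := by
      rw [K6]; field_simp; ring
    rw [this]
    gcongr
    linarith
  · rw [QQ_eq, QQ_eq]
    refine Q.c.trans ?_
    have : 5.01 * (0 * (3 * eps / ((k : ℝ) + 1) ^ 3) + 2 * eps / ((k : ℝ) + 1) ^ 3 *
        (5 * eps * |σ - σ'| / ((k : ℝ) + 1) ^ 3) + (0 * (3 * eps / ((k : ℝ) + 1) ^ 3) +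
        2 * eps / ((k : ℝ) + 1) ^ 3 * (5 * eps * |σ - σ'| / ((k : ℝ) + 1) ^ 3))) =
        100.2 * eps ^ 2 * |σ - σ'| / ((k : ℝ) + 1) ^ 6 := by
      rw [K6]; field_simp; ring
    rw [this]
    gcongr
    norm_num

end Pool.Agent.Stek
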