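import Pool.Agent.Stek.PY4

/-!
# STK-Y4b: variation of `PP` and `QQ` with the kernels
-/

set_option autoImplicit false

open scoped BigOperators ComplexConjugate Topology ContDiff
open Complex

noncomputable section

namespace Pool.Agent.Stek

open Y4aux

namespace Y4aux

theorem pb_to_kb {M : ℝ} {B : ℕ → ℕ → ℂ} (h : Pb M B) (hM : 0 ≤ M) : Kb (8 * M) B := by
  intro j k hj hk
  refine (h j k hj hk).trans ?_
  have h1 : (1 : ℝ) ≤ j := by exact_mod_cast hj
  have h2 : (1 : ℝ) ≤ k := by exact_mod_cast hk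
  have h3 : (j : ℝ) + k ≤ 2 * (j * k) := by nlinarith
  have h4 : ((j : ℝ) + k) ^ 3 ≤ (2 * (j * k)) ^ 3 := by gcongr
  rw [div_le_div_iff₀ (by positivity) (by positivity)]
  calc M * ((j : ℝ) + k) ^ 3 ≤ M * (2 * (j * k)) ^ 3 := by
        exact mul_le_mul_of_nonneg_left h4 hM
    _ = 8 * M * ((j : ℝ) * k) ^ 3 := by ring

theorem kb_mono {M N : ℝ} {B : ℕ → ℕ → ℂ} (h : Kb M B) (hM : M ≤ N) : Kb N B := by
  intro j k hj hk
  refine (h j k hj hk).trans ?_
  gcongr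

end Y4aux

theorem y4b (h1 : Y1) (h2 : Y2) : Y4b := by
  intro A B A' B' k σ D hA hB hA' hB' hk hσ hAA hBB
  have he : (0 : ℝ) < eps := by unfold eps; norm_num
  have hr := rr_pos
  have hD : 0 ≤ D := kb_nonneg hAA
  have kB : Kb (2 * eps) B := kb_mono (pb_to_kb hB hr.le) (by unfold rr eps; norm_num)
  have kB' : Kb (2 * eps) B' := kb_mono (pb_to_kb hB' hr.le) (by unfold rr eps; norm_num)
  have kBB : Kb (8 * D) (fun j k => B j k - B' j k) := pb_to_kb hBB hD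
  have kAA : Kb (8 * D) (fun j k => A j k - A' j k) := kb_mono hAA (by linarith)
  obtain ⟨hs, -, hx⟩ := h1 A B k σ hA kB hk hσ
  obtain ⟨hs', -, hx'⟩ := h1 A' B' k σ hA' kB' hk hσ
  have hxx := h2 A B A' B' k σ (8 * D) hA kB hA' kB' hk hσ kAA kBB
  have bA : ∀ j m : ℕ, 1 ≤ j → 1 ≤ m →
      BL (A j m) (A' j m) (2 * eps / ((m : ℝ) + 1) ^ 3) (D / ((m : ℝ) + 1) ^ 3) :=
    fun j m hj hm => ⟨kb_col hA (by positivity) hj hm, kb_col hA' (by positivity) hj hm,
      kb_col hAA hD hj hm⟩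
  have bB : ∀ j m : ℕ, 1 ≤ j → 1 ≤ m →
      BL (B j m) (B' j m) (2 * eps / ((m : ℝ) + 1) ^ 3) (8 * D / ((m : ℝ) + 1) ^ 3) :=
    fun j m hj hm => ⟨kb_col kB (by positivity) hj hm, kb_col kB' (by positivity) hj hm,
      kb_col kBB (by positivity) hj hm⟩
  set x := sysv A B k σ with hxd
  set x' := sysv A' B' k σ with hxd'
  have e1 : ∀ m : ℕ, ‖x m‖ ≤ 3 * eps / ((k : ℝ) + 1) ^ 3 * (4 * m + 1) := by
    intro m; refine (hx m).trans (le_of_eq ?_); ring
  have e1' : ∀ m : ℕ, ‖x' m‖ ≤ 3 * eps / ((k : ℝ) + 1) ^ 3 * (4 * m + 1) := by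
    intro m; refine (hx' m).trans (le_of_eq ?_); ring
  have e2 : ∀ m : ℕ, ‖x m - x' m‖ ≤ 16 * D / ((k : ℝ) + 1) ^ 3 * (4 * m + 1) := by
    intro m; refine (hxx m).trans (le_of_eq ?_); ring
  have P := BL.tsum (f := sP A B x k) (f' := sP A' B' x' k)
    (fun j hj => sP_BL (bA j k hj hk) (bB j k hj hk) (e1 j) (e1' j) (e2 j))
  have Q := BL.tsum (f := sQ A B x k) (f' := sQ A' B' x' k)
    (fun j hj => sQ_BL (bA j k hj hk) (bB j k hj hk) (e1 j) (e1' j) (e2 j))
  have r4 : rr ^ 4 ≤ 1 := by unfold rr; norm_num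
  have r4' : 0 ≤ rr ^ 4 := by positivity
  have K0 : 0 < ((k : ℝ) + 1) ^ 3 := by positivity
  have K6 : ((k : ℝ) + 1) ^ 6 = ((k : ℝ) + 1) ^ 3 * ((k : ℝ) + 1) ^ 3 := by ring
  refine ⟨?_, ?_, ?_⟩
  · rw [QQ_eq, QQ_eq]
    refine Q.c.trans ?_
    have : 5.01 * (D / ((k : ℝ) + 1) ^ 3 * (3 * eps / ((k : ℝ) + 1) ^ 3) +
        2 * eps / ((k : ℝ) + 1) ^ 3 * (16 * D / ((k : ℝ) + 1) ^ 3) +
        (8 * D / ((k : ℝ) + 1) ^ 3 * (3 * eps / ((k : ℝ) + 1) ^ 3) +
        2 * eps / ((k : ℝ) + 1) ^ 3 * (16 * D / ((k : ℝ) + 1) ^ 3))) =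
        455.91 * eps * D / ((k : ℝ) + 1) ^ 6 := by
      rw [K6]; field_simp; ring
    rw [this]
    gcongr
    norm_num
  · rw [PP_eq, PP_eq, add_sub_cancel_left, add_sub_cancel_left]
    refine P.c.trans ?_
    have : 5.01 * (D / ((k : ℝ) + 1) ^ 3 * (3 * eps / ((k : ℝ) + 1) ^ 3) +
        2 * eps / ((k : ℝ) + 1) ^ 3 * (16 * D / ((k : ℝ) + 1) ^ 3) +
        rr ^ 4 * (8 * D / ((k : ℝ) + 1) ^ 3 * (3 * eps / ((k : ℝ) + 1) ^ 3) +
        2 * eps / ((k : ℝ) + 1) ^ 3 * (16 * D / ((k : ℝ) + 1) ^ 3))) =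
        (175.35 + 280.56 * rr ^ 4) * eps * D / ((k : ℝ) + 1) ^ 6 := by
      rw [K6]; field_simp; ring
    rw [this]
    gcongr
    linarith
  · rw [PP_eq, PP_eq, add_sub_cancel_left, add_sub_cancel_left, ← hxd, ← hxd']
    -- the terms with `j ≥ 2`
    have hdiff : ∀ j : ℕ, 1 ≤ j → ‖sP A B x k j - sP A' B' x' k j‖ ≤ _ := fun j hj =>
      (sP_BL (bA j k hj hk) (bB j k hj hk) (e1 j) (e1' j) (e2 j)).c
    have sum1 : Summable (fun j => wt j * sP A B x k j) := wsummable _ _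
      (fun j hj => (sP_BL (bA j k hj hk) (bB j k hj hk) (e1 j) (e1' j) (e2 j)).a)
    have sum2 : Summable (fun j => wt j * sP A' B' x' k j) := wsummable _ _
      (fun j hj => (sP_BL (bA j k hj hk) (bB j k hj hk) (e1 j) (e1' j) (e2 j)).b)
    have T := wsum_tail (fun j => sP A B x k j - sP A' B' x' k j) _ hdiff
    have e3 : ∑' j, wt j * (sP A B x k j - sP A' B' x' k j) =
        ∑' j, wt j * sP A B x k j - ∑' j, wt j * sP A' B' x' k j := by
      rw [← sum1.tsum_sub sum2]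
      congr 1
      ext j; ring
    rw [e3] at T
    -- the term `j = 1`
    have hone : ‖(sP A B x k 1 - (if k = 1 then 0 else WW σ 1 * (conj (A 1 k) * A k 1))) -
        (sP A' B' x' k 1 - (if k = 1 then 0 else WW σ 1 * (conj (A' 1 k) * A' k 1)))‖ ≤
        rr ^ 4 * (1000 * eps * D) / ((k : ℝ) + 1) ^ 6 := by
      by_cases hk1 : k = 1
      · have z1 : x 1 = 0 := hs.2.1 1 (Or.inr hk1.symm)
        have z2 : x' 1 = 0 := hs'.2.1 1 (Or.inr hk1.symm)
        simp only [sP, z1, z2, if_pos hk1]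
        simp
        positivity
      · rw [if_neg hk1, if_neg hk1]
        have s1 := (hs.2.2 1 le_rfl (fun h => hk1 h.symm)).2
        have s2 := (hs'.2.2 1 le_rfl (fun h => hk1 h.symm)).2
        have S := BL.tsum (f := sQ A B x 1) (f' := sQ A' B' x' 1)
          (fun j hj => sQ_BL (bA j 1 hj le_rfl) (bB j 1 hj le_rfl) (e1 j) (e1' j) (e2 j))
        have u1 : (x 1).2 = WW σ 1 * (conj (A k 1) + rr ^ 4 * ∑' j, wt j * sQ A B x 1 j) := s1
        have u2 : (x' 1).2 = WW σ 1 * (conj (A' k 1) + rr ^ 4 * ∑' j, wt j * sQ A' B' x' 1 j) :=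
          s2
        have v1 : sP A B x k 1 - WW σ 1 * (conj (A 1 k) * A k 1) = (rr : ℂ) ^ 4 *
            ((WW σ 1 : ℂ) * (conj (A 1 k) * conj (∑' j, wt j * sQ A B x 1 j)) +
              conj (B 1 k) * (x 1).1) := by
          rw [sP, u1]
          simp only [map_mul, map_add, Complex.conj_conj, map_pow, Complex.conj_ofReal]
          ring
        have v2 : sP A' B' x' k 1 - WW σ 1 * (conj (A' 1 k) * A' k 1) = (rr : ℂ) ^ 4 *
            ((WW σ 1 : ℂ) * (conj (A' 1 k) * conj (∑' j, wt j * sQ A' B' x' 1 j)) +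
              conj (B' 1 k) * (x' 1).1) := by
          rw [sP, u2]
          simp only [map_mul, map_add, Complex.conj_conj, map_pow, Complex.conj_ofReal]
          ring
        have k2 : (2 : ℝ) ≤ k := by
          have : 2 ≤ k := by omega
          exact_mod_cast this
        have as := abs_le.1 hσ
        have hW : ‖(WW σ 1 : ℂ)‖ ≤ 5 := by
          rw [Complex.norm_real, Real.norm_eq_abs, WW, abs_div]
          have p1 : (1 : ℝ) / 2 ≤ σ - 1 := by linarith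
          push_cast
          rw [abs_of_pos (by linarith : (0 : ℝ) < 1 + σ), abs_sub_comm,
            abs_of_pos (by linarith : (0 : ℝ) < σ - 1), div_le_iff₀ (by linarith)]
          linarith
        have W : BL (WW σ 1 : ℂ) (WW σ 1 : ℂ) 5 0 := BL.const _ _ hW
        have X1 : BL (x 1).1 (x' 1).1 (3 * eps / ((k : ℝ) + 1) ^ 3 * (4 * (1 : ℕ) + 1))
            (16 * D / ((k : ℝ) + 1) ^ 3 * (4 * (1 : ℕ) + 1)) :=
          ⟨fst_le (e1 1), fst_le (e1' 1), fst_le (e2 1)⟩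
        have R4 : BL ((rr : ℂ) ^ 4) ((rr : ℂ) ^ 4) (rr ^ 4) 0 :=
          BL.const _ _ (by rw [norm_pow, norm_rr])
        have fin := R4.mul ((W.mul ((bA 1 k le_rfl hk).conj.mul S.conj)).add
          ((bB 1 k le_rfl hk).conj.mul X1))
        rw [v1, v2]
        refine fin.c.trans ?_
        push_cast
        have he2 : eps = 1 / 10 ^ 6 := rfl
        have : 0 ≤ eps * D := by positivity
        have key : ∀ c : ℝ, c ≤ 1000 * eps * D * (1 / ((k : ℝ) + 1) ^ 6) →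
            rr ^ 4 * c ≤ rr ^ 4 * (1000 * eps * D) / ((k : ℝ) + 1) ^ 6 := by
          intro c hc
          calc rr ^ 4 * c ≤ rr ^ 4 * (1000 * eps * D * (1 / ((k : ℝ) + 1) ^ 6)) := by gcongr
            _ = rr ^ 4 * (1000 * eps * D) / ((k : ℝ) + 1) ^ 6 := by ring
        rw [zero_mul, zero_add]
        apply key
        rw [K6]
        set K := ((k : ℝ) + 1) ^ 3 with hK
        have kk : 0 < 1 / K := by positivity
        have expr : (0 : ℝ) * (2 * eps / K * (5.01 * (2 * eps / (1 + 1) ^ 3 * (3 * eps / K) +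
            2 * eps / (1 + 1) ^ 3 * (3 * eps / K)))) +
            5 * (D / K * (5.01 * (2 * eps / (1 + 1) ^ 3 * (3 * eps / K) +
            2 * eps / (1 + 1) ^ 3 * (3 * eps / K))) +
            2 * eps / K * (5.01 * (D / (1 + 1) ^ 3 * (3 * eps / K) + 2 * eps / (1 + 1) ^ 3 *
            (16 * D / K) + (8 * D / (1 + 1) ^ 3 * (3 * eps / K) +
            2 * eps / (1 + 1) ^ 3 * (16 * D / K))))) +
            (8 * D / K * (3 * eps / K * (4 * 1 + 1)) + 2 * eps / K * (16 * D / K * (4 * 1 + 1))) =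
            (607.46250 * eps + 280) * (eps * D) * (1 / (K * K)) := by
          field_simp
          ring
        rw [expr]
        have : (607.46250 * eps + 280) * (eps * D) ≤ 1000 * eps * D := by
          rw [show 1000 * eps * D = 1000 * (eps * D) by ring]
          apply mul_le_mul_of_nonneg_right _ this
          rw [he2]; norm_num
        gcongr
    -- conclusion
    have fin : (∑' j, wt j * sP A B x k j -
        (if k = 1 then 0 else (WW σ 1 : ℂ) * (conj (A 1 k) * A k 1))) -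
        (∑' j, wt j * sP A' B' x' k j -
        (if k = 1 then 0 else (WW σ 1 : ℂ) * (conj (A' 1 k) * A' k 1))) =
        (∑' j, wt j * sP A B x k j - ∑' j, wt j * sP A' B' x' k j -
          (sP A B x k 1 - sP A' B' x' k 1)) +
        ((sP A B x k 1 - (if k = 1 then 0 else WW σ 1 * (conj (A 1 k) * A k 1))) -
        (sP A' B' x' k 1 - (if k = 1 then 0 else WW σ 1 * (conj (A' 1 k) * A' k 1)))) := by
      ring
    rw [fin]
    refine (norm_add_le _ _).trans ((add_le_add T hone).trans ?_)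
    have E : 21 * rr ^ 2 * (D / ((k : ℝ) + 1) ^ 3 * (3 * eps / ((k : ℝ) + 1) ^ 3) +
        2 * eps / ((k : ℝ) + 1) ^ 3 * (16 * D / ((k : ℝ) + 1) ^ 3) +
        rr ^ 4 * (8 * D / ((k : ℝ) + 1) ^ 3 * (3 * eps / ((k : ℝ) + 1) ^ 3) +
        2 * eps / ((k : ℝ) + 1) ^ 3 * (16 * D / ((k : ℝ) + 1) ^ 3))) +
        rr ^ 4 * (1000 * eps * D) / ((k : ℝ) + 1) ^ 6 =
        ((735 * rr ^ 2 + 1176 * rr ^ 6 + 1000 * rr ^ 4) * eps) * (D / ((k : ℝ) + 1) ^ 6) := by
      rw [K6]; field_simp; ring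
    rw [E]
    have c : (735 * rr ^ 2 + 1176 * rr ^ 6 + 1000 * rr ^ 4) * eps ≤ rr / 100 := by
      unfold rr eps; norm_num
    calc ((735 * rr ^ 2 + 1176 * rr ^ 6 + 1000 * rr ^ 4) * eps) * (D / ((k : ℝ) + 1) ^ 6)
        ≤ (rr / 100) * (D / ((k : ℝ) + 1) ^ 6) := by gcongr
      _ = rr * D / ((k : ℝ) + 1) ^ 6 / 100 := by ring

end Pool.Agent.Stek
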