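import Pool.Agent.Stek.TSeq

/-!
# Y5: variation of the two combinations of the values of `Psi`
-/

open scoped BigOperators ComplexConjugate Topology ContDiff
open Complex

noncomputable section

namespace Pool.Agent.Stek

namespace HY5

theorem exp1 (A Q : ℂ) (c : ℝ) :
    ‖conj A + (c : ℂ) * Q‖ ^ 2 = ‖A‖ ^ 2 + 2 * c * (A * Q).re + c ^ 2 * ‖Q‖ ^ 2 := by
  rw [Complex.sq_norm, Complex.sq_norm, Complex.sq_norm, Complex.normSq_apply,
    Complex.normSq_apply, Complex.normSq_apply]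
  simp only [Complex.add_re, Complex.add_im, Complex.mul_re, Complex.mul_im, Complex.conj_re,
    Complex.conj_im, Complex.ofReal_re, Complex.ofReal_im]
  ring

theorem exp2 (T c : ℝ) (P : ℂ) :
    ‖(T : ℂ) - (c : ℂ) * P‖ ^ 2 = T ^ 2 - 2 * c * T * P.re + c ^ 2 * ‖P‖ ^ 2 := by
  rw [Complex.sq_norm, Complex.sq_norm, Complex.normSq_apply, Complex.normSq_apply]
  simp only [Complex.sub_re, Complex.sub_im, Complex.mul_re, Complex.mul_im, Complex.ofReal_re,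
    Complex.ofReal_im]
  ring

theorem Psi_eq (A B : ℕ → ℕ → ℂ) (k : ℕ) (σ : ℝ) :
    Psi A B k σ = ‖A k k‖ ^ 2 + 2 * rr ^ 4 * (A k k * QQ A B k σ).re
      + rr ^ 8 * ‖QQ A B k σ‖ ^ 2 - TT k σ ^ 2 + 2 * rr ^ 2 * TT k σ * (PP A B k σ).re
      - rr ^ 4 * ‖PP A B k σ‖ ^ 2 := by
  have h1 := exp1 (A k k) (QQ A B k σ) (rr ^ 4)
  have h2 := exp2 (TT k σ) (rr ^ 2) (PP A B k σ)
  push_cast at h1 h2
  unfold Psi
  rw [h1, h2]
  ring

theorem sqd (x y : ℂ) (a b : ℝ) (hx : ‖x‖ + ‖y‖ ≤ a) (hb : ‖x - y‖ ≤ b) :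
    |‖x‖ ^ 2 - ‖y‖ ^ 2| ≤ a * b := by
  have h1 : |‖x‖ - ‖y‖| ≤ b := (abs_norm_sub_norm_le x y).trans hb
  have e : ‖x‖ ^ 2 - ‖y‖ ^ 2 = (‖x‖ + ‖y‖) * (‖x‖ - ‖y‖) := by ring
  rw [e, abs_mul, abs_of_nonneg (by positivity)]
  exact mul_le_mul hx h1 (abs_nonneg _) (le_trans (by positivity) hx)

theorem red (A A' Q Q' : ℂ) (b : ℝ) (h : ‖A - A'‖ * ‖Q‖ + ‖A'‖ * ‖Q - Q'‖ ≤ b) :
    ‖A * Q - A' * Q'‖ ≤ b := by
  have e : A * Q - A' * Q' = (A - A') * Q + A' * (Q - Q') := by ring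
  rw [e]
  refine (norm_add_le _ _).trans ?_
  rw [norm_mul, norm_mul]
  exact h

theorem dbcore (T : ℝ) (P P' : ℂ) (d a q p : ℝ) (hd : 0 ≤ d) (hT : |T| ≤ 1)
    (ha : |a| ≤ 2 * d) (hq : |q| ≤ 2 * d) (hp : |p| ≤ 130 * d)
    (hP : ‖P - P'‖ ≤ 65 * d) :
    |2 * rr ^ 4 * a + rr ^ 8 * q + 2 * rr ^ 2 * T * (P.re - P'.re) - rr ^ 4 * p| ≤ rr * d := by
  have h1 : |T * (P.re - P'.re)| ≤ 65 * d := by
    rw [abs_mul, ← Complex.sub_re]
    have := (Complex.abs_re_le_norm (P - P')).trans hP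
    calc |T| * |(P - P').re| ≤ 1 * (65 * d) := mul_le_mul hT this (abs_nonneg _) zero_le_one
      _ = _ := one_mul _
  rw [abs_le] at ha hq hp h1 ⊢
  unfold rr
  constructor <;> nlinarith [ha.1, ha.2, hq.1, hq.2, hp.1, hp.2, h1.1, h1.2]

theorem pb_kb {B : ℕ → ℕ → ℂ} (hB : Pb rr B) : Kb (2 * eps) B := by
  intro j k hj hk
  refine (hB j k hj hk).trans ?_
  have hj' : (1 : ℝ) ≤ j := by exact_mod_cast hj
  have hk' : (1 : ℝ) ≤ k := by exact_mod_cast hk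
  have h1 : (j : ℝ) + k ≤ 2 * (j * k) := by nlinarith
  have h2 : ((j : ℝ) + k) ^ 3 ≤ (2 * (j * k)) ^ 3 := by gcongr
  rw [div_le_div_iff₀ (by positivity) (by positivity)]
  have h3 : (0 : ℝ) < ((j : ℝ) * k) ^ 3 := by positivity
  have h4 : (2 * ((j : ℝ) * k)) ^ 3 = 8 * ((j : ℝ) * k) ^ 3 := by ring
  rw [h4] at h2
  unfold rr eps
  nlinarith

/-- the numerical data at `k` -/
structure Dat (A B A' B' : ℕ → ℕ → ℂ) (k : ℕ) (σ D X L : ℝ) : Prop where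
  a : ‖A k k‖ ≤ 2 * eps / L
  a' : ‖A' k k‖ ≤ 2 * eps / L
  aa : ‖A k k - A' k k‖ ≤ D / L
  bb : ‖B k k - B' k k‖ ≤ 64 * D / X
  q : ‖QQ A B k σ‖ ≤ 100 * eps ^ 2 / X
  q' : ‖QQ A' B' k σ‖ ≤ 100 * eps ^ 2 / X
  qq : ‖QQ A B k σ - QQ A' B' k σ‖ ≤ 1000 * eps * D / X
  p : ‖PP A B k σ‖ ≤ 101 * eps ^ 2 / X
  p' : ‖PP A' B' k σ‖ ≤ 101 * eps ^ 2 / X
  pp : ‖PP A B k σ - PP A' B' k σ‖ ≤ 65 * D / X

theorem geo {k : ℕ} (hk : 1 ≤ k) : (0 : ℝ) < ((k : ℝ) + 1) ^ 6 ∧ (8 : ℝ) ≤ (2 * (k : ℝ)) ^ 3 ∧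
    (2 * (k : ℝ)) ^ 3 ≤ 8 * ((k : ℝ) + 1) ^ 6 ∧ 1 / ((k : ℝ) * k) ^ 3 ≤ 64 / ((k : ℝ) + 1) ^ 6 ∧
    (64 : ℝ) ≤ ((k : ℝ) + 1) ^ 6 := by
  have hk' : (1 : ℝ) ≤ k := by exact_mod_cast hk
  refine ⟨by positivity, ?_, ?_, ?_, ?_⟩
  · calc (8 : ℝ) = (2 * 1) ^ 3 := by norm_num
      _ ≤ _ := by gcongr
  · calc (2 * (k : ℝ)) ^ 3 ≤ (2 * ((k : ℝ) + 1)) ^ 3 := by gcongr; linarith
      _ = 8 * ((k : ℝ) + 1) ^ 3 := by ring
      _ ≤ 8 * ((k : ℝ) + 1) ^ 6 := by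
          gcongr 8 * ?_
          exact pow_le_pow_right₀ (by linarith) (by norm_num)
  · rw [div_le_div_iff₀ (by positivity) (by positivity)]
    calc 1 * ((k : ℝ) + 1) ^ 6 ≤ 1 * ((k : ℝ) + k) ^ 6 := by gcongr
      _ = 64 * ((k : ℝ) * k) ^ 3 := by ring
  · calc (64 : ℝ) = (1 + 1) ^ 6 := by norm_num
      _ ≤ _ := by gcongr

theorem dat (h4 : Y4) (h4b : Y4b) {A B A' B' : ℕ → ℕ → ℂ} {k : ℕ} {σ D : ℝ} (hA : Kb (2 * eps) A)
    (hB : Pb rr B) (hA' : Kb (2 * eps) A') (hB' : Pb rr B') (hk : 1 ≤ k) (hσ : |σ - k| ≤ 1 / 2)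
    (hAA : Kb D (fun j k => A j k - A' j k)) (hBB : Pb D (fun j k => B j k - B' j k))
    (hD : 0 ≤ D) :
    Dat A B A' B' k σ D (((k : ℝ) + 1) ^ 6) ((2 * (k : ℝ)) ^ 3) := by
  obtain ⟨g1, g2, g3, g4, g5⟩ := geo hk
  obtain ⟨u1, u2, -, -⟩ := h4 A B k σ σ hA (pb_kb hB) hk hσ hσ
  obtain ⟨v1, v2, -, -⟩ := h4 A' B' k σ σ hA' (pb_kb hB') hk hσ hσ
  obtain ⟨w1, w2, -⟩ := h4b A B A' B' k σ D hA hB hA' hB' hk hσ hAA hBB
  have e2 : (k : ℝ) + k = 2 * k := by ring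
  have b1 : ‖B k k‖ ≤ 64 * rr / ((k : ℝ) + 1) ^ 6 := by
    refine (hB k k hk hk).trans ?_
    have : rr / ((k : ℝ) * k) ^ 3 = rr * (1 / ((k : ℝ) * k) ^ 3) := by ring
    rw [this]
    have e : 64 * rr / ((k : ℝ) + 1) ^ 6 = rr * (64 / ((k : ℝ) + 1) ^ 6) := by ring
    rw [e]
    exact mul_le_mul_of_nonneg_left g4 (by unfold rr; positivity)
  have b1' : ‖B' k k‖ ≤ 64 * rr / ((k : ℝ) + 1) ^ 6 := by
    refine (hB' k k hk hk).trans ?_
    have : rr / ((k : ℝ) * k) ^ 3 = rr * (1 / ((k : ℝ) * k) ^ 3) := by ring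
    rw [this]
    have e : 64 * rr / ((k : ℝ) + 1) ^ 6 = rr * (64 / ((k : ℝ) + 1) ^ 6) := by ring
    rw [e]
    exact mul_le_mul_of_nonneg_left g4 (by unfold rr; positivity)
  have b2 : ‖B k k - B' k k‖ ≤ 64 * D / ((k : ℝ) + 1) ^ 6 := by
    refine (hBB k k hk hk).trans ?_
    have : D / ((k : ℝ) * k) ^ 3 = D * (1 / ((k : ℝ) * k) ^ 3) := by ring
    rw [this]
    have e : 64 * D / ((k : ℝ) + 1) ^ 6 = D * (64 / ((k : ℝ) + 1) ^ 6) := by ring
    rw [e]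
    exact mul_le_mul_of_nonneg_left g4 hD
  have pb : ∀ (P b : ℂ), ‖P - conj b‖ ≤ 100 * eps ^ 2 / ((k : ℝ) + 1) ^ 6 →
      ‖b‖ ≤ 64 * rr / ((k : ℝ) + 1) ^ 6 → ‖P‖ ≤ 101 * eps ^ 2 / ((k : ℝ) + 1) ^ 6 := by
    intro P b h1 h2
    have h3 : ‖P‖ ≤ ‖P - conj b‖ + ‖b‖ := by
      have := norm_add_le (P - conj b) (conj b)
      rwa [sub_add_cancel, Complex.norm_conj] at this
    refine h3.trans ((add_le_add h1 h2).trans ?_)
    rw [← add_div]
    apply div_le_div_of_nonneg_right _ g1.le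
    unfold eps rr
    norm_num
  refine ⟨?_, ?_, ?_, b2, u2, v2, w1, pb _ _ u1 b1, pb _ _ v1 b1', ?_⟩
  · have := hA k k hk hk
    rwa [e2] at this
  · have := hA' k k hk hk
    rwa [e2] at this
  · have := hAA k k hk hk
    rwa [e2] at this
  · have h3 : PP A B k σ - PP A' B' k σ = ((PP A B k σ - conj (B k k)) -
        (PP A' B' k σ - conj (B' k k))) + conj (B k k - B' k k) := by
      rw [map_sub]; ring
    rw [h3]
    refine (norm_add_le _ _).trans ?_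
    rw [Complex.norm_conj]
    refine (add_le_add w2 b2).trans ?_
    rw [← add_div]
    apply div_le_div_of_nonneg_right _ g1.le
    unfold eps
    nlinarith

theorem aux_a {A B A' B' : ℕ → ℕ → ℂ} {k : ℕ} {σ D X L : ℝ} (h : Dat A B A' B' k σ D X L)
    (hD : 0 ≤ D) (hX : 64 ≤ X) (hL : 8 ≤ L) :
    |(A k k * QQ A B k σ).re - (A' k k * QQ A' B' k σ).re| ≤ 2 * (D / X) := by
  rw [← Complex.sub_re]
  refine (Complex.abs_re_le_norm _).trans (red _ _ _ _ _ ?_)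
  have hX0 : 0 < X := by linarith
  have hL0 : 0 < L := by linarith
  have d0 : 0 ≤ D / X := by positivity
  have l1 : 1 / L ≤ 1 := by rw [div_le_one hL0]; linarith
  have l0 : 0 ≤ 1 / L := by positivity
  have h1 : ‖A k k - A' k k‖ * ‖QQ A B k σ‖ ≤ D / L * (100 * eps ^ 2 / X) :=
    mul_le_mul h.aa h.q (norm_nonneg _) (by positivity)
  have h2 : ‖A' k k‖ * ‖QQ A B k σ - QQ A' B' k σ‖ ≤ 2 * eps / L * (1000 * eps * D / X) :=
    mul_le_mul h.a' h.qq (norm_nonneg _) (by unfold eps; positivity)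
  have e1 : D / L * (100 * eps ^ 2 / X) = (D / X) * (1 / L) * (100 * eps ^ 2) := by ring
  have e2 : 2 * eps / L * (1000 * eps * D / X) = (D / X) * (1 / L) * (2000 * eps ^ 2) := by ring
  have h3 : (D / X) * (1 / L) ≤ D / X := mul_le_of_le_one_right d0 l1
  rw [e1] at h1
  rw [e2] at h2
  have h4 : 0 ≤ (D / X) * (1 / L) := by positivity
  unfold eps at h1 h2
  linarith

theorem aux_q {A B A' B' : ℕ → ℕ → ℂ} {k : ℕ} {σ D X L : ℝ} (h : Dat A B A' B' k σ D X L) :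
    |‖QQ A B k σ‖ ^ 2 - ‖QQ A' B' k σ‖ ^ 2| ≤ (200 * eps ^ 2 / X) * (1000 * eps * D / X) := by
  refine sqd _ _ _ _ ?_ h.qq
  have := add_le_add h.q h.q'
  have e : 100 * eps ^ 2 / X + 100 * eps ^ 2 / X = 200 * eps ^ 2 / X := by ring
  rwa [e] at this

theorem aux_p {A B A' B' : ℕ → ℕ → ℂ} {k : ℕ} {σ D X L : ℝ} (h : Dat A B A' B' k σ D X L) :
    |‖PP A B k σ‖ ^ 2 - ‖PP A' B' k σ‖ ^ 2| ≤ (202 * eps ^ 2 / X) * (65 * D / X) := by
  refine sqd _ _ _ _ ?_ h.pp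
  have := add_le_add h.p h.p'
  have e : 101 * eps ^ 2 / X + 101 * eps ^ 2 / X = 202 * eps ^ 2 / X := by ring
  rwa [e] at this

theorem aux_db {A B A' B' : ℕ → ℕ → ℂ} {k : ℕ} {σ D X L : ℝ} (h : Dat A B A' B' k σ D X L)
    (hD : 0 ≤ D) (hX : 64 ≤ X) (hL : 8 ≤ L) (hT : |TT k σ| ≤ 1) :
    |Psi A B k σ - Psi A' B' k σ - (‖A k k‖ ^ 2 - ‖A' k k‖ ^ 2)| ≤ rr * (D / X) := by
  have hX0 : 0 < X := by linarith
  have d0 : 0 ≤ D / X := by positivity
  have x1 : 1 / X ≤ 1 := by rw [div_le_one hX0]; linarith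
  have x0 : 0 ≤ 1 / X := by positivity
  have h3 : (D / X) * (1 / X) ≤ D / X := mul_le_of_le_one_right d0 x1
  have h4 : 0 ≤ (D / X) * (1 / X) := by positivity
  have hq := aux_q h
  have hp := aux_p h
  have e1 : (200 * eps ^ 2 / X) * (1000 * eps * D / X) =
      (D / X) * (1 / X) * (200000 * eps ^ 3) := by ring
  have e2 : (202 * eps ^ 2 / X) * (65 * D / X) = (D / X) * (1 / X) * (13130 * eps ^ 2) := by ring
  rw [e1] at hq
  rw [e2] at hp
  have key := dbcore (TT k σ) (PP A B k σ) (PP A' B' k σ) (D / X)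
    ((A k k * QQ A B k σ).re - (A' k k * QQ A' B' k σ).re)
    (‖QQ A B k σ‖ ^ 2 - ‖QQ A' B' k σ‖ ^ 2) (‖PP A B k σ‖ ^ 2 - ‖PP A' B' k σ‖ ^ 2) d0 hT
    (aux_a h hD hX hL) (hq.trans (by unfold eps; linarith)) (hp.trans (by unfold eps; linarith))
    (h.pp.trans (le_of_eq (by ring)))
  rw [Psi_eq, Psi_eq]
  convert key using 2
  ring

theorem dacore (G Tp Tm a qp qm pp pm xp xm d m : ℝ) (hd : 0 ≤ d) (hG : 0 < G) (hTp : 0 ≤ Tp)
    (hTm : Tm ≤ 0) (hT : G = Tp - Tm) (ha : |a| ≤ 4200 * (d * G)) (hqp : |qp| ≤ 2 * (d * G))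
    (hqm : |qm| ≤ 2 * (d * G)) (hpp : |pp| ≤ 110000 * (d * G)) (hpm : |pm| ≤ 110000 * (d * G))
    (hxp : |xp - m| ≤ rr * d / 50) (hxm : |xm - m| ≤ rr * d / 50) :
    |(2 * rr ^ 4 * a + rr ^ 8 * (qp - qm) + 2 * rr ^ 2 * (Tp * xp - Tm * xm) -
      rr ^ 4 * (pp - pm)) / (2 * rr ^ 2 * G) - m| ≤ rr * d := by
  have hr : 0 < rr := by unfold rr; positivity
  have e : (2 * rr ^ 4 * a + rr ^ 8 * (qp - qm) + 2 * rr ^ 2 * (Tp * xp - Tm * xm) -
      rr ^ 4 * (pp - pm)) / (2 * rr ^ 2 * G) - m = (rr ^ 2 * a + rr ^ 6 / 2 * (qp - qm) +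
      (Tp * (xp - m) + (-Tm) * (xm - m)) - rr ^ 2 / 2 * (pp - pm)) / G := by
    rw [hT] at hG ⊢
    field_simp
    ring
  rw [e, abs_div, abs_of_pos hG, div_le_iff₀ hG]
  have k0 : 0 ≤ d * G := by positivity
  have h1 : |Tp * (xp - m)| ≤ Tp * (rr * d / 50) := by
    rw [abs_mul, abs_of_nonneg hTp]
    exact mul_le_mul_of_nonneg_left hxp hTp
  have h2 : |(-Tm) * (xm - m)| ≤ (-Tm) * (rr * d / 50) := by
    rw [abs_mul, abs_of_nonneg (by linarith)]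
    exact mul_le_mul_of_nonneg_left hxm (by linarith)
  have h3 : Tp * (rr * d / 50) + (-Tm) * (rr * d / 50) = rr * (d * G) / 50 := by
    rw [hT]; ring
  have e2 : rr * d * G = rr * (d * G) := by ring
  rw [e2]
  generalize d * G = z at *
  rw [abs_le] at ha hqp hqm hpp hpm h1 h2 ⊢
  unfold rr at *
  constructor <;> linarith [ha.1, ha.2, hqp.1, hqp.2, hqm.1, hqm.2, hpp.1, hpp.2, hpm.1, hpm.2,
    h1.1, h1.2, h2.1, h2.2]

theorem WW_diff {k : ℕ} {σ : ℝ} (hk : 2 ≤ k) (hσ : |σ - k| ≤ 1 / 2) :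
    |WW σ 1 - WW k 1| ≤ 4 * |σ - k| := by
  have hk' : (2 : ℝ) ≤ k := by exact_mod_cast hk
  rw [abs_le] at hσ
  have h1 : (1 : ℝ) - σ < 0 := by linarith [hσ.1]
  have h2 : (1 : ℝ) - k < 0 := by linarith
  have e : WW σ 1 - WW k 1 = 2 * (σ - k) / ((1 - σ) * (1 - k)) := by
    unfold WW
    push_cast
    have h1' := h1.ne
    have h2' := h2.ne
    field_simp
    ring
  rw [e, abs_div, abs_mul, abs_mul, abs_of_neg h1, abs_of_neg h2, abs_of_pos (by norm_num : (0 : ℝ) < 2)]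
  rw [div_le_iff₀ (by nlinarith)]
  have h3 : (1 : ℝ) / 2 ≤ -(1 - σ) * -(1 - (k : ℝ)) := by nlinarith [hσ.1]
  nlinarith [abs_nonneg (σ - (k : ℝ))]

theorem main_re (h4b : Y4b) {A B A' B' : ℕ → ℕ → ℂ} {k : ℕ} {σ D : ℝ} (hA : Kb (2 * eps) A)
    (hB : Pb rr B) (hA' : Kb (2 * eps) A') (hB' : Pb rr B') (hk : 1 ≤ k) (hσ : |σ - k| ≤ rr ^ 2)
    (hAA : Kb D (fun j k => A j k - A' j k)) (hBB : Pb D (fun j k => B j k - B' j k))
    (hD : 0 ≤ D) :
    |((PP A B k σ).re - (PP A' B' k σ).re) - ((B k k - B' k k).re +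
      (if k = 1 then 0 else WW k 1 * (conj (A 1 k) * A k 1 - conj (A' 1 k) * A' k 1).re))|
      ≤ rr * (D / ((k : ℝ) + 1) ^ 6) / 50 := by
  have hr2 : rr ^ 2 ≤ 1 / 2 := by unfold rr; norm_num
  have hσ2 : |σ - k| ≤ 1 / 2 := hσ.trans hr2
  obtain ⟨-, -, w3⟩ := h4b A B A' B' k σ D hA hB hA' hB' hk hσ2 hAA hBB
  have w4 := (Complex.abs_re_le_norm _).trans w3
  obtain ⟨g1, g2, g3, g4, g5⟩ := geo hk
  have d0 : 0 ≤ D / ((k : ℝ) + 1) ^ 6 := by positivity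
  by_cases h1 : k = 1
  · rw [if_pos h1]
    rw [if_pos h1, if_pos h1] at w4
    simp only [Complex.sub_re, Complex.conj_re, Complex.zero_re] at w4 ⊢
    have e : rr * D / ((k : ℝ) + 1) ^ 6 / 100 = rr * (D / ((k : ℝ) + 1) ^ 6) / 100 := by ring
    rw [e] at w4
    have hr : 0 ≤ rr * (D / ((k : ℝ) + 1) ^ 6) := by unfold rr; positivity
    rw [abs_le] at w4 ⊢
    constructor <;> linarith [w4.1, w4.2]
  · rw [if_neg h1]
    rw [if_neg h1, if_neg h1] at w4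
    set c : ℂ := conj (A 1 k) * A k 1 with hc
    set c' : ℂ := conj (A' 1 k) * A' k 1 with hc'
    have hcc : ‖c - c'‖ ≤ 4 * eps * (D / ((k : ℝ) + 1) ^ 6) := by
      have a1 := hA 1 k le_rfl hk
      have a2 := hA k 1 hk le_rfl
      have a1' := hA' 1 k le_rfl hk
      have a2' := hA' k 1 hk le_rfl
      have b1 := hAA 1 k le_rfl hk
      have b2 := hAA k 1 hk le_rfl
      have e1 : ((1 : ℕ) : ℝ) + (k : ℝ) = (k : ℝ) + 1 := by push_cast; ring
      have e2 : (k : ℝ) + ((1 : ℕ) : ℝ) = (k : ℝ) + 1 := by push_cast; ring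
      rw [e1] at a1 a1' b1
      rw [e2] at a2 a2' b2
      have hk0 : (0 : ℝ) < (k : ℝ) + 1 := by positivity
      have ec : c - c' = conj (A 1 k - A' 1 k) * A k 1 + conj (A' 1 k) * (A k 1 - A' k 1) := by
        rw [hc, hc', map_sub]; ring
      rw [ec]
      refine (norm_add_le _ _).trans ?_
      rw [norm_mul, norm_mul, Complex.norm_conj, Complex.norm_conj]
      have t1 : ‖A 1 k - A' 1 k‖ * ‖A k 1‖ ≤
          D / ((k : ℝ) + 1) ^ 3 * (2 * eps / ((k : ℝ) + 1) ^ 3) :=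
        mul_le_mul b1 a2 (norm_nonneg _) (by positivity)
      have t2 : ‖A' 1 k‖ * ‖A k 1 - A' k 1‖ ≤
          2 * eps / ((k : ℝ) + 1) ^ 3 * (D / ((k : ℝ) + 1) ^ 3) :=
        mul_le_mul a1' b2 (norm_nonneg _) (by unfold eps; positivity)
      refine (add_le_add t1 t2).trans (le_of_eq ?_)
      field_simp
      ring
    have hW := WW_diff (k := k) (by omega) hσ2
    have hmain : |(WW σ 1 - WW k 1) * (c - c').re| ≤
        4 * rr ^ 2 * (4 * eps * (D / ((k : ℝ) + 1) ^ 6)) := by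
      rw [abs_mul]
      refine mul_le_mul (hW.trans (by linarith)) ((Complex.abs_re_le_norm _).trans hcc)
        (abs_nonneg _) (by unfold rr; positivity)
    have eW : ∀ z : ℂ, (((WW σ 1 : ℝ) : ℂ) * z).re = WW σ 1 * z.re := fun z =>
      Complex.re_ofReal_mul _ _
    simp only [Complex.sub_re, Complex.conj_re, eW] at w4 hmain ⊢
    have e : rr * D / ((k : ℝ) + 1) ^ 6 / 100 = rr * (D / ((k : ℝ) + 1) ^ 6) / 100 := by ring
    rw [e] at w4
    have e5 : (PP A B k σ).re - (PP A' B' k σ).re - ((B k k).re - (B' k k).re +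
        WW k 1 * (c.re - c'.re)) = ((PP A B k σ).re - (B k k).re - WW σ 1 * c.re -
        ((PP A' B' k σ).re - (B' k k).re - WW σ 1 * c'.re)) +
        (WW σ 1 - WW k 1) * (c.re - c'.re) := by ring
    rw [e5]
    refine (abs_add_le _ _).trans ((add_le_add w4 hmain).trans ?_)
    generalize D / ((k : ℝ) + 1) ^ 6 = d at *
    unfold rr eps
    nlinarith

end HY5

open HY5

theorem y5 (h4 : Y4) (h4b : Y4b) : Y5 := by
  intro A B A' B' k σp σm D hA hB hA' hB' hk hg hAA hBB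
  obtain ⟨g1, g2, g3, g4, g5⟩ := geo hk
  have hD : 0 ≤ D := by
    have h := hBB k k hk hk
    have hk' : (0 : ℝ) < k := by exact_mod_cast hk
    have h2 : 0 ≤ D / ((k : ℝ) * k) ^ 3 := (norm_nonneg _).trans h
    rwa [le_div_iff₀ (by positivity), zero_mul] at h2
  have hr2 : rr ^ 2 ≤ 1 / 2 := by unfold rr; norm_num
  have hp2 : |σp - k| ≤ 1 / 2 := hg.hp.trans hr2
  have hm2 : |σm - k| ≤ 1 / 2 := hg.hm.trans hr2
  have dp := dat h4 h4b hA hB hA' hB' hk hp2 hAA hBB hD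
  have dm := dat h4 h4b hA hB hA' hB' hk hm2 hAA hBB hD
  have hTp : |TT k σp| ≤ 1 := by rw [abs_of_nonneg hg.tp]; exact hg.tp1
  have hTm : |TT k σm| ≤ 1 := by rw [abs_of_nonpos hg.tm]; linarith [hg.tm1]
  have ed : rr * D / ((k : ℝ) + 1) ^ 6 = rr * (D / ((k : ℝ) + 1) ^ 6) := by ring
  have m1 := main_re h4b hA hB hA' hB' hk hg.hp hAA hBB hD
  have m2 := main_re h4b hA hB hA' hB' hk hg.hm hAA hBB hD
  have hgap := hg.gap
  rw [ed]
  set X : ℝ := ((k : ℝ) + 1) ^ 6 with hX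
  set L : ℝ := (2 * (k : ℝ)) ^ 3 with hL
  have d0 : 0 ≤ D / X := by positivity
  have L0 : 0 < L := by linarith
  constructor
  · have u := aux_db dp hD g5 g2 hTp
    have v := aux_db dm hD g5 g2 hTm
    have e : DBf A B k σp σm - DBf A' B' k σp σm - (‖A k k‖ ^ 2 - ‖A' k k‖ ^ 2) =
        ((Psi A B k σp - Psi A' B' k σp - (‖A k k‖ ^ 2 - ‖A' k k‖ ^ 2)) +
        (Psi A B k σm - Psi A' B' k σm - (‖A k k‖ ^ 2 - ‖A' k k‖ ^ 2))) / 2 := by
      unfold DBf; ring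
    rw [e]
    rw [abs_le] at u v ⊢
    constructor <;> linarith [u.1, u.2, v.1, v.2]
  · set G : ℝ := TT k σp - TT k σm with hGdef
    have heps : 0 < eps ^ 2 / L := by unfold eps; positivity
    have hG : 0 < G := lt_of_lt_of_le heps hgap
    have tX : 1 / X ≤ 8 * (1 / L) := by
      rw [div_le_iff₀ g1]
      have : 8 * (1 / L) * X = (8 * X) / L := by ring
      rw [this, le_div_iff₀ L0]
      linarith
    have gq : ∀ c : ℝ, 0 ≤ c → (D / X) * (1 / X) * (c * eps ^ 2) ≤ 8 * c * ((D / X) * G) := by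
      intro c hc
      have s1 : (1 / X) * (c * eps ^ 2) ≤ 8 * c * (eps ^ 2 / L) := by
        calc (1 / X) * (c * eps ^ 2) ≤ 8 * (1 / L) * (c * eps ^ 2) := by
              apply mul_le_mul_of_nonneg_right tX
              positivity
          _ = _ := by ring
      have s2 : 8 * c * (eps ^ 2 / L) ≤ 8 * c * G := mul_le_mul_of_nonneg_left hgap (by positivity)
      calc _ = (D / X) * ((1 / X) * (c * eps ^ 2)) := by ring
        _ ≤ (D / X) * (8 * c * G) := mul_le_mul_of_nonneg_left (s1.trans s2) d0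
        _ = _ := by ring
    have key := dacore G (TT k σp) (TT k σm)
      ((A k k * (QQ A B k σp - QQ A B k σm)).re - (A' k k * (QQ A' B' k σp - QQ A' B' k σm)).re)
      (‖QQ A B k σp‖ ^ 2 - ‖QQ A' B' k σp‖ ^ 2) (‖QQ A B k σm‖ ^ 2 - ‖QQ A' B' k σm‖ ^ 2)
      (‖PP A B k σp‖ ^ 2 - ‖PP A' B' k σp‖ ^ 2) (‖PP A B k σm‖ ^ 2 - ‖PP A' B' k σm‖ ^ 2)
      ((PP A B k σp).re - (PP A' B' k σp).re) ((PP A B k σm).re - (PP A' B' k σm).re) (D / X)
      ((B k k - B' k k).re +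
        (if k = 1 then 0 else WW k 1 * (conj (A 1 k) * A k 1 - conj (A' 1 k) * A' k 1).re))
      d0 hG hg.tp hg.tm hGdef ?_ ?_ ?_ ?_ ?_ m1 m2
    · have e : DAf A B k σp σm - DAf A' B' k σp σm - (B k k - B' k k).re -
          (if k = 1 then 0 else WW k 1 * (conj (A 1 k) * A k 1 - conj (A' 1 k) * A' k 1).re) =
          (DAf A B k σp σm - DAf A' B' k σp σm) - ((B k k - B' k k).re +
          (if k = 1 then 0 else WW k 1 * (conj (A 1 k) * A k 1 - conj (A' 1 k) * A' k 1).re)) := by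
        ring
      rw [e]
      convert key using 3
      unfold DAf
      have f1 : (A k k * (QQ A B k σp - QQ A B k σm)).re =
          (A k k * QQ A B k σp).re - (A k k * QQ A B k σm).re := by
        rw [mul_sub, Complex.sub_re]
      have f2 : (A' k k * (QQ A' B' k σp - QQ A' B' k σm)).re =
          (A' k k * QQ A' B' k σp).re - (A' k k * QQ A' B' k σm).re := by
        rw [mul_sub, Complex.sub_re]
      rw [← sub_div, Psi_eq, Psi_eq, Psi_eq, Psi_eq, f1, f2]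
      congr 1
      ring
    · rw [← Complex.sub_re]
      refine (Complex.abs_re_le_norm _).trans (red _ _ _ _ _ ?_)
      have q1 : ‖QQ A B k σp - QQ A B k σm‖ ≤ 200 * eps ^ 2 / X := by
        refine (norm_sub_le _ _).trans ((add_le_add dp.q dm.q).trans (le_of_eq (by ring)))
      have q2 : ‖(QQ A B k σp - QQ A B k σm) - (QQ A' B' k σp - QQ A' B' k σm)‖ ≤
          2000 * eps * D / X := by
        have e : (QQ A B k σp - QQ A B k σm) - (QQ A' B' k σp - QQ A' B' k σm) =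
          (QQ A B k σp - QQ A' B' k σp) - (QQ A B k σm - QQ A' B' k σm) := by ring
        rw [e]
        exact (norm_sub_le _ _).trans ((add_le_add dp.qq dm.qq).trans (le_of_eq (by ring)))
      have h1 : ‖A k k - A' k k‖ * ‖QQ A B k σp - QQ A B k σm‖ ≤ D / L * (200 * eps ^ 2 / X) :=
        mul_le_mul dp.aa q1 (norm_nonneg _) (by positivity)
      have h2 : ‖A' k k‖ * ‖(QQ A B k σp - QQ A B k σm) - (QQ A' B' k σp - QQ A' B' k σm)‖ ≤
          2 * eps / L * (2000 * eps * D / X) :=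
        mul_le_mul dp.a' q2 (norm_nonneg _) (by unfold eps; positivity)
      refine (add_le_add h1 h2).trans ?_
      calc _ = 4200 * ((D / X) * (eps ^ 2 / L)) := by ring
        _ ≤ 4200 * ((D / X) * G) := by gcongr
    · refine (aux_q dp).trans ?_
      have e1 : (200 * eps ^ 2 / X) * (1000 * eps * D / X) =
        (D / X) * (1 / X) * ((200000 * eps) * eps ^ 2) := by ring
      rw [e1]
      refine (gq _ (by unfold eps; positivity)).trans ?_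
      apply mul_le_mul_of_nonneg_right _ (by positivity)
      unfold eps
      norm_num
    · refine (aux_q dm).trans ?_
      have e1 : (200 * eps ^ 2 / X) * (1000 * eps * D / X) =
        (D / X) * (1 / X) * ((200000 * eps) * eps ^ 2) := by ring
      rw [e1]
      refine (gq _ (by unfold eps; positivity)).trans ?_
      apply mul_le_mul_of_nonneg_right _ (by positivity)
      unfold eps
      norm_num
    · refine (aux_p dp).trans ?_
      have e2 : (202 * eps ^ 2 / X) * (65 * D / X) = (D / X) * (1 / X) * (13130 * eps ^ 2) := by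
        ring
      rw [e2]
      refine (gq _ (by norm_num)).trans ?_
      apply mul_le_mul_of_nonneg_right _ (by positivity)
      norm_num
    · refine (aux_p dm).trans ?_
      have e2 : (202 * eps ^ 2 / X) * (65 * D / X) = (D / X) * (1 / X) * (13130 * eps ^ 2) := by
        ring
      rw [e2]
      refine (gq _ (by norm_num)).trans ?_
      apply mul_le_mul_of_nonneg_right _ (by positivity)
      norm_num

end Pool.Agent.Stek
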