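import Pool.Agent.Stek.TSeq

/-!
# STK-Y6: the zeros of `Psi` near `k`
-/

set_option autoImplicit false

open scoped BigOperators ComplexConjugate Topology ContDiff
open Complex

noncomputable section

namespace Pool.Agent.Stek

namespace Y6aux

theorem rr_pos : 0 < rr := by unfold rr; positivity

theorem k_rr (k : ℕ) (hk : 1 ≤ k) : (k : ℝ) * rr ^ k ≤ rr := by
  induction k, hk using Nat.le_induction with
  | base => simp
  | succ n hn ih =>
    have h1 : (1 : ℝ) ≤ n := by exact_mod_cast hn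
    have h0 : (0 : ℝ) < rr := rr_pos
    have h2 : rr ≤ 1 / 2 := by unfold rr; norm_num
    have h3 : (0 : ℝ) ≤ rr ^ n := by positivity
    push_cast
    calc ((n : ℝ) + 1) * rr ^ (n + 1) = ((n + 1) * rr ^ n) * rr := by ring
      _ ≤ (2 * (n * rr ^ n)) * rr := by
          apply mul_le_mul_of_nonneg_right _ h0.le
          nlinarith
      _ ≤ (2 * rr) * rr := by
          apply mul_le_mul_of_nonneg_right _ h0.le
          linarith
      _ ≤ rr := by nlinarith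

theorem kk_rr (k : ℕ) (hk : 1 ≤ k) : (k : ℝ) ^ 2 * rr ^ (2 * k) ≤ rr ^ 2 := by
  have h := k_rr k hk
  have h0 : 0 ≤ (k : ℝ) * rr ^ k := by have := rr_pos; positivity
  calc (k : ℝ) ^ 2 * rr ^ (2 * k) = (k * rr ^ k) ^ 2 := by rw [pow_mul']; ring
    _ ≤ rr ^ 2 := by gcongr

theorem key {a t t' R R' : ℝ} {p p' : ℂ} (ha : 0 < a) (ht : a / 2 ≤ t) (ht2 : t ≤ 2 * a)
    (ht' : a / 2 ≤ t') (ht2' : t' ≤ 2 * a) (hp : ‖p‖ ≤ a / 1000) (hp' : ‖p'‖ ≤ a / 1000)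
    (hpp : ‖p - p'‖ ≤ |t - t'| / 1000) (hRR : |R - R'| ≤ |t - t'| / 1000)
    (hR : ‖(t : ℂ) - p‖ = R) (hR' : ‖(t' : ℂ) - p'‖ = R') : t = t' := by
  have e1 : R ^ 2 = (t - p.re) ^ 2 + p.im ^ 2 := by
    rw [← hR, Complex.sq_norm, Complex.normSq_apply]; simp; ring
  have e2 : R' ^ 2 = (t' - p'.re) ^ 2 + p'.im ^ 2 := by
    rw [← hR', Complex.sq_norm, Complex.normSq_apply]; simp; ring
  have x1 : |p.re| ≤ a / 1000 := (Complex.abs_re_le_norm p).trans hp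
  have y1 : |p.im| ≤ a / 1000 := (Complex.abs_im_le_norm p).trans hp
  have x2 : |p'.re| ≤ a / 1000 := (Complex.abs_re_le_norm p').trans hp'
  have y2 : |p'.im| ≤ a / 1000 := (Complex.abs_im_le_norm p').trans hp'
  have x3 : |p.re - p'.re| ≤ |t - t'| / 1000 := by
    have := Complex.abs_re_le_norm (p - p'); simp only [Complex.sub_re] at this
    exact this.trans hpp
  have y3 : |p.im - p'.im| ≤ |t - t'| / 1000 := by
    have := Complex.abs_im_le_norm (p - p'); simp only [Complex.sub_im] at this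
    exact this.trans hpp
  have r1 : R ≤ 2 * a + a / 1000 := by
    rw [← hR]
    calc ‖(t : ℂ) - p‖ ≤ ‖(t : ℂ)‖ + ‖p‖ := norm_sub_le _ _
      _ ≤ 2 * a + a / 1000 := by
        rw [Complex.norm_real, Real.norm_eq_abs, abs_of_nonneg (by linarith)]; linarith
  have r2 : R' ≤ 2 * a + a / 1000 := by
    rw [← hR']
    calc ‖(t' : ℂ) - p'‖ ≤ ‖(t' : ℂ)‖ + ‖p'‖ := norm_sub_le _ _
      _ ≤ 2 * a + a / 1000 := by
        rw [Complex.norm_real, Real.norm_eq_abs, abs_of_nonneg (by linarith)]; linarith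
  have r3 : 0 ≤ R := by rw [← hR]; positivity
  have r4 : 0 ≤ R' := by rw [← hR']; positivity
  set d := |t - t'| with hd
  have d0 : 0 ≤ d := abs_nonneg _
  have e3 : (t - t') * (t + t' - p.re - p'.re) = (R - R') * (R + R') +
      (p.re - p'.re) * (t + t' - p.re - p'.re) - (p.im - p'.im) * (p.im + p'.im) := by
    linear_combination e2 - e1
  have s1 : 0.998 * a ≤ t + t' - p.re - p'.re := by
    have := abs_le.1 x1; have := abs_le.1 x2; linarith [this.1, this.2, (abs_le.1 x1).2]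
  have s2 : t + t' - p.re - p'.re ≤ 4.002 * a := by
    have := abs_le.1 x1; have := abs_le.1 x2; linarith [this.1, this.2, (abs_le.1 x1).1]
  have f1 : |(t - t') * (t + t' - p.re - p'.re)| = d * (t + t' - p.re - p'.re) := by
    rw [abs_mul, abs_of_nonneg (by linarith : 0 ≤ t + t' - p.re - p'.re)]
  have f2 : |(R - R') * (R + R')| ≤ d / 1000 * (4.002 * a) := by
    rw [abs_mul, abs_of_nonneg (by linarith : 0 ≤ R + R')]
    exact mul_le_mul hRR (by linarith) (by linarith) (by positivity)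
  have f3 : |(p.re - p'.re) * (t + t' - p.re - p'.re)| ≤ d / 1000 * (4.002 * a) := by
    rw [abs_mul, abs_of_nonneg (by linarith : 0 ≤ t + t' - p.re - p'.re)]
    exact mul_le_mul x3 s2 (by linarith) (by positivity)
  have f4 : |(p.im - p'.im) * (p.im + p'.im)| ≤ d / 1000 * (0.002 * a) := by
    rw [abs_mul]
    refine mul_le_mul y3 ?_ (abs_nonneg _) (by positivity)
    exact (abs_add_le _ _).trans (by linarith)
  have f5 : d * (t + t' - p.re - p'.re) ≤ d / 1000 * (4.002 * a) + d / 1000 * (4.002 * a) +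
      d / 1000 * (0.002 * a) := by
    rw [← f1, e3]
    exact (abs_sub _ _).trans (add_le_add ((abs_add_le _ _).trans (add_le_add f2 f3)) f4)
  have f6 : d * (0.998 * a) ≤ d * (t + t' - p.re - p'.re) := mul_le_mul_of_nonneg_left s1 d0
  have f7 : d * a ≤ 0 := by nlinarith
  have f8 : d ≤ 0 := by
    by_contra hc
    push Not at hc
    have := mul_pos hc ha
    linarith
  have f9 : |t - t'| = 0 := le_antisymm (hd ▸ f8) (abs_nonneg _)
  exact sub_eq_zero.1 (abs_eq_zero.1 f9)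

theorem pb_kb {B : ℕ → ℕ → ℂ} (h : Pb rr B) : Kb (2 * eps) B := by
  intro j k hj hk
  refine (h j k hj hk).trans ?_
  have h1 : (1 : ℝ) ≤ j := by exact_mod_cast hj
  have h2 : (1 : ℝ) ≤ k := by exact_mod_cast hk
  have h3 : (j : ℝ) + k ≤ 2 * (j * k) := by nlinarith
  have h4 : ((j : ℝ) + k) ^ 3 ≤ (2 * (j * k)) ^ 3 := by gcongr
  rw [div_le_div_iff₀ (by positivity) (by positivity)]
  have h5 : rr * 8 ≤ 2 * eps := by unfold rr eps; norm_num
  calc rr * ((j : ℝ) + k) ^ 3 ≤ rr * (2 * (j * k)) ^ 3 := by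
        exact mul_le_mul_of_nonneg_left h4 rr_pos.le
    _ = (rr * 8) * ((j : ℝ) * k) ^ 3 := by ring
    _ ≤ 2 * eps * ((j : ℝ) * k) ^ 3 := by gcongr

theorem TT_sub (k : ℕ) (hk : 1 ≤ k) (σ σ' : ℝ) (h : |σ - k| ≤ 1 / 2) (h' : |σ' - k| ≤ 1 / 2) :
    |σ - σ'| ≤ |TT k σ - TT k σ'| := by
  have h1 : (1 : ℝ) ≤ k := by exact_mod_cast hk
  have a1 := abs_le.1 h
  have a2 := abs_le.1 h'
  have p1 : 0 < (k : ℝ) + σ := by linarith
  have p2 : 0 < (k : ℝ) + σ' := by linarith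
  have hr := rr_pos
  have p3 : 0 < rr ^ (2 * k) := by positivity
  have e : TT k σ - TT k σ' = 2 * (σ' - σ) / (((k : ℝ) + σ) * (k + σ') * rr ^ (2 * k)) := by
    unfold TT
    have : (k : ℝ) ≠ 0 := by positivity
    field_simp
    ring
  have p4 : ((k : ℝ) + σ) * (k + σ') * rr ^ (2 * k) ≤ 2 := by
    have q1 : ((k : ℝ) + σ) * (k + σ') ≤ (3 * k) * (3 * k) := by
      apply mul_le_mul <;> nlinarith
    calc ((k : ℝ) + σ) * (k + σ') * rr ^ (2 * k) ≤ (3 * k) * (3 * k) * rr ^ (2 * k) := by gcongr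
      _ = 9 * (k ^ 2 * rr ^ (2 * k)) := by ring
      _ ≤ 9 * rr ^ 2 := by have := kk_rr k hk; linarith
      _ ≤ 2 := by unfold rr; norm_num
  rw [e, abs_div, abs_of_pos (by positivity : 0 < ((k : ℝ) + σ) * (k + σ') * rr ^ (2 * k)),
    le_div_iff₀ (by positivity), abs_mul, abs_of_pos (by norm_num : (0 : ℝ) < 2),
    abs_sub_comm σ' σ]
  have := abs_nonneg (σ - σ')
  nlinarith

theorem sig_bound (k : ℕ) (hk : 1 ≤ k) (σ a : ℝ) (h : |σ - k| ≤ 1 / 2) (ha : a ≤ eps)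
    (hT : |TT k σ| ≤ 2 * a) : |σ - k| ≤ rr ^ 2 := by
  have h1 : (1 : ℝ) ≤ k := by exact_mod_cast hk
  have a1 := abs_le.1 h
  have p1 : 0 < (k : ℝ) + σ := by linarith
  have hr := rr_pos
  have p3 : 0 < rr ^ (2 * k) := by positivity
  have p4 : 0 < ((k : ℝ) + σ) * (k * rr ^ (2 * k)) := by positivity
  have e : (k : ℝ) - σ = TT k σ * (((k : ℝ) + σ) * (k * rr ^ (2 * k))) := by
    unfold TT; rw [div_mul_cancel₀ _ p4.ne']
  rw [abs_sub_comm, e, abs_mul, abs_of_pos p4]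
  have q : ((k : ℝ) + σ) * (k * rr ^ (2 * k)) ≤ 3 * rr ^ 2 := by
    calc ((k : ℝ) + σ) * (k * rr ^ (2 * k)) ≤ (3 * k) * (k * rr ^ (2 * k)) := by
          gcongr; linarith
      _ = 3 * (k ^ 2 * rr ^ (2 * k)) := by ring
      _ ≤ 3 * rr ^ 2 := by have := kk_rr k hk; linarith
  calc |TT k σ| * (((k : ℝ) + σ) * (k * rr ^ (2 * k))) ≤ (2 * eps) * (3 * rr ^ 2) := by
        apply mul_le_mul (by linarith) q p4.le; unfold eps; norm_num
    _ ≤ rr ^ 2 := by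
        have : 0 ≤ rr ^ 2 := by positivity
        unfold eps; nlinarith

end Y6aux

open Y6aux

theorem y6 (h4 : Y4) : Y6 := by
  intro A B k hc hk
  obtain ⟨hA, hB, hd⟩ := hc
  have hB' := pb_kb hB
  have hr := rr_pos
  have h1 : (1 : ℝ) ≤ k := by exact_mod_cast hk
  have k0 : (0 : ℝ) < k := by linarith
  set a := ‖A k k‖ with ha
  have k3 : (1 : ℝ) ≤ (k : ℝ) ^ 3 := one_le_pow₀ h1
  have a_low : 1 / (16 * 10 ^ 12 * (k : ℝ) ^ 3) ≤ a := by
    refine le_trans (le_of_eq ?_) (hd k hk)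
    unfold eps; field_simp; norm_num
  have a_pos : 0 < a := lt_of_lt_of_le (by positivity) a_low
  have a_up : a ≤ eps / 4 := by
    refine (hA k k hk hk).trans ?_
    have : (2 : ℝ) ^ 3 ≤ ((k : ℝ) + k) ^ 3 := by gcongr; linarith
    rw [div_le_div_iff₀ (by positivity) (by norm_num)]
    have he : 0 < eps := by unfold eps; norm_num
    nlinarith
  have a_up' : a ≤ 1 / 1000 := by refine a_up.trans ?_; unfold eps; norm_num
  -- bounds of `PP` and `QQ`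
  have k6 : (1 : ℝ) ≤ ((k : ℝ) + 1) ^ 3 := one_le_pow₀ (by linarith)
  have hk36 : (k : ℝ) ^ 3 ≤ ((k : ℝ) + 1) ^ 6 := by
    calc (k : ℝ) ^ 3 ≤ ((k : ℝ) + 1) ^ 3 := by gcongr; linarith
      _ ≤ ((k : ℝ) + 1) ^ 3 * ((k : ℝ) + 1) ^ 3 := by nlinarith
      _ = ((k : ℝ) + 1) ^ 6 := by ring
  have c1 : 100 * eps ^ 2 / ((k : ℝ) + 1) ^ 6 ≤ 1 / 2 / (k : ℝ) ^ 3 := by
    rw [div_le_div_iff₀ (by positivity) (by positivity)]
    have : 100 * eps ^ 2 ≤ 1 / 2 := by unfold eps; norm_num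
    exact mul_le_mul this hk36 (by positivity) (by norm_num)
  have hQ : ∀ σ : ℝ, |σ - k| ≤ 1 / 2 → ‖QQ A B k σ‖ ≤ 1 / (k : ℝ) ^ 3 := by
    intro σ hσ
    refine ((h4 A B k σ σ hA hB' hk hσ hσ).2.1.trans c1).trans ?_
    gcongr; norm_num
  have hP : ∀ σ : ℝ, |σ - k| ≤ 1 / 2 → ‖PP A B k σ‖ ≤ 1 / (k : ℝ) ^ 3 := by
    intro σ hσ
    have e1 := (h4 A B k σ σ hA hB' hk hσ hσ).1.trans c1
    have e2 : ‖conj (B k k)‖ ≤ 1 / 2 / (k : ℝ) ^ 3 := by
      rw [RCLike.norm_conj]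
      refine (hB k k hk hk).trans ?_
      rw [div_le_div_iff₀ (by positivity) (by positivity)]
      have : rr ≤ 1 / 2 := by unfold rr; norm_num
      apply mul_le_mul this _ (by positivity) (by norm_num)
      gcongr
      nlinarith
    have e3 : PP A B k σ = (PP A B k σ - conj (B k k)) + conj (B k k) := by ring
    rw [e3]
    refine (norm_add_le _ _).trans ((add_le_add e1 e2).trans (le_of_eq ?_))
    ring
  have c2 : ∀ x : ℝ, 200 * eps ^ 2 * |x| / ((k : ℝ) + 1) ^ 6 ≤ |x| := by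
    intro x
    rw [div_le_iff₀ (by positivity)]
    have : 200 * eps ^ 2 ≤ 1 := by unfold eps; norm_num
    have h6 : (1 : ℝ) ≤ ((k : ℝ) + 1) ^ 6 := one_le_pow₀ (by linarith)
    have := abs_nonneg x
    nlinarith
  have hPl : ∀ σ σ' : ℝ, |σ - k| ≤ 1 / 2 → |σ' - k| ≤ 1 / 2 →
      ‖PP A B k σ - PP A B k σ'‖ ≤ |σ - σ'| := fun σ σ' hσ hσ' =>
    (h4 A B k σ σ' hA hB' hk hσ hσ').2.2.1.trans (c2 _)
  have hQl : ∀ σ σ' : ℝ, |σ - k| ≤ 1 / 2 → |σ' - k| ≤ 1 / 2 →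
      ‖QQ A B k σ - QQ A B k σ'‖ ≤ |σ - σ'| := fun σ σ' hσ hσ' =>
    (h4 A B k σ σ' hA hB' hk hσ hσ').2.2.2.trans (c2 _)
  -- small quantities
  set p : ℝ → ℂ := fun σ => (rr : ℂ) ^ 2 * PP A B k σ with hp
  set q : ℝ → ℂ := fun σ => (rr : ℂ) ^ 4 * QQ A B k σ with hq
  have nr : ‖(rr : ℂ)‖ = rr := by rw [Complex.norm_real, Real.norm_eq_abs, abs_of_pos hr]
  have r2 : rr ^ 2 / (k : ℝ) ^ 3 ≤ a / 1000 := by
    refine le_trans ?_ (div_le_div_of_nonneg_right a_low (by norm_num))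
    rw [div_div, div_le_div_iff₀ (by positivity) (by positivity)]
    have : rr ^ 2 * (16 * 10 ^ 12 * 1000) ≤ 1 := by unfold rr; norm_num
    nlinarith [mul_le_mul_of_nonneg_right this (by positivity : (0:ℝ) ≤ (k:ℝ) ^ 3)]
  have r42 : rr ^ 4 ≤ rr ^ 2 := by unfold rr; norm_num
  have r2s : rr ^ 2 ≤ 1 / 1000 := by unfold rr; norm_num
  have pb : ∀ σ : ℝ, |σ - k| ≤ 1 / 2 → ‖p σ‖ ≤ a / 1000 := by
    intro σ hσ
    simp only [hp, norm_mul, norm_pow, nr]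
    calc rr ^ 2 * ‖PP A B k σ‖ ≤ rr ^ 2 * (1 / (k : ℝ) ^ 3) := by gcongr; exact hP σ hσ
      _ = rr ^ 2 / (k : ℝ) ^ 3 := by ring
      _ ≤ a / 1000 := r2
  have qb : ∀ σ : ℝ, |σ - k| ≤ 1 / 2 → ‖q σ‖ ≤ a / 1000 := by
    intro σ hσ
    simp only [hq, norm_mul, norm_pow, nr]
    calc rr ^ 4 * ‖QQ A B k σ‖ ≤ rr ^ 2 * (1 / (k : ℝ) ^ 3) := by
          apply mul_le_mul r42 (hQ σ hσ) (norm_nonneg _) (by positivity)
      _ = rr ^ 2 / (k : ℝ) ^ 3 := by ring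
      _ ≤ a / 1000 := r2
  have pl : ∀ σ σ' : ℝ, |σ - k| ≤ 1 / 2 → |σ' - k| ≤ 1 / 2 →
      ‖p σ - p σ'‖ ≤ |TT k σ - TT k σ'| / 1000 := by
    intro σ σ' hσ hσ'
    have e : p σ - p σ' = (rr : ℂ) ^ 2 * (PP A B k σ - PP A B k σ') := by simp only [hp]; ring
    rw [e, norm_mul, norm_pow, nr]
    calc rr ^ 2 * ‖PP A B k σ - PP A B k σ'‖ ≤ 1 / 1000 * |TT k σ - TT k σ'| := by
          apply mul_le_mul r2s ((hPl σ σ' hσ hσ').trans (TT_sub k hk σ σ' hσ hσ'))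
            (norm_nonneg _) (by norm_num)
      _ = |TT k σ - TT k σ'| / 1000 := by ring
  have ql : ∀ σ σ' : ℝ, |σ - k| ≤ 1 / 2 → |σ' - k| ≤ 1 / 2 →
      ‖q σ - q σ'‖ ≤ |TT k σ - TT k σ'| / 1000 := by
    intro σ σ' hσ hσ'
    have e : q σ - q σ' = (rr : ℂ) ^ 4 * (QQ A B k σ - QQ A B k σ') := by simp only [hq]; ring
    rw [e, norm_mul, norm_pow, nr]
    calc rr ^ 4 * ‖QQ A B k σ - QQ A B k σ'‖ ≤ 1 / 1000 * |TT k σ - TT k σ'| := by
          apply mul_le_mul (r42.trans r2s) ((hQl σ σ' hσ hσ').trans (TT_sub k hk σ σ' hσ hσ'))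
            (norm_nonneg _) (by norm_num)
      _ = |TT k σ - TT k σ'| / 1000 := by ring
  have psi : ∀ σ : ℝ, Psi A B k σ =
      ‖conj (A k k) + q σ‖ ^ 2 - ‖(TT k σ : ℂ) - p σ‖ ^ 2 := fun σ => rfl
  have psi0 : ∀ σ : ℝ, Psi A B k σ = 0 ↔ ‖(TT k σ : ℂ) - p σ‖ = ‖conj (A k k) + q σ‖ := by
    intro σ
    rw [psi, sub_eq_zero]
    constructor
    · intro h
      exact ((pow_left_inj₀ (norm_nonneg _) (norm_nonneg _) two_ne_zero).1 h).symm
    · intro h; rw [h]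
  have Rb : ∀ σ : ℝ, |σ - k| ≤ 1 / 2 → |‖conj (A k k) + q σ‖ - a| ≤ a / 1000 := by
    intro σ hσ
    have e : a = ‖conj (A k k)‖ := by rw [RCLike.norm_conj]
    rw [e]
    refine (abs_norm_sub_norm_le _ _).trans ?_
    rw [add_sub_cancel_left, ← e]
    exact qb σ hσ
  have Nb : ∀ σ : ℝ, |σ - k| ≤ 1 / 2 →
      abs (‖(TT k σ : ℂ) - p σ‖ - abs (TT k σ)) ≤ a / 1000 := by
    intro σ hσ
    have e : |TT k σ| = ‖(TT k σ : ℂ)‖ := by rw [Complex.norm_real, Real.norm_eq_abs]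
    rw [e]
    refine (abs_norm_sub_norm_le _ _).trans ?_
    rw [sub_sub_cancel_left, norm_neg]
    exact pb σ hσ
  have zero_bound : ∀ σ : ℝ, |σ - k| ≤ 1 / 2 → Psi A B k σ = 0 →
      a / 2 ≤ |TT k σ| ∧ |TT k σ| ≤ 2 * a := by
    intro σ hσ h0
    have e1 := abs_le.1 (Rb σ hσ)
    have e2 := abs_le.1 (Nb σ hσ)
    rw [(psi0 σ).1 h0] at e2
    constructor <;> linarith [e1.1, e1.2, e2.1, e2.2]
  -- uniqueness on each side
  have uniq_pos : ∀ σ σ' : ℝ, |σ - k| ≤ 1 / 2 → |σ' - k| ≤ 1 / 2 → Psi A B k σ = 0 →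
      Psi A B k σ' = 0 → 0 < TT k σ → 0 < TT k σ' → σ = σ' := by
    intro σ σ' hσ hσ' h0 h0' ht ht'
    have b1 := zero_bound σ hσ h0
    have b2 := zero_bound σ' hσ' h0'
    rw [abs_of_pos ht] at b1
    rw [abs_of_pos ht'] at b2
    have e : TT k σ = TT k σ' := by
      refine key a_pos b1.1 b1.2 b2.1 b2.2 (pb σ hσ) (pb σ' hσ') (pl σ σ' hσ hσ') ?_
        ((psi0 σ).1 h0) ((psi0 σ').1 h0')
      refine (abs_norm_sub_norm_le _ _).trans ?_
      rw [add_sub_add_left_eq_sub]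
      exact ql σ σ' hσ hσ'
    have := TT_sub k hk σ σ' hσ hσ'
    rw [e, sub_self, abs_zero] at this
    exact sub_eq_zero.1 (abs_eq_zero.1 (le_antisymm this (abs_nonneg _)))
  have uniq_neg : ∀ σ σ' : ℝ, |σ - k| ≤ 1 / 2 → |σ' - k| ≤ 1 / 2 → Psi A B k σ = 0 →
      Psi A B k σ' = 0 → TT k σ < 0 → TT k σ' < 0 → σ = σ' := by
    intro σ σ' hσ hσ' h0 h0' ht ht'
    have b1 := zero_bound σ hσ h0
    have b2 := zero_bound σ' hσ' h0'
    rw [abs_of_neg ht] at b1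
    rw [abs_of_neg ht'] at b2
    have n1 : ∀ x : ℝ, ∀ z : ℂ, ‖((-x : ℝ) : ℂ) - -z‖ = ‖(x : ℂ) - z‖ := by
      intro x z
      rw [← norm_neg]
      congr 1
      push_cast
      ring
    have n2 : |-TT k σ - -TT k σ'| = |TT k σ - TT k σ'| := by
      rw [← abs_neg]; congr 1; ring
    have e : -TT k σ = -TT k σ' := by
      refine key (p := -p σ) (p' := -p σ') a_pos b1.1 b1.2 b2.1 b2.2
        (by rw [norm_neg]; exact pb σ hσ) (by rw [norm_neg]; exact pb σ' hσ') ?_ ?_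
        ((n1 _ _).trans ((psi0 σ).1 h0)) ((n1 _ _).trans ((psi0 σ').1 h0'))
      · rw [n2, neg_sub_neg, norm_sub_rev]; exact pl σ σ' hσ hσ'
      · rw [n2]
        refine (abs_norm_sub_norm_le _ _).trans ?_
        rw [add_sub_add_left_eq_sub]
        exact ql σ σ' hσ hσ'
    have := TT_sub k hk σ σ' hσ hσ'
    rw [neg_injective e, sub_self, abs_zero] at this
    exact sub_eq_zero.1 (abs_eq_zero.1 (le_antisymm this (abs_nonneg _)))
  -- continuity
  have cP : ContinuousOn (fun σ => PP A B k σ) (Set.Icc ((k : ℝ) - 1 / 2) (k + 1 / 2)) := by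
    apply LipschitzOnWith.continuousOn (K := 1)
    apply LipschitzOnWith.of_dist_le_mul
    intro x hx y hy
    rw [dist_eq_norm, Real.dist_eq, NNReal.coe_one, one_mul]
    exact hPl x y (abs_le.2 ⟨by linarith [hx.1], by linarith [hx.2]⟩)
      (abs_le.2 ⟨by linarith [hy.1], by linarith [hy.2]⟩)
  have cQ : ContinuousOn (fun σ => QQ A B k σ) (Set.Icc ((k : ℝ) - 1 / 2) (k + 1 / 2)) := by
    apply LipschitzOnWith.continuousOn (K := 1)
    apply LipschitzOnWith.of_dist_le_mul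
    intro x hx y hy
    rw [dist_eq_norm, Real.dist_eq, NNReal.coe_one, one_mul]
    exact hQl x y (abs_le.2 ⟨by linarith [hx.1], by linarith [hx.2]⟩)
      (abs_le.2 ⟨by linarith [hy.1], by linarith [hy.2]⟩)
  have cT : ContinuousOn (fun σ => TT k σ) (Set.Icc ((k : ℝ) - 1 / 2) (k + 1 / 2)) := by
    unfold TT
    apply ContinuousOn.div (by fun_prop) (by fun_prop)
    intro x hx
    have : 0 < (k : ℝ) + x := by linarith [hx.1]
    have : 0 < rr ^ (2 * k) := by positivity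
    positivity
  have cPsi : ContinuousOn (fun σ => Psi A B k σ) (Set.Icc ((k : ℝ) - 1 / 2) (k + 1 / 2)) := by
    simp only [psi, hp, hq]
    have cT' : ContinuousOn (fun σ => (TT k σ : ℂ)) (Set.Icc ((k : ℝ) - 1 / 2) (k + 1 / 2)) :=
      Complex.continuous_ofReal.comp_continuousOn cT
    exact ((continuousOn_const.add (continuousOn_const.mul cQ)).norm.pow 2).sub
      ((cT'.sub (continuousOn_const.mul cP)).norm.pow 2)
  -- values
  have Tk : TT k k = 0 := by unfold TT; simp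
  have vk : 0 < Psi A B k k := by
    have hk0 : |(k : ℝ) - k| ≤ 1 / 2 := by simp
    have e1 := abs_le.1 (Rb k hk0)
    have e2 := abs_le.1 (Nb k hk0)
    rw [Tk, abs_zero] at e2
    rw [psi, Tk]
    have e3 : 0.999 * a ≤ ‖conj (A k k) + q k‖ := by linarith [e1.1]
    have e4 : ‖((0 : ℝ) : ℂ) - p k‖ ≤ a / 1000 := by linarith [e2.2]
    have e5 := pow_le_pow_left₀ (by positivity) e3 2
    have e6 := pow_le_pow_left₀ (norm_nonneg _) e4 2
    nlinarith [mul_pos a_pos a_pos]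
  have Rlow : ∀ σ : ℝ, |σ - k| ≤ 1 / 2 → 1 ≤ |TT k σ| → Psi A B k σ < 0 := by
    intro σ hσ hT
    have e1 := abs_le.1 (Rb σ hσ)
    have e2 := abs_le.1 (Nb σ hσ)
    rw [psi]
    have e3 : ‖conj (A k k) + q σ‖ ≤ 1 / 10 := by linarith [e1.2]
    have e4 : 1 / 2 ≤ ‖(TT k σ : ℂ) - p σ‖ := by linarith [e2.1]
    have e5 := pow_le_pow_left₀ (norm_nonneg _) e3 2
    have e6 := pow_le_pow_left₀ (by norm_num) e4 2
    nlinarith
  have absT : ∀ σ : ℝ, |σ - k| = 1 / 2 → 1 ≤ |TT k σ| := by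
    intro σ hσ
    have a1 := abs_le.1 hσ.le
    have p1 : 0 < (k : ℝ) + σ := by linarith
    have p3 : 0 < rr ^ (2 * k) := by positivity
    have p4 : 0 < ((k : ℝ) + σ) * (k * rr ^ (2 * k)) := by positivity
    unfold TT
    rw [abs_div, abs_of_pos p4, le_div_iff₀ p4, abs_sub_comm, hσ, one_mul]
    calc ((k : ℝ) + σ) * (k * rr ^ (2 * k)) ≤ (3 * k) * (k * rr ^ (2 * k)) := by
          gcongr; linarith
      _ = 3 * (k ^ 2 * rr ^ (2 * k)) := by ring
      _ ≤ 3 * rr ^ 2 := by have := kk_rr k hk; linarith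
      _ ≤ 1 / 2 := by unfold rr; norm_num
  have m1 : |(k : ℝ) - 1 / 2 - k| = 1 / 2 := by
    rw [show (k : ℝ) - 1 / 2 - k = -(1 / 2) by ring, abs_neg, abs_of_pos (by norm_num)]
  have m2 : |(k : ℝ) + 1 / 2 - k| = 1 / 2 := by
    rw [show (k : ℝ) + 1 / 2 - k = 1 / 2 by ring, abs_of_pos (by norm_num)]
  have v1 : Psi A B k ((k : ℝ) - 1 / 2) < 0 := Rlow _ m1.le (absT _ m1)
  have v2 : Psi A B k ((k : ℝ) + 1 / 2) < 0 := Rlow _ m2.le (absT _ m2)
  obtain ⟨σp, ⟨hp1, hp2⟩, hp0⟩ := intermediate_value_Icc (by linarith : (k : ℝ) - 1 / 2 ≤ k)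
    (cPsi.mono (Set.Icc_subset_Icc le_rfl (by linarith))) (show (0 : ℝ) ∈ _ from ⟨v1.le, vk.le⟩)
  obtain ⟨σm, ⟨hm1, hm2⟩, hm0⟩ := intermediate_value_Icc' (by linarith : (k : ℝ) ≤ k + 1 / 2)
    (cPsi.mono (Set.Icc_subset_Icc (by linarith) le_rfl)) (show (0 : ℝ) ∈ _ from ⟨v2.le, vk.le⟩)
  simp only at hp0 hm0
  have hpk : σp < k := by
    rcases hp2.lt_or_eq with h | h
    · exact h
    · rw [h] at hp0; linarith
  have hmk : (k : ℝ) < σm := by
    rcases hm1.lt_or_eq with h | h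
    · exact h
    · rw [← h] at hm0; linarith
  have Hp : |σp - k| ≤ 1 / 2 := abs_le.2 ⟨by linarith, by linarith⟩
  have Hm : |σm - k| ≤ 1 / 2 := abs_le.2 ⟨by linarith, by linarith⟩
  have Tpos : ∀ σ : ℝ, |σ - k| ≤ 1 / 2 → σ < k → 0 < TT k σ := by
    intro σ hσ h
    have a1 := abs_le.1 hσ
    have p1 : 0 < (k : ℝ) + σ := by linarith
    have p2 : 0 < (k : ℝ) - σ := by linarith
    have p3 : 0 < rr ^ (2 * k) := by positivity
    unfold TT
    positivity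
  have Tneg : ∀ σ : ℝ, |σ - k| ≤ 1 / 2 → (k : ℝ) < σ → TT k σ < 0 := by
    intro σ hσ h
    have a1 := abs_le.1 hσ
    have p1 : 0 < (k : ℝ) + σ := by linarith
    have p2 : (k : ℝ) - σ < 0 := by linarith
    have p3 : 0 < rr ^ (2 * k) := by positivity
    unfold TT
    exact div_neg_of_neg_of_pos p2 (by positivity)
  have bp := zero_bound σp Hp hp0
  have bm := zero_bound σm Hm hm0
  have aeps : a ≤ eps := by
    have he : 0 < eps := by unfold eps; norm_num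
    linarith
  refine ⟨σp, σm, sig_bound k hk σp a Hp aeps bp.2, sig_bound k hk σm a Hm aeps bm.2, hpk, hmk,
    ?_, ?_, ?_, ?_, ?_⟩
  · intro σ hσ
    constructor
    · intro h0
      rcases lt_trichotomy σ (k : ℝ) with h | h | h
      · exact Or.inl (uniq_pos σ σp hσ Hp h0 hp0 (Tpos σ hσ h) (Tpos σp Hp hpk))
      · exfalso; rw [h] at h0; linarith
      · exact Or.inr (uniq_neg σ σm hσ Hm h0 hm0 (Tneg σ hσ h) (Tneg σm Hm hmk))
    · rintro (h | h)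
      · rw [h]; exact hp0
      · rw [h]; exact hm0
  · rw [abs_of_pos (Tpos σp Hp hpk)] at bp; exact bp.1
  · rw [abs_of_pos (Tpos σp Hp hpk)] at bp; exact bp.2
  · rw [abs_of_neg (Tneg σm Hm hmk)] at bm; exact bm.1
  · rw [abs_of_neg (Tneg σm Hm hmk)] at bm; exact bm.2

end Pool.Agent.Stek
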