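import Pool.Agent.Stek.TSeq

/-!
# The dimension of the space of solutions
-/

open scoped BigOperators ComplexConjugate Topology ContDiff
open Complex

noncomputable section

namespace Pool.Agent.Stek

namespace H_Y7

lemma rr_pos : 0 < rr := by unfold rr; positivity
lemma rr_le : rr ≤ 1 / 1000 := by unfold rr; norm_num
lemma eps_pos : 0 < eps := by unfold eps; positivity
lemma eps_le : eps ≤ 1 / 1000 := by unfold eps; norm_num

/-- the `j`-th term of the series -/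
def tm (A B : ℕ → ℕ → ℂ) (m : ℕ) (f : ℕ → ℂ) (j : ℕ) : ℂ :=
  (j : ℂ) * rr ^ (j + m) * (A j m * f j + rr ^ 2 * B j m * conj (f j))

lemma Kb_one {A : ℕ → ℕ → ℂ} (hA : Kb (2 * eps) A) {j m : ℕ} (hj : 1 ≤ j) (hm : 1 ≤ m) :
    ‖A j m‖ ≤ 1 / 4 := by
  refine (hA j m hj hm).trans ?_
  have h1 : (1 : ℝ) ≤ ((j : ℝ) + m) ^ 3 := by
    have h2 : (1 : ℝ) ≤ (j : ℝ) + m := by
      have : (1 : ℝ) ≤ j := by exact_mod_cast hj
      have : (0 : ℝ) ≤ m := by positivity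
      linarith
    exact one_le_pow₀ h2
  rw [div_le_iff₀ (by linarith)]
  have := eps_le
  nlinarith

lemma tm_le {A B : ℕ → ℕ → ℂ} (hA : Kb (2 * eps) A) (hB : Kb (2 * eps) B) {m : ℕ} (hm : 1 ≤ m)
    {f : ℕ → ℂ} {C : ℝ} (hf : ∀ j, ‖f j‖ ≤ C) (j : ℕ) :
    ‖tm A B m f j‖ ≤ (C * rr ^ m) * ((j : ℝ) * rr ^ j) := by
  have hC : 0 ≤ C := (norm_nonneg _).trans (hf 0)
  have hr := rr_pos
  rcases Nat.eq_zero_or_pos j with rfl | hj
  · simp [tm]
  unfold tm
  rw [norm_mul, norm_mul, norm_pow, Complex.norm_natCast, Complex.norm_real,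
    Real.norm_of_nonneg hr.le]
  have h1 : ‖A j m * f j + rr ^ 2 * B j m * conj (f j)‖ ≤ C := by
    refine (norm_add_le _ _).trans ?_
    rw [norm_mul, norm_mul, norm_mul, norm_pow, Complex.norm_real, Real.norm_of_nonneg hr.le,
      Complex.norm_conj]
    have a1 := Kb_one hA hj hm
    have a2 := Kb_one hB hj hm
    have a3 : rr ^ 2 ≤ 1 := pow_le_one₀ hr.le (by have := rr_le; linarith)
    calc ‖A j m‖ * ‖f j‖ + rr ^ 2 * ‖B j m‖ * ‖f j‖ ≤ 1 / 4 * C + 1 * (1 / 4) * C := by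
          gcongr
          · exact hf j
          · exact hf j
      _ ≤ C := by linarith
  calc (j : ℝ) * rr ^ (j + m) * ‖A j m * f j + rr ^ 2 * B j m * conj (f j)‖
      ≤ (j : ℝ) * rr ^ (j + m) * C := by gcongr
    _ = (C * rr ^ m) * ((j : ℝ) * rr ^ j) := by rw [pow_add]; ring

lemma hs_geo : HasSum (fun j : ℕ => (j : ℝ) * rr ^ j) (rr / (1 - rr) ^ 2) := by
  refine hasSum_coe_mul_geometric_of_norm_lt_one ?_
  rw [Real.norm_of_nonneg rr_pos.le]
  have := rr_le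
  linarith

lemma tm_summable {A B : ℕ → ℕ → ℂ} (hA : Kb (2 * eps) A) (hB : Kb (2 * eps) B) {m : ℕ}
    (hm : 1 ≤ m) {f : ℕ → ℂ} {C : ℝ} (hf : ∀ j, ‖f j‖ ≤ C) : Summable (tm A B m f) :=
  Summable.of_norm_bounded (hs_geo.summable.mul_left _) (tm_le hA hB hm hf)

lemma pow_small (m : ℕ) : (4 * (m : ℝ) + 1) * rr ^ m ≤ 1 := by
  have h1 : 1 + (m : ℝ) * 4 ≤ (1 + 4) ^ m := by
    have := one_add_mul_le_pow (a := (4 : ℝ)) (by norm_num) m
    exact this
  have h2 : rr ^ m ≤ (1 / 5 : ℝ) ^ m := by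
    have := rr_le
    exact pow_le_pow_left₀ rr_pos.le (by linarith) m
  calc (4 * (m : ℝ) + 1) * rr ^ m ≤ 5 ^ m * (1 / 5 : ℝ) ^ m := by
        have h3 : 4 * (m : ℝ) + 1 ≤ 5 ^ m := by
          have : (1 + 4 : ℝ) = 5 := by norm_num
          rw [this] at h1
          linarith
        have h4 := pow_nonneg rr_pos.le m
        gcongr
    _ = 1 := by rw [← mul_pow]; norm_num

/-- a bounded solution of the homogeneous system is zero -/
lemma key {A B : ℕ → ℕ → ℂ} (hA : Kb (2 * eps) A) (hB : Kb (2 * eps) B)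
    {e : ℕ → ℂ} {C : ℝ} (he : ∀ j, ‖e j‖ ≤ C) (h0 : e 0 = 0)
    (h : ∀ m : ℕ, 1 ≤ m → ‖e m‖ ≤ (4 * m + 1) * ‖∑' j, tm A B m e j‖) : e = 0 := by
  have hbdd : BddAbove (Set.range fun j => ‖e j‖) := ⟨C, by rintro _ ⟨j, rfl⟩; exact he j⟩
  set S : ℝ := ⨆ j, ‖e j‖ with hS
  have hle : ∀ j, ‖e j‖ ≤ S := fun j => le_ciSup hbdd j
  have hS0 : 0 ≤ S := (norm_nonneg _).trans (hle 0)
  have hr := rr_pos
  have hr2 := rr_le
  have hhalf : ∀ j, ‖e j‖ ≤ S / 2 := by
    intro m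
    rcases Nat.eq_zero_or_pos m with rfl | hm
    · rw [h0, norm_zero]; positivity
    have h1 : ‖∑' j, tm A B m e j‖ ≤ (S * rr ^ m) * (rr / (1 - rr) ^ 2) :=
      tsum_of_norm_bounded (hs_geo.mul_left _) (tm_le hA hB hm hle)
    have h2 : rr / (1 - rr) ^ 2 ≤ 1 / 2 := by
      rw [div_le_iff₀ (by nlinarith)]
      nlinarith
    calc ‖e m‖ ≤ (4 * m + 1) * ‖∑' j, tm A B m e j‖ := h m hm
      _ ≤ (4 * m + 1) * ((S * rr ^ m) * (rr / (1 - rr) ^ 2)) := by gcongr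
      _ ≤ (4 * m + 1) * ((S * rr ^ m) * (1 / 2)) := by gcongr
      _ = ((4 * m + 1) * rr ^ m) * (S / 2) := by ring
      _ ≤ 1 * (S / 2) := by
        gcongr
        exact pow_small m
      _ = S / 2 := one_mul _
  have hSle : S ≤ S / 2 := ciSup_le hhalf
  have hS00 : S = 0 := by linarith
  funext j
  have := hle j
  rw [hS00] at this
  exact norm_le_zero_iff.mp this

lemma Pb_Kb {B : ℕ → ℕ → ℂ} (hB : Pb rr B) : Kb (2 * eps) B := by
  intro j k hj hk
  refine (hB j k hj hk).trans ?_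
  have hj' : (1 : ℝ) ≤ j := by exact_mod_cast hj
  have hk' : (1 : ℝ) ≤ k := by exact_mod_cast hk
  have h1 : (j : ℝ) + k ≤ 2 * ((j : ℝ) * k) := by nlinarith
  have h2 : ((j : ℝ) + k) ^ 3 ≤ 8 * ((j : ℝ) * k) ^ 3 := by
    calc ((j : ℝ) + k) ^ 3 ≤ (2 * ((j : ℝ) * k)) ^ 3 := by gcongr
      _ = _ := by ring
  rw [div_le_div_iff₀ (by positivity) (by positivity)]
  have h3 : 8 * rr ≤ 2 * eps := by unfold rr eps; norm_num
  calc rr * ((j : ℝ) + k) ^ 3 ≤ rr * (8 * ((j : ℝ) * k) ^ 3) := by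
        have := rr_pos
        gcongr
    _ = (8 * rr) * ((j : ℝ) * k) ^ 3 := by ring
    _ ≤ 2 * eps * ((j : ℝ) * k) ^ 3 := by gcongr

end H_Y7

open H_Y7

theorem y7 : Y7 := by
  intro A B σ hcls hσ
  have hA := hcls.a
  have hB := Pb_Kb hcls.b
  -- every solution has zero coefficients
  have hz : ∀ x : ℝ × (ℕ → ℂ), x ∈ Sol A B σ → x.2 = 0 := by
    rintro x ⟨_, h0, ⟨C, hC⟩, h4⟩
    refine key hA hB hC h0 ?_
    intro m hm
    obtain ⟨d, hd, he⟩ := h4 m hm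
    have hd' : ∑' j, tm A B m x.2 j = d := hd.tsum_eq
    rw [hd']
    have hm1 : (1 : ℝ) ≤ m := by exact_mod_cast hm
    have h1 : ‖((m : ℂ) - σ) * x.2 m‖ = ‖((m : ℂ) + σ) * conj d‖ := by rw [he]
    rw [norm_mul, norm_mul, Complex.norm_conj] at h1
    have e1 : ‖(m : ℂ) - σ‖ = |(m : ℝ) - σ| := by
      rw [← Real.norm_eq_abs, ← Complex.norm_real, Complex.ofReal_sub, Complex.ofReal_natCast]
    have e2 : ‖(m : ℂ) + σ‖ = |(m : ℝ) + σ| := by
      rw [← Real.norm_eq_abs, ← Complex.norm_real, Complex.ofReal_add, Complex.ofReal_natCast]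
    rw [e1, e2] at h1
    have h2 : 0 < (m : ℝ) - σ := by linarith
    rw [abs_of_pos h2] at h1
    have h3 : |(m : ℝ) + σ| ≤ (4 * m + 1) * ((m : ℝ) - σ) := by
      rw [abs_le]
      constructor <;> nlinarith
    have h5 : ((m : ℝ) - σ) * ‖x.2 m‖ ≤ ((m : ℝ) - σ) * ((4 * m + 1) * ‖d‖) := by
      rw [h1]
      calc |(m : ℝ) + σ| * ‖d‖ ≤ (4 * m + 1) * ((m : ℝ) - σ) * ‖d‖ := by gcongr
        _ = _ := by ring
    exact le_of_mul_le_mul_left h5 h2
  by_cases hs : σ = 0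
  · rw [if_pos hs]
    have hspan : Sol A B σ = Submodule.span ℝ {((1 : ℝ), (0 : ℕ → ℂ))} := by
      apply le_antisymm
      · intro x hx
        rw [Submodule.mem_span_singleton]
        refine ⟨x.1, ?_⟩
        have := hz x hx
        ext1
        · simp
        · simp [this]
      · rw [Submodule.span_singleton_le_iff_mem]
        refine ⟨by simp [hs], rfl, ⟨0, fun k => by simp⟩, fun k _ => ⟨0, ?_, by simp⟩⟩
        simp
    rw [hspan]
    refine ⟨inferInstance, finrank_span_singleton ?_⟩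
    intro h
    have := congrArg Prod.fst h
    simp at this
  · rw [if_neg hs]
    have hbot : Sol A B σ = ⊥ := by
      rw [Submodule.eq_bot_iff]
      intro x hx
      have h1 := hz x hx
      obtain ⟨h2, -⟩ := hx
      have h3 : x.1 = 0 := by
        rcases mul_eq_zero.mp h2 with h | h
        · exact absurd h hs
        · exact h
      ext1
      · exact h3
      · exact h1
    rw [hbot]
    exact ⟨inferInstance, finrank_bot ℝ _⟩

end Pool.Agent.Stek
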