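import Pool.Agent.Stek.PY7

/-!
# The dimension of the space of solutions near a positive integer
-/

open scoped BigOperators ComplexConjugate Topology ContDiff
open Complex

noncomputable section

namespace Pool.Agent.Stek

namespace H_Y8

open H_Y7

lemma summ_w : Summable (fun j : ℕ => (j : ℝ) * (4 * j + 1) * rr ^ (2 * j - 2)) := by
  rw [← summable_nat_add_iff 1]
  have hr := rr_pos
  have h1 : Summable (fun i : ℕ => 5 * ((i : ℝ) * rr ^ i + rr ^ i)) := by
    refine (Summable.add hs_geo.summable ?_).mul_left 5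
    refine summable_geometric_of_lt_one hr.le ?_
    have := rr_le
    linarith
  refine Summable.of_nonneg_of_le (fun i => by positivity) (fun i => ?_) h1
  have h2 := pow_small i
  have e : 2 * (i + 1) - 2 = i + i := by omega
  rw [e, pow_add]
  push_cast
  have h3 : (4 * ((i : ℝ) + 1) + 1) * rr ^ i ≤ 5 := by
    have h4 : (4 * ((i : ℝ) + 1) + 1) ≤ 5 * (4 * (i : ℝ) + 1) := by
      have : (0 : ℝ) ≤ i := by positivity
      linarith
    calc (4 * ((i : ℝ) + 1) + 1) * rr ^ i ≤ (5 * (4 * (i : ℝ) + 1)) * rr ^ i := by gcongr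
      _ = 5 * ((4 * (i : ℝ) + 1) * rr ^ i) := by ring
      _ ≤ 5 * 1 := by gcongr
      _ = 5 := by norm_num
  calc ((i : ℝ) + 1) * (4 * ((i : ℝ) + 1) + 1) * (rr ^ i * rr ^ i)
      = ((4 * ((i : ℝ) + 1) + 1) * rr ^ i) * (((i : ℝ) + 1) * rr ^ i) := by ring
    _ ≤ 5 * (((i : ℝ) + 1) * rr ^ i) := by gcongr
    _ = _ := by ring

/-- the two series of the system -/
def t1 (A B : ℕ → ℕ → ℂ) (m : ℕ) (x : ℕ → ℂ × ℂ) (j : ℕ) : ℂ :=
  (j : ℂ) * rr ^ (2 * j - 2) * (conj (A j m) * conj (x j).2 + rr ^ 4 * conj (B j m) * (x j).1)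

def t2 (A B : ℕ → ℕ → ℂ) (m : ℕ) (x : ℕ → ℂ × ℂ) (j : ℕ) : ℂ :=
  (j : ℂ) * rr ^ (2 * j - 2) * (conj (A j m) * conj (x j).1 + conj (B j m) * (x j).2)

lemma t1_summable {A B : ℕ → ℕ → ℂ} (hA : Kb (2 * eps) A) (hB : Kb (2 * eps) B) {m : ℕ}
    (hm : 1 ≤ m) {x : ℕ → ℂ × ℂ} {C : ℝ} (hx : ∀ j : ℕ, ‖x j‖ ≤ C * (4 * j + 1)) :
    Summable (t1 A B m x) := by
  refine Summable.of_norm_bounded (summ_w.mul_left C) (fun j => ?_)
  have hr := rr_pos
  rcases Nat.eq_zero_or_pos j with rfl | hj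
  · simp [t1]
  have hC : 0 ≤ C * (4 * j + 1) := (norm_nonneg _).trans (hx j)
  unfold t1
  rw [norm_mul, norm_mul, norm_pow, Complex.norm_natCast, Complex.norm_real,
    Real.norm_of_nonneg hr.le]
  have h1 : ‖conj (A j m) * conj (x j).2 + rr ^ 4 * conj (B j m) * (x j).1‖ ≤ C * (4 * j + 1) := by
    refine (norm_add_le _ _).trans ?_
    rw [norm_mul, norm_mul, norm_mul, norm_pow, Complex.norm_real, Real.norm_of_nonneg hr.le,
      Complex.norm_conj, Complex.norm_conj, Complex.norm_conj]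
    have a1 := Kb_one hA hj hm
    have a2 := Kb_one hB hj hm
    have a3 : rr ^ 4 ≤ 1 := pow_le_one₀ hr.le (by have := rr_le; linarith)
    have a4 : ‖(x j).1‖ ≤ C * (4 * j + 1) := (norm_fst_le _).trans (hx j)
    have a5 : ‖(x j).2‖ ≤ C * (4 * j + 1) := (norm_snd_le _).trans (hx j)
    calc ‖A j m‖ * ‖(x j).2‖ + rr ^ 4 * ‖B j m‖ * ‖(x j).1‖
        ≤ 1 / 4 * (C * (4 * j + 1)) + 1 * (1 / 4) * (C * (4 * j + 1)) := by gcongr
      _ ≤ C * (4 * j + 1) := by linarith
  calc (j : ℝ) * rr ^ (2 * j - 2) * ‖conj (A j m) * conj (x j).2 + rr ^ 4 * conj (B j m) * (x j).1‖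
      ≤ (j : ℝ) * rr ^ (2 * j - 2) * (C * (4 * j + 1)) := by gcongr
    _ = C * ((j : ℝ) * (4 * j + 1) * rr ^ (2 * j - 2)) := by ring

lemma t2_summable {A B : ℕ → ℕ → ℂ} (hA : Kb (2 * eps) A) (hB : Kb (2 * eps) B) {m : ℕ}
    (hm : 1 ≤ m) {x : ℕ → ℂ × ℂ} {C : ℝ} (hx : ∀ j : ℕ, ‖x j‖ ≤ C * (4 * j + 1)) :
    Summable (t2 A B m x) := by
  refine Summable.of_norm_bounded (summ_w.mul_left C) (fun j => ?_)
  have hr := rr_pos
  rcases Nat.eq_zero_or_pos j with rfl | hj
  · simp [t2]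
  have hC : 0 ≤ C * (4 * j + 1) := (norm_nonneg _).trans (hx j)
  unfold t2
  rw [norm_mul, norm_mul, norm_pow, Complex.norm_natCast, Complex.norm_real,
    Real.norm_of_nonneg hr.le]
  have h1 : ‖conj (A j m) * conj (x j).1 + conj (B j m) * (x j).2‖ ≤ C * (4 * j + 1) := by
    refine (norm_add_le _ _).trans ?_
    rw [norm_mul, norm_mul, Complex.norm_conj, Complex.norm_conj, Complex.norm_conj]
    have a1 := Kb_one hA hj hm
    have a2 := Kb_one hB hj hm
    have a4 : ‖(x j).1‖ ≤ C * (4 * j + 1) := (norm_fst_le _).trans (hx j)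
    have a5 : ‖(x j).2‖ ≤ C * (4 * j + 1) := (norm_snd_le _).trans (hx j)
    calc ‖A j m‖ * ‖(x j).1‖ + ‖B j m‖ * ‖(x j).2‖
        ≤ 1 / 4 * (C * (4 * j + 1)) + (1 / 4) * (C * (4 * j + 1)) := by gcongr
      _ ≤ C * (4 * j + 1) := by linarith
  calc (j : ℝ) * rr ^ (2 * j - 2) * ‖conj (A j m) * conj (x j).1 + conj (B j m) * (x j).2‖
      ≤ (j : ℝ) * rr ^ (2 * j - 2) * (C * (4 * j + 1)) := by gcongr
    _ = C * ((j : ℝ) * (4 * j + 1) * rr ^ (2 * j - 2)) := by ring

/-- the sequence determined by its `k`-th entry -/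
def full (k : ℕ) (x : ℕ → ℂ × ℂ) (z : ℂ) (j : ℕ) : ℂ :=
  (if j = k then z else 0) + k * rr ^ (k + j) * (rr ^ 2 * (x j).1 * z + (x j).2 * conj z)

lemma resp (A B : ℕ → ℕ → ℂ) (k m : ℕ) (x : ℕ → ℂ × ℂ) (z S1 S2 : ℂ)
    (h1 : HasSum (t1 A B m x) S1) (h2 : HasSum (t2 A B m x) S2) :
    HasSum (tm A B m (full k x z))
      (conj ((k : ℂ) * rr ^ (k + m) * (rr ^ 2 * z * (conj (B k m) + S1)
        + conj z * (conj (A k m) + rr ^ 4 * S2)))) := by
  -- the delta part
  have hd : HasSum (fun j => tm A B m (fun i => if i = k then z else 0) j)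
      ((k : ℂ) * rr ^ (k + m) * (A k m * z + rr ^ 2 * B k m * conj z)) := by
    have := hasSum_single (f := fun j => tm A B m (fun i => if i = k then z else 0) j) k (by
      intro j hj
      simp [tm, hj])
    simpa [tm] using this
  -- the response part
  have h3 : HasSum (fun j => conj ((k : ℂ) * rr ^ (k + m) * (rr ^ 2 * z * t1 A B m x j
      + conj z * (rr ^ 4 * t2 A B m x j))))
      (conj ((k : ℂ) * rr ^ (k + m) * (rr ^ 2 * z * S1 + conj z * (rr ^ 4 * S2)))) := by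
    have h4 := ((h1.mul_left ((rr : ℂ) ^ 2 * z)).add ((h2.mul_left ((rr : ℂ) ^ 4)).mul_left
      (conj z))).mul_left ((k : ℂ) * rr ^ (k + m))
    exact h4.map (starRingEnd ℂ) Complex.continuous_conj
  have h5 := hd.add h3
  have e1 : ((k : ℂ) * rr ^ (k + m) * (A k m * z + rr ^ 2 * B k m * conj z))
      + (conj ((k : ℂ) * rr ^ (k + m) * (rr ^ 2 * z * S1 + conj z * (rr ^ 4 * S2))))
      = conj ((k : ℂ) * rr ^ (k + m) * (rr ^ 2 * z * (conj (B k m) + S1)
        + conj z * (conj (A k m) + rr ^ 4 * S2))) := by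
    simp only [map_mul, map_add, map_pow, Complex.conj_ofReal, Complex.conj_conj, map_natCast]
    ring
  rw [e1] at h5
  refine h5.congr_fun ?_ |> fun h => h
  intro j
  rcases Nat.eq_zero_or_pos j with rfl | hj
  · simp [tm, t1, t2]
  · obtain ⟨i, rfl⟩ : ∃ i, j = i + 1 := ⟨j - 1, by omega⟩
    have e : 2 * (i + 1) - 2 = i + i := by omega
    simp only [tm, t1, t2, full, e, map_mul, map_add, map_pow, Complex.conj_ofReal,
      Complex.conj_conj, map_natCast]
    ring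

lemma WW_le {k m : ℕ} {σ : ℝ} (hm : 1 ≤ m) (hmk : m ≠ k) (hσ : |σ - k| ≤ 1 / 2) :
    0 < |(m : ℝ) - σ| ∧ |(m : ℝ) + σ| ≤ (4 * m + 1) * |(m : ℝ) - σ| := by
  have hm1 : (1 : ℝ) ≤ m := by exact_mod_cast hm
  rw [abs_le] at hσ
  rcases lt_or_gt_of_ne hmk with h | h
  · have h1 : (m : ℝ) + 1 ≤ k := by exact_mod_cast h
    have h2 : (m : ℝ) - σ ≤ -(1 / 2) := by linarith [hσ.1]
    rw [abs_of_neg (show (m : ℝ) - σ < 0 by linarith)]
    refine ⟨by linarith, ?_⟩
    rw [abs_le]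
    constructor <;> nlinarith [hσ.1, hσ.2]
  · have h1 : (k : ℝ) + 1 ≤ m := by exact_mod_cast h
    have hk : (0 : ℝ) ≤ k := by positivity
    have h2 : (1 / 2 : ℝ) ≤ (m : ℝ) - σ := by linarith [hσ.2]
    rw [abs_of_pos (show 0 < (m : ℝ) - σ by linarith)]
    refine ⟨by linarith, ?_⟩
    rw [abs_le]
    constructor <;> nlinarith [hσ.1, hσ.2]

lemma norm_sub_real (m : ℕ) (σ : ℝ) : ‖(m : ℂ) - σ‖ = |(m : ℝ) - σ| := by
  rw [← Real.norm_eq_abs, ← Complex.norm_real, Complex.ofReal_sub, Complex.ofReal_natCast]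

lemma norm_add_real (m : ℕ) (σ : ℝ) : ‖(m : ℂ) + σ‖ = |(m : ℝ) + σ| := by
  rw [← Real.norm_eq_abs, ← Complex.norm_real, Complex.ofReal_add, Complex.ofReal_natCast]

/-- real dimension of `{z | α z = β conj z}` -/
def VV (α β : ℂ) : Submodule ℝ ℂ where
  carrier := {z | α * z = β * conj z}
  zero_mem' := by simp
  add_mem' := by
    intro a b ha hb
    simp only [Set.mem_ofPred_eq, map_add] at *
    linear_combination ha + hb
  smul_mem' := by
    intro c a ha
    simp only [Set.mem_ofPred_eq, Complex.real_smul, map_mul, Complex.conj_ofReal] at *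
    linear_combination (c : ℂ) * ha

lemma VV_bot {α β : ℂ} (h : ‖α‖ ≠ ‖β‖) : VV α β = ⊥ := by
  rw [Submodule.eq_bot_iff]
  intro z hz
  have hz' : α * z = β * conj z := hz
  have h1 : ‖α * z‖ = ‖β * conj z‖ := by rw [hz']
  rw [norm_mul, norm_mul, Complex.norm_conj] at h1
  by_contra hne
  exact h (mul_right_cancel₀ (norm_ne_zero_iff.mpr hne) h1)

lemma VV_span {α β : ℂ} (h : ‖α‖ = ‖β‖) (hβ : β ≠ 0) :
    ∃ z0 : ℂ, z0 ≠ 0 ∧ VV α β = Submodule.span ℝ {z0} := by
  have hα : α ≠ 0 := by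
    rw [← norm_ne_zero_iff, h]
    exact norm_ne_zero_iff.mpr hβ
  have hab : conj β * β = conj α * α := by
    rw [← Complex.normSq_eq_conj_mul_self, ← Complex.normSq_eq_conj_mul_self,
      Complex.normSq_eq_norm_sq, Complex.normSq_eq_norm_sq, h]
  have hcα : conj α ≠ 0 := by
    rw [Ne, map_eq_zero]
    exact hα
  have hmem : ∀ u : ℂ, u + β / α * conj u ∈ VV α β := by
    intro u
    change α * (u + β / α * conj u) = β * conj (u + β / α * conj u)
    rw [map_add, map_mul, map_div₀, Complex.conj_conj]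
    field_simp
    linear_combination (-u) * hab
  obtain ⟨z0, hz0, hne⟩ : ∃ z0 : ℂ, z0 ∈ VV α β ∧ z0 ≠ 0 := by
    by_cases h1 : (1 : ℂ) + β / α * conj 1 = 0
    · refine ⟨_, hmem I, ?_⟩
      intro h2
      rw [map_one, mul_one] at h1
      have h3 : β / α = -1 := by linear_combination h1
      rw [h3, Complex.conj_I] at h2
      have : (2 : ℂ) * I = 0 := by linear_combination h2
      simp at this
    · exact ⟨_, hmem 1, h1⟩
  refine ⟨z0, hne, ?_⟩
  apply le_antisymm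
  · intro w hw
    rw [Submodule.mem_span_singleton]
    have e1 : α * z0 = β * conj z0 := hz0
    have e2 : α * w = β * conj w := hw
    have hcz : conj z0 ≠ 0 := by
      rw [Ne, map_eq_zero]
      exact hne
    have e3 : conj (w / z0) = w / z0 := by
      rw [map_div₀, div_eq_div_iff hcz hne]
      apply mul_left_cancel₀ (mul_ne_zero hα hβ)
      linear_combination (-α * z0) * e2 + (α * w) * e1
    refine ⟨(w / z0).re, ?_⟩
    rw [Complex.real_smul, Complex.conj_eq_iff_re.mp e3]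
    field_simp
  · rw [Submodule.span_singleton_le_iff_mem]
    exact hz0

end H_Y8

open H_Y7 H_Y8

open Classical in
theorem y8 (h1 : Y1) (h4 : Y4) : Y8 := by
  intro A B k σ hcls hk hσ
  have hA := hcls.a
  have hB := Pb_Kb hcls.b
  have hr := rr_pos
  have hk1 : (1 : ℝ) ≤ k := by exact_mod_cast hk
  obtain ⟨⟨⟨C, hC⟩, hx0, hxm⟩, -, -⟩ := h1 A B k σ hA hB hk hσ
  set x : ℕ → ℂ × ℂ := sysv A B k σ with hx
  have hσ2 := abs_le.mp hσ
  have hσ0 : 0 < σ := by linarith [hσ2.1]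
  have hxk : x k = 0 := hx0 k (Or.inr rfl)
  have hx00 : x 0 = 0 := hx0 0 (Or.inl rfl)
  have hC0 : 0 ≤ C := by
    have := (norm_nonneg _).trans (hC 0)
    simpa using this
  have hs1 : ∀ m, 1 ≤ m → Summable (t1 A B m x) := fun m hm => t1_summable hA hB hm hC
  have hs2 : ∀ m, 1 ≤ m → Summable (t2 A B m x) := fun m hm => t2_summable hA hB hm hC
  -- the sequence `full`
  have hfull : ∀ z : ℂ, ∀ m, 1 ≤ m → HasSum (tm A B m (full k x z))
      (conj ((k : ℂ) * rr ^ (k + m) * (rr ^ 2 * z * (conj (B k m) + ∑' j, t1 A B m x j)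
        + conj z * (conj (A k m) + rr ^ 4 * ∑' j, t2 A B m x j)))) := by
    intro z m hm
    exact resp A B k m x z _ _ (hs1 m hm).hasSum (hs2 m hm).hasSum
  have hfull0 : ∀ z, full k x z 0 = 0 := by
    intro z
    have : (0 : ℕ) ≠ k := by omega
    simp [full, this, hx00]
  have hfullk : ∀ z, full k x z k = z := by
    intro z
    simp [full, hxk]
  have hfullm : ∀ z : ℂ, ∀ m : ℕ, 1 ≤ m → m ≠ k →
      full k x z m = WW σ m * ((k : ℂ) * rr ^ (k + m) * (rr ^ 2 * z * (conj (B k m) + ∑' j, t1 A B m x j)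
        + conj z * (conj (A k m) + rr ^ 4 * ∑' j, t2 A B m x j))) := by
    intro z m hm hmk
    obtain ⟨e1, e2⟩ := hxm m hm hmk
    change (x m).1 = WW σ m * (conj (B k m) + ∑' j, t1 A B m x j) at e1
    change (x m).2 = WW σ m * (conj (A k m) + rr ^ 4 * ∑' j, t2 A B m x j) at e2
    unfold full
    rw [if_neg hmk, e1, e2]
    ring
  have hfullb : ∀ z : ℂ, ∃ D : ℝ, ∀ j, ‖full k x z j‖ ≤ D := by
    intro z
    refine ⟨‖z‖ + k * (C * ‖z‖ + C * ‖z‖), fun j => ?_⟩
    unfold full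
    refine (norm_add_le _ _).trans ?_
    have a1 : ‖(if j = k then z else 0 : ℂ)‖ ≤ ‖z‖ := by
      split_ifs
      · exact le_rfl
      · rw [norm_zero]; exact norm_nonneg z
    have a2 : ‖(k : ℂ) * rr ^ (k + j) * (rr ^ 2 * (x j).1 * z + (x j).2 * conj z)‖
        ≤ k * (C * ‖z‖ + C * ‖z‖) := by
      rw [norm_mul, norm_mul, norm_pow, Complex.norm_natCast, Complex.norm_real,
        Real.norm_of_nonneg hr.le]
      have b1 : ‖rr ^ 2 * (x j).1 * z + (x j).2 * conj z‖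
          ≤ (C * (4 * j + 1)) * ‖z‖ + (C * (4 * j + 1)) * ‖z‖ := by
        refine (norm_add_le _ _).trans ?_
        rw [norm_mul, norm_mul, norm_mul, norm_pow, Complex.norm_real, Real.norm_of_nonneg hr.le,
          Complex.norm_conj]
        have a3 : rr ^ 2 ≤ 1 := pow_le_one₀ hr.le (by have := rr_le; linarith)
        have a4 : ‖(x j).1‖ ≤ C * (4 * j + 1) := (norm_fst_le _).trans (hC j)
        have a5 : ‖(x j).2‖ ≤ C * (4 * j + 1) := (norm_snd_le _).trans (hC j)
        calc rr ^ 2 * ‖(x j).1‖ * ‖z‖ + ‖(x j).2‖ * ‖z‖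
            ≤ 1 * (C * (4 * j + 1)) * ‖z‖ + (C * (4 * j + 1)) * ‖z‖ := by gcongr
          _ = _ := by ring
      have b2 := pow_small j
      have b3 : rr ^ (k + j) ≤ rr ^ j := by
        apply pow_le_pow_of_le_one hr.le (by have := rr_le; linarith) (by omega)
      calc (k : ℝ) * rr ^ (k + j) * ‖rr ^ 2 * (x j).1 * z + (x j).2 * conj z‖
          ≤ (k : ℝ) * rr ^ j * ((C * (4 * j + 1)) * ‖z‖ + (C * (4 * j + 1)) * ‖z‖) := by gcongr
        _ = (k * (C * ‖z‖ + C * ‖z‖)) * ((4 * (j : ℝ) + 1) * rr ^ j) := by ring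
        _ ≤ (k * (C * ‖z‖ + C * ‖z‖)) * 1 := by gcongr
        _ = _ := mul_one _
    exact add_le_add a1 a2
  -- the equation at `k`
  set α : ℂ := (TT k σ : ℂ) - rr ^ 2 * PP A B k σ with hα
  set β : ℂ := conj (A k k) + rr ^ 4 * QQ A B k σ with hβ
  have hPP : PP A B k σ = conj (B k k) + ∑' j, t1 A B k x j := rfl
  have hQQ : QQ A B k σ = ∑' j, t2 A B k x j := rfl
  have hden : ((k : ℂ) + σ) * (k * rr ^ (2 * k)) ≠ 0 := by
    have : (0 : ℝ) < ((k : ℝ) + σ) * (k * rr ^ (2 * k)) := by positivity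
    have h2 : (((((k : ℝ) + σ) * (k * rr ^ (2 * k)) : ℝ)) : ℂ) ≠ 0 := by
      exact_mod_cast this.ne'
    push_cast at h2
    exact h2
  have hTT : (TT k σ : ℂ) * (((k : ℂ) + σ) * (k * rr ^ (2 * k))) = (k : ℂ) - σ := by
    unfold TT
    push_cast
    rw [div_mul_cancel₀ _ hden]
  have heqk : ∀ z : ℂ, (((k : ℂ) - σ) * z = ((k : ℂ) + σ) * ((k : ℂ) * rr ^ (k + k) *
      (rr ^ 2 * z * (conj (B k k) + ∑' j, t1 A B k x j)
        + conj z * (conj (A k k) + rr ^ 4 * ∑' j, t2 A B k x j)))) ↔ z ∈ VV α β := by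
    intro z
    change _ ↔ α * z = β * conj z
    rw [← hPP, ← hQQ, ← hTT, hα, ← hβ]
    have e : k + k = 2 * k := by ring
    rw [e]
    constructor
    · intro h
      apply mul_left_cancel₀ hden
      linear_combination h
    · intro h
      linear_combination ((k : ℂ) + σ) * (k * rr ^ (2 * k)) * h
  -- solutions are determined by the `k`-th entry
  have hsol : ∀ y : ℝ × (ℕ → ℂ), y ∈ Sol A B σ → y = (0, full k x (y.2 k)) ∧ y.2 k ∈ VV α β := by
    rintro y ⟨hy1, hy0, ⟨D, hD⟩, hy4⟩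
    have hy1' : y.1 = 0 := by
      rcases mul_eq_zero.mp hy1 with h | h
      · exact absurd h hσ0.ne'
      · exact h
    obtain ⟨D', hD'⟩ := hfullb (y.2 k)
    set e : ℕ → ℂ := fun j => y.2 j - full k x (y.2 k) j with he
    have heb : ∀ j, ‖e j‖ ≤ D + D' := fun j =>
      (norm_sub_le _ _).trans (add_le_add (hD j) (hD' j))
    have he0 : e 0 = 0 := by
      simp only [he]
      rw [hfull0, hy0, sub_zero]
    have hsub : ∀ m, 1 ≤ m → ∀ d : ℂ, HasSum (tm A B m y.2) d →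
        HasSum (tm A B m e) (d - conj ((k : ℂ) * rr ^ (k + m) * (rr ^ 2 * (y.2 k) *
        (conj (B k m) + ∑' j, t1 A B m x j)
        + conj (y.2 k) * (conj (A k m) + rr ^ 4 * ∑' j, t2 A B m x j)))) := by
      intro m hm d hd
      refine (hd.sub (hfull (y.2 k) m hm)).congr_fun ?_ |> fun h => h
      intro j
      simp only [tm, he, map_sub]
      ring
    have hez : e = 0 := by
      refine key hA hB heb he0 ?_
      intro m hm
      by_cases hmk : m = k
      · have : e m = 0 := by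
          simp only [he]
          rw [hmk, hfullk, sub_self]
        rw [this, norm_zero]
        positivity
      obtain ⟨d, hd, hde⟩ := hy4 m hm
      have hd' := (hsub m hm d hd).tsum_eq
      rw [hd']
      obtain ⟨w1, w2⟩ := WW_le hm hmk hσ
      have w3 : (m : ℂ) - σ ≠ 0 := by
        rw [← norm_pos_iff, norm_sub_real]
        exact w1
      have e1 : ((m : ℂ) - σ) * e m = ((m : ℂ) + σ) * conj (d - conj ((k : ℂ) * rr ^ (k + m) *
          (rr ^ 2 * (y.2 k) * (conj (B k m) + ∑' j, t1 A B m x j)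
          + conj (y.2 k) * (conj (A k m) + rr ^ 4 * ∑' j, t2 A B m x j)))) := by
        have hWW : (WW σ m : ℂ) * ((m : ℂ) - σ) = (m : ℂ) + σ := by
          unfold WW
          push_cast
          field_simp
        rw [map_sub, Complex.conj_conj]
        simp only [he]
        rw [hfullm _ m hm hmk]
        linear_combination hde - ((k : ℂ) * rr ^ (k + m) *
          (rr ^ 2 * (y.2 k) * (conj (B k m) + ∑' j, t1 A B m x j)
          + conj (y.2 k) * (conj (A k m) + rr ^ 4 * ∑' j, t2 A B m x j))) * hWW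
      have e2 := congrArg norm e1
      rw [norm_mul, norm_mul, Complex.norm_conj, norm_sub_real, norm_add_real] at e2
      have e3 : |(m : ℝ) - σ| * ‖e m‖ ≤ |(m : ℝ) - σ| * ((4 * m + 1) *
          ‖d - conj ((k : ℂ) * rr ^ (k + m) *
          (rr ^ 2 * (y.2 k) * (conj (B k m) + ∑' j, t1 A B m x j)
          + conj (y.2 k) * (conj (A k m) + rr ^ 4 * ∑' j, t2 A B m x j)))‖) := by
        rw [e2]
        refine (mul_le_mul_of_nonneg_right w2 (norm_nonneg _)).trans (le_of_eq ?_)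
        ring
      exact le_of_mul_le_mul_left e3 w1
    have hyf : y.2 = full k x (y.2 k) := by
      funext j
      have := congrFun hez j
      simp only [he, Pi.zero_apply] at this
      exact sub_eq_zero.mp this
    refine ⟨Prod.ext hy1' hyf, ?_⟩
    rw [← heqk]
    obtain ⟨d, hd, hde⟩ := hy4 k hk
    have hd2 := hsub k hk d hd
    rw [hez] at hd2
    have hz : tm A B k (0 : ℕ → ℂ) = fun _ => 0 := by
      funext j
      simp [tm]
    rw [hz] at hd2
    have hd3 := hd2.unique hasSum_zero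
    have hd4 : d = _ := sub_eq_zero.mp hd3
    rw [hde, hd4, Complex.conj_conj]
  have hmem : ∀ z : ℂ, z ∈ VV α β → ((0 : ℝ), full k x z) ∈ Sol A B σ := by
    intro z hz
    refine ⟨by simp, hfull0 z, hfullb z, fun m hm => ⟨_, hfull z m hm, ?_⟩⟩
    rw [Complex.conj_conj]
    by_cases hmk : m = k
    · subst hmk
      change ((m : ℂ) - σ) * full m x z m = _
      rw [hfullk]
      exact (heqk z).mpr hz
    · change ((m : ℂ) - σ) * full k x z m = _
      have w3 : (m : ℂ) - σ ≠ 0 := by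
        rw [← norm_pos_iff, norm_sub_real]
        exact (WW_le hm hmk hσ).1
      rw [hfullm z m hm hmk]
      unfold WW
      push_cast
      field_simp
  -- the linear map
  let L : Sol A B σ →ₗ[ℝ] ℂ :=
    { toFun := fun y => y.1.2 k
      map_add' := fun a b => rfl
      map_smul' := fun c a => rfl }
  have hLinj : Function.Injective L := by
    intro a b hab
    have e1 := (hsol a.1 a.2).1
    have e2 := (hsol b.1 b.2).1
    have e3 : a.1.2 k = b.1.2 k := hab
    apply Subtype.ext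
    rw [e1, e2, e3]
  have hLrange : LinearMap.range L = VV α β := by
    ext z
    constructor
    · rintro ⟨a, rfl⟩
      exact (hsol a.1 a.2).2
    · intro hz
      exact ⟨⟨_, hmem z hz⟩, hfullk z⟩
  have hfin : FiniteDimensional ℝ (Sol A B σ) := FiniteDimensional.of_injective L hLinj
  have hrank : Module.finrank ℝ (Sol A B σ) = Module.finrank ℝ (VV α β) := by
    rw [← hLrange, LinearMap.finrank_range_of_inj hLinj]
  refine ⟨hfin, ?_⟩
  rw [hrank]
  have hPsi : Psi A B k σ = ‖β‖ ^ 2 - ‖α‖ ^ 2 := rfl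
  have hβ0 : β ≠ 0 := by
    have q1 := (h4 A B k σ σ hA hB hk hσ hσ).2.1
    have q2 := hcls.d k hk
    rw [← norm_pos_iff]
    have q3 : ‖(rr : ℂ) ^ 4 * QQ A B k σ‖ ≤ rr ^ 4 * (100 * eps ^ 2 / ((k : ℝ) + 1) ^ 6) := by
      rw [norm_mul, norm_pow, Complex.norm_real, Real.norm_of_nonneg hr.le]
      gcongr
    have q4 : rr ^ 4 * (100 * eps ^ 2 / ((k : ℝ) + 1) ^ 6) < eps ^ 2 / (2 * (2 * (k : ℝ)) ^ 3) := by
      rw [mul_div_assoc', div_lt_div_iff₀ (by positivity) (by positivity)]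
      have q5 : rr ^ 4 * 1600 < 1 := by unfold rr; norm_num
      have q6 : (k : ℝ) ^ 3 ≤ ((k : ℝ) + 1) ^ 6 := by
        calc (k : ℝ) ^ 3 ≤ ((k : ℝ) + 1) ^ 3 := by gcongr; linarith
          _ ≤ ((k : ℝ) + 1) ^ 6 := pow_le_pow_right₀ (by linarith) (by norm_num)
      have he := eps_pos
      calc rr ^ 4 * (100 * eps ^ 2) * (2 * (2 * (k : ℝ)) ^ 3)
          = (rr ^ 4 * 1600) * (eps ^ 2 * (k : ℝ) ^ 3) := by ring
        _ < 1 * (eps ^ 2 * (k : ℝ) ^ 3) := by gcongr
        _ ≤ 1 * (eps ^ 2 * ((k : ℝ) + 1) ^ 6) := by gcongr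
        _ = _ := by ring
    have q7 : ‖conj (A k k)‖ ≤ ‖β‖ + ‖(rr : ℂ) ^ 4 * QQ A B k σ‖ := by
      have : conj (A k k) = β - (rr : ℂ) ^ 4 * QQ A B k σ := by rw [hβ]; ring
      rw [this]
      exact norm_sub_le _ _
    rw [Complex.norm_conj] at q7
    linarith
  by_cases h0 : Psi A B k σ = 0
  · rw [if_pos h0]
    rw [hPsi, sub_eq_zero] at h0
    have h5 : ‖α‖ = ‖β‖ := by
      have := (sq_eq_sq₀ (norm_nonneg β) (norm_nonneg α)).mp h0
      exact this.symm
    obtain ⟨z0, hz0, hsp⟩ := VV_span h5 hβ0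
    rw [hsp]
    exact finrank_span_singleton hz0
  · rw [if_neg h0]
    have h5 : ‖α‖ ≠ ‖β‖ := by
      intro h6
      apply h0
      rw [hPsi, h6, sub_self]
    rw [VV_bot h5]
    exact finrank_bot ℝ ℂ

end Pool.Agent.Stek
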