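import Pool.Agent.Stek.Main
import Pool.Agent.Stek.PC1
import Pool.Agent.Stek.PC2
import Pool.Agent.Stek.PC3
import Pool.Agent.Stek.PC3a
import Pool.Agent.Stek.PC3e
import Pool.Agent.Stek.PF1
import Pool.Agent.Stek.PF10
import Pool.Agent.Stek.PF11
import Pool.Agent.Stek.PF3
import Pool.Agent.Stek.PF4
import Pool.Agent.Stek.PF12a
import Pool.Agent.Stek.PF12b
import Pool.Agent.Stek.PF12c
import Pool.Agent.Stek.PF13
import Pool.Agent.Stek.PF5a
import Pool.Agent.Stek.PF5b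
import Pool.Agent.Stek.PF6
import Pool.Agent.Stek.PF7
import Pool.Agent.Stek.PF9
import Pool.Agent.Stek.PG1
import Pool.Agent.Stek.PG2
import Pool.Agent.Stek.PG3
import Pool.Agent.Stek.PG4
import Pool.Agent.Stek.PG5
import Pool.Agent.Stek.PG6
import Pool.Agent.Stek.PG7
import Pool.Agent.Stek.PG8
import Pool.Agent.Stek.PG9
import Pool.Agent.Stek.PH0
import Pool.Agent.Stek.PH1
import Pool.Agent.Stek.PH2
import Pool.Agent.Stek.PH3
import Pool.Agent.Stek.PH4
import Pool.Agent.Stek.PH5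
import Pool.Agent.Stek.PS1
import Pool.Agent.Stek.PS3
import Pool.Agent.Stek.PS5
import Pool.Agent.Stek.PS6
import Pool.Agent.Stek.PS7
import Pool.Agent.Stek.PS8
import Pool.Agent.Stek.PS9
import Pool.Agent.Stek.PY0
import Pool.Agent.Stek.PY1
import Pool.Agent.Stek.PY2
import Pool.Agent.Stek.PY4
import Pool.Agent.Stek.PY4b
import Pool.Agent.Stek.PY5
import Pool.Agent.Stek.PY6
import Pool.Agent.Stek.PY7
import Pool.Agent.Stek.PY8

/-!
# The example, all targets proved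
-/

open scoped BigOperators ComplexConjugate Topology ContDiff
open Complex Metric InnerProductSpace

noncomputable section

namespace Pool.Agent.Stek

open Classical in
theorem final :
    ∃ (M₁ M₂ : Surf) (SN : Set ℂ) (τ : ℕ → ℝ), M₁.IsNeumannPart SN ∧
      StrictMono τ ∧ τ 0 = 0 ∧ Filter.Tendsto τ Filter.atTop Filter.atTop ∧
      ∀ σ : ℝ, FiniteDimensional ℝ (M₁.eigen SN σ) ∧ FiniteDimensional ℝ (M₂.eigen ∅ σ) ∧
        Module.finrank ℝ (M₁.eigen SN σ) = (if σ ∈ Set.range τ then 1 else 0) ∧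
        Module.finrank ℝ (M₂.eigen ∅ σ) = (if σ ∈ Set.range τ then 1 else 0) := by
  have S1' : S1 := s1
  have S3' : S3 := s3 S1'
  have S4' : S4 := s4
  have S5' : S5 := s5 S1' S3'
  have S6' : S6 := s6
  have S7' : S7 := s7
  have S8' : S8 := s8
  have S9' : S9 := s9 S6'
  have Y0' : Y0 := y0
  have Y1' : Y1 := y1 Y0'
  have Y2' : Y2 := y2 Y1'
  have Y3' : Y3 := y3 Y1'
  have Y4' : Y4 := y4 Y1' Y3'
  have Y4b' : Y4b := y4b Y1' Y2'
  have Y5' : Y5 := y5 Y4' Y4b'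
  have Y6' : Y6 := y6 Y4'
  have Y7' : Y7 := y7
  have Y8' : Y8 := y8 Y1' Y4'
  have C2' : C2 := c2 S5' S9'
  have C1' : C1 := c1 S3' S4' S9' C2'
  have C3e' : C3e := c3e S3' S4' S7' S9' C1' Y5'
  have C3a' : C3a := c3a C3e' C2' C1' S9' S7'
  have C3' : C3 := c3 S3' S7' S8' S9' C1' C2' C3a' Y0' Y5' Y6'
  have F1' : F1 := f1
  have F2' : F2 := f2
  have F3' : F3 := f3 S3'
  have F4' : F4 := f4 S6'
  have F5a' : F5a := f5a F1' F3' S3'
  have F5b' : F5b := f5b F1' F4' S6'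
  have F6' : F6 := f6 F1' F3' S3'
  have F8' : F8 := f8
  have F9' : F9 := f9 F8'
  have F10' : F10 := f10 F1' F4' F5a' F5b' S6'
  have F11' : F11 := f11 F1' F4' F6' F10' S3' S6' S9'
  have F12a' : F12a := f12a
  have F12b' : F12b := f12b
  have F12c' : F12c := f12c
  have F13' : F13 := f13 F8'
  have G1' : G1 := g1
  have G2' : G2 := g2 F1' F2'
  have G3' : G3 := g3 F1' F2'
  have G4' : G4 := g4 F1' F2' G2' G3'
  have G5' : G5 := g5 F1' G2'
  have G6' : G6 := g6 F1' F2' G2' G5'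
  have G7' : G7 := g7 F1' G2' G5' G6'
  have G8' : G8 := g8 F1' F2' G2' G5' G6'
  have G9' : G9 := g9 F1' F2' G5' G6' G7' G8'
  have H0' : H0 := h0 F9' F10'
  have H1' : H1 := h1 H0' F1' F2' G2' G3'
  have H2' : H2 := h2 F11' F1' G1' G2' G3'
  have H3' : H3 := h3 H0' F12b' F12c' F13' G5' G6' G7' G8' S7'
  have H4' : H4 := h4 S7' F1' F11' F12a' F12b' F12c' G1' G5' G7' G8'
  have H5' : H5 := h5
  refine main_of Y6' Y7' Y8' C1' C3' F1' G4' G5' G9' H1' H2' H3' H4' H5' ?_ ?_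
  · intro n m _ _
    simp only [Pi.zero_apply, abs_zero]
    positivity
  · intro s hs
    exact ⟨(S7' s s hs hs).1, (S7' s s hs hs).2.1⟩

end Pool.Agent.Stek
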