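import Pool.Agent.Stek.Seq

/-!
# Functions and plane domains
-/

open scoped BigOperators ComplexConjugate Topology ContDiff
open Complex

noncomputable section

namespace Pool.Agent.Stek

/-- `∑ g n u ^ n`, `n ≥ 2`. -/
def hh (g : ℕ → ℂ) (u : ℂ) : ℂ := ∑' n : ℕ, (if n < 2 then 0 else g n) * u ^ n

/-- The conformal map `ζ + ∑ g n rr ^ n ζ ^ (1 - n)` of the exterior of the disk. -/
def Fm (g : ℕ → ℂ) (ζ : ℂ) : ℂ := ζ * (1 + hh g (rr / ζ))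

/-- The compact set bounded by the image of the unit circle under `Fm g`. -/
def fillK (g : ℕ → ℂ) : Set ℂ :=
  Metric.closedBall 0 (1 / 2) ∪ Fm g '' {ζ | 1 / 4 ≤ ‖ζ‖ ∧ ‖ζ‖ ≤ 1}

/-- The antipodal map. -/
def iot (w : ℂ) : ℂ := -1 / conj w

/-- The parametrization of the Steklov curve of the first surface and of its neighbourhood. -/
def w1 (g : ℕ → ℂ) (ζ : ℂ) : ℂ := 1 + RR / Fm g ζ

/-- The plane domain of the first surface: an annulus without two holes exchanged by `iot`. -/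
def K1 (s : ℝ) (g : ℕ → ℂ) : Set ℂ :=
  {w | √s ≤ ‖w‖ ∧ ‖w‖ ≤ 1 / √s ∧ w ≠ 1 ∧ iot w ≠ 1 ∧ RR / (w - 1) ∈ fillK g ∧
    RR / (iot w - 1) ∈ fillK g}

/-- The Neumann part of its boundary. -/
def SN1 (s : ℝ) : Set ℂ := {w | ‖w‖ = √s ∨ ‖w‖ = 1 / √s}

/-- The complex derivative `V_x - i V_y` of a real function. -/
def dC (V : ℂ → ℝ) (ζ : ℂ) : ℂ := (fderiv ℝ V ζ 1 : ℂ) - I * (fderiv ℝ V ζ I : ℂ)

/-- Normalized circle integrals. -/
def ci (ρ : ℝ) (f : ℂ → ℂ) : ℂ := (2 * Real.pi * I)⁻¹ * ∮ z in C(0, ρ), f z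

/-- Fourier coefficients on the unit circle. -/
def fc (V : ℂ → ℝ) (k : ℤ) : ℂ := ci 1 (fun z => (V z : ℂ) * z ^ (-k - 1))

/-- The coefficients which determine a `σ`-eigenfunction `V`. -/
def coefs (V : ℂ → ℝ) (σ : ℝ) : ℝ × (ℕ → ℂ) :=
  ((fc V 0).re, fun k => if k = 0 then 0 else ((k : ℂ) + σ) / k * fc V k)

/-! ### The response of the Moebius band with a Neumann boundary -/

/-- Power series of a response: for `|p n| ≤ C lam ^ n` the function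
`P w = ∑ p n (RR / (w - 1)) ^ n`, `n ≥ 1`. -/
def Pf (p : ℕ → ℂ) (w : ℂ) : ℂ := ∑' n : ℕ, p (n + 1) * (RR / (w - 1)) ^ (n + 1)

/-- `conj (P (iot w))`. -/
def Pi' (p : ℕ → ℂ) (w : ℂ) : ℂ := conj (Pf p (iot w))

/-- The Taylor coefficients at `0` of `Pf p + Pi' p`, index `l ≥ 1`. -/
def Tl (p : ℕ → ℂ) (l : ℕ) : ℂ :=
  ∑' n : ℕ, ((RR : ℂ) ^ (n + 1) * ((-1) ^ (n + 1) * ((n + l).choose l : ℂ) * p (n + 1) +
    (-1) ^ l * ((l - 1).choose n : ℂ) * conj (p (n + 1))))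

/-- The correction which makes the Neumann condition hold. -/
def Ef (s : ℝ) (p : ℕ → ℂ) (w : ℂ) : ℂ :=
  ∑' l : ℕ, (Lam s (l + 1) : ℂ) * (Tl p (l + 1) * w ^ (l + 1) +
    (-1) ^ (l + 1) * conj (Tl p (l + 1)) * (w⁻¹) ^ (l + 1))

/-- The response function. -/
def Uf (s : ℝ) (p : ℕ → ℂ) (w : ℂ) : ℝ := (Pf p w + Pi' p w + Ef s p w).re

/-- The Taylor coefficients at `1` of the regular part, index `m ≥ 1`. -/
def qt (κE κO : ℕ → ℕ → ℝ) (p : ℕ → ℂ) (m : ℕ) : ℂ :=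
  ∑' n : ℕ, (RR : ℂ) ^ (n + 1) * ((κE (n + 1) m : ℂ) * p (n + 1) +
    (κO (n + 1) m : ℂ) * conj (p (n + 1)))

/-- The function of `ζ` given by the coefficients `p` of the incoming part and by the response. -/
def Hf (κE κO : ℕ → ℕ → ℝ) (g : ℕ → ℂ) (p : ℕ → ℂ) (ζ : ℂ) : ℂ :=
  ∑' n : ℕ, p (n + 1) * Fm g ζ ^ (n + 1) +
    ∑' m : ℕ, qt κE κO p (m + 1) * (RR / Fm g ζ) ^ (m + 1)

end Pool.Agent.Stek
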