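import Pool.Agent.Stek.TSeq
import Pool.Agent.Stek.TFun

/-!
# The main theorem from the targets
-/

open scoped BigOperators ComplexConjugate Topology ContDiff
open Complex Metric InnerProductSpace

noncomputable section

namespace Pool.Agent.Stek

/-- The common spectrum: `0`, and the zeros `p k < k < m k`. -/
def tauSeq (p m : ℕ → ℝ) (i : ℕ) : ℝ :=
  if i = 0 then 0 else if i % 2 = 1 then p ((i + 1) / 2) else m (i / 2)

open Classical in
theorem main_of (hY6 : Y6) (hY7 : Y7) (hY8 : Y8) (hC1 : C1) (hC3 : C3) (hF1 : F1)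
    (hG4 : G4) (hG5 : G5) (hG9 : G9) (hH1 : H1) (hH2 : H2) (hH3 : H3) (hH4 : H4) (hH5 : H5)
    (hK0 : Kap 0) (hKs : ∀ s ∈ Set.Icc (1 / 20 : ℝ) (1 / 6), Kap (kE s) ∧ Kap (kO s)) :
    ∃ (M₁ M₂ : Surf) (SN : Set ℂ) (τ : ℕ → ℝ), M₁.IsNeumannPart SN ∧
      StrictMono τ ∧ τ 0 = 0 ∧ Filter.Tendsto τ Filter.atTop Filter.atTop ∧
      ∀ σ : ℝ, FiniteDimensional ℝ (M₁.eigen SN σ) ∧ FiniteDimensional ℝ (M₂.eigen ∅ σ) ∧
        Module.finrank ℝ (M₁.eigen SN σ) = (if σ ∈ Set.range τ then 1 else 0) ∧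
        Module.finrank ℝ (M₂.eigen ∅ σ) = (if σ ∈ Set.range τ then 1 else 0) := by
  obtain ⟨s, hs, y, hy, hmatch⟩ := hC3
  have h0 : ∀ n, ‖(0 : ℕ → ℂ) n‖ ≤ dl := fun n => by simp [dl]
  have hg0 : Gb (2 * eps) (gy 0) := fun n hn =>
    ((hC1 0 0 0 h0 h0).1 n hn).trans (by
      have : (0 : ℝ) < (n : ℝ) ^ 3 := by positivity
      have e : (0 : ℝ) < eps := by norm_num [eps]
      gcongr; norm_num)
  have hg1 : Gb (2 * eps) (gy y) := fun n hn =>
    ((hC1 y y 0 hy hy).1 n hn).trans (by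
      have : (0 : ℝ) < (n : ℝ) ^ 3 := by positivity
      have e : (0 : ℝ) < eps := by norm_num [eps]
      gcongr; norm_num)
  have hc0 : Cls (Ak 0 (gy 0)) (Bk 0 (gy 0)) := (hC1 0 0 0 h0 h0).2.2 _ _ hK0 hK0
  have hc1 : Cls (Ak (kE s) (gy y)) (Bk (kO s) (gy y)) :=
    (hC1 y y 0 hy hy).2.2 _ _ (hKs s hs).1 (hKs s hs).2
  -- the zeros
  have hex : ∀ k : ℕ, ∃ σp σm : ℝ, 1 ≤ k → (|σp - k| ≤ rr ^ 2 ∧ |σm - k| ≤ rr ^ 2 ∧ σp < k ∧
      (k : ℝ) < σm ∧ (∀ σ : ℝ, |σ - k| ≤ 1 / 2 →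
        (Psi (Ak 0 (gy 0)) (Bk 0 (gy 0)) k σ = 0 ↔ σ = σp ∨ σ = σm))) := by
    intro k
    by_cases hk : 1 ≤ k
    · obtain ⟨σp, σm, a1, a2, a3, a4, a5, -⟩ := hY6 _ _ k hc0 hk
      exact ⟨σp, σm, fun _ => ⟨a1, a2, a3, a4, a5⟩⟩
    · exact ⟨0, 0, fun h => absurd h hk⟩
  choose p m hpm using hex
  have hr : rr ^ 2 ≤ 1 / 100 := by norm_num [rr]
  -- finrank of the solution spaces
  have key : ∀ A B : ℕ → ℕ → ℂ, Cls A B →
      (∀ (k : ℕ) (σ : ℝ), 1 ≤ k → |σ - k| ≤ 1 / 2 →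
        (Psi A B k σ = 0 ↔ Psi (Ak 0 (gy 0)) (Bk 0 (gy 0)) k σ = 0)) → ∀ σ : ℝ,
      FiniteDimensional ℝ (Sol A B σ) ∧
      Module.finrank ℝ (Sol A B σ) = if σ ∈ Set.range (tauSeq p m) then 1 else 0 := by
    intro A B hAB hm σ
    have htau : σ ∈ Set.range (tauSeq p m) ↔ σ = 0 ∨ ∃ k : ℕ, 1 ≤ k ∧ (σ = p k ∨ σ = m k) := by
      constructor
      · rintro ⟨i, rfl⟩
        unfold tauSeq
        split_ifs with h1 h2
        · exact Or.inl rfl
        · exact Or.inr ⟨(i + 1) / 2, by omega, Or.inl rfl⟩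
        · exact Or.inr ⟨i / 2, by omega, Or.inr rfl⟩
      · rintro (rfl | ⟨k, hk, rfl | rfl⟩)
        · exact ⟨0, by simp [tauSeq]⟩
        · refine ⟨2 * k - 1, ?_⟩
          have e1 : 2 * k - 1 ≠ 0 := by omega
          have e2 : (2 * k - 1) % 2 = 1 := by omega
          have e3 : (2 * k - 1 + 1) / 2 = k := by omega
          simp [tauSeq, e1, e2, e3]
        · refine ⟨2 * k, ?_⟩
          have e1 : 2 * k ≠ 0 := by omega
          have e2 : ¬ (2 * k) % 2 = 1 := by omega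
          have e3 : 2 * k / 2 = k := by omega
          simp only [tauSeq, e1, e2, e3, if_false]
    rcases le_or_gt σ (1 / 2) with hσ | hσ
    · obtain ⟨f1, f2⟩ := hY7 A B σ hAB hσ
      refine ⟨f1, f2.trans ?_⟩
      have : σ = 0 ↔ σ ∈ Set.range (tauSeq p m) := by
        rw [htau]
        constructor
        · exact Or.inl
        · rintro (h | ⟨k, hk, h⟩)
          · exact h
          · exfalso
            obtain ⟨a1, a2, -⟩ := hpm k hk
            have hk' : (1 : ℝ) ≤ k := by exact_mod_cast hk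
            rcases h with h | h <;> rw [abs_le] at a1 a2 <;> subst h <;> linarith [a1.1, a2.1]
      simp only [this]
    · -- nearest integer
      obtain ⟨k, hk, hkσ⟩ : ∃ k : ℕ, 1 ≤ k ∧ |σ - k| ≤ 1 / 2 := by
        refine ⟨⌊σ + 1 / 2⌋₊, ?_, ?_⟩
        · exact Nat.le_floor (by push_cast; linarith)
        · have h1 := Nat.floor_le (show 0 ≤ σ + 1 / 2 by linarith)
          have h2 := Nat.lt_floor_add_one (σ + 1 / 2)
          rw [abs_le]; constructor <;> linarith
      obtain ⟨f1, f2⟩ := hY8 A B k σ hAB hk hkσ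
      refine ⟨f1, f2.trans ?_⟩
      obtain ⟨a1, a2, a3, a4, a5⟩ := hpm k hk
      have : Psi A B k σ = 0 ↔ σ ∈ Set.range (tauSeq p m) := by
        rw [hm k σ hk hkσ, a5 σ hkσ, htau]
        constructor
        · exact fun h => Or.inr ⟨k, hk, h⟩
        · rintro (h | ⟨j, hj, h⟩)
          · linarith
          · obtain ⟨b1, b2, -⟩ := hpm j hj
            have hjk : j = k := by
              have hd : |σ - j| ≤ 1 / 100 := by
                rcases h with h | h <;> rw [h] <;> linarith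
              have : |(j : ℝ) - k| < 1 := by
                rw [abs_le] at hd hkσ
                rw [abs_lt]; constructor <;> linarith [hd.1, hd.2, hkσ.1, hkσ.2]
              have h3 : |(j : ℤ) - k| < 1 := by exact_mod_cast this
              have h4 := abs_lt.1 h3
              omega
            rw [← hjk]; exact h
      simp only [this]
  obtain ⟨M₂, e1, e2, e3⟩ := hG4 (gy 0) hg0
  obtain ⟨M₁, d1, d2, d3, d4⟩ := hG9 s (gy y) hs hg1
  have hcont : ∀ g, Gb (2 * eps) g → ContinuousOn (Fm g) {ζ | ‖ζ‖ = 1} := fun g hg =>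
    (hF1 g hg).1.continuousOn.mono fun ζ hζ => by
      change rr < ‖ζ‖; rw [show ‖ζ‖ = 1 from hζ]; norm_num [rr]
  have hL2 : ∀ σ, Nonempty (M₂.eigen ∅ σ ≃ₗ[ℝ] Sol (Ak 0 (gy 0)) (Bk 0 (gy 0)) σ) := by
    intro σ
    refine hH5 M₂ ∅ σ (Fm (gy 0)) _ (fun ζ hζ => ?_) (hcont _ hg0) (fun U hU => ?_)
      (fun x hx => hH2 (gy 0) M₂ σ hg0 e1 e2 e3 x hx)
    · rw [e1]
      exact Or.inr ⟨ζ, ⟨by rw [hζ]; norm_num, hζ.le⟩, rfl⟩
    · obtain ⟨k1, k2⟩ := hH1 (gy 0) M₂ σ U hg0 e1 e3 hU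
      exact ⟨k1, fun h => by rw [e1]; exact k2 h⟩
  have hL1 : ∀ σ, Nonempty (M₁.eigen (SN1 s) σ ≃ₗ[ℝ]
      Sol (Ak (kE s) (gy y)) (Bk (kO s) (gy y)) σ) := by
    intro σ
    refine hH5 M₁ (SN1 s) σ (w1 (gy y)) _ (fun ζ hζ => ?_) ?_ (fun U hU => ?_)
      (fun x hx => hH4 s (gy y) M₁ σ hs hg1 d1 d2 d4 x hx)
    · rw [d1]; exact (hG5 s (gy y) hs hg1).2.1 ζ hζ
    · have : ContinuousOn (fun ζ => 1 + RR / Fm (gy y) ζ) {ζ | ‖ζ‖ = 1} := by
        refine continuousOn_const.add (continuousOn_const.div (hcont _ hg1) ?_)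
        intro ζ hζ h
        have h2 := (hF1 _ hg1).2.1 ζ (by rw [hζ]; norm_num [rr])
        rw [h, zero_sub, norm_neg, hζ] at h2
        norm_num [eps, rr] at h2
      exact this
    · obtain ⟨k1, k2⟩ := hH3 s (gy y) M₁ σ U hs hg1 d1 d2 d4 hU
      exact ⟨k1, fun h => by rw [d1]; exact k2 h⟩
  refine ⟨M₁, M₂, SN1 s, tauSeq p m, d3, ?_, by simp [tauSeq], ?_, fun σ => ?_⟩
  · -- strictly increasing
    refine strictMono_nat_of_lt_succ fun i => ?_
    rcases Nat.eq_zero_or_pos i with rfl | hi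
    · obtain ⟨a1, -⟩ := hpm 1 le_rfl
      rw [abs_le] at a1
      have : tauSeq p m 0 = 0 := by simp [tauSeq]
      have h2 : tauSeq p m (0 + 1) = p 1 := by simp [tauSeq]
      rw [this, h2]
      have := a1.1
      push_cast at this
      linarith
    · rcases Nat.even_or_odd' i with ⟨j, rfl | rfl⟩
      · have hj : 1 ≤ j := by omega
        have e1 : tauSeq p m (2 * j) = m j := by
          have e1 : 2 * j ≠ 0 := by omega
          have e2 : ¬ (2 * j) % 2 = 1 := by omega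
          have e3 : 2 * j / 2 = j := by omega
          simp only [tauSeq, e1, e2, e3, if_false]
        have e2 : tauSeq p m (2 * j + 1) = p (j + 1) := by
          have e1 : 2 * j + 1 ≠ 0 := by omega
          have e2 : (2 * j + 1) % 2 = 1 := by omega
          have e3 : (2 * j + 1 + 1) / 2 = j + 1 := by omega
          simp [tauSeq, e2, e3]
        rw [e1, e2]
        obtain ⟨-, a2, -⟩ := hpm j hj
        obtain ⟨b1, -⟩ := hpm (j + 1) (by omega)
        rw [abs_le] at a2 b1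
        have := b1.1
        push_cast at this
        linarith [a2.2]
      · have e1 : tauSeq p m (2 * j + 1) = p (j + 1) := by
          have e1 : 2 * j + 1 ≠ 0 := by omega
          have e2 : (2 * j + 1) % 2 = 1 := by omega
          have e3 : (2 * j + 1 + 1) / 2 = j + 1 := by omega
          simp [tauSeq, e2, e3]
        have e2 : tauSeq p m (2 * j + 1 + 1) = m (j + 1) := by
          have e1 : 2 * j + 1 + 1 ≠ 0 := by omega
          have e2 : ¬ (2 * j + 1 + 1) % 2 = 1 := by omega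
          have e3 : (2 * j + 1 + 1) / 2 = j + 1 := by omega
          simp only [tauSeq, e1, e2, e3, if_false]
        rw [e1, e2]
        obtain ⟨-, -, a3, a4, -⟩ := hpm (j + 1) (by omega)
        exact a3.trans a4
  · -- tends to infinity
    refine Filter.tendsto_atTop_mono (f := fun i : ℕ => (i : ℝ) / 2 - 1) (fun i => ?_) ?_
    · rcases Nat.eq_zero_or_pos i with rfl | hi
      · simp [tauSeq]
      · rcases Nat.even_or_odd' i with ⟨j, rfl | rfl⟩
        · have e1 : tauSeq p m (2 * j) = m j := by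
            have e1 : 2 * j ≠ 0 := by omega
            have e2 : ¬ (2 * j) % 2 = 1 := by omega
            have e3 : 2 * j / 2 = j := by omega
            simp only [tauSeq, e1, e2, e3, if_false]
          obtain ⟨-, -, -, a4, -⟩ := hpm j (by omega)
          rw [e1]; push_cast; linarith
        · have e1 : tauSeq p m (2 * j + 1) = p (j + 1) := by
            have e1 : 2 * j + 1 ≠ 0 := by omega
            have e2 : (2 * j + 1) % 2 = 1 := by omega
            have e3 : (2 * j + 1 + 1) / 2 = j + 1 := by omega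
            simp [tauSeq, e2, e3]
          obtain ⟨b1, -⟩ := hpm (j + 1) (by omega)
          rw [abs_le] at b1
          have := b1.1
          rw [e1]; push_cast at this ⊢; linarith
    · exact Filter.tendsto_atTop_add_const_right _ _
        (tendsto_natCast_atTop_atTop.atTop_div_const (by norm_num))
  · obtain ⟨l1⟩ := hL1 σ
    obtain ⟨l2⟩ := hL2 σ
    obtain ⟨k1, k2⟩ := key _ _ hc1 hmatch σ
    obtain ⟨k3, k4⟩ := key _ _ hc0 (fun _ _ _ _ => Iff.rfl) σ
    exact ⟨l1.symm.finiteDimensional, l2.symm.finiteDimensional,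
      l1.finrank_eq.trans k2, l2.finrank_eq.trans k4⟩

end Pool.Agent.Stek
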