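import Pool.Agent.Stek.PF5a

set_option autoImplicit false

/-!
# F5b: Taylor coefficients of `f` in terms of the Laurent coefficients of `f ∘ Fm`
-/

open scoped BigOperators ComplexConjugate Topology ContDiff
open Complex Metric

noncomputable section

namespace Pool.Agent.Stek

namespace F5t

/-- `f x * x ^ (-n-1)` has a primitive up to the term `a / x` -/
theorem exists_prim {ρ0 : ℝ} (h0 : 0 < ρ0) (n : ℕ) : ∀ f : ℂ → ℂ,
    DifferentiableOn ℂ f (ball 0 ρ0) → ∃ (a : ℂ) (Ψ : ℂ → ℂ), ∀ x ∈ ball (0 : ℂ) ρ0, x ≠ 0 →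
      HasDerivAt Ψ (f x * x ^ (-(n : ℤ) - 1) - a * x⁻¹) x := by
  induction n with
  | zero =>
    intro f hf
    have hd : DifferentiableOn ℂ (dslope f 0) (ball 0 ρ0) :=
      (Complex.differentiableOn_dslope (ball_mem_nhds _ h0)).2 hf
    obtain ⟨Φ, hΦ⟩ := hd.isExactOn_ball
    refine ⟨f 0, Φ, fun x hx hx0 => ?_⟩
    have e : dslope f 0 x = f x * x ^ (-((0 : ℕ) : ℤ) - 1) - f 0 * x⁻¹ := by
      have := sub_smul_dslope f 0 x
      simp only [sub_zero, smul_eq_mul] at this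
      simp only [Nat.cast_zero, neg_zero, zero_sub, zpow_neg, zpow_one]
      field_simp
      linear_combination this
    rw [← e]
    exact hΦ x hx
  | succ n ih =>
    intro f hf
    have hd : DifferentiableOn ℂ (dslope f 0) (ball 0 ρ0) :=
      (Complex.differentiableOn_dslope (ball_mem_nhds _ h0)).2 hf
    obtain ⟨a, Ψ, hΨ⟩ := ih _ hd
    refine ⟨a, fun x => Ψ x + f 0 * (-((n : ℂ) + 1)⁻¹) * x ^ (-((n : ℤ) + 1)),
      fun x hx hx0 => ?_⟩
    have e1 := hΨ x hx hx0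
    have e2 := (hasDerivAt_zpow (-((n : ℤ) + 1)) x (Or.inl hx0)).const_mul
      (f 0 * (-((n : ℂ) + 1)⁻¹))
    have e3 := e1.add e2
    have hn : (n : ℂ) + 1 ≠ 0 := by exact_mod_cast Nat.succ_ne_zero n
    have e4 : dslope f 0 x * x ^ (-(n : ℤ) - 1) - a * x⁻¹ + f 0 * (-((n : ℂ) + 1)⁻¹) *
        (((-((n : ℤ) + 1) : ℤ) : ℂ) * x ^ (-((n : ℤ) + 1) - 1)) =
        f x * x ^ (-((n + 1 : ℕ) : ℤ) - 1) - a * x⁻¹ := by
      have h := sub_smul_dslope f 0 x
      simp only [sub_zero, smul_eq_mul] at h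
      have h2 : x ^ (-(n : ℤ) - 1) = x * x ^ (-((n + 1 : ℕ) : ℤ) - 1) := by
        rw [← zpow_one_add₀ hx0]
        congr 1
        push_cast
        ring
      have h3 : x ^ (-((n : ℤ) + 1) - 1) = x ^ (-((n + 1 : ℕ) : ℤ) - 1) := by
        congr 1
      rw [h2, h3]
      push_cast
      have h4 : f 0 * (-((n : ℂ) + 1)⁻¹) * ((-((n : ℂ) + 1)) * x ^ (-((n : ℤ) + 1) - 1)) =
          f 0 * x ^ (-((n : ℤ) + 1) - 1) := by
        field_simp
      rw [h4]
      linear_combination (x ^ (-((n : ℤ) + 1) - 1)) * h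
    rw [e4] at e3
    exact e3

theorem ci_inv {ρ : ℝ} (hρ : 0 < ρ) : ci ρ (fun z => z⁻¹) = 1 := by
  unfold ci
  have := circleIntegral.integral_sub_center_inv (0 : ℂ) hρ.ne'
  simp only [sub_zero] at this
  rw [this]
  have : (2 * (Real.pi : ℂ) * I) ≠ 0 := by
    simp [Real.pi_ne_zero]
  field_simp

/-- change of the curve -/
theorem ci_curve {ρ ρ0 : ℝ} (hρ : 0 < ρ) (h0 : 0 < ρ0) (n : ℕ) {f : ℂ → ℂ}
    (hf : DifferentiableOn ℂ f (ball 0 ρ0)) {γ γ' : ℂ → ℂ}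
    (hγ : ∀ z, ‖z‖ = ρ → HasDerivAt γ (γ' z) z) (hγb : ∀ z, ‖z‖ = ρ → ‖γ z‖ < ρ0)
    (hγ0 : ∀ z, ‖z‖ = ρ → γ z ≠ 0) (hγc : ContinuousOn γ' (sphere 0 ρ))
    (hγ1 : ci ρ (fun z => (γ z)⁻¹ * γ' z) = 1) (hρ0 : ρ < ρ0) :
    ci ρ (fun z => f (γ z) * (γ z) ^ (-(n : ℤ) - 1) * γ' z) =
      ci ρ (fun z => f z * z ^ (-(n : ℤ) - 1)) := by
  obtain ⟨a, Ψ, hΨ⟩ := exists_prim h0 n f hf
  have main : ∀ γ γ' : ℂ → ℂ, (∀ z, ‖z‖ = ρ → HasDerivAt γ (γ' z) z) →
      (∀ z, ‖z‖ = ρ → ‖γ z‖ < ρ0) → (∀ z, ‖z‖ = ρ → γ z ≠ 0) → ContinuousOn γ' (sphere 0 ρ) →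
      ci ρ (fun z => (γ z)⁻¹ * γ' z) = 1 →
      ci ρ (fun z => f (γ z) * (γ z) ^ (-(n : ℤ) - 1) * γ' z) = a := by
    intro γ γ' hγ hγb hγ0 hγc hγ1
    have hcγ : ContinuousOn γ (sphere 0 ρ) := fun z hz =>
      (hγ z (by simpa using hz)).continuousAt.continuousWithinAt
    have e1 : ci ρ (fun z => (f (γ z) * (γ z) ^ (-(n : ℤ) - 1) - a * (γ z)⁻¹) * γ' z) = 0 :=
      ci_deriv_zero hρ.le (f := fun z => Ψ (γ z)) fun z hz =>
        (hΨ (γ z) (by simpa using hγb z hz) (hγ0 z hz)).comp z (hγ z hz)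
    have e2 : ci ρ (fun z => (f (γ z) * (γ z) ^ (-(n : ℤ) - 1) - a * (γ z)⁻¹) * γ' z) =
        ci ρ (fun z => f (γ z) * (γ z) ^ (-(n : ℤ) - 1) * γ' z - a * ((γ z)⁻¹ * γ' z)) :=
      ci_congr hρ.le fun z _ => by ring
    have hz0 : ∀ z ∈ sphere (0 : ℂ) ρ, γ z ≠ 0 := fun z hz => hγ0 z (by simpa using hz)
    have c1 : ContinuousOn (fun z => f (γ z)) (sphere 0 ρ) :=
      hf.continuousOn.comp hcγ fun z hz => by
        have : ‖z‖ = ρ := by simpa using hz
        simpa using hγb z this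
    have c2 : ContinuousOn (fun z => (γ z) ^ (-(n : ℤ) - 1)) (sphere 0 ρ) :=
      hcγ.zpow₀ _ fun z hz => Or.inl (hz0 z hz)
    have c3 : ContinuousOn (fun z => (γ z)⁻¹ * γ' z) (sphere 0 ρ) :=
      (hcγ.inv₀ hz0).mul hγc
    have e3 := ci_sub hρ.le (f := fun z => f (γ z) * (γ z) ^ (-(n : ℤ) - 1) * γ' z)
      (g := fun z => a * ((γ z)⁻¹ * γ' z)) ((c1.mul c2).mul hγc) (continuousOn_const.mul c3)
    rw [e2, e3, ci_mul_left, hγ1, mul_one, sub_eq_zero] at e1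
    exact e1
  rw [main γ γ' hγ hγb hγ0 hγc hγ1]
  have h2 := main (fun z => z) (fun _ => 1) (fun z _ => hasDerivAt_id z)
    (fun z hz => by rw [hz]; exact hρ0) (fun z hz => by rw [← norm_pos_iff, hz]; exact hρ)
    continuousOn_const (by simpa using ci_inv hρ)
  simpa using h2.symm

/-- the winding number of `Fm g` -/
theorem ci_wind (h1 : F1) {g : ℕ → ℂ} (hg : Gb (2 * eps) g) {ρ : ℝ} (hρ : 2 * rr < ρ) :
    ci ρ (fun z => (Fm g z)⁻¹ * deriv (Fm g) z) = 1 := by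
  have hr := rr_pos
  have hρp : 0 < ρ := by linarith
  have he : eps * rr < rr := by
    have : eps < 1 := by unfold eps; norm_num
    nlinarith
  have hF0 : ∀ z : ℂ, ‖z‖ = ρ → Fm g z ≠ 0 := fun z hz => by
    have := fm_lower h1 hg (ζ := z) (by linarith)
    rw [← norm_pos_iff]; linarith
  have hz0 : ∀ z : ℂ, ‖z‖ = ρ → z ≠ 0 := fun z hz => by
    rw [← norm_pos_iff, hz]; exact hρp
  have key : ci ρ (fun z => (Fm g z)⁻¹ * deriv (Fm g) z - z⁻¹) = 0 := by
    refine ci_deriv_zero hρp.le (f := fun z => Complex.log (Fm g z / z)) fun z hz => ?_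
    have hd := (fm_hasDeriv h1 hg (ζ := z) (by linarith)).div (hasDerivAt_id z) (hz0 z hz)
    have hsl : Fm g z / z ∈ slitPlane := by
      left
      have h2 : ‖Fm g z / z - 1‖ < 1 := by
        have e : Fm g z / z - 1 = (Fm g z - z) / z := by
          have := hz0 z hz
          field_simp
        rw [e, norm_div, hz, div_lt_one hρp]
        have := (h1 g hg).2.1 z (by linarith)
        linarith
      have h3 : |(Fm g z / z - 1).re| < 1 := (Complex.abs_re_le_norm _).trans_lt h2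
      rw [sub_re, one_re] at h3
      have := (abs_lt.1 h3).1
      linarith
    have e := hd.clog hsl
    have e2 : (deriv (Fm g) z * z - Fm g z * 1) / z ^ 2 / (Fm g z / z) =
        (Fm g z)⁻¹ * deriv (Fm g) z - z⁻¹ := by
      have h1 := hz0 z hz
      have h2 := hF0 z hz
      field_simp
    have e3 : HasDerivAt (fun z => Complex.log (Fm g z / z))
        ((deriv (Fm g) z * z - Fm g z * 1) / z ^ 2 / (Fm g z / z)) z := e
    rw [e2] at e3
    exact e3
  have hsub : ∀ z ∈ sphere (0 : ℂ) ρ, rr < ‖z‖ := fun z hz => by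
    have : ‖z‖ = ρ := by simpa using hz
    linarith
  have c1 : ContinuousOn (fun z => (Fm g z)⁻¹ * deriv (Fm g) z) (sphere 0 ρ) :=
    (((fm_cont h1 hg).mono fun z hz => hsub z hz).inv₀ fun z hz => hF0 z (by simpa using hz)).mul
      ((fm_deriv_cont h1 hg).mono fun z hz => hsub z hz)
  have c2 : ContinuousOn (fun z : ℂ => z⁻¹) (sphere 0 ρ) :=
    continuousOn_id.inv₀ fun z hz => hz0 z (by simpa using hz)
  rw [ci_sub hρp.le c1 c2, ci_inv hρp, sub_eq_zero] at key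
  exact key

end F5t

open F5t in
theorem f5b (h1 : F1) (h4 : F4) (hS6 : S6) : F5b := by
  intro g hg f ρ ρ0 hf hρ hρ0 c hc n hn
  have hr := rr_pos
  have he := eps_pos
  have hρp : 0 < ρ := by linarith
  have hρρ0 : ρ < ρ0 := by nlinarith
  have hρ0p : 0 < ρ0 := by linarith
  have her : eps * rr < rr := by
    have : eps < 1 := by unfold eps; norm_num
    nlinarith
  have hsub : ∀ z ∈ sphere (0 : ℂ) ρ, rr < ‖z‖ := fun z hz => by
    have : ‖z‖ = ρ := by simpa using hz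
    linarith
  have hFcs : ContinuousOn (Fm g) (sphere 0 ρ) := (fm_cont h1 hg).mono fun z hz => hsub z hz
  have hF'cs : ContinuousOn (deriv (Fm g)) (sphere 0 ρ) :=
    (fm_deriv_cont h1 hg).mono fun z hz => hsub z hz
  have hFlt : ∀ z : ℂ, ‖z‖ = ρ → ‖Fm g z‖ < ρ0 := fun z hz => by
    have := fm_upper h1 hg (ζ := z) (by linarith)
    linarith
  have hF0 : ∀ z : ℂ, ‖z‖ = ρ → Fm g z ≠ 0 := fun z hz => by
    have := fm_lower h1 hg (ζ := z) (by linarith)
    rw [← norm_pos_iff]; linarith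
  have hmaps : Set.MapsTo (Fm g) (sphere 0 ρ) (ball 0 ρ0) := fun z hz => by
    have : ‖z‖ = ρ := by simpa using hz
    simpa using hFlt z this
  have hfF : ContinuousOn (fun z => f (Fm g z)) (sphere 0 ρ) := hf.continuousOn.comp hFcs hmaps
  have hf' : DifferentiableOn ℂ (deriv f) (ball 0 ρ0) := hf.deriv isOpen_ball
  have hf'F : ContinuousOn (fun z => deriv f (Fm g z)) (sphere 0 ρ) :=
    hf'.continuousOn.comp hFcs hmaps
  have hne : ∀ z : ℂ, ‖z‖ = ρ → z ≠ 0 := fun z hz => by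
    rw [← norm_pos_iff, hz]; exact hρp
  have hgc : ContinuousOn (fun z => deriv f (Fm g z) * deriv (Fm g) z) (sphere 0 ρ) :=
    hf'F.mul hF'cs
  obtain ⟨M, hM⟩ := (isCompact_sphere (0 : ℂ) ρ).exists_bound_of_continuousOn hgc
  have hM' : ∀ z : ℂ, ‖z‖ = ρ → ‖deriv f (Fm g z) * deriv (Fm g) z‖ ≤ M :=
    fun z hz => hM z (by simpa using hz)
  have hM0 : 0 ≤ M := (norm_nonneg _).trans (hM' (ρ : ℂ) (by simp [abs_of_pos hρp]))
  have hfd : ∀ z : ℂ, ‖z‖ = ρ → HasDerivAt (fun z => f (Fm g z))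
      (deriv f (Fm g z) * deriv (Fm g) z) z := fun z hz => by
    have e1 : HasDerivAt f (deriv f (Fm g z)) (Fm g z) :=
      (hf.differentiableAt (isOpen_ball.mem_nhds (by simpa using hFlt z hz))).hasDerivAt
    exact e1.comp z (fm_hasDeriv h1 hg (ζ := z) (by linarith))
  -- integration by parts
  have hparts : ∀ j : ℕ, ci ρ (fun z => deriv f (Fm g z) * deriv (Fm g) z * z ^ (-(j : ℤ))) =
      j * c j := by
    intro j
    have e := ci_deriv_zero hρp.le (f := fun z => f (Fm g z) * z ^ (-(j : ℤ)))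
      (f' := fun z => deriv f (Fm g z) * deriv (Fm g) z * z ^ (-(j : ℤ)) +
        f (Fm g z) * (((-(j : ℤ) : ℤ) : ℂ) * z ^ (-(j : ℤ) - 1)))
      fun z hz => (hfd z hz).mul (hasDerivAt_zpow (-(j : ℤ)) z (Or.inl (hne z hz)))
    have cz : ∀ m : ℤ, ContinuousOn (fun z : ℂ => z ^ m) (sphere 0 ρ) := fun m =>
      continuousOn_id.zpow₀ _ fun z hz => Or.inl (hne z (by simpa using hz))
    have eadd := ci_add hρp.le (f := fun z => deriv f (Fm g z) * deriv (Fm g) z * z ^ (-(j : ℤ)))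
      (g := fun z => f (Fm g z) * (((-(j : ℤ) : ℤ) : ℂ) * z ^ (-(j : ℤ) - 1)))
      (hgc.mul (cz _)) (hfF.mul (continuousOn_const.mul (cz _)))
    rw [eadd] at e
    have e2 : ci ρ (fun z => f (Fm g z) * (((-(j : ℤ) : ℤ) : ℂ) * z ^ (-(j : ℤ) - 1))) =
        -(j * c j) := by
      rw [hc, ← neg_mul, ← ci_mul_left]
      refine ci_congr hρp.le fun z _ => ?_
      push_cast
      ring
    rw [e2] at e
    linear_combination e
  have hparts2 : ci ρ (fun z => deriv f (Fm g z) * deriv (Fm g) z * (Fm g z) ^ (-(n : ℤ))) =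
      n * ci ρ (fun z => f (Fm g z) * (Fm g z) ^ (-(n : ℤ) - 1) * deriv (Fm g) z) := by
    have e := ci_deriv_zero hρp.le (f := fun z => f (Fm g z) * (Fm g z) ^ (-(n : ℤ)))
      (f' := fun z => deriv f (Fm g z) * deriv (Fm g) z * (Fm g z) ^ (-(n : ℤ)) +
        f (Fm g z) * (((-(n : ℤ) : ℤ) : ℂ) * (Fm g z) ^ (-(n : ℤ) - 1) * deriv (Fm g) z))
      fun z hz => (hfd z hz).mul ((hasDerivAt_zpow (-(n : ℤ)) (Fm g z) (Or.inl (hF0 z hz))).comp z
        (fm_hasDeriv h1 hg (ζ := z) (by linarith)))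
    have cz : ∀ m : ℤ, ContinuousOn (fun z : ℂ => (Fm g z) ^ m) (sphere 0 ρ) := fun m =>
      hFcs.zpow₀ _ fun z hz => Or.inl (hF0 z (by simpa using hz))
    have eadd := ci_add hρp.le
      (f := fun z => deriv f (Fm g z) * deriv (Fm g) z * (Fm g z) ^ (-(n : ℤ)))
      (g := fun z => f (Fm g z) * (((-(n : ℤ) : ℤ) : ℂ) * (Fm g z) ^ (-(n : ℤ) - 1) *
        deriv (Fm g) z))
      (hgc.mul (cz _)) (hfF.mul ((continuousOn_const.mul (cz _)).mul hF'cs))
    rw [eadd] at e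
    have e2 : ci ρ (fun z => f (Fm g z) * (((-(n : ℤ) : ℤ) : ℂ) * (Fm g z) ^ (-(n : ℤ) - 1) *
        deriv (Fm g) z)) =
        -(n * ci ρ (fun z => f (Fm g z) * (Fm g z) ^ (-(n : ℤ) - 1) * deriv (Fm g) z)) := by
      rw [← neg_mul, ← ci_mul_left]
      refine ci_congr hρp.le fun z _ => ?_
      push_cast
      ring
    rw [e2] at e
    linear_combination e
  have hcurve := ci_curve hρp hρ0p n hf (γ := Fm g) (γ' := deriv (Fm g))
    (fun z hz => fm_hasDeriv h1 hg (ζ := z) (by linarith)) hFlt hF0 hF'cs (ci_wind h1 hg hρ) hρρ0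
  -- bound of ee
  have heb : ∀ j : ℕ, ‖ee g n j‖ ≤ 20 ^ (n - 1) := by
    intro j
    have h6 := hS6 (2 * eps) 0 g g (by unfold eps; norm_num) hg hg
    rcases Nat.eq_zero_or_pos j with rfl | hj
    · rw [h6.1 n 0 (by omega)]; simp
    · refine (h6.2.2.1 n j hn hj).trans ?_
      have hj1 : (1 : ℝ) ≤ (j : ℝ) ^ 3 := one_le_pow₀ (by exact_mod_cast hj)
      rw [div_le_iff₀ (by linarith)]
      have : (0 : ℝ) ≤ 20 ^ (n - 1) := by positivity
      nlinarith
  have hsum : HasSum (fun j : ℕ => ci ρ (fun z => deriv f (Fm g z) * deriv (Fm g) z *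
      (ee g n j * (rr / z) ^ j))) (ci ρ (fun z => deriv f (Fm g z) * deriv (Fm g) z *
      (rr / Fm g z) ^ n)) := by
    have hsm : Summable (fun j : ℕ => M * 20 ^ (n - 1) * (1 / 2 : ℝ) ^ j) :=
      (summable_geometric_of_lt_one (by norm_num) (by norm_num)).mul_left _
    refine ci_hasSum hρp.le hsm ?_ ?_ ?_
    · intro j
      have hz0 : ∀ z ∈ sphere (0 : ℂ) ρ, z ≠ 0 := fun z hz => hne z (by simpa using hz)
      exact hgc.mul (continuousOn_const.mul ((continuousOn_const.div continuousOn_id hz0).pow _))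
    · intro j z hz
      have e1 : ‖(rr : ℂ) / z‖ ≤ 1 / 2 := by
        rw [norm_div, hz, norm_real, Real.norm_of_nonneg hr.le, div_le_iff₀ hρp]
        linarith
      rw [norm_mul (deriv f (Fm g z) * deriv (Fm g) z), norm_mul (ee g n j), norm_pow]
      have a1 : ‖(rr : ℂ) / z‖ ^ j ≤ (1 / 2 : ℝ) ^ j := pow_le_pow_left₀ (norm_nonneg _) e1 _
      have a2 := hM' z hz
      have a3 := heb j
      calc ‖deriv f (Fm g z) * deriv (Fm g) z‖ * (‖ee g n j‖ * ‖(rr : ℂ) / z‖ ^ j)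
          ≤ M * (20 ^ (n - 1) * (1 / 2 : ℝ) ^ j) := by gcongr
        _ = _ := by ring
    · intro z hz
      exact (h4 g hg z (by linarith) n).mul_left _
  have hterm : ∀ j : ℕ, ci ρ (fun z => deriv f (Fm g z) * deriv (Fm g) z *
      (ee g n j * (rr / z) ^ j)) = ee g n j * rr ^ j * (j * c j) := by
    intro j
    rw [← hparts, ← ci_mul_left]
    refine ci_congr hρp.le fun z hz => ?_
    have hz0 := hne z hz
    rw [div_pow, zpow_neg, zpow_natCast]
    field_simp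
  have hval : ci ρ (fun z => deriv f (Fm g z) * deriv (Fm g) z * (rr / Fm g z) ^ n) =
      rr ^ n * (n * ci ρ (fun z => f z * z ^ (-(n : ℤ) - 1))) := by
    rw [← hcurve, ← hparts2, ← ci_mul_left]
    refine ci_congr hρp.le fun z hz => ?_
    have hz0 := hF0 z hz
    rw [div_pow, zpow_neg, zpow_natCast]
    field_simp
  simp only [hterm, hval] at hsum
  have hrn : (rr : ℂ) ^ n ≠ 0 := pow_ne_zero _ (by exact_mod_cast hr.ne')
  have hfin := hsum.mul_left ((rr : ℂ) ^ n)⁻¹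
  have e1 : ((rr : ℂ) ^ n)⁻¹ * ((rr : ℂ) ^ n * (n * ci ρ (fun z => f z * z ^ (-(n : ℤ) - 1)))) =
      n * ci ρ (fun z => f z * z ^ (-(n : ℤ) - 1)) := by
    field_simp
  rw [e1] at hfin
  have e2 : (fun j : ℕ => ((rr : ℂ) ^ n)⁻¹ * (ee g n j * rr ^ j * (j * c j))) =
      fun j : ℕ => if j < n then 0 else (j : ℂ) * rr ^ (j - n) * ee g n j * c j := by
    funext j
    split_ifs with hj
    · have h6 := hS6 (2 * eps) 0 g g (by unfold eps; norm_num) hg hg
      rw [h6.1 n j hj]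
      simp
    · have : (rr : ℂ) ^ j = rr ^ (j - n) * rr ^ n := by
        rw [← pow_add]; congr 1; omega
      rw [this]
      field_simp
  rw [e2] at hfin
  exact hfin

end Pool.Agent.Stek
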