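import Pool.Agent.Stek.TFun

/-!
# H5: from functions to a linear equivalence
-/

open scoped BigOperators ComplexConjugate Topology ContDiff
open Complex Metric InnerProductSpace

noncomputable section

namespace Pool.Agent.Stek

theorem ci_add {ρ : ℝ} {f g : ℂ → ℂ} (hf : CircleIntegrable f 0 ρ) (hg : CircleIntegrable g 0 ρ) :
    ci ρ (fun z => f z + g z) = ci ρ f + ci ρ g := by
  unfold ci
  rw [circleIntegral.integral_add hf hg, mul_add]

theorem fc_congr {V W : ℂ → ℝ} (h : ∀ ζ : ℂ, ‖ζ‖ = 1 → V ζ = W ζ) (k : ℤ) : fc V k = fc W k := by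
  unfold fc ci
  congr 1
  refine circleIntegral.integral_congr zero_le_one fun z hz => ?_
  simp only [mem_sphere_zero_iff_norm] at hz
  simp only [h z hz]

theorem coefs_congr {V W : ℂ → ℝ} (h : ∀ ζ : ℂ, ‖ζ‖ = 1 → V ζ = W ζ) (σ : ℝ) :
    coefs V σ = coefs W σ := by
  unfold coefs
  simp only [fc_congr h]

theorem fc_integrable {V : ℂ → ℝ} (hV : ContinuousOn V {ζ | ‖ζ‖ = 1}) (k : ℤ) :
    CircleIntegrable (fun z => (V z : ℂ) * z ^ (-k - 1)) 0 1 := by
  refine ContinuousOn.circleIntegrable zero_le_one ?_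
  have e : sphere (0 : ℂ) 1 = {ζ | ‖ζ‖ = 1} := by ext; simp
  rw [e]
  refine (Complex.continuous_ofReal.comp_continuousOn hV).mul fun z hz => ?_
  refine (continuousAt_zpow₀ z _ (Or.inl ?_)).continuousWithinAt
  rintro rfl
  simp at hz

theorem fc_add {V W : ℂ → ℝ} (hV : ContinuousOn V {ζ | ‖ζ‖ = 1})
    (hW : ContinuousOn W {ζ | ‖ζ‖ = 1}) (k : ℤ) : fc (V + W) k = fc V k + fc W k := by
  unfold fc
  rw [← ci_add (fc_integrable hV k) (fc_integrable hW k)]
  congr 1
  funext z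
  simp only [Pi.add_apply, ofReal_add]
  ring

theorem fc_smul (c : ℝ) (V : ℂ → ℝ) (k : ℤ) : fc (c • V) k = c * fc V k := by
  unfold fc ci
  have : (∮ z in C(0, 1), ((c • V) z : ℂ) * z ^ (-k - 1)) =
      (c : ℂ) * ∮ z in C(0, 1), (V z : ℂ) * z ^ (-k - 1) := by
    rw [← circleIntegral.integral_const_mul]
    congr 1
    funext z
    simp only [Pi.smul_apply, smul_eq_mul, ofReal_mul]
    ring
  rw [this]
  ring

theorem coefs_add {V W : ℂ → ℝ} (hV : ContinuousOn V {ζ | ‖ζ‖ = 1})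
    (hW : ContinuousOn W {ζ | ‖ζ‖ = 1}) (σ : ℝ) : coefs (V + W) σ = coefs V σ + coefs W σ := by
  unfold coefs
  refine Prod.ext ?_ (funext fun k => ?_)
  · simp only [fc_add hV hW, Prod.fst_add, add_re]
  · simp only [Prod.snd_add, Pi.add_apply, fc_add hV hW]
    split_ifs <;> ring

theorem coefs_smul (c : ℝ) (V : ℂ → ℝ) (σ : ℝ) : coefs (c • V) σ = c • coefs V σ := by
  unfold coefs
  refine Prod.ext ?_ (funext fun k => ?_)
  · simp only [fc_smul, Prod.smul_fst, smul_eq_mul, re_ofReal_mul]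
  · simp only [Prod.smul_snd, Pi.smul_apply, fc_smul, real_smul]
    split_ifs <;> ring

theorem h5 : H5 := by
  intro M SN σ F S hF hFc hU hS
  have hex : ∀ u : M.eigen SN σ, ∃ U : ℂ → ℝ, M.IsEigen SN σ U ∧ ∀ z : M.K, U z = u.1 z :=
    fun u => u.2
  choose U hUe hUr using hex
  have hcont : ∀ V : ℂ → ℝ, M.IsEigen SN σ V → ContinuousOn (fun ζ => V (F ζ)) {ζ | ‖ζ‖ = 1} := by
    intro V hV ζ hζ
    have h1 : ContinuousAt V (F ζ) := (hV.smooth (F ζ) (hF ζ hζ)).continuousAt
    exact h1.comp_continuousWithinAt (hFc ζ hζ)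
  -- the coefficients depend only on the restriction
  have hdep : ∀ (V : ℂ → ℝ) (u : M.eigen SN σ), (∀ z : M.K, V z = u.1 z) →
      coefs (fun ζ => U u (F ζ)) σ = coefs (fun ζ => V (F ζ)) σ := by
    intro V u hV
    refine coefs_congr (fun ζ hζ => ?_) σ
    rw [hUr u ⟨F ζ, hF ζ hζ⟩, hV ⟨F ζ, hF ζ hζ⟩]
  let L : M.eigen SN σ →ₗ[ℝ] S :=
    { toFun := fun u => ⟨coefs (fun ζ => U u (F ζ)) σ, (hU (U u) (hUe u)).1⟩
      map_add' := by
        intro u v
        refine Subtype.ext ?_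
        have h1 := hdep (U u + U v) (u + v) (fun z => by
          simp [hUr u z, hUr v z])
        simp only [h1, Submodule.coe_add]
        exact coefs_add (hcont _ (hUe u)) (hcont _ (hUe v)) σ
      map_smul' := by
        intro c u
        refine Subtype.ext ?_
        have h1 := hdep (c • U u) (c • u) (fun z => by
          simp [hUr u z])
        simp only [h1, Submodule.coe_smul, RingHom.id_apply]
        exact coefs_smul c (fun ζ => U u (F ζ)) σ }
  have hinj : Function.Injective L := by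
    rw [← LinearMap.ker_eq_bot, LinearMap.ker_eq_bot']
    intro u hu
    have h1 : coefs (fun ζ => U u (F ζ)) σ = 0 := congrArg Subtype.val hu
    have h2 := (hU (U u) (hUe u)).2 h1
    refine Subtype.ext (funext fun z => ?_)
    rw [← hUr u z, h2 z z.2]
    rfl
  have hsurj : Function.Surjective L := by
    rintro ⟨x, hx⟩
    obtain ⟨V, hV, hVx⟩ := hS x hx
    refine ⟨⟨fun z => V z, V, hV, fun _ => rfl⟩, Subtype.ext ?_⟩
    have := hdep V ⟨fun z => V z, V, hV, fun _ => rfl⟩ (fun _ => rfl)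
    exact this.trans hVx
  exact ⟨LinearEquiv.ofBijective L ⟨hinj, hsurj⟩⟩

end Pool.Agent.Stek
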