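import Pool.Agent.Stek.Defs

/-!
# Sequences and kernels
-/

open scoped BigOperators ComplexConjugate Topology ContDiff
open Complex

noncomputable section

namespace Pool.Agent.Stek

def eps : ℝ := 1 / 10 ^ 6
def rr : ℝ := 1 / 10 ^ 30
def RR : ℝ := 1 / 10 ^ 100
def dl : ℝ := 1 / 10 ^ 50

/-- The sequence `g` (indices `≥ 2` matter) is bounded by `M / n ^ 3`. -/
def Gb (M : ℝ) (g : ℕ → ℂ) : Prop := ∀ n, 2 ≤ n → ‖g n‖ ≤ M / (n : ℝ) ^ 3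

/-- The kernel `A` (indices `≥ 1` matter) is bounded by `M / (j + k) ^ 3`. -/
def Kb (M : ℝ) (A : ℕ → ℕ → ℂ) : Prop :=
  ∀ j k, 1 ≤ j → 1 ≤ k → ‖A j k‖ ≤ M / ((j : ℝ) + k) ^ 3

/-- The kernel `B` (indices `≥ 1` matter) is bounded by `M / (j k) ^ 3`. -/
def Pb (M : ℝ) (B : ℕ → ℕ → ℂ) : Prop :=
  ∀ j k, 1 ≤ j → 1 ≤ k → ‖B j k‖ ≤ M / ((j : ℝ) * k) ^ 3

/-! ### The coefficients of `log (1 - G)` -/

/-- `gam g j k` is the coefficient of `u ^ j v ^ k` in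
`log (1 - ∑ g (a + b) u ^ a v ^ b)` (sum over `a, b ≥ 1`), defined by a recursion in `j`. -/
def gam (g : ℕ → ℂ) (j k : ℕ) : ℂ :=
  if j = 0 ∨ k = 0 then 0
  else - g (j + k) + (1 / (j : ℂ)) *
    ∑ a : Fin j, ∑ b ∈ Finset.range k, ((a : ℕ) : ℂ) * g (j + k - a - b) * gam g a b
termination_by j
decreasing_by exact a.isLt

theorem gam_zero_left (g : ℕ → ℂ) (k : ℕ) : gam g 0 k = 0 := by
  rw [gam]; simp

theorem gam_zero_right (g : ℕ → ℂ) (j : ℕ) : gam g j 0 = 0 := by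
  rw [gam]; simp

theorem gam_rec (g : ℕ → ℂ) {j k : ℕ} (hj : 1 ≤ j) (hk : 1 ≤ k) :
    gam g j k = - g (j + k) + (1 / (j : ℂ)) *
      ∑ a ∈ Finset.range j, ∑ b ∈ Finset.range k, (a : ℂ) * g (j + k - a - b) * gam g a b := by
  rw [gam, if_neg (by omega), Finset.sum_range]

/-- The quadratic part of `-2 (gam g k k + g (2 k))`. -/
def S2 (g : ℕ → ℂ) (k : ℕ) : ℂ :=
  ∑ n ∈ Finset.Ico 2 (2 * k - 1), ((min n (2 * k - n) - 1 : ℕ) : ℂ) * g n * g (2 * k - n)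

/-! ### The powers of `u / (1 + ∑ g n u ^ n)` -/

def phi (g : ℕ → ℂ) : PowerSeries ℂ :=
  PowerSeries.X * (1 + PowerSeries.mk (fun n => if n < 2 then 0 else g n))⁻¹

def ee (g : ℕ → ℂ) (n j : ℕ) : ℂ := PowerSeries.coeff j (phi g ^ n)

/-! ### The response coefficients of the Moebius band with a Neumann hole -/

def Lam (s : ℝ) (l : ℕ) : ℝ := (-s) ^ l / (1 - (-s) ^ l)

/-- `tau n m` is the coefficient of `u ^ m` in `((1 + u) / (2 + u)) ^ n`. -/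
def tau (n m : ℕ) : ℝ :=
  PowerSeries.coeff m ((PowerSeries.mk
    (fun k => if k = 0 then (1 / 2 : ℝ) else -(-1) ^ k / 2 ^ (k + 1)) : PowerSeries ℝ) ^ n)

def kE (s : ℝ) (n m : ℕ) : ℝ :=
  ∑' l : ℕ, Lam s (l + 1) * ((-1) ^ n * ((l + 1).choose m : ℝ) * ((n + l).choose (l + 1) : ℝ) +
    (-1) ^ m * ((l + m).choose m : ℝ) * (l.choose (n - 1) : ℝ))

def kO (s : ℝ) (n m : ℕ) : ℝ :=
  (-1) ^ n * tau n m +
  ∑' l : ℕ, Lam s (l + 1) * (-1) ^ (l + 1) * (((l + 1).choose m : ℝ) * (l.choose (n - 1) : ℝ) +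
    (-1) ^ (m + n) * ((l + m).choose m : ℝ) * ((n + l).choose (l + 1) : ℝ))

/-- A response matrix is admissible if it is bounded by `3 * 2 ^ (n + m)`. -/
def Kap (κ : ℕ → ℕ → ℝ) : Prop := ∀ n m, 1 ≤ n → 1 ≤ m → |κ n m| ≤ 3 * 2 ^ (n + m)

def KQ (κ : ℕ → ℕ → ℝ) (g : ℕ → ℂ) (j k : ℕ) : ℂ :=
  ∑ m ∈ Finset.Icc 1 k, ∑ n ∈ Finset.Icc 1 j,
    ((RR / rr) ^ (m + n) * κ n m / n : ℝ) * ee g n j * ee g m k

def KP (κ : ℕ → ℕ → ℝ) (g : ℕ → ℂ) (j k : ℕ) : ℂ :=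
  ∑ m ∈ Finset.Icc 1 k, ∑ n ∈ Finset.Icc 1 j,
    ((RR / rr) ^ (m + n) * κ n m / n : ℝ) * conj (ee g n j) * ee g m k

/-- The complex linear part of the kernel `a ↦ d`. -/
def Ak (κ : ℕ → ℕ → ℝ) (g : ℕ → ℂ) (j k : ℕ) : ℂ := - gam g j k + KQ κ g j k

/-- The antilinear part of the kernel, divided by `rr ^ 2`. -/
def Bk (κ : ℕ → ℕ → ℝ) (g : ℕ → ℂ) (j k : ℕ) : ℂ := KP κ g j k / rr ^ 2

/-! ### The parametrized sequences -/

def vv (n : ℕ) : ℝ := (if n = 2 ∨ n % 2 = 1 then eps else eps ^ 2) / (n : ℝ) ^ 3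

def gy (y : ℕ → ℂ) (n : ℕ) : ℂ :=
  if n < 2 then 0
  else if n = 2 ∨ n % 2 = 1 then vv n * (1 + ((y n).re : ℂ))
  else vv n * (I + 100 * y n)

/-! ### The reduced two by two problem at the pole `k` -/

def WW (σ : ℝ) (m : ℕ) : ℝ := (m + σ) / (m - σ)

/-- The system for the response `x m = (b m, β m)` of the modes `m ≠ k`. -/
def IsSys (A B : ℕ → ℕ → ℂ) (k : ℕ) (σ : ℝ) (x : ℕ → ℂ × ℂ) : Prop :=
  (∃ C : ℝ, ∀ m, ‖x m‖ ≤ C * (4 * m + 1)) ∧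
  (∀ m, (m = 0 ∨ m = k) → x m = 0) ∧
  ∀ m, 1 ≤ m → m ≠ k →
    (x m).1 = WW σ m * (conj (B k m) + ∑' j : ℕ, (j : ℂ) * rr ^ (2 * j - 2) *
      (conj (A j m) * conj (x j).2 + rr ^ 4 * conj (B j m) * (x j).1)) ∧
    (x m).2 = WW σ m * (conj (A k m) + rr ^ 4 * ∑' j : ℕ, (j : ℂ) * rr ^ (2 * j - 2) *
      (conj (A j m) * conj (x j).1 + conj (B j m) * (x j).2))

open Classical in
def sysv (A B : ℕ → ℕ → ℂ) (k : ℕ) (σ : ℝ) : ℕ → ℂ × ℂ :=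
  if h : ∃ x, IsSys A B k σ x then h.choose else 0

def PP (A B : ℕ → ℕ → ℂ) (k : ℕ) (σ : ℝ) : ℂ :=
  conj (B k k) + ∑' j : ℕ, (j : ℂ) * rr ^ (2 * j - 2) *
    (conj (A j k) * conj (sysv A B k σ j).2 + rr ^ 4 * conj (B j k) * (sysv A B k σ j).1)

def QQ (A B : ℕ → ℕ → ℂ) (k : ℕ) (σ : ℝ) : ℂ :=
  ∑' j : ℕ, (j : ℂ) * rr ^ (2 * j - 2) *
    (conj (A j k) * conj (sysv A B k σ j).1 + conj (B j k) * (sysv A B k σ j).2)

def TT (k : ℕ) (σ : ℝ) : ℝ := (k - σ) / ((k + σ) * (k * rr ^ (2 * k)))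

/-- `σ` near `k` is an eigenvalue exactly if `Psi A B k σ = 0`. -/
def Psi (A B : ℕ → ℕ → ℂ) (k : ℕ) (σ : ℝ) : ℝ :=
  ‖conj (A k k) + rr ^ 4 * QQ A B k σ‖ ^ 2 - ‖(TT k σ : ℂ) - rr ^ 2 * PP A B k σ‖ ^ 2

/-- The class of kernels for which the spectrum is simple and close to the positive integers. -/
structure Cls (A B : ℕ → ℕ → ℂ) : Prop where
  a : Kb (2 * eps) A
  b : Pb rr B
  d : ∀ k : ℕ, 1 ≤ k → eps ^ 2 / (2 * (2 * (k : ℝ)) ^ 3) ≤ ‖A k k‖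

/-! ### The space of solutions in terms of coefficients -/

def Sol (A B : ℕ → ℕ → ℂ) (σ : ℝ) : Submodule ℝ (ℝ × (ℕ → ℂ)) where
  carrier := {x | σ * x.1 = 0 ∧ x.2 0 = 0 ∧ (∃ C : ℝ, ∀ k, ‖x.2 k‖ ≤ C) ∧
    ∀ k : ℕ, 1 ≤ k → ∃ d : ℂ,
      HasSum (fun j : ℕ => (j : ℂ) * rr ^ (j + k) *
        (A j k * x.2 j + rr ^ 2 * B j k * conj (x.2 j))) d ∧
      ((k : ℂ) - σ) * x.2 k = (k + σ) * conj d}
  zero_mem' := by
    refine ⟨by simp, by simp, ⟨0, by simp⟩, fun k _ => ⟨0, ?_, by simp⟩⟩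
    simp
  add_mem' := by
    rintro x y ⟨h1, h2, ⟨C, h3⟩, h4⟩ ⟨k1, k2, ⟨D, k3⟩, k4⟩
    refine ⟨?_, ?_, ⟨C + D, fun k => ?_⟩, fun k hk => ?_⟩
    · simp only [Prod.fst_add]; linear_combination h1 + k1
    · simp [h2, k2]
    · exact (norm_add_le _ _).trans (add_le_add (h3 k) (k3 k))
    · obtain ⟨d, e1, e2⟩ := h4 k hk
      obtain ⟨d', f1, f2⟩ := k4 k hk
      refine ⟨d + d', ?_, ?_⟩
      · refine (e1.add f1).congr_fun ?_ |> fun h => h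
        intro j
        simp only [Prod.snd_add, Pi.add_apply, map_add]
        ring
      · simp only [Prod.snd_add, Pi.add_apply, map_add]
        linear_combination e2 + f2
  smul_mem' := by
    rintro c x ⟨h1, h2, ⟨C, h3⟩, h4⟩
    refine ⟨?_, ?_, ⟨|c| * C, fun k => ?_⟩, fun k hk => ?_⟩
    · simp only [Prod.smul_fst, smul_eq_mul]; linear_combination c * h1
    · simp [h2]
    · simp only [Prod.smul_snd, Pi.smul_apply, norm_smul, Real.norm_eq_abs]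
      exact mul_le_mul_of_nonneg_left (h3 k) (abs_nonneg c)
    · obtain ⟨d, e1, e2⟩ := h4 k hk
      refine ⟨c * d, ?_, ?_⟩
      · refine (e1.mul_left (c : ℂ)).congr_fun ?_ |> fun h => h
        intro j
        simp only [Prod.smul_snd, Pi.smul_apply, Complex.real_smul, map_mul, Complex.conj_ofReal]
        ring
      · simp only [Prod.smul_snd, Pi.smul_apply, Complex.real_smul, map_mul, Complex.conj_ofReal]
        linear_combination (c : ℂ) * e2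

end Pool.Agent.Stek
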